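import Mathlib

section

/-! MP_6bc8af_co: definitions for the exchange of two longest cycles. -/

open Classical

namespace LC

universe u

/-- number of elements of `T` at positions `≤ i` -/
noncomputable def cnt {P : Type} (T : Finset P) (x : P → ℕ) (i : ℕ) : ℕ :=
  (T.filter (fun t => x t ≤ i)).card

/-- `q` is the element of `T` that follows `p` -/
def Nxt {P : Type} (T : Finset P) (x : P → ℕ) (p q : P) : Prop :=
  p ∈ T ∧ q ∈ T ∧ x p < x q ∧ ∀ t ∈ T, ¬ (x p < x t ∧ x t < x q)

/-- consecutive elements joined by an arc of the first colour (the colour of the base point) -/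
def OutAdj {P : Type} (T : Finset P) (x : P → ℕ) (p q : P) : Prop :=
  (Nxt T x p q ∧ Even (cnt T x (x p))) ∨
    (p ∈ T ∧ q ∈ T ∧ (∀ t ∈ T, x t ≤ x p) ∧ (∀ t ∈ T, x q ≤ x t))

/-- consecutive elements joined by an arc of the second colour -/
def InAdj {P : Type} (T : Finset P) (x : P → ℕ) (p q : P) : Prop :=
  Nxt T x p q ∧ Odd (cnt T x (x p))

/-- connectivity of the graph made of the outer arcs of the first order, the inner arcs of the second order -/
def Conn {P : Type} (T : Finset P) (x y : P → ℕ) : Prop :=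
  ∀ S : Set P, (∃ p ∈ T, p ∈ S) →
    (∀ p q, OutAdj T x p q → (p ∈ S ↔ q ∈ S)) →
    (∀ p q, InAdj T y p q → (p ∈ S ↔ q ∈ S)) → ∀ p ∈ T, p ∈ S

/-- cyclic successor on `0, ..., L - 1` -/
def nx (L i : ℕ) : ℕ := if i + 1 = L then 0 else i + 1

/-- cyclic predecessor on `0, ..., L - 1` -/
def pv (L i : ℕ) : ℕ := if i = 0 then L - 1 else i - 1

/-- `c 0, ..., c (L - 1)` is a cycle of `G` -/
structure CycSeq {V : Type u} (G : SimpleGraph V) (L : ℕ) (c : ℕ → V) : Prop where
  three : 3 ≤ L
  inj : ∀ i < L, ∀ j < L, c i = c j → i = j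
  adj : ∀ i < L, G.Adj (c i) (c (nx L i))

/-- two cycles `c`, `d` of length `L` and disjoint paths `g p` (`p ∈ T`) from the vertex `x p` of `c` to the
vertex `y p` of `d` that avoid the common vertices; every common vertex is preceded by an even number of
elements of `T` on both cycles. -/
structure Sys {V : Type u} {P : Type} (G : SimpleGraph V) (L : ℕ) (c d : ℕ → V) (T : Finset P)
    (x y len : P → ℕ) (g : P → ℕ → V) : Prop where
  hc : CycSeq G L c
  hd : CycSeq G L d
  ne : T.Nonempty
  ev : Even T.card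
  xlt : ∀ p ∈ T, x p < L
  ylt : ∀ p ∈ T, y p < L
  len1 : ∀ p ∈ T, 1 ≤ len p
  g0 : ∀ p ∈ T, g p 0 = c (x p)
  g1 : ∀ p ∈ T, g p (len p) = d (y p)
  gadj : ∀ p ∈ T, ∀ i < len p, G.Adj (g p i) (g p (i + 1))
  ginj : ∀ p ∈ T, ∀ q ∈ T, ∀ i ≤ len p, ∀ j ≤ len q, g p i = g q j → p = q ∧ i = j
  gC : ∀ p ∈ T, ∀ i ≤ len p, ∀ j < L, g p i = c j → i = 0
  gD : ∀ p ∈ T, ∀ i ≤ len p, ∀ j < L, g p i = d j → i = len p
  cmark : ∀ i < L, ∀ j < L, c i = d j → Even (cnt T x i)
  dmark : ∀ i < L, ∀ j < L, c i = d j → Even (cnt T y j)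

/-- the exchanged graph: the edges `c i, c (i + 1)` with `cnt T x i` even, the edges `d i, d (i + 1)` with
`cnt T y i` odd, and all paths `g p`, `p ∈ T` -/
def EG {V : Type u} {P : Type} (L : ℕ) (c d : ℕ → V) (T : Finset P) (x y len : P → ℕ)
    (g : P → ℕ → V) : SimpleGraph V :=
  SimpleGraph.fromRel (fun a b =>
    (∃ i < L, Even (cnt T x i) ∧ a = c i ∧ b = c (nx L i)) ∨
    (∃ i < L, Odd (cnt T y i) ∧ a = d i ∧ b = d (nx L i)) ∨
    (∃ p ∈ T, ∃ i < len p, a = g p i ∧ b = g p (i + 1)))

/-- `t` disjoint paths from `A` to `B` -/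
def Linked0 {V : Type u} (H : SimpleGraph V) (A B : Set V) (t : ℕ) : Prop :=
  ∃ (len : Fin t → ℕ) (g : Fin t → ℕ → V),
    (∀ p, g p 0 ∈ A) ∧ (∀ p, g p (len p) ∈ B) ∧
    (∀ p, ∀ i < len p, H.Adj (g p i) (g p (i + 1))) ∧
    (∀ p q, ∀ i ≤ len p, ∀ j ≤ len q, g p i = g q j → p = q ∧ i = j)

/-- `t` disjoint paths from `A` to `B` that meet `A` and `B` only at their ends -/
def Linked {V : Type u} (H : SimpleGraph V) (A B : Set V) (t : ℕ) : Prop :=
  ∃ (len : Fin t → ℕ) (g : Fin t → ℕ → V),
    (∀ p, g p 0 ∈ A) ∧ (∀ p, g p (len p) ∈ B) ∧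
    (∀ p, ∀ i < len p, H.Adj (g p i) (g p (i + 1))) ∧
    (∀ p q, ∀ i ≤ len p, ∀ j ≤ len q, g p i = g q j → p = q ∧ i = j) ∧
    (∀ p, ∀ i ≤ len p, g p i ∈ A → i = 0) ∧ (∀ p, ∀ i ≤ len p, g p i ∈ B → i = len p)

/-- every walk from `A` to `B` meets `S` -/
def Sep {V : Type u} (H : SimpleGraph V) (A B : Set V) (S : Set V) : Prop :=
  ∀ (n : ℕ) (h : ℕ → V), h 0 ∈ A → h n ∈ B → (∀ i < n, H.Adj (h i) (h (i + 1))) → ∃ i ≤ n, h i ∈ S

end LC
end

section

/-! TASK K01 of MP_6bc8af_co. -/

open Classical

namespace LC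

universe u

/-- A cycle (walk) as a cyclic sequence.

PROOF. `three`: `SimpleGraph.Walk.IsCycle.three_le_length`. `adj`: for `i + 1 < w.length` this is
`SimpleGraph.Walk.adj_getVert_succ`; for `i + 1 = w.length`, `nx` is `0` and `w.getVert 0 = v = w.getVert w.length`
(`getVert_length`, `getVert_zero`). `inj`: `IsCycle` has an injectivity lemma for `getVert`
(`SimpleGraph.Walk.IsCycle.getVert_injOn'` or similar; otherwise from `support_nodup` of the tail). The description of the support:
`SimpleGraph.Walk.mem_support_iff_exists_getVert`; index `w.length` is replaced by `0`. -/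
theorem cycseq_of_walk {V : Type u} {G : SimpleGraph V} {v : V} (w : G.Walk v v) (hw : w.IsCycle) :
    CycSeq G w.length w.getVert ∧ ∀ z, z ∈ w.support ↔ ∃ i < w.length, w.getVert i = z := by
  have h3 := hw.three_le_length
  refine ⟨⟨h3, ?_, ?_⟩, ?_⟩
  · intro i hi j hj hij
    exact hw.getVert_injOn' (by simp only [Set.mem_ofPred_eq]; omega)
      (by simp only [Set.mem_ofPred_eq]; omega) hij
  · intro i hi
    have h := w.adj_getVert_succ hi
    unfold nx
    by_cases h1 : i + 1 = w.length
    · rw [if_pos h1, w.getVert_zero]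
      rwa [h1, w.getVert_length] at h
    · rw [if_neg h1]
      exact h
  · intro z
    rw [SimpleGraph.Walk.mem_support_iff_exists_getVert]
    constructor
    · rintro ⟨n, hn, hle⟩
      rcases Nat.lt_or_ge n w.length with h | h
      · exact ⟨n, h, hn⟩
      · have h1 : n = w.length := le_antisymm hle h
        subst h1
        rw [w.getVert_length] at hn
        exact ⟨0, by omega, by rw [w.getVert_zero, hn]⟩
    · rintro ⟨i, hi, hz⟩
      exact ⟨i, hz, hi.le⟩

private theorem K01_walk {V : Type u} {G : SimpleGraph V} (n : ℕ) : ∀ f : ℕ → V,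
    (∀ i < n, G.Adj (f i) (f (i + 1))) →
    ∃ p : G.Walk (f 0) (f n), p.length = n ∧ ∀ i ≤ n, p.getVert i = f i := by
  induction n with
  | zero =>
    intro f _
    refine ⟨SimpleGraph.Walk.nil, rfl, ?_⟩
    intro i hi
    have : i = 0 := by omega
    subst this
    rfl
  | succ n ih =>
    intro f hf
    obtain ⟨p, hp1, hp2⟩ := ih (fun i => f (i + 1)) (fun i hi => hf (i + 1) (by omega))
    refine ⟨SimpleGraph.Walk.cons (hf 0 (by omega)) p, ?_, ?_⟩
    · rw [SimpleGraph.Walk.length_cons, hp1]
    · intro i hi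
      cases i with
      | zero => rfl
      | succ i =>
        rw [SimpleGraph.Walk.getVert_cons_succ]
        exact hp2 i (by omega)

/-- A cyclic sequence as a cycle (walk).

PROOF. Build the walk `c 0, c 1, ..., c (L - 1), c 0`: by induction there is for every `n < L` a path
`p : G.Walk (c 0) (c n)` with `p.length = n`, `p.getVert i = c i` for `i ≤ n` (append the edge `c n, c (n + 1)`; or use
`SimpleGraph.Walk.ofSupport`-like constructions). For `n = L - 1` close it with the edge `c (L - 1), c 0`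
(`nx L (L - 1) = 0`): `SimpleGraph.Walk.cons_isCycle_iff` for the reversed closing (the closing edge is not an edge of the path
since `3 ≤ L`), or show `IsCycle` from `isCycle_def` (`support.tail` is nodup, by injectivity of `c`). The support is the set
of the `w.getVert i`, `i ≤ L`, and `w.getVert L = c 0`. -/
theorem walk_of_cycseq {V : Type u} {G : SimpleGraph V} {L : ℕ} {c : ℕ → V} (h : CycSeq G L c) :
    ∃ w : G.Walk (c 0) (c 0), w.IsCycle ∧ w.length = L ∧ (∀ i < L, w.getVert i = c i) ∧
      ∀ z, z ∈ w.support ↔ ∃ i < L, c i = z := by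
  have h3 := h.three
  set f : ℕ → V := fun i => if i < L then c i else c 0 with hf
  have hfi : ∀ i < L, f i = c i := fun i hi => by
    simp only [hf]
    rw [if_pos hi]
  have hfL : f L = c 0 := by
    simp only [hf]
    rw [if_neg (lt_irrefl _)]
  have hf0 : f 0 = c 0 := hfi 0 (by omega)
  obtain ⟨p, hp1, hp2⟩ := K01_walk (G := G) L f (by
    intro i hi
    have ha := h.adj i hi
    rw [hfi i hi]
    by_cases h1 : i + 1 = L
    · rw [h1, hfL]
      unfold nx at ha
      rwa [if_pos h1] at ha
    · rw [hfi (i + 1) (by omega)]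
      unfold nx at ha
      rwa [if_neg h1] at ha)
  have hlen : (p.copy hf0 hfL).length = L := by rw [SimpleGraph.Walk.length_copy, hp1]
  have hget : ∀ i ≤ L, (p.copy hf0 hfL).getVert i = f i := by
    intro i hi
    rw [SimpleGraph.Walk.getVert_copy]
    exact hp2 i hi
  refine ⟨p.copy hf0 hfL, ?_, hlen, ?_, ?_⟩
  · rw [SimpleGraph.Walk.isCycle_iff_isPath_tail_and_le_length, hlen]
    refine ⟨?_, h3⟩
    have hnn : ¬ (p.copy hf0 hfL).Nil := by
      rw [SimpleGraph.Walk.not_nil_iff_lt_length, hlen]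
      omega
    have ht := SimpleGraph.Walk.length_tail_add_one hnn
    rw [hlen] at ht
    rw [← SimpleGraph.Walk.IsPath.getVert_injOn_iff]
    intro i hi j hj hij
    rw [Set.mem_ofPred_eq] at hi hj
    rw [SimpleGraph.Walk.getVert_tail, SimpleGraph.Walk.getVert_tail,
      hget _ (by omega), hget _ (by omega)] at hij
    rcases Nat.lt_or_ge (i + 1) L with h1 | h1
    · rcases Nat.lt_or_ge (j + 1) L with h2 | h2
      · rw [hfi _ h1, hfi _ h2] at hij
        have := h.inj _ h1 _ h2 hij
        omega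
      · have h2' : j + 1 = L := by omega
        rw [hfi _ h1, h2', hfL] at hij
        have := h.inj _ h1 0 (by omega) hij
        omega
    · have h1' : i + 1 = L := by omega
      rcases Nat.lt_or_ge (j + 1) L with h2 | h2
      · rw [hfi _ h2, h1', hfL] at hij
        have := h.inj 0 (by omega) _ h2 hij
        omega
      · omega
  · intro i hi
    rw [hget i hi.le, hfi i hi]
  · intro z
    rw [SimpleGraph.Walk.mem_support_iff_exists_getVert, hlen]
    constructor
    · rintro ⟨n, hn, hle⟩
      rw [hget n hle] at hn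
      rcases Nat.lt_or_ge n L with h1 | h1
      · exact ⟨n, h1, by rw [← hfi n h1, hn]⟩
      · have h2 : n = L := le_antisymm hle h1
        rw [h2, hfL] at hn
        exact ⟨0, by omega, hn⟩
    · rintro ⟨i, hi, hz⟩
      exact ⟨i, by rw [hget i hi.le, hfi i hi, hz], hi.le⟩

end LC
end

section

/-! TASK M02 of MP_6bc8af_co. -/

open Classical

namespace LC

universe u

/-- Menger's theorem for a graph without edges.

PROOF. A walk from `A` to `B` has length `0` (no edges), so `A ∩ B` separates: apply the hypothesis to the finset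
`(A ∩ B).toFinset` (finite type), so `t ≤ (A ∩ B).ncard`. Choose an injection `e : Fin t → A ∩ B`
(`Function.Embedding.nonempty_of_card_le`) and take `len p = 0`, `g p i = e p`. -/
theorem menger_bot {V : Type u} [Fintype V] (A B : Set V) (t : ℕ)
    (h : ∀ S : Finset V, Sep (⊥ : SimpleGraph V) A B ↑S → t ≤ S.card) :
    Linked (⊥ : SimpleGraph V) A B t := by
  have hfin : (A ∩ B).Finite := Set.toFinite _
  have hS := h hfin.toFinset (by
    intro n w h0 hn hw
    have hn0 : n = 0 := by
      by_contra hne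
      have := hw 0 (Nat.pos_of_ne_zero hne)
      simp at this
    subst hn0
    exact ⟨0, le_refl _, by simpa using ⟨h0, hn⟩⟩)
  have hcard : Fintype.card (Fin t) ≤ Fintype.card ↥(hfin.toFinset) := by
    rw [Fintype.card_fin, Fintype.card_coe]
    exact hS
  obtain ⟨e⟩ := Function.Embedding.nonempty_of_card_le hcard
  have hmem : ∀ p, ((e p : V) ∈ A) ∧ ((e p : V) ∈ B) := by
    intro p
    exact (Set.Finite.mem_toFinset hfin).1 (e p).2
  refine ⟨fun _ => 0, fun p _ => (e p : V), fun p => (hmem p).1, fun p => (hmem p).2, ?_, ?_, ?_, ?_⟩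
  · intro p i hi
    simp only at hi
    omega
  · intro p q i hi j hj hij
    have h1 : e p = e q := Subtype.ext hij
    exact ⟨e.injective h1, by simp only at hi hj; omega⟩
  · intro p i hi _
    simp only at hi
    omega
  · intro p i hi _
    simp only at hi
    simpa using hi

end LC
end

section

/-! TASK M01 of MP_6bc8af_co. -/

open Classical

namespace LC

universe u

/-- Reversal of separators.

PROOF. Given a walk `h 0, ..., h n` from `B` to `A`, the sequence `i ↦ h (n - i)` is a walk from `A` to `B` (for `i < n`,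
`n - i = (n - (i + 1)) + 1`, use symmetry of `H`), so it meets `S` at some `i ≤ n`; then `h (n - i) ∈ S`. -/
theorem Sep.symm {V : Type u} {H : SimpleGraph V} {A B S : Set V} (h : Sep H A B S) : Sep H B A S := by
  intro n w h0 hn hw
  obtain ⟨i, hi, hS⟩ := h n (fun i => w (n - i)) (by simpa using hn) (by simpa using h0) (by
    intro i hi
    have e : n - i = (n - (i + 1)) + 1 := by omega
    have := (hw (n - (i + 1)) (by omega)).symm
    simp only [e]
    exact this)
  exact ⟨n - i, by omega, hS⟩

/-- Reversal of path systems.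

PROOF. Replace `g p i` by `g p (len p - i)`; all conditions are immediate (for the disjointness: `len p - i = len p - j`
with `i, j ≤ len p` gives `i = j`). -/
theorem Linked.symm {V : Type u} {H : SimpleGraph V} {A B : Set V} {t : ℕ} (h : Linked H A B t) :
    Linked H B A t := by
  obtain ⟨len, g, h0, h1, hadj, hinj, hA, hB⟩ := h
  refine ⟨len, fun p i => g p (len p - i), ?_, ?_, ?_, ?_, ?_, ?_⟩
  · intro p; simpa using h1 p
  · intro p; simpa using h0 p
  · intro p i hi
    have e : len p - i = (len p - (i + 1)) + 1 := by omega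
    have := (hadj p (len p - (i + 1)) (by omega)).symm
    simp only [e]
    exact this
  · intro p q i hi j hj hij
    obtain ⟨hpq, h2⟩ := hinj p q (len p - i) (by omega) (len q - j) (by omega) hij
    subst hpq
    exact ⟨rfl, by omega⟩
  · intro p i hi hm
    have := hB p (len p - i) (by omega) hm
    omega
  · intro p i hi hm
    have := hA p (len p - i) (by omega) hm
    omega

/-- Trimming of paths.

PROOF. For each `p` let `a p` be the largest `i ≤ len p` with `g p i ∈ A` (`i = 0` is one), and `b p` the least `i` with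
`a p ≤ i ≤ len p` and `g p i ∈ B` (`i = len p` is one). The new paths are `g' p i = g p (a p + i)` of length
`len' p = b p - a p`. If `g' p i ∈ A` with `i ≤ len' p` then `a p + i ≤ a p`, so `i = 0`; if `g' p i ∈ B` then `a p + i ≥ b p`,
so `i = len' p`. The other conditions are inherited. (`Nat.findGreatest`, `Nat.find`.) -/
theorem Linked0.trim {V : Type u} {H : SimpleGraph V} {A B : Set V} {t : ℕ} (h : Linked0 H A B t) :
    Linked H A B t := by
  obtain ⟨len, g, h0, h1, hadj, hinj⟩ := h
  have hab : ∀ p : Fin t, ∃ a b : ℕ, a ≤ b ∧ b ≤ len p ∧ g p a ∈ A ∧ g p b ∈ B ∧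
      (∀ i ≤ len p, g p i ∈ A → i ≤ a) ∧ (∀ i, a ≤ i → i < b → g p i ∉ B) := by
    intro p
    let a := Nat.findGreatest (fun i => g p i ∈ A) (len p)
    have haA : g p a ∈ A := Nat.findGreatest_spec (P := fun i => g p i ∈ A) (Nat.zero_le _) (h0 p)
    have hal : a ≤ len p := Nat.findGreatest_le _
    have hmax : ∀ i ≤ len p, g p i ∈ A → i ≤ a := by
      intro i hi hiA
      exact Nat.le_findGreatest (P := fun i => g p i ∈ A) hi hiA
    have hex : ∃ b, a ≤ b ∧ g p b ∈ B := ⟨len p, hal, h1 p⟩
    let b := Nat.find hex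
    have hb := Nat.find_spec hex
    refine ⟨a, b, hb.1, Nat.find_min' hex ⟨hal, h1 p⟩, haA, hb.2, hmax, ?_⟩
    intro i hai hib hiB
    exact Nat.find_min hex hib ⟨hai, hiB⟩
  choose a b hle hbl haA hbB hmax hmin using hab
  refine ⟨fun p => b p - a p, fun p i => g p (a p + i), ?_, ?_, ?_, ?_, ?_, ?_⟩
  · intro p; simpa using haA p
  · intro p
    have e : a p + (b p - a p) = b p := by have := hle p; omega
    simp only [e]
    exact hbB p
  · intro p i hi
    have h3 := hle p
    have h4 := hbl p
    simp only at hi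
    have := hadj p (a p + i) (by omega)
    simpa [add_assoc] using this
  · intro p q i hi j hj hij
    have h3 := hle p
    have h4 := hbl p
    have h5 := hle q
    have h6 := hbl q
    simp only at hi hj hij
    obtain ⟨hpq, h2⟩ := hinj p q (a p + i) (by omega) (a q + j) (by omega) hij
    subst hpq
    exact ⟨rfl, by omega⟩
  · intro p i hi hm
    have h3 := hle p
    have h4 := hbl p
    simp only at hi hm
    have := hmax p (a p + i) (by omega) hm
    omega
  · intro p i hi hm
    have h3 := hle p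
    simp only at hi hm
    by_contra hne
    exact hmin p (a p + i) (by omega) (by simp only at hne; omega) hm

/-- Path systems in a subgraph are path systems. PROOF. Immediate. -/
theorem Linked.mono {V : Type u} {H H' : SimpleGraph V} {A B : Set V} {t : ℕ} (hle : H' ≤ H)
    (h : Linked H' A B t) : Linked H A B t := by
  obtain ⟨len, g, h0, h1, hadj, hinj, hA, hB⟩ := h
  exact ⟨len, g, h0, h1, fun p i hi => hle (hadj p i hi), hinj, hA, hB⟩

end LC
end

section

/-! TASK M03 of MP_6bc8af_co. -/

open Classical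

namespace LC

universe u

/-- there is a walk of `H` from the set `A` to the set `B` that avoids `S` -/
def Joins {V : Type u} (H : SimpleGraph V) (A B : Set V) (S : Set V) : Prop :=
  ∃ (n : ℕ) (h : ℕ → V), h 0 ∈ A ∧ h n ∈ B ∧ (∀ i < n, H.Adj (h i) (h (i + 1))) ∧ ∀ i ≤ n, h i ∉ S

/-- PROOF. Unfold both definitions (push the negation inside). -/
theorem not_sep_iff {V : Type u} {H : SimpleGraph V} {A B S : Set V} : ¬ Sep H A B S ↔ Joins H A B S := by
  unfold Sep Joins
  push Not
  rfl

/-- PROOF. Reverse the walk, as in `Sep.symm`. -/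
theorem Joins.symm {V : Type u} {H : SimpleGraph V} {A B S : Set V} (h : Joins H A B S) : Joins H B A S := by
  obtain ⟨n, f, h0, h1, h2, h3⟩ := h
  refine ⟨n, fun i => f (n - i), ?_, ?_, ?_, ?_⟩
  · simpa using h1
  · simpa using h0
  · intro i hi
    have e : n - i = n - (i + 1) + 1 := by omega
    have h4 := h2 (n - (i + 1)) (by omega)
    rw [← e] at h4
    exact h4.symm
  · intro i _
    exact h3 (n - i) (by omega)

/-- Concatenation of walks at a vertex.

PROOF. `n = n1 + n2`, `h i = h1 i` for `i ≤ n1` and `h i = h2 (i - n1)` for `i > n1`; note `h1 n1 = x = h2 0`. -/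
theorem Joins.trans {V : Type u} {H : SimpleGraph V} {A B S : Set V} {x : V} (h1 : Joins H A {x} S)
    (h2 : Joins H {x} B S) : Joins H A B S := by
  obtain ⟨n, f, f0, f1, f2, f3⟩ := h1
  obtain ⟨m, g, g0, g1, g2, g3⟩ := h2
  have hx : f n = g 0 := by
    rw [Set.mem_singleton_iff.1 f1, Set.mem_singleton_iff.1 g0]
  refine ⟨n + m, fun i => if i ≤ n then f i else g (i - n), ?_, ?_, ?_, ?_⟩
  · simpa using f0
  · by_cases hm : m = 0
    · subst hm
      simp only [add_zero, le_refl, if_true]
      rw [hx]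
      exact g1
    · have h5 : ¬ (n + m ≤ n) := by omega
      simp only [if_neg h5]
      have e : n + m - n = m := by omega
      rw [e]
      exact g1
  · intro i hi
    rcases lt_trichotomy i n with h6 | h6 | h6
    · have h7 : i ≤ n := by omega
      have h8 : i + 1 ≤ n := by omega
      simp only [if_pos h7, if_pos h8]
      exact f2 i h6
    · subst h6
      have h8 : ¬ (i + 1 ≤ i) := by omega
      simp only [le_refl, if_true, if_neg h8]
      have e : i + 1 - i = 0 + 1 := by omega
      rw [e, hx]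
      exact g2 0 (by omega)
    · have h7 : ¬ (i ≤ n) := by omega
      have h8 : ¬ (i + 1 ≤ n) := by omega
      simp only [if_neg h7, if_neg h8]
      have e : i + 1 - n = i - n + 1 := by omega
      rw [e]
      exact g2 (i - n) (by omega)
  · intro i hi
    by_cases h7 : i ≤ n
    · simp only [if_pos h7]
      exact f3 i h7
    · simp only [if_neg h7]
      exact g3 (i - n) (by omega)

/-- The role of one edge. `S` separates `A` from `B` in `H - xy` but not in `H`.

PROOF. Take a walk `h 0, ..., h n` of `H` from `A` to `B` avoiding `S` (`not_sep_iff`). Since `S` separates in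
`H' = H.deleteEdges {s(x, y)}`, some edge `h i, h (i + 1)` (`i < n`) is not in `H'`, i.e. is the edge `s(x, y)`
(`SimpleGraph.deleteEdges_adj`). Let `i` be the first such index (`Nat.find`) and `j` the last such index
(`Nat.findGreatest`, or the first one of the reversed walk). The initial part `h 0, ..., h i` and the final part
`h (j + 1), ..., h n` are walks of `H'` avoiding `S`. Let `u = h i ∈ {x, y}` and `v = h (j + 1) ∈ {x, y}`. If `u = v`
then the two parts joined are a walk of `H'` from `A` to `B` avoiding `S` (`Joins.trans`), impossible. So `u ≠ v`, which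
is one of the two cases. -/
theorem joins_cases {V : Type u} {H : SimpleGraph V} {A B S : Set V} {x y : V}
    (h1 : Sep (H.deleteEdges {s(x, y)}) A B S) (h2 : ¬ Sep H A B S) :
    (Joins (H.deleteEdges {s(x, y)}) A {x} S ∧ Joins (H.deleteEdges {s(x, y)}) {y} B S) ∨
    (Joins (H.deleteEdges {s(x, y)}) A {y} S ∧ Joins (H.deleteEdges {s(x, y)}) {x} B S) := by
  rw [not_sep_iff] at h2
  obtain ⟨n, f, f0, f1, f2, f3⟩ := h2
  -- bad indices
  have hbadx : ∀ i, (i < n ∧ ¬ (H.deleteEdges {s(x, y)}).Adj (f i) (f (i + 1))) →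
      (f i = x ∧ f (i + 1) = y) ∨ (f i = y ∧ f (i + 1) = x) := by
    rintro i ⟨hi, hb⟩
    rw [SimpleGraph.deleteEdges_adj] at hb
    have h3 : s(f i, f (i + 1)) ∈ ({s(x, y)} : Set (Sym2 V)) := by
      by_contra h4
      exact hb ⟨f2 i hi, h4⟩
    rw [Set.mem_singleton_iff, Sym2.eq_iff] at h3
    exact h3
  have hex : ∃ i, i < n ∧ ¬ (H.deleteEdges {s(x, y)}).Adj (f i) (f (i + 1)) := by
    by_contra hno
    push Not at hno
    obtain ⟨i, hi, hiS⟩ := h1 n f f0 f1 hno
    exact f3 i hi hiS
  -- the first one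
  obtain ⟨i, hi, hmin⟩ : ∃ i, (i < n ∧ ¬ (H.deleteEdges {s(x, y)}).Adj (f i) (f (i + 1))) ∧
      ∀ k < i, (H.deleteEdges {s(x, y)}).Adj (f k) (f (k + 1)) := by
    refine ⟨Nat.find hex, Nat.find_spec hex, fun k hk => ?_⟩
    have h4 := Nat.find_min hex hk
    by_contra h5
    exact h4 ⟨by have := (Nat.find_spec hex).1; omega, h5⟩
  -- the last one
  obtain ⟨j, hj, hmax⟩ : ∃ j, (j < n ∧ ¬ (H.deleteEdges {s(x, y)}).Adj (f j) (f (j + 1))) ∧
      ∀ k, j < k → k < n → (H.deleteEdges {s(x, y)}).Adj (f k) (f (k + 1)) := by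
    have hsp := Nat.findGreatest_spec
      (P := fun j => j < n ∧ ¬ (H.deleteEdges {s(x, y)}).Adj (f j) (f (j + 1)))
      (m := i) (n := n) hi.1.le hi
    refine ⟨_, hsp, fun k hk hkn => ?_⟩
    have h4 := Nat.findGreatest_is_greatest hk hkn.le
    by_contra h5
    exact h4 ⟨hkn, h5⟩
  have j1 : Joins (H.deleteEdges {s(x, y)}) A {f i} S :=
    ⟨i, f, f0, rfl, fun k hk => hmin k hk, fun k hk => f3 k (by omega)⟩
  have j2 : Joins (H.deleteEdges {s(x, y)}) {f (j + 1)} B S := by
    refine ⟨n - (j + 1), fun k => f (j + 1 + k), rfl, ?_, ?_, ?_⟩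
    · have e : j + 1 + (n - (j + 1)) = n := by omega
      simp only [e]
      exact f1
    · intro k hk
      exact hmax (j + 1 + k) (by omega) (by omega)
    · intro k hk
      exact f3 _ (by omega)
  have hne : f i ≠ f (j + 1) := by
    intro h4
    rw [h4] at j1
    exact (not_sep_iff.2 (j1.trans j2)) h1
  rcases hbadx i hi with ⟨e1, -⟩ | ⟨e1, -⟩
  · rcases hbadx j hj with ⟨-, e2⟩ | ⟨-, e2⟩
    · rw [e1] at j1
      rw [e2] at j2
      exact Or.inl ⟨j1, j2⟩
    · exact absurd (e1.trans e2.symm) hne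
  · rcases hbadx j hj with ⟨-, e2⟩ | ⟨-, e2⟩
    · exact absurd (e1.trans e2.symm) hne
    · rw [e1] at j1
      rw [e2] at j2
      exact Or.inr ⟨j1, j2⟩

/-- A set separating `A` from `S ∪ {x}` in `H - xy` separates `A` from `B` in `H`.

PROOF. Write `H' = H.deleteEdges {s(x, y)}`. Let `h 0, ..., h n` be a walk of `H` from `A` to `B`. Some `h i` is in
`insert x S`: otherwise the walk avoids `x`, so all its edges are in `H'`, and it avoids `S`, contradicting `h1`. Let `i`
be the first such index. For `k < i` the edge `h k, h (k + 1)` is in `H'`: otherwise it is `s(x, y)` and `h k ≠ x` (as `k < i`),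
so `h k = y`; then `h 0, ..., h k` avoids `S` and `x`, so it is a walk of `H'` and `Joins H' A {y} S`; with `h3` and
`Joins.trans` we get `Joins H' A B S`, contradicting `h1` (`not_sep_iff`). Hence `h 0, ..., h i` is a walk of `H'` from `A` to
`insert x S`, and it meets `Z` by `h4`. -/
theorem sep_of_sep {V : Type u} {H : SimpleGraph V} {A B S Z : Set V} {x y : V}
    (h1 : Sep (H.deleteEdges {s(x, y)}) A B S)
    (h3 : Joins (H.deleteEdges {s(x, y)}) {y} B S)
    (h4 : Sep (H.deleteEdges {s(x, y)}) A (insert x S) Z) : Sep H A B Z := by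
  intro n f f0 f1 f2
  have hedge : ∀ k < n, ¬ (H.deleteEdges {s(x, y)}).Adj (f k) (f (k + 1)) →
      (f k = x ∧ f (k + 1) = y) ∨ (f k = y ∧ f (k + 1) = x) := by
    intro k hk hb
    rw [SimpleGraph.deleteEdges_adj] at hb
    have h5 : s(f k, f (k + 1)) ∈ ({s(x, y)} : Set (Sym2 V)) := by
      by_contra h6
      exact hb ⟨f2 k hk, h6⟩
    rw [Set.mem_singleton_iff, Sym2.eq_iff] at h5
    exact h5
  have hex : ∃ i, i ≤ n ∧ f i ∈ insert x S := by
    by_contra hno
    push Not at hno
    obtain ⟨i, hi, hiS⟩ := h1 n f f0 f1 (fun k hk => by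
      by_contra hb
      rcases hedge k hk hb with ⟨e1, -⟩ | ⟨-, e1⟩
      · exact hno k hk.le (by rw [e1]; exact Set.mem_insert _ _)
      · exact hno (k + 1) hk (by rw [e1]; exact Set.mem_insert _ _))
    exact hno i hi (Set.mem_insert_of_mem _ hiS)
  obtain ⟨i, ⟨hin, hi⟩, hmin⟩ : ∃ i, (i ≤ n ∧ f i ∈ insert x S) ∧ ∀ k < i, f k ∉ insert x S := by
    refine ⟨Nat.find hex, Nat.find_spec hex, fun k hk hk' => ?_⟩
    have h6 := Nat.find_min hex hk
    exact h6 ⟨by have := (Nat.find_spec hex).1; omega, hk'⟩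
  have hadj : ∀ k < i, (H.deleteEdges {s(x, y)}).Adj (f k) (f (k + 1)) := by
    intro k hk
    by_contra hb
    have hkx : f k ≠ x := fun e => hmin k hk (by rw [e]; exact Set.mem_insert _ _)
    have hky : f k = y := by
      rcases hedge k (by omega) hb with ⟨e1, -⟩ | ⟨e1, -⟩
      · exact absurd e1 hkx
      · exact e1
    have j1 : Joins (H.deleteEdges {s(x, y)}) A {y} S := by
      refine ⟨k, f, f0, hky, fun l hl => ?_, fun l hl => ?_⟩
      · by_contra hb'
        rcases hedge l (by omega) hb' with ⟨e1, -⟩ | ⟨-, e1⟩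
        · exact hmin l (by omega) (by rw [e1]; exact Set.mem_insert _ _)
        · exact hmin (l + 1) (by omega) (by rw [e1]; exact Set.mem_insert _ _)
      · exact fun h6 => hmin l (by omega) (Set.mem_insert_of_mem _ h6)
    exact (not_sep_iff.2 (j1.trans h3)) h1
  obtain ⟨m, hm, hmZ⟩ := h4 i f f0 hi hadj
  exact ⟨m, by omega, hmZ⟩

end LC
end
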