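import Pool.Agent.Lib.MP_6bc8af_co.Mg.G012

section

/-! TASK LB T08 of MP_6bc8af_co: attachments of different beads are far. -/

set_option autoImplicit false

open Classical

namespace LB

universe u

/-- From a vertex of a connected set that meets the path `p` one reaches the path.
PROOF. `ConnSet` gives a path in `K` from `x` to a vertex `p q₀ ∈ K`; `IsPth.firstHit` with `B = {v | ∃ q < a, p q = v}`. -/
theorem reach_path {V : Type u} {G : SimpleGraph V} {a : ℕ} {p : ℕ → V} {K : Set V} (hK : ConnSet G K)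
    (hp : ∃ q < a, p q ∈ K) {x : V} (hx : x ∈ K) :
    ∃ (q : ℕ) (l : List V), q < a ∧ p q ∈ K ∧ IsPth G K x (p q) l ∧ ∀ v ∈ l, (∃ q' < a, p q' = v) → v = p q := by
  obtain ⟨q₀, hq₀, hq₀K⟩ := hp
  obtain ⟨l, hl⟩ := hK x hx (p q₀) hq₀K
  obtain ⟨z, l', hz, hl', hav, -⟩ := hl.firstHit (B := {v | ∃ q < a, p q = v}) ⟨q₀, hq₀, rfl⟩
  obtain ⟨q, hq, rfl⟩ := hz
  exact ⟨q, l', hq, hl'.2.2.2.2 _ hl'.ends.2.1, hl', fun v hv hB => hav v hv hB⟩

/-- PROOF. Let `x ∈ K` be adjacent to `c i`, `y ∈ K'` adjacent to `c j` (definition of `att`; `i, j < L`). `reach_path` gives `q`, `l` for `x` and `q'`, `l'` for `y`.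
By `IsBead`, `q ≤ u + 25 r` and `u' ≤ q' + 25 r'`. If `q' ≤ q` the claim is clear. If `q < q'`: by `pth_of_seq` (with `h t = p (q + t)`, `n = q' - q`, `hp`) there is a
path `m` in `off L c` from `p q` to `p q'` with `q' - q + 1` vertices, all of the form `p t` with `t < a`. A vertex of `l` on `m` is `p q`, a vertex of `l'` on `m` is `p q'`;
`l` and `l'` are disjoint (`hd`). Glue `l`, `m`, `l'.reverse` (`IsPth.glue` twice; `K, K' ⊆ off L c` by `Encl`): a path from `x` to `y` in `off L c` with at least `q' - q + 1`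
vertices. `gap` gives `q' - q + 2 ≤ cd L i j`. -/
theorem bead_cross {V : Type u} {G : SimpleGraph V} {L : ℕ} {c : ℕ → V} (hC : Longest G L c) {a : ℕ} {p : ℕ → V}
    (hp : IsOffPath G L c a p) {u r u' r' : ℕ} {K K' : Set V} {z z' : ℕ} (hb : IsBead G L c a p u r K z)
    (hb' : IsBead G L c a p u' r' K' z') (hd : ∀ v ∈ K, v ∉ K') {i j : ℕ} (hij : i ≠ j)
    (hi : i ∈ att G L c K) (hj : j ∈ att G L c K') : u' ≤ u + cd L i j + 25 * r + 25 * r' := by
  obtain ⟨-, -, -, hcon, hmeet, hwin, S, -, hE, -⟩ := hb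
  obtain ⟨-, -, -, hcon', hmeet', hwin', S', -, hE', -⟩ := hb'
  obtain ⟨hp1, hp2, hp3⟩ := hp
  unfold att at hi hj
  rw [Finset.mem_filter, Finset.mem_range] at hi hj
  obtain ⟨hiL, x, hx, hix⟩ := hi
  obtain ⟨hjL, y, hy, hjy⟩ := hj
  obtain ⟨q, l, hq, hqK, hl, hlav⟩ := reach_path hcon hmeet hx
  obtain ⟨q', l', hq', hqK', hl', hlav'⟩ := reach_path hcon' hmeet' hy
  have h1 := (hwin q hq hqK).1
  have h2 := (hwin' q' hq' hqK').2
  rcases Nat.lt_or_ge q q' with hlt | hge
  · obtain ⟨m, hm, hmlen, hmem⟩ := pth_of_seq (G := G) (A := off L c) (q' - q) (fun t => p (q + t))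
      (fun t ht => hp2 (q + t) (by omega)) (fun t ht => hp3 (q + t) (by omega))
      (fun t ht t' ht' he => by
        have := hp1 (q + t) (by omega) (q + t') (by omega) he
        omega)
    rw [Nat.add_zero, show q + (q' - q) = q' by omega] at hm
    have hmB : ∀ v ∈ m, ∃ t < a, p t = v := by
      intro v hv
      obtain ⟨t, ht, rfl⟩ := (hmem v).1 hv
      exact ⟨q + t, by omega, rfl⟩
    obtain ⟨m1, hm1, hlen1, hmem1⟩ := (hl.mono hE.1).glue hm
      (fun v hv hv' => hlav v hv (hmB v hv'))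
    obtain ⟨m2, hm2, hlen2, -⟩ := hm1.glue (hl'.mono hE'.1).reverse (by
      intro v hv hv'
      rw [List.mem_reverse] at hv'
      rcases hmem1 v hv with h | h
      · exact absurd (hl'.2.2.2.2 v hv') (hd v (hl.2.2.2.2 v h))
      · exact hlav' v hv' (hmB v h))
    rw [List.length_reverse] at hlen2
    have h3 := gap hC hij hiL hjL hm2 hix hjy
    have h4 := hl.ends.2.2
    have h5 := hl'.ends.2.2
    omega
  · omega

end LB
end

section

/-! TASK LB T12 of MP_6bc8af_co: the path between two beads. -/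

set_option autoImplicit false

open Classical

namespace LB

universe u

/-- The path from `p q` to `p q'`. PROOF. `pth_of_seq` with `h t = p (q + t)`, `n = q' - q`. -/
theorem p_path {V : Type u} {G : SimpleGraph V} {L : ℕ} {c : ℕ → V} {a : ℕ} {p : ℕ → V}
    (hp : IsOffPath G L c a p) {q q' : ℕ} (hq : q ≤ q') (hq' : q' < a) :
    ∃ l : List V, IsPth G (off L c) (p q) (p q') l ∧ l.length = q' - q + 1 ∧ ∀ v ∈ l, ∃ t < a, p t = v := by
  obtain ⟨l, h1, h2, h3⟩ := pth_of_seq (G := G) (A := off L c) (q' - q) (fun t => p (q + t))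
    (fun i hi => hp.2.1 (q + i) (by omega)) (fun i hi => hp.2.2 (q + i) (by omega))
    (fun i hi j hj hij => by
      have := hp.1 (q + i) (by omega) (q + j) (by omega) hij
      omega)
  refine ⟨l, ?_, h2, fun v hv => ?_⟩
  · have e : q + (q' - q) = q' := by omega
    have h4 : IsPth G (off L c) (p (q + 0)) (p (q + (q' - q))) l := h1
    rw [e] at h4
    exact h4
  · obtain ⟨i, hi, hv⟩ := (h3 v).1 hv
    exact ⟨q + i, by omega, hv⟩

/-- Attachments of two disjoint connected sets meeting the path. -/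
theorem inter_core {V : Type u} {G : SimpleGraph V} {L : ℕ} {c : ℕ → V} (hC : Longest G L c) {a : ℕ} {p : ℕ → V}
    (hp : IsOffPath G L c a p) {K K' : Set V} (hK : ConnSet G K) (hK' : ConnSet G K')
    (hpK : ∃ q < a, p q ∈ K) (hpK' : ∃ q < a, p q ∈ K') (hKo : K ⊆ off L c) (hKo' : K' ⊆ off L c)
    (hd : ∀ v ∈ K, v ∉ K') {i j : ℕ} (hij : i ≠ j) (hi : i ∈ att G L c K) (hj : j ∈ att G L c K') :
    ∃ q q', q < a ∧ q' < a ∧ p q ∈ K ∧ p q' ∈ K' ∧ max q q' - min q q' + 2 ≤ cd L i j := by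
  obtain ⟨hi1, x, hx, hix⟩ := Finset.mem_filter.1 hi
  obtain ⟨hj1, y, hy, hjy⟩ := Finset.mem_filter.1 hj
  rw [Finset.mem_range] at hi1 hj1
  obtain ⟨q, l, hq, hqK, hl, hl'⟩ := reach_path hK hpK hx
  obtain ⟨q', m, hq', hqK', hm, hm'⟩ := reach_path hK' hpK' hy
  -- the middle path
  have hmid : ∃ s : List V, IsPth G (off L c) (p q) (p q') s ∧ s.length = max q q' - min q q' + 1 ∧
      ∀ v ∈ s, ∃ t < a, p t = v := by
    rcases Nat.le_total q q' with h | h
    · obtain ⟨s, h1, h2, h3⟩ := p_path hp h hq'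
      exact ⟨s, h1, by rw [h2, max_eq_right h, min_eq_left h], h3⟩
    · obtain ⟨s, h1, h2, h3⟩ := p_path hp h hq
      refine ⟨s.reverse, h1.reverse, by rw [List.length_reverse, h2, max_eq_left h, min_eq_right h], ?_⟩
      intro v hv
      exact h3 v (List.mem_reverse.1 hv)
  obtain ⟨s, hs, hslen, hsP⟩ := hmid
  obtain ⟨t, ht, htlen, htm⟩ := (hl.mono hKo).glue hs (fun v hv hv' => hl' v hv (hsP v hv'))
  obtain ⟨w, hw, hwlen, -⟩ := ht.glue (hm.mono hKo').reverse (fun v hv hv' => by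
    rw [List.mem_reverse] at hv'
    rcases htm v hv with h | h
    · exact absurd (hm.2.2.2.2 v hv') (hd v (hl.2.2.2.2 v h))
    · exact hm' v hv' (hsP v h))
  have hg := gap hC hij hi1 hj1 hw hix hjy
  have h1 := hl.ends.2.2
  have h2 := hm.ends.2.2
  rw [List.length_reverse] at hwlen
  exact ⟨q, q', hq, hq', hqK, hqK', by omega⟩

end LB
end
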