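import Pool.Agent.Lib.MP_6bc8af_co.Mg.G001

section

/-! TASK M04 of MP_6bc8af_co. -/

open Classical

namespace LC

universe u

/-- Combination of the two path systems.

PROOF. Write `H' = H.deleteEdges {s(x, y)} ≤ H`, `P = insert x S`, `Q = insert y S`, both with `t = S.card + 1` elements
(`hx`, `hy`). Let `(len1, g1)` be the paths from `A` to `P`, `(len2, g2)` those from `Q` to `B`. The ends `g1 p (len1 p)`
(`p : Fin t`) are different elements of `P`, so every element of `P` is one of them; the starts `g2 q 0` are all elements
of `Q`, each once. Define `m p : Fin t`: if `z = g1 p (len1 p)` is in `S`, `m p` is the `q` with `g2 q 0 = z`; if `z = x`,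
`m p` is the `q` with `g2 q 0 = y`. `m` is injective (`x ∉ S`, `y ∉ S`). The new path `p`: in the first case
`g1 p 0, ..., g1 p (len1 p) = g2 q 0, g2 q 1, ..., g2 q (len2 q)` (length `len1 p + len2 q`); in the second case
`g1 p 0, ..., g1 p (len1 p) = x, y = g2 q 0, ..., g2 q (len2 q)` (length `len1 p + 1 + len2 q`, the middle step is the edge
`hxy` of `H`).
KEY FACT: if `g1 p i = g2 q j = z` (`i ≤ len1 p`, `j ≤ len2 q`) then `z ∈ S`, `i = len1 p`, `j = 0`. Indeed if
`z ∉ S`: the vertices `g1 p 0, ..., g1 p i` avoid `S` (a vertex of the path in `P` is the last one, so the only one that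
could be in `S` is `g1 p i = z`), and the vertices `g2 q j, ..., g2 q (len2 q)` avoid `S` (a vertex of the path in `Q` is the
first one), so together they form a walk of `H'` from `A` to `B` avoiding `S`: contradiction to `hS`. So `z ∈ S`, and then
`i = len1 p`, `j = 0` by the last two clauses of `Linked`.
Disjointness of the new paths: two `g1` parts or two `g2` parts are disjoint by hypothesis; a common vertex of a `g1` part and
a `g2` part is in `S`, is the end of the `g1` part and the start of the `g2` part, and then the `g2` part is the one attached to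
it (first case), at the same index `len1 p`. -/
theorem linked_combine {V : Type u} {H : SimpleGraph V} {A B : Set V} {S : Finset V} {x y : V}
    (hxy : H.Adj x y) (hx : x ∉ S) (hy : y ∉ S)
    (hS : Sep (H.deleteEdges {s(x, y)}) A B (↑S : Set V))
    (h1 : Linked (H.deleteEdges {s(x, y)}) A (insert x (↑S : Set V)) (S.card + 1))
    (h2 : Linked (H.deleteEdges {s(x, y)}) (insert y (↑S : Set V)) B (S.card + 1)) :
    Linked0 H A B (S.card + 1) := by
  obtain ⟨len1, g1, a0, a1, aadj, adis, -, aP⟩ := h1
  obtain ⟨len2, g2, b0, b1, badj, bdis, bQ, -⟩ := h2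
  have hle : H.deleteEdges {s(x, y)} ≤ H := SimpleGraph.deleteEdges_le _
  -- the starts of the second system
  have hsurj : ∀ z ∈ insert y S, ∃ q, g2 q 0 = z := by
    have h3 : (Finset.univ.image fun q => g2 q 0) = insert y S := by
      refine Finset.eq_of_subset_of_card_le ?_ ?_
      · intro z hz
        rw [Finset.mem_image] at hz
        obtain ⟨q, -, rfl⟩ := hz
        have h4 := b0 q
        rw [← Finset.coe_insert] at h4
        exact Finset.mem_coe.1 h4
      · rw [Finset.card_insert_of_notMem hy, Finset.card_image_of_injective, Finset.card_univ,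
          Fintype.card_fin]
        intro q q' hqq
        exact (bdis q q' 0 (Nat.zero_le _) 0 (Nat.zero_le _) hqq).1
    intro z hz
    rw [← h3, Finset.mem_image] at hz
    obtain ⟨q, -, hq⟩ := hz
    exact ⟨q, hq⟩
  have hz : ∀ p, g1 p (len1 p) = x ∨ g1 p (len1 p) ∈ S := by
    intro p
    rcases a1 p with h4 | h4
    · exact Or.inl h4
    · exact Or.inr (Finset.mem_coe.1 h4)
  have hex : ∀ p, ∃ q, g2 q 0 = if g1 p (len1 p) = x then y else g1 p (len1 p) := by
    intro p
    apply hsurj
    by_cases h4 : g1 p (len1 p) = x
    · rw [if_pos h4]
      exact Finset.mem_insert_self _ _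
    · rw [if_neg h4]
      exact Finset.mem_insert_of_mem ((hz p).resolve_left h4)
  choose m hm using hex
  have hminj : ∀ p q, m p = m q → p = q := by
    intro p q hpq
    have h4 := hm p
    rw [hpq, hm q] at h4
    have h5 : g1 p (len1 p) = g1 q (len1 q) := by
      by_cases hp : g1 p (len1 p) = x
      · by_cases hq : g1 q (len1 q) = x
        · rw [hp, hq]
        · rw [if_pos hp, if_neg hq] at h4
          have h6 := (hz q).resolve_left hq
          rw [h4] at h6
          exact absurd h6 hy
      · by_cases hq : g1 q (len1 q) = x
        · rw [if_neg hp, if_pos hq] at h4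
          have h6 := (hz p).resolve_left hp
          rw [← h4] at h6
          exact absurd h6 hy
        · rw [if_neg hp, if_neg hq] at h4
          exact h4.symm
    exact (adis p q _ le_rfl _ le_rfl h5).1
  -- the key fact
  have key : ∀ p q, ∀ i ≤ len1 p, ∀ j ≤ len2 q, g1 p i = g2 q j → g1 p i ∈ S := by
    intro p q i hi j hj hij
    by_contra hzS
    obtain ⟨k, hk, hkS⟩ := hS (i + (len2 q - j))
      (fun k => if k ≤ i then g1 p k else g2 q (j + (k - i)))
      (by
        simp only [Nat.zero_le, if_true]
        exact a0 p)
      (by
        by_cases h4 : i + (len2 q - j) ≤ i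
        · simp only [if_pos h4]
          have h5 : i + (len2 q - j) = i := by omega
          have h6 : j = len2 q := by omega
          rw [h5, hij, h6]
          exact b1 q
        · simp only [if_neg h4]
          have h5 : j + (i + (len2 q - j) - i) = len2 q := by omega
          rw [h5]
          exact b1 q)
      (by
        intro k hk
        by_cases h4 : k + 1 ≤ i
        · have h5 : k ≤ i := by omega
          simp only [if_pos h4, if_pos h5]
          exact aadj p k (by omega)
        · by_cases h5 : k ≤ i
          · have h6 : k = i := by omega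
            simp only [if_neg h4, if_pos h5]
            have h7 : j + (k + 1 - i) = j + 1 := by omega
            rw [h7, h6, hij]
            exact badj q j (by omega)
          · simp only [if_neg h4, if_neg h5]
            have h7 : j + (k + 1 - i) = j + (k - i) + 1 := by omega
            rw [h7]
            exact badj q _ (by omega))
    by_cases h4 : k ≤ i
    · simp only [if_pos h4] at hkS
      have h5 := aP p k (by omega) (Set.mem_insert_of_mem _ hkS)
      have h6 : k = i := by omega
      rw [h6] at hkS
      exact hzS (Finset.mem_coe.1 hkS)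
    · simp only [if_neg h4] at hkS
      have h5 := bQ q (j + (k - i)) (by omega) (Set.mem_insert_of_mem _ hkS)
      omega
  set off : Fin (S.card + 1) → ℕ := fun p => if g1 p (len1 p) = x then 1 else 0 with hoff
  have hoff1 : ∀ p, off p ≤ 1 := by
    intro p
    simp only [hoff]
    split_ifs <;> omega
  -- a common vertex of a first part and a second part
  have hcross : ∀ p q, ∀ i ≤ len1 p, ∀ j ≤ len1 q + off q + len2 (m q), len1 q < j →
      g1 p i = g2 (m q) (j - len1 q - off q) → False := by
    intro p q i hi j hj hlt hij
    have h4 := key p (m q) i hi _ (by omega) hij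
    rw [hij] at h4
    have h5 := bQ (m q) (j - len1 q - off q) (by omega)
      (Set.mem_insert_of_mem _ (Finset.mem_coe.2 h4))
    have h6 : off q = 1 := by
      have := hoff1 q
      omega
    have h7 : g1 q (len1 q) = x := by
      by_contra h8
      simp only [hoff, if_neg h8] at h6
      omega
    rw [h5, hm q, if_pos h7] at h4
    exact hy h4
  refine ⟨fun p => len1 p + off p + len2 (m p),
    fun p i => if i ≤ len1 p then g1 p i else g2 (m p) (i - len1 p - off p), ?_, ?_, ?_, ?_⟩
  · intro p
    simp only [Nat.zero_le, if_true]
    exact a0 p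
  · intro p
    by_cases h4 : len1 p + off p + len2 (m p) ≤ len1 p
    · simp only [if_pos h4]
      have h5 : len1 p + off p + len2 (m p) = len1 p := by omega
      have h6 : off p = 0 := by omega
      have h7 : len2 (m p) = 0 := by omega
      have h8 : g1 p (len1 p) ≠ x := by
        intro h9
        simp only [hoff, if_pos h9] at h6
        omega
      have h9 := hm p
      rw [if_neg h8] at h9
      rw [h5, ← h9]
      have h10 := b1 (m p)
      rw [h7] at h10
      exact h10
    · simp only [if_neg h4]
      have h5 : len1 p + off p + len2 (m p) - len1 p - off p = len2 (m p) := by omega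
      rw [h5]
      exact b1 (m p)
  · intro p i hi0
    have hi : i < len1 p + off p + len2 (m p) := hi0
    have ho := hoff1 p
    by_cases h4 : i + 1 ≤ len1 p
    · have h5 : i ≤ len1 p := by omega
      simp only [if_pos h4, if_pos h5]
      exact hle (aadj p i (by omega))
    · by_cases h5 : i ≤ len1 p
      · have h6 : i = len1 p := by omega
        simp only [if_neg h4, if_pos h5]
        by_cases h7 : g1 p (len1 p) = x
        · have h8 : off p = 1 := by simp only [hoff, if_pos h7]
          have h9 : i + 1 - len1 p - off p = 0 := by omega
          rw [h9, h6, h7, hm p, if_pos h7]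
          exact hxy
        · have h8 : off p = 0 := by simp only [hoff, if_neg h7]
          have h9 : i + 1 - len1 p - off p = 1 := by omega
          have h10 := hm p
          rw [if_neg h7] at h10
          rw [h9, h6, ← h10]
          exact hle (badj (m p) 0 (by omega))
      · simp only [if_neg h4, if_neg h5]
        have h9 : i + 1 - len1 p - off p = i - len1 p - off p + 1 := by omega
        rw [h9]
        exact hle (badj (m p) _ (by omega))
  · intro p q i hi0 j hj0 hij
    have hi : i ≤ len1 p + off p + len2 (m p) := hi0
    have hj : j ≤ len1 q + off q + len2 (m q) := hj0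
    by_cases h4 : i ≤ len1 p
    · by_cases h5 : j ≤ len1 q
      · simp only [if_pos h4, if_pos h5] at hij
        exact adis p q i h4 j h5 hij
      · simp only [if_pos h4, if_neg h5] at hij
        exact (hcross p q i h4 j hj (not_le.1 h5) hij).elim
    · by_cases h5 : j ≤ len1 q
      · simp only [if_neg h4, if_pos h5] at hij
        exact (hcross q p j h5 i hi (not_le.1 h4) hij.symm).elim
      · simp only [if_neg h4, if_neg h5] at hij
        have h6 := bdis (m p) (m q) _ (by omega) _ (by omega) hij
        have h7 := hminj p q h6.1
        subst h7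
        exact ⟨rfl, by
          have := hoff1 p
          omega⟩

end LC
end

section

/-! TASK M05 of MP_6bc8af_co. -/

open Classical

namespace LC

universe u

private theorem M05_core {V : Type u} {H : SimpleGraph V} {A B : Set V} {t : ℕ}
    {S : Finset V} {x y : V} (hxy : H.Adj x y)
    (h : ∀ S : Finset V, Sep H A B (↑S : Set V) → t ≤ S.card)
    (IH : ∀ (A B : Set V) (t : ℕ),
      (∀ S : Finset V, Sep (H.deleteEdges {s(x, y)}) A B (↑S : Set V) → t ≤ S.card) →
        Linked (H.deleteEdges {s(x, y)}) A B t)
    (hS : Sep (H.deleteEdges {s(x, y)}) A B (↑S : Set V)) (hSt : S.card < t)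
    (j1 : Joins (H.deleteEdges {s(x, y)}) A {x} (↑S : Set V))
    (j2 : Joins (H.deleteEdges {s(x, y)}) {y} B (↑S : Set V)) : Linked H A B t := by
  have hx : x ∉ S := by
    obtain ⟨n, g, -, hn, -, hav⟩ := j1
    have h1 : g n = x := hn
    have h2 := hav n le_rfl
    rw [h1] at h2
    exact fun h3 => h2 (Finset.mem_coe.2 h3)
  have hy : y ∉ S := by
    obtain ⟨n, g, h0, -, -, hav⟩ := j2
    have h1 : g 0 = y := h0
    have h2 := hav 0 (Nat.zero_le _)
    rw [h1] at h2
    exact fun h3 => h2 (Finset.mem_coe.2 h3)
  have c1 : ∀ Z : Finset V, Sep (H.deleteEdges {s(x, y)}) A (insert x (↑S : Set V)) (↑Z : Set V) →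
      t ≤ Z.card := fun Z hZ => h Z (sep_of_sep hS j2 hZ)
  have c2 : ∀ Z : Finset V, Sep (H.deleteEdges {s(x, y)}) (insert y (↑S : Set V)) B (↑Z : Set V) →
      t ≤ Z.card := by
    intro Z hZ
    apply h Z
    apply Sep.symm
    have e : s(y, x) = s(x, y) := Sym2.eq_swap
    refine sep_of_sep (x := y) (y := x) (S := (↑S : Set V)) ?_ ?_ ?_
    · rw [e]
      exact hS.symm
    · rw [e]
      exact j1.symm
    · rw [e]
      exact hZ.symm
  have h1 : t ≤ S.card + 1 := by
    have h2 := c1 (insert x S) (fun n g _ hn _ => ⟨n, le_rfl, by
      rw [Finset.coe_insert]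
      exact hn⟩)
    rwa [Finset.card_insert_of_notMem hx] at h2
  have h2 : t = S.card + 1 := by omega
  subst h2
  exact (linked_combine hxy hx hy hS (IH _ _ _ c1) (IH _ _ _ c2)).trim

/-- **Menger's theorem** for two sets of vertices of a finite graph.

PROOF. Induction on the number of edges of `H` (`H.edgeFinset.card` or `H.edgeSet.ncard`), for all `A`, `B`.
If `H` has no edge, `H = ⊥` and `menger_bot`. Otherwise take an edge `xy`, `H' = H.deleteEdges {s(x, y)}`, which has fewer
edges. If every finset `S` separating `A` from `B` in `H'` has at least `t` elements, the induction hypothesis gives the paths in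
`H'` and `Linked.mono` those in `H`. Otherwise there is `S` with `Sep H' A B S` and `S.card < t`; by `h`, `¬ Sep H A B S`.
By `joins_cases` we may assume (exchanging the names of `x` and `y`, `Sym2.eq_swap`) `Joins H' A {x} S` and `Joins H' {y} B S`;
in particular `x ∉ S`, `y ∉ S`. Every finset `Z` with `Sep H' A (insert x S) Z` has `Sep H A B Z` by `sep_of_sep`, so
`t ≤ Z.card`; with `Z = insert x S` (a set separates anything from itself) we get `t ≤ S.card + 1`, so `t = S.card + 1`.
By the induction hypothesis `Linked H' A (insert x S) t`. In the same way (reverse everything with `Sep.symm`, `Joins.symm`: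
apply `sep_of_sep` with `A`, `B` exchanged and `x`, `y` exchanged, using `Joins H' {x} A S`) every `Z` with
`Sep H' (insert y S) B Z` has `Sep H A B Z`, so `Linked H' (insert y S) B t`. Now `linked_combine` and `Linked0.trim`. -/
theorem menger {V : Type u} [Fintype V] (H : SimpleGraph V) (A B : Set V) (t : ℕ)
    (h : ∀ S : Finset V, Sep H A B (↑S : Set V) → t ≤ S.card) : Linked H A B t := by
  have key : ∀ (n : ℕ) (H : SimpleGraph V) (A B : Set V) (t : ℕ), H.edgeSet.ncard = n →
      (∀ S : Finset V, Sep H A B (↑S : Set V) → t ≤ S.card) → Linked H A B t := by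
    intro n
    induction n using Nat.strong_induction_on with
    | _ n ih =>
      intro H A B t hn h
      by_cases hH : H = ⊥
      · subst hH
        exact menger_bot A B t h
      · obtain ⟨x, y, hxy⟩ := SimpleGraph.ne_bot_iff_exists_adj.1 hH
        have hlt : (H.deleteEdges {s(x, y)}).edgeSet.ncard < n := by
          rw [SimpleGraph.edgeSet_deleteEdges, ← hn]
          exact Set.ncard_sdiff_singleton_lt_of_mem ((SimpleGraph.mem_edgeSet H).2 hxy)
            (Set.toFinite _)
        have IH : ∀ (A B : Set V) (t : ℕ),
            (∀ S : Finset V, Sep (H.deleteEdges {s(x, y)}) A B (↑S : Set V) → t ≤ S.card) →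
              Linked (H.deleteEdges {s(x, y)}) A B t := fun A B t => ih _ hlt _ A B t rfl
        by_cases h1 : ∀ S : Finset V, Sep (H.deleteEdges {s(x, y)}) A B (↑S : Set V) → t ≤ S.card
        · exact (IH A B t h1).mono (SimpleGraph.deleteEdges_le _)
        · simp only [not_forall, not_le] at h1
          obtain ⟨S, hS, hSt⟩ := h1
          have h2 : ¬ Sep H A B (↑S : Set V) := fun h3 => absurd (h S h3) (not_le.2 hSt)
          rcases joins_cases hS h2 with ⟨j1, j2⟩ | ⟨j1, j2⟩
          · exact M05_core hxy h IH hS hSt j1 j2
          · have e : s(y, x) = s(x, y) := Sym2.eq_swap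
            refine M05_core (x := y) (y := x) (S := S) hxy.symm h ?_ ?_ hSt ?_ ?_
            · rw [e]
              exact IH
            · rw [e]
              exact hS
            · rw [e]
              exact j1
            · rw [e]
              exact j2
  exact key _ H A B t rfl h

end LC
end
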