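import Pool.Agent.Lib.MP_6bc8af_co.Stmt
import Pool.Agent.Lib.MP_6bc8af_co.Mg.G002
import Pool.Agent.Lib.MP_6bc8af_co.Mg.G001

section

/-! TASK K03 of MP_6bc8af_co. -/

open Classical

namespace LC

universe u

/-- the graph `G` with all edges at the vertices of `X` deleted -/
def del {V : Type u} (G : SimpleGraph V) (X : Set V) : SimpleGraph V where
  Adj a b := G.Adj a b ∧ a ∉ X ∧ b ∉ X
  symm := ⟨fun _ _ h => ⟨h.1.symm, h.2.2, h.2.1⟩⟩
  loopless := ⟨fun _ h => G.irrefl h.1⟩

/-- In a `k`-connected graph there are `k - X.ncard` disjoint paths between two large sets outside `X`.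

PROOF. By `menger` it suffices that every finset `S` with `Sep (del G X) (A \ X) (B \ X) S` has at least `k - X.ncard`
elements. Suppose `S.card < k - X.ncard` and put `S' = X.toFinset ∪ S`, of card `< k`. Since
`(A \ X).ncard ≥ A.ncard - X.ncard > S.card` there is `a ∈ A`, `a ∉ X`, `a ∉ S`; similarly `b ∈ B`, `b ∉ X`, `b ∉ S`. The
graph `G.induce {v | v ∉ S'}` is connected, so there is a walk from `a` to `b` in it; as a sequence (`getVert`, extended
constantly) it is a walk of `del G X` from `A \ X` to `B \ X` avoiding `S`, a contradiction. -/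
theorem linked_of_kconn {V : Type u} [Fintype V] {G : SimpleGraph V} {k : ℕ} (h : IsKConn G k)
    (A B X : Set V) (hA : k ≤ A.ncard) (hB : k ≤ B.ncard) :
    Linked (del G X) (A \ X) (B \ X) (k - X.ncard) := by
  apply menger
  intro S hS
  by_contra hlt
  push Not at hlt
  have hXf : X.Finite := Set.toFinite X
  have hXc : hXf.toFinset.card = X.ncard := (Set.ncard_eq_toFinset_card X hXf).symm
  have hcard : (hXf.toFinset ∪ S).card < k := by
    have := Finset.card_union_le hXf.toFinset S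
    omega
  have hconn := h.2 (hXf.toFinset ∪ S) hcard
  have hex : ∀ C : Set V, k ≤ C.ncard → ∃ a ∈ C, a ∉ hXf.toFinset ∪ S := by
    intro C hC
    by_contra hcon
    push Not at hcon
    have h1 : C ⊆ (↑(hXf.toFinset ∪ S) : Set V) := fun a ha => hcon a ha
    have h2 := Set.ncard_le_ncard h1 (Finset.finite_toSet _)
    rw [Set.ncard_coe_finset] at h2
    omega
  obtain ⟨a, haA, haS⟩ := hex A hA
  obtain ⟨b, hbB, hbS⟩ := hex B hB
  obtain ⟨w⟩ := hconn.preconnected ⟨a, haS⟩ ⟨b, hbS⟩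
  have hmemX : ∀ z ∈ X, z ∈ hXf.toFinset ∪ S := fun z hz =>
    Finset.mem_union_left _ (hXf.mem_toFinset.2 hz)
  have hmemS : ∀ z ∈ S, z ∈ hXf.toFinset ∪ S := fun z hz => Finset.mem_union_right _ hz
  have haX : a ∉ X := fun h => haS (hmemX a h)
  have hbX : b ∉ X := fun h => hbS (hmemX b h)
  obtain ⟨i, hi, hiS⟩ := hS w.length (fun i => (w.getVert i).1)
    (by simpa using ⟨haA, haX⟩) (by simpa using ⟨hbB, hbX⟩)
    (by
      intro i hi
      have h1 := w.adj_getVert_succ hi
      refine ⟨h1, fun h2 => ?_, fun h2 => ?_⟩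
      · exact (w.getVert i).2 (hmemX _ h2)
      · exact (w.getVert (i + 1)).2 (hmemX _ h2))
  exact (w.getVert i).2 (hmemS _ (Finset.mem_coe.1 hiS))

end LC
end

section

/-! MP_6bc8af_co, linear bound: definitions. -/

namespace LC.Lin

universe u

/-! ### Positions on a path: abstract part -/

/-- adjacent positions: consecutive numbers, or the two ends of a chord of `E` -/
def PAdj (E : Set (ℕ × ℕ)) (u v : ℕ) : Prop :=
  v = u + 1 ∨ u = v + 1 ∨ (u, v) ∈ E ∨ (v, u) ∈ E

/-- there is a path of positions from `u` to `v` whose set of positions is `S` -/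
def Pt (E : Set (ℕ × ℕ)) (u v : ℕ) (S : Set ℕ) : Prop :=
  ∃ l : List ℕ, l.Nodup ∧ l.IsChain (PAdj E) ∧ l.head? = some u ∧ l.getLast? = some v ∧
    ∀ w, w ∈ l ↔ w ∈ S

/-- there is a cycle of positions whose set of positions is `S` -/
def Cy (E : Set (ℕ × ℕ)) (S : Set ℕ) : Prop :=
  ∃ u v, Pt E u v S ∧ PAdj E v u ∧ ∃ w ∈ S, w ≠ u ∧ w ≠ v

/-- the edge `(q, q + 1)` is inside the interval of the chord `A` -/
def Cov (A : ℕ × ℕ) (q : ℕ) : Prop := A.1 ≤ q ∧ q < A.2

/-- the chords `(x 0, y 0), ..., (x m, y m)` are a vine over `[s, t]` -/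
structure Vine (s t m : ℕ) (x y : ℕ → ℕ) : Prop where
  len : ∀ j ≤ m, x j + 2 ≤ y j
  x0 : x 0 ≤ s
  ym : t ≤ y m
  xs : ∀ j < m, x j < x (j + 1)
  ov : ∀ j < m, x (j + 1) < y j
  ys : ∀ j < m, y j < y (j + 1)
  sp : ∀ j, j + 2 ≤ m → y j ≤ x (j + 2)
  x1 : 1 ≤ m → s < x 1
  y1 : 1 ≤ m → y (m - 1) < t

/-- the edge `q` is in the gap number `j` of the vine: only the chord `j` covers it -/
def InGap (m : ℕ) (x y : ℕ → ℕ) (j q : ℕ) : Prop :=
  j ≤ m ∧ x j ≤ q ∧ q < y j ∧ (1 ≤ j → y (j - 1) ≤ q) ∧ (j + 1 ≤ m → q < x (j + 1))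

/-- the edge `q` is in the rung number `i` of the vine: the chords `i`, `i + 1` cover it -/
def InRung (m : ℕ) (x y : ℕ → ℕ) (i q : ℕ) : Prop :=
  i + 1 ≤ m ∧ x (i + 1) ≤ q ∧ q < y i

/-- both gaps next to the rung `i` are nondegenerate -/
def NonDeg (m : ℕ) (x y : ℕ → ℕ) (i : ℕ) : Prop :=
  (1 ≤ i → y (i - 1) < x (i + 1)) ∧ (i + 2 ≤ m → y i < x (i + 2))

/-- the endpoints of two vines are different -/
def Apart (m : ℕ) (x y : ℕ → ℕ) (m' : ℕ) (x' y' : ℕ → ℕ) : Prop :=
  ∀ i ≤ m, ∀ j ≤ m', x i ≠ x' j ∧ x i ≠ y' j ∧ y i ≠ x' j ∧ y i ≠ y' j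

/-- the state of the spiral construction: a path from `e` to `y i` with the set of positions `S`; all positions
except the two ends are at most `f`. -/
structure St (E : Set (ℕ × ℕ)) (m : ℕ) (x y : ℕ → ℕ) (i e f : ℕ) (S : Set ℕ) : Prop where
  pt : Pt E e (y i) S
  im : i ≤ m
  mem : ∀ w ∈ S, w ≤ f ∨ w = e ∨ w = y i
  fe : f ≤ e
  fy : f < y i
  ey : ∀ j, i ≤ j → j ≤ m → e ≠ y j
  fx : i < m → f ≤ x (i + 1)
  fp : i < m → x (i + 1) < e → f < x (i + 1)
  big : e + 2 ≤ y i ∨ ∃ w ∈ S, w ≠ e ∧ w ≠ y i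

/-- what is to be proved for a state `(i, e)` with the remaining chords `Q`: the path can be completed to a cycle which
contains the edges of the gaps from `e` on which are in no chord of `Q`, and the edges of the nondegenerate rungs which
are before `e` or in a chord of `Q`. -/
def Fn (E : Set (ℕ × ℕ)) (m B : ℕ) (x y : ℕ → ℕ) (i e : ℕ) (S : Set ℕ) (Q : List (ℕ × ℕ)) : Prop :=
  ∃ S' : Set ℕ, S ⊆ S' ∧ Cy E S' ∧ (∀ w ∈ S', w ≤ B) ∧
    (∀ j q, i ≤ j → InGap m x y j q → e ≤ q → (∀ A ∈ Q, ¬ Cov A q) → q ∈ S') ∧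
    ∀ j q, i ≤ j → InRung m x y j q → NonDeg m x y j → (q < e ∨ ∃ A ∈ Q, Cov A q) → q ∈ S'

/-- the chord `A` can be used together with the vine: it is a chord of `E` with endpoints different from those of
the vine, it ends after `s` (and not after `B`), and it is not inside a rung of the vine. -/
structure Ok (E : Set (ℕ × ℕ)) (s m B : ℕ) (x y : ℕ → ℕ) (A : ℕ × ℕ) : Prop where
  mem : A ∈ E
  len : A.1 + 2 ≤ A.2
  bdd : A.2 ≤ B
  s : s < A.2
  x1 : ∀ j ≤ m, A.1 ≠ x j
  y1 : ∀ j ≤ m, A.1 ≠ y j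
  x2 : ∀ j ≤ m, A.2 ≠ x j
  y2 : ∀ j ≤ m, A.2 ≠ y j
  out : ∀ i, i + 1 ≤ m → x (i + 1) < A.1 → A.1 < y i → y i < A.2

/-- the two vines can be switched: `x' j` is the last start of the second vine before `y i`, and it is after
`y (i - 1)` -/
def Sw (m : ℕ) (y : ℕ → ℕ) (m' : ℕ) (x' : ℕ → ℕ) (i j : ℕ) : Prop :=
  i ≤ m ∧ j ≤ m' ∧ (1 ≤ i → y (i - 1) < x' j) ∧ x' j < y i ∧ (j + 1 ≤ m' → y i < x' (j + 1))

/-- the chords which are removed at the switch `(i, j)` -/
def Rem (m : ℕ) (x y : ℕ → ℕ) (m' : ℕ) (x' y' : ℕ → ℕ) (i j : ℕ) (A : ℕ × ℕ) : Prop :=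
  (∃ l, l < j ∧ l ≤ m' ∧ A = (x' l, y' l) ∧ (1 ≤ i → y (i - 1) < y' l)) ∨
  (∃ l, i < l ∧ l ≤ m ∧ A = (x l, y l) ∧ (j + 1 ≤ m' → x l < x' (j + 1)))

open Classical in
/-- the number of switches before `i` -/
noncomputable def rk (m : ℕ) (y : ℕ → ℕ) (m' : ℕ) (x' : ℕ → ℕ) (i : ℕ) : ℕ :=
  ((Finset.range i).filter fun i' => ∃ j', Sw m y m' x' i' j').card

/-- the family of chords of class `r` -/
def DD (m : ℕ) (x y : ℕ → ℕ) (m' : ℕ) (x' y' : ℕ → ℕ) (r : ℕ) (A : ℕ × ℕ) : Prop :=
  ((∃ l ≤ m, A = (x l, y l)) ∨ ∃ l ≤ m', A = (x' l, y' l)) ∧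
    ∀ i j, Sw m y m' x' i j → rk m y m' x' i % 5 = r → ¬ Rem m x y m' x' y' i j A

/-! ### Paths in graphs -/

/-- there is a path of `H` with `n` vertices from `u` to `v`, all of them in `T` -/
def HP {V : Type u} (H : SimpleGraph V) (n : ℕ) (u v : V) (T : Set V) : Prop :=
  ∃ f : ℕ → V, 1 ≤ n ∧ f 0 = u ∧ f (n - 1) = v ∧ (∀ i < n, ∀ j < n, f i = f j → i = j) ∧
    (∀ i, i + 1 < n → H.Adj (f i) (f (i + 1))) ∧ ∀ i < n, f i ∈ T

/-- an ear of `B`: a path of `H` with at least one interior vertex, the two ends in `B` and different, the interior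
vertices outside `B` -/
def Ear {V : Type u} (H : SimpleGraph V) (B : Set V) (n : ℕ) (f : ℕ → V) : Prop :=
  3 ≤ n ∧ (∀ i < n, ∀ j < n, f i = f j → i = j) ∧ (∀ i, i + 1 < n → H.Adj (f i) (f (i + 1))) ∧
    f 0 ∈ B ∧ f (n - 1) ∈ B ∧ ∀ i, 0 < i → i + 1 < n → f i ∉ B

/-- any two vertices of `B` are joined by a path in `B` with at least `h` vertices -/
def Good {V : Type u} (H : SimpleGraph V) (h : ℕ) (B : Set V) : Prop :=
  ∀ u ∈ B, ∀ v ∈ B, u ≠ v → ∃ n, h ≤ n ∧ HP H n u v B

/-- the vertices which can be reached from `v` inside `R` -/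
def Comp {V : Type u} (H : SimpleGraph V) (R : Set V) (v : V) : Set V :=
  {u | ∃ (n : ℕ) (h : ℕ → V), h 0 = v ∧ h n = u ∧ (∀ i < n, H.Adj (h i) (h (i + 1))) ∧ ∀ i ≤ n, h i ∈ R}

/-- distance of two positions on a cycle of length `L` -/
def cd (L i j : ℕ) : ℕ := min (max i j - min i j) (L - (max i j - min i j))

/-- `p 0, ..., p (a - 1)` is a path of `H` -/
structure PathSeq {V : Type u} (H : SimpleGraph V) (a : ℕ) (p : ℕ → V) : Prop where
  inj : ∀ i < a, ∀ j < a, p i = p j → i = j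
  adj : ∀ i, i + 1 < a → H.Adj (p i) (p (i + 1))

/-- the vertices of the path up to `s` -/
def Xs {V : Type u} (p : ℕ → V) (s : ℕ) : Set V := {v | ∃ i ≤ s, p i = v}

/-- the vertices of the path from `t` on -/
def Yt {V : Type u} (p : ℕ → V) (a t : ℕ) : Set V := {v | ∃ i, t ≤ i ∧ i < a ∧ p i = v}

/-- the boundary of `L` together with the elements of `X` outside `L` -/
def bd {V : Type u} (H : SimpleGraph V) (X L : Set V) : Set V :=
  {v | v ∉ L ∧ (v ∈ X ∨ ∃ u ∈ L, H.Adj u v)}

/-- the chords of a rail `g 0, ..., g n` with respect to the path `p` -/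
def Chd {V : Type u} (a : ℕ) (p : ℕ → V) (n : ℕ) (g : ℕ → V) : Set (ℕ × ℕ) :=
  {A | A.1 + 2 ≤ A.2 ∧ A.2 < a ∧ ∃ i j, i < j ∧ j ≤ n ∧
    ((g i = p A.1 ∧ g j = p A.2) ∨ (g i = p A.2 ∧ g j = p A.1)) ∧
    ∀ l, i < l → l < j → ∀ w < a, g l ≠ p w}

/-- A bead of radius `r` near the position `u`: a connected set `K` of vertices outside the cycle, whose neighbours
are in `K` or in a set `S` of at most `10` vertices; the positions of `K` are near `u`; `W` is a set of vertices of `K` on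
the path; unless it has only one element it lies on a cycle. `Lf` is the nested family of sets. -/
structure Bead {V : Type u} (H : SimpleGraph V) (a : ℕ) (p : ℕ → V) (Lf : ℕ → ℕ → Set V) (u r : ℕ)
    (K : Set V) (S W : Finset V) : Prop where
  con : ∀ v ∈ K, Comp H K v = K
  dis : ∀ v ∈ K, v ∉ S
  nb : ∀ v ∈ K, ∀ w, H.Adj v w → w ∈ K ∨ w ∈ S
  card : S.card ≤ 10
  win : ∀ q < a, p q ∈ K → u ≤ q + 25 * r ∧ q ≤ u + 25 * r
  sub : ∀ v ∈ W, v ∈ K ∧ ∃ q < a, p q = v
  pos : 1 ≤ W.card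
  le : W.card ≤ r
  ge : r ≤ 1650 * W.card
  cyc : W.card = 1 ∨ ∃ (n : ℕ) (z : ℕ → V), CycSeq H n z ∧ ∀ v ∈ W, ∃ i < n, z i = v
  right : ∀ s₀ t₀, u + 25 * r ≤ s₀ → u + 25 * r ≤ t₀ → t₀ < a → K ⊆ Lf s₀ t₀
  left : ∀ s₀ t₀, s₀ + 25 * r ≤ u → t₀ + 25 * r ≤ u → Disjoint K (Lf s₀ t₀)

/-- `c` is a longest cycle of `G` -/
def Lng {V : Type u} (G : SimpleGraph V) (L : ℕ) (c : ℕ → V) : Prop :=
  CycSeq G L c ∧ ∀ (n : ℕ) (z : ℕ → V), CycSeq G n z → n ≤ L

/-- the vertices of the cycle -/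
def CS {V : Type u} (L : ℕ) (c : ℕ → V) : Set V := {v | ∃ i < L, c i = v}

/-- the attachments: `c i` has a neighbour in `K` -/
def Att {V : Type u} (G : SimpleGraph V) (c : ℕ → V) (K : Set V) (i : ℕ) : Prop :=
  ∃ v ∈ K, G.Adj (c i) v

end LC.Lin
end

section

/-! MP_6bc8af_co, linear bound, TASK C01: nested separators. -/

namespace LC.Lin

universe u

/-- Without `t + 1` disjoint paths there is a set `L` disjoint from `Y` with a small boundary.

PROOF. By `menger` there is a finset `S` with `Sep H X Y S` and `S.card ≤ t`. Let `L` be the set of the vertices `v` for which there are `n`, `h` with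
`h 0 ∈ X`, `h n = v`, `H.Adj (h i) (h (i + 1))` for `i < n`, `h i ∉ S` for `i ≤ n`. `L` is disjoint from `Y` by `Sep`. `bd H X L ⊆ S`: if `v ∉ L` and `v ∈ X`
then `v ∈ S` (walk of length `0`); if `v ∉ L` is adjacent to `u ∈ L` then `v ∈ S` (extend the walk). -/
theorem exists_cut {V : Type u} [Fintype V] (H : SimpleGraph V) (X Y : Set V) (t : ℕ)
    (h : ¬ Linked H X Y (t + 1)) : ∃ L : Set V, Disjoint L Y ∧ (bd H X L).ncard ≤ t := by
  obtain ⟨S, hS, hSt⟩ : ∃ S : Finset V, Sep H X Y (↑S : Set V) ∧ S.card ≤ t := by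
    by_contra hno
    refine h (menger H X Y (t + 1) fun S hS => ?_)
    by_contra hlt
    exact hno ⟨S, hS, by omega⟩
  refine ⟨{v | ∃ (n : ℕ) (g : ℕ → V), g 0 ∈ X ∧ g n = v ∧ (∀ i < n, H.Adj (g i) (g (i + 1))) ∧
    ∀ i ≤ n, g i ∉ S}, ?_, ?_⟩
  · rw [Set.disjoint_left]
    rintro v ⟨n, g, h0, hn, hadj, hav⟩ hv
    obtain ⟨i, hi, hiS⟩ := hS n g h0 (by rw [hn]; exact hv) hadj
    exact hav i hi (Finset.mem_coe.1 hiS)
  · have hsub : bd H X {v | ∃ (n : ℕ) (g : ℕ → V), g 0 ∈ X ∧ g n = v ∧ (∀ i < n, H.Adj (g i) (g (i + 1))) ∧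
        ∀ i ≤ n, g i ∉ S} ⊆ (↑S : Set V) := by
      rintro v ⟨hvL, hv⟩
      by_contra hvS
      have hvS' : v ∉ S := fun h1 => hvS (Finset.mem_coe.2 h1)
      refine hvL ?_
      rcases hv with hvX | ⟨w, ⟨n, g, h0, hn, hadj, hav⟩, hwv⟩
      · exact ⟨0, fun _ => v, hvX, rfl, fun i hi => absurd hi (Nat.not_lt_zero i), fun i _ => hvS'⟩
      · refine ⟨n + 1, fun i => if i ≤ n then g i else v, ?_, ?_, ?_, ?_⟩
        · simpa using h0
        · simp
        · intro i hi
          rcases Nat.lt_or_ge i n with h1 | h1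
          · have h2 : i ≤ n := h1.le
            have h3 : i + 1 ≤ n := h1
            simp only [h2, h3, if_true]
            exact hadj i h1
          · have h2 : i = n := by omega
            subst h2
            have h3 : ¬ (i + 1 ≤ i) := by omega
            simp only [le_refl, h3, if_true, if_false]
            rw [hn]
            exact hwv
        · intro i hi
          by_cases h1 : i ≤ n
          · simp only [h1, if_true]
            exact hav i h1
          · simp only [h1, if_false]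
            exact hvS'
    calc (bd H X {v | ∃ (n : ℕ) (g : ℕ → V), g 0 ∈ X ∧ g n = v ∧ (∀ i < n, H.Adj (g i) (g (i + 1))) ∧
        ∀ i ≤ n, g i ∉ S}).ncard ≤ (↑S : Set V).ncard := Set.ncard_le_ncard hsub S.finite_toSet
      _ = S.card := Set.ncard_coe_finset S
      _ ≤ t := hSt

/-- Submodularity.

PROOF. `bd H X (L ∩ L') ∪ bd H X' (L ∪ L') ⊆ bd H X L ∪ bd H X' L'` and
`bd H X (L ∩ L') ∩ bd H X' (L ∪ L') ⊆ bd H X L ∩ bd H X' L'` (element by element); then `Set.ncard_union_add_ncard_inter`. -/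
theorem bd_submod {V : Type u} [Finite V] (H : SimpleGraph V) {X X' : Set V} (hX : X ⊆ X') (L L' : Set V) :
    (bd H X (L ∩ L')).ncard + (bd H X' (L ∪ L')).ncard ≤ (bd H X L).ncard + (bd H X' L').ncard := by
  have h1 : bd H X (L ∩ L') ∪ bd H X' (L ∪ L') ⊆ bd H X L ∪ bd H X' L' := by
    rintro v (⟨hv, hv'⟩ | ⟨hv, hv'⟩)
    · by_cases hL : v ∈ L
      · have hL' : v ∉ L' := fun h => hv ⟨hL, h⟩
        right
        refine ⟨hL', ?_⟩
        rcases hv' with h | ⟨w, hw, hwv⟩
        · exact Or.inl (hX h)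
        · exact Or.inr ⟨w, hw.2, hwv⟩
      · left
        refine ⟨hL, ?_⟩
        rcases hv' with h | ⟨w, hw, hwv⟩
        · exact Or.inl h
        · exact Or.inr ⟨w, hw.1, hwv⟩
    · have hL : v ∉ L := fun h => hv (Or.inl h)
      have hL' : v ∉ L' := fun h => hv (Or.inr h)
      rcases hv' with h | ⟨w, hw | hw, hwv⟩
      · exact Or.inr ⟨hL', Or.inl h⟩
      · exact Or.inl ⟨hL, Or.inr ⟨w, hw, hwv⟩⟩
      · exact Or.inr ⟨hL', Or.inr ⟨w, hw, hwv⟩⟩
  have h2 : bd H X (L ∩ L') ∩ bd H X' (L ∪ L') ⊆ bd H X L ∩ bd H X' L' := by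
    rintro v ⟨⟨hv, hv'⟩, ⟨hu, hu'⟩⟩
    have hL : v ∉ L := fun h => hu (Or.inl h)
    have hL' : v ∉ L' := fun h => hu (Or.inr h)
    rcases hv' with h | ⟨w, hw, hwv⟩
    · exact ⟨⟨hL, Or.inl h⟩, ⟨hL', Or.inl (hX h)⟩⟩
    · exact ⟨⟨hL, Or.inr ⟨w, hw.1, hwv⟩⟩, ⟨hL', Or.inr ⟨w, hw.2, hwv⟩⟩⟩
  have e1 := Set.ncard_union_add_ncard_inter (bd H X (L ∩ L')) (bd H X' (L ∪ L')) (Set.toFinite _) (Set.toFinite _)
  have e2 := Set.ncard_union_add_ncard_inter (bd H X L) (bd H X' L') (Set.toFinite _) (Set.toFinite _)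
  have e3 := Set.ncard_le_ncard h1 (Set.toFinite _)
  have e4 := Set.ncard_le_ncard h2 (Set.toFinite _)
  omega

private theorem C01_min {V : Type u} [Fintype V] (H : SimpleGraph V) (X Y : Set V) :
    ∃ L : Set V, Disjoint L Y ∧ (∀ L' : Set V, Disjoint L' Y → (bd H X L).ncard ≤ (bd H X L').ncard) ∧
      ∀ L' : Set V, Disjoint L' Y → (bd H X L').ncard ≤ (bd H X L).ncard → L.ncard ≤ L'.ncard := by
  classical
  have hne : ∃ n : ℕ, ∃ L : Set V, Disjoint L Y ∧ (bd H X L).ncard * (Nat.card V + 1) + L.ncard = n :=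
    ⟨_, ∅, by simp, rfl⟩
  obtain ⟨L, hL, hLn⟩ := Nat.find_spec hne
  have hmin : ∀ L' : Set V, Disjoint L' Y →
      (bd H X L).ncard * (Nat.card V + 1) + L.ncard ≤ (bd H X L').ncard * (Nat.card V + 1) + L'.ncard := by
    intro L' hL'
    rw [hLn]
    exact Nat.find_min' hne ⟨L', hL', rfl⟩
  have hcard : ∀ L' : Set V, L'.ncard ≤ Nat.card V := fun L' => by
    rw [← Set.ncard_univ]
    exact Set.ncard_le_ncard (Set.subset_univ _) (Set.toFinite _)
  refine ⟨L, hL, fun L' hL' => ?_, fun L' hL' hle => ?_⟩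
  · have h1 := hmin L' hL'
    have h2 := hcard L'
    by_contra hlt
    have h3 : (bd H X L').ncard + 1 ≤ (bd H X L).ncard := by omega
    have h4 := Nat.mul_le_mul_right (Nat.card V + 1) h3
    rw [Nat.add_mul] at h4
    omega
  · have h1 := hmin L' hL'
    have h4 := Nat.mul_le_mul_right (Nat.card V + 1) hle
    omega

/-- **Nested separators.**

PROOF. Let `Lf s t` be, among the sets `L` disjoint from `Yt p a t` (`∅` is one), one minimizing `(bd H (Xs p s) L).ncard` and, among these, minimizing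
`L.ncard` (e.g. minimize `(bd H (Xs p s) L).ncard * (Nat.card V + 1) + L.ncard`; `V` is finite). Monotone: let `s ≤ s'`, `t ≤ t'`, `L = Lf s t`,
`L' = Lf s' t'`. `L ∩ L'` is disjoint from `Yt p a t`, `L ∪ L'` from `Yt p a t'` (`Yt p a t' ⊆ Yt p a t`), `Xs p s ⊆ Xs p s'`. By `bd_submod` and the
minimality of `L'`, `L`: the boundary of `L ∩ L'` is not larger than that of `L`, so `L.ncard ≤ (L ∩ L').ncard` and `L ⊆ L'`. The last part: `exists_cut` with
`t = 5`. -/
theorem exists_nested {V : Type u} [Fintype V] (H : SimpleGraph V) (a : ℕ) (p : ℕ → V) :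
    ∃ Lf : ℕ → ℕ → Set V, (∀ s t, Disjoint (Lf s t) (Yt p a t)) ∧
      (∀ s s' t t', s ≤ s' → t ≤ t' → Lf s t ⊆ Lf s' t') ∧
      ∀ s t, ¬ Linked H (Xs p s) (Yt p a t) 6 → (bd H (Xs p s) (Lf s t)).ncard ≤ 5 := by
  choose Lf h1 h2 h3 using fun s t => C01_min H (Xs p s) (Yt p a t)
  refine ⟨Lf, h1, ?_, ?_⟩
  · intro s s' t t' hs ht
    have hX : Xs p s ⊆ Xs p s' := by
      rintro v ⟨i, hi, hiv⟩
      exact ⟨i, le_trans hi hs, hiv⟩
    have hY : Yt p a t' ⊆ Yt p a t := by
      rintro v ⟨i, hi, hia, hiv⟩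
      exact ⟨i, le_trans ht hi, hia, hiv⟩
    have hd1 : Disjoint (Lf s t ∩ Lf s' t') (Yt p a t) := (h1 s t).mono_left Set.inter_subset_left
    have hd2 : Disjoint (Lf s t ∪ Lf s' t') (Yt p a t') :=
      Set.disjoint_union_left.2 ⟨(h1 s t).mono_right hY, h1 s' t'⟩
    have hsub := bd_submod H hX (Lf s t) (Lf s' t')
    have hm := h2 s' t' _ hd2
    have hle : (bd H (Xs p s) (Lf s t ∩ Lf s' t')).ncard ≤ (bd H (Xs p s) (Lf s t)).ncard := by omega
    have hn := h3 s t _ hd1 hle
    have he : Lf s t ∩ Lf s' t' = Lf s t :=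
      Set.eq_of_subset_of_ncard_le Set.inter_subset_left hn (Set.toFinite _)
    exact Set.inter_eq_left.1 he
  · intro s t hno
    obtain ⟨L, hL, hLc⟩ := exists_cut H (Xs p s) (Yt p a t) 5 hno
    exact le_trans (h2 s t L hL) hLc

end LC.Lin
end

section

/-! MP_6bc8af_co, linear bound, TASK A1: operations on paths of positions. -/

namespace LC.Lin

private theorem A01_padj_symm {E : Set (ℕ × ℕ)} {u v : ℕ} (h : PAdj E u v) : PAdj E v u := by
  rcases h with h | h | h | h
  · exact Or.inr (Or.inl h)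
  · exact Or.inl h
  · exact Or.inr (Or.inr (Or.inr h))
  · exact Or.inr (Or.inr (Or.inl h))

/-- PROOF. `PAdj` is symmetric (exchange the disjuncts); reverse the list (`List.isChain_reverse` or similar). -/
theorem Pt.symm {E : Set (ℕ × ℕ)} {u v : ℕ} {S : Set ℕ} (h : Pt E u v S) : Pt E v u S := by
  obtain ⟨l, h1, h2, h3, h4, h5⟩ := h
  refine ⟨l.reverse, List.nodup_reverse.2 h1, ?_, ?_, ?_, ?_⟩
  · rw [List.isChain_reverse]
    exact h2.imp fun a b hab => A01_padj_symm hab
  · rw [List.head?_reverse]; exact h4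
  · rw [List.getLast?_reverse]; exact h3
  · intro w
    rw [List.mem_reverse]
    exact h5 w

/-- PROOF. The list `[u]`. -/
theorem Pt.single (E : Set (ℕ × ℕ)) (u : ℕ) : Pt E u u {u} := by
  refine ⟨[u], by simp, by simp, by simp, by simp, ?_⟩
  intro w
  simp

/-- PROOF. Append `w` to the list. -/
theorem Pt.hop {E : Set (ℕ × ℕ)} {u v w : ℕ} {S : Set ℕ} (h : Pt E u v S) (hvw : PAdj E v w) (hw : w ∉ S) :
    Pt E u w (insert w S) := by
  obtain ⟨l, h1, h2, h3, h4, h5⟩ := h
  refine ⟨l ++ [w], ?_, ?_, ?_, ?_, ?_⟩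
  · rw [List.nodup_append]
    refine ⟨h1, by simp, ?_⟩
    intro a ha b hb hab
    rw [List.mem_singleton] at hb
    rw [hab, hb] at ha
    exact hw ((h5 w).1 ha)
  · rw [List.isChain_append]
    refine ⟨h2, by simp, ?_⟩
    intro a ha b hb
    rw [h4] at ha
    simp only [Option.mem_def, Option.some.injEq] at ha
    simp only [List.head?_cons, Option.mem_def, Option.some.injEq] at hb
    rw [← ha, ← hb]
    exact hvw
  · rw [List.head?_append, h3]
    rfl
  · rw [List.getLast?_append]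
    rfl
  · intro a
    rw [List.mem_append, List.mem_singleton, h5 a, Set.mem_insert_iff]
    exact or_comm

/-- the ends belong to the set. PROOF. First and last element of the list. -/
private theorem A01_ends {E : Set (ℕ × ℕ)} {u v : ℕ} {S : Set ℕ} (h : Pt E u v S) : u ∈ S ∧ v ∈ S := by
  obtain ⟨l, h1, h2, h3, h4, h5⟩ := h
  exact ⟨(h5 u).1 (List.mem_of_head? h3), (h5 v).1 (List.mem_of_getLast? h4)⟩

/-- PROOF. Induction on `w - v` with `Pt.hop` (`v + 1`, `v + 2`, ...); for `w = v` note `v ∈ S`. -/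
theorem Pt.up {E : Set (ℕ × ℕ)} {u v w : ℕ} {S : Set ℕ} (h : Pt E u v S) (hvw : v ≤ w)
    (hS : ∀ z, v < z → z ≤ w → z ∉ S) : Pt E u w (S ∪ Set.Icc v w) := by
  induction w, hvw using Nat.le_induction with
  | base =>
    have h1 : S ∪ Set.Icc v v = S := by
      ext z
      simp only [Set.mem_union, Set.mem_Icc]
      constructor
      · rintro (h1 | h1)
        · exact h1
        · have : z = v := by omega
          rw [this]
          exact (A01_ends h).2
      · exact Or.inl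
    rw [h1]
    exact h
  | succ w hvw ih =>
    have h1 := ih fun z hz hz' => hS z hz (by omega)
    have h2 : w + 1 ∉ S ∪ Set.Icc v w := by
      rintro (h2 | h2)
      · exact hS (w + 1) (by omega) (le_refl _) h2
      · have := h2.2
        omega
    have h3 := h1.hop (Or.inl rfl) h2
    have h4 : insert (w + 1) (S ∪ Set.Icc v w) = S ∪ Set.Icc v (w + 1) := by
      ext z
      simp only [Set.mem_insert_iff, Set.mem_union, Set.mem_Icc]
      constructor
      · rintro (h4 | h4 | h4)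
        · exact Or.inr ⟨by omega, by omega⟩
        · exact Or.inl h4
        · exact Or.inr ⟨by omega, by omega⟩
      · rintro (h4 | h4)
        · exact Or.inr (Or.inl h4)
        · rcases Nat.eq_or_lt_of_le h4.2 with h5 | h5
          · exact Or.inl h5
          · exact Or.inr (Or.inr ⟨h4.1, by omega⟩)
    rw [← h4]
    exact h3

private theorem A01_down {E : Set (ℕ × ℕ)} {u v : ℕ} {S : Set ℕ} (h : Pt E u v S) (d : ℕ) :
    ∀ w, w + d = v → (∀ z, w ≤ z → z < v → z ∉ S) → Pt E u w (S ∪ Set.Icc w v) := by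
  induction d with
  | zero =>
    intro w hw hS
    have hw' : w = v := by omega
    rw [hw']
    have h1 : S ∪ Set.Icc v v = S := by
      ext z
      simp only [Set.mem_union, Set.mem_Icc]
      constructor
      · rintro (h1 | h1)
        · exact h1
        · have : z = v := by omega
          rw [this]
          exact (A01_ends h).2
      · exact Or.inl
    rw [h1]
    exact h
  | succ d ih =>
    intro w hw hS
    have h1 := ih (w + 1) (by omega) fun z hz hz' => hS z (by omega) hz'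
    have h2 : w ∉ S ∪ Set.Icc (w + 1) v := by
      rintro (h2 | h2)
      · exact hS w (le_refl _) (by omega) h2
      · have := h2.1
        omega
    have h3 := h1.hop (w := w) (Or.inr (Or.inl rfl)) h2
    have h4 : insert w (S ∪ Set.Icc (w + 1) v) = S ∪ Set.Icc w v := by
      ext z
      simp only [Set.mem_insert_iff, Set.mem_union, Set.mem_Icc]
      constructor
      · rintro (h4 | h4 | h4)
        · exact Or.inr ⟨by omega, by omega⟩
        · exact Or.inl h4
        · exact Or.inr ⟨by omega, by omega⟩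
      · rintro (h4 | h4)
        · exact Or.inr (Or.inl h4)
        · rcases Nat.eq_or_lt_of_le h4.1 with h5 | h5
          · exact Or.inl h5.symm
          · exact Or.inr (Or.inr ⟨by omega, h4.2⟩)
    rw [← h4]
    exact h3

/-- PROOF. Induction on `v - w` with `Pt.hop` (`v - 1`, `v - 2`, ...). -/
theorem Pt.down {E : Set (ℕ × ℕ)} {u v w : ℕ} {S : Set ℕ} (h : Pt E u v S) (hwv : w ≤ v)
    (hS : ∀ z, w ≤ z → z < v → z ∉ S) : Pt E u w (S ∪ Set.Icc w v) :=
  A01_down h (v - w) w (by omega) hS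

/-- Close the path by the positions between its two ends.

PROOF. By `Pt.symm` we have a path from `v` to `u`; by `Pt.up` a path from `v` to `v - 1` with the set `S ∪ Icc u (v - 1)`,
and `v - 1`, `v` are adjacent; `S ∪ Icc u (v - 1) = S ∪ Icc u v` as `v ∈ S`. Third vertex: if `u + 2 ≤ v` it is `u` (different
from the ends `v` and `v - 1`), otherwise `v - 1 = u` and it is the given one. -/
theorem Pt.close {E : Set (ℕ × ℕ)} {u v : ℕ} {S : Set ℕ} (h : Pt E u v S) (huv : u < v)
    (hS : ∀ z, u < z → z < v → z ∉ S) (h3 : u + 2 ≤ v ∨ ∃ w ∈ S, w ≠ u ∧ w ≠ v) :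
    Cy E (S ∪ Set.Icc u v) := by
  have hends := A01_ends h
  have h1 := (h.symm).up (w := v - 1) (by omega) fun z hz hz' => hS z hz (by omega)
  have h4 : S ∪ Set.Icc u (v - 1) = S ∪ Set.Icc u v := by
    ext z
    simp only [Set.mem_union, Set.mem_Icc]
    constructor
    · rintro (h4 | h4)
      · exact Or.inl h4
      · exact Or.inr ⟨by omega, by omega⟩
    · rintro (h4 | h4)
      · exact Or.inl h4
      · rcases Nat.eq_or_lt_of_le h4.2 with h5 | h5
        · rw [h5]; exact Or.inl hends.2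
        · exact Or.inr ⟨by omega, by omega⟩
  rw [h4] at h1
  refine ⟨v, v - 1, h1, Or.inl (by omega), ?_⟩
  rcases h3 with h3 | ⟨w, hw, hwu, hwv⟩
  · exact ⟨u, Or.inl hends.1, by omega, by omega⟩
  · rcases Nat.lt_or_ge (u + 1) v with h5 | h5
    · exact ⟨u, Or.inl hends.1, by omega, by omega⟩
    · exact ⟨w, Or.inl hw, hwv, by omega⟩

/-- the ends belong to the set. PROOF. First and last element of the list. -/
theorem Pt.ends {E : Set (ℕ × ℕ)} {u v : ℕ} {S : Set ℕ} (h : Pt E u v S) : u ∈ S ∧ v ∈ S :=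
  A01_ends h

end LC.Lin
end

section

/-! MP_6bc8af_co, linear bound, file VL: elementary facts on vines (proved). -/

namespace LC.Lin

theorem Vine.xmono {s t m : ℕ} {x y : ℕ → ℕ} (h : Vine s t m x y) {i j : ℕ} (hij : i < j) (hj : j ≤ m) :
    x i < x j := by
  induction j with
  | zero => omega
  | succ j ih =>
    rcases Nat.lt_succ_iff_lt_or_eq.1 hij with h1 | h1
    · exact lt_trans (ih h1 (by omega)) (h.xs j (by omega))
    · rw [h1]; exact h.xs j (by omega)

theorem Vine.xle {s t m : ℕ} {x y : ℕ → ℕ} (h : Vine s t m x y) {i j : ℕ} (hij : i ≤ j) (hj : j ≤ m) :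
    x i ≤ x j := by
  rcases Nat.eq_or_lt_of_le hij with h1 | h1
  · rw [h1]
  · exact (h.xmono h1 hj).le

theorem Vine.ymono {s t m : ℕ} {x y : ℕ → ℕ} (h : Vine s t m x y) {i j : ℕ} (hij : i < j) (hj : j ≤ m) :
    y i < y j := by
  induction j with
  | zero => omega
  | succ j ih =>
    rcases Nat.lt_succ_iff_lt_or_eq.1 hij with h1 | h1
    · exact lt_trans (ih h1 (by omega)) (h.ys j (by omega))
    · rw [h1]; exact h.ys j (by omega)

theorem Vine.yle {s t m : ℕ} {x y : ℕ → ℕ} (h : Vine s t m x y) {i j : ℕ} (hij : i ≤ j) (hj : j ≤ m) :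
    y i ≤ y j := by
  rcases Nat.eq_or_lt_of_le hij with h1 | h1
  · rw [h1]
  · exact (h.ymono h1 hj).le

/-- chords at distance at least two are separated -/
theorem Vine.sep {s t m : ℕ} {x y : ℕ → ℕ} (h : Vine s t m x y) {i j : ℕ} (hij : i + 2 ≤ j) (hj : j ≤ m) :
    y i ≤ x j :=
  le_trans (h.sp i (by omega)) (h.xle hij hj)

/-- chords at distance at least three are disjoint -/
theorem Vine.sep3 {s t m : ℕ} {x y : ℕ → ℕ} (h : Vine s t m x y) {i j : ℕ} (hij : i + 3 ≤ j) (hj : j ≤ m) :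
    y i < x j :=
  lt_of_le_of_lt (h.sp i (by omega)) (h.xmono (by omega) hj)

/-- all ends are after `s` -/
theorem Vine.sy {s t m : ℕ} {x y : ℕ → ℕ} (h : Vine s t m x y) (hst : s < t) {j : ℕ} (hj : j ≤ m) : s < y j := by
  have h0 : s < y 0 := by
    rcases Nat.eq_zero_or_pos m with h1 | h1
    · have := h.ym
      rw [h1] at this
      omega
    · have h2 := h.x1 h1
      have h3 := h.ov 0 (by omega)
      simp only [Nat.zero_add] at h3
      omega
  exact lt_of_lt_of_le h0 (h.yle (Nat.zero_le j) hj)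

/-- all starts except the first one are after `s` -/
theorem Vine.sx {s t m : ℕ} {x y : ℕ → ℕ} (h : Vine s t m x y) {j : ℕ} (h1 : 1 ≤ j) (hj : j ≤ m) : s < x j :=
  lt_of_lt_of_le (h.x1 (by omega)) (h.xle h1 hj)

/-- all ends except the last one are before `t` -/
theorem Vine.yt {s t m : ℕ} {x y : ℕ → ℕ} (h : Vine s t m x y) {j : ℕ} (hj : j + 1 ≤ m) : y j < t :=
  lt_of_le_of_lt (h.yle (show j ≤ m - 1 by omega) (by omega)) (h.y1 (by omega))

/-- a start is before the end -/
theorem Vine.xy {s t m : ℕ} {x y : ℕ → ℕ} (h : Vine s t m x y) {i j : ℕ} (hij : i ≤ j + 1) (hi : i ≤ m)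
    (hj : j ≤ m) : x i < y j := by
  rcases Nat.eq_or_lt_of_le hij with h1 | h1
  · rw [h1]; exact h.ov j (by omega)
  · have h2 := h.len i hi
    have h3 := h.yle (show i ≤ j by omega) hj
    omega

/-- An edge of `[s, t]` is in a gap or in a rung. -/
theorem vine_cases {s t m : ℕ} {x y : ℕ → ℕ} (h : Vine s t m x y) {q : ℕ} (hs : s ≤ q) (ht : q < t) :
    (∃ j, InGap m x y j q) ∨ ∃ i, InRung m x y i q := by
  classical
  have hex : ∃ j, j ≤ m ∧ q < y j := ⟨m, le_refl m, lt_of_lt_of_le ht h.ym⟩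
  obtain ⟨hl1, hl2⟩ := Nat.find_spec hex
  set l := Nat.find hex with hl
  have hmin : ∀ j, j < l → ¬ (j ≤ m ∧ q < y j) := fun j hj => Nat.find_min hex hj
  have hx : x l ≤ q := by
    rcases Nat.eq_zero_or_pos l with h1 | h1
    · rw [h1]; exact le_trans h.x0 hs
    · have h2 : y (l - 1) ≤ q := by
        by_contra hcon
        exact hmin (l - 1) (by omega) ⟨by omega, by omega⟩
      have h3 := h.ov (l - 1) (by omega)
      rw [show l - 1 + 1 = l by omega] at h3
      omega
  by_cases hr : l + 1 ≤ m ∧ x (l + 1) ≤ q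
  · exact Or.inr ⟨l, hr.1, hr.2, hl2⟩
  · refine Or.inl ⟨l, hl1, hx, hl2, ?_, ?_⟩
    · intro h1
      by_contra hcon
      exact hmin (l - 1) (by omega) ⟨by omega, by omega⟩
    · intro h1
      by_contra hcon
      exact hr ⟨h1, by omega⟩

/-- A position strictly between `s` and `t` is strictly inside a chord. -/
theorem Vine.strict {s t m : ℕ} {x y : ℕ → ℕ} (h : Vine s t m x y) {v : ℕ} (hs : s < v) (ht : v < t) :
    ∃ l ≤ m, x l < v ∧ v < y l ∧ (∀ j, j < l → y j ≤ v) := by
  classical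
  have hex : ∃ j, j ≤ m ∧ v < y j := ⟨m, le_refl m, lt_of_lt_of_le ht h.ym⟩
  obtain ⟨hl1, hl2⟩ := Nat.find_spec hex
  set l := Nat.find hex with hl
  have hmin : ∀ j, j < l → ¬ (j ≤ m ∧ v < y j) := fun j hj => Nat.find_min hex hj
  refine ⟨l, hl1, ?_, hl2, ?_⟩
  · rcases Nat.eq_zero_or_pos l with h1 | h1
    · rw [h1]; exact lt_of_le_of_lt h.x0 hs
    · have h2 : y (l - 1) ≤ v := by
        by_contra hcon
        exact hmin (l - 1) (by omega) ⟨by omega, by omega⟩
      have h3 := h.ov (l - 1) (by omega)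
      rw [show l - 1 + 1 = l by omega] at h3
      omega
  · intro j hj
    by_contra hcon
    exact hmin j hj ⟨by omega, by omega⟩

/-- A position strictly between `s` and `t` is strictly inside a chord: version with the last start. -/
theorem Vine.strict' {s t m : ℕ} {x y : ℕ → ℕ} (h : Vine s t m x y) {v : ℕ} (hs : s < v) (ht : v < t) :
    ∃ l ≤ m, x l < v ∧ v < y l ∧ (∀ j, l < j → j ≤ m → v ≤ x j) := by
  classical
  have hP : ∃ l, l ≤ m ∧ x l < v ∧ ∀ j, l < j → j ≤ m → v ≤ x j := by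
    have hex : ∃ n, n ≤ m ∧ x (m - n) < v :=
      ⟨m, le_refl m, by rw [Nat.sub_self]; exact lt_of_le_of_lt h.x0 hs⟩
    obtain ⟨hn1, hn2⟩ := Nat.find_spec hex
    have hmin : ∀ k, k < Nat.find hex → ¬ (k ≤ m ∧ x (m - k) < v) := fun k hk => Nat.find_min hex hk
    refine ⟨m - Nat.find hex, by omega, hn2, ?_⟩
    intro j hj hjm
    by_contra hcon
    refine hmin (m - j) (by omega) ⟨by omega, ?_⟩
    rw [show m - (m - j) = j by omega]
    omega
  obtain ⟨l, hlm, hl1, hl2⟩ := hP
  refine ⟨l, hlm, hl1, ?_, hl2⟩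
  rcases Nat.eq_or_lt_of_le hlm with h1 | h1
  · rw [h1]; exact lt_of_lt_of_le ht h.ym
  · have h2 := hl2 (l + 1) (by omega) (by omega)
    have h3 := h.ov l h1
    omega

/-- two different rungs are disjoint -/
theorem Vine.rung_inj {s t m : ℕ} {x y : ℕ → ℕ} (h : Vine s t m x y) {i j q : ℕ} (hi : InRung m x y i q)
    (hj : InRung m x y j q) : i = j := by
  obtain ⟨h1, h2, h3⟩ := hi
  obtain ⟨h4, h5, h6⟩ := hj
  by_contra hne
  rcases Nat.lt_or_gt_of_ne hne with h7 | h7
  · have := h.sep (show i + 2 ≤ j + 1 by omega) h4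
    omega
  · have := h.sep (show j + 2 ≤ i + 1 by omega) h1
    omega

end LC.Lin
end

section

/-! MP_6bc8af_co, linear bound, TASK A2: transitions of the spiral construction, first part. The path goes from `e` to
`y i`; `Pt.symm` exchanges the two ends. In every case one applies `Pt.up`, `Pt.down`, `Pt.hop` to one or both ends; the new
positions are not in `S` by `h.mem`, `h.fe`, `h.fy`. Then all the fields of `St` are inequalities. -/

namespace LC.Lin

/-- The next chord `A` starts before the next rung: march from `e` up to `A.1`, take `A`.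

PROOF. `A.1 < x (i + 1) < y i`. Positions `e < z ≤ A.1` are not in `S` (`> f`, `≠ e`, `≠ y i`); `A.2` is not in
`S ∪ Icc e A.1` (`> A.1`, `≠ y i`). Set `S' = insert A.2 (S ∪ Icc e A.1)`. `big`: the vertex `A.1`. -/
theorem tr_gap {E : Set (ℕ × ℕ)} {s t m B : ℕ} {x y : ℕ → ℕ} (hV : Vine s t m x y) {i e f : ℕ} {S : Set ℕ}
    (h : St E m x y i e f S) (hi : i < m) {A : ℕ × ℕ} (hA : Ok E s m B x y A) (h1 : e < A.1)
    (h2 : A.1 < x (i + 1)) : ∃ S', S ∪ Set.Icc e A.1 ⊆ S' ∧ St E m x y i A.2 A.1 S' := by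
  have hx := hV.ov i hi
  have hf := h.fe
  have hl := hA.len
  have hy := hA.y2 i h.im
  have c1 := h.pt.symm.up (w := A.1) (by omega) (by
    intro z hz hz' hzS
    rcases h.mem z hzS with h3 | h3 | h3 <;> omega)
  have c2 := c1.hop (w := A.2) (Or.inr (Or.inr (Or.inl hA.mem))) (by
    rintro (h3 | h3)
    · rcases h.mem _ h3 with h4 | h4 | h4 <;> omega
    · have := h3.2
      omega)
  refine ⟨insert A.2 (S ∪ Set.Icc e A.1), fun z hz => Set.mem_insert_of_mem _ hz, ?_⟩
  refine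
    { pt := c2.symm
      im := h.im
      mem := ?_
      fe := by omega
      fy := by omega
      ey := fun j _ hj => hA.y2 j hj
      fx := fun _ => by omega
      fp := fun _ _ => by omega
      big := Or.inr ⟨A.1, ?_, by omega, hA.y1 i h.im⟩ }
  · rintro w (h3 | h3 | h3)
    · exact Or.inr (Or.inl h3)
    · rcases h.mem w h3 with h4 | h4 | h4
      · left; omega
      · left; omega
      · right; right; exact h4
    · left; exact h3.2
  · exact Set.mem_insert_of_mem _ (Or.inr ⟨by omega, le_refl _⟩)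

/-- The next chord `A` starts in the rung `i`, nondegenerate case: march from `e` up to `x (i + 1)`, take the chord
`i + 1` of the vine; at the other end march from `y i` down to `A.1`, take `A`.

PROOF. `S' = insert A.2 (insert (y (i + 1)) (S ∪ Icc e (x (i + 1))) ∪ Icc A.1 (y i))`; by `hA.out`, `y i < A.2`. All positions
are `≤ y i` except `A.2`, `y (i + 1)`. `big`: the vertex `y i`. -/
theorem tr_rung_nd {E : Set (ℕ × ℕ)} {s t m B : ℕ} {x y : ℕ → ℕ} (hV : Vine s t m x y)
    (hE : ∀ j ≤ m, (x j, y j) ∈ E) {i e f : ℕ} {S : Set ℕ}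
    (h : St E m x y i e f S) (hi : i < m) (hex : e ≤ x (i + 1)) (hnd : i + 2 ≤ m → y i < x (i + 2))
    {A : ℕ × ℕ} (hA : Ok E s m B x y A) (h1 : x (i + 1) < A.1)
    (h2 : A.1 < y i) :
    ∃ S', S ∪ Set.Icc e (x (i + 1)) ∪ Set.Icc A.1 (y i) ⊆ S' ∧ St E m x y (i + 1) A.2 (y i) S' := by
  have hx := hV.ov i hi
  have hf := h.fe
  have hfx := h.fx hi
  have hfy := h.fy
  have hl := hA.len
  have hy := hA.y2 i h.im
  have hy1 := hA.y2 (i + 1) hi
  have hys := hV.ys i hi
  have hey := h.ey (i + 1) (by omega) hi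
  have hlen := hV.len (i + 1) hi
  have hout := hA.out i hi h1 h2
  have c1 := h.pt.symm.up (w := x (i + 1)) hex (by
    intro z hz hz' hzS
    rcases h.mem z hzS with h3 | h3 | h3 <;> omega)
  have c2 := c1.hop (w := y (i + 1)) (Or.inr (Or.inr (Or.inl (hE (i + 1) hi)))) (by
    rintro (h3 | h3)
    · rcases h.mem _ h3 with h4 | h4 | h4 <;> omega
    · have := h3.2
      omega)
  have c3 := c2.symm.down (w := A.1) (by omega) (by
    rintro z hz hz' (h3 | h3 | h3)
    · omega
    · rcases h.mem _ h3 with h4 | h4 | h4 <;> omega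
    · have := h3.2
      omega)
  have c4 := c3.hop (w := A.2) (Or.inr (Or.inr (Or.inl hA.mem))) (by
    rintro ((h3 | h3 | h3) | h3)
    · omega
    · rcases h.mem _ h3 with h4 | h4 | h4 <;> omega
    · have := h3.2
      omega
    · have := h3.2
      omega)
  refine ⟨insert A.2 (insert (y (i + 1)) (S ∪ Set.Icc e (x (i + 1))) ∪ Set.Icc A.1 (y i)), ?_, ?_⟩
  rotate_left
  · refine
      { pt := c4.symm
        im := hi
        mem := ?_
        fe := by omega
        fy := by omega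
        ey := fun j _ hj => hA.y2 j hj
        fx := fun h3 => by have := hnd (by omega); exact this.le
        fp := fun h3 _ => hnd (by omega)
        big := Or.inr ⟨y i, ?_, by omega, by omega⟩ }
    · rintro w (h3 | (h3 | h3 | h3) | h3)
      · exact Or.inr (Or.inl h3)
      · exact Or.inr (Or.inr h3)
      · rcases h.mem w h3 with h4 | h4 | h4
        · left; omega
        · left; omega
        · left; omega
      · have := h3.2
        left; omega
      · left; exact h3.2
    · exact Or.inr (Or.inr ⟨by omega, le_refl _⟩)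
  · rintro z (h3 | h3)
    · exact Or.inr (Or.inl (Or.inr h3))
    · exact Or.inr (Or.inr h3)

/-- The next chord `A` starts in the rung `i`, degenerate case `y i = x (i + 2)`: march from `e` up to `A.1`, take `A`; at the
other end take the chord `i + 2` of the vine from `y i = x (i + 2)`.

PROOF. `S' = insert (y (i + 2)) (insert A.2 (S ∪ Icc e A.1))`; `y i < A.2`. All positions are `≤ y i` except `A.2`, `y (i + 2)`.
`fx`, `fp`: `y i = x (i + 2) < x (i + 3)`. -/
theorem tr_rung_d {E : Set (ℕ × ℕ)} {s t m B : ℕ} {x y : ℕ → ℕ} (hV : Vine s t m x y)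
    (hE : ∀ j ≤ m, (x j, y j) ∈ E) {i e f : ℕ} {S : Set ℕ}
    (h : St E m x y i e f S) (hi : i + 2 ≤ m) (hex : e ≤ x (i + 1)) (hd : y i = x (i + 2))
    {A : ℕ × ℕ} (hA : Ok E s m B x y A) (h1 : x (i + 1) < A.1)
    (h2 : A.1 < y i) :
    ∃ S', S ∪ Set.Icc e A.1 ⊆ S' ∧ St E m x y (i + 2) A.2 (y i) S' := by
  have hx := hV.ov i (by omega)
  have hf := h.fe
  have hfy := h.fy
  have hl := hA.len
  have hy := hA.y2 i h.im
  have hy2 := hA.y2 (i + 2) hi
  have hlen := hV.len (i + 2) hi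
  have hey := h.ey (i + 2) (by omega) hi
  have hout := hA.out i (by omega) h1 h2
  have c1 := h.pt.symm.up (w := A.1) (by omega) (by
    intro z hz hz' hzS
    rcases h.mem z hzS with h3 | h3 | h3 <;> omega)
  have c2 := c1.hop (w := A.2) (Or.inr (Or.inr (Or.inl hA.mem))) (by
    rintro (h3 | h3)
    · rcases h.mem _ h3 with h4 | h4 | h4 <;> omega
    · have := h3.2
      omega)
  have c3 := c2.symm.hop (w := y (i + 2)) (by rw [hd]; exact Or.inr (Or.inr (Or.inl (hE (i + 2) hi)))) (by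
    rintro (h3 | h3 | h3)
    · omega
    · rcases h.mem _ h3 with h4 | h4 | h4 <;> omega
    · have := h3.2
      omega)
  refine ⟨insert (y (i + 2)) (insert A.2 (S ∪ Set.Icc e A.1)), ?_, ?_⟩
  rotate_left
  · refine
      { pt := c3
        im := hi
        mem := ?_
        fe := by omega
        fy := by omega
        ey := fun j _ hj => hA.y2 j hj
        fx := fun h3 => by have := hV.xs (i + 2) h3; omega
        fp := fun h3 _ => by have := hV.xs (i + 2) h3; omega
        big := Or.inr ⟨y i, ?_, by omega, by omega⟩ }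
    · rintro w (h3 | h3 | h3 | h3)
      · exact Or.inr (Or.inr h3)
      · exact Or.inr (Or.inl h3)
      · rcases h.mem w h3 with h4 | h4 | h4
        · left; omega
        · left; omega
        · left; omega
      · have := h3.2
        left; omega
    · exact Or.inr (Or.inr (Or.inl h.pt.ends.2))
  · intro z h3
    exact Or.inr (Or.inr h3)

end LC.Lin
end

section

/-! MP_6bc8af_co, linear bound, TASK A5a: the induction steps of the spiral lemma (only inequalities). In all the lemmas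
the set `S'` of the conclusion `Fn` is the one of the hypothesis `h`; one has to check the two kinds of edges. Recall that the edges of a
gap `j` are `< x (j + 1)`, `< y j`, `≥ x j`, `≥ y (j - 1)`, those of a rung `j` are in `[x (j + 1), y j)`, so for `j ≥ i + 1` they are `≥ y i`. -/

namespace LC.Lin

/-- a gap edge of a later chord is at least `y i` -/
private theorem A05a_gap {s t m : ℕ} {x y : ℕ → ℕ} (hV : Vine s t m x y) {i j q : ℕ} (hij : i + 1 ≤ j)
    (hq : InGap m x y j q) : y i ≤ q :=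
  le_trans (hV.yle (show i ≤ j - 1 by omega) (by have := hq.1; omega)) (hq.2.2.2.1 (by omega))

/-- a rung edge of a later rung is at least `y i` -/
private theorem A05a_rung {s t m : ℕ} {x y : ℕ → ℕ} (hV : Vine s t m x y) {i j q : ℕ} (hij : i + 1 ≤ j)
    (hq : InRung m x y j q) : y i ≤ q :=
  le_trans (hV.sep (show i + 2 ≤ j + 1 by omega) hq.1) hq.2.1

/-- PROOF. A gap edge `q ≥ e` in no chord of `A :: Q` is `< A.1` (then in `Icc e A.1`) or `≥ A.2` (then `h`). A rung edge with `q < e` or `Cov A q` has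
`q < A.2`. -/
theorem fn_gap {E : Set (ℕ × ℕ)} {m B : ℕ} {x y : ℕ → ℕ} {i e : ℕ} {S S' : Set ℕ} {Q : List (ℕ × ℕ)} {A : ℕ × ℕ}
    (h : Fn E m B x y i A.2 S' Q) (hS : S ∪ Set.Icc e A.1 ⊆ S') (h1 : e < A.1) (h2 : A.1 + 2 ≤ A.2) :
    Fn E m B x y i e S (A :: Q) := by
  obtain ⟨S'', g1, g2, g3, g4, g5⟩ := h
  refine ⟨S'', fun w hw => g1 (hS (Or.inl hw)), g2, g3, ?_, ?_⟩
  · intro j q hj hq he hc
    rcases Nat.lt_or_ge q A.1 with h3 | h3
    · exact g1 (hS (Or.inr ⟨he, h3.le⟩))
    · have h4 : A.2 ≤ q := by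
        by_contra hcon
        exact hc A (by simp) ⟨h3, by omega⟩
      exact g4 j q hj hq h4 (fun A' hA' => hc A' (by simp [hA']))
  · intro j q hj hq hn hc
    refine g5 j q hj hq hn ?_
    rcases hc with hc | ⟨A', hA', hc⟩
    · left; omega
    · rcases List.mem_cons.1 hA' with h3 | h3
      · rw [h3] at hc
        left; exact hc.2
      · exact Or.inr ⟨A', h3, hc⟩

/-- PROOF. Gap `i` edges `≥ e` are `< x (i + 1) < A.1`, so in `Icc e A.1`; the gap `i + 1` is empty; for `j ≥ i + 2` the edges are `≥ y i > A.1`, so those not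
in `A` are `≥ A.2`. The rungs `i`, `i + 1` are not `NonDeg`. Rung edges (`j ≥ i + 2`) with `q < e` or `Cov A q` have `q < A.2`. -/
theorem fn_d {E : Set (ℕ × ℕ)} {s t m B : ℕ} {x y : ℕ → ℕ} (hV : Vine s t m x y) {i e : ℕ} {S S' : Set ℕ}
    {Q : List (ℕ × ℕ)} {A : ℕ × ℕ} (hi : i + 2 ≤ m) (hd : y i = x (i + 2))
    (h : Fn E m B x y (i + 2) A.2 S' Q) (hS : S ∪ Set.Icc e A.1 ⊆ S') (h1 : e < A.1) (h2 : A.1 + 2 ≤ A.2)
    (h3 : x (i + 1) < A.1) (h4 : A.1 < y i) :
    Fn E m B x y i e S (A :: Q) := by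
  obtain ⟨S'', g1, g2, g3, g4, g5⟩ := h
  refine ⟨S'', fun w hw => g1 (hS (Or.inl hw)), g2, g3, ?_, ?_⟩
  · intro j q hj hq he hc
    rcases Nat.eq_or_lt_of_le hj with h5 | h5
    · subst h5
      have h6 := hq.2.2.2.2 (by omega)
      exact g1 (hS (Or.inr ⟨he, by omega⟩))
    · have h6 := A05a_gap hV h5 hq
      rcases Nat.eq_or_lt_of_le h5 with h7 | h7
      · subst h7
        have h8 : q < x (i + 2) := hq.2.2.2.2 (by omega)
        have h9 : y i ≤ q := h6
        omega
      · have h8 : A.2 ≤ q := by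
          by_contra hcon
          exact hc A (by simp) ⟨by omega, by omega⟩
        exact g4 j q (by omega) hq h8 (fun A' hA' => hc A' (by simp [hA']))
  · intro j q hj hq hn hc
    rcases Nat.eq_or_lt_of_le hj with h5 | h5
    · subst h5
      have h6 := hn.2 hi
      omega
    · rcases Nat.eq_or_lt_of_le h5 with h7 | h7
      · subst h7
        have h8 := hn.1 (by omega)
        exfalso
        simp only [Nat.succ_eq_add_one, Nat.add_sub_cancel] at h8
        have h9 : x (i + 1 + 1) = x (i + 2) := rfl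
        omega
      · refine g5 j q (by omega) hq hn ?_
        rcases hc with hc | ⟨A', hA', hc⟩
        · left; omega
        · rcases List.mem_cons.1 hA' with h9 | h9
          · rw [h9] at hc
            left; exact hc.2
          · exact Or.inr ⟨A', h9, hc⟩

/-- PROOF. Gap `i` edges `≥ e` are `< x (i + 1)`, so in the first interval; for `j ≥ i + 1` the edges of the gap `j` are `≥ y i > A.1`, so those not in `A` are
`≥ A.2`. Rung `i` edges: `q < e` is in the first interval, `Cov A q` in the second one, other chords of `Q` start after `A.2 > y i`. Rung `j ≥ i + 1`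
edges with `q < e` or `Cov A q` have `q < A.2`. -/
theorem fn_nd {E : Set (ℕ × ℕ)} {s t m B : ℕ} {x y : ℕ → ℕ} (hV : Vine s t m x y) {i e : ℕ} {S S' : Set ℕ}
    {Q : List (ℕ × ℕ)} {A : ℕ × ℕ} (hi : i < m)
    (h : Fn E m B x y (i + 1) A.2 S' Q)
    (hS : S ∪ Set.Icc (min e (x (i + 1))) (max e (x (i + 1))) ∪ Set.Icc A.1 (y i) ⊆ S') (h1 : e < A.1)
    (h2 : A.1 + 2 ≤ A.2) (h3 : x (i + 1) < A.1) (h4 : A.1 < y i) (h5 : y i < A.2)
    (hQ : ∀ A' ∈ Q, A.2 < A'.1) :
    Fn E m B x y i e S (A :: Q) := by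
  obtain ⟨S'', g1, g2, g3, g4, g5⟩ := h
  refine ⟨S'', fun w hw => g1 (hS (Or.inl (Or.inl hw))), g2, g3, ?_, ?_⟩
  · intro j q hj hq he hc
    rcases Nat.eq_or_lt_of_le hj with h6 | h6
    · subst h6
      have h7 := hq.2.2.2.2 (by omega)
      exact g1 (hS (Or.inl (Or.inr ⟨by omega, by omega⟩)))
    · have h7 := A05a_gap hV h6 hq
      have h8 : A.2 ≤ q := by
        by_contra hcon
        exact hc A (by simp) ⟨by omega, by omega⟩
      exact g4 j q (by omega) hq h8 (fun A' hA' => hc A' (by simp [hA']))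
  · intro j q hj hq hn hc
    rcases Nat.eq_or_lt_of_le hj with h6 | h6
    · subst h6
      obtain ⟨h7, h8, h9⟩ := hq
      rcases hc with hc | ⟨A', hA', hc⟩
      · exact g1 (hS (Or.inl (Or.inr ⟨by omega, by omega⟩)))
      · rcases List.mem_cons.1 hA' with h10 | h10
        · rw [h10] at hc
          exact g1 (hS (Or.inr ⟨hc.1, by omega⟩))
        · have h11 := hQ A' h10
          have h12 := hc.1
          omega
    · refine g5 j q (by omega) hq hn ?_
      rcases hc with hc | ⟨A', hA', hc⟩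
      · left; omega
      · rcases List.mem_cons.1 hA' with h9 | h9
        · rw [h9] at hc
          left; exact hc.2
        · exact Or.inr ⟨A', h9, hc⟩

/-- PROOF. Gap `i` edges `≥ e` are in the interval; gap `j ≥ i + 1` edges are `≥ y i`. Rung `i` edges: `q < e` is in the interval; no chord of `Q` meets the rung
`i`. Rung `j ≥ i + 1` edges with `q < e` have `q < y i`. -/
theorem fn_far {E : Set (ℕ × ℕ)} {s t m B : ℕ} {x y : ℕ → ℕ} (hV : Vine s t m x y) {i e : ℕ} {S S' : Set ℕ}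
    {Q : List (ℕ × ℕ)} (hi : i < m) (h : Fn E m B x y (i + 1) (y i) S' Q)
    (hS : S ∪ Set.Icc (min e (x (i + 1))) (max e (x (i + 1))) ⊆ S') (he : e < y i)
    (hQ : ∀ A' ∈ Q, y i < A'.1) :
    Fn E m B x y i e S Q := by
  obtain ⟨S'', g1, g2, g3, g4, g5⟩ := h
  refine ⟨S'', fun w hw => g1 (hS (Or.inl hw)), g2, g3, ?_, ?_⟩
  · intro j q hj hq he' hc
    rcases Nat.eq_or_lt_of_le hj with h6 | h6
    · subst h6
      have h7 := hq.2.2.2.2 (by omega)
      exact g1 (hS (Or.inr ⟨by omega, by omega⟩))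
    · exact g4 j q (by omega) hq (A05a_gap hV h6 hq) hc
  · intro j q hj hq hn hc
    rcases Nat.eq_or_lt_of_le hj with h6 | h6
    · subst h6
      obtain ⟨h7, h8, h9⟩ := hq
      rcases hc with hc | ⟨A', hA', hc⟩
      · exact g1 (hS (Or.inr ⟨by omega, by omega⟩))
      · have h11 := hQ A' hA'
        have h12 := hc.1
        omega
    · refine g5 j q (by omega) hq hn ?_
      rcases hc with hc | hc
      · left; omega
      · exact Or.inr hc

/-- PROOF. There are no gap `i` edges `≥ e`; the rung `i` is in the interval; for `j ≥ i + 1` use `h`. -/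
theorem fn_thru_nd {E : Set (ℕ × ℕ)} {s t m B : ℕ} {x y : ℕ → ℕ} (hV : Vine s t m x y) {i e : ℕ} {S S' : Set ℕ}
    {Q : List (ℕ × ℕ)} (hi : i < m) (h : Fn E m B x y (i + 1) e S' Q)
    (hS : S ∪ Set.Icc (x (i + 1)) (y i) ⊆ S') (he : y i < e) :
    Fn E m B x y i e S Q := by
  obtain ⟨S'', g1, g2, g3, g4, g5⟩ := h
  refine ⟨S'', fun w hw => g1 (hS (Or.inl hw)), g2, g3, ?_, ?_⟩
  · intro j q hj hq he' hc
    rcases Nat.eq_or_lt_of_le hj with h6 | h6
    · subst h6
      have h7 := hq.2.2.1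
      omega
    · exact g4 j q (by omega) hq he' hc
  · intro j q hj hq hn hc
    rcases Nat.eq_or_lt_of_le hj with h6 | h6
    · subst h6
      obtain ⟨h7, h8, h9⟩ := hq
      exact g1 (hS (Or.inr ⟨h8, h9.le⟩))
    · exact g5 j q (by omega) hq hn hc

/-- PROOF. There are no gap `i`, `i + 1` edges `≥ e` (they are `< y i` resp. `< x (i + 2) = y i`); the rungs `i`, `i + 1` are not `NonDeg`; for `j ≥ i + 2` use
`h`. -/
theorem fn_thru_d {E : Set (ℕ × ℕ)} {s t m B : ℕ} {x y : ℕ → ℕ} (hV : Vine s t m x y) {i e : ℕ} {S S' : Set ℕ}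
    {Q : List (ℕ × ℕ)} (hi : i + 2 ≤ m) (hd : y i = x (i + 2)) (h : Fn E m B x y (i + 2) e S' Q)
    (hS : S ⊆ S') (he : y i < e) :
    Fn E m B x y i e S Q := by
  obtain ⟨S'', g1, g2, g3, g4, g5⟩ := h
  refine ⟨S'', fun w hw => g1 (hS hw), g2, g3, ?_, ?_⟩
  · intro j q hj hq he' hc
    rcases Nat.eq_or_lt_of_le hj with h6 | h6
    · subst h6
      have h7 := hq.2.2.1
      omega
    · rcases Nat.eq_or_lt_of_le h6 with h7 | h7
      · subst h7
        have h8 : q < x (i + 2) := hq.2.2.2.2 (by omega)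
        omega
      · exact g4 j q (by omega) hq he' hc
  · intro j q hj hq hn hc
    rcases Nat.eq_or_lt_of_le hj with h6 | h6
    · subst h6
      have h7 := hn.2 hi
      omega
    · rcases Nat.eq_or_lt_of_le h6 with h7 | h7
      · subst h7
        have h8 := hn.1 (by omega)
        exfalso
        simp only [Nat.succ_eq_add_one, Nat.add_sub_cancel] at h8
        have h9 : x (i + 1 + 1) = x (i + 2) := rfl
        omega
      · exact g5 j q (by omega) hq hn hc

end LC.Lin
end
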