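import Pool.Agent.Lib.MP_6bc8af_co.Mg.G018
import Pool.Agent.Lib.MP_6bc8af_co.Mg.G001

section

/-! TASK B07 of MP_6bc8af_co. -/

open Classical

namespace LC

variable {H : ℕ → ℕ → Prop} {side : ℕ → Bool} {W W' : Finset ℕ} {K : ℕ → ℕ}

/-- PROOF. The sets in the union are disjoint for different `t` (`v :: t = v' :: t'` implies `t = t'`), and `v ↦ v :: t` is injective:
`Finset.card_biUnion`, `Finset.card_image_of_injective`. -/
theorem card_WK_succ (c : ℕ → ℕ) (j : ℕ) :
    (WK H side W W' K c (j + 1)).card =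
      ∑ t ∈ WK H side W W' K c j, (nbc H W W' (K (j + 1)) (c (j + 1)) (t.headD 0)).card := by
  have h1 : WK H side W W' K c (j + 1) = (WK H side W W' K c j).biUnion (fun t =>
      (nbc H W W' (K (j + 1)) (c (j + 1)) (t.headD 0)).image (fun v => v :: t)) := rfl
  rw [h1, Finset.card_biUnion]
  · refine Finset.sum_congr rfl fun t _ => ?_
    refine Finset.card_image_of_injective _ fun v v' hv => ?_
    exact (List.cons.inj hv).1
  · intro t _ t' _ htt'
    show Disjoint _ _
    rw [Finset.disjoint_left]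
    intro s hs hs'
    obtain ⟨v, _, hv⟩ := Finset.mem_image.mp hs
    obtain ⟨v', _, hv'⟩ := Finset.mem_image.mp hs'
    rw [← hv'] at hv
    exact htt' (List.cons.inj hv).2

/-- PROOF. Induction on `j`. -/
theorem WK_congr {c c' : ℕ → ℕ} (j : ℕ) (h : ∀ i ≤ j, c i = c' i) :
    WK H side W W' K c j = WK H side W W' K c' j := by
  induction j with
  | zero =>
    have h0 := h 0 le_rfl
    simp only [WK, h0]
  | succ j ih =>
    have h1 := ih fun i hi => h i (by omega)
    have h2 := h (j + 1) le_rfl
    simp only [WK, h1, h2]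

/-- The elements of `WK` are the walks.

PROOF. Induction on `j`. `j = 0`: `v i = v₀`. Step: `t = u :: t'` with `t'` given by `v`, and `t'.headD 0 = v j`; change `v` at `j + 1` to `u`
(`Function.update`); the list `(List.range (j + 2)).map (fun i => v (j + 1 - i))` is `v (j + 1) :: (List.range (j + 1)).map (fun i => v (j - i))`
(`List.range_succ_eq_map`). -/
theorem mem_WK {c : ℕ → ℕ} {j : ℕ} {t : List ℕ} (h : t ∈ WK H side W W' K c j) :
    ∃ v : ℕ → ℕ, t = (List.range (j + 1)).map (fun i => v (j - i)) ∧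
      (∀ i ≤ j, v i ∈ W' ∧ kap W (K i) (v i) = c i) ∧ side (v 0) = true ∧ ∀ i < j, H (v i) (v (i + 1)) := by
  induction j generalizing t with
  | zero =>
    simp only [WK, Finset.mem_image, Finset.mem_filter] at h
    obtain ⟨v, ⟨hv1, hv2, hv3⟩, hv4⟩ := h
    refine ⟨fun _ => v, ?_, ?_, hv2, ?_⟩
    · rw [← hv4]; rfl
    · intro i hi
      have : i = 0 := by omega
      subst this
      exact ⟨hv1, hv3⟩
    · intro i hi; omega
  | succ j ih =>
    simp only [WK, Finset.mem_biUnion, Finset.mem_image] at h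
    obtain ⟨t', ht', u, hu, htu⟩ := h
    obtain ⟨v, hv1, hv2, hv3, hv4⟩ := ih ht'
    have hhead : t'.headD 0 = v j := by
      rw [hv1, List.range_succ_eq_map]
      simp
    rw [hhead] at hu
    obtain ⟨hu1, hu2, hu3⟩ := Finset.mem_filter.mp hu
    refine ⟨Function.update v (j + 1) u, ?_, ?_, ?_, ?_⟩
    · rw [← htu, List.range_succ_eq_map]
      simp only [List.map_cons, List.map_map, Nat.sub_zero, Function.update_self]
      congr 1
      rw [hv1]
      refine List.map_congr_left fun i hi => ?_
      rw [List.mem_range] at hi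
      simp only [Function.comp_apply]
      rw [Function.update_of_ne (by omega)]
      congr 1
      omega
    · intro i hi
      by_cases hij : i = j + 1
      · subst hij
        rw [Function.update_self]
        exact ⟨hu1, hu3⟩
      · rw [Function.update_of_ne hij]
        exact hv2 i (by omega)
    · rw [Function.update_of_ne (by omega)]
      exact hv3
    · intro i hi
      rw [Function.update_of_ne (by omega : i ≠ j + 1)]
      by_cases hij : i = j
      · subst hij
        rw [Function.update_self]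
        exact hu2
      · rw [Function.update_of_ne (by omega : i + 1 ≠ j + 1)]
        exact hv4 i (by omega)

/-- Many first cells contain many vertices of the true side.

PROOF. `WK ... (fun _ => c') 0` has `card {v ∈ W' | side v = true ∧ kap W (K 0) v = c'}` elements, at most `2 N / K 0` (`kap_fibre`, `W' ⊆ W`),
`N = W.card > 0`. Suppose fewer than `r` cells `c' < K 0` have at least `N / (2 K' K 0)` of them. Then the number `m` of the `v ∈ W'` with `side v = true` is at
most `r * (2 N / K 0) + K 0 * (N / (2 K' K 0)) ≤ N / (2 K') + N / (2 K') = N / K'` (as `4 K' r ≤ K 0`; `kap_lt`), contradicting `N < K' m`. -/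
theorem WK_first (hW : W' ⊆ W) {K' r : ℕ} (hK' : 0 < K') (hK0 : 0 < K 0) (hK : K 0 ≤ W.card)
    (h : W.card < K' * (W'.filter (fun v => side v = true)).card) (hr : 4 * K' * r ≤ K 0) :
    r ≤ ((Finset.range (K 0)).filter (fun c' =>
      (W.card : ℝ) / (2 * (K' : ℝ) * (K 0 : ℝ)) ≤ ((WK H side W W' K (fun _ => c') 0).card : ℝ))).card := by
  by_contra hcon
  push Not at hcon
  have hN : 0 < W.card := lt_of_lt_of_le hK0 hK
  have hNr : (0 : ℝ) < (W.card : ℝ) := by exact_mod_cast hN
  have hK'r : (0 : ℝ) < (K' : ℝ) := by exact_mod_cast hK'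
  have hK0r : (0 : ℝ) < (K 0 : ℝ) := by exact_mod_cast hK0
  have hWK : ∀ c', (WK H side W W' K (fun _ => c') 0).card =
      (W'.filter (fun v => side v = true ∧ kap W (K 0) v = c')).card := by
    intro c'
    simp only [WK]
    refine Finset.card_image_of_injective _ fun v v' hv => ?_
    exact (List.cons.inj hv).1
  have hm : (W'.filter (fun v => side v = true)).card =
      ∑ c' ∈ Finset.range (K 0), (WK H side W W' K (fun _ => c') 0).card := by
    rw [Finset.card_eq_sum_card_fiberwise (f := kap W (K 0)) (t := Finset.range (K 0))]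
    · refine Finset.sum_congr rfl fun c' _ => ?_
      rw [hWK, Finset.filter_filter]
    · intro u hu
      have hu' := Finset.mem_filter.mp (Finset.mem_coe.mp hu)
      exact Finset.mem_coe.mpr (Finset.mem_range.mpr (kap_lt hK0 (hW hu'.1)))
  have hcell : ∀ c', ((WK H side W W' K (fun _ => c') 0).card : ℝ) ≤ 2 * (W.card : ℝ) / (K 0 : ℝ) := by
    intro c'
    rw [le_div_iff₀ hK0r, hWK]
    have h1 := kap_fibre hK c'
    have h2 : (W'.filter (fun v => side v = true ∧ kap W (K 0) v = c')).card ≤
        (W.filter (fun v => kap W (K 0) v = c')).card := by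
      refine Finset.card_le_card fun u hu => ?_
      obtain ⟨h3, _, h4⟩ := Finset.mem_filter.mp hu
      exact Finset.mem_filter.mpr ⟨hW h3, h4⟩
    have h3 : (W'.filter (fun v => side v = true ∧ kap W (K 0) v = c')).card * K 0 ≤ 2 * W.card := by
      calc (W'.filter (fun v => side v = true ∧ kap W (K 0) v = c')).card * K 0
          ≤ (W.filter (fun v => kap W (K 0) v = c')).card * K 0 := Nat.mul_le_mul_right _ h2
        _ = K 0 * (W.filter (fun v => kap W (K 0) v = c')).card := Nat.mul_comm _ _
        _ ≤ 2 * W.card := h1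
    exact_mod_cast h3
  set θ : ℝ := (W.card : ℝ) / (2 * (K' : ℝ) * (K 0 : ℝ)) with hθ
  have hθ0 : 0 ≤ θ := by positivity
  have hsum : ((W'.filter (fun v => side v = true)).card : ℝ) ≤
      (r : ℝ) * (2 * (W.card : ℝ) / (K 0 : ℝ)) + (K 0 : ℝ) * θ := by
    rw [hm]
    push_cast
    rw [← Finset.sum_filter_add_sum_filter_not (Finset.range (K 0))
      (fun c' => θ ≤ ((WK H side W W' K (fun _ => c') 0).card : ℝ))]
    refine add_le_add ?_ ?_
    · calc _ ≤ ∑ c' ∈ (Finset.range (K 0)).filter (fun c' =>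
            θ ≤ ((WK H side W W' K (fun _ => c') 0).card : ℝ)), (2 * (W.card : ℝ) / (K 0 : ℝ)) :=
            Finset.sum_le_sum fun c' _ => hcell c'
        _ = (((Finset.range (K 0)).filter (fun c' =>
            θ ≤ ((WK H side W W' K (fun _ => c') 0).card : ℝ))).card : ℝ) *
              (2 * (W.card : ℝ) / (K 0 : ℝ)) := by rw [Finset.sum_const, nsmul_eq_mul]
        _ ≤ _ := by
            refine mul_le_mul_of_nonneg_right ?_ (by positivity)
            exact_mod_cast hcon.le
    · calc _ ≤ ∑ c' ∈ (Finset.range (K 0)).filter (fun c' =>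
            ¬ θ ≤ ((WK H side W W' K (fun _ => c') 0).card : ℝ)), θ :=
            Finset.sum_le_sum fun c' hc' => (not_le.mp (Finset.mem_filter.mp hc').2).le
        _ = (((Finset.range (K 0)).filter (fun c' =>
            ¬ θ ≤ ((WK H side W W' K (fun _ => c') 0).card : ℝ))).card : ℝ) * θ := by
            rw [Finset.sum_const, nsmul_eq_mul]
        _ ≤ _ := by
            refine mul_le_mul_of_nonneg_right ?_ hθ0
            have h2 := Finset.card_filter_le (Finset.range (K 0))
              (fun c' => ¬ θ ≤ ((WK H side W W' K (fun _ => c') 0).card : ℝ))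
            rw [Finset.card_range] at h2
            exact_mod_cast h2
  have h4 : (W.card : ℝ) < (K' : ℝ) * ((W'.filter (fun v => side v = true)).card : ℝ) := by
    exact_mod_cast h
  have hrr : 4 * (K' : ℝ) * (r : ℝ) ≤ (K 0 : ℝ) := by exact_mod_cast hr
  have e1 : (K' : ℝ) * ((r : ℝ) * (2 * (W.card : ℝ) / (K 0 : ℝ))) ≤ (W.card : ℝ) / 2 := by
    have h5 : (K' : ℝ) * ((r : ℝ) * (2 * (W.card : ℝ) / (K 0 : ℝ))) =
        (4 * (K' : ℝ) * (r : ℝ)) * ((W.card : ℝ) / (2 * (K 0 : ℝ))) := by
      field_simp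
      ring
    have h6 : (W.card : ℝ) / 2 = (K 0 : ℝ) * ((W.card : ℝ) / (2 * (K 0 : ℝ))) := by
      field_simp
    rw [h5, h6]
    exact mul_le_mul_of_nonneg_right hrr (by positivity)
  have e2 : (K' : ℝ) * ((K 0 : ℝ) * θ) = (W.card : ℝ) / 2 := by
    rw [hθ]
    field_simp
  have e3 := mul_le_mul_of_nonneg_left hsum hK'r.le
  rw [mul_add] at e3
  linarith

/-- Many continuations of a prefix have many walks.

PROOF. Let `w = (WK ... c j).card > 0`, `k = K (j + 1)`. For `c' < k` let `n c'` be the number of `t ∈ WK ... c j` with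
`τ (j + 1) ≤ card (nbc H W W' k c' (t.headD 0))`. `t.headD 0 ∈ W'` (`mem_WK`), so by richness each `t` is counted for at least `2 r` cells:
`∑ c' < k, n c' ≥ 2 r w`, and `n c' ≤ w`. If fewer than `r` cells had `n c' ≥ (r / k) w`, then (`r ≥ 1`) the sum would be at most
`(r - 1) w + k (r / k) w < 2 r w`, a contradiction. For a cell with `n c' ≥ (r / k) w`, with `c'' = Function.update c (j + 1) c'`:
`card (WK ... c'' (j + 1)) = ∑ t ∈ WK ... c'' j, card (nbc H W W' k c' (t.headD 0)) ≥ n c' * τ (j + 1)` (`card_WK_succ`, `WK_congr`: `c''` and `c` agree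
up to `j`). -/
theorem WK_step (hW : W' ⊆ W) {l : ℕ} {R : ℕ → ℕ} {τ : ℕ → ℝ} (hR : Rich H W W' l K R τ) {j r : ℕ} (hj : j + 1 ≤ l)
    (hr : R (j + 1) = 2 * r) (hk : 0 < K (j + 1)) (hτ : 0 ≤ τ (j + 1)) (c : ℕ → ℕ)
    (hw : 0 < (WK H side W W' K c j).card) :
    r ≤ ((Finset.range (K (j + 1))).filter (fun c' =>
      ((r : ℝ) / (K (j + 1) : ℝ)) * τ (j + 1) * ((WK H side W W' K c j).card : ℝ) ≤
        ((WK H side W W' K (Function.update c (j + 1) c') (j + 1)).card : ℝ))).card := by
  by_contra hcon
  push Not at hcon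
  set S := WK H side W W' K c j with hS
  set k := K (j + 1) with hkdef
  have hwr : (0 : ℝ) < (S.card : ℝ) := by exact_mod_cast hw
  have hkr : (0 : ℝ) < (k : ℝ) := by exact_mod_cast hk
  set n : ℕ → ℕ := fun c' => (S.filter (fun t =>
    τ (j + 1) ≤ ((nbc H W W' k c' (t.headD 0)).card : ℝ))).card with hn
  have hnS : ∀ c', n c' ≤ S.card := fun c' => Finset.card_filter_le _ _
  -- each walk is counted for many cells
  have h1 : 2 * r * S.card ≤ ∑ c' ∈ Finset.range k, n c' := by
    have e1 : ∑ c' ∈ Finset.range k, n c' = ∑ t ∈ S, ((Finset.range k).filter (fun c' =>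
        τ (j + 1) ≤ ((nbc H W W' k c' (t.headD 0)).card : ℝ))).card := by
      simp only [hn, Finset.card_filter]
      rw [Finset.sum_comm]
    rw [e1]
    calc 2 * r * S.card = ∑ t ∈ S, 2 * r := by rw [Finset.sum_const, smul_eq_mul, mul_comm]
      _ ≤ _ := by
        refine Finset.sum_le_sum fun t ht => ?_
        obtain ⟨v, hv1, hv2, _, _⟩ := mem_WK ht
        have hhead : t.headD 0 = v j := by
          rw [hv1, List.range_succ_eq_map]
          simp
        have h2 := hR (t.headD 0) (by rw [hhead]; exact (hv2 j le_rfl).1) (j + 1) hj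
        rw [hr] at h2
        exact h2
  -- good cells
  have h2 : ∀ c', ((r : ℝ) / (k : ℝ)) * (S.card : ℝ) ≤ (n c' : ℝ) →
      ((r : ℝ) / (k : ℝ)) * τ (j + 1) * (S.card : ℝ) ≤
        ((WK H side W W' K (Function.update c (j + 1) c') (j + 1)).card : ℝ) := by
    intro c' hc'
    have e1 : WK H side W W' K (Function.update c (j + 1) c') j = S := by
      rw [hS]
      refine WK_congr j fun i hi => ?_
      rw [Function.update_of_ne (by omega)]
    rw [card_WK_succ, e1, Function.update_self]
    push_cast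
    calc ((r : ℝ) / (k : ℝ)) * τ (j + 1) * (S.card : ℝ)
        = (((r : ℝ) / (k : ℝ)) * (S.card : ℝ)) * τ (j + 1) := by ring
      _ ≤ (n c' : ℝ) * τ (j + 1) := mul_le_mul_of_nonneg_right hc' hτ
      _ = ∑ t ∈ S.filter (fun t => τ (j + 1) ≤ ((nbc H W W' k c' (t.headD 0)).card : ℝ)), τ (j + 1) := by
          rw [Finset.sum_const, nsmul_eq_mul]
      _ ≤ ∑ t ∈ S.filter (fun t => τ (j + 1) ≤ ((nbc H W W' k c' (t.headD 0)).card : ℝ)),
            ((nbc H W W' k c' (t.headD 0)).card : ℝ) :=
          Finset.sum_le_sum fun t ht => (Finset.mem_filter.mp ht).2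
      _ ≤ ∑ t ∈ S, ((nbc H W W' k c' (t.headD 0)).card : ℝ) :=
          Finset.sum_le_sum_of_subset_of_nonneg (Finset.filter_subset _ _)
            (fun _ _ _ => Nat.cast_nonneg _)
  have h3 : ((Finset.range k).filter (fun c' =>
      ((r : ℝ) / (k : ℝ)) * (S.card : ℝ) ≤ (n c' : ℝ))).card < r := by
    refine lt_of_le_of_lt (Finset.card_le_card ?_) hcon
    intro c' hc'
    obtain ⟨e1, e2⟩ := Finset.mem_filter.mp hc'
    exact Finset.mem_filter.mpr ⟨e1, h2 c' e2⟩
  have h4 : (∑ c' ∈ Finset.range k, (n c' : ℝ)) ≤ ((r : ℝ) - 1) * (S.card : ℝ) +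
      (k : ℝ) * (((r : ℝ) / (k : ℝ)) * (S.card : ℝ)) := by
    rw [← Finset.sum_filter_add_sum_filter_not (Finset.range k)
      (fun c' => ((r : ℝ) / (k : ℝ)) * (S.card : ℝ) ≤ (n c' : ℝ))]
    refine add_le_add ?_ ?_
    · calc _ ≤ ∑ c' ∈ (Finset.range k).filter (fun c' =>
            ((r : ℝ) / (k : ℝ)) * (S.card : ℝ) ≤ (n c' : ℝ)), (S.card : ℝ) :=
            Finset.sum_le_sum fun c' _ => by exact_mod_cast hnS c'
        _ = (((Finset.range k).filter (fun c' =>
            ((r : ℝ) / (k : ℝ)) * (S.card : ℝ) ≤ (n c' : ℝ))).card : ℝ) * (S.card : ℝ) := by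
            rw [Finset.sum_const, nsmul_eq_mul]
        _ ≤ _ := by
            refine mul_le_mul_of_nonneg_right ?_ hwr.le
            have h5 : (((Finset.range k).filter (fun c' =>
              ((r : ℝ) / (k : ℝ)) * (S.card : ℝ) ≤ (n c' : ℝ))).card : ℝ) + 1 ≤ (r : ℝ) := by
              exact_mod_cast h3
            linarith
    · calc _ ≤ ∑ c' ∈ (Finset.range k).filter (fun c' =>
            ¬ ((r : ℝ) / (k : ℝ)) * (S.card : ℝ) ≤ (n c' : ℝ)), ((r : ℝ) / (k : ℝ)) * (S.card : ℝ) :=
            Finset.sum_le_sum fun c' hc' => (not_le.mp (Finset.mem_filter.mp hc').2).le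
        _ = (((Finset.range k).filter (fun c' =>
            ¬ ((r : ℝ) / (k : ℝ)) * (S.card : ℝ) ≤ (n c' : ℝ))).card : ℝ) *
              (((r : ℝ) / (k : ℝ)) * (S.card : ℝ)) := by
            rw [Finset.sum_const, nsmul_eq_mul]
        _ ≤ _ := by
            refine mul_le_mul_of_nonneg_right ?_ (by positivity)
            have h2 := Finset.card_filter_le (Finset.range k)
              (fun c' => ¬ ((r : ℝ) / (k : ℝ)) * (S.card : ℝ) ≤ (n c' : ℝ))
            rw [Finset.card_range] at h2
            exact_mod_cast h2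
  have h5 : (k : ℝ) * (((r : ℝ) / (k : ℝ)) * (S.card : ℝ)) = (r : ℝ) * (S.card : ℝ) := by
    field_simp
  have h6 : 2 * (r : ℝ) * (S.card : ℝ) ≤ ∑ c' ∈ Finset.range k, (n c' : ℝ) := by
    exact_mod_cast h1
  rw [h5] at h4
  nlinarith

end LC
end

section

/-! TASK B08 of MP_6bc8af_co. -/

open Classical

namespace LC

private theorem B08_core {H : ℕ → ℕ → Prop} {side : ℕ → Bool} {om : ℕ → ℕ → ℕ → Bool} {W : Finset ℕ}
    {K c : ℕ → ℕ} {l : ℕ} (hb : ∀ u v, H u v → side u ≠ side v) (hs : ∀ u v, H u v → H v u)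
    (hom : ∀ u v w, H v u → H v w → u ≠ w → om u v w = !om w v u)
    (v v' : ℕ → ℕ) (hv : ∀ i ≤ l, v i ∈ W ∧ kap W (K i) (v i) = c i) (hv' : ∀ i ≤ l, v' i ∈ W ∧ kap W (K i) (v' i) = c i)
    (s0 : side (v 0) = true) (s0' : side (v' 0) = true) (ha : ∀ i < l, H (v i) (v (i + 1)))
    (ha' : ∀ i < l, H (v' i) (v' (i + 1))) (h0 : v 0 = v' 0) (hl : v l = v' l)
    (hbit : ∀ i, i + 2 ≤ l → om (v i) (v (i + 1)) (v (i + 2)) = om (v' i) (v' (i + 1)) (v' (i + 2)))
    (hne : ∃ i, i ≤ l ∧ v i ≠ v' i) : ∃ φ : Ty l, Gd H side om W l K c φ := by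
  have hside : ∀ w : ℕ → ℕ, side (w 0) = true → (∀ i < l, H (w i) (w (i + 1))) →
      ∀ i ≤ l, side (w i) = decide (Even i) := by
    intro w hw0 hw i
    induction i with
    | zero => intro _; simpa using hw0
    | succ n ih =>
      intro hn
      have h1 := ih (by omega)
      have h2 := hb _ _ (hw n (by omega))
      rw [h1] at h2
      have h3 : side (w (n + 1)) = !decide (Even n) := by
        revert h2
        cases side (w (n + 1)) <;> cases decide (Even n) <;> simp
      rw [h3]
      by_cases he : Even n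
      · have : ¬ Even (n + 1) := by
          rw [Nat.even_add_one]; simpa using he
        simp [he, this]
      · have : Even (n + 1) := Nat.even_add_one.2 he
        simp [he, this]
  -- first difference
  obtain ⟨hk1l, hk1⟩ := Nat.find_spec hne
  have hk1min : ∀ j < Nat.find hne, v j = v' j := by
    intro j hj
    have := Nat.find_min hne hj
    push Not at this
    exact this (by omega)
  set k1 := Nat.find hne with hk1def
  have hk1pos : 0 < k1 := by
    rcases Nat.eq_zero_or_pos k1 with h | h
    · rw [h] at hk1; exact absurd h0 hk1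
    · exact h
  have hk1lt : k1 < l := by
    rcases Nat.lt_or_ge k1 l with h | h
    · exact h
    · have : k1 = l := by omega
      rw [this] at hk1; exact absurd hl hk1
  have hex2 : ∃ j, k1 < j ∧ j ≤ l ∧ v j = v' j := ⟨l, hk1lt, le_rfl, hl⟩
  obtain ⟨hk2a, hk2l, hk2⟩ := Nat.find_spec hex2
  have hk2min : ∀ j, k1 < j → j < Nat.find hex2 → v j ≠ v' j := by
    intro j hj1 hj2 hh
    exact Nat.find_min hex2 hj2 ⟨hj1, by omega, hh⟩
  set k2 := Nat.find hex2 with hk2def
  obtain ⟨α, hα⟩ : ∃ α, k1 = α + 1 := ⟨k1 - 1, by omega⟩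
  obtain ⟨q, hq⟩ : ∃ q, k2 = α + q := ⟨k2 - α, by omega⟩
  have hq2 : 2 ≤ q := by omega
  have hαq : α + q ≤ l := by omega
  have hdiff : ∀ κ, α < κ → κ < α + q → v κ ≠ v' κ := by
    intro κ h1 h2
    rcases Nat.lt_or_ge k1 κ with h | h
    · exact hk2min κ h (by omega)
    · have : κ = k1 := by omega
      rw [this]; exact hk1
  have hαeq : v α = v' α := hk1min α (by omega)
  have hαqeq : v (α + q) = v' (α + q) := by rw [← hq]; exact hk2
  let V : Bool → ℕ → ℕ := fun b => if b then v' else v
  let F : ℕ → Bool := fun κ => if κ = α then !om (v (α + 1)) (v α) (v' (α + 1))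
    else if κ = α + q then !om (v (α + q - 1)) (v (α + q)) (v' (α + q - 1))
    else decide (v' κ < v κ)
  let Wb : ℕ → Bool := fun κ => om (v (κ - 1)) (v κ) (v (κ + 1))
  refine ⟨(⟨α, by omega⟩, ⟨q, by omega⟩, fun i => F i.val, fun i => Wb i.val), ?_⟩
  have hbF : ∀ κ ≤ l, bit (l := l) (fun i => F i.val) κ = F κ := by
    intro κ hκ
    have : κ < l + 1 := by omega
    simp [bit, this]
  have hbW : ∀ κ ≤ l, bit (l := l) (fun i => Wb i.val) κ = Wb κ := by
    intro κ hκ
    have : κ < l + 1 := by omega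
    simp [bit, this]
  refine ⟨hαq, V, ?_⟩
  show Pair H side om W K c α q (bit (l := l) (fun i => F i.val)) (bit (l := l) (fun i => Wb i.val)) V
  refine ⟨hq2, ?_, ?_, ?_, ?_, ?_, ?_, ?_, ?_⟩
  · intro i κ h1 h2
    cases i with
    | false => exact ⟨(hv κ (by omega)).1, (hv κ (by omega)).2, hside v s0 ha κ (by omega)⟩
    | true => exact ⟨(hv' κ (by omega)).1, (hv' κ (by omega)).2, hside v' s0' ha' κ (by omega)⟩
  · intro i κ h1 h2
    cases i with
    | false => exact ha κ (by omega)
    | true => exact ha' κ (by omega)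
  · exact hαeq
  · exact hαqeq
  · intro κ h1 h2
    rw [hbF κ (by omega)]
    have hF : F κ = decide (v' κ < v κ) := by
      simp only [F]
      rw [if_neg (by omega), if_neg (by omega)]
    rw [hF]
    have hd := hdiff κ h1 h2
    by_cases hlt : v' κ < v κ
    · simpa [V, hlt] using hlt
    · have : v κ < v' κ := by omega
      simpa [V, hlt] using this
  · intro i κ h1 h2
    rw [hbW κ (by omega)]
    cases i with
    | false => rfl
    | true =>
      have h3 := hbit (κ - 1) (by omega)
      have e1 : κ - 1 + 1 = κ := by omega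
      have e2 : κ - 1 + 2 = κ + 1 := by omega
      rw [e1, e2] at h3
      exact h3.symm
  · rw [hbF α (by omega)]
    have hF : F α = !om (v (α + 1)) (v α) (v' (α + 1)) := by
      simp only [F]
      rw [if_pos trivial]
    rw [hF]
    cases hom1 : om (v (α + 1)) (v α) (v' (α + 1)) with
    | true => simpa [V] using hom1
    | false =>
      have h4 := hom (v (α + 1)) (v α) (v' (α + 1)) (ha α (by omega))
        (by rw [hαeq]; exact ha' α (by omega)) (hdiff (α + 1) (by omega) (by omega))
      rw [hom1] at h4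
      have h5 : om (v' (α + 1)) (v α) (v (α + 1)) = true := by
        revert h4; cases om (v' (α + 1)) (v α) (v (α + 1)) <;> simp
      rw [hαeq] at h5
      simpa [V] using h5
  · rw [hbF (α + q) (by omega)]
    have hF : F (α + q) = !om (v (α + q - 1)) (v (α + q)) (v' (α + q - 1)) := by
      simp only [F]
      rw [if_neg (by omega), if_pos trivial]
    rw [hF]
    cases hom1 : om (v (α + q - 1)) (v (α + q)) (v' (α + q - 1)) with
    | true => simpa [V] using hom1
    | false =>
      have e1 : α + q - 1 + 1 = α + q := by omega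
      have a1 : H (v (α + q)) (v (α + q - 1)) := by
        apply hs
        have := ha (α + q - 1) (by omega)
        rwa [e1] at this
      have a2 : H (v (α + q)) (v' (α + q - 1)) := by
        apply hs
        have := ha' (α + q - 1) (by omega)
        rw [e1] at this
        rwa [hαqeq]
      have h4 := hom (v (α + q - 1)) (v (α + q)) (v' (α + q - 1)) a1 a2
        (hdiff (α + q - 1) (by omega) (by omega))
      rw [hom1] at h4
      have h5 : om (v' (α + q - 1)) (v (α + q)) (v (α + q - 1)) = true := by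
        revert h4; cases om (v' (α + q - 1)) (v (α + q)) (v (α + q - 1)) <;> simp
      rw [hαqeq] at h5
      simpa [V] using h5

/-- Many walks through the same cells give a pair of walks.

PROOF. For `t ∈ WK ... c l` choose `v` as in `mem_WK` and map `t` to `(v 0, v l, i ↦ om (v i) (v (i + 1)) (v (i + 2)))` in
`W × W × (Fin l → Bool)`. Since `2 ^ l * W.card ^ 2 < card`, two different `t`, `t'` have the same image (pigeonhole); let `v`, `v'` be their
walks; `v i ≠ v' i` for some `i ≤ l`. Let `κ₁` be the least such `i` (`κ₁ > 0`, `κ₁ < l`), `α = κ₁ - 1`, and `κ₂` the least index `> κ₁` with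
`v κ₂ = v' κ₂` (`κ₂ ≤ l`), `q = κ₂ - α ≥ 2`. Let `V false = v`, `V true = v'`. `side (v i) = decide (Even i)` by induction (`hb` and `side (v 0) = true`), same
for `v'`. Bits (functions on `Fin (l + 1)`): for `α < κ < α + q`: `f κ = decide (v' κ < v κ)`, `w κ = om (v (κ - 1)) (v κ) (v (κ + 1))` (the same for `v'` by the
equality of the images, index `κ - 1`). `f α = !om (v (α + 1)) (v α) (v' (α + 1))` and
`f (α + q) = !om (v (α + q - 1)) (v (α + q)) (v' (α + q - 1))`. `om0`: if `f α = false` this is the definition; if `f α = true` we need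
`om (v' (α + 1)) (v' α) (v (α + 1)) = true`, which is `hom` (`v α = v' α`, `v (α + 1) ≠ v' (α + 1)`). `omq` in the same way (`α + q - 1 > α`, so
`v (α + q - 1) ≠ v' (α + q - 1)`). The type is `φ = (α, q, f, w)`. -/
theorem pair_of_many {H : ℕ → ℕ → Prop} {side : ℕ → Bool} {om : ℕ → ℕ → ℕ → Bool} {W W' : Finset ℕ}
    {K c : ℕ → ℕ} {l : ℕ} (hs : ∀ u v, H u v → H v u) (hb : ∀ u v, H u v → side u ≠ side v)
    (hom : ∀ u v w, H v u → H v w → u ≠ w → om u v w = !om w v u) (hW : W' ⊆ W)
    (h : 2 ^ l * W.card ^ 2 < (WK H side W W' K c l).card) : ∃ φ : Ty l, Gd H side om W l K c φ := by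
  let g : List ℕ → ℕ → ℕ := fun t i => t.getD (l - i) 0
  have hg : ∀ t ∈ WK H side W W' K c l, t = (List.range (l + 1)).map (fun i => g t (l - i)) ∧
      (∀ i ≤ l, g t i ∈ W' ∧ kap W (K i) (g t i) = c i) ∧ side (g t 0) = true ∧
      ∀ i < l, H (g t i) (g t (i + 1)) := by
    intro t ht
    obtain ⟨v, h1, h2, h3, h4⟩ := mem_WK ht
    have hgv : ∀ i ≤ l, g t i = v i := by
      intro i hi
      have hlt : l - i < l + 1 := by omega
      have : g t i = v (l - (l - i)) := by
        simp only [g]
        rw [h1]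
        simp [List.getD, hlt]
      rw [this]
      congr 1
      omega
    refine ⟨?_, ?_, ?_, ?_⟩
    · conv_lhs => rw [h1]
      apply List.map_congr_left
      intro i _
      exact (hgv (l - i) (by omega)).symm
    · intro i hi
      rw [hgv i hi]; exact h2 i hi
    · rw [hgv 0 (by omega)]; exact h3
    · intro i hi
      rw [hgv i (by omega), hgv (i + 1) (by omega)]; exact h4 i hi
  let f : List ℕ → ℕ × ℕ × (Fin l → Bool) := fun t =>
    (g t 0, g t l, fun i => om (g t i.val) (g t (i.val + 1)) (g t (i.val + 2)))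
  have hcard : (W ×ˢ (W ×ˢ (Finset.univ : Finset (Fin l → Bool)))).card < (WK H side W W' K c l).card := by
    refine lt_of_eq_of_lt ?_ h
    rw [Finset.card_product, Finset.card_product]
    simp only [Finset.card_univ, Fintype.card_fun, Fintype.card_bool, Fintype.card_fin]
    ring
  have hmaps : ∀ t ∈ WK H side W W' K c l, f t ∈ (W ×ˢ (W ×ˢ (Finset.univ : Finset (Fin l → Bool)))) := by
    intro t ht
    obtain ⟨-, h2, -, -⟩ := hg t ht
    simp only [f, Finset.mem_product, Finset.mem_univ, and_true]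
    exact ⟨hW (h2 0 (by omega)).1, hW (h2 l le_rfl).1⟩
  obtain ⟨t, ht, t', ht', htt, hf⟩ := Finset.exists_ne_map_eq_of_card_lt_of_maps_to hcard hmaps
  obtain ⟨a1, a2, a3, a4⟩ := hg t ht
  obtain ⟨b1, b2, b3, b4⟩ := hg t' ht'
  have hf1 : g t 0 = g t' 0 := congrArg Prod.fst hf
  have hf2 : g t l = g t' l := congrArg (fun x => x.2.1) hf
  have hf3 : (fun i : Fin l => om (g t i.val) (g t (i.val + 1)) (g t (i.val + 2))) =
      (fun i : Fin l => om (g t' i.val) (g t' (i.val + 1)) (g t' (i.val + 2))) := congrArg (fun x => x.2.2) hf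
  refine B08_core hb hs hom (g t) (g t') (fun i hi => ⟨hW (a2 i hi).1, (a2 i hi).2⟩)
    (fun i hi => ⟨hW (b2 i hi).1, (b2 i hi).2⟩) a3 b3 a4 b4 hf1 hf2 ?_ ?_
  · intro i hi
    exact congrFun hf3 ⟨i, by omega⟩
  · by_contra hcon
    push Not at hcon
    apply htt
    rw [a1, b1]
    apply List.map_congr_left
    intro i _
    exact hcon (l - i) (by omega)

end LC
end

section

/-! TASK C01 of MP_6bc8af_co. -/

open Classical

namespace LC

private theorem C01_aux {P : Type} {x y : P → ℕ} {p q : P} (h : x p < x q) :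
    Conn ({p, q} : Finset P) x y := by
  intro S hS hO _ r hr
  have h1 : OutAdj ({p, q} : Finset P) x q p := by
    right
    refine ⟨by simp, by simp, ?_, ?_⟩
    · intro t ht
      rcases Finset.mem_insert.1 ht with rfl | ht
      · exact h.le
      · rw [Finset.mem_singleton.1 ht]
    · intro t ht
      rcases Finset.mem_insert.1 ht with rfl | ht
      · exact le_rfl
      · rw [Finset.mem_singleton.1 ht]
        exact h.le
  have h2 := hO q p h1
  have hboth : p ∈ S ∧ q ∈ S := by
    obtain ⟨t, ht, htS⟩ := hS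
    rcases Finset.mem_insert.1 ht with rfl | ht
    · exact ⟨htS, h2.2 htS⟩
    · rw [Finset.mem_singleton.1 ht] at htS
      exact ⟨h2.1 htS, htS⟩
  rcases Finset.mem_insert.1 hr with rfl | hr
  · exact hboth.1
  · rw [Finset.mem_singleton.1 hr]
    exact hboth.2

/-- A pair of paths is connected in the sense of `Conn`.

PROOF. `T = {p, q}`, by symmetry of `{p, q}` assume `x p < x q` (`x p ≠ x q` by injectivity). `OutAdj T x q p` holds: `x q` is
maximal and `x p` is minimal. Hence a set `S` as in `Conn` that contains `p` or `q` contains both. (The other hypotheses are not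
needed.) -/
theorem conn_pair {P : Type} {x y : P → ℕ} (hx : Function.Injective x) {p q : P} (hpq : p ≠ q) :
    Conn ({p, q} : Finset P) x y := by
  have hne : x p ≠ x q := fun h => hpq (hx h)
  rcases lt_or_gt_of_ne hne with h | h
  · exact C01_aux h
  · have h1 : ({p, q} : Finset P) = ({q, p} : Finset P) := Finset.pair_comm p q
    rw [h1]
    exact C01_aux h

/-- The number of elements of `T` up to a position where the monotone function `a` jumps is a sum of fibres.

PROOF. The elements counted by `cnt T x i` (`x t ≤ i`) are exactly the `t ∈ T` with `a (x t) < a i`: if `x t ≤ i` then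
`x t ≠ i`, so `x t < i` and `a (x t) < a i` by `hj`; if `i < x t` then `a i ≤ a (x t)` by monotonicity. So
`cnt T x i = ∑ k ∈ range (a i), card {t ∈ T | a (x t) = k}` (`Finset.card_eq_sum_card_fiberwise`), a sum of even numbers. -/
theorem cnt_even_of_fibres {P : Type} {T : Finset P} {x : P → ℕ} {a : ℕ → ℕ} (ha : Monotone a)
    (hT : ∀ k, Even (T.filter (fun t => a (x t) = k)).card) (i : ℕ) (hi : ∀ t ∈ T, x t ≠ i)
    (hj : ∀ k < i, a k < a i) : Even (cnt T x i) := by
  unfold cnt
  have h1 : ∀ t ∈ T.filter (fun t => x t ≤ i), a (x t) ∈ Finset.range (a i) := by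
    intro t ht
    rw [Finset.mem_filter] at ht
    have h2 := hi t ht.1
    exact Finset.mem_range.2 (hj _ (by omega))
  rw [Finset.card_eq_sum_card_fiberwise h1]
  refine Finset.even_sum _ (fun k hk => ?_)
  have h3 : (T.filter (fun t => x t ≤ i)).filter (fun t => a (x t) = k) =
      T.filter (fun t => a (x t) = k) := by
    ext t
    simp only [Finset.mem_filter]
    constructor
    · rintro ⟨⟨h4, _⟩, h5⟩
      exact ⟨h4, h5⟩
    · rintro ⟨h4, h5⟩
      refine ⟨⟨h4, ?_⟩, h5⟩
      by_contra hcon
      have h6 : a i ≤ a (x t) := ha (by omega)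
      rw [Finset.mem_range] at hk
      omega
  rw [h3]
  exact hT k

/-- The number of elements of `T` is even if all fibres are even.

PROOF. `Finset.card_eq_sum_card_fiberwise` (or `Finset.card_eq_sum_card_image`), a sum of even numbers. -/
theorem card_even_of_fibres {P : Type} {T : Finset P} {b : P → ℕ}
    (hT : ∀ k, Even (T.filter (fun t => b t = k)).card) : Even T.card := by
  rw [Finset.card_eq_sum_card_image b T]
  exact Finset.even_sum _ (fun k _ => hT k)

end LC
end
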