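import Mathlib

section

/-! MP_6bc8af_co: two walks in a graph on the natural numbers through prescribed cells. -/

open Classical

namespace LC

/-- `v false`, `v true` are two walks `v i 0, ..., v i q` with the same ends and different inner vertices, through the cells
`[lo κ (u κ), hi κ (u κ)]`; `f` and `w` describe their type. -/
structure Walks (H : ℕ → ℕ → Prop) (side : ℕ → Bool) (om : ℕ → ℕ → ℕ → Bool) (q : ℕ)
    (out f w : ℕ → Bool) (lo hi : ℕ → Bool → ℕ) (u : ℕ → Bool) (v : Bool → ℕ → ℕ) : Prop where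
  adj : ∀ i κ, κ < q → H (v i κ) (v i (κ + 1))
  hside : ∀ i κ, κ ≤ q → side (v i κ) = out κ
  zero : v false 0 = v true 0
  last : v false q = v true q
  cell : ∀ i κ, κ ≤ q → lo κ (u κ) ≤ v i κ ∧ v i κ ≤ hi κ (u κ)
  ord : ∀ κ, 0 < κ → κ < q → v (f κ) κ < v (!f κ) κ
  hom : ∀ i κ, 0 < κ → κ < q → om (v i (κ - 1)) (v i κ) (v i (κ + 1)) = w κ
  om0 : om (v (f 0) 1) (v (f 0) 0) (v (!f 0) 1) = true
  omq : om (v (f q) (q - 1)) (v (f q) q) (v (!f q) (q - 1)) = true

end LC
end

section

/-! MP_6bc8af_co: definitions for the box lemma. `H` is an adjacency relation on the natural numbers. -/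

open Classical

namespace LC

/-- number of adjacent pairs in `A × B` -/
noncomputable def eo (H : ℕ → ℕ → Prop) (A B : Finset ℕ) : ℕ :=
  ((A ×ˢ B).filter (fun p : ℕ × ℕ => H p.1 p.2)).card

/-- `W` has density `D` for the exponent `1 + ε`, and no subset is denser -/
structure Dense (H : ℕ → ℕ → Prop) (ε D : ℝ) (W : Finset ℕ) : Prop where
  ne : W.Nonempty
  pos : 0 < D
  tot : (eo H W W : ℝ) = D * (W.card : ℝ) ^ (1 + ε)
  loc : ∀ W' ⊆ W, (eo H W' W' : ℝ) ≤ D * (W'.card : ℝ) ^ (1 + ε)

/-- the index of the cell of `v` in the partition of `W` into `K` intervals -/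
noncomputable def kap (W : Finset ℕ) (K v : ℕ) : ℕ := (W.filter (fun u => u < v)).card * K / W.card

/-- the neighbours of `u` in the cell `c` (of the partition of `W` into `K` cells) that belong to `W'` -/
noncomputable def nbc (H : ℕ → ℕ → Prop) (W W' : Finset ℕ) (K c u : ℕ) : Finset ℕ :=
  W'.filter (fun v => H u v ∧ kap W K v = c)

/-- every vertex of `W'` has, for every `j ≤ l`, at least `R j` cells (of `K j`) with at least `τ j` neighbours -/
def Rich (H : ℕ → ℕ → Prop) (W W' : Finset ℕ) (l : ℕ) (K R : ℕ → ℕ) (τ : ℕ → ℝ) : Prop :=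
  ∀ v ∈ W', ∀ j ≤ l, R j ≤ ((Finset.range (K j)).filter (fun c => τ j ≤ ((nbc H W W' (K j) c v).card : ℝ))).card

/-- the walks `v_0, ..., v_j` in `W'`, `v_i` in the cell `c i`, `side v_0 = true`; a walk is the list `[v_j, ..., v_0]` -/
noncomputable def WK (H : ℕ → ℕ → Prop) (side : ℕ → Bool) (W W' : Finset ℕ) (K c : ℕ → ℕ) : ℕ → Finset (List ℕ)
  | 0 => (W'.filter (fun v => side v = true ∧ kap W (K 0) v = c 0)).image (fun v => [v])
  | (j + 1) => (WK H side W W' K c j).biUnion (fun t =>
      (nbc H W W' (K (j + 1)) (c (j + 1)) (t.headD 0)).image (fun v => v :: t))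

/-- types of pairs of walks: the first layer, the number of steps, the order bits and the turning bits -/
abbrev Ty (l : ℕ) : Type := Fin (l + 1) × Fin (l + 1) × (Fin (l + 1) → Bool) × (Fin (l + 1) → Bool)

/-- `v false`, `v true` are two walks from layer `α` to layer `α + q` through the cells `c`, with the same ends and different
inner vertices, `f` and `w` describe the orders (all indices are absolute layers) -/
structure Pair (H : ℕ → ℕ → Prop) (side : ℕ → Bool) (om : ℕ → ℕ → ℕ → Bool) (W : Finset ℕ) (K : ℕ → ℕ)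
    (c : ℕ → ℕ) (α q : ℕ) (f w : ℕ → Bool) (v : Bool → ℕ → ℕ) : Prop where
  two : 2 ≤ q
  mem : ∀ i κ, α ≤ κ → κ ≤ α + q → v i κ ∈ W ∧ kap W (K κ) (v i κ) = c κ ∧ side (v i κ) = decide (Even κ)
  adj : ∀ i κ, α ≤ κ → κ < α + q → H (v i κ) (v i (κ + 1))
  zero : v false α = v true α
  last : v false (α + q) = v true (α + q)
  ord : ∀ κ, α < κ → κ < α + q → v (f κ) κ < v (!f κ) κ
  hom : ∀ i κ, α < κ → κ < α + q → om (v i (κ - 1)) (v i κ) (v i (κ + 1)) = w κ
  om0 : om (v (f α) (α + 1)) (v (f α) α) (v (!f α) (α + 1)) = true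
  omq : om (v (f (α + q)) (α + q - 1)) (v (f (α + q)) (α + q)) (v (!f (α + q)) (α + q - 1)) = true

/-- the bits of a type as functions on the natural numbers -/
def bit {l : ℕ} (g : Fin (l + 1) → Bool) (κ : ℕ) : Bool := if h : κ < l + 1 then g ⟨κ, h⟩ else false

/-- through the cells `c` there is a pair of walks of type `φ` -/
def Gd (H : ℕ → ℕ → Prop) (side : ℕ → Bool) (om : ℕ → ℕ → ℕ → Bool) (W : Finset ℕ) (l : ℕ) (K : ℕ → ℕ)
    (c : ℕ → ℕ) (φ : Ty l) : Prop :=
  φ.1.val + φ.2.1.val ≤ l ∧ ∃ v : Bool → ℕ → ℕ,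
    Pair H side om W K c φ.1.val φ.2.1.val (bit φ.2.2.1) (bit φ.2.2.2) v

end LC
end

section

/-! TASK B01 of MP_6bc8af_co. -/

open Classical

namespace LC

/-- A densest subset.

PROOF. Among the nonempty subsets of `V` take `W` maximizing `eo H W W / (W.card) ^ (1 + ε)` (`Finset.exists_max_image` on
`V.powerset.filter Nonempty`) and let `D` be the maximal value; `D ≥ D₀` since `V` itself has value `≥ D₀` (divide by
`(V.card) ^ (1 + ε) > 0`). `tot` is the definition of `D`. `loc`: for `W' ⊆ W` nonempty by maximality; for `W' = ∅` both sides are `0`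
(`Real.zero_rpow`). -/
theorem exists_dense {H : ℕ → ℕ → Prop} {ε D₀ : ℝ} (hε : 0 < ε) (hD : 0 < D₀) {V : Finset ℕ} (hV : V.Nonempty)
    (h : D₀ * (V.card : ℝ) ^ (1 + ε) ≤ (eo H V V : ℝ)) : ∃ W ⊆ V, ∃ D, D₀ ≤ D ∧ Dense H ε D W := by
  have hpos : ∀ W : Finset ℕ, W.Nonempty → 0 < (W.card : ℝ) ^ (1 + ε) := by
    intro W hW
    have : (0 : ℝ) < W.card := by exact_mod_cast Finset.card_pos.mpr hW
    positivity
  obtain ⟨W, hW, hmax⟩ := Finset.exists_max_image (V.powerset.filter (fun W => W.Nonempty))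
    (fun W => (eo H W W : ℝ) / (W.card : ℝ) ^ (1 + ε)) ⟨V, by simp [hV]⟩
  rw [Finset.mem_filter, Finset.mem_powerset] at hW
  have hV1 := hmax V (by simp [hV])
  have hV2 : D₀ ≤ (eo H V V : ℝ) / (V.card : ℝ) ^ (1 + ε) := by
    rw [le_div_iff₀ (hpos V hV)]
    exact h
  refine ⟨W, hW.1, (eo H W W : ℝ) / (W.card : ℝ) ^ (1 + ε), hV2.trans hV1, hW.2, ?_, ?_, ?_⟩
  · exact lt_of_lt_of_le hD (hV2.trans hV1)
  · exact (div_mul_cancel₀ _ (hpos W hW.2).ne').symm
  · intro W' hW'
    by_cases hne : W'.Nonempty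
    · have := hmax W' (by
        rw [Finset.mem_filter, Finset.mem_powerset]
        exact ⟨hW'.trans hW.1, hne⟩)
      rwa [div_le_iff₀ (hpos W' hne)] at this
    · rw [Finset.not_nonempty_iff_eq_empty] at hne
      subst hne
      have h0 : (1 + ε) ≠ 0 := by linarith
      simp [eo, Real.zero_rpow h0]

/-- The density is at most the number of vertices.

PROOF. `eo H W W ≤ W.card ^ 2` (subset of the product). With `N = W.card ≥ 1`: `D * N ^ (1 + ε) ≤ N ^ 2`, and `N ^ (1 + ε) ≥ N` (as
`N ≥ 1`, `ε > 0`), so `D * N ≤ N ^ 2`, `D ≤ N`. -/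
theorem Dense.le_card {H : ℕ → ℕ → Prop} {ε D : ℝ} (hε : 0 < ε) {W : Finset ℕ} (h : Dense H ε D W) :
    D ≤ (W.card : ℝ) := by
  have h1 : (1 : ℝ) ≤ W.card := by exact_mod_cast Finset.card_pos.mpr h.ne
  have h2 : (eo H W W : ℝ) ≤ (W.card : ℝ) * W.card := by
    have : eo H W W ≤ W.card * W.card := by
      rw [← Finset.card_product]
      exact Finset.card_filter_le _ _
    exact_mod_cast this
  have h3 : (W.card : ℝ) ≤ (W.card : ℝ) ^ (1 + ε) := by
    have := Real.rpow_le_rpow_of_exponent_le h1 (by linarith : (1 : ℝ) ≤ 1 + ε)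
    rwa [Real.rpow_one] at this
  have h4 := h.tot
  have h5 : D * (W.card : ℝ) ≤ D * (W.card : ℝ) ^ (1 + ε) := mul_le_mul_of_nonneg_left h3 h.pos.le
  have h6 : D * (W.card : ℝ) ≤ (W.card : ℝ) * W.card := by linarith
  exact le_of_mul_le_mul_right h6 (by linarith)

/-- Monotonicity and symmetry of the number of pairs. PROOF. Subsets of the product; the map `(u, v) ↦ (v, u)`. -/
theorem eo_mono {H : ℕ → ℕ → Prop} {A B A' B' : Finset ℕ} (hA : A ⊆ A') (hB : B ⊆ B') :
    eo H A B ≤ eo H A' B' :=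
  Finset.card_le_card (Finset.filter_subset_filter _ (Finset.product_subset_product hA hB))

theorem eo_symm {H : ℕ → ℕ → Prop} (hH : ∀ u v, H u v → H v u) (A B : Finset ℕ) : eo H A B = eo H B A := by
  unfold eo
  apply Finset.card_bij (fun p _ => (p.2, p.1))
  · intro p hp
    simp only [Finset.mem_filter, Finset.mem_product] at hp ⊢
    exact ⟨⟨hp.1.2, hp.1.1⟩, hH _ _ hp.2⟩
  · intro p _ p' _ h
    simp only [Prod.mk.injEq] at h
    exact Prod.ext h.2 h.1
  · intro p hp
    simp only [Finset.mem_filter, Finset.mem_product] at hp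
    refine ⟨(p.2, p.1), ?_, rfl⟩
    simp only [Finset.mem_filter, Finset.mem_product]
    exact ⟨⟨hp.1.2, hp.1.1⟩, hH _ _ hp.2⟩

end LC
end

section

/-! TASK B03 of MP_6bc8af_co. -/

open Classical

namespace LC

/-- PROOF. The rank `card {u ∈ W | u < v}` is `< W.card` for `v ∈ W` (`v` itself is not counted); `Nat.div_lt_iff_lt_mul`. -/
theorem kap_lt {W : Finset ℕ} {K v : ℕ} (hK : 0 < K) (hv : v ∈ W) : kap W K v < K := by
  unfold kap
  apply Nat.div_lt_of_lt_mul
  apply Nat.mul_lt_mul_of_pos_right _ hK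
  apply Finset.card_lt_card
  rw [Finset.ssubset_iff_of_subset (Finset.filter_subset _ _)]
  exact ⟨v, hv, by simp⟩

/-- PROOF. The rank is monotone; `Nat.div_le_div_right`. -/
theorem kap_mono (W : Finset ℕ) (K : ℕ) : Monotone (kap W K) := by
  intro v v' h
  unfold kap
  apply Nat.div_le_div_right
  apply Nat.mul_le_mul_right
  apply Finset.card_le_card
  intro u hu
  rw [Finset.mem_filter] at hu ⊢
  exact ⟨hu.1, lt_of_lt_of_le hu.2 h⟩

private theorem B03_rank {W : Finset ℕ} {v v' : ℕ} (hv : v ∈ W) (h : v < v') :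
    (W.filter (fun u => u < v)).card < (W.filter (fun u => u < v')).card := by
  apply Finset.card_lt_card
  have hsub : W.filter (fun u => u < v) ⊆ W.filter (fun u => u < v') := by
    intro u hu
    rw [Finset.mem_filter] at hu ⊢
    exact ⟨hu.1, hu.2.trans h⟩
  rw [Finset.ssubset_iff_of_subset hsub]
  exact ⟨v, by rw [Finset.mem_filter]; exact ⟨hv, h⟩, by simp⟩

/-- Cells are small.

PROOF. The rank is injective on `W` (strictly monotone on `W`). The ranks `r` of the elements of the cell satisfy `r * K / N = c`, `N = W.card`, i.e.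
`c * N ≤ r * K < (c + 1) * N`. Let the cell have `m` elements, `m ≥ 1`; the largest and smallest rank differ by at least `m - 1`, so
`(m - 1) * K < N` and `m * K < N + K ≤ 2 N`. -/
theorem kap_fibre {W : Finset ℕ} {K : ℕ} (hK : K ≤ W.card) (c : ℕ) :
    K * (W.filter (fun v => kap W K v = c)).card ≤ 2 * W.card := by
  rcases (W.filter (fun v => kap W K v = c)).eq_empty_or_nonempty with h0 | h0
  · rw [h0]
    simp
  · let R : Finset ℕ := (W.filter (fun v => kap W K v = c)).image (fun v => (W.filter (fun u => u < v)).card)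
    have hRc : R.card = (W.filter (fun v => kap W K v = c)).card := by
      apply Finset.card_image_of_injOn
      intro v hv v' hv' h
      simp only [Finset.coe_filter, Set.mem_ofPred_eq] at hv hv' h
      rcases lt_trichotomy v v' with h1 | h1 | h1
      · have := B03_rank hv.1 h1
        omega
      · exact h1
      · have := B03_rank hv'.1 h1
        omega
    have hRne : R.Nonempty := h0.image _
    have hWpos : 0 < W.card := by
      obtain ⟨v, hv⟩ := h0
      exact Finset.card_pos.mpr ⟨v, (Finset.mem_filter.mp hv).1⟩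
    have hprop : ∀ r ∈ R, c * W.card ≤ r * K ∧ r * K < (c + 1) * W.card := by
      intro r hr
      obtain ⟨v, hv, rfl⟩ := Finset.mem_image.mp hr
      have h1 := (Finset.mem_filter.mp hv).2
      unfold kap at h1
      constructor
      · rw [← h1]
        exact Nat.div_mul_le_self _ _
      · rw [← h1]
        exact Nat.lt_mul_of_div_lt (Nat.lt_succ_self _) hWpos
    have hsub : R ⊆ Finset.Icc (R.min' hRne) (R.max' hRne) := by
      intro r hr
      rw [Finset.mem_Icc]
      exact ⟨Finset.min'_le _ _ hr, Finset.le_max' _ _ hr⟩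
    have hcard := Finset.card_le_card hsub
    rw [Nat.card_Icc, hRc] at hcard
    have hmin := (hprop _ (R.min'_mem hRne)).1
    have hmax := (hprop _ (R.max'_mem hRne)).2
    have hle : R.min' hRne ≤ R.max' hRne := Finset.min'_le _ _ (R.max'_mem hRne)
    obtain ⟨d, hd⟩ := Nat.exists_eq_add_of_le hle
    rw [hd] at hcard hmax
    have h2 : (W.filter (fun v => kap W K v = c)).card ≤ d + 1 := by omega
    have h3 : K * (W.filter (fun v => kap W K v = c)).card ≤ K * (d + 1) := Nat.mul_le_mul_left K h2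
    have h4 : d * K < W.card := by
      have e1 : (R.min' hRne + d) * K = R.min' hRne * K + d * K := by ring
      have e2 : (c + 1) * W.card = c * W.card + W.card := by ring
      omega
    have e3 : K * (d + 1) = d * K + K := by ring
    omega

end LC
end
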