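import Pool.Agent.Lib.MP_6bc8af_co.Stmt
import Pool.Agent.Lib.MP_6bc8af_co.Mg.G001
import Pool.Agent.Lib.MP_6bc8af_co.Mg.G018

section

/-! F01 of MP_6bc8af_co: the join of an independent set with isolated vertices and a graph `H`. -/

open Classical

namespace LC

/-- the join of an independent set of `t + 1` vertices with the disjoint union of `t` isolated vertices and `H` -/
def jn (t q : ℕ) (H : SimpleGraph (Fin q)) : SimpleGraph (Fin (t + 1) ⊕ (Fin t ⊕ Fin q)) where
  Adj x y := match x, y with
    | .inl _, .inr _ => True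
    | .inr _, .inl _ => True
    | .inr (.inr a), .inr (.inr b) => H.Adj a b
    | _, _ => False
  symm := ⟨by
    rintro (a | a | a) (b | b | b) h
    all_goals first | exact h | trivial | exact h.symm⟩
  loopless := ⟨by
    rintro (a | a | a) h
    · exact h
    · exact h
    · exact H.loopless.irrefl a h⟩

variable {t q : ℕ} {H : SimpleGraph (Fin q)}

theorem jn_lr (a : Fin (t + 1)) (b : Fin t ⊕ Fin q) : (jn t q H).Adj (Sum.inl a) (Sum.inr b) := trivial

theorem jn_rl (a : Fin (t + 1)) (b : Fin t ⊕ Fin q) : (jn t q H).Adj (Sum.inr b) (Sum.inl a) := by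
  rcases b with b | b <;> trivial

theorem jn_ll (a b : Fin (t + 1)) : ¬ (jn t q H).Adj (Sum.inl a) (Sum.inl b) := fun h => h

theorem jn_qq (a b : Fin q) : (jn t q H).Adj (Sum.inr (Sum.inr a)) (Sum.inr (Sum.inr b)) ↔ H.Adj a b := Iff.rfl

theorem jn_tr (a : Fin t) (b : Fin t ⊕ Fin q) :
    ¬ (jn t q H).Adj (Sum.inr (Sum.inl a)) (Sum.inr b) := by
  rcases b with b | b
  · exact fun h => h
  · exact fun h => h

theorem jn_qt (a : Fin q) (b : Fin t) :
    ¬ (jn t q H).Adj (Sum.inr (Sum.inr a)) (Sum.inr (Sum.inl b)) := fun h => h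

theorem jn_conn (hq : 1 ≤ q) (k : ℕ) (hk : k ≤ t + 1) : IsKConn (jn t q H) k := by
  refine ⟨by simp only [Fintype.card_sum, Fintype.card_fin]; omega, ?_⟩
  intro S hS
  have h1 : ∃ i : Fin (t + 1), (Sum.inl i : Fin (t + 1) ⊕ (Fin t ⊕ Fin q)) ∉ S := by
    by_contra hcon
    push Not at hcon
    have hsub : (Finset.univ : Finset (Fin (t + 1))).image
        (Sum.inl : Fin (t + 1) → Fin (t + 1) ⊕ (Fin t ⊕ Fin q)) ⊆ S := by
      intro z hz
      rw [Finset.mem_image] at hz
      obtain ⟨i, _, rfl⟩ := hz
      exact hcon i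
    have := Finset.card_le_card hsub
    rw [Finset.card_image_of_injective _ Sum.inl_injective, Finset.card_univ, Fintype.card_fin] at this
    omega
  have h2 : ∃ j : Fin t ⊕ Fin q, (Sum.inr j : Fin (t + 1) ⊕ (Fin t ⊕ Fin q)) ∉ S := by
    by_contra hcon
    push Not at hcon
    have hsub : (Finset.univ : Finset (Fin t ⊕ Fin q)).image
        (Sum.inr : Fin t ⊕ Fin q → Fin (t + 1) ⊕ (Fin t ⊕ Fin q)) ⊆ S := by
      intro z hz
      rw [Finset.mem_image] at hz
      obtain ⟨i, _, rfl⟩ := hz
      exact hcon i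
    have := Finset.card_le_card hsub
    rw [Finset.card_image_of_injective _ Sum.inr_injective, Finset.card_univ, Fintype.card_sum,
      Fintype.card_fin, Fintype.card_fin] at this
    omega
  obtain ⟨i, hi⟩ := h1
  obtain ⟨j, hj⟩ := h2
  let I : {v : Fin (t + 1) ⊕ (Fin t ⊕ Fin q) | v ∉ S} := ⟨Sum.inl i, hi⟩
  let J : {v : Fin (t + 1) ⊕ (Fin t ⊕ Fin q) | v ∉ S} := ⟨Sum.inr j, hj⟩
  have hJI : ((jn t q H).induce {v | v ∉ S}).Adj J I := jn_rl (H := H) i j
  have hreach : ∀ u : {v : Fin (t + 1) ⊕ (Fin t ⊕ Fin q) | v ∉ S},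
      ((jn t q H).induce {v | v ∉ S}).Reachable u I := by
    rintro ⟨u, hu⟩
    rcases u with i' | j'
    · have : ((jn t q H).induce {v | v ∉ S}).Adj ⟨Sum.inl i', hu⟩ J := jn_lr (H := H) i' j
      exact this.reachable.trans hJI.reachable
    · have : ((jn t q H).induce {v | v ∉ S}).Adj ⟨Sum.inr j', hu⟩ I := jn_rl (H := H) i j'
      exact this.reachable
  haveI : Nonempty {v : Fin (t + 1) ⊕ (Fin t ⊕ Fin q) | v ∉ S} := ⟨I⟩
  exact ⟨fun u v => (hreach u).trans (hreach v).symm⟩

/-- `c i` of the cyclic sequence that misses one vertex of `H` -/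
def jc (t q : ℕ) (p : ℕ → Fin q) (i : ℕ) : Fin (t + 1) ⊕ (Fin t ⊕ Fin q) :=
  if h : i < 2 * t + 1 then
    (if h2 : i % 2 = 0 then Sum.inl ⟨i / 2, by omega⟩ else Sum.inr (Sum.inl ⟨i / 2, by omega⟩))
  else Sum.inr (Sum.inr (p (i - (2 * t + 1))))

theorem jn_cyc (hq : 3 ≤ q) (p : ℕ → Fin q) (u : Fin q)
    (hp : ∀ i < q - 1, ∀ j < q - 1, p i = p j → i = j)
    (ha : ∀ i, i + 1 < q - 1 → H.Adj (p i) (p (i + 1)))
    (hu : ∀ z, (∃ i < q - 1, p i = z) ↔ z ≠ u) :
    CycSeq (jn t q H) (2 * t + q) (jc t q p) ∧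
      ∀ z, (∃ i < 2 * t + q, jc t q p i = z) ↔ z ≠ Sum.inr (Sum.inr u) := by
  refine ⟨⟨by omega, ?_, ?_⟩, ?_⟩
  · intro i hi j hj h
    unfold jc at h
    split_ifs at h with h1 h2 h3 h4 h5 h6
    · simp only [Sum.inl.injEq, Fin.mk.injEq] at h; omega
    all_goals first | (exfalso; simp at h; done) | skip
    · simp only [Sum.inr.injEq, Sum.inl.injEq, Fin.mk.injEq] at h; omega
    · simp only [Sum.inr.injEq] at h
      have := hp _ (by omega) _ (by omega) h
      omega
  · intro i hi
    by_cases hlast : i + 1 = 2 * t + q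
    · have e : nx (2 * t + q) i = 0 := by unfold nx; rw [if_pos hlast]
      rw [e]
      have e0 : jc t q p 0 = Sum.inl ⟨0, by omega⟩ := by
        unfold jc
        rw [dif_pos (by omega), dif_pos (by omega)]
      have e1 : jc t q p i = Sum.inr (Sum.inr (p (i - (2 * t + 1)))) := by
        unfold jc
        rw [dif_neg (by omega)]
      rw [e0, e1]
      exact jn_rl _ _
    · have e : nx (2 * t + q) i = i + 1 := by unfold nx; rw [if_neg hlast]
      rw [e]
      by_cases h1 : i + 1 < 2 * t + 1
      · by_cases h2 : i % 2 = 0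
        · have e1 : jc t q p i = Sum.inl ⟨i / 2, by omega⟩ := by
            unfold jc
            rw [dif_pos (by omega), dif_pos h2]
          have e2 : jc t q p (i + 1) = Sum.inr (Sum.inl ⟨(i + 1) / 2, by omega⟩) := by
            unfold jc
            rw [dif_pos (by omega), dif_neg (by omega)]
          rw [e1, e2]
          exact jn_lr _ _
        · have e1 : jc t q p i = Sum.inr (Sum.inl ⟨i / 2, by omega⟩) := by
            unfold jc
            rw [dif_pos (by omega), dif_neg h2]
          have e2 : jc t q p (i + 1) = Sum.inl ⟨(i + 1) / 2, by omega⟩ := by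
            unfold jc
            rw [dif_pos (by omega), dif_pos (by omega)]
          rw [e1, e2]
          exact jn_rl _ _
      · have e2 : jc t q p (i + 1) = Sum.inr (Sum.inr (p (i + 1 - (2 * t + 1)))) := by
          unfold jc
          rw [dif_neg h1]
        rw [e2]
        by_cases h3 : i < 2 * t + 1
        · have e1 : jc t q p i = Sum.inl ⟨i / 2, by omega⟩ := by
            unfold jc
            rw [dif_pos h3, dif_pos (by omega)]
          rw [e1]
          exact jn_lr _ _
        · have e1 : jc t q p i = Sum.inr (Sum.inr (p (i - (2 * t + 1)))) := by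
            unfold jc
            rw [dif_neg h3]
          rw [e1, jn_qq]
          have e3 : i + 1 - (2 * t + 1) = (i - (2 * t + 1)) + 1 := by omega
          rw [e3]
          exact ha _ (by omega)
  · intro z
    constructor
    · rintro ⟨i, hi, rfl⟩ h
      unfold jc at h
      split_ifs at h with h1 h2
      · simp at h
      · simp only [Sum.inr.injEq] at h
        exact (hu _).1 ⟨_, by omega, rfl⟩ h
    · intro hz
      rcases z with ⟨a, ha'⟩ | ⟨b, hb⟩ | z
      · refine ⟨2 * a, by omega, ?_⟩
        unfold jc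
        rw [dif_pos (by omega), dif_pos (by omega)]
        simp
      · refine ⟨2 * b + 1, by omega, ?_⟩
        unfold jc
        rw [dif_pos (by omega), dif_neg (by omega)]
        have : (2 * b + 1) / 2 = b := by omega
        simp only [this]
      · have hzu : z ≠ u := fun h => hz (by rw [h])
        obtain ⟨i, hi, hiz⟩ := (hu z).2 hzu
        refine ⟨i + (2 * t + 1), by omega, ?_⟩
        unfold jc
        rw [dif_neg (by omega), Nat.add_sub_cancel, hiz]

end LC
end

section

/-! F02 of MP_6bc8af_co: the join `jn t q H` has a Hamiltonian cycle only if `H` has a Hamiltonian path. -/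

open Classical

namespace LC

variable {t q : ℕ} {H : SimpleGraph (Fin q)}

/-- an injective sequence of `n = card V` vertices: the indices of a given set of vertices -/
private theorem F02_card {V : Type} [Fintype V] {n : ℕ} (c : ℕ → V) (hn : Fintype.card V = n)
    (hinj : ∀ i < n, ∀ j < n, c i = c j → i = j) (P : V → Prop) :
    ((Finset.range n).filter (fun i => P (c i))).card = (Finset.univ.filter P).card := by
  have himg : (Finset.range n).image c = Finset.univ := by
    apply Finset.eq_univ_of_card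
    rw [Finset.card_image_of_injOn, Finset.card_range, hn]
    intro i hi j hj hij
    exact hinj i (Finset.mem_range.1 (Finset.mem_coe.1 hi)) j (Finset.mem_range.1 (Finset.mem_coe.1 hj)) hij
  rw [← himg, Finset.filter_image, Finset.card_image_of_injOn]
  intro i hi j hj hij
  simp only [Finset.coe_filter, Finset.mem_range, Set.mem_setOf_eq] at hi hj
  exact hinj i hi.1 j hj.1 hij

private def F02A (v : Fin (t + 1) ⊕ (Fin t ⊕ Fin q)) : Prop := ∃ a, v = Sum.inl a

private def F02T (v : Fin (t + 1) ⊕ (Fin t ⊕ Fin q)) : Prop := ∃ a, v = Sum.inr (Sum.inl a)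

private def F02Q (v : Fin (t + 1) ⊕ (Fin t ⊕ Fin q)) : Prop := ∃ a, v = Sum.inr (Sum.inr a)

theorem jn_ham {c : ℕ → Fin (t + 1) ⊕ (Fin t ⊕ Fin q)} (hq : 1 ≤ q)
    (hc : CycSeq (jn t q H) (2 * t + 1 + q) c) :
    ∃ p : ℕ → Fin q, (∀ i < q, ∀ j < q, p i = p j → i = j) ∧
      ∀ i, i + 1 < q → H.Adj (p i) (p (i + 1)) := by
  set n := 2 * t + 1 + q with hn
  have hcard : Fintype.card (Fin (t + 1) ⊕ (Fin t ⊕ Fin q)) = n := by
    simp only [Fintype.card_sum, Fintype.card_fin]; omega
  -- the three kinds
  set A : Fin (t + 1) ⊕ (Fin t ⊕ Fin q) → Prop := F02A with hAd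
  set T : Fin (t + 1) ⊕ (Fin t ⊕ Fin q) → Prop := F02T with hTd
  set Q : Fin (t + 1) ⊕ (Fin t ⊕ Fin q) → Prop := F02Q with hQd
  have hcases : ∀ v, A v ∨ T v ∨ Q v := by
    rintro (a | a | a)
    · exact Or.inl ⟨a, rfl⟩
    · exact Or.inr (Or.inl ⟨a, rfl⟩)
    · exact Or.inr (Or.inr ⟨a, rfl⟩)
  have hAT : ∀ v, A v → ¬ T v := by
    rintro v ⟨a, rfl⟩ ⟨b, h⟩
    simp at h
  have hAQ : ∀ v, A v → ¬ Q v := by
    rintro v ⟨a, rfl⟩ ⟨b, h⟩
    simp at h
  have hTQ : ∀ v, T v → ¬ Q v := by
    rintro v ⟨a, rfl⟩ ⟨b, h⟩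
    simp at h
  have hAA : ∀ v w, (jn t q H).Adj v w → A v → ¬ A w := by
    rintro v w h ⟨a, rfl⟩ ⟨b, rfl⟩
    exact jn_ll a b h
  have hTA : ∀ v w, (jn t q H).Adj v w → T v → A w := by
    rintro v w h ⟨a, rfl⟩
    rcases w with w | w
    · exact ⟨w, rfl⟩
    · exact (jn_tr a w h).elim
  have hQT : ∀ v w, (jn t q H).Adj v w → Q v → ¬ T w := by
    rintro v w h ⟨a, rfl⟩ ⟨b, rfl⟩
    exact jn_qt a b h
  -- cardinalities
  have cA : (Finset.univ.filter A).card = t + 1 := by
    have : Finset.univ.filter A = (Finset.univ : Finset (Fin (t + 1))).image Sum.inl := by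
      ext v
      simp only [Finset.mem_filter, Finset.mem_univ, true_and, Finset.mem_image, A, F02A]
      constructor
      · rintro ⟨a, rfl⟩; exact ⟨a, rfl⟩
      · rintro ⟨a, rfl⟩; exact ⟨a, rfl⟩
    rw [this, Finset.card_image_of_injective _ Sum.inl_injective, Finset.card_univ, Fintype.card_fin]
  have cT : (Finset.univ.filter T).card = t := by
    have : Finset.univ.filter T = (Finset.univ : Finset (Fin t)).image
        (fun a => (Sum.inr (Sum.inl a) : Fin (t + 1) ⊕ (Fin t ⊕ Fin q))) := by
      ext v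
      simp only [Finset.mem_filter, Finset.mem_univ, true_and, Finset.mem_image, T, F02T]
      constructor
      · rintro ⟨a, rfl⟩; exact ⟨a, rfl⟩
      · rintro ⟨a, rfl⟩; exact ⟨a, rfl⟩
    rw [this, Finset.card_image_of_injective _ (by intro a b h; simpa using h), Finset.card_univ,
      Fintype.card_fin]
  have cQ : (Finset.univ.filter Q).card = q := by
    have : Finset.univ.filter Q = (Finset.univ : Finset (Fin q)).image
        (fun a => (Sum.inr (Sum.inr a) : Fin (t + 1) ⊕ (Fin t ⊕ Fin q))) := by
      ext v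
      simp only [Finset.mem_filter, Finset.mem_univ, true_and, Finset.mem_image, Q, F02Q]
      constructor
      · rintro ⟨a, rfl⟩; exact ⟨a, rfl⟩
      · rintro ⟨a, rfl⟩; exact ⟨a, rfl⟩
    rw [this, Finset.card_image_of_injective _ (by intro a b h; simpa using h), Finset.card_univ,
      Fintype.card_fin]
  -- nx is a bijection
  have hnxlt : ∀ i < n, nx n i < n := by
    intro i hi
    unfold nx
    split_ifs <;> omega
  have hnxinj : ∀ i < n, ∀ j < n, nx n i = nx n j → i = j := by
    intro i hi j hj h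
    unfold nx at h
    split_ifs at h <;> omega
  have hinj2 : ∀ i < n, ∀ j < n, c (nx n i) = c (nx n j) → i = j := fun i hi j hj h =>
    hnxinj i hi j hj (hc.inj _ (hnxlt i hi) _ (hnxlt j hj) h)
  have hP : ((Finset.range n).filter (fun i => A (c (nx n i)))).card = t + 1 := by
    exact (F02_card (fun i => c (nx n i)) hcard hinj2 A).trans cA
  have hT : ((Finset.range n).filter (fun i => T (c i))).card = t := by
    exact (F02_card c hcard hc.inj T).trans cT
  have hQ : ((Finset.range n).filter (fun i => Q (c i))).card = q := by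
    exact (F02_card c hcard hc.inj Q).trans cQ
  -- exactly one transition from Q to A
  have hone : ((Finset.range n).filter (fun i => Q (c i) ∧ A (c (nx n i)))).card = 1 := by
    have h1 : (Finset.range n).filter (fun i => A (c (nx n i))) =
        (Finset.range n).filter (fun i => T (c i)) ∪
          (Finset.range n).filter (fun i => Q (c i) ∧ A (c (nx n i))) := by
      ext i
      simp only [Finset.mem_filter, Finset.mem_union, Finset.mem_range]
      constructor
      · rintro ⟨hi, hA⟩
        rcases hcases (c i) with h | h | h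
        · exact (hAA _ _ (hc.adj i hi) h hA).elim
        · exact Or.inl ⟨hi, h⟩
        · exact Or.inr ⟨hi, h, hA⟩
      · rintro (⟨hi, h⟩ | ⟨hi, _, h⟩)
        · exact ⟨hi, hTA _ _ (hc.adj i hi) h⟩
        · exact ⟨hi, h⟩
    have h2 : Disjoint ((Finset.range n).filter (fun i => T (c i)))
        ((Finset.range n).filter (fun i => Q (c i) ∧ A (c (nx n i)))) := by
      rw [Finset.disjoint_left]
      intro i hi hj
      simp only [Finset.mem_filter] at hi hj
      exact hTQ _ hi.2 hj.2.1
    rw [h1, Finset.card_union_of_disjoint h2, hT] at hP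
    omega
  obtain ⟨i₀, hi₀⟩ := Finset.card_eq_one.1 hone
  have hi₀mem : i₀ ∈ (Finset.range n).filter (fun i => Q (c i) ∧ A (c (nx n i))) := by
    rw [hi₀]; exact Finset.mem_singleton_self _
  have hi₀lt : i₀ < n := Finset.mem_range.1 (Finset.mem_filter.1 hi₀mem).1
  have huniq : ∀ i < n, Q (c i) → A (c (nx n i)) → i = i₀ := by
    intro i hi h1 h2
    have : i ∈ (Finset.range n).filter (fun i => Q (c i) ∧ A (c (nx n i))) :=
      Finset.mem_filter.2 ⟨Finset.mem_range.2 hi, h1, h2⟩
    rw [hi₀] at this
    exact Finset.mem_singleton.1 this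
  -- rotate
  let ρ : ℕ → ℕ := fun j => if i₀ + 1 + j < n then i₀ + 1 + j else i₀ + 1 + j - n
  have hρlt : ∀ j < n, ρ j < n := by
    intro j hj
    simp only [ρ]
    split_ifs <;> omega
  have hρinj : ∀ i < n, ∀ j < n, ρ i = ρ j → i = j := by
    intro i hi j hj h
    simp only [ρ] at h
    split_ifs at h <;> omega
  have hρnx : ∀ j, j + 1 < n → nx n (ρ j) = ρ (j + 1) := by
    intro j hj
    simp only [ρ, nx]
    split_ifs <;> omega
  have hρi₀ : ∀ j < n, ρ j = i₀ → j + 1 = n := by
    intro j hj h
    simp only [ρ] at h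
    split_ifs at h <;> omega
  let r : ℕ → Fin (t + 1) ⊕ (Fin t ⊕ Fin q) := fun j => c (ρ j)
  have hrinj : ∀ i < n, ∀ j < n, r i = r j → i = j := fun i hi j hj h =>
    hρinj i hi j hj (hc.inj _ (hρlt i hi) _ (hρlt j hj) h)
  have hradj : ∀ j, j + 1 < n → (jn t q H).Adj (r j) (r (j + 1)) := by
    intro j hj
    have := hc.adj (ρ j) (hρlt j (by omega))
    rw [hρnx j hj] at this
    exact this
  have hup : ∀ j, j + 1 < n → Q (r j) → Q (r (j + 1)) := by
    intro j hj h
    rcases hcases (r (j + 1)) with h1 | h1 | h1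
    · exfalso
      have h2 : A (c (nx n (ρ j))) := by rw [hρnx j hj]; exact h1
      have := hρi₀ j (by omega) (huniq (ρ j) (hρlt j (by omega)) h h2)
      omega
    · exact (hQT _ _ (hradj j hj) h h1).elim
    · exact h1
  have hup' : ∀ d j, j + d < n → Q (r j) → Q (r (j + d)) := by
    intro d
    induction d with
    | zero => intro j _ h; exact h
    | succ d ih =>
      intro j hj h
      exact hup (j + d) (by omega) (ih j (by omega) h)
  have hrQ : ((Finset.range n).filter (fun i => Q (r i))).card = q := by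
    exact (F02_card r hcard hrinj Q).trans cQ
  have hge : ∀ j < n, Q (r j) → n - q ≤ j := by
    intro j hj h
    have hsub : Finset.Ico j n ⊆ (Finset.range n).filter (fun i => Q (r i)) := by
      intro i hi
      rw [Finset.mem_Ico] at hi
      rw [Finset.mem_filter, Finset.mem_range]
      refine ⟨hi.2, ?_⟩
      have := hup' (i - j) j (by omega) h
      rwa [Nat.add_sub_cancel' hi.1] at this
    have := Finset.card_le_card hsub
    rw [hrQ, Nat.card_Ico] at this
    omega
  have heq : (Finset.range n).filter (fun i => Q (r i)) = Finset.Ico (n - q) n := by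
    apply Finset.eq_of_subset_of_card_le
    · intro i hi
      rw [Finset.mem_filter, Finset.mem_range] at hi
      rw [Finset.mem_Ico]
      exact ⟨hge i hi.1 hi.2, hi.1⟩
    · rw [hrQ, Nat.card_Ico]
      omega
  have hQr : ∀ i < q, Q (r (n - q + i)) := by
    intro i hi
    have : n - q + i ∈ (Finset.range n).filter (fun i => Q (r i)) := by
      rw [heq, Finset.mem_Ico]
      omega
    exact (Finset.mem_filter.1 this).2
  let p : ℕ → Fin q := fun i => if h : i < q then (hQr i h).choose else ⟨0, by omega⟩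
  have hp : ∀ i < q, r (n - q + i) = Sum.inr (Sum.inr (p i)) := by
    intro i hi
    simp only [p]
    rw [dif_pos hi]
    exact (hQr i hi).choose_spec
  refine ⟨p, ?_, ?_⟩
  · intro i hi j hj h
    have : r (n - q + i) = r (n - q + j) := by rw [hp i hi, hp j hj, h]
    have := hrinj _ (by omega) _ (by omega) this
    omega
  · intro i hi
    have h1 := hradj (n - q + i) (by omega)
    have e : n - q + i + 1 = n - q + (i + 1) := by omega
    rw [e, hp i (by omega), hp (i + 1) hi, jn_qq] at h1
    exact h1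

end LC
end

section

/-! TASK B05 of MP_6bc8af_co. -/

open Classical

namespace LC

private theorem B05_enum (C : Finset ℕ) : ∃ γ : ℕ → ℕ, ∀ F : ℕ → ℝ,
    ∑ c ∈ C, F c = ∑ k ∈ Finset.range C.card, F (γ k) := by
  refine ⟨fun k => if h : k < C.card then ((C.equivFin.symm ⟨k, h⟩ : C) : ℕ) else 0, fun F => ?_⟩
  rw [Finset.sum_range, ← Finset.sum_coe_sort C]
  refine Fintype.sum_equiv C.equivFin _ _ fun x => ?_
  have h1 : ((C.equivFin x : Fin C.card) : ℕ) < C.card := (C.equivFin x).isLt
  simp only [dif_pos h1]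
  congr 1
  have h2 : (⟨((C.equivFin x : Fin C.card) : ℕ), h1⟩ : Fin C.card) = C.equivFin x := rfl
  rw [h2, Equiv.symm_apply_apply]

private theorem B05_eo (H : ℕ → ℕ → Prop) (A B : Finset ℕ) :
    eo H A B = ∑ a ∈ A, (B.filter (fun b => H a b)).card := by
  unfold eo
  simp only [Finset.card_filter, Finset.sum_product]

private theorem B05_eo_insert {H : ℕ → ℕ → Prop} (hs : ∀ u v, H u v → H v u) (hi : ∀ u, ¬ H u u)
    {A : Finset ℕ} {v : ℕ} (hv : v ∉ A) :
    eo H (insert v A) (insert v A) = eo H A A + 2 * ((insert v A).filter (fun u => H v u)).card := by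
  have h1 : ((insert v A).filter (fun u => H v u)).card = (A.filter (fun u => H v u)).card := by
    rw [Finset.filter_insert, if_neg (hi v)]
  have h2 : ∀ a, ((insert v A).filter (fun u => H a u)).card =
      (A.filter (fun u => H a u)).card + (if H a v then 1 else 0) := by
    intro a
    rw [Finset.filter_insert]
    by_cases h : H a v
    · rw [if_pos h, if_pos h, Finset.card_insert_of_notMem]
      intro h3
      exact hv (Finset.mem_filter.mp h3).1
    · rw [if_neg h, if_neg h, Nat.add_zero]
  have h3 : ∑ a ∈ A, (if H a v then 1 else 0) = (A.filter (fun u => H v u)).card := by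
    rw [Finset.card_filter]
    refine Finset.sum_congr rfl fun a _ => ?_
    by_cases h : H a v
    · rw [if_pos h, if_pos (hs _ _ h)]
    · rw [if_neg h, if_neg (fun h' => h (hs _ _ h'))]
  rw [B05_eo, B05_eo, Finset.sum_insert hv, h1]
  simp only [h2]
  rw [Finset.sum_add_distrib, h3]
  omega

/-- Cleaning: removing the vertices that are not rich.

PROOF. Call a subset `W' ⊆ W` admissible if there is `β` such that
`eo H W W ≤ eo H W' W' + 2 * ∑ v ∈ W \ W', (B + ∑ j ∈ range (l + 1), ∑ i ∈ range (R j), card {u ∈ W | H v u ∧ kap W (K j) u = β j i v})` (real numbers).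
`W` is admissible. Take an admissible `W'` of minimal cardinality. It satisfies the claim (the sum over `W \ W'` is at most the sum over `W`, which is
`B * W.card` plus the number of pairs). It is rich: suppose `v ∈ W'`, `j ≤ l` and fewer than `R j` cells `c < K j` have
`τ j ≤ card (nbc H W W' (K j) c v)`; let `γ 0, ..., γ (R j - 1)` be a list containing all these cells (`γ : ℕ → ℕ`). The number `d` of neighbours
of `v` in `W'` is the sum over the cells `c < K j` (`kap_lt`) of `card (nbc ...)`; the cells which are not in the list contribute at most `K j * τ j ≤ B`, those in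
the list at most `∑ i < R j, card {u ∈ W | H v u ∧ kap W (K j) u = γ i}`. Since `eo H W' W' = eo H (W' \ {v}) (W' \ {v}) + 2 d` (`H` symmetric and
irreflexive), `W' \ {v}` is admissible, with `β` changed at `v` to `β j i v = γ i` for this `j` (the values of `β` at the other vertices are unchanged; the terms for the
other `j` are nonnegative). This contradicts the minimality. -/
theorem clean_comb {H : ℕ → ℕ → Prop} (hs : ∀ u v, H u v → H v u) (hi : ∀ u, ¬ H u u) (W : Finset ℕ) (l : ℕ)
    (K R : ℕ → ℕ) (τ : ℕ → ℝ) (B : ℝ) (hK : ∀ j ≤ l, 0 < K j) (hτ : ∀ j ≤ l, 0 ≤ τ j)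
    (hB : ∀ j ≤ l, (K j : ℝ) * τ j ≤ B) :
    ∃ W' ⊆ W, Rich H W W' l K R τ ∧ ∃ β : ℕ → ℕ → ℕ → ℕ,
      (eo H W W : ℝ) ≤ (eo H W' W' : ℝ) + 2 * (B * (W.card : ℝ) +
        ∑ j ∈ Finset.range (l + 1), ∑ i ∈ Finset.range (R j),
          (((W ×ˢ W).filter (fun p : ℕ × ℕ => H p.1 p.2 ∧ kap W (K j) p.2 = β j i p.1)).card : ℝ)) := by
  have hB0 : 0 ≤ B := le_trans (mul_nonneg (Nat.cast_nonneg _) (hτ 0 (Nat.zero_le _))) (hB 0 (Nat.zero_le _))
  set X : (ℕ → ℕ → ℕ → ℕ) → ℕ → ℝ := fun β v => B + ∑ j ∈ Finset.range (l + 1), ∑ i ∈ Finset.range (R j),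
    ((nbc H W W (K j) (β j i v) v).card : ℝ) with hX
  have hX0 : ∀ β v, 0 ≤ X β v := by
    intro β v
    rw [hX]
    exact add_nonneg hB0 (Finset.sum_nonneg fun j _ => Finset.sum_nonneg fun i _ => Nat.cast_nonneg _)
  set adm : Finset ℕ → Prop := fun W' => ∃ β : ℕ → ℕ → ℕ → ℕ,
    (eo H W W : ℝ) ≤ (eo H W' W' : ℝ) + 2 * ∑ v ∈ W \ W', X β v with hadm
  have hne : (W.powerset.filter adm).Nonempty := by
    refine ⟨W, ?_⟩
    rw [Finset.mem_filter]
    refine ⟨Finset.mem_powerset_self W, fun _ _ _ => 0, ?_⟩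
    rw [Finset.sdiff_self, Finset.sum_empty]
    linarith
  obtain ⟨W', hW', hmin⟩ := Finset.exists_min_image _ Finset.card hne
  rw [Finset.mem_filter, Finset.mem_powerset] at hW'
  obtain ⟨hsub, β, hβ⟩ := hW'
  refine ⟨W', hsub, ?_, β, ?_⟩
  · intro v hv j hj
    by_contra hcon
    push Not at hcon
    set C : Finset ℕ := (Finset.range (K j)).filter (fun c => τ j ≤ ((nbc H W W' (K j) c v).card : ℝ)) with hC
    obtain ⟨γ, hγ⟩ := B05_enum C
    set β' : ℕ → ℕ → ℕ → ℕ := fun j' i u => if u = v ∧ j' = j then γ i else β j' i u with hβ'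
    have hvW : v ∈ W := hsub hv
    set d : ℕ := (W'.filter (fun u => H v u)).card with hd
    -- the number of neighbours is a sum over the cells
    have hd1 : (d : ℝ) = ∑ c ∈ Finset.range (K j), ((nbc H W W' (K j) c v).card : ℝ) := by
      have h1 : d = ∑ c ∈ Finset.range (K j), ((W'.filter (fun u => H v u)).filter
          (fun u => kap W (K j) u = c)).card := by
        apply Finset.card_eq_sum_card_fiberwise
        intro u hu
        have hu' := Finset.mem_filter.mp (Finset.mem_coe.mp hu)
        exact Finset.mem_coe.mpr (Finset.mem_range.mpr (kap_lt (hK j hj) (hsub hu'.1)))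
      rw [h1]
      push_cast
      refine Finset.sum_congr rfl fun c _ => ?_
      unfold nbc
      rw [Finset.filter_filter]
    have hd2 : (d : ℝ) ≤ B + ∑ i ∈ Finset.range (R j), ((nbc H W W (K j) (γ i) v).card : ℝ) := by
      rw [hd1, ← Finset.sum_filter_add_sum_filter_not (Finset.range (K j))
        (fun c => τ j ≤ ((nbc H W W' (K j) c v).card : ℝ))]
      have h1 : ∑ c ∈ (Finset.range (K j)).filter (fun c => ¬ τ j ≤ ((nbc H W W' (K j) c v).card : ℝ)),
          ((nbc H W W' (K j) c v).card : ℝ) ≤ B := by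
        calc ∑ c ∈ (Finset.range (K j)).filter (fun c => ¬ τ j ≤ ((nbc H W W' (K j) c v).card : ℝ)),
            ((nbc H W W' (K j) c v).card : ℝ)
            ≤ ∑ c ∈ (Finset.range (K j)).filter (fun c => ¬ τ j ≤ ((nbc H W W' (K j) c v).card : ℝ)), τ j := by
              refine Finset.sum_le_sum fun c hc => ?_
              exact (not_le.mp (Finset.mem_filter.mp hc).2).le
          _ = (((Finset.range (K j)).filter (fun c => ¬ τ j ≤ ((nbc H W W' (K j) c v).card : ℝ))).card : ℝ) *
                τ j := by rw [Finset.sum_const, nsmul_eq_mul]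
          _ ≤ (K j : ℝ) * τ j := by
              refine mul_le_mul_of_nonneg_right ?_ (hτ j hj)
              have h2 := Finset.card_filter_le (Finset.range (K j))
                (fun c => ¬ τ j ≤ ((nbc H W W' (K j) c v).card : ℝ))
              rw [Finset.card_range] at h2
              exact_mod_cast h2
          _ ≤ B := hB j hj
      have h2 : ∑ c ∈ C, ((nbc H W W' (K j) c v).card : ℝ) ≤
          ∑ i ∈ Finset.range (R j), ((nbc H W W (K j) (γ i) v).card : ℝ) := by
        calc ∑ c ∈ C, ((nbc H W W' (K j) c v).card : ℝ)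
            ≤ ∑ c ∈ C, ((nbc H W W (K j) c v).card : ℝ) := by
              refine Finset.sum_le_sum fun c _ => ?_
              have h3 : (nbc H W W' (K j) c v).card ≤ (nbc H W W (K j) c v).card :=
                Finset.card_le_card (Finset.filter_subset_filter _ hsub)
              exact_mod_cast h3
          _ = ∑ i ∈ Finset.range C.card, ((nbc H W W (K j) (γ i) v).card : ℝ) :=
              hγ (fun c => ((nbc H W W (K j) c v).card : ℝ))
          _ ≤ ∑ i ∈ Finset.range (R j), ((nbc H W W (K j) (γ i) v).card : ℝ) :=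
              Finset.sum_le_sum_of_subset_of_nonneg
                (Finset.range_subset_range.mpr hcon.le) (fun _ _ _ => Nat.cast_nonneg _)
      linarith
    have hins : insert v (W'.erase v) = W' := Finset.insert_erase hv
    have heo : (eo H W' W' : ℝ) = (eo H (W'.erase v) (W'.erase v) : ℝ) + 2 * (d : ℝ) := by
      have h1 := B05_eo_insert hs hi (Finset.notMem_erase v W')
      rw [hins] at h1
      rw [h1]
      push_cast
      rfl
    have hsd : W \ (W'.erase v) = insert v (W \ W') := by
      ext u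
      simp only [Finset.mem_sdiff, Finset.mem_erase, Finset.mem_insert]
      constructor
      · rintro ⟨h1, h2⟩
        by_cases h3 : u = v
        · exact Or.inl h3
        · exact Or.inr ⟨h1, fun h4 => h2 ⟨h3, h4⟩⟩
      · rintro (h1 | ⟨h1, h2⟩)
        · rw [h1]; exact ⟨hvW, fun h2 => h2.1 rfl⟩
        · exact ⟨h1, fun h3 => h2 h3.2⟩
    have hvn : v ∉ W \ W' := fun h => (Finset.mem_sdiff.mp h).2 hv
    have hXv : (d : ℝ) ≤ X β' v := by
      refine hd2.trans ?_
      rw [hX]
      refine add_le_add le_rfl ?_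
      have h1 : ∑ i ∈ Finset.range (R j), ((nbc H W W (K j) (γ i) v).card : ℝ) =
          ∑ i ∈ Finset.range (R j), ((nbc H W W (K j) (β' j i v) v).card : ℝ) := by
        refine Finset.sum_congr rfl fun i _ => ?_
        rw [hβ']
        simp only [if_true, and_self]
      rw [h1]
      exact Finset.single_le_sum
        (f := fun j' => ∑ i ∈ Finset.range (R j'), ((nbc H W W (K j') (β' j' i v) v).card : ℝ))
        (fun j' _ => Finset.sum_nonneg fun i _ => Nat.cast_nonneg _)
        (Finset.mem_range.mpr (by omega))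
    have hXe : ∀ u ∈ W \ W', X β' u = X β u := by
      intro u hu
      have huv : u ≠ v := fun h => hvn (h ▸ hu)
      rw [hX]
      simp only [hβ', huv, false_and, if_false]
    have hadm' : adm (W'.erase v) := by
      refine ⟨β', ?_⟩
      rw [hsd, Finset.sum_insert hvn, Finset.sum_congr rfl hXe]
      linarith
    have hlt := Finset.card_erase_lt_of_mem hv
    have := hmin (W'.erase v) (Finset.mem_filter.mpr ⟨Finset.mem_powerset.mpr
      ((Finset.erase_subset _ _).trans hsub), hadm'⟩)
    omega
  · refine hβ.trans (add_le_add le_rfl (mul_le_mul_of_nonneg_left ?_ (by norm_num)))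
    calc ∑ v ∈ W \ W', X β v ≤ ∑ v ∈ W, X β v :=
          Finset.sum_le_sum_of_subset_of_nonneg Finset.sdiff_subset (fun v _ _ => hX0 β v)
      _ = B * (W.card : ℝ) + ∑ j ∈ Finset.range (l + 1), ∑ i ∈ Finset.range (R j),
          (((W ×ˢ W).filter (fun p : ℕ × ℕ => H p.1 p.2 ∧ kap W (K j) p.2 = β j i p.1)).card : ℝ) := by
          rw [hX]
          rw [Finset.sum_add_distrib, Finset.sum_const, nsmul_eq_mul, mul_comm B]
          congr 1
          rw [Finset.sum_comm]
          refine Finset.sum_congr rfl fun j _ => ?_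
          rw [Finset.sum_comm]
          refine Finset.sum_congr rfl fun i _ => ?_
          unfold nbc
          simp only [Finset.card_filter, Finset.sum_product]
          push_cast
          rfl

end LC
end
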