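import Mathlib
import Pool.Agent.Lib.MP_6bc8af_co.Mg.G018
import Pool.Agent.Lib.MP_6bc8af_co.Mg.G001

section

/-! TASK B09 of MP_6bc8af_co. -/

open Classical

namespace LC

private theorem B09_down {Φ : Type} [Fintype Φ] [Nonempty Φ] (l : ℕ) (K r' : ℕ → ℕ) (r : ℕ) (hrpos : 0 < r)
    (hr : ∀ j ≤ l, r * (Fintype.card Φ * 2 ^ (∑ i ∈ Finset.Ioc j l, K i)) ≤ r' j)
    (Q : (ℕ → ℕ) → Φ → Prop) (j : ℕ) (hj : j ≤ l) (S : Finset ℕ) (hS : S ⊆ Finset.range (K j)) (hSr : r' j ≤ S.card)
    (C : ℕ → ℕ → ℕ)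
    (hdata : ∀ x ∈ S, ∃ (φ : Φ) (A : ℕ → Finset ℕ), (∀ i, j < i → i ≤ l → A i ⊆ Finset.range (K i) ∧ (A i).card = r) ∧
      ∀ c', (∀ i ≤ j, c' i = C x i) → (∀ i, j < i → i ≤ l → c' i ∈ A i) → Q c' φ) :
    ∃ (φ : Φ) (A : ℕ → Finset ℕ), (∀ i, j ≤ i → i ≤ l → A i ⊆ Finset.range (K i) ∧ (A i).card = r) ∧
      (A j ⊆ S) ∧ ∀ c', c' j ∈ A j → (∀ i ≤ j, c' i = C (c' j) i) → (∀ i, j < i → i ≤ l → c' i ∈ A i) → Q c' φ := by
  classical
  have hdata' : ∀ x : ℕ, ∃ (φ : Φ) (A : ℕ → Finset ℕ), x ∈ S →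
      (∀ i, j < i → i ≤ l → A i ⊆ Finset.range (K i) ∧ (A i).card = r) ∧
      ∀ c', (∀ i ≤ j, c' i = C x i) → (∀ i, j < i → i ≤ l → c' i ∈ A i) → Q c' φ := by
    intro x
    by_cases hx : x ∈ S
    · obtain ⟨φ, A, h⟩ := hdata x hx
      exact ⟨φ, A, fun _ => h⟩
    · exact ⟨Classical.arbitrary Φ, fun _ => ∅, fun h => absurd h hx⟩
  choose φ A hA using hdata'
  let P : Finset ((i : ℕ) → i ∈ Finset.Ioc j l → Finset ℕ) :=
    (Finset.Ioc j l).pi (fun i => (Finset.range (K i)).powerset)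
  let D : Finset (Φ × ((i : ℕ) → i ∈ Finset.Ioc j l → Finset ℕ)) := Finset.univ ×ˢ P
  have hDcard : D.card = Fintype.card Φ * 2 ^ (∑ i ∈ Finset.Ioc j l, K i) := by
    simp only [D, P, Finset.card_product, Finset.card_univ, Finset.card_pi, Finset.card_powerset,
      Finset.card_range, Finset.prod_pow_eq_pow_sum]
  have hDne : D.Nonempty := by
    rw [← Finset.card_pos, hDcard]
    exact Nat.mul_pos Fintype.card_pos (by positivity)
  let f : ℕ → Φ × ((i : ℕ) → i ∈ Finset.Ioc j l → Finset ℕ) := fun x => (φ x, fun i _ => A x i)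
  have hf : ∀ x ∈ S, f x ∈ D := by
    intro x hx
    simp only [D, P, f, Finset.mem_product, Finset.mem_univ, true_and, Finset.mem_pi, Finset.mem_powerset]
    intro i hi
    rw [Finset.mem_Ioc] at hi
    exact ((hA x hx).1 i hi.1 hi.2).1
  have hle : D.card * r ≤ S.card := by
    rw [hDcard, mul_comm]
    exact le_trans (hr j hj) hSr
  obtain ⟨y, hy, hyc⟩ := Finset.exists_le_card_fiber_of_mul_le_card_of_maps_to hf hDne hle
  obtain ⟨T, hTsub, hTcard⟩ := Finset.exists_subset_card_eq hyc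
  have hTS : ∀ x ∈ T, x ∈ S ∧ f x = y := by
    intro x hx
    exact Finset.mem_filter.1 (hTsub hx)
  obtain ⟨x₀, hx₀⟩ : T.Nonempty := by
    rw [← Finset.card_pos, hTcard]; exact hrpos
  have hfx : ∀ x ∈ T, φ x = φ x₀ ∧ ∀ i, j < i → i ≤ l → A x i = A x₀ i := by
    intro x hx
    have h1 : f x = f x₀ := by rw [(hTS x hx).2, (hTS x₀ hx₀).2]
    have h2 : φ x = φ x₀ := congrArg Prod.fst h1
    have h3 : (fun (i : ℕ) (_ : i ∈ Finset.Ioc j l) => A x i) = (fun i _ => A x₀ i) := congrArg Prod.snd h1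
    refine ⟨h2, fun i hi1 hi2 => ?_⟩
    exact congrFun (congrFun h3 i) (Finset.mem_Ioc.2 ⟨hi1, hi2⟩)
  refine ⟨φ x₀, fun i => if i = j then T else A x₀ i, ?_, ?_, ?_⟩
  · intro i h1 h2
    by_cases hij : i = j
    · subst hij
      simp only [if_true]
      exact ⟨fun x hx => hS (hTS x hx).1, hTcard⟩
    · simp only [hij, if_false]
      exact (hA x₀ (hTS x₀ hx₀).1).1 i (by omega) h2
  · simp only [if_true]
    exact fun x hx => (hTS x hx).1
  · intro c' hc1 hc2 hc3
    simp only [if_true] at hc1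
    have h1 := hfx _ hc1
    rw [← h1.1]
    apply (hA (c' j) (hTS _ hc1).1).2 c' hc2
    intro i hi1 hi2
    have h2 := hc3 i hi1 hi2
    have hij : i ≠ j := by omega
    simp only [hij, if_false] at h2
    rw [h1.2 i hi1 hi2]
    exact h2

/-- From a tree to a box (pigeonhole).

`G j c` says that the prefix `c 0, ..., c j` is good, `Q c φ` that the full sequence `c 0, ..., c l` has the type `φ`.
PROOF. We show by downward induction on `j` (from `l` to `0`): for every `c` with `G j c` there are `φ` and sets `A i ⊆ range (K i)` with `r` elements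
(`j < i ≤ l`) such that `Q c' φ` for all `c'` with `c' i = c i` for `i ≤ j` and `c' i ∈ A i` for `j < i ≤ l`. `j = l`: `hfull` and `hQ`. Step from `j + 1` to `j`: for
each good `x < K (j + 1)` (`G (j + 1) (update c (j + 1) x)`) choose the data `(φ, (A i)_{j + 1 < i ≤ l})`; there are at most
`card Φ * 2 ^ (∑ i ∈ Ioc (j + 1) l, K i)` possible data (the family `(A i)` is a function on `Ioc (j + 1) l` with values in the powersets of `range (K i)`:
`Finset.pi`), and at least `r' (j + 1) ≥ r * (that number)` good `x`, so `r` of them have the same data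
(`Finset.exists_le_card_fiber_of_mul_le_card_of_maps_to`); take `r` of them as `A (j + 1)`. For `c'` as required apply the property of `x = c' (j + 1)` (with
`update c (j + 1) x`, which agrees with `c'` up to `j + 1`). Finally, at level `0`: the good `x < K 0` (`hstart`), the prefix `fun _ => x`, and the same
argument gives `A 0`. -/
theorem box_pigeon {Φ : Type} [Fintype Φ] [Nonempty Φ] (l : ℕ) (K r' : ℕ → ℕ) (r : ℕ)
    (hr : ∀ j ≤ l, r * (Fintype.card Φ * 2 ^ (∑ i ∈ Finset.Ioc j l, K i)) ≤ r' j)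
    (G : ℕ → (ℕ → ℕ) → Prop) (hG : ∀ j c c', (∀ i ≤ j, c i = c' i) → (G j c ↔ G j c'))
    (Q : (ℕ → ℕ) → Φ → Prop) (hQ : ∀ c c' φ, (∀ i ≤ l, c i = c' i) → (Q c φ ↔ Q c' φ))
    (hstart : r' 0 ≤ ((Finset.range (K 0)).filter (fun x => G 0 (fun _ => x))).card)
    (hstep : ∀ j c, j + 1 ≤ l → G j c →
      r' (j + 1) ≤ ((Finset.range (K (j + 1))).filter (fun x => G (j + 1) (Function.update c (j + 1) x))).card)
    (hfull : ∀ c, G l c → ∃ φ, Q c φ) :
    ∃ (φ : Φ) (A : ℕ → Finset ℕ), (∀ j ≤ l, A j ⊆ Finset.range (K j) ∧ (A j).card = r) ∧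
      ∀ c, (∀ j ≤ l, c j ∈ A j) → Q c φ := by
  classical
  rcases Nat.eq_zero_or_pos r with hr0 | hrpos
  · subst hr0
    refine ⟨Classical.arbitrary Φ, fun _ => ∅, fun j _ => ⟨Finset.empty_subset _, rfl⟩, fun c hc => ?_⟩
    exact absurd (hc 0 (Nat.zero_le l)) (Finset.notMem_empty _)
  · have main : ∀ n j, j + n = l → ∀ c, G j c → ∃ (φ : Φ) (A : ℕ → Finset ℕ),
        (∀ i, j < i → i ≤ l → A i ⊆ Finset.range (K i) ∧ (A i).card = r) ∧
        ∀ c', (∀ i ≤ j, c' i = c i) → (∀ i, j < i → i ≤ l → c' i ∈ A i) → Q c' φ := by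
      intro n
      induction n with
      | zero =>
        intro j hj c hc
        have hjl : j = l := by omega
        subst hjl
        obtain ⟨φ, hφ⟩ := hfull c hc
        refine ⟨φ, fun _ => ∅, fun i h1 h2 => by omega, fun c' hc' _ => ?_⟩
        exact (hQ c' c φ hc').2 hφ
      | succ n ih =>
        intro j hj c hc
        obtain ⟨φ, A, h1, h2, h3⟩ := B09_down l K r' r hrpos hr Q (j + 1) (by omega)
          ((Finset.range (K (j + 1))).filter (fun x => G (j + 1) (Function.update c (j + 1) x)))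
          (Finset.filter_subset _ _) (hstep j c (by omega) hc) (fun x => Function.update c (j + 1) x)
          (fun x hx => ih (j + 1) (by omega) _ (Finset.mem_filter.1 hx).2)
        refine ⟨φ, A, fun i hi1 hi2 => h1 i (by omega) hi2, fun c' hc1 hc2 => ?_⟩
        apply h3 c' (hc2 (j + 1) (by omega) (by omega))
        · intro i hi
          by_cases hij : i = j + 1
          · subst hij; simp
          · rw [Function.update_of_ne hij]
            exact hc1 i (by omega)
        · intro i hi1 hi2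
          exact hc2 i (by omega) hi2
    obtain ⟨φ, A, h1, h2, h3⟩ := B09_down l K r' r hrpos hr Q 0 (Nat.zero_le l)
      ((Finset.range (K 0)).filter (fun x => G 0 (fun _ => x))) (Finset.filter_subset _ _) hstart
      (fun x _ => x) (fun x hx => main l 0 (by omega) _ (Finset.mem_filter.1 hx).2)
    refine ⟨φ, A, fun j hj => h1 j (Nat.zero_le j) hj, fun c hc => ?_⟩
    apply h3 c (hc 0 (Nat.zero_le l))
    · intro i hi
      have : i = 0 := by omega
      rw [this]
    · intro i _ hi2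
      exact hc i hi2

/-- Choice of the parameters.

PROOF. Downward recursion: induction on `m` with the statement for the levels `j` with `l - m ≤ j ≤ l`; given `K i` for `i > j` put
`r' j = r * (F * 2 ^ (∑ i ∈ Ioc j l, K i))` and `K j = Ψ (r' j)` (changing `K`, `r'` only at `j`). Or define by strong recursion on `l - j`. -/
theorem exists_params (l r F : ℕ) (Ψ : ℕ → ℕ) : ∃ K r' : ℕ → ℕ, ∀ j ≤ l,
    r' j = r * (F * 2 ^ (∑ i ∈ Finset.Ioc j l, K i)) ∧ K j = Ψ (r' j) := by
  classical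
  have main : ∀ m, m ≤ l + 1 → ∃ K r' : ℕ → ℕ, ∀ j, l + 1 ≤ j + m → j ≤ l →
      r' j = r * (F * 2 ^ (∑ i ∈ Finset.Ioc j l, K i)) ∧ K j = Ψ (r' j) := by
    intro m
    induction m with
    | zero =>
      intro _
      exact ⟨fun _ => 0, fun _ => 0, fun j h1 h2 => by omega⟩
    | succ m ih =>
      intro hm
      obtain ⟨K, r', h⟩ := ih (by omega)
      obtain ⟨j₀, hj₀⟩ : ∃ j₀, j₀ + m = l := ⟨l - m, by omega⟩
      refine ⟨Function.update K j₀ (Ψ (r * (F * 2 ^ (∑ i ∈ Finset.Ioc j₀ l, K i)))),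
        Function.update r' j₀ (r * (F * 2 ^ (∑ i ∈ Finset.Ioc j₀ l, K i))), fun j h1 h2 => ?_⟩
      have hsum : ∀ j, j₀ ≤ j → ∑ i ∈ Finset.Ioc j l,
          Function.update K j₀ (Ψ (r * (F * 2 ^ (∑ i ∈ Finset.Ioc j₀ l, K i)))) i = ∑ i ∈ Finset.Ioc j l, K i := by
        intro j hj
        apply Finset.sum_congr rfl
        intro i hi
        rw [Finset.mem_Ioc] at hi
        exact Function.update_of_ne (by omega) _ _
      rw [hsum j (by omega)]
      by_cases hij : j = j₀
      · subst hij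
        simp
      · rw [Function.update_of_ne hij, Function.update_of_ne hij]
        exact h j (by omega) h2
  obtain ⟨K, r', h⟩ := main (l + 1) le_rfl
  exact ⟨K, r', fun j hj => h j (by omega) hj⟩

end LC
end

section

/-! TASK B10 of MP_6bc8af_co. -/

open Classical

namespace LC

private lemma B10_chain {n : ℕ} {L E : ℕ → ℕ} (h1 : ∀ i < n + 1, L i ≤ E i)
    (h2 : ∀ i, i + 1 < n + 1 → E i < L (i + 1)) : ∀ i, i + 1 < n + 1 → E 0 < L (i + 1) := by
  intro i
  induction i with
  | zero => exact fun h => h2 0 h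
  | succ i ih =>
    intro h
    have e1 := ih (by omega)
    have e2 := h1 (i + 1) (by omega)
    have e3 := h2 (i + 1) h
    omega

/-- Interval scheduling.

`[L j i, E j i]`, `i < n`, are increasing disjoint intervals for every `j ∈ J`, and `J` has at most `n` elements.
PROOF. Induction on `n` (for all `J`, `L`, `E`). If `J` is empty there is nothing to show. Otherwise `n = n' + 1`; let `j₀ ∈ J` have minimal
`E j 0`. Put `t j₀ = 0`. For `j ∈ J`, `j ≠ j₀`, `i ≥ 1`: `E j₀ 0 ≤ E j 0 < L j 1 ≤ L j i`. Apply the induction hypothesis to `J.erase j₀` and the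
intervals with indices `1, ..., n'` (`L j (i + 1)`, `E j (i + 1)`) and put `t j = t' j + 1`. -/
theorem schedule (n : ℕ) (J : Finset ℕ) (hJ : J.card ≤ n) (L E : ℕ → ℕ → ℕ) (h1 : ∀ j ∈ J, ∀ i < n, L j i ≤ E j i)
    (h2 : ∀ j ∈ J, ∀ i, i + 1 < n → E j i < L j (i + 1)) :
    ∃ t : ℕ → ℕ, (∀ j ∈ J, t j < n) ∧
      ∀ j ∈ J, ∀ j' ∈ J, j ≠ j' → E j (t j) < L j' (t j') ∨ E j' (t j') < L j (t j) := by
  induction n generalizing J L E with
  | zero =>
    have hJ0 : J = ∅ := Finset.card_eq_zero.1 (Nat.le_zero.1 hJ)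
    subst hJ0
    exact ⟨fun _ => 0, fun j hj => absurd hj (Finset.notMem_empty j),
      fun j hj => absurd hj (Finset.notMem_empty j)⟩
  | succ n ih =>
    rcases J.eq_empty_or_nonempty with rfl | hne
    · exact ⟨fun _ => 0, fun j hj => absurd hj (Finset.notMem_empty j),
        fun j hj => absurd hj (Finset.notMem_empty j)⟩
    obtain ⟨j₀, hj₀, hmin⟩ := Finset.exists_min_image J (fun j => E j 0) hne
    obtain ⟨t', ht', ht''⟩ := ih (J.erase j₀)
      (by rw [Finset.card_erase_of_mem hj₀]; omega) (fun j i => L j (i + 1)) (fun j i => E j (i + 1))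
      (fun j hj i hi => h1 j (Finset.mem_of_mem_erase hj) (i + 1) (by omega))
      (fun j hj i hi => h2 j (Finset.mem_of_mem_erase hj) (i + 1) (by omega))
    refine ⟨fun j => if j = j₀ then 0 else t' j + 1, fun j hj => ?_, fun j hj j' hj' hjj => ?_⟩
    · by_cases h : j = j₀
      · simp only [h, if_true]
        omega
      · simp only [h, if_false]
        have := ht' j (Finset.mem_erase.2 ⟨h, hj⟩)
        omega
    · by_cases h : j = j₀
      · have h' : j' ≠ j₀ := fun e => hjj (h.trans e.symm)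
        simp only [h, h', if_true, if_false]
        left
        have e1 := hmin j' hj'
        have e2 := B10_chain (h1 j' hj') (h2 j' hj') (t' j')
          (by have := ht' j' (Finset.mem_erase.2 ⟨h', hj'⟩); omega)
        omega
      · by_cases h' : j' = j₀
        · simp only [h, h', if_true, if_false]
          right
          have e1 := hmin j hj
          have e2 := B10_chain (h1 j hj) (h2 j hj) (t' j)
            (by have := ht' j (Finset.mem_erase.2 ⟨h, hj⟩); omega)
          omega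
        · simp only [h, h', if_false]
          exact ht'' j (Finset.mem_erase.2 ⟨h, hj⟩) j' (Finset.mem_erase.2 ⟨h', hj'⟩) hjj

/-- Enumeration of a finite set of `2 n` numbers. PROOF. `Finset.orderEmbOfFin`, extended by `0`. -/
theorem exists_sorted (n : ℕ) (A : Finset ℕ) (h : A.card = 2 * n) :
    ∃ γ : ℕ → ℕ, (∀ i < 2 * n, γ i ∈ A) ∧ ∀ i j, i < j → j < 2 * n → γ i < γ j := by
  refine ⟨fun i => if hi : i < 2 * n then A.orderEmbOfFin h ⟨i, hi⟩ else 0, fun i hi => ?_,
    fun i j hij hj => ?_⟩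
  · simp only [hi, dif_pos]
    exact Finset.orderEmbOfFin_mem A h _
  · have hi : i < 2 * n := hij.trans hj
    simp only [hi, hj, dif_pos]
    exact (A.orderEmbOfFin h).strictMono hij

end LC
end

section

/-! TASK B11 of MP_6bc8af_co. -/

open Classical

namespace LC

/-- Separated pairs of cells and the two walks for every choice of the cells.

PROOF. Let `φ = (α, q, f₀, w₀)`, `f' = bit f₀`, `w' = bit w₀` (absolute indices), `α + q ≤ l` and `2 ≤ q` (from `h` for any `c`; `A j` is nonempty for `j ≤ l`). For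
`j ≤ l` let `γ j` enumerate `A j` (`exists_sorted` with `n = l + 1`). Let `C j x = {v ∈ W | kap W (K j) v = x}`; for `α ≤ j ≤ α + q` and `x ∈ A j`,
`C j x` is nonempty (choose `c` with `c j = x`, `c i ∈ A i`; `Pair.mem`). Let `lo' j x`, `hi' j x` be the minimum and the maximum of `C j x` (`0` if empty). If `x < x'` in `A j`,
`hi' j x < lo' j x'` by monotonicity of `kap`. Apply `schedule` with `n = l + 1`, `J = Finset.Icc α (α + q)` (at most `l + 1` elements),
`L j i = lo' j (γ j (2 i))`, `E j i = hi' j (γ j (2 i + 1))`, and get `t`. Put (relative index `κ ≤ q`, `j = α + κ`)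
`lo κ false = lo' j (γ j (2 t j))`, `hi κ false = hi' j (γ j (2 t j))`, `lo κ true = lo' j (γ j (2 t j + 1))`, `hi κ true = hi' j (γ j (2 t j + 1))`,
`out κ = decide (Even (α + κ))`, `f κ = f' (α + κ)`, `w κ = w' (α + κ)`. `lohi`, `hull` hold. For `u` take `c` with
`c (α + κ) = γ (α + κ) (2 t (α + κ) + (if u κ then 1 else 0))` for `κ ≤ q` and `c j = γ j 0` otherwise; by `h` there is a `Pair` `v`; the walks
`fun i κ => v i (α + κ)` satisfy `Walks` (for `cell`: `v i (α + κ)` is in `C`, so between minimum and maximum; `α + (κ - 1) = α + κ - 1` for `κ > 0`). -/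
theorem walks_of_box {H : ℕ → ℕ → Prop} {side : ℕ → Bool} {om : ℕ → ℕ → ℕ → Bool} {W : Finset ℕ} {l : ℕ}
    {K : ℕ → ℕ} {A : ℕ → Finset ℕ} {φ : Ty l} (hA : ∀ j ≤ l, (A j).card = 2 * (l + 1))
    (h : ∀ c : ℕ → ℕ, (∀ j ≤ l, c j ∈ A j) → Gd H side om W l K c φ) :
    ∃ (q : ℕ) (out f w : ℕ → Bool) (lo hi : ℕ → Bool → ℕ), 2 ≤ q ∧ (∀ k < q, out (k + 1) = !out k) ∧
      (∀ κ ≤ q, lo κ false ≤ hi κ false ∧ hi κ false < lo κ true ∧ lo κ true ≤ hi κ true) ∧
      (∀ κ ≤ q, ∀ κ' ≤ q, κ ≠ κ' → hi κ true < lo κ' false ∨ hi κ' true < lo κ false) ∧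
      ∀ u : ℕ → Bool, ∃ v, Walks H side om q out f w lo hi u v := by
  have hγ' : ∀ j, ∃ γ : ℕ → ℕ, j ≤ l → (∀ i < 2 * (l + 1), γ i ∈ A j) ∧
      ∀ i i', i < i' → i' < 2 * (l + 1) → γ i < γ i' := by
    intro j
    by_cases hj : j ≤ l
    · obtain ⟨γ, h1, h2⟩ := exists_sorted (l + 1) (A j) (hA j hj)
      exact ⟨γ, fun _ => ⟨h1, h2⟩⟩
    · exact ⟨fun _ => 0, fun hj' => absurd hj' hj⟩
  choose γ hγ using hγ'
  have hγmem : ∀ j ≤ l, ∀ i < 2 * (l + 1), γ j i ∈ A j := fun j hj => (hγ j hj).1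
  have hγlt : ∀ j ≤ l, ∀ i i', i < i' → i' < 2 * (l + 1) → γ j i < γ j i' := fun j hj => (hγ j hj).2
  set α : ℕ := φ.1.val with hα
  set q : ℕ := φ.2.1.val with hq
  obtain ⟨hαq, v₀, hv₀⟩ := h (fun j => γ j 0) (fun j hj => hγmem j hj 0 (by omega))
  have hq2 : 2 ≤ q := hv₀.two
  rw [← hα, ← hq] at hαq
  set C : ℕ → ℕ → Finset ℕ := fun j x => W.filter (fun v => kap W (K j) v = x) with hC
  have hCne : ∀ j, α ≤ j → j ≤ α + q → ∀ x ∈ A j, (C j x).Nonempty := by
    intro j hj1 hj2 x hx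
    obtain ⟨-, v, hv⟩ := h (fun i => if i = j then x else γ i 0) (by
      intro i hi
      by_cases hij : i = j
      · subst hij
        simpa using hx
      · simp only [hij, if_false]
        exact hγmem i hi 0 (by omega))
    have h1 := hv.mem false j hj1 hj2
    refine ⟨v false j, Finset.mem_filter.2 ⟨h1.1, ?_⟩⟩
    rw [h1.2.1]
    simp
  set lo' : ℕ → ℕ → ℕ := fun j x => sInf (C j x : Set ℕ) with hlo'
  set hi' : ℕ → ℕ → ℕ := fun j x => (C j x).sup id with hhi'
  have hlo1 : ∀ j x, ∀ v ∈ C j x, lo' j x ≤ v := fun j x v hv => Nat.sInf_le (Finset.mem_coe.2 hv)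
  have hhi1 : ∀ j x, ∀ v ∈ C j x, v ≤ hi' j x := fun j x v hv => Finset.le_sup (f := id) hv
  have hlo2 : ∀ j x, (C j x).Nonempty → lo' j x ∈ C j x := fun j x hx =>
    Finset.mem_coe.1 (Nat.sInf_mem hx)
  have hhi2 : ∀ j x, (C j x).Nonempty → hi' j x ∈ C j x := by
    intro j x hx
    obtain ⟨v, hv, he⟩ := Finset.exists_mem_eq_sup (C j x) hx id
    have : hi' j x = v := he
    rw [this]
    exact hv
  have hle : ∀ j, α ≤ j → j ≤ α + q → ∀ x ∈ A j, lo' j x ≤ hi' j x := fun j h1 h2 x hx =>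
    hlo1 j x _ (hhi2 j x (hCne j h1 h2 x hx))
  have hlt : ∀ j, α ≤ j → j ≤ α + q → ∀ x ∈ A j, ∀ x' ∈ A j, x < x' → hi' j x < lo' j x' := by
    intro j h1 h2 x hx x' hx' hxx
    by_contra hcon
    have h3 := (Finset.mem_filter.1 (hhi2 j x (hCne j h1 h2 x hx))).2
    have h4 := (Finset.mem_filter.1 (hlo2 j x' (hCne j h1 h2 x' hx'))).2
    have h5 := kap_mono W (K j) (not_lt.1 hcon)
    rw [h3, h4] at h5
    omega
  obtain ⟨t, ht1, ht2⟩ := schedule (l + 1) (Finset.Icc α (α + q))
    (by rw [Nat.card_Icc]; omega)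
    (fun j i => lo' j (γ j (2 * i))) (fun j i => hi' j (γ j (2 * i + 1)))
    (by
      intro j hj i hi
      obtain ⟨h1, h2⟩ := Finset.mem_Icc.1 hj
      have hjl : j ≤ l := h2.trans hαq
      have m0 := hγmem j hjl (2 * i) (by omega)
      have m1 := hγmem j hjl (2 * i + 1) (by omega)
      have e1 := hle j h1 h2 _ m0
      have e2 := hlt j h1 h2 _ m0 _ m1 (hγlt j hjl _ _ (by omega) (by omega))
      have e3 := hle j h1 h2 _ m1
      exact e1.trans (e2.le.trans e3))
    (by
      intro j hj i hi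
      obtain ⟨h1, h2⟩ := Finset.mem_Icc.1 hj
      have hjl : j ≤ l := h2.trans hαq
      exact hlt j h1 h2 _ (hγmem j hjl (2 * i + 1) (by omega)) _
        (hγmem j hjl (2 * (i + 1)) (by omega)) (hγlt j hjl _ _ (by omega) (by omega)))
  have hJ : ∀ κ ≤ q, α + κ ∈ Finset.Icc α (α + q) := fun κ hκ =>
    Finset.mem_Icc.2 ⟨by omega, by omega⟩
  refine ⟨q, fun κ => decide (Even (α + κ)), fun κ => bit φ.2.2.1 (α + κ),
    fun κ => bit φ.2.2.2 (α + κ),
    fun κ b => lo' (α + κ) (γ (α + κ) (2 * t (α + κ) + if b then 1 else 0)),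
    fun κ b => hi' (α + κ) (γ (α + κ) (2 * t (α + κ) + if b then 1 else 0)), hq2, ?_, ?_, ?_, ?_⟩
  · intro k _
    have e1 : Even (α + (k + 1)) ↔ ¬ Even (α + k) := by
      rw [← add_assoc]
      exact Nat.even_add_one
    by_cases hk : Even (α + k)
    · have hk' : ¬ Even (α + (k + 1)) := fun h' => (e1.1 h') hk
      simp only [hk, hk', decide_true, decide_false, Bool.not_true]
    · have hk' : Even (α + (k + 1)) := e1.2 hk
      simp only [hk, hk', decide_true, decide_false, Bool.not_false]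
  · intro κ hκ
    have hjl : α + κ ≤ l := by omega
    have htl := ht1 (α + κ) (hJ κ hκ)
    have m0 := hγmem (α + κ) hjl (2 * t (α + κ)) (by omega)
    have m1 := hγmem (α + κ) hjl (2 * t (α + κ) + 1) (by omega)
    have e1 := hle (α + κ) (by omega) (by omega) _ m0
    have e2 := hlt (α + κ) (by omega) (by omega) _ m0 _ m1 (hγlt _ hjl _ _ (by omega) (by omega))
    have e3 := hle (α + κ) (by omega) (by omega) _ m1
    simpa using ⟨e1, e2, e3⟩
  · intro κ hκ κ' hκ' hne
    have := ht2 (α + κ) (hJ κ hκ) (α + κ') (hJ κ' hκ') (by omega)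
    simpa using this
  · intro u
    obtain ⟨-, v, hv⟩ := h (fun i => if α ≤ i ∧ i ≤ α + q then
        γ i (2 * t i + if u (i - α) then 1 else 0) else γ i 0) (by
      intro i hi
      by_cases hi' : α ≤ i ∧ i ≤ α + q
      · simp only [hi', and_self, if_true]
        have htl := ht1 i (Finset.mem_Icc.2 hi')
        refine hγmem i hi _ ?_
        split_ifs <;> omega
      · simp only [hi', if_false]
        exact hγmem i hi 0 (by omega))
    rw [← hα, ← hq] at hv
    refine ⟨fun i κ => v i (α + κ), ?_⟩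
    constructor
    · intro i κ hκ
      have := hv.adj i (α + κ) (by omega) (by omega)
      rwa [add_assoc] at this
    · intro i κ hκ
      exact (hv.mem i (α + κ) (by omega) (by omega)).2.2
    · exact hv.zero
    · exact hv.last
    · intro i κ hκ
      have h1 := hv.mem i (α + κ) (by omega) (by omega)
      have h2 : v i (α + κ) ∈ C (α + κ) (γ (α + κ) (2 * t (α + κ) + if u κ then 1 else 0)) := by
        refine Finset.mem_filter.2 ⟨h1.1, ?_⟩
        rw [h1.2.1]
        have h3 : α ≤ α + κ ∧ α + κ ≤ α + q := ⟨by omega, by omega⟩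
        have h4 : α + κ - α = κ := by omega
        simp only [h3, and_self, if_true, h4]
      exact ⟨hlo1 _ _ _ h2, hhi1 _ _ _ h2⟩
    · intro κ h1 h2
      exact hv.ord (α + κ) (by omega) (by omega)
    · intro i κ h1 h2
      have h3 := hv.hom i (α + κ) (by omega) (by omega)
      have h4 : α + κ - 1 = α + (κ - 1) := by omega
      rw [h4, add_assoc] at h3
      exact h3
    · exact hv.om0
    · have h3 := hv.omq
      have h4 : α + q - 1 = α + (q - 1) := by omega
      rw [h4] at h3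
      exact h3

end LC
end

section

/-! MP_6bc8af_co: strips. A strip has the layers `0, ..., q` and the points `(i, k)`, `i : Bool`, `k < q`; the point
`(i, k)` lies between the layers `k` and `k + 1`. Outer and inner layers alternate (`out`). At an inner layer `κ`
with `0 < κ < q` the points `(i, κ - 1)`, `(i, κ)` are joined; at the end layers `0` and `q` the two points are joined if the layer
is inner. At an outer layer `κ`, `0 < κ < q`, the four points are in the order
`(f, κ - 1), (f, κ), (!f, κ - 1), (!f, κ)` if `w κ`, and `(f, κ), (f, κ - 1), (!f, κ), (!f, κ - 1)` if not `w κ`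
(`f = f κ`); the two middle ones are joined, the first one is the left end `eL κ`, the last one is the right end `eR κ`. At an outer end
layer the order is `(f, .), (!f, .)`, these are the left end and the right end. -/

namespace LC

/-- the partner at the inner layer -/
def SA (q : ℕ) (out : ℕ → Bool) (z : Bool × ℕ) : Bool × ℕ :=
  if out z.2 then (if z.2 + 1 = q then (!z.1, z.2) else (z.1, z.2 + 1))
  else (if z.2 = 0 then (!z.1, z.2) else (z.1, z.2 - 1))

/-- the partner at the outer layer, or the point itself if it is an end -/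
def SB (q : ℕ) (out f w : ℕ → Bool) (z : Bool × ℕ) : Bool × ℕ :=
  if out z.2 then
    (if z.2 = 0 then z else if (z.1 == f z.2) = w z.2 then (!z.1, z.2 - 1) else z)
  else
    (if z.2 + 1 = q then z else if (z.1 == f (z.2 + 1)) = w (z.2 + 1) then z else (!z.1, z.2 + 1))

/-- the left end of the outer layer `κ` -/
def eL (q : ℕ) (f w : ℕ → Bool) (κ : ℕ) : Bool × ℕ :=
  (f κ, if κ = 0 then 0 else if κ = q then q - 1 else if w κ then κ - 1 else κ)

/-- the right end of the outer layer `κ` -/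
def eR (q : ℕ) (f w : ℕ → Bool) (κ : ℕ) : Bool × ℕ :=
  (!f κ, if κ = 0 then 0 else if κ = q then q - 1 else if w κ then κ else κ - 1)

/-- `wd 0, ..., wd (n - 1)` enumerates the outer layers -/
structure Enum (q n : ℕ) (out : ℕ → Bool) (wd : ℕ → ℕ) : Prop where
  pos : 0 < n
  le : ∀ j < n, wd j ≤ q
  outer : ∀ j < n, out (wd j) = true
  inj : ∀ i < n, ∀ j < n, wd i = wd j → i = j
  surj : ∀ κ ≤ q, out κ = true → ∃ j < n, wd j = κ

/-- the signs `s` (indexed by layers) connect the two copies -/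
def Shuf (q n : ℕ) (out f w : ℕ → Bool) (wd : ℕ → ℕ) (s : ℕ → Bool) : Prop :=
  ∀ S : Set ((Bool × ℕ) × Bool), (∃ i k b, k < q ∧ ((i, k), b) ∈ S) →
    (∀ z : Bool × ℕ, z.2 < q → ∀ b, ((z, b) ∈ S ↔ (SA q out z, b) ∈ S)) →
    (∀ z : Bool × ℕ, z.2 < q → ∀ b, ((z, b) ∈ S ↔ (SB q out f w z, b) ∈ S)) →
    (∀ j < n, ((eR q f w (wd j), s (wd j)) ∈ S ↔ (eL q f w (wd j), !s (wd j)) ∈ S)) →
    (∀ j, j + 1 < n → ((eR q f w (wd j), !s (wd j)) ∈ S ↔ (eL q f w (wd (j + 1)), s (wd (j + 1))) ∈ S)) →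
    ((eR q f w (wd (n - 1)), !s (wd (n - 1))) ∈ S ↔ (eL q f w (wd 0), s (wd 0)) ∈ S) →
    ∀ i k b, k < q → ((i, k), b) ∈ S

end LC
end

section

/-! MP_6bc8af_co: double strips inside a set of paths with two linear orders. -/

open Classical

namespace LC

/-- position at the layer `κ`: the first order for outer layers, the second order for inner layers -/
def lx {P : Type} (out : ℕ → Bool) (x y : P → ℕ) (κ : ℕ) (p : P) : ℕ := if out κ then x p else y p

/-- segment at the layer `κ` -/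
def ls {P : Type} (out : ℕ → Bool) (x y : P → ℕ) (a b : ℕ → ℕ) (κ : ℕ) (p : P) : ℕ :=
  if out κ then a (x p) else b (y p)

/-- A double strip: `e c i k` (`c` the copy, `(i, k)` the point of the strip, `k < q`). The cell of copy `c` at the layer `κ`
is `[lo κ u, hi κ u]` with `u = (c != s κ)`; the lower cell has `u = false`. -/
structure Dbl {P : Type} (x y : P → ℕ) (a b : ℕ → ℕ) (q : ℕ) (out f w s : ℕ → Bool)
    (lo hi : ℕ → Bool → ℕ) (e : Bool → Bool → ℕ → P) : Prop where
  hq : 2 ≤ q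
  alt : ∀ k < q, out (k + 1) = !out k
  xinj : Function.Injective x
  yinj : Function.Injective y
  amono : Monotone a
  bmono : Monotone b
  seg : ∀ c i κ, 0 < κ → κ < q → ls out x y a b κ (e c i (κ - 1)) = ls out x y a b κ (e c i κ)
  seg0 : ∀ c, ls out x y a b 0 (e c false 0) = ls out x y a b 0 (e c true 0)
  segq : ∀ c, ls out x y a b q (e c false (q - 1)) = ls out x y a b q (e c true (q - 1))
  hw : ∀ c i κ, 0 < κ → κ < q → (w κ = true ↔ lx out x y κ (e c i (κ - 1)) < lx out x y κ (e c i κ))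
  hf : ∀ c κ, 0 < κ → κ < q → ls out x y a b κ (e c (f κ) κ) < ls out x y a b κ (e c (!f κ) κ)
  hf0 : ∀ c, lx out x y 0 (e c (f 0) 0) < lx out x y 0 (e c (!f 0) 0)
  hfq : ∀ c, lx out x y q (e c (f q) (q - 1)) < lx out x y q (e c (!f q) (q - 1))
  cell : ∀ c i κ k, k < q → (k = κ ∨ k + 1 = κ) →
    lo κ (c != s κ) ≤ ls out x y a b κ (e c i k) ∧ ls out x y a b κ (e c i k) ≤ hi κ (c != s κ)
  lohi : ∀ κ ≤ q, lo κ false ≤ hi κ false ∧ hi κ false < lo κ true ∧ lo κ true ≤ hi κ true
  hull : ∀ κ ≤ q, ∀ κ' ≤ q, κ ≠ κ' → hi κ true < lo κ' false ∨ hi κ' true < lo κ false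

/-- a single strip: `e i k`, with the cells chosen by `u` -/
structure Strip {P : Type} (x y : P → ℕ) (a b : ℕ → ℕ) (q : ℕ) (out f w : ℕ → Bool)
    (lo hi : ℕ → Bool → ℕ) (u : ℕ → Bool) (e : Bool → ℕ → P) : Prop where
  seg : ∀ i κ, 0 < κ → κ < q → ls out x y a b κ (e i (κ - 1)) = ls out x y a b κ (e i κ)
  seg0 : ls out x y a b 0 (e false 0) = ls out x y a b 0 (e true 0)
  segq : ls out x y a b q (e false (q - 1)) = ls out x y a b q (e true (q - 1))
  hw : ∀ i κ, 0 < κ → κ < q → (w κ = true ↔ lx out x y κ (e i (κ - 1)) < lx out x y κ (e i κ))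
  hf : ∀ κ, 0 < κ → κ < q → ls out x y a b κ (e (f κ) κ) < ls out x y a b κ (e (!f κ) κ)
  hf0 : lx out x y 0 (e (f 0) 0) < lx out x y 0 (e (!f 0) 0)
  hfq : lx out x y q (e (f q) (q - 1)) < lx out x y q (e (!f q) (q - 1))
  cell : ∀ i κ k, k < q → (k = κ ∨ k + 1 = κ) →
    lo κ (u κ) ≤ ls out x y a b κ (e i k) ∧ ls out x y a b κ (e i k) ≤ hi κ (u κ)

/-- the set of all points of a double strip -/
noncomputable def TT {P : Type} (q : ℕ) (e : Bool → Bool → ℕ → P) : Finset P :=
  ((Finset.univ ×ˢ Finset.univ) ×ˢ Finset.range q).image (fun z : (Bool × Bool) × ℕ => e z.1.1 z.1.2 z.2)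

/-- the copy `c` of the point `z` -/
def ee {P : Type} (e : Bool → Bool → ℕ → P) (c : Bool) (z : Bool × ℕ) : P := e c z.1 z.2

theorem mem_TT {P : Type} {q : ℕ} {e : Bool → Bool → ℕ → P} {p : P} :
    p ∈ TT q e ↔ ∃ c i k, k < q ∧ p = e c i k := by
  simp only [TT, Finset.mem_image, Finset.mem_product, Finset.mem_univ, Finset.mem_range, true_and]
  constructor
  · rintro ⟨⟨⟨c, i⟩, k⟩, hk, rfl⟩
    exact ⟨c, i, k, hk, rfl⟩
  · rintro ⟨c, i, k, hk, rfl⟩
    exact ⟨((c, i), k), hk, rfl⟩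

/-- the double strip with the two orders exchanged -/
theorem Dbl.swap {P : Type} {x y : P → ℕ} {a b : ℕ → ℕ} {q : ℕ} {out f w s : ℕ → Bool}
    {lo hi : ℕ → Bool → ℕ} {e : Bool → Bool → ℕ → P} (h : Dbl x y a b q out f w s lo hi e) :
    Dbl y x b a q (fun κ => !out κ) f w s lo hi e := by
  have e1 : ∀ κ p, lx (fun κ => !out κ) y x κ p = lx out x y κ p := by
    intro κ p
    unfold lx
    cases hh : out κ <;> simp [hh]
  have e2 : ∀ κ p, ls (fun κ => !out κ) y x b a κ p = ls out x y a b κ p := by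
    intro κ p
    unfold ls
    cases hh : out κ <;> simp [hh]
  constructor
  · exact h.hq
  · intro k hk
    simp [h.alt k hk]
  · exact h.yinj
  · exact h.xinj
  · exact h.bmono
  · exact h.amono
  · intro c i κ h1 h2
    rw [e2, e2]
    exact h.seg c i κ h1 h2
  · intro c
    rw [e2, e2]
    exact h.seg0 c
  · intro c
    rw [e2, e2]
    exact h.segq c
  · intro c i κ h1 h2
    rw [e1, e1]
    exact h.hw c i κ h1 h2
  · intro c κ h1 h2
    rw [e2, e2]
    exact h.hf c κ h1 h2
  · intro c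
    rw [e1, e1]
    exact h.hf0 c
  · intro c
    rw [e1, e1]
    exact h.hfq c
  · intro c i κ k h1 h2
    rw [e2]
    exact h.cell c i κ k h1 h2
  · exact h.lohi
  · exact h.hull

end LC
end
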