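import Pool.Agent.Lib.MP_6bc8af_co.Mg.G018
import Pool.Agent.Lib.MP_6bc8af_co.Mg.G016
import Pool.Agent.Lib.MP_6bc8af_co.Mg.G021

section

/-! TASK B02 of MP_6bc8af_co. -/

open Classical

namespace LC

/-- A subset of given size with at least the average sum.

PROOF. Induction on `W.card - m`: if `m = W.card` take `W`. Otherwise remove from `W` an element `v` with `g v` minimal: then
`∑ (W \ {v}) g ≥ (1 - 1 / W.card) ∑ W g`, i.e. `(W.card - 1) * ∑ W g ≤ W.card * ∑ (W \ {v}) g`, and apply the induction hypothesis to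
`W \ {v}` (multiply the inequalities; if `W.card - 1 = 0` then `m = 0`, take `∅`). Another way: average over all subsets of size `m`, or induction
on `m`. -/
theorem exists_subset_sum (W : Finset ℕ) (g : ℕ → ℝ) (hg : ∀ v, 0 ≤ g v) (m : ℕ) (hm : m ≤ W.card) :
    ∃ R ⊆ W, R.card = m ∧ (m : ℝ) * ∑ v ∈ W, g v ≤ (W.card : ℝ) * ∑ v ∈ R, g v := by
  have key : ∀ (d : ℕ) (W : Finset ℕ), W.card = m + d →
      ∃ R ⊆ W, R.card = m ∧ (m : ℝ) * ∑ v ∈ W, g v ≤ (W.card : ℝ) * ∑ v ∈ R, g v := by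
    intro d
    induction d with
    | zero =>
      intro W hW
      exact ⟨W, Finset.Subset.refl _, by omega, by rw [hW]; simp⟩
    | succ d ih =>
      intro W hW
      have hne : W.Nonempty := Finset.card_pos.mp (by omega)
      obtain ⟨v, hv, hmin⟩ := Finset.exists_min_image W g hne
      have hcard : (W.erase v).card = m + d := by
        rw [Finset.card_erase_of_mem hv]
        omega
      obtain ⟨R, hR, hRc, hRs⟩ := ih (W.erase v) hcard
      refine ⟨R, hR.trans (Finset.erase_subset _ _), hRc, ?_⟩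
      have h1 : (W.card : ℝ) * g v ≤ ∑ u ∈ W, g u := by
        have := Finset.card_nsmul_le_sum W g (g v) hmin
        rwa [nsmul_eq_mul] at this
      have h2 : ∑ u ∈ W.erase v, g u + g v = ∑ u ∈ W, g u := Finset.sum_erase_add W g hv
      have h3 : 0 ≤ ∑ u ∈ R, g u := Finset.sum_nonneg (fun u _ => hg u)
      rw [hcard] at hRs
      rw [hW] at h1 ⊢
      push_cast at h1 hRs ⊢
      rcases Nat.eq_zero_or_pos (m + d) with h0 | h0
      · have hm0 : m = 0 := by omega
        subst hm0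
        simp only [Nat.cast_zero, zero_mul]
        positivity
      · have h4 : (0 : ℝ) < (m : ℝ) + d := by exact_mod_cast h0
        have hm : (0 : ℝ) ≤ m := Nat.cast_nonneg m
        rw [← h2] at h1 ⊢
        have h5 : ((m : ℝ) + d) * g v ≤ ∑ u ∈ W.erase v, g u := by linarith
        have h6 : ((m : ℝ) + d) * ((m : ℝ) * (∑ u ∈ W.erase v, g u + g v)) ≤
            ((m : ℝ) + d) * (((m : ℝ) + (d + 1)) * ∑ u ∈ R, g u) := by
          have h7 := mul_le_mul_of_nonneg_left h5 hm
          have h8 := mul_le_mul_of_nonneg_left hRs (by positivity : (0 : ℝ) ≤ (m : ℝ) + (d + 1))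
          nlinarith [h7, h8]
        exact le_of_mul_le_mul_left h6 h4
  exact key (W.card - m) W (by omega)

private theorem B02_eo (H : ℕ → ℕ → Prop) (A B : Finset ℕ) :
    (eo H A B : ℝ) = ∑ v ∈ B, ((A.filter (fun u => H u v)).card : ℝ) := by
  have : eo H A B = ∑ v ∈ B, (A.filter (fun u => H u v)).card := by
    unfold eo
    rw [Finset.card_filter, Finset.sum_product_right]
    apply Finset.sum_congr rfl
    intro v _
    rw [Finset.card_filter]
  rw [this]
  push_cast
  rfl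

/-- Small sets are incident with few edges.

PROOF. Choose a natural number `K ≥ 1` with `3 ^ (1 + ε) * K ^ (-ε) ≤ η` (possible as `K ^ (-ε) → 0`). Let `N = W.card ≥ K`,
`m = N / K + 1 ≤ N + 1`... : take `m = ⌈N / K⌉₊ ≤ N`, so `N / K ≤ m ≤ N / K + 1 ≤ 2 N / K` (reals). By `exists_subset_sum` for
`g v = card {u ∈ W' | H u v}` there is `R ⊆ W` with `R.card = m` and `m * eo H W' W ≤ N * eo H W' R` (`∑ v ∈ R, g v = eo H W' R`). Now
`eo H W' R ≤ eo H (W' ∪ R) (W' ∪ R) ≤ D * (W'.card + m) ^ (1 + ε) ≤ D * (3 N / K) ^ (1 + ε)`, so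
`eo H W' W ≤ (N / m) * D * (3 N / K) ^ (1 + ε) ≤ K * D * (3 N / K) ^ (1 + ε) = 3 ^ (1 + ε) * K ^ (-ε) * (D * N ^ (1 + ε)) ≤ η * eo H W W`. -/
theorem sparse_small {ε η : ℝ} (hε : 0 < ε) (hη : 0 < η) : ∃ K : ℕ, 0 < K ∧
    ∀ (H : ℕ → ℕ → Prop) (D : ℝ) (W : Finset ℕ), Dense H ε D W → K ≤ W.card →
    ∀ W' ⊆ W, K * W'.card ≤ W.card → (eo H W' W : ℝ) ≤ η * (eo H W W : ℝ) := by
  have hC : (0 : ℝ) < (3 : ℝ) ^ (1 + ε) := by positivity
  have ht : (0 : ℝ) ≤ (3 : ℝ) ^ (1 + ε) / η := by positivity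
  refine ⟨⌈((3 : ℝ) ^ (1 + ε) / η) ^ (1 / ε)⌉₊ + 1, Nat.succ_pos _, ?_⟩
  generalize hKdef : ⌈((3 : ℝ) ^ (1 + ε) / η) ^ (1 / ε)⌉₊ + 1 = K
  have hK0 : (0 : ℝ) < K := by rw [← hKdef]; positivity
  have hKt : ((3 : ℝ) ^ (1 + ε) / η) ^ (1 / ε) ≤ K := by
    rw [← hKdef]
    push_cast
    have := Nat.le_ceil (((3 : ℝ) ^ (1 + ε) / η) ^ (1 / ε))
    linarith
  have hKε : (3 : ℝ) ^ (1 + ε) ≤ η * (K : ℝ) ^ ε := by
    have h1 := Real.rpow_le_rpow (by positivity) hKt hε.le
    rw [← Real.rpow_mul ht, one_div_mul_cancel hε.ne', Real.rpow_one, div_le_iff₀ hη] at h1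
    linarith
  intro H D W hD hKW W' hW' hKW'
  have hN : (0 : ℝ) < W.card := by exact_mod_cast Finset.card_pos.mpr hD.ne
  have hKN : (K : ℝ) ≤ W.card := by exact_mod_cast hKW
  have hKW'2 : (K : ℝ) * W'.card ≤ W.card := by exact_mod_cast hKW'
  have hK1 : (1 : ℝ) ≤ K := by
    rw [← hKdef]
    push_cast
    have : (0 : ℝ) ≤ (⌈((3 : ℝ) ^ (1 + ε) / η) ^ (1 / ε)⌉₊ : ℝ) := Nat.cast_nonneg _
    linarith
  have hNK : (1 : ℝ) ≤ W.card / K := by rwa [one_le_div₀ hK0]
  obtain ⟨R, hR, hRc, hRs⟩ := exists_subset_sum W (fun v => ((W'.filter (fun u => H u v)).card : ℝ))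
    (fun v => Nat.cast_nonneg _) ⌈(W.card : ℝ) / K⌉₊ (by
      apply Nat.ceil_le.mpr
      rw [div_le_iff₀ hK0]
      nlinarith)
  rw [← B02_eo, ← B02_eo] at hRs
  have hm1 : (W.card : ℝ) / K ≤ (⌈(W.card : ℝ) / K⌉₊ : ℝ) := Nat.le_ceil _
  have hm2 : (⌈(W.card : ℝ) / K⌉₊ : ℝ) < W.card / K + 1 := Nat.ceil_lt_add_one (by positivity)
  have h1 : (eo H W' R : ℝ) ≤ D * (3 * (W.card / K)) ^ (1 + ε) := by
    have a1 : (eo H W' R : ℝ) ≤ (eo H (W' ∪ R) (W' ∪ R) : ℝ) := by
      exact_mod_cast eo_mono Finset.subset_union_left Finset.subset_union_right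
    have a2 := hD.loc (W' ∪ R) (Finset.union_subset hW' hR)
    have a3 : ((W' ∪ R).card : ℝ) ≤ 3 * (W.card / K) := by
      have b1 : ((W' ∪ R).card : ℝ) ≤ W'.card + R.card := by
        exact_mod_cast Finset.card_union_le _ _
      have b2 : (W'.card : ℝ) ≤ W.card / K := by
        rw [le_div_iff₀ hK0]
        linarith
      rw [hRc] at b1
      linarith
    have a4 := Real.rpow_le_rpow (Nat.cast_nonneg _) a3 (by linarith : (0 : ℝ) ≤ 1 + ε)
    have a5 := mul_le_mul_of_nonneg_left a4 hD.pos.le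
    linarith
  have h2 : (W.card : ℝ) / K * eo H W' W ≤ W.card * (D * (3 * (W.card / K)) ^ (1 + ε)) := by
    calc (W.card : ℝ) / K * eo H W' W ≤ (⌈(W.card : ℝ) / K⌉₊ : ℝ) * eo H W' W :=
          mul_le_mul_of_nonneg_right hm1 (Nat.cast_nonneg _)
      _ ≤ W.card * (eo H W' R : ℝ) := hRs
      _ ≤ _ := mul_le_mul_of_nonneg_left h1 hN.le
  have h3 : (3 * ((W.card : ℝ) / K)) ^ (1 + ε) =
      (3 : ℝ) ^ (1 + ε) * ((W.card : ℝ) ^ (1 + ε) / (K * (K : ℝ) ^ ε)) := by
    rw [Real.mul_rpow (by norm_num) (by positivity), Real.div_rpow hN.le hK0.le]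
    congr 2
    rw [Real.rpow_add hK0, Real.rpow_one]
  have hKe : (0 : ℝ) < (K : ℝ) ^ ε := by positivity
  have hNe : (0 : ℝ) < (W.card : ℝ) ^ (1 + ε) := by positivity
  have h4 : (eo H W' W : ℝ) ≤ K * (D * (3 * (W.card / K)) ^ (1 + ε)) := by
    have e1 : (W.card : ℝ) / K * eo H W' W = W.card * (eo H W' W / K) := by ring
    rw [e1] at h2
    have h5 := le_of_mul_le_mul_left h2 hN
    rw [div_le_iff₀ hK0] at h5
    linarith
  rw [h3] at h4
  rw [hD.tot]
  refine h4.trans ?_
  have e2 : (K : ℝ) * (D * ((3 : ℝ) ^ (1 + ε) * ((W.card : ℝ) ^ (1 + ε) / (K * (K : ℝ) ^ ε)))) =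
      (3 : ℝ) ^ (1 + ε) * (D * (W.card : ℝ) ^ (1 + ε)) / (K : ℝ) ^ ε := by
    field_simp
  rw [e2, div_le_iff₀ hKe]
  have h6 : 0 < D * (W.card : ℝ) ^ (1 + ε) := mul_pos hD.pos hNe
  nlinarith [mul_le_mul_of_nonneg_right hKε h6.le]

end LC
end

section

/-! TASK B04 of MP_6bc8af_co. -/

open Classical

namespace LC

private theorem B04_const {ε η : ℝ} (hε : 0 < ε) (hη : 0 < η) :
    ∃ K₂ : ℕ, 0 < K₂ ∧ 2 * ((2 : ℝ) / K₂) ^ ε ≤ η / 2 := by
  have ht : (0 : ℝ) ≤ 4 / η := by positivity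
  refine ⟨⌈2 * ((4 : ℝ) / η) ^ (1 / ε)⌉₊ + 1, Nat.succ_pos _, ?_⟩
  generalize hKdef : ⌈2 * ((4 : ℝ) / η) ^ (1 / ε)⌉₊ + 1 = K
  have hK0 : (0 : ℝ) < K := by rw [← hKdef]; positivity
  have hKt : 2 * ((4 : ℝ) / η) ^ (1 / ε) ≤ K := by
    rw [← hKdef]
    push_cast
    have := Nat.le_ceil (2 * ((4 : ℝ) / η) ^ (1 / ε))
    linarith
  have h1 : ((4 : ℝ) / η) ^ (1 / ε) ≤ K / 2 := by linarith
  have h2 := Real.rpow_le_rpow (by positivity) h1 hε.le
  rw [← Real.rpow_mul ht, one_div_mul_cancel hε.ne', Real.rpow_one] at h2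
  have h3 : ((2 : ℝ) / K) ^ ε = (((K : ℝ) / 2) ^ ε)⁻¹ := by
    rw [← Real.inv_rpow (by positivity), inv_div]
  have h4 : (0 : ℝ) < 4 / η := by positivity
  have h5 : (0 : ℝ) < ((K : ℝ) / 2) ^ ε := by positivity
  have h6 : (((K : ℝ) / 2) ^ ε)⁻¹ ≤ (4 / η)⁻¹ := inv_anti₀ h4 h2
  rw [inv_div] at h6
  rw [h3]
  linarith

/-- Few edges go to an assigned cell.

PROOF. Let `K₁` be the constant of `sparse_small` for `η / 2`, choose a natural number `K₂ ≥ 1` with `2 * (2 / K₂) ^ ε ≤ η / 2`, and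
`K₀ = 2 K₂ K₁ + K₁` (so `K ≥ 2 K₂`, `K ≥ 2 K₂ K₁`, `K ≥ K₁`). Let `N = W.card ≥ K`, `V c = {v ∈ W | β v = c}`, `U c = {u ∈ W | kap W K u = c}`, `c < K`.
The number to be bounded is `∑ c < K, eo H (V c) (U c)` (`kap_lt`). `K * (U c).card ≤ 2 N` (`kap_fibre`), `∑ c, (V c).card ≤ N`,
`∑ c, (U c).card ≤ N` (disjoint subsets of `W`).
Small `c`: `K₂ * (V c).card ≤ N`. Then `eo H (V c) (U c) ≤ eo H (V c ∪ U c) (V c ∪ U c) ≤ D * ((V c).card + (U c).card) ^ (1 + ε)
≤ D * (N / K₂ + 2 N / K) ^ ε * ((V c).card + (U c).card) ≤ D * (2 N / K₂) ^ ε * ((V c).card + (U c).card)`; the sum is at most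
`D * (2 N / K₂) ^ ε * 2 N = 2 * (2 / K₂) ^ ε * D * N ^ (1 + ε) ≤ (η / 2) * eo H W W`. (If `(V c).card + (U c).card = 0` the term is `0`.)
Large `c` (`N < K₂ * (V c).card`): there are at most `K₂` of them (disjoint). Let `U` be the union of their `U c`: `K * U.card ≤ K₂ * 2 N`, so
`K₁ * U.card ≤ N` (as `K ≥ 2 K₂ K₁`). The sum of `eo H (V c) (U c)` over the large `c` is at most `eo H W U = eo H U W ≤ (η / 2) * eo H W W` by
`sparse_small` (`eo_symm`). -/
theorem sparse_assign {ε η : ℝ} (hε : 0 < ε) (hη : 0 < η) : ∃ K₀ : ℕ, 0 < K₀ ∧ ∀ K ≥ K₀,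
    ∀ (H : ℕ → ℕ → Prop) (D : ℝ) (W : Finset ℕ), (∀ u v, H u v → H v u) → Dense H ε D W → K ≤ W.card →
    ∀ β : ℕ → ℕ, (((W ×ˢ W).filter (fun p : ℕ × ℕ => H p.1 p.2 ∧ kap W K p.2 = β p.1)).card : ℝ) ≤
      η * (eo H W W : ℝ) := by
  obtain ⟨K₁, hK₁, hsp⟩ := sparse_small hε (half_pos hη)
  obtain ⟨K₂, hK₂, hK₂t⟩ := B04_const hε hη
  refine ⟨2 * K₂ * K₁ + K₁, by positivity, ?_⟩
  intro K hK H D W hsym hD hKW β
  have hK0 : 0 < K := lt_of_lt_of_le (by positivity) hK
  have hK0r : (0 : ℝ) < K := by exact_mod_cast hK0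
  have hK₂r : (0 : ℝ) < K₂ := by exact_mod_cast hK₂
  have hNpos : (0 : ℝ) < W.card := by exact_mod_cast Finset.card_pos.mpr hD.ne
  have hKK₂ : 2 * K₂ ≤ K := by nlinarith
  have hKK₁ : K₁ ≤ K := by nlinarith
  have hKK₂r : 2 * (K₂ : ℝ) ≤ K := by exact_mod_cast hKK₂
  set Sm := (Finset.range K).filter (fun c => K₂ * (W.filter (fun v => β v = c)).card ≤ W.card) with hSm
  set Lg := (Finset.range K).filter (fun c => ¬ K₂ * (W.filter (fun v => β v = c)).card ≤ W.card) with hLg
  set S := (W ×ˢ W).filter (fun p : ℕ × ℕ => H p.1 p.2 ∧ kap W K p.2 = β p.1) with hS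
  have hsplit : (S.card : ℝ) ≤ ((S.filter (fun p => kap W K p.2 ∈ Sm)).card : ℝ) +
      ((S.filter (fun p => kap W K p.2 ∈ Lg)).card : ℝ) := by
    have hsub : S ⊆ S.filter (fun p => kap W K p.2 ∈ Sm) ∪ S.filter (fun p => kap W K p.2 ∈ Lg) := by
      intro p hp
      have hp2 : p.2 ∈ W := (Finset.mem_product.mp (Finset.mem_filter.mp hp).1).2
      have hlt := kap_lt hK0 hp2
      rw [Finset.mem_union]
      by_cases h1 : K₂ * (W.filter (fun v => β v = kap W K p.2)).card ≤ W.card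
      · left
        exact Finset.mem_filter.mpr ⟨hp, by rw [hSm, Finset.mem_filter, Finset.mem_range]; exact ⟨hlt, h1⟩⟩
      · right
        exact Finset.mem_filter.mpr ⟨hp, by rw [hLg, Finset.mem_filter, Finset.mem_range]; exact ⟨hlt, h1⟩⟩
    have h1 := (Finset.card_le_card hsub).trans (Finset.card_union_le _ _)
    exact_mod_cast h1
  -- the small cells
  have hsmall : ((S.filter (fun p => kap W K p.2 ∈ Sm)).card : ℝ) ≤ η / 2 * (eo H W W : ℝ) := by
    have h1 : (S.filter (fun p => kap W K p.2 ∈ Sm)).card =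
        ∑ c ∈ Sm, (S.filter (fun p => kap W K p.2 = c)).card :=
      (Finset.sum_card_fiberwise_eq_card_filter S Sm (fun p => kap W K p.2)).symm
    have h2 : ∀ c ∈ Sm, ((S.filter (fun p => kap W K p.2 = c)).card : ℝ) ≤
        D * (2 * (W.card : ℝ) / K₂) ^ ε *
          (((W.filter (fun v => β v = c)).card : ℝ) + ((W.filter (fun v => kap W K v = c)).card : ℝ)) := by
      intro c hc
      rw [hSm, Finset.mem_filter] at hc
      have a1 : (S.filter (fun p => kap W K p.2 = c)).card ≤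
          eo H (W.filter (fun v => β v = c)) (W.filter (fun v => kap W K v = c)) := by
        unfold eo
        apply Finset.card_le_card
        intro p hp
        simp only [hS, Finset.mem_filter, Finset.mem_product] at hp ⊢
        obtain ⟨⟨⟨b1, b2⟩, b3, b4⟩, b5⟩ := hp
        exact ⟨⟨⟨b1, by rw [← b4, b5]⟩, b2, b5⟩, b3⟩
      have a2 : eo H (W.filter (fun v => β v = c)) (W.filter (fun v => kap W K v = c)) ≤
          eo H (W.filter (fun v => β v = c) ∪ W.filter (fun v => kap W K v = c))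
            (W.filter (fun v => β v = c) ∪ W.filter (fun v => kap W K v = c)) :=
        eo_mono Finset.subset_union_left Finset.subset_union_right
      have a3 := hD.loc (W.filter (fun v => β v = c) ∪ W.filter (fun v => kap W K v = c))
        (Finset.union_subset (Finset.filter_subset _ _) (Finset.filter_subset _ _))
      have a4 : ((W.filter (fun v => β v = c) ∪ W.filter (fun v => kap W K v = c)).card : ℝ) ≤
          ((W.filter (fun v => β v = c)).card : ℝ) + ((W.filter (fun v => kap W K v = c)).card : ℝ) := by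
        exact_mod_cast Finset.card_union_le _ _
      have a5 := Real.rpow_le_rpow (Nat.cast_nonneg _) a4 (by linarith : (0 : ℝ) ≤ 1 + ε)
      have a6 := mul_le_mul_of_nonneg_left a5 hD.pos.le
      have a7 : ((W.filter (fun v => β v = c)).card : ℝ) + ((W.filter (fun v => kap W K v = c)).card : ℝ) ≤
          2 * (W.card : ℝ) / K₂ := by
        have c1 : (K₂ : ℝ) * ((W.filter (fun v => β v = c)).card : ℝ) ≤ W.card := by exact_mod_cast hc.2
        have c2 : (K : ℝ) * ((W.filter (fun v => kap W K v = c)).card : ℝ) ≤ 2 * W.card := by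
          exact_mod_cast kap_fibre hKW c
        have c3 : 2 * (K₂ : ℝ) * ((W.filter (fun v => kap W K v = c)).card : ℝ) ≤ 2 * W.card :=
          (mul_le_mul_of_nonneg_right hKK₂r (Nat.cast_nonneg _)).trans c2
        rw [le_div_iff₀ hK₂r]
        linarith
      generalize hz : ((W.filter (fun v => β v = c)).card : ℝ) + ((W.filter (fun v => kap W K v = c)).card : ℝ)
        = z at a5 a6 a7 ⊢
      have hz0 : 0 ≤ z := by rw [← hz]; positivity
      have a8 : z ^ (1 + ε) ≤ z * (2 * (W.card : ℝ) / K₂) ^ ε := by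
        rw [Real.rpow_add_of_nonneg hz0 (by norm_num) hε.le, Real.rpow_one]
        exact mul_le_mul_of_nonneg_left (Real.rpow_le_rpow hz0 a7 hε.le) hz0
      have a9 := mul_le_mul_of_nonneg_left a8 hD.pos.le
      have a10 : ((S.filter (fun p => kap W K p.2 = c)).card : ℝ) ≤
          (eo H (W.filter (fun v => β v = c) ∪ W.filter (fun v => kap W K v = c))
            (W.filter (fun v => β v = c) ∪ W.filter (fun v => kap W K v = c)) : ℝ) := by
        exact_mod_cast a1.trans a2
      calc ((S.filter (fun p => kap W K p.2 = c)).card : ℝ) ≤ D * z ^ (1 + ε) := a10.trans (a3.trans a6)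
        _ ≤ D * (z * (2 * (W.card : ℝ) / K₂) ^ ε) := a9
        _ = _ := by ring
    have h3 : ∑ c ∈ Sm, (((W.filter (fun v => β v = c)).card : ℝ) +
        ((W.filter (fun v => kap W K v = c)).card : ℝ)) ≤ 2 * W.card := by
      rw [Finset.sum_add_distrib]
      have b1 : ∑ c ∈ Sm, (W.filter (fun v => β v = c)).card ≤ W.card := by
        rw [Finset.sum_card_fiberwise_eq_card_filter W Sm β]
        exact Finset.card_filter_le _ _
      have b2 : ∑ c ∈ Sm, (W.filter (fun v => kap W K v = c)).card ≤ W.card := by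
        rw [Finset.sum_card_fiberwise_eq_card_filter W Sm (kap W K)]
        exact Finset.card_filter_le _ _
      have b1r : ∑ c ∈ Sm, ((W.filter (fun v => β v = c)).card : ℝ) ≤ W.card := by exact_mod_cast b1
      have b2r : ∑ c ∈ Sm, ((W.filter (fun v => kap W K v = c)).card : ℝ) ≤ W.card := by exact_mod_cast b2
      linarith
    rw [h1]
    push_cast
    have hDp := hD.pos
    calc ∑ c ∈ Sm, ((S.filter (fun p => kap W K p.2 = c)).card : ℝ)
        ≤ ∑ c ∈ Sm, D * (2 * (W.card : ℝ) / K₂) ^ ε *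
          (((W.filter (fun v => β v = c)).card : ℝ) + ((W.filter (fun v => kap W K v = c)).card : ℝ)) :=
          Finset.sum_le_sum h2
      _ = D * (2 * (W.card : ℝ) / K₂) ^ ε * ∑ c ∈ Sm,
          (((W.filter (fun v => β v = c)).card : ℝ) + ((W.filter (fun v => kap W K v = c)).card : ℝ)) := by
          rw [Finset.mul_sum]
      _ ≤ D * (2 * (W.card : ℝ) / K₂) ^ ε * (2 * W.card) := by
          apply mul_le_mul_of_nonneg_left h3
          positivity
      _ = 2 * ((2 : ℝ) / K₂) ^ ε * (D * (W.card : ℝ) ^ (1 + ε)) := by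
          have e1 : 2 * (W.card : ℝ) / K₂ = 2 / K₂ * W.card := by ring
          rw [e1, Real.mul_rpow (by positivity) hNpos.le, Real.rpow_add hNpos, Real.rpow_one]
          ring
      _ ≤ η / 2 * (D * (W.card : ℝ) ^ (1 + ε)) := by
          apply mul_le_mul_of_nonneg_right hK₂t
          positivity
      _ = _ := by rw [hD.tot]
  -- the large cells
  have hlarge : ((S.filter (fun p => kap W K p.2 ∈ Lg)).card : ℝ) ≤ η / 2 * (eo H W W : ℝ) := by
    have h1 : Lg.card ≤ K₂ := by
      by_contra hcon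
      have b1 : ∑ c ∈ Lg, (W.filter (fun v => β v = c)).card ≤ W.card := by
        rw [Finset.sum_card_fiberwise_eq_card_filter W Lg β]
        exact Finset.card_filter_le _ _
      have b2 : Lg.card * W.card ≤ ∑ c ∈ Lg, K₂ * (W.filter (fun v => β v = c)).card := by
        have := Finset.card_nsmul_le_sum Lg (fun c => K₂ * (W.filter (fun v => β v = c)).card) W.card
          (fun c hc => by
            rw [hLg, Finset.mem_filter] at hc
            exact (not_le.mp hc.2).le)
        rwa [smul_eq_mul] at this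
      rw [← Finset.mul_sum] at b2
      have b3 : Lg.card * W.card ≤ K₂ * W.card := b2.trans (Nat.mul_le_mul_left K₂ b1)
      have b4 : 0 < W.card := Finset.card_pos.mpr hD.ne
      have b5 := Nat.le_of_mul_le_mul_right b3 b4
      omega
    have h2 : K₁ * (W.filter (fun v => kap W K v ∈ Lg)).card ≤ W.card := by
      have b1 : (W.filter (fun v => kap W K v ∈ Lg)).card = ∑ c ∈ Lg, (W.filter (fun v => kap W K v = c)).card :=
        (Finset.sum_card_fiberwise_eq_card_filter W Lg (kap W K)).symm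
      have b2 : K * (W.filter (fun v => kap W K v ∈ Lg)).card ≤ Lg.card * (2 * W.card) := by
        rw [b1, Finset.mul_sum]
        have := Finset.sum_le_card_nsmul Lg (fun c => K * (W.filter (fun v => kap W K v = c)).card) (2 * W.card)
          (fun c _ => kap_fibre hKW c)
        rwa [smul_eq_mul] at this
      have b3 : Lg.card * (2 * W.card) ≤ K₂ * (2 * W.card) := Nat.mul_le_mul_right _ h1
      have b4 : 2 * K₂ * K₁ * (W.filter (fun v => kap W K v ∈ Lg)).card ≤
          K * (W.filter (fun v => kap W K v ∈ Lg)).card := Nat.mul_le_mul_right _ (by omega)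
      have b5 : 2 * K₂ * (K₁ * (W.filter (fun v => kap W K v ∈ Lg)).card) ≤ 2 * K₂ * W.card := by
        calc 2 * K₂ * (K₁ * (W.filter (fun v => kap W K v ∈ Lg)).card)
            = 2 * K₂ * K₁ * (W.filter (fun v => kap W K v ∈ Lg)).card := by ring
          _ ≤ K₂ * (2 * W.card) := b4.trans (b2.trans b3)
          _ = 2 * K₂ * W.card := by ring
      exact Nat.le_of_mul_le_mul_left b5 (by omega)
    have h3 := hsp H D W hD (hKK₁.trans hKW) (W.filter (fun v => kap W K v ∈ Lg)) (Finset.filter_subset _ _) h2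
    rw [eo_symm hsym] at h3
    have h4 : (S.filter (fun p => kap W K p.2 ∈ Lg)).card ≤ eo H W (W.filter (fun v => kap W K v ∈ Lg)) := by
      unfold eo
      apply Finset.card_le_card
      intro p hp
      simp only [hS, Finset.mem_filter, Finset.mem_product] at hp ⊢
      obtain ⟨⟨⟨b1, b2⟩, b3, b4⟩, b5⟩ := hp
      exact ⟨⟨b1, b2, b5⟩, b3⟩
    have h5 : ((S.filter (fun p => kap W K p.2 ∈ Lg)).card : ℝ) ≤
        (eo H W (W.filter (fun v => kap W K v ∈ Lg)) : ℝ) := by exact_mod_cast h4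
    exact h5.trans h3
  linarith

end LC
end

section

/-! TASK B06 of MP_6bc8af_co. -/

open Classical

namespace LC

/-- Cleaning of a dense set.

PROOF. For `R : ℕ` let `Φ R` be the constant `K₀` of `sparse_assign` for `η = 1 / (8 * (l + 1) * (R + 1))` (choose). Given `K`, `R`, `H`, `D`, `W`, apply
`clean_comb` with `τ j = D * N ^ ε / (8 * K j)`, `B = D * N ^ ε / 8`, `N = W.card` (`K j * τ j = B`; `K j ≥ Φ (R j) > 0`). Then `B * N = eo H W W / 8`
(`N ^ ε * N = N ^ (1 + ε)`), and the double sum is at most `∑ j ≤ l, R j * (1 / (8 (l + 1) (R j + 1))) * eo H W W ≤ eo H W W / 8`. So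
`eo H W W ≤ eo H W' W' + 2 * (1 / 8 + 1 / 8) * eo H W W`, which is the claim. -/
theorem exists_clean {ε : ℝ} (hε : 0 < ε) (l : ℕ) : ∃ Φ : ℕ → ℕ, (∀ r, 0 < Φ r) ∧ ∀ (K R : ℕ → ℕ),
    (∀ j ≤ l, Φ (R j) ≤ K j) → ∀ (H : ℕ → ℕ → Prop) (D : ℝ) (W : Finset ℕ), (∀ u v, H u v → H v u) →
    (∀ u, ¬ H u u) → Dense H ε D W → (∀ j ≤ l, K j ≤ W.card) →
    ∃ W' ⊆ W, Rich H W W' l K R (fun j => D * (W.card : ℝ) ^ ε / (8 * (K j : ℝ))) ∧
      (eo H W W : ℝ) ≤ 2 * (eo H W' W' : ℝ) := by
  have hη : ∀ r : ℕ, (0 : ℝ) < 1 / (8 * ((l : ℝ) + 1) * ((r : ℝ) + 1)) := fun r => by positivity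
  choose Φ hΦ0 hΦ using fun r : ℕ => sparse_assign hε (hη r)
  refine ⟨Φ, hΦ0, ?_⟩
  intro K R hKR H D W hs hi hW hKW
  have hN : 0 < W.card := Finset.card_pos.mpr hW.ne
  have hNr : (0 : ℝ) < W.card := by exact_mod_cast hN
  have hD : 0 < D := hW.pos
  have hKpos : ∀ j ≤ l, 0 < K j := fun j hj => lt_of_lt_of_le (hΦ0 _) (hKR j hj)
  obtain ⟨W', hW', hrich, β, hβ⟩ := clean_comb hs hi W l K R
    (fun j => D * (W.card : ℝ) ^ ε / (8 * (K j : ℝ))) (D * (W.card : ℝ) ^ ε / 8) hKpos
    (fun j hj => by positivity)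
    (fun j hj => by
      have h1 : (0 : ℝ) < K j := by exact_mod_cast hKpos j hj
      have h2 : (K j : ℝ) * (D * (W.card : ℝ) ^ ε / (8 * (K j : ℝ))) = D * (W.card : ℝ) ^ ε / 8 := by
        field_simp
      exact h2.le)
  refine ⟨W', hW', hrich, ?_⟩
  have h1 : D * (W.card : ℝ) ^ ε / 8 * (W.card : ℝ) = (eo H W W : ℝ) / 8 := by
    rw [hW.tot, Real.rpow_add hNr, Real.rpow_one]
    ring
  have h2 : ∑ j ∈ Finset.range (l + 1), ∑ i ∈ Finset.range (R j),
      (((W ×ˢ W).filter (fun p : ℕ × ℕ => H p.1 p.2 ∧ kap W (K j) p.2 = β j i p.1)).card : ℝ) ≤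
      (eo H W W : ℝ) / 8 := by
    calc ∑ j ∈ Finset.range (l + 1), ∑ i ∈ Finset.range (R j),
          (((W ×ˢ W).filter (fun p : ℕ × ℕ => H p.1 p.2 ∧ kap W (K j) p.2 = β j i p.1)).card : ℝ)
        ≤ ∑ j ∈ Finset.range (l + 1), ∑ i ∈ Finset.range (R j),
          1 / (8 * ((l : ℝ) + 1) * ((R j : ℝ) + 1)) * (eo H W W : ℝ) := by
          refine Finset.sum_le_sum fun j hj => Finset.sum_le_sum fun i _ => ?_
          have hj' : j ≤ l := by
            have := Finset.mem_range.mp hj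
            omega
          exact hΦ (R j) (K j) (hKR j hj') H D W hs hW (hKW j hj') (β j i)
      _ ≤ ∑ j ∈ Finset.range (l + 1), 1 / (8 * ((l : ℝ) + 1)) * (eo H W W : ℝ) := by
          refine Finset.sum_le_sum fun j _ => ?_
          rw [Finset.sum_const, Finset.card_range, nsmul_eq_mul, ← mul_assoc]
          refine mul_le_mul_of_nonneg_right ?_ (Nat.cast_nonneg _)
          rw [mul_one_div, div_le_div_iff₀ (by positivity) (by positivity)]
          have h3 : (0 : ℝ) ≤ (R j : ℝ) := Nat.cast_nonneg _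
          have h4 : (0 : ℝ) ≤ (l : ℝ) := Nat.cast_nonneg _
          nlinarith
      _ = (eo H W W : ℝ) / 8 := by
          rw [Finset.sum_const, Finset.card_range, nsmul_eq_mul]
          push_cast
          field_simp
  rw [h1] at hβ
  linarith

/-- Many vertices of each side remain.

PROOF. Let `K'` be the constant of `sparse_small` for `η = 1 / 5`. Let `A = {v ∈ W' | side v = true}`. Every adjacent pair has exactly one element on the true side, so
`eo H W' W' = eo H A W' + eo H W' A = 2 * eo H A W' ≤ 2 * eo H A W` (pairs with first, resp. second element in `A`; `eo_symm`). So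
`eo H W W ≤ 4 * eo H A W`. If `K' * A.card ≤ W.card` then `eo H A W ≤ eo H W W / 5`, so `eo H W W ≤ (4 / 5) * eo H W W`, contradicting
`eo H W W > 0` (`tot`, `pos`, `ne`). -/
theorem side_large {ε : ℝ} (hε : 0 < ε) : ∃ K' : ℕ, 0 < K' ∧ ∀ (H : ℕ → ℕ → Prop) (side : ℕ → Bool) (D : ℝ)
    (W W' : Finset ℕ), (∀ u v, H u v → H v u) → (∀ u v, H u v → side u ≠ side v) → Dense H ε D W →
    K' ≤ W.card → W' ⊆ W → (eo H W W : ℝ) ≤ 2 * (eo H W' W' : ℝ) →
    W.card < K' * (W'.filter (fun v => side v = true)).card := by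
  obtain ⟨K', hK', h⟩ := sparse_small (η := 1 / 5) hε (by norm_num)
  refine ⟨K', hK', ?_⟩
  intro H side D W W' hs hside hW hKW hW' hle
  by_contra hcon
  have hcon' : K' * (W'.filter (fun v => side v = true)).card ≤ W.card := not_lt.mp hcon
  have h1 := h H D W hW hKW (W'.filter (fun v => side v = true))
    ((Finset.filter_subset _ _).trans hW') hcon'
  have hN : 0 < W.card := Finset.card_pos.mpr hW.ne
  have hNr : (0 : ℝ) < W.card := by exact_mod_cast hN
  have hpos : (0 : ℝ) < (eo H W W : ℝ) := by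
    rw [hW.tot]
    exact mul_pos hW.pos (Real.rpow_pos_of_pos hNr _)
  have h2 : eo H W' W' ≤ eo H (W'.filter (fun v => side v = true)) W' +
      eo H W' (W'.filter (fun v => side v = true)) := by
    unfold eo
    refine le_trans (Finset.card_le_card ?_) (Finset.card_union_le _ _)
    intro p hp
    rw [Finset.mem_filter, Finset.mem_product] at hp
    obtain ⟨⟨hp1, hp2⟩, hp3⟩ := hp
    have h3 := hside _ _ hp3
    rw [Finset.mem_union, Finset.mem_filter, Finset.mem_product, Finset.mem_filter,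
      Finset.mem_filter, Finset.mem_product, Finset.mem_filter]
    cases hb : side p.1 with
    | true => exact Or.inl ⟨⟨⟨hp1, rfl⟩, hp2⟩, hp3⟩
    | false =>
      refine Or.inr ⟨⟨hp1, hp2, ?_⟩, hp3⟩
      rw [hb] at h3
      cases hc : side p.2 with
      | true => rfl
      | false => exact absurd hc.symm h3
  have h3 : eo H W' (W'.filter (fun v => side v = true)) =
      eo H (W'.filter (fun v => side v = true)) W' := eo_symm hs _ _
  have h4 : eo H (W'.filter (fun v => side v = true)) W' ≤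
      eo H (W'.filter (fun v => side v = true)) W := eo_mono (Finset.Subset.refl _) hW'
  have h5 : eo H W' W' ≤ 2 * eo H (W'.filter (fun v => side v = true)) W := by omega
  have h6 : (eo H W' W' : ℝ) ≤ 2 * (eo H (W'.filter (fun v => side v = true)) W : ℝ) := by
    exact_mod_cast h5
  linarith

end LC
end

section

/-! TASK D01 of MP_6bc8af_co. -/

open Classical

namespace LC

private theorem D01_even {P : Type} {T : Finset P} {x : P → ℕ} {a : ℕ → ℕ}
    (hT : ∀ k, Even (T.filter (fun t => a (x t) = k)).card) (K : ℕ) :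
    Even (T.filter (fun t => a (x t) < K)).card := by
  have h1 : (T.filter (fun t => a (x t) < K)).card =
      ∑ k ∈ Finset.range K, ((T.filter (fun t => a (x t) < K)).filter (fun t => a (x t) = k)).card := by
    refine Finset.card_eq_sum_card_fiberwise (f := fun t => a (x t)) ?_
    intro t ht
    simpa using (Finset.mem_filter.1 ht).2
  rw [h1]
  refine Finset.even_sum _ fun k hk => ?_
  have h2 : (T.filter (fun t => a (x t) < K)).filter (fun t => a (x t) = k) =
      T.filter (fun t => a (x t) = k) := by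
    ext t
    simp only [Finset.mem_filter]
    have hk' := Finset.mem_range.1 hk
    constructor
    · rintro ⟨⟨h3, _⟩, h4⟩
      exact ⟨h3, h4⟩
    · rintro ⟨h3, h4⟩
      exact ⟨⟨h3, h4 ▸ hk'⟩, h4⟩
  rw [h2]
  exact hT k

/-- The last element of a segment has even count.

PROOF. The elements of `T` with position `≤ x p` are exactly those with segment `a (x t) ≤ a (x p)` (monotone; if `a (x t) = a (x p)` use `hlast`;
if `x p < x t` then `a (x p) ≤ a (x t)`, with equality excluded by `hlast`). So `cnt T x (x p)` is the sum of the fibre sizes over the segments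
`k ≤ a (x p)`: even. -/
theorem even_cnt_last {P : Type} {T : Finset P} {x : P → ℕ} {a : ℕ → ℕ} (ha : Monotone a)
    (hT : ∀ k, Even (T.filter (fun t => a (x t) = k)).card) {p : P}
    (hlast : ∀ t ∈ T, a (x t) = a (x p) → x t ≤ x p) : Even (cnt T x (x p)) := by
  have h1 : T.filter (fun t => x t ≤ x p) = T.filter (fun t => a (x t) < a (x p) + 1) := by
    ext t
    simp only [Finset.mem_filter, Nat.lt_succ_iff]
    constructor
    · rintro ⟨h2, h3⟩
      exact ⟨h2, ha h3⟩
    · rintro ⟨h2, h3⟩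
      refine ⟨h2, ?_⟩
      by_contra hcon
      push Not at hcon
      exact hcon.not_ge (hlast t h2 (le_antisymm h3 (ha hcon.le)))
  unfold cnt
  rw [h1]
  exact D01_even hT _

/-- Two elements which form a segment are joined by an inner arc.

PROOF. `Nxt`: a `t ∈ T` with `x p < x t < x p'` has `a (x p) ≤ a (x t) ≤ a (x p') = a (x p)`, so `t = p` or `t = p'` by `hfib`: contradiction.
Odd: the elements with position `≤ x p` are those with `a (x t) < a (x p)` (an even number, sum of fibres) and `p` itself (an element with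
`a (x t) = a (x p)`, `x t ≤ x p` is `p`, as `x p < x p'`). -/
theorem inAdj_of_fibre {P : Type} {T : Finset P} {x : P → ℕ} {a : ℕ → ℕ} (ha : Monotone a)
    (hT : ∀ k, Even (T.filter (fun t => a (x t) = k)).card) {p p' : P} (hp : p ∈ T) (hp' : p' ∈ T)
    (hlt : x p < x p') (heq : a (x p') = a (x p))
    (hfib : ∀ t ∈ T, a (x t) = a (x p) → t = p ∨ t = p') : InAdj T x p p' := by
  refine ⟨⟨hp, hp', hlt, ?_⟩, ?_⟩
  · rintro t ht ⟨h1, h2⟩
    have h3 : a (x t) = a (x p) := le_antisymm (heq ▸ ha h2.le) (ha h1.le)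
    rcases hfib t ht h3 with rfl | rfl
    · exact lt_irrefl _ h1
    · exact lt_irrefl _ h2
  · have h1 : T.filter (fun t => x t ≤ x p) = insert p (T.filter (fun t => a (x t) < a (x p))) := by
      ext t
      simp only [Finset.mem_filter, Finset.mem_insert]
      constructor
      · rintro ⟨h2, h3⟩
        rcases (ha h3).lt_or_eq with h4 | h4
        · exact Or.inr ⟨h2, h4⟩
        · rcases hfib t h2 h4 with h5 | h5
          · exact Or.inl h5
          · rw [h5] at h3
            exact absurd hlt h3.not_gt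
      · rintro (h2 | ⟨h2, h3⟩)
        · rw [h2]
          exact ⟨hp, le_rfl⟩
        · refine ⟨h2, ?_⟩
          by_contra hcon
          push Not at hcon
          exact (ha hcon.le).not_gt h3
    unfold cnt
    rw [h1, Finset.card_insert_of_notMem (by simp)]
    exact (D01_even hT _).add_one

end LC
end
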