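import Mathlib
import Pool.Agent.Lib.MP_6bc8af_co.Mg.G021

section

/-! MP_6bc8af_co: tangles and the stages of the parallel shuffle. -/

open Classical

namespace LC

/-- A tangle: a fixed point free involution `A` and an involution `B` whose fixed points are the `2 n` ends
`Lf j`, `Rt j` (`j < n`); every nonempty set closed under `A` and `B` contains an end. -/
structure Tangle {Y : Type} (n : ℕ) (A B : Y → Y) (Lf Rt : ℕ → Y) : Prop where
  pos : 0 < n
  AA : ∀ y, A (A y) = y
  Ane : ∀ y, A y ≠ y
  BB : ∀ y, B (B y) = y
  fix : ∀ y, B y = y ↔ ∃ j < n, y = Lf j ∨ y = Rt j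
  Linj : ∀ i < n, ∀ j < n, Lf i = Lf j → i = j
  Rinj : ∀ i < n, ∀ j < n, Rt i = Rt j → i = j
  LR : ∀ i < n, ∀ j < n, Lf i ≠ Rt j
  closed : ∀ S : Set Y, S.Nonempty → (∀ y ∈ S, A y ∈ S) → (∀ y ∈ S, B y ∈ S) →
    ∃ j < n, Lf j ∈ S ∨ Rt j ∈ S

/-- closed under `A` and `B` in both copies -/
def Cab {Y : Type} (A B : Y → Y) (S : Set (Y × Bool)) : Prop :=
  (∀ y b, (y, b) ∈ S → (A y, b) ∈ S) ∧ (∀ y b, (y, b) ∈ S → (B y, b) ∈ S)

/-- The open chain of stage `r`: the windows `j < r` are active (joined by the cross edges `Rt j, s j` -
`Lf j, !s j` and the chain edges `Rt j, !s j` - `Lf (j + 1), s (j + 1)`), the windows `j > r` are bypassed; nothing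
is required at window `r` and for the closing edge. -/
def Zc {Y : Type} (n : ℕ) (A B : Y → Y) (Lf Rt : ℕ → Y) (s : ℕ → Bool) (r : ℕ) (S : Set (Y × Bool)) : Prop :=
  Cab A B S ∧
  (∀ j < r, ((Rt j, s j) ∈ S ↔ (Lf j, !s j) ∈ S)) ∧
  (∀ j, j + 1 < r → ((Rt j, !s j) ∈ S ↔ (Lf (j + 1), s (j + 1)) ∈ S)) ∧
  (∀ j, r < j → j < n → ∀ b, ((Lf j, b) ∈ S ↔ (Rt j, b) ∈ S))

/-- Closed sets of stage `r`: in addition to `Zc` window `r` is bypassed (if `r < n`) and the chain is closed
(if `0 < r`). -/
def Cl {Y : Type} (n : ℕ) (A B : Y → Y) (Lf Rt : ℕ → Y) (s : ℕ → Bool) (r : ℕ) (S : Set (Y × Bool)) : Prop :=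
  Zc n A B Lf Rt s r S ∧
  (r < n → ∀ b, ((Lf r, b) ∈ S ↔ (Rt r, b) ∈ S)) ∧
  (0 < r → ((Rt (r - 1), !s (r - 1)) ∈ S ↔ (Lf 0, s 0) ∈ S))

/-- The invariant: a closed set of stage `r` contains all active ends or none. -/
def Inv {Y : Type} (n : ℕ) (A B : Y → Y) (Lf Rt : ℕ → Y) (s : ℕ → Bool) (r : ℕ) : Prop :=
  ∀ S : Set (Y × Bool), Cl n A B Lf Rt s r S →
    (∀ j < r, ∀ b, (Lf j, b) ∈ S ∧ (Rt j, b) ∈ S) ∨ (∀ j < r, ∀ b, (Lf j, b) ∉ S ∧ (Rt j, b) ∉ S)

/-- indicator modulo 2 -/
noncomputable def ch {Z : Type} (S : Set Z) (z : Z) : ZMod 2 := if z ∈ S then 1 else 0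

/-- A transparent set for window `r`: closed in the tangle with bypasses at the windows `> r`, without ends of the
windows `< r`, containing `Lf r`. -/
def Transp {Y : Type} (n : ℕ) (A B : Y → Y) (Lf Rt : ℕ → Y) (r : ℕ) (W : Set Y) : Prop :=
  (∀ y ∈ W, A y ∈ W) ∧ (∀ y ∈ W, B y ∈ W) ∧ (∀ j < r, Lf j ∉ W ∧ Rt j ∉ W) ∧
  (∀ j, r < j → j < n → (Lf j ∈ W ↔ Rt j ∈ W)) ∧ Lf r ∈ W

end LC
end

section

/-! TASK P01 of MP_6bc8af_co. -/

open Classical

namespace LC

private lemma P01_ch {Z : Type} {S : Set Z} {x y : Z} (h : x ∈ S ↔ y ∈ S) : ch S x = ch S y := by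
  unfold ch
  by_cases hx : x ∈ S
  · rw [if_pos hx, if_pos (h.1 hx)]
  · rw [if_neg hx, if_neg fun hy => hx (h.2 hy)]

/-- A closed set contains an even number of ends.

PROOF. In `ZMod 2`: `∑ y, ch S y = 0` since `A` is a fixed point free involution with `ch S (A y) = ch S y` (`y ∈ S ↔ A y ∈ S`, as
`A (A y) = y`): `Finset.sum_involution` (the two terms add to `0` in `ZMod 2`). The sum over the `y` with `B y ≠ y` is `0` for the same
reason (`B` is an involution of this set without fixed points). So the sum over the `y` with `B y = y` is `0`; this set is the disjoint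
union of `{Lf j | j < n}` and `{Rt j | j < n}` (`T.fix`, `T.LR`), parametrised injectively (`T.Linj`, `T.Rinj`; `Finset.sum_image`). -/
theorem end_parity {Y : Type} [Fintype Y] {n : ℕ} {A B : Y → Y} {Lf Rt : ℕ → Y} (T : Tangle n A B Lf Rt)
    (S : Set Y) (hA : ∀ y ∈ S, A y ∈ S) (hB : ∀ y ∈ S, B y ∈ S) :
    ∑ j ∈ Finset.range n, (ch S (Lf j) + ch S (Rt j)) = 0 := by
  have cA : ∀ y, ch S (A y) = ch S y := fun y =>
    P01_ch ⟨fun h => by have := hA _ h; rwa [T.AA] at this, hA y⟩
  have cB : ∀ y, ch S (B y) = ch S y := fun y =>
    P01_ch ⟨fun h => by have := hB _ h; rwa [T.BB] at this, hB y⟩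
  have s1 : ∑ y : Y, ch S y = 0 :=
    Finset.sum_involution (fun y _ => A y) (fun y _ => by rw [cA]; exact CharTwo.add_self_eq_zero _)
      (fun y _ _ => T.Ane y) (fun y _ => Finset.mem_univ _) (fun y _ => T.AA y)
  have s2 : ∑ y ∈ Finset.univ.filter (fun y => ¬ B y = y), ch S y = 0 :=
    Finset.sum_involution (fun y _ => B y) (fun y _ => by rw [cB]; exact CharTwo.add_self_eq_zero _)
      (fun y hy _ => (Finset.mem_filter.1 hy).2)
      (fun y hy => Finset.mem_filter.2 ⟨Finset.mem_univ _, fun h => (Finset.mem_filter.1 hy).2 (by
        rw [T.BB] at h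
        exact h.symm)⟩) (fun y _ => T.BB y)
  have s3 : ∑ y ∈ Finset.univ.filter (fun y => B y = y), ch S y = 0 := by
    have := Finset.sum_filter_add_sum_filter_not Finset.univ (fun y => B y = y) (fun y => ch S y)
    rw [s1, s2, add_zero] at this
    exact this
  have e : Finset.univ.filter (fun y => B y = y) =
      (Finset.range n).image Lf ∪ (Finset.range n).image Rt := by
    ext y
    simp only [Finset.mem_filter, Finset.mem_univ, true_and, Finset.mem_union, Finset.mem_image,
      Finset.mem_range]
    rw [T.fix]
    constructor
    · rintro ⟨j, hj, h | h⟩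
      · exact Or.inl ⟨j, hj, h.symm⟩
      · exact Or.inr ⟨j, hj, h.symm⟩
    · rintro (⟨j, hj, h⟩ | ⟨j, hj, h⟩)
      · exact ⟨j, hj, Or.inl h.symm⟩
      · exact ⟨j, hj, Or.inr h.symm⟩
  have d : Disjoint ((Finset.range n).image Lf) ((Finset.range n).image Rt) := by
    rw [Finset.disjoint_left]
    intro y h1 h2
    obtain ⟨i, hi, h1⟩ := Finset.mem_image.1 h1
    obtain ⟨j, hj, h2⟩ := Finset.mem_image.1 h2
    exact T.LR i (Finset.mem_range.1 hi) j (Finset.mem_range.1 hj) (h1.trans h2.symm)
  rw [e, Finset.sum_union d, Finset.sum_image, Finset.sum_image] at s3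
  · rw [Finset.sum_add_distrib]
    exact s3
  · intro i hi j hj h
    exact T.Rinj i (Finset.mem_range.1 hi) j (Finset.mem_range.1 hj) h
  · intro i hi j hj h
    exact T.Linj i (Finset.mem_range.1 hi) j (Finset.mem_range.1 hj) h

end LC
end

section

/-! TASK S01 of MP_6bc8af_co. -/

namespace LC

private theorem S01_pred {q : ℕ} {out : ℕ → Bool} (halt : ∀ k < q, out (k + 1) = !out k) (k : ℕ)
    (hk : k < q) (h0 : k ≠ 0) : out (k - 1) = !out k := by
  have h := halt (k - 1) (by omega)
  rw [Nat.sub_add_cancel (by omega)] at h
  rw [h, Bool.not_not]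

/-- PROOF. Case analysis on `out z.2` (and `out (z.2 + 1) = !out z.2`, `out (z.2 - 1) = !out z.2` for `z.2 > 0`). -/
theorem SA_spec {q : ℕ} {out : ℕ → Bool} (halt : ∀ k < q, out (k + 1) = !out k) (z : Bool × ℕ)
    (hz : z.2 < q) : (SA q out z).2 < q ∧ SA q out (SA q out z) = z ∧ SA q out z ≠ z := by
  obtain ⟨i, k⟩ := z
  simp only at hz
  cases hk : out k with
  | true =>
    by_cases h1 : k + 1 = q
    · have e : ∀ i, SA q out (i, k) = (!i, k) := by intro i; simp [SA, hk, h1]
      rw [e, e, Bool.not_not]
      refine ⟨hz, rfl, ?_⟩
      intro h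
      have := congrArg Prod.fst h
      simp at this
    · have h2 : out (k + 1) = false := by rw [halt k hz, hk]; rfl
      have e : SA q out (i, k) = (i, k + 1) := by simp [SA, hk, h1]
      have e2 : SA q out (i, k + 1) = (i, k) := by simp [SA, h2]
      rw [e, e2]
      refine ⟨by simp only; omega, rfl, ?_⟩
      intro h
      have := congrArg Prod.snd h
      simp at this
  | false =>
    by_cases h1 : k = 0
    · subst h1
      have e : ∀ i, SA q out (i, 0) = (!i, 0) := by intro i; simp [SA, hk]
      rw [e, e, Bool.not_not]
      refine ⟨hz, rfl, ?_⟩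
      intro h
      have := congrArg Prod.fst h
      simp at this
    · have h2 : out (k - 1) = true := by rw [S01_pred halt k hz h1, hk]; rfl
      have h3 : k - 1 + 1 = k := by omega
      have e : SA q out (i, k) = (i, k - 1) := by simp [SA, hk, h1]
      have e2 : SA q out (i, k - 1) = (i, k) := by
        unfold SA
        simp only [h2, if_true, h3]
        rw [if_neg (by omega)]
      rw [e, e2]
      refine ⟨by simp only; omega, rfl, ?_⟩
      intro h
      have := congrArg Prod.snd h
      simp only at this
      omega

/-- PROOF. Case analysis. If `out k`, `k > 0` and `(i == f k) = w k` then `SB (i, k) = (!i, k - 1)`; now `out (k - 1) = false`,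
`k - 1 + 1 = k ≠ q` and `(!i == f k) ≠ w k`, so the partner of `(!i, k - 1)` is `(i, k)`. The other case is symmetric. -/
theorem SB_spec {q : ℕ} {out f w : ℕ → Bool} (halt : ∀ k < q, out (k + 1) = !out k) (z : Bool × ℕ)
    (hz : z.2 < q) : (SB q out f w z).2 < q ∧ SB q out f w (SB q out f w z) = z := by
  obtain ⟨i, k⟩ := z
  simp only at hz
  cases hk : out k with
  | true =>
    by_cases h0 : k = 0
    · subst h0
      have e : SB q out f w (i, 0) = (i, 0) := by simp [SB, hk]
      rw [e, e]
      exact ⟨hz, rfl⟩
    · by_cases h1 : (i == f k) = w k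
      · have h2 : out (k - 1) = false := by rw [S01_pred halt k hz h0, hk]; rfl
        have h3 : k - 1 + 1 = k := by omega
        have e : SB q out f w (i, k) = (!i, k - 1) := by
          unfold SB
          simp only [hk, if_true]
          rw [if_neg h0, if_pos h1]
        have h4 : ¬ (((!i) == f k) = w k) := by
          rw [← h1]
          cases i <;> cases f k <;> simp
        have e2 : SB q out f w (!i, k - 1) = (i, k) := by
          unfold SB
          simp only [h2, h3, Bool.false_eq_true, if_false]
          rw [if_neg (by omega), if_neg h4, Bool.not_not]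
        rw [e, e2]
        exact ⟨by simp only; omega, rfl⟩
      · have e : SB q out f w (i, k) = (i, k) := by
          unfold SB
          simp only [hk, if_true]
          rw [if_neg h0, if_neg h1]
        rw [e, e]
        exact ⟨hz, rfl⟩
  | false =>
    by_cases h0 : k + 1 = q
    · have e : SB q out f w (i, k) = (i, k) := by simp [SB, hk, h0]
      rw [e, e]
      exact ⟨hz, rfl⟩
    · by_cases h1 : (i == f (k + 1)) = w (k + 1)
      · have e : SB q out f w (i, k) = (i, k) := by
          unfold SB
          simp only [hk, Bool.false_eq_true, if_false]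
          rw [if_neg h0, if_pos h1]
        rw [e, e]
        exact ⟨hz, rfl⟩
      · have h2 : out (k + 1) = true := by rw [halt k hz, hk]; rfl
        have e : SB q out f w (i, k) = (!i, k + 1) := by
          unfold SB
          simp only [hk, Bool.false_eq_true, if_false]
          rw [if_neg h0, if_neg h1]
        have h4 : ((!i) == f (k + 1)) = w (k + 1) := by
          revert h1
          cases i <;> cases f (k + 1) <;> cases w (k + 1) <;> simp
        have e2 : SB q out f w (!i, k + 1) = (i, k) := by
          unfold SB
          simp only [h2, if_true]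
          rw [if_neg (by omega), if_pos h4, Bool.not_not, Nat.add_sub_cancel]
        rw [e, e2]
        exact ⟨by simp only; omega, rfl⟩

/-- The fixed points of `SB` are the ends of the outer layers.

PROOF. `z = (i, k)`. If `out k` the only outer layer at `z` is `k` (the ends of the layer `k + 1`, which is not outer, do not matter; an end of
an outer layer `κ` has second coordinate `κ` or `κ - 1`, so `κ = k` or `κ = k + 1`, or `κ = q = k + 1`, ...): `k = 0`: both `(i, 0)` are ends and fixed
points. `0 < k < q`: `z` is fixed iff `(i == f k) ≠ w k` iff (`w k` and `i = !f k`, `z = eR k`) or (not `w k` and `i = f k`, `z = eL k`).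
If not `out k` then `out (k + 1)`: `k + 1 = q`: both are ends and fixed. `k + 1 < q`: `z` is fixed iff `(i == f (k + 1)) = w (k + 1)` iff
(`w` and `i = f`, `z = eL (k + 1)`) or (not `w` and `i = !f`, `z = eR (k + 1)`). -/
theorem SB_fix {q : ℕ} {out f w : ℕ → Bool} (hq : 2 ≤ q) (halt : ∀ k < q, out (k + 1) = !out k)
    (z : Bool × ℕ) (hz : z.2 < q) :
    SB q out f w z = z ↔ ∃ κ ≤ q, out κ = true ∧ (z = eL q f w κ ∨ z = eR q f w κ) := by
  obtain ⟨i, k⟩ := z
  simp only at hz
  cases hk : out k with
  | true =>
    constructor
    · intro h
      refine ⟨k, hz.le, hk, ?_⟩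
      by_cases h0 : k = 0
      · subst h0
        unfold eL eR
        simp only [if_true, Prod.mk.injEq, and_true]
        cases i <;> cases f 0 <;> simp
      · by_cases h1 : (i == f k) = w k
        · exfalso
          have e : SB q out f w (i, k) = (!i, k - 1) := by
            unfold SB
            simp only [hk, if_true]
            rw [if_neg h0, if_pos h1]
          rw [e] at h
          have := congrArg Prod.fst h
          simp at this
        · have hkq : k ≠ q := by omega
          unfold eL eR
          rw [if_neg h0, if_neg hkq, if_neg h0, if_neg hkq]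
          cases hw : w k with
          | true =>
            right
            rw [hw] at h1
            simp only [if_true, Prod.mk.injEq, and_true]
            revert h1
            cases i <;> cases f k <;> simp
          | false =>
            left
            rw [hw] at h1
            simp only [Bool.false_eq_true, if_false, Prod.mk.injEq, and_true]
            revert h1
            cases i <;> cases f k <;> simp
    · rintro ⟨κ, hκ, ho, h⟩
      by_cases hκ0 : κ = 0
      · subst hκ0
        have hk0 : k = 0 := by
          unfold eL eR at h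
          simp only [if_true, Prod.mk.injEq] at h
          rcases h with h | h <;> exact h.2
        subst hk0
        simp [SB, hk]
      · have hpred : out (κ - 1) = false := by
          have h := halt (κ - 1) (by omega)
          rw [Nat.sub_add_cancel (by omega), ho] at h
          cases h2 : out (κ - 1) with
          | true => rw [h2] at h; simp at h
          | false => rfl
        by_cases hκq : κ = q
        · exfalso
          unfold eL eR at h
          simp only [hκ0, hκq, if_true, if_false, Prod.mk.injEq] at h
          have h1 : k = q - 1 := by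
            have hq0 : q ≠ 0 := by omega
            simp only [hq0, if_false] at h
            rcases h with h | h <;> exact h.2
          rw [hκq, ← h1, hk] at hpred
          simp at hpred
        · unfold eL eR at h
          rw [if_neg hκ0, if_neg hκq, if_neg hκ0, if_neg hκq] at h
          have hne : k ≠ κ - 1 := by
            intro h1
            rw [← h1, hk] at hpred
            simp at hpred
          cases hw : w κ with
          | true =>
            rw [hw] at h
            simp only [if_true, Prod.mk.injEq] at h
            rcases h with ⟨_, h⟩ | ⟨h1, h⟩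
            · exact absurd h hne
            · subst h
              unfold SB
              simp only [hk, if_true]
              rw [if_neg hκ0, if_neg]
              rw [hw, h1]
              cases f k <;> simp
          | false =>
            rw [hw] at h
            simp only [Bool.false_eq_true, if_false, Prod.mk.injEq] at h
            rcases h with ⟨h1, h⟩ | ⟨_, h⟩
            · subst h
              unfold SB
              simp only [hk, if_true]
              rw [if_neg hκ0, if_neg]
              rw [hw, h1]
              cases f k <;> simp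
            · exact absurd h hne
  | false =>
    have hk1 : out (k + 1) = true := by rw [halt k hz, hk]; rfl
    constructor
    · intro h
      refine ⟨k + 1, by omega, hk1, ?_⟩
      have h0 : k + 1 ≠ 0 := by omega
      unfold eL eR
      rw [if_neg h0, if_neg h0]
      by_cases hkq : k + 1 = q
      · rw [if_pos hkq, if_pos hkq]
        have h1 : q - 1 = k := by omega
        simp only [h1, Prod.mk.injEq, and_true]
        cases i <;> cases f (k + 1) <;> simp
      · rw [if_neg hkq, if_neg hkq]
        by_cases h1 : (i == f (k + 1)) = w (k + 1)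
        · cases hw : w (k + 1) with
          | true =>
            left
            rw [hw] at h1
            simp only [if_true, Nat.add_sub_cancel, Prod.mk.injEq, and_true]
            revert h1
            cases i <;> cases f (k + 1) <;> simp
          | false =>
            right
            rw [hw] at h1
            simp only [Bool.false_eq_true, if_false, Nat.add_sub_cancel, Prod.mk.injEq, and_true]
            revert h1
            cases i <;> cases f (k + 1) <;> simp
        · exfalso
          have e : SB q out f w (i, k) = (!i, k + 1) := by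
            unfold SB
            simp only [hk, Bool.false_eq_true, if_false]
            rw [if_neg hkq, if_neg h1]
          rw [e] at h
          have := congrArg Prod.fst h
          simp at this
    · rintro ⟨κ, hκ, ho, h⟩
      have hκk : κ ≠ k := by
        intro h1
        rw [h1, hk] at ho
        simp at ho
      by_cases hκ0 : κ = 0
      · exfalso
        subst hκ0
        have hk0 : k = 0 := by
          unfold eL eR at h
          simp only [if_true, Prod.mk.injEq] at h
          rcases h with h | h <;> exact h.2
        exact hκk hk0.symm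
      · by_cases hκq : κ = q
        · have h1 : k = q - 1 := by
            have hq0 : q ≠ 0 := by omega
            unfold eL eR at h
            simp only [hκq, hq0, if_true, if_false, Prod.mk.injEq] at h
            rcases h with h | h <;> exact h.2
          have h2 : k + 1 = q := by omega
          simp [SB, hk, h2]
        · unfold eL eR at h
          rw [if_neg hκ0, if_neg hκq, if_neg hκ0, if_neg hκq] at h
          cases hw : w κ with
          | true =>
            rw [hw] at h
            simp only [if_true, Prod.mk.injEq] at h
            rcases h with ⟨h1, h⟩ | ⟨_, h⟩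
            · have h2 : κ = k + 1 := by omega
              subst h2
              unfold SB
              simp only [hk, Bool.false_eq_true, if_false]
              rw [if_neg hκq, if_pos]
              rw [hw, h1]
              cases f (k + 1) <;> simp
            · exact absurd h.symm hκk
          | false =>
            rw [hw] at h
            simp only [Bool.false_eq_true, if_false, Prod.mk.injEq] at h
            rcases h with ⟨_, h⟩ | ⟨h1, h⟩
            · exact absurd h.symm hκk
            · have h2 : κ = k + 1 := by omega
              subst h2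
              unfold SB
              simp only [hk, Bool.false_eq_true, if_false]
              rw [if_neg hκq, if_pos]
              rw [hw, h1]
              cases f (k + 1) <;> simp

end LC
end
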