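import Pool.Agent.Lib.MP_6bc8af_co.Mg.G021
import Pool.Agent.Lib.MP_6bc8af_co.Mg.G024

section

/-! TASK D02 of MP_6bc8af_co. In this file `k` is always an index with `k < q` and `k = κ` or `k + 1 = κ`, i.e. the points
`e c i k` are the points at the layer `κ`. -/

open Classical

namespace LC

variable {P : Type} {x y : P → ℕ} {a b : ℕ → ℕ} {q : ℕ} {out f w s : ℕ → Bool}
  {lo hi : ℕ → Bool → ℕ} {e : Bool → Bool → ℕ → P}

private theorem D02_ls {P : Type} {x y : P → ℕ} {a b : ℕ → ℕ} {out : ℕ → Bool} {κ : ℕ} (ho : out κ = true)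
    (p : P) : ls out x y a b κ p = a (x p) := by
  unfold ls; rw [ho]; rfl

private theorem D02_lsf {P : Type} {x y : P → ℕ} {a b : ℕ → ℕ} {out : ℕ → Bool} {κ : ℕ} (ho : out κ = false)
    (p : P) : ls out x y a b κ p = b (y p) := by
  unfold ls; rw [ho]; rfl

private theorem D02_lx {P : Type} {x y : P → ℕ} {out : ℕ → Bool} {κ : ℕ} (ho : out κ = true)
    (p : P) : lx out x y κ p = x p := by
  unfold lx; rw [ho]; rfl

private theorem D02_lt {P : Type} {x : P → ℕ} {a : ℕ → ℕ} (ha : Monotone a) {p p' : P}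
    (h : a (x p) < a (x p')) : x p < x p' := by
  by_contra hcon
  push Not at hcon
  have := ha hcon
  omega

/-- Points at different outer layers. PROOF. `a (x p) ≤ hi κ _ ≤ hi κ true < lo κ' false ≤ lo κ' _ ≤ a (x p')` by `cell`, `lohi`; `a` is monotone. -/
theorem Dbl.lt_layer (h : Dbl x y a b q out f w s lo hi e) {κ κ' k k' : ℕ} (hκ : κ ≤ q) (hκ' : κ' ≤ q)
    (ho : out κ = true) (ho' : out κ' = true) (hlt : hi κ true < lo κ' false)
    (hk : k < q) (hkκ : k = κ ∨ k + 1 = κ) (hk' : k' < q) (hkκ' : k' = κ' ∨ k' + 1 = κ') (c c' i i' : Bool) :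
    a (x (e c i k)) < a (x (e c' i' k')) ∧ x (e c i k) < x (e c' i' k') := by
  obtain ⟨_, h2⟩ := h.cell c i κ k hk hkκ
  obtain ⟨h3, _⟩ := h.cell c' i' κ' k' hk' hkκ'
  rw [D02_ls ho] at h2
  rw [D02_ls ho'] at h3
  obtain ⟨l1, l2, l3⟩ := h.lohi κ hκ
  obtain ⟨m1, m2, m3⟩ := h.lohi κ' hκ'
  have h4 : hi κ (c != s κ) ≤ hi κ true := by
    cases (c != s κ)
    · omega
    · exact le_rfl
  have h5 : lo κ' false ≤ lo κ' (c' != s κ') := by
    cases (c' != s κ')
    · exact le_rfl
    · omega
  have h6 : a (x (e c i k)) < a (x (e c' i' k')) := by omega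
  exact ⟨h6, D02_lt h.amono h6⟩

/-- Points of the two copies at the same outer layer. PROOF. The cell of the copy `s κ` is the lower one (`(s κ != s κ) = false`), that of the
copy `!s κ` the upper one. -/
theorem Dbl.lt_copy (h : Dbl x y a b q out f w s lo hi e) {κ k k' : ℕ} (hκ : κ ≤ q) (ho : out κ = true)
    (hk : k < q) (hkκ : k = κ ∨ k + 1 = κ) (hk' : k' < q) (hkκ' : k' = κ ∨ k' + 1 = κ) (i i' : Bool) :
    a (x (e (s κ) i k)) < a (x (e (!s κ) i' k')) ∧ x (e (s κ) i k) < x (e (!s κ) i' k') := by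
  obtain ⟨_, h2⟩ := h.cell (s κ) i κ k hk hkκ
  obtain ⟨h3, _⟩ := h.cell (!s κ) i' κ k' hk' hkκ'
  rw [D02_ls ho] at h2 h3
  obtain ⟨l1, l2, l3⟩ := h.lohi κ hκ
  have e1 : (s κ != s κ) = false := by cases s κ <;> rfl
  have e2 : ((!s κ) != s κ) = true := by cases s κ <;> rfl
  rw [e1] at h2
  rw [e2] at h3
  have h6 : a (x (e (s κ) i k)) < a (x (e (!s κ) i' k')) := by omega
  exact ⟨h6, D02_lt h.amono h6⟩

/-- Points of the two paths at the same outer layer and in the same copy.

PROOF. `0 < κ < q`: `hf` (and `seg`, as `k, k' ∈ {κ - 1, κ}`) gives the inequality of the segments, hence of the positions. `κ = 0`: `k = k' = 0`,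
`hf0`; `κ = q`: `k = k' = q - 1`, `hfq`. -/
theorem Dbl.lt_path (h : Dbl x y a b q out f w s lo hi e) {κ k k' : ℕ} (hκ : κ ≤ q) (ho : out κ = true)
    (hk : k < q) (hkκ : k = κ ∨ k + 1 = κ) (hk' : k' < q) (hkκ' : k' = κ ∨ k' + 1 = κ) (c : Bool) :
    (0 < κ → κ < q → a (x (e c (f κ) k)) < a (x (e c (!f κ) k'))) ∧ x (e c (f κ) k) < x (e c (!f κ) k') := by
  rcases Nat.eq_zero_or_pos κ with h0 | h0
  · subst h0
    have hk0 : k = 0 := by omega
    have hk0' : k' = 0 := by omega
    subst hk0 hk0'
    refine ⟨fun h1 => absurd h1 (lt_irrefl 0), ?_⟩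
    have := h.hf0 c
    rwa [D02_lx ho, D02_lx ho] at this
  · rcases Nat.lt_or_ge κ q with h1 | h1
    · have hseg : ∀ i m, (m = κ ∨ m + 1 = κ) → a (x (e c i m)) = a (x (e c i κ)) := by
        intro i m hm
        rcases hm with hm | hm
        · rw [hm]
        · have h2 := h.seg c i κ h0 h1
          rw [D02_ls ho, D02_ls ho] at h2
          have h3 : κ - 1 = m := by omega
          rw [h3] at h2
          exact h2
      have h2 := h.hf c κ h0 h1
      rw [D02_ls ho, D02_ls ho, ← hseg _ k hkκ, ← hseg _ k' hkκ'] at h2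
      exact ⟨fun _ _ => h2, D02_lt h.amono h2⟩
    · have hκq : κ = q := le_antisymm hκ h1
      subst hκq
      have hk0 : k = κ - 1 := by omega
      have hk0' : k' = κ - 1 := by omega
      subst hk0 hk0'
      refine ⟨fun _ h2 => absurd h2 (lt_irrefl _), ?_⟩
      have := h.hfq c
      rwa [D02_lx ho, D02_lx ho] at this

/-- The two points of a path at an inner vertex (`0 < κ < q`) of an outer layer.

PROOF. `hw` and `seg`; `x` is injective and `e c i (κ - 1) ≠ e c i κ`: by `hw`, if `w κ` is false then not `x (e c i (κ - 1)) < x (e c i κ)`; equality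
of the positions would give `e c i (κ - 1) = e c i κ =: p`. Exclude this: at the layers `κ - 1` and `κ + 1` (both inner, `≤ q`), `b (y p)` would be
in the hulls `[lo (κ - 1) false, hi (κ - 1) true]` and `[lo (κ + 1) false, hi (κ + 1) true]` (`cell`, `lohi`), which are disjoint by `hull`. -/
theorem Dbl.lt_w (h : Dbl x y a b q out f w s lo hi e) {κ : ℕ} (h0 : 0 < κ) (hκ : κ < q)
    (ho : out κ = true) (c i : Bool) :
    a (x (e c i (κ - 1))) = a (x (e c i κ)) ∧ (w κ = true → x (e c i (κ - 1)) < x (e c i κ)) ∧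
      (w κ = false → x (e c i κ) < x (e c i (κ - 1))) := by
  have hs := h.seg c i κ h0 hκ
  rw [D02_ls ho, D02_ls ho] at hs
  have hw := h.hw c i κ h0 hκ
  rw [D02_lx ho, D02_lx ho] at hw
  refine ⟨hs, hw.mp, ?_⟩
  intro hwf
  have h1 : ¬ x (e c i (κ - 1)) < x (e c i κ) := by
    intro h2
    rw [hw.mpr h2] at hwf
    exact absurd hwf (by decide)
  rcases lt_or_eq_of_le (not_lt.mp h1) with h2 | h2
  · exact h2
  · exfalso
    have h3 : e c i κ = e c i (κ - 1) := h.xinj h2
    have o1 : out (κ - 1) = false := by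
      have h4 := h.alt (κ - 1) (by omega)
      rw [show κ - 1 + 1 = κ by omega, ho] at h4
      cases hh : out (κ - 1)
      · rfl
      · rw [hh] at h4; exact absurd h4 (by decide)
    have o2 : out (κ + 1) = false := by
      rw [h.alt κ hκ, ho]; rfl
    obtain ⟨c1, c2⟩ := h.cell c i (κ - 1) (κ - 1) (by omega) (Or.inl rfl)
    obtain ⟨c3, c4⟩ := h.cell c i (κ + 1) κ hκ (Or.inr rfl)
    rw [D02_lsf o1] at c1 c2
    rw [D02_lsf o2, h3] at c3 c4
    obtain ⟨l1, l2, l3⟩ := h.lohi (κ - 1) (by omega)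
    obtain ⟨m1, m2, m3⟩ := h.lohi (κ + 1) (by omega)
    have b1 : hi (κ - 1) (c != s (κ - 1)) ≤ hi (κ - 1) true := by
      cases (c != s (κ - 1))
      · omega
      · exact le_rfl
    have b2 : lo (κ - 1) false ≤ lo (κ - 1) (c != s (κ - 1)) := by
      cases (c != s (κ - 1))
      · exact le_rfl
      · omega
    have b3 : hi (κ + 1) (c != s (κ + 1)) ≤ hi (κ + 1) true := by
      cases (c != s (κ + 1))
      · omega
      · exact le_rfl
    have b4 : lo (κ + 1) false ≤ lo (κ + 1) (c != s (κ + 1)) := by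
      cases (c != s (κ + 1))
      · exact le_rfl
      · omega
    rcases h.hull (κ - 1) (by omega) (κ + 1) (by omega) (by omega) with h5 | h5 <;> omega

/-- The left end of a copy is its first point at an outer layer, the right end is its last point.

PROOF. By cases `i = f κ` or `i = !f κ`. `κ = 0`, `κ = q`: `lt_path`. `0 < κ < q`: `eL κ = (f κ, κ - 1)` if `w κ`, `(f κ, κ)` if not; it is below the points
`(!f κ, .)` by `lt_path` and below or equal the points `(f κ, .)` by `lt_w`. The same for `eR κ`. -/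
theorem Dbl.end_le (h : Dbl x y a b q out f w s lo hi e) {κ k : ℕ} (hκ : κ ≤ q) (ho : out κ = true)
    (hk : k < q) (hkκ : k = κ ∨ k + 1 = κ) (c i : Bool) :
    x (ee e c (eL q f w κ)) ≤ x (e c i k) ∧ x (e c i k) ≤ x (ee e c (eR q f w κ)) := by
  have hq := h.hq
  set kL := (if κ = 0 then 0 else if κ = q then q - 1 else if w κ then κ - 1 else κ) with hkL
  set kR := (if κ = 0 then 0 else if κ = q then q - 1 else if w κ then κ else κ - 1) with hkR
  have eqL : ee e c (eL q f w κ) = e c (f κ) kL := rfl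
  have eqR : ee e c (eR q f w κ) = e c (!f κ) kR := rfl
  have hL : kL < q ∧ (kL = κ ∨ kL + 1 = κ) := by
    rw [hkL]; split_ifs <;> omega
  have hR : kR < q ∧ (kR = κ ∨ kR + 1 = κ) := by
    rw [hkR]; split_ifs <;> omega
  rw [eqL, eqR]
  have hi : i = f κ ∨ i = !f κ := by
    cases i <;> cases f κ <;> simp
  rcases hi with hi | hi
  · subst hi
    refine ⟨?_, ((h.lt_path hκ ho hk hkκ hR.1 hR.2 c).2).le⟩
    rcases Nat.eq_zero_or_pos κ with h0 | h0
    · have h1 : kL = k := by omega
      rw [h1]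
    · rcases Nat.lt_or_ge κ q with h1 | h1
      · obtain ⟨_, w1, w2⟩ := h.lt_w h0 h1 ho c (f κ)
        cases hw : w κ
        · have h2 : kL = κ := by
            rw [hkL, if_neg (by omega), if_neg (by omega), hw]; rfl
          rw [h2]
          have h3 := w2 hw
          rcases hkκ with h4 | h4
          · rw [h4]
          · have h5 : k = κ - 1 := by omega
            rw [h5]; exact h3.le
        · have h2 : kL = κ - 1 := by
            rw [hkL, if_neg (by omega), if_neg (by omega), hw]; rfl
          rw [h2]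
          have h3 := w1 hw
          rcases hkκ with h4 | h4
          · rw [h4]; exact h3.le
          · have h5 : k = κ - 1 := by omega
            rw [h5]
      · have h2 : kL = k := by omega
        rw [h2]
  · subst hi
    refine ⟨((h.lt_path hκ ho hL.1 hL.2 hk hkκ c).2).le, ?_⟩
    rcases Nat.eq_zero_or_pos κ with h0 | h0
    · have h1 : kR = k := by omega
      rw [h1]
    · rcases Nat.lt_or_ge κ q with h1 | h1
      · obtain ⟨_, w1, w2⟩ := h.lt_w h0 h1 ho c (!f κ)
        cases hw : w κ
        · have h2 : kR = κ - 1 := by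
            rw [hkR, if_neg (by omega), if_neg (by omega), hw]; rfl
          rw [h2]
          have h3 := w2 hw
          rcases hkκ with h4 | h4
          · rw [h4]; exact h3.le
          · have h5 : k = κ - 1 := by omega
            rw [h5]
        · have h2 : kR = κ := by
            rw [hkR, if_neg (by omega), if_neg (by omega), hw]; rfl
          rw [h2]
          have h3 := w1 hw
          rcases hkκ with h4 | h4
          · rw [h4]
          · have h5 : k = κ - 1 := by omega
            rw [h5]; exact h3.le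
      · have h2 : kR = k := by omega
        rw [h2]

end LC
end

section

/-! TASK D03 of MP_6bc8af_co. -/

open Classical

namespace LC

variable {P : Type} {x y : P → ℕ} {a b : ℕ → ℕ} {q : ℕ} {out f w s : ℕ → Bool}
  {lo hi : ℕ → Bool → ℕ} {e : Bool → Bool → ℕ → P}

/-- Every point lies at exactly one outer layer. PROOF. `κ = k` if `out k`, else `κ = k + 1` (`alt`). -/
theorem Dbl.outer (h : Dbl x y a b q out f w s lo hi e) {k : ℕ} (hk : k < q) :
    ∃ κ ≤ q, out κ = true ∧ (k = κ ∨ k + 1 = κ) := by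
  cases ho : out k with
  | true => exact ⟨k, hk.le, ho, Or.inl rfl⟩
  | false => exact ⟨k + 1, hk, by rw [h.alt k hk, ho]; rfl, Or.inr rfl⟩

private theorem D03_bool {a b : Bool} (h : a ≠ b) : a = !b := by
  revert h
  cases a <;> cases b <;> simp

/-- Two points at outer layers `κ`, `κ'` in the same segment are at the same layer, in the same copy, and on the same path if `0 < κ < q`.

PROOF. If `κ ≠ κ'` then the segments differ by `lt_layer` (with `hull`). If the copies differ, one is `s κ` and the other `!s κ`, and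
`lt_copy` gives different segments. If the paths differ and `0 < κ < q`, `lt_path` gives different segments. -/
theorem Dbl.same_seg (h : Dbl x y a b q out f w s lo hi e) {κ κ' k k' : ℕ} (hκ : κ ≤ q) (hκ' : κ' ≤ q)
    (ho : out κ = true) (ho' : out κ' = true) (hk : k < q) (hkκ : k = κ ∨ k + 1 = κ) (hk' : k' < q)
    (hkκ' : k' = κ' ∨ k' + 1 = κ') {c c' i i' : Bool} (heq : a (x (e c i k)) = a (x (e c' i' k'))) :
    κ = κ' ∧ c = c' ∧ (0 < κ → κ < q → i = i') := by
  have e1 : κ = κ' := by
    by_contra hne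
    rcases h.hull κ hκ κ' hκ' hne with hlt | hlt
    · have := (h.lt_layer hκ hκ' ho ho' hlt hk hkκ hk' hkκ' c c' i i').1
      omega
    · have := (h.lt_layer hκ' hκ ho' ho hlt hk' hkκ' hk hkκ c' c i' i).1
      omega
  subst e1
  have e2 : c = c' := by
    by_contra hne
    by_cases hc : c = s κ
    · have hc' : c' = !s κ := by
        rw [← hc]
        exact D03_bool (fun h => hne h.symm)
      subst hc hc'
      have := (h.lt_copy hκ ho hk hkκ hk' hkκ' i i').1
      omega
    · have hc2 := D03_bool hc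
      have hc' : c' = s κ := by
        by_contra h1
        exact hne (hc2.trans (D03_bool h1).symm)
      subst hc2 hc'
      have := (h.lt_copy hκ ho hk' hkκ' hk hkκ i' i).1
      omega
  subst e2
  refine ⟨rfl, rfl, ?_⟩
  intro h0 hq
  by_contra hne
  by_cases hc : i = f κ
  · have hc' : i' = !f κ := by
      rw [← hc]
      exact D03_bool (fun h => hne h.symm)
    subst hc hc'
    have := (h.lt_path hκ ho hk hkκ hk' hkκ' c).1 h0 hq
    omega
  · have hc2 := D03_bool hc
    have hc' : i' = f κ := by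
      by_contra h1
      exact hne (hc2.trans (D03_bool h1).symm)
    subst hc2 hc'
    have := (h.lt_path hκ ho hk' hkκ' hk hkκ c).1 h0 hq
    omega

/-- The fibre of an inner vertex of an outer layer (`0 < κ < q`).

PROOF. `t = e c' i' k'`, take its outer layer `κ'` (`outer`); `same_seg` gives `κ' = κ`, `c' = c`, `i' = i`, so `k' = κ` or `k' = κ - 1`. -/
theorem Dbl.fibre_mid (h : Dbl x y a b q out f w s lo hi e) {κ : ℕ} (h0 : 0 < κ) (hκ : κ < q)
    (ho : out κ = true) (c i : Bool) :
    ∀ t ∈ TT q e, a (x t) = a (x (e c i κ)) → t = e c i κ ∨ t = e c i (κ - 1) := by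
  intro t ht heq
  obtain ⟨c', i', k', hk', rfl⟩ := mem_TT.mp ht
  obtain ⟨κ', hκ', ho', hkk⟩ := h.outer hk'
  obtain ⟨e1, e2, e3⟩ := h.same_seg hκ.le hκ' ho ho' hκ (Or.inl rfl) hk' hkk heq.symm
  have e4 := e3 h0 hκ
  subst e1 e2 e4
  rcases hkk with hkk | hkk
  · left; rw [hkk]
  · right
    have : k' = κ - 1 := by omega
    rw [this]

/-- The fibre at the first layer. PROOF. As before; `κ' = 0` gives `k' = 0`. -/
theorem Dbl.fibre_zero (h : Dbl x y a b q out f w s lo hi e) (ho : out 0 = true) (c i : Bool) :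
    ∀ t ∈ TT q e, a (x t) = a (x (e c i 0)) → t = e c i 0 ∨ t = e c (!i) 0 := by
  intro t ht heq
  have hq := h.hq
  obtain ⟨c', i', k', hk', rfl⟩ := mem_TT.mp ht
  obtain ⟨κ', hκ', ho', hkk⟩ := h.outer hk'
  obtain ⟨e1, e2, _⟩ := h.same_seg (Nat.zero_le q) hκ' ho ho' (by omega) (Or.inl rfl) hk' hkk heq.symm
  subst e1 e2
  have hk0 : k' = 0 := by omega
  subst hk0
  by_cases hi : i' = i
  · left; rw [hi]
  · right; rw [D03_bool hi]

/-- The fibre at the last layer. PROOF. As before; `κ' = q` and `k' < q` gives `k' = q - 1`. -/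
theorem Dbl.fibre_last (h : Dbl x y a b q out f w s lo hi e) (ho : out q = true) (c i : Bool) :
    ∀ t ∈ TT q e, a (x t) = a (x (e c i (q - 1))) → t = e c i (q - 1) ∨ t = e c (!i) (q - 1) := by
  intro t ht heq
  have hq := h.hq
  obtain ⟨c', i', k', hk', rfl⟩ := mem_TT.mp ht
  obtain ⟨κ', hκ', ho', hkk⟩ := h.outer hk'
  obtain ⟨e1, e2, _⟩ := h.same_seg (le_refl q) hκ' ho ho' (by omega) (Or.inr (by omega)) hk' hkk heq.symm
  subst e1 e2
  have hk0 : k' = q - 1 := by omega
  subst hk0
  by_cases hi : i' = i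
  · left; rw [hi]
  · right; rw [D03_bool hi]

private theorem D03_pair {T : Finset P} {v : ℕ} {p p' : P} (hp : p ∈ T) (hp' : p' ∈ T) (hne : x p ≠ x p')
    (h1 : a (x p) = v) (h2 : a (x p') = v) (h3 : ∀ t ∈ T, a (x t) = v → t = p ∨ t = p') :
    Even (T.filter (fun t => a (x t) = v)).card := by
  have e : T.filter (fun t => a (x t) = v) = {p, p'} := by
    ext t
    simp only [Finset.mem_filter, Finset.mem_insert, Finset.mem_singleton]
    constructor
    · rintro ⟨ht, hv⟩
      exact h3 t ht hv
    · rintro (rfl | rfl)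
      · exact ⟨hp, h1⟩
      · exact ⟨hp', h2⟩
  rw [e, Finset.card_pair (fun h => hne (congrArg x h))]
  exact even_two

/-- All fibres of the first order are even.

PROOF. If the fibre is nonempty it contains some `e c i k`; let `κ` be its outer layer. If `0 < κ < q` then (`seg`) the fibre is
`{e c i κ, e c i (κ - 1)}` (`fibre_mid`, `lt_w`), two different elements by `lt_w`. If `κ = 0` it is `{e c i 0, e c (!i) 0}` (`fibre_zero`, `seg0`),
different by `lt_path`. The same for `κ = q`. So its card is `2`. -/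
theorem Dbl.even_fibre (h : Dbl x y a b q out f w s lo hi e) (v : ℕ) :
    Even ((TT q e).filter (fun t => a (x t) = v)).card := by
  have hq := h.hq
  by_cases hemp : (TT q e).filter (fun t => a (x t) = v) = ∅
  · rw [hemp]; simp
  · obtain ⟨t, ht⟩ := Finset.nonempty_of_ne_empty hemp
    rw [Finset.mem_filter] at ht
    obtain ⟨ht, hv⟩ := ht
    obtain ⟨c, i, k, hk, rfl⟩ := mem_TT.mp ht
    obtain ⟨κ, hκ, ho, hkk⟩ := h.outer hk
    by_cases h0 : κ = 0
    · subst h0
      have hk0 : k = 0 := by omega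
      subst hk0
      have hne : x (e c i 0) ≠ x (e c (!i) 0) := by
        have h1 := (h.lt_path (Nat.zero_le q) ho hk (Or.inl rfl) hk (Or.inl rfl) c).2
        by_cases hi : i = f 0
        · rw [hi]; omega
        · rw [D03_bool hi, Bool.not_not]; omega
      have hseg : a (x (e c (!i) 0)) = v := by
        have h1 := h.seg0 c
        simp only [ls, ho, if_true] at h1
        rw [← hv]
        cases i
        · exact h1.symm
        · exact h1
      apply D03_pair ht (mem_TT.mpr ⟨c, !i, 0, hk, rfl⟩) hne hv hseg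
      intro t ht h1
      exact h.fibre_zero ho c i t ht (h1.trans hv.symm)
    · by_cases h1 : κ = q
      · subst h1
        have hk0 : k = κ - 1 := by omega
        subst hk0
        have hne : x (e c i (κ - 1)) ≠ x (e c (!i) (κ - 1)) := by
          have h1 := (h.lt_path (le_refl κ) ho hk (Or.inr (by omega)) hk (Or.inr (by omega)) c).2
          by_cases hi : i = f κ
          · rw [hi]; omega
          · rw [D03_bool hi, Bool.not_not]; omega
        have hseg : a (x (e c (!i) (κ - 1))) = v := by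
          have h1 := h.segq c
          simp only [ls, ho, if_true] at h1
          rw [← hv]
          cases i
          · exact h1.symm
          · exact h1
        apply D03_pair ht (mem_TT.mpr ⟨c, !i, κ - 1, hk, rfl⟩) hne hv hseg
        intro t ht h1
        exact h.fibre_last ho c i t ht (h1.trans hv.symm)
      · have hlt : κ < q := by omega
        obtain ⟨w1, w2, w3⟩ := h.lt_w (by omega) hlt ho c i
        have hv2 : a (x (e c i κ)) = v := by
          rcases hkk with hkk | hkk
          · rw [← hkk]; exact hv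
          · have : k = κ - 1 := by omega
            rw [← w1, ← this]; exact hv
        have hne : x (e c i κ) ≠ x (e c i (κ - 1)) := by
          cases hw : w κ with
          | true => have := w2 hw; omega
          | false => have := w3 hw; omega
        apply D03_pair (mem_TT.mpr ⟨c, i, κ, hlt, rfl⟩) (mem_TT.mpr ⟨c, i, κ - 1, by omega, rfl⟩) hne hv2
          (w1.trans hv2)
        intro t ht h1
        exact h.fibre_mid (by omega) hlt ho c i t ht (h1.trans hv2.symm)

end LC
end

section

/-! TASK P02 of MP_6bc8af_co. -/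

open Classical

namespace LC

private lemma P02_ch {Z : Type} {Z' : Type} {S : Set Z} {S' : Set Z'} {x : Z} {y : Z'} (h : x ∈ S ↔ y ∈ S') :
    ch S x = ch S' y := by
  unfold ch
  by_cases hx : x ∈ S
  · rw [if_pos hx, if_pos (h.1 hx)]
  · rw [if_neg hx, if_neg fun hy => hx (h.2 hy)]

private lemma P02_zero {Z : Type} {S : Set Z} {x : Z} (h : x ∉ S) : ch S x = 0 := if_neg h

private lemma P02_iff {Z : Type} {S : Set Z} {x y : Z} (h : ch S x + ch S y = 0) : x ∈ S ↔ y ∈ S := by
  unfold ch at h
  by_cases hx : x ∈ S <;> by_cases hy : y ∈ S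
  · exact iff_of_true hx hy
  · rw [if_pos hx, if_neg hy] at h
    exact absurd h (by decide)
  · rw [if_neg hx, if_pos hy] at h
    exact absurd h (by decide)
  · exact iff_of_false hx hy

private lemma P02_two (a : ZMod 2) : a + a = 0 := CharTwo.add_self_eq_zero a

/-- The six free points of the open chain: an even number of them is in a closed set.

PROOF. Write `S_b = {y | (y, b) ∈ S}`, closed under `A` and `B` (from `Cab`). Add the equations `end_parity` for `S_false` and `S_true`:
with `t j = ch S (Lf j, false) + ch S (Rt j, false) + ch S (Lf j, true) + ch S (Rt j, true)` we have `∑ j < n, t j = 0` (in `ZMod 2`).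
For `r < j < n`: `t j = 0` (`Lf j, b` and `Rt j, b` have the same indicator). For `j < r`: `t j = ch S (Lf j, s j) + ch S (Rt j, !s j)`,
since `(Rt j, s j)` and `(Lf j, !s j)` have the same indicator (reorder the two copies according to `s j`). Hence
`∑ j < r, t j = ch S (Lf 0, s 0) + ch S (Rt (r - 1), !s (r - 1))`, since `ch S (Rt j, !s j) = ch S (Lf (j + 1), s (j + 1))` for
`j + 1 < r` (induction on the number of windows: for `1 ≤ r' ≤ r`, `∑ j < r', t j = ch S (Lf 0, s 0) + ch S (Rt (r' - 1), !s (r' - 1))`).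
What remains is the claimed identity. -/
theorem six_parity {Y : Type} [Fintype Y] {n : ℕ} {A B : Y → Y} {Lf Rt : ℕ → Y} (T : Tangle n A B Lf Rt)
    {s : ℕ → Bool} {r : ℕ} (h0 : 0 < r) (hr : r < n) {S : Set (Y × Bool)} (hS : Zc n A B Lf Rt s r S) :
    ch S (Rt (r - 1), !s (r - 1)) + ch S (Lf 0, s 0) + ch S (Lf r, false) + ch S (Rt r, false) +
      ch S (Lf r, true) + ch S (Rt r, true) = 0 := by
  obtain ⟨⟨hA, hB⟩, h1, h2, h3⟩ := hS
  have par : ∀ b, ∑ j ∈ Finset.range n, (ch S (Lf j, b) + ch S (Rt j, b)) = 0 := by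
    intro b
    have := end_parity T {y | (y, b) ∈ S} (fun y hy => hA y b hy) (fun y hy => hB y b hy)
    rw [← this]
    refine Finset.sum_congr rfl fun j _ => ?_
    rw [P02_ch (S := S) (S' := {y | (y, b) ∈ S}) (x := (Lf j, b)) (y := Lf j) Iff.rfl,
      P02_ch (S := S) (S' := {y | (y, b) ∈ S}) (x := (Rt j, b)) (y := Rt j) Iff.rfl]
  set t : ℕ → ZMod 2 := fun j => ch S (Lf j, false) + ch S (Rt j, false) + ch S (Lf j, true) +
    ch S (Rt j, true) with ht
  have ht1 : ∑ j ∈ Finset.range n, t j = 0 := by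
    have := congrArg₂ (· + ·) (par false) (par true)
    simp only [← Finset.sum_add_distrib, add_zero] at this
    rw [← this]
    refine Finset.sum_congr rfl fun j _ => ?_
    simp only [ht]
    ring
  have ht2 : ∀ j < r, t j = ch S (Lf j, s j) + ch S (Rt j, !s j) := by
    intro j hj
    have e := P02_ch (h1 j hj)
    have e2 := P02_two (ch S (Lf j, !s j))
    simp only [ht]
    cases hs : s j
    · rw [hs] at e e2
      simp only [Bool.not_false] at e e2 ⊢
      rw [e]
      linear_combination e2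
    · rw [hs] at e e2
      simp only [Bool.not_true] at e e2 ⊢
      rw [e]
      linear_combination e2
  have ht3 : ∀ j, r < j → j < n → t j = 0 := by
    intro j hj hjn
    have e1 := P02_ch (h3 j hj hjn false)
    have e2 := P02_ch (h3 j hj hjn true)
    simp only [ht]
    rw [e1, e2]
    linear_combination P02_two (ch S (Rt j, false)) + P02_two (ch S (Rt j, true))
  have ht4 : ∀ k, k + 1 ≤ r → ∑ j ∈ Finset.range (k + 1), t j =
      ch S (Lf 0, s 0) + ch S (Rt k, !s k) := by
    intro k
    induction k with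
    | zero =>
      intro hk
      simp only [zero_add, Finset.range_one, Finset.sum_singleton]
      exact ht2 0 (by omega)
    | succ k ih =>
      intro hk
      rw [Finset.sum_range_succ, ih (by omega), ht2 (k + 1) (by omega)]
      have e := P02_ch (h2 k (by omega))
      rw [e]
      linear_combination P02_two (ch S (Lf (k + 1), s (k + 1)))
  have ht5 : ∀ m, r + 1 + m ≤ n → ∑ j ∈ Finset.range (r + 1 + m), t j =
      ∑ j ∈ Finset.range (r + 1), t j := by
    intro m
    induction m with
    | zero => intro _; rfl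
    | succ m ih =>
      intro hm
      rw [← add_assoc, Finset.sum_range_succ, ih (by omega), ht3 _ (by omega) (by omega), add_zero]
  have ht6 := ht5 (n - (r + 1)) (by omega)
  rw [show r + 1 + (n - (r + 1)) = n by omega, ht1, Finset.sum_range_succ] at ht6
  have ht7 := ht4 (r - 1) (by omega)
  rw [show r - 1 + 1 = r by omega] at ht7
  rw [ht7] at ht6
  simp only [ht] at ht6
  linear_combination -ht6

/-- In one copy: if no end of the windows `< r` is in the set and the windows `> r` are bypassed then both ends of window `r`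
or none are in the set.

PROOF. `end_parity` for `W`: the terms with `j < r` vanish, those with `r < j < n` are `ch W (Lf j) + ch W (Rt j) = 0` (equal
indicators), so `ch W (Lf r) + ch W (Rt r) = 0`. -/
theorem copy_parity {Y : Type} [Fintype Y] {n : ℕ} {A B : Y → Y} {Lf Rt : ℕ → Y} (T : Tangle n A B Lf Rt)
    {r : ℕ} (hr : r < n) {W : Set Y} (hA : ∀ y ∈ W, A y ∈ W) (hB : ∀ y ∈ W, B y ∈ W)
    (h1 : ∀ j < r, Lf j ∉ W ∧ Rt j ∉ W) (h2 : ∀ j, r < j → j < n → (Lf j ∈ W ↔ Rt j ∈ W)) :
    Lf r ∈ W ↔ Rt r ∈ W := by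
  apply P02_iff
  have h := end_parity T W hA hB
  rw [Finset.sum_eq_single r] at h
  · exact h
  · intro j hj hne
    rw [Finset.mem_range] at hj
    rcases lt_or_gt_of_ne hne with hlt | hgt
    · rw [P02_zero (h1 j hlt).1, P02_zero (h1 j hlt).2, add_zero]
    · rw [P02_ch (h2 j hgt hj)]
      exact P02_two _
  · intro hn
    exact absurd (Finset.mem_range.2 hr) hn

end LC
end

section

/-! TASK P03 of MP_6bc8af_co. -/

open Classical

namespace LC

/-- Activation of a transparent window.

PROOF. Put `s' = Function.update s r x` and let `S` be closed for `s'` at stage `r + 1`. (`s' j = s j` for `j < r`, `s' r = x`.)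
(1) For each `b`: `(Lf r, b) ∈ S ↔ (Rt r, b) ∈ S`. Proof: the set `W' = {y | y ∈ W ∧ (y, b) ∈ S}` is closed under `A`, `B`, contains no end
of a window `< r`, and is bypassed at the windows `> r` (`r + 1 ≤ j`: for `j = r + 1` use the second clause of `Cl`, for `j > r + 1` the
last clause of `Zc`). By `copy_parity`, `Lf r ∈ W' ↔ Rt r ∈ W'`; also `Rt r ∈ W` by `copy_parity` for `W`.
(2) `Zc` at stage `r + 1` gives at `j = r`: `(Rt r, x) ∈ S ↔ (Lf r, !x) ∈ S`; the chain clause for `j = r - 1` (`j + 1 = r < r + 1`):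
`(Rt (r - 1), !s (r - 1)) ∈ S ↔ (Lf r, x) ∈ S`; closing: `(Rt r, !x) ∈ S ↔ (Lf 0, s 0) ∈ S` (`s' 0 = s 0` as `0 < r`). With (1) the six
memberships of `(Rt (r - 1), !s (r - 1))`, `(Lf r, x)`, `(Rt r, x)`, `(Lf r, !x)`, `(Rt r, !x)`, `(Lf 0, s 0)` are equivalent.
(3) So `S` is closed at stage `r` for `s` (all clauses), and by `hI` it contains all or none of the ends of the windows `< r`, in particular
`(Lf 0, s 0)` is in `S` in the first case and not in the second case; with (2) the same holds for the ends of window `r`. -/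
theorem step_transparent {Y : Type} [Fintype Y] {n : ℕ} {A B : Y → Y} {Lf Rt : ℕ → Y}
    (T : Tangle n A B Lf Rt) {s : ℕ → Bool} {r : ℕ} (h0 : 0 < r) (hr : r < n) (hI : Inv n A B Lf Rt s r)
    {W : Set Y} (hW : Transp n A B Lf Rt r W) (x : Bool) :
    Inv n A B Lf Rt (Function.update s r x) (r + 1) := by
  intro S hS
  obtain ⟨⟨hab, hz1, hz2, hz3⟩, hc1, hc2⟩ := hS
  obtain ⟨hWA, hWB, hW1, hW2, hWr⟩ := hW
  have hs : ∀ j < r, Function.update s r x j = s j := fun j hj =>
    Function.update_of_ne (by omega) _ _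
  have hsr : Function.update s r x r = x := Function.update_self _ _ _
  have hbyp : ∀ j, r < j → j < n → ∀ b, ((Lf j, b) ∈ S ↔ (Rt j, b) ∈ S) := by
    intro j hj hjn b
    rcases Nat.lt_or_ge (r + 1) j with h | h
    · exact hz3 j h hjn b
    · have h' : j = r + 1 := by omega
      subst h'
      exact hc1 hjn b
  have hRW : Rt r ∈ W := (copy_parity T hr hWA hWB hW1 hW2).1 hWr
  have h1 : ∀ b, ((Lf r, b) ∈ S ↔ (Rt r, b) ∈ S) := by
    intro b
    have h := copy_parity T hr (W := {y | y ∈ W ∧ (y, b) ∈ S})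
      (fun y hy => ⟨hWA y hy.1, hab.1 y b hy.2⟩) (fun y hy => ⟨hWB y hy.1, hab.2 y b hy.2⟩)
      (fun j hj => ⟨fun hy => (hW1 j hj).1 hy.1, fun hy => (hW1 j hj).2 hy.1⟩)
      (fun j hj hjn => by
        change (Lf j ∈ W ∧ (Lf j, b) ∈ S) ↔ (Rt j ∈ W ∧ (Rt j, b) ∈ S)
        rw [hW2 j hj hjn, hbyp j hj hjn b])
    constructor
    · intro hl
      exact (h.1 ⟨hWr, hl⟩).2
    · intro hl
      exact (h.2 ⟨hRW, hl⟩).2
  have e1 := hz1 r (Nat.lt_succ_self r)
  rw [hsr] at e1
  have e2 := hz2 (r - 1) (by omega)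
  rw [hs (r - 1) (by omega), Nat.sub_add_cancel h0, hsr] at e2
  have e3 := hc2 (Nat.succ_pos r)
  rw [Nat.add_sub_cancel, hsr, hs 0 h0] at e3
  have hCl : Cl n A B Lf Rt s r S := by
    refine ⟨⟨hab, ?_, ?_, hbyp⟩, fun _ => h1, ?_⟩
    · intro j hj
      have := hz1 j (by omega)
      rwa [hs j hj] at this
    · intro j hj
      have := hz2 j (by omega)
      rwa [hs j (by omega), hs (j + 1) hj] at this
    · intro _
      rw [e2, h1 x, e1, h1 (!x), e3]
  have hxb : ∀ b : Bool, b = x ∨ b = !x := by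
    intro b
    cases b <;> cases x <;> simp
  rcases hI S hCl with hI | hI
  · left
    have h00 : (Lf 0, s 0) ∈ S := (hI 0 h0 (s 0)).1
    have m1 : (Rt r, !x) ∈ S := e3.2 h00
    have m2 : (Lf r, !x) ∈ S := (h1 _).2 m1
    have m3 : (Rt r, x) ∈ S := e1.2 m2
    have m4 : (Lf r, x) ∈ S := (h1 _).2 m3
    intro j hj b
    rcases Nat.lt_or_ge j r with h | h
    · exact hI j h b
    · have h' : j = r := by omega
      subst h'
      rcases hxb b with rfl | rfl
      · exact ⟨m4, m3⟩
      · exact ⟨m2, m1⟩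
  · right
    have h00 : (Lf 0, s 0) ∉ S := (hI 0 h0 (s 0)).1
    have m1 : (Rt r, !x) ∉ S := fun h => h00 (e3.1 h)
    have m2 : (Lf r, !x) ∉ S := fun h => m1 ((h1 _).1 h)
    have m3 : (Rt r, x) ∉ S := fun h => m2 (e1.1 h)
    have m4 : (Lf r, x) ∉ S := fun h => m3 ((h1 _).1 h)
    intro j hj b
    rcases Nat.lt_or_ge j r with h | h
    · exact hI j h b
    · have h' : j = r := by omega
      subst h'
      rcases hxb b with rfl | rfl
      · exact ⟨m4, m3⟩
      · exact ⟨m2, m1⟩

/-- Activation of the first window.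

PROOF. Let `S` be closed at stage `1` for `s`. For each `b` the set `W = {y | (y, b) ∈ S}` satisfies the hypotheses of `copy_parity` with
`r = 0` (closed under `A`, `B`; bypassed at `1` by the second clause of `Cl` if `1 < n`, at `j > 1` by `Zc`), so
`(Lf 0, b) ∈ S ↔ (Rt 0, b) ∈ S`. `Zc` at `j = 0`: `(Rt 0, s 0) ∈ S ↔ (Lf 0, !s 0) ∈ S`. So the four ends of window `0` are all in `S` or
all outside (cases on `s 0` and `b`). -/
theorem step_first {Y : Type} [Fintype Y] {n : ℕ} {A B : Y → Y} {Lf Rt : ℕ → Y}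
    (T : Tangle n A B Lf Rt) (s : ℕ → Bool) : Inv n A B Lf Rt s 1 := by
  intro S hS
  obtain ⟨⟨hab, hz1, hz2, hz3⟩, hc1, hc2⟩ := hS
  have h1 : ∀ b, ((Lf 0, b) ∈ S ↔ (Rt 0, b) ∈ S) := by
    intro b
    refine copy_parity T T.pos (W := {y | (y, b) ∈ S}) (fun y hy => hab.1 y b hy)
      (fun y hy => hab.2 y b hy) (fun j hj => absurd hj (Nat.not_lt_zero j)) ?_
    intro j hj hjn
    rcases Nat.lt_or_ge 1 j with h | h
    · exact hz3 j h hjn b
    · have h' : j = 1 := by omega
      subst h'
      exact hc1 hjn b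
  have e1 := hz1 0 Nat.one_pos
  have hxb : ∀ b : Bool, b = s 0 ∨ b = !(s 0) := by
    intro b
    cases b <;> cases s 0 <;> simp
  by_cases h00 : (Lf 0, s 0) ∈ S
  · left
    have m1 : (Rt 0, s 0) ∈ S := (h1 _).1 h00
    have m2 : (Lf 0, !(s 0)) ∈ S := e1.1 m1
    have m3 : (Rt 0, !(s 0)) ∈ S := (h1 _).1 m2
    intro j hj b
    have h' : j = 0 := by omega
    subst h'
    rcases hxb b with rfl | rfl
    · exact ⟨h00, m1⟩
    · exact ⟨m2, m3⟩
  · right
    have m1 : (Rt 0, s 0) ∉ S := fun h => h00 ((h1 _).2 h)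
    have m2 : (Lf 0, !(s 0)) ∉ S := fun h => m1 (e1.2 h)
    have m3 : (Rt 0, !(s 0)) ∉ S := fun h => m2 ((h1 _).2 h)
    intro j hj b
    have h' : j = 0 := by omega
    subst h'
    rcases hxb b with rfl | rfl
    · exact ⟨h00, m1⟩
    · exact ⟨m2, m3⟩

end LC
end
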