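import Pool.Agent.Lib.MP_6bc8af_co.Mg.G021
import Pool.Agent.Lib.MP_6bc8af_co.Mg.G018
import Pool.Agent.Lib.MP_6bc8af_co.Mg.G001

section

/-! TASK S02 of MP_6bc8af_co. -/

namespace LC

/-- PROOF. Unfold; `κ ≤ q`, `2 ≤ q`. -/
theorem eLR_lt {q : ℕ} {f w : ℕ → Bool} (hq : 2 ≤ q) (κ : ℕ) (hκ : κ ≤ q) :
    (eL q f w κ).2 < q ∧ (eR q f w κ).2 < q := by
  unfold eL eR
  constructor
  · simp only
    split_ifs <;> omega
  · simp only
    split_ifs <;> omega

private theorem S02_snd {q : ℕ} {f w : ℕ → Bool} (κ : ℕ) :
    (κ - 1 ≤ (eL q f w κ).2 ∧ (eL q f w κ).2 ≤ κ) ∧ (κ - 1 ≤ (eR q f w κ).2 ∧ (eR q f w κ).2 ≤ κ) := by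
  unfold eL eR
  refine ⟨⟨?_, ?_⟩, ?_, ?_⟩ <;> simp only <;> split_ifs <;> omega

private theorem S02_far {q : ℕ} {out : ℕ → Bool} (halt : ∀ k < q, out (k + 1) = !out k) (κ κ' m m' : ℕ)
    (hκ : κ ≤ q) (hκ' : κ' ≤ q) (ho : out κ = true) (ho' : out κ' = true) (h1 : κ - 1 ≤ m) (h2 : m ≤ κ)
    (h1' : κ' - 1 ≤ m') (h2' : m' ≤ κ') (h : m = m') : κ = κ' := by
  rcases lt_trichotomy κ κ' with hlt | heq | hlt
  · exfalso
    have h3 : κ' = κ + 1 := by omega
    have h4 := halt κ (by omega)
    rw [← h3, ho, ho'] at h4
    simp at h4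
  · exact heq
  · exfalso
    have h3 : κ = κ' + 1 := by omega
    have h4 := halt κ' (by omega)
    rw [← h3, ho, ho'] at h4
    simp at h4

/-- Ends of different outer layers are different.

PROOF. Two different outer layers differ by at least `2`: if `κ' = κ + 1 ≤ q` then `out κ' = !out κ`. The second coordinate of
`eL κ`, `eR κ` is `κ` or `κ - 1` (`κ > 0`; it is `0` for `κ = 0`). So if an end of `κ` equals an end of `κ'` with `κ < κ'`, then
`κ' - 1 ≤ κ`, `κ' = κ + 1`: impossible. So `κ = κ'`; and `eL κ ≠ eR κ` by the first coordinates. -/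
theorem eLR_inj {q : ℕ} {out f w : ℕ → Bool} (hq : 2 ≤ q) (halt : ∀ k < q, out (k + 1) = !out k) (κ κ' : ℕ)
    (hκ : κ ≤ q) (hκ' : κ' ≤ q) (ho : out κ = true) (ho' : out κ' = true) :
    (eL q f w κ = eL q f w κ' → κ = κ') ∧ (eR q f w κ = eR q f w κ' → κ = κ') ∧
      eL q f w κ ≠ eR q f w κ' := by
  have a := S02_snd (q := q) (f := f) (w := w) κ
  have b := S02_snd (q := q) (f := f) (w := w) κ'
  refine ⟨fun h => ?_, fun h => ?_, fun h => ?_⟩
  · exact S02_far halt κ κ' _ _ hκ hκ' ho ho' a.1.1 a.1.2 b.1.1 b.1.2 (congrArg Prod.snd h)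
  · exact S02_far halt κ κ' _ _ hκ hκ' ho ho' a.2.1 a.2.2 b.2.1 b.2.2 (congrArg Prod.snd h)
  · have e := S02_far halt κ κ' _ _ hκ hκ' ho ho' a.1.1 a.1.2 b.2.1 b.2.2 (congrArg Prod.snd h)
    subst e
    have := congrArg Prod.fst h
    simp [eL, eR] at this

/-- A nonempty closed set of points contains an end.

PROOF. Take `(i, k) ∈ S`, `k < q`, with `k` maximal. Suppose that `S` contains no end of an outer layer.
Case `out (k + 1)`, `k + 1 = q`: `(i, k)` is an end of layer `q`. Case `out (k + 1)`, `k + 1 < q` (so `out k` is false): `SB (i, k)` is `(i, k)`, an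
end (`SB_fix`, or directly: with `κ = k + 1`, `(i, κ - 1)` is `eL κ` if `w κ` and `i = f κ`, `eR κ` if not `w κ` and `i = !f κ`), or it is
`(!i, k + 1) ∈ S`, contradicting the maximality of `k`. Case not `out (k + 1)` (so `out k`), `k + 1 < q`: `SA (i, k) = (i, k + 1) ∈ S`, contradiction.
Case not `out (k + 1)`, `k + 1 = q`: `out k`, `k = q - 1 ≥ 1`, and `SA (i, k) = (!i, k) ∈ S`, so both points `(false, k)`, `(true, k)` are in `S`; but one
of them is an end of the layer `κ = k`, `0 < κ < q`: `(!f κ, κ) = eR κ` if `w κ`, and `(f κ, κ) = eL κ` if not `w κ`. -/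
theorem strip_closed {q : ℕ} {out f w : ℕ → Bool} (hq : 2 ≤ q) (halt : ∀ k < q, out (k + 1) = !out k)
    (S : Set (Bool × ℕ)) (hne : ∃ z ∈ S, z.2 < q) (hA : ∀ z ∈ S, z.2 < q → SA q out z ∈ S)
    (hB : ∀ z ∈ S, z.2 < q → SB q out f w z ∈ S) :
    ∃ κ ≤ q, out κ = true ∧ (eL q f w κ ∈ S ∨ eR q f w κ ∈ S) := by
  have key : ∀ m : ℕ, ∀ i k, (i, k) ∈ S → k < q → q - k = m →
      ∃ κ ≤ q, out κ = true ∧ (eL q f w κ ∈ S ∨ eR q f w κ ∈ S) := by
    intro m
    induction m using Nat.strong_induction_on with
    | _ m ih =>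
      intro i k hik hk hm
      cases ho : out (k + 1) with
      | true =>
        have hok : out k = false := by
          have h := halt k hk
          rw [ho] at h
          cases h2 : out k with
          | true => rw [h2] at h; simp at h
          | false => rfl
        have h0 : k + 1 ≠ 0 := by omega
        by_cases hkq : k + 1 = q
        · refine ⟨k + 1, by omega, ho, ?_⟩
          unfold eL eR
          rw [if_neg h0, if_neg h0, if_pos hkq, if_pos hkq]
          have h1 : q - 1 = k := by omega
          rw [h1]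
          by_cases hif : i = f (k + 1)
          · left; rw [← hif]; exact hik
          · right
            have : (!f (k + 1)) = i := by
              revert hif
              cases i <;> cases f (k + 1) <;> simp
            rw [this]; exact hik
        · by_cases h1 : (i == f (k + 1)) = w (k + 1)
          · refine ⟨k + 1, by omega, ho, ?_⟩
            unfold eL eR
            rw [if_neg h0, if_neg h0, if_neg hkq, if_neg hkq]
            cases hw : w (k + 1) with
            | true =>
              left
              rw [hw] at h1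
              have : i = f (k + 1) := by simpa using h1
              simp only [if_true, Nat.add_sub_cancel]
              rw [← this]; exact hik
            | false =>
              right
              rw [hw] at h1
              have : (!f (k + 1)) = i := by
                revert h1
                cases i <;> cases f (k + 1) <;> simp
              simp only [Bool.false_eq_true, if_false, Nat.add_sub_cancel]
              rw [this]; exact hik
          · have e : SB q out f w (i, k) = (!i, k + 1) := by
              unfold SB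
              simp only [hok, Bool.false_eq_true, if_false]
              rw [if_neg hkq, if_neg h1]
            have h2 := hB (i, k) hik hk
            rw [e] at h2
            exact ih (q - (k + 1)) (by omega) (!i) (k + 1) h2 (by omega) rfl
      | false =>
        have hok : out k = true := by
          have h := halt k hk
          rw [ho] at h
          cases h2 : out k with
          | true => rfl
          | false => rw [h2] at h; simp at h
        by_cases hkq : k + 1 = q
        · have e : SA q out (i, k) = (!i, k) := by simp [SA, hok, hkq]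
          have h2 := hA (i, k) hik hk
          rw [e] at h2
          have h3 : ∀ b : Bool, (b, k) ∈ S := by
            intro b
            by_cases hb : b = i
            · rw [hb]; exact hik
            · have : b = !i := by
                revert hb
                cases b <;> cases i <;> simp
              rw [this]; exact h2
          refine ⟨k, hk.le, hok, ?_⟩
          have h0 : k ≠ 0 := by omega
          have h1 : k ≠ q := by omega
          unfold eL eR
          rw [if_neg h0, if_neg h0, if_neg h1, if_neg h1]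
          cases hw : w k with
          | true => right; exact h3 _
          | false => left; exact h3 _
        · have e : SA q out (i, k) = (i, k + 1) := by simp [SA, hok, hkq]
          have h2 := hA (i, k) hik hk
          rw [e] at h2
          exact ih (q - (k + 1)) (by omega) i (k + 1) h2 (by omega) rfl
  obtain ⟨⟨i, k⟩, hz, hk⟩ := hne
  exact key _ i k hz hk rfl

end LC
end

section

/-! TASK D08 of MP_6bc8af_co. -/

open Classical

namespace LC

/-- the graph of segments: first order segments are `0, ..., M - 1`, second order segments are `M + b` -/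
def HH {P : Type} (x y : P → ℕ) (a b : ℕ → ℕ) (M : ℕ) (u v : ℕ) : Prop :=
  ∃ p, (u = a (x p) ∧ v = M + b (y p)) ∨ (v = a (x p) ∧ u = M + b (y p))

/-- the path joining two segments -/
noncomputable def ed {P : Type} [Nonempty P] (x y : P → ℕ) (a b : ℕ → ℕ) (M : ℕ) (u v : ℕ) : P :=
  if h : HH x y a b M u v then h.choose else Classical.arbitrary P

/-- the order of the edges `u v` and `v w` in the segment `v` -/
noncomputable def omH {P : Type} [Nonempty P] (x y : P → ℕ) (a b : ℕ → ℕ) (M : ℕ) (u v w : ℕ) : Bool :=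
  decide ((if v < M then x (ed x y a b M u v) else y (ed x y a b M u v)) <
    (if v < M then x (ed x y a b M v w) else y (ed x y a b M v w)))

/-- The path joining two segments.

PROOF. `u < M` excludes `u = M + b (y p)`, so the chosen path satisfies the first alternative. The second statement: the other way round
(`M ≤ u`: `u = a (x p) < M` is impossible). -/
theorem ed_spec {P : Type} [Nonempty P] {x y : P → ℕ} {a b : ℕ → ℕ} {M : ℕ} (ha : ∀ p, a (x p) < M)
    {u v : ℕ} (h : HH x y a b M u v) :
    (u < M → a (x (ed x y a b M u v)) = u ∧ M + b (y (ed x y a b M u v)) = v) ∧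
    (M ≤ u → a (x (ed x y a b M u v)) = v ∧ M + b (y (ed x y a b M u v)) = u) := by
  have he : ed x y a b M u v = h.choose := by
    unfold ed
    rw [dif_pos h]
  have hs := h.choose_spec
  rw [he]
  have h0 := ha h.choose
  constructor
  · intro hu
    rcases hs with ⟨h1, h2⟩ | ⟨h1, h2⟩
    · exact ⟨h1.symm, h2.symm⟩
    · omega
  · intro hu
    rcases hs with ⟨h1, h2⟩ | ⟨h1, h2⟩
    · omega
    · exact ⟨h1.symm, h2.symm⟩

private theorem D08_symm {P : Type} {x y : P → ℕ} {a b : ℕ → ℕ} {M u v : ℕ}
    (h : HH x y a b M u v) : HH x y a b M v u := by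
  obtain ⟨p, h1 | h1⟩ := h
  · exact ⟨p, Or.inr h1⟩
  · exact ⟨p, Or.inl h1⟩

/-- PROOF. By `ed_spec` both paths have the same pair of segments (`HH` is symmetric; exactly one of `u`, `v` is `< M`). -/
theorem ed_symm {P : Type} [Nonempty P] {x y : P → ℕ} {a b : ℕ → ℕ} {M : ℕ} (ha : ∀ p, a (x p) < M)
    (hinj : ∀ p p', a (x p) = a (x p') → b (y p) = b (y p') → p = p')
    {u v : ℕ} (h : HH x y a b M u v) : ed x y a b M u v = ed x y a b M v u := by
  have h1 := ed_spec ha h
  have h2 := ed_spec ha (D08_symm h)
  have h3 := ha (ed x y a b M u v)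
  have h4 := ha (ed x y a b M v u)
  rcases lt_or_ge u M with hu | hu
  · obtain ⟨h5, h6⟩ := h1.1 hu
    obtain ⟨h7, h8⟩ := h2.2 (by omega)
    exact hinj _ _ (by omega) (by omega)
  · obtain ⟨h5, h6⟩ := h1.2 hu
    obtain ⟨h7, h8⟩ := h2.1 (by omega)
    exact hinj _ _ (by omega) (by omega)

/-- The order is antisymmetric.

PROOF. Let `F = x` if `v < M` and `F = y` otherwise, `p = ed u v = ed v u`, `p' = ed v w = ed w v` (`ed_symm`). `omH u v w = decide (F p < F p')` and
`omH w v u = decide (F p' < F p)`. `p ≠ p'` since their other segments `u`, `w` are different (`ed_spec`), so `F p ≠ F p'` by injectivity. -/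
theorem omH_antisymm {P : Type} [Nonempty P] {x y : P → ℕ} {a b : ℕ → ℕ} {M : ℕ} (ha : ∀ p, a (x p) < M)
    (hx : Function.Injective x) (hy : Function.Injective y)
    (hinj : ∀ p p', a (x p) = a (x p') → b (y p) = b (y p') → p = p')
    {u v w : ℕ} (h : HH x y a b M v u) (h' : HH x y a b M v w) (hne : u ≠ w) :
    omH x y a b M u v w = !omH x y a b M w v u := by
  have e1 : ed x y a b M u v = ed x y a b M v u := ed_symm ha hinj (D08_symm h)
  have e2 : ed x y a b M w v = ed x y a b M v w := ed_symm ha hinj (D08_symm h')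
  have hp : ed x y a b M v u ≠ ed x y a b M v w := by
    intro hp
    have h1 := ed_spec ha h
    have h2 := ed_spec ha h'
    rw [← hp] at h2
    rcases lt_or_ge v M with hv | hv
    · have h3 := (h1.1 hv).2
      have h4 := (h2.1 hv).2
      omega
    · have h3 := (h1.2 hv).1
      have h4 := (h2.2 hv).1
      omega
  unfold omH
  rw [e1, e2]
  by_cases hv : v < M
  · simp only [hv, if_true]
    have hne' : x (ed x y a b M v u) ≠ x (ed x y a b M v w) := fun hh => hp (hx hh)
    rcases lt_or_gt_of_ne hne' with h1 | h1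
    · simp [h1, h1.le]
    · simp [h1, h1.le]
  · simp only [hv, if_false]
    have hne' : y (ed x y a b M v u) ≠ y (ed x y a b M v w) := fun hh => hp (hy hh)
    rcases lt_or_gt_of_ne hne' with h1 | h1
    · simp [h1, h1.le]
    · simp [h1, h1.le]

/-- From walks in the graph of segments to a strip.

PROOF. `e i k = ed (v i k) (v i (k + 1))`. By `hv.hside`, `v i κ < M` iff `out κ = true`. Let `b' n = M + b n`. By `ed_spec`, for `k < q` the path `e i k`
has the segment `v i k` at the layer `k` and `v i (k + 1)` at the layer `k + 1`: `ls out x y a b' k (e i k) = v i k` and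
`ls out x y a b' (k + 1) (e i k) = v i (k + 1)` (exactly one of `k`, `k + 1` is outer, `halt`). So `seg`, `seg0`, `segq`, `hf`, `cell` are immediate from `zero`,
`last`, `ord`, `cell`. `hw`: `lx out x y κ` is `x` if `v i κ < M`, `y` otherwise, and `omH (v i (κ - 1)) (v i κ) (v i (κ + 1)) = w κ` is the definition
(with `κ - 1 + 1 = κ`). `hf0`: `omH (v (f 0) 1) (v (f 0) 0) (v (!f 0) 1) = true` says that `ed (v (f 0) 1) (v (f 0) 0)` precedes `ed (v (f 0) 0) (v (!f 0) 1)`;
by `ed_symm` the first is `e (f 0) 0`, and the second is `e (!f 0) 0` since `v (f 0) 0 = v (!f 0) 0` (`zero`). `hfq`: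
`ed (v (f q) (q - 1)) (v (f q) q) = e (f q) (q - 1)` and `ed (v (f q) q) (v (!f q) (q - 1)) = e (!f q) (q - 1)` by `ed_symm` and `last`. -/
theorem strip_of_walks {P : Type} [Nonempty P] {x y : P → ℕ} {a b : ℕ → ℕ} {M : ℕ} (ha : ∀ p, a (x p) < M)
    (hinj : ∀ p p', a (x p) = a (x p') → b (y p) = b (y p') → p = p')
    {q : ℕ} {out f w : ℕ → Bool} {lo hi : ℕ → Bool → ℕ} {u : ℕ → Bool} {v : Bool → ℕ → ℕ} (hq : 2 ≤ q)
    (halt : ∀ k < q, out (k + 1) = !out k)
    (hv : Walks (HH x y a b M) (fun n => decide (n < M)) (omH x y a b M) q out f w lo hi u v) :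
    Strip x y a (fun n => M + b n) q out f w lo hi u
      (fun i k => ed x y a b M (v i k) (v i (k + 1))) := by
  have hA : ∀ i κ, κ ≤ q → (out κ = true ↔ v i κ < M) := by
    intro i κ hκ
    rw [← hv.hside i κ hκ]
    simp
  have hB : ∀ i k, k < q →
      ls out x y a (fun n => M + b n) k (ed x y a b M (v i k) (v i (k + 1))) = v i k ∧
      ls out x y a (fun n => M + b n) (k + 1) (ed x y a b M (v i k) (v i (k + 1))) = v i (k + 1) := by
    intro i k hk
    have h1 := ed_spec ha (hv.adj i k hk)
    have h2 := hA i k hk.le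
    have h3 := halt k hk
    unfold ls
    rcases hb : out k with _ | _
    · have h4 : ¬ v i k < M := fun h5 => by
        have := h2.mpr h5
        rw [hb] at this
        exact Bool.false_ne_true this
      have h5 := h1.2 (not_lt.mp h4)
      rw [hb] at h3
      simp only [h3, Bool.not_false, if_true]
      exact ⟨h5.2, h5.1⟩
    · have h4 := h2.mp hb
      have h5 := h1.1 h4
      rw [hb] at h3
      simp only [h3, Bool.not_true, if_true]
      exact ⟨h5.1, h5.2⟩
  have hB' : ∀ i κ, 0 < κ → κ ≤ q →
      ls out x y a (fun n => M + b n) κ (ed x y a b M (v i (κ - 1)) (v i (κ - 1 + 1))) = v i κ := by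
    intro i κ h1 h2
    have h3 := (hB i (κ - 1) (by omega)).2
    have h4 : κ - 1 + 1 = κ := by omega
    rw [h4] at h3 ⊢
    exact h3
  have hF : ∀ i κ, κ ≤ q → ∀ p, (if v i κ < M then x p else y p) = lx out x y κ p := by
    intro i κ hκ p
    unfold lx
    by_cases h1 : v i κ < M
    · rw [if_pos h1, if_pos ((hA i κ hκ).mpr h1)]
    · rw [if_neg h1, if_neg (fun h2 => h1 ((hA i κ hκ).mp h2))]
  have hb2 : ∀ (i : Bool) (j : Bool) (g : Bool → ℕ), g false = g true → g i = g j := by
    intro i j g hg
    cases i <;> cases j <;> simp [hg]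
  constructor
  · intro i κ h1 h2
    show ls out x y a (fun n => M + b n) κ (ed x y a b M (v i (κ - 1)) (v i (κ - 1 + 1))) =
      ls out x y a (fun n => M + b n) κ (ed x y a b M (v i κ) (v i (κ + 1)))
    rw [hB' i κ h1 h2.le, (hB i κ h2).1]
  · show ls out x y a (fun n => M + b n) 0 (ed x y a b M (v false 0) (v false (0 + 1))) =
      ls out x y a (fun n => M + b n) 0 (ed x y a b M (v true 0) (v true (0 + 1)))
    rw [(hB false 0 (by omega)).1, (hB true 0 (by omega)).1, hv.zero]
  · show ls out x y a (fun n => M + b n) q (ed x y a b M (v false (q - 1)) (v false (q - 1 + 1))) =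
      ls out x y a (fun n => M + b n) q (ed x y a b M (v true (q - 1)) (v true (q - 1 + 1)))
    rw [hB' false q (by omega) le_rfl, hB' true q (by omega) le_rfl, hv.last]
  · intro i κ h1 h2
    show w κ = true ↔ lx out x y κ (ed x y a b M (v i (κ - 1)) (v i (κ - 1 + 1))) <
      lx out x y κ (ed x y a b M (v i κ) (v i (κ + 1)))
    have h3 := hv.hom i κ h1 h2
    have h4 : κ - 1 + 1 = κ := by omega
    rw [h4, ← h3]
    unfold omH
    rw [hF i κ h2.le, hF i κ h2.le]
    simp
  · intro κ h1 h2
    show ls out x y a (fun n => M + b n) κ (ed x y a b M (v (f κ) κ) (v (f κ) (κ + 1))) <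
      ls out x y a (fun n => M + b n) κ (ed x y a b M (v (!f κ) κ) (v (!f κ) (κ + 1)))
    rw [(hB (f κ) κ h2).1, (hB (!f κ) κ h2).1]
    exact hv.ord κ h1 h2
  · show lx out x y 0 (ed x y a b M (v (f 0) 0) (v (f 0) (0 + 1))) <
      lx out x y 0 (ed x y a b M (v (!f 0) 0) (v (!f 0) (0 + 1)))
    have h1 := hv.om0
    unfold omH at h1
    rw [hF (f 0) 0 (by omega), hF (f 0) 0 (by omega), decide_eq_true_eq] at h1
    have h2 : ed x y a b M (v (f 0) 1) (v (f 0) 0) = ed x y a b M (v (f 0) 0) (v (f 0) 1) :=
      ed_symm ha hinj (D08_symm (hv.adj (f 0) 0 (by omega)))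
    have h3 : v (f 0) 0 = v (!f 0) 0 := hb2 _ _ (fun i => v i 0) hv.zero
    rw [h2] at h1
    have h4 : ed x y a b M (v (f 0) 0) (v (!f 0) 1) = ed x y a b M (v (!f 0) 0) (v (!f 0) 1) := by
      rw [h3]
    rw [h4] at h1
    exact h1
  · show lx out x y q (ed x y a b M (v (f q) (q - 1)) (v (f q) (q - 1 + 1))) <
      lx out x y q (ed x y a b M (v (!f q) (q - 1)) (v (!f q) (q - 1 + 1)))
    have h1 := hv.omq
    unfold omH at h1
    rw [hF (f q) q le_rfl, hF (f q) q le_rfl, decide_eq_true_eq] at h1
    have h0 : q - 1 + 1 = q := by omega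
    have h3 : v (f q) q = v (!f q) q := hb2 _ _ (fun i => v i q) hv.last
    have h5 := hv.adj (!f q) (q - 1) (by omega)
    rw [h0] at h5 ⊢
    have h4 : ed x y a b M (v (f q) q) (v (!f q) (q - 1)) =
        ed x y a b M (v (!f q) (q - 1)) (v (!f q) q) := by
      rw [h3]
      exact ed_symm ha hinj (D08_symm h5)
    rw [h4] at h1
    exact h1
  · intro i κ k h1 h2
    show lo κ (u κ) ≤ ls out x y a (fun n => M + b n) κ (ed x y a b M (v i k) (v i (k + 1))) ∧
      ls out x y a (fun n => M + b n) κ (ed x y a b M (v i k) (v i (k + 1))) ≤ hi κ (u κ)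
    rcases h2 with rfl | rfl
    · rw [(hB i k h1).1]
      exact hv.cell i k h1.le
    · rw [(hB i k h1).2]
      exact hv.cell i (k + 1) h1

end LC
end

section

/-! TASK X01 of MP_6bc8af_co. -/

open Classical

namespace LC

universe u

/-- The exchanged graph is a subgraph of `G`.

PROOF. Unfold `EG`, `SimpleGraph.fromRel`. A related pair `a, b` (in one of the two orders) is an edge of the
cycle `c` (`S.hc.adj`), of the cycle `d` (`S.hd.adj`) or of a path (`S.gadj`); use `G.symm` for the other
order. -/
theorem EG_le {V : Type u} {P : Type} {G : SimpleGraph V} {L : ℕ} {c d : ℕ → V} {T : Finset P}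
    {x y len : P → ℕ} {g : P → ℕ → V} (S : Sys G L c d T x y len g) :
    EG L c d T x y len g ≤ G := by
  have key : ∀ a b : V, ((∃ i < L, Even (cnt T x i) ∧ a = c i ∧ b = c (nx L i)) ∨
      (∃ i < L, Odd (cnt T y i) ∧ a = d i ∧ b = d (nx L i)) ∨
      (∃ p ∈ T, ∃ i < len p, a = g p i ∧ b = g p (i + 1))) → G.Adj a b := by
    rintro a b (⟨i, hi, -, rfl, rfl⟩ | ⟨i, hi, -, rfl, rfl⟩ | ⟨p, hp, i, hi, rfl, rfl⟩)
    · exact S.hc.adj i hi
    · exact S.hd.adj i hi
    · exact S.gadj p hp i hi
  intro a b hab
  unfold EG at hab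
  rw [SimpleGraph.fromRel_adj] at hab
  rcases hab.2 with h | h
  · exact key a b h
  · exact (key b a h).symm

/-- The system with the roles of the two cycles exchanged (the paths are reversed).

PROOF. Check all fields. `g0`: `len p - 0 = len p`; `g1`: `len p - len p = 0`. `gadj`: with `j = len p - (i + 1)`
we have `len p - i = j + 1`; use `S.gadj` at `j` and symmetry of `G`. `ginj`: from `S.ginj` we get `p = q` and
`len p - i = len p - j` with `i, j ≤ len p`. `gC` of the new system is `S.gD`: `len p - i = len p` gives `i = 0`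
(as `i ≤ len p`); `gD` of the new system is `S.gC`: `len p - i = 0` gives `i = len p`. `cmark`, `dmark` are
exchanged (use `Eq.symm`). -/
theorem Sys.swap {V : Type u} {P : Type} {G : SimpleGraph V} {L : ℕ} {c d : ℕ → V} {T : Finset P}
    {x y len : P → ℕ} {g : P → ℕ → V} (S : Sys G L c d T x y len g) :
    Sys G L d c T y x len (fun p i => g p (len p - i)) where
  hc := S.hd
  hd := S.hc
  ne := S.ne
  ev := S.ev
  xlt := S.ylt
  ylt := S.xlt
  len1 := S.len1
  g0 := fun p hp => by
    simp only [Nat.sub_zero]
    exact S.g1 p hp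
  g1 := fun p hp => by
    simp only [Nat.sub_self]
    exact S.g0 p hp
  gadj := fun p hp i hi => by
    have h1 := S.gadj p hp (len p - (i + 1)) (by omega)
    have h2 : len p - (i + 1) + 1 = len p - i := by omega
    rw [h2] at h1
    exact h1.symm
  ginj := fun p hp q hq i hi j hj h => by
    obtain ⟨h1, h2⟩ := S.ginj p hp q hq (len p - i) (by omega) (len q - j) (by omega) h
    subst h1
    exact ⟨rfl, by omega⟩
  gC := fun p hp i hi j hj h => by
    have := S.gD p hp (len p - i) (by omega) j hj h
    omega
  gD := fun p hp i hi j hj h => by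
    have := S.gC p hp (len p - i) (by omega) j hj h
    omega
  cmark := fun i hi j hj h => S.dmark j hj i hi h.symm
  dmark := fun i hi j hj h => S.cmark j hj i hi h.symm

end LC
end
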