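import Pool.Agent.Lib.MP_6bc8af_co.Mg.G023
import Pool.Agent.Lib.MP_6bc8af_co.Mg.G024
import Pool.Agent.Lib.MP_6bc8af_co.Mg.G026

section

/-! TASK P04 of MP_6bc8af_co. -/

open Classical

namespace LC

/-- Boolean combinations of closed sets of the open chain are closed.

PROOF. For the complement: the clauses of `Zc` after `Cab` are equivalences. `Cab`: if `(y, b) ∉ S` then `(A y, b) ∉ S`, since otherwise
`(A (A y), b) = (y, b) ∈ S`; same for `B`. -/
theorem Zc.compl {Y : Type} {n : ℕ} {A B : Y → Y} {Lf Rt : ℕ → Y} (T : Tangle n A B Lf Rt)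
    {s : ℕ → Bool} {r : ℕ} {S : Set (Y × Bool)} (hS : Zc n A B Lf Rt s r S) : Zc n A B Lf Rt s r Sᶜ := by
  obtain ⟨⟨hA, hB⟩, h1, h2, h3⟩ := hS
  refine ⟨⟨?_, ?_⟩, ?_, ?_, ?_⟩
  · intro y b hy hc
    apply hy
    have h := hA _ _ hc
    rwa [T.AA] at h
  · intro y b hy hc
    apply hy
    have h := hB _ _ hc
    rwa [T.BB] at h
  · intro j hj
    exact not_congr (h1 j hj)
  · intro j hj
    exact not_congr (h2 j hj)
  · intro j hj hjn b
    exact not_congr (h3 j hj hjn b)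

/-- PROOF. Immediate from the definition. -/
theorem Zc.inter {Y : Type} {n : ℕ} {A B : Y → Y} {Lf Rt : ℕ → Y}
    {s : ℕ → Bool} {r : ℕ} {S S' : Set (Y × Bool)} (hS : Zc n A B Lf Rt s r S) (hS' : Zc n A B Lf Rt s r S') :
    Zc n A B Lf Rt s r (S ∩ S') := by
  obtain ⟨⟨hA, hB⟩, h1, h2, h3⟩ := hS
  obtain ⟨⟨hA', hB'⟩, h1', h2', h3'⟩ := hS'
  exact ⟨⟨fun y b h => ⟨hA y b h.1, hA' y b h.2⟩, fun y b h => ⟨hB y b h.1, hB' y b h.2⟩⟩,
    fun j hj => and_congr (h1 j hj) (h1' j hj), fun j hj => and_congr (h2 j hj) (h2' j hj),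
    fun j hj hjn b => and_congr (h3 j hj hjn b) (h3' j hj hjn b)⟩

private theorem P04_split {Y : Type} {n : ℕ} {A B : Y → Y} {Lf Rt : ℕ → Y}
    {s : ℕ → Bool} {r : ℕ} (h0 : 0 < r) {x : Bool} {S : Set (Y × Bool)}
    (hS : Cl n A B Lf Rt (Function.update s r x) (r + 1) S) :
    Zc n A B Lf Rt s r S ∧ ((Rt (r - 1), !s (r - 1)) ∈ S ↔ (Lf r, x) ∈ S) ∧
      ((Rt r, x) ∈ S ↔ (Lf r, !x) ∈ S) ∧ ((Rt r, !x) ∈ S ↔ (Lf 0, s 0) ∈ S) := by
  obtain ⟨⟨hC, h1, h2, h3⟩, h4, h5⟩ := hS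
  have hne : ∀ j, j ≠ r → Function.update s r x j = s j := fun j hj => Function.update_of_ne hj _ _
  have hr : Function.update s r x r = x := Function.update_self _ _ _
  refine ⟨⟨hC, ?_, ?_, ?_⟩, ?_, ?_, ?_⟩
  · intro j hj
    have h := h1 j (by omega)
    rwa [hne j (by omega)] at h
  · intro j hj
    have h := h2 j (by omega)
    rwa [hne j (by omega), hne (j + 1) (by omega)] at h
  · intro j hj hjn b
    rcases Nat.lt_or_ge (r + 1) j with h | h
    · exact h3 j h hjn b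
    · have e : j = r + 1 := by omega
      subst e
      exact h4 hjn b
  · have h := h2 (r - 1) (by omega)
    have e : r - 1 + 1 = r := by omega
    rw [e, hr, hne (r - 1) (by omega)] at h
    exact h
  · have h := h1 r (by omega)
    rwa [hr] at h
  · have h := h5 (by omega)
    rw [hne 0 (by omega), Nat.add_sub_cancel, hr] at h
    exact h

private theorem P04_concl {Y : Type} {n : ℕ} {A B : Y → Y} {Lf Rt : ℕ → Y}
    {s : ℕ → Bool} {r : ℕ} (h0 : 0 < r) (hI : Inv n A B Lf Rt s r)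
    {x : Bool} {U : Set (Y × Bool)} (hZ : Zc n A B Lf Rt s r U)
    (e1 : (Rt (r - 1), !s (r - 1)) ∈ U ↔ (Lf r, x) ∈ U)
    (e2 : (Rt r, x) ∈ U ↔ (Lf r, !x) ∈ U) (e3 : (Rt r, !x) ∈ U ↔ (Lf 0, s 0) ∈ U)
    (hP : (Rt (r - 1), !s (r - 1)) ∈ U)
    (hno : ¬ ∀ j < r + 1, ∀ b, (Lf j, b) ∈ U ∧ (Rt j, b) ∈ U) :
    ∃ U : Set (Y × Bool), Zc n A B Lf Rt s r U ∧ (Rt (r - 1), !s (r - 1)) ∈ U ∧ (Lf r, x) ∈ U ∧
      ((Rt r, x) ∈ U ↔ (Lf r, !x) ∈ U) ∧ ((Rt r, !x) ∈ U ↔ (Lf 0, s 0) ∈ U) ∧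
      ¬ ((Rt r, x) ∈ U ∧ (Lf 0, s 0) ∈ U) := by
  refine ⟨U, hZ, hP, e1.1 hP, e2, e3, ?_⟩
  rintro ⟨hR, hL⟩
  have hall : ∀ b, (Lf r, b) ∈ U ∧ (Rt r, b) ∈ U := by
    intro b
    rcases Bool.eq_or_eq_not b x with hb | hb
    · subst hb
      exact ⟨e1.1 hP, hR⟩
    · subst hb
      exact ⟨e2.1 hR, e3.2 hL⟩
  apply hno
  have hcl : Cl n A B Lf Rt s r U :=
    ⟨hZ, fun _ b => ⟨fun _ => (hall b).2, fun _ => (hall b).1⟩, fun _ => ⟨fun _ => hL, fun _ => hP⟩⟩
  rcases hI U hcl with h | h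
  · intro j hj b
    rcases Nat.lt_or_ge j r with h' | h'
    · exact h j h' b
    · have e : j = r := by omega
      subst e
      exact hall b
  · exact absurd hL (h 0 h0 (s 0)).1

/-- The trace of a set that shows the failure of the sign `x` at window `r`.

PROOF. Let `s' = Function.update s r x`. The failure gives `S` closed at stage `r + 1` for `s'` such that some active end (windows `≤ r`)
is in `S` and some is not. Both `S` and its complement satisfy `Zc` at stage `r` for `s` (for the complement: `Zc.compl`; the clauses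
of stage `r + 1` restricted to `j < r`, `j + 1 < r`, `j > r`: for `j = r + 1` use the bypass clause of `Cl`) and the three equivalences
`(Rt (r - 1), !s (r - 1)) ∈ S ↔ (Lf r, x) ∈ S`, `(Rt r, x) ∈ S ↔ (Lf r, !x) ∈ S`, `(Rt r, !x) ∈ S ↔ (Lf 0, s 0) ∈ S`. Let `U` be the one
of the two that contains `(Rt (r - 1), !s (r - 1))`. If `(Rt r, x) ∈ U` and `(Lf 0, s 0) ∈ U` then all of the six points are in `U`, so
`U` is closed at stage `r` for `s` and contains the active end `(Lf 0, s 0)`; by `hI` it contains all ends of the windows `< r`, and it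
contains the four ends of window `r`: so it contains all active ends of stage `r + 1`, contradicting the choice of `S`. -/
theorem trace_of_fail {Y : Type} {n : ℕ} {A B : Y → Y} {Lf Rt : ℕ → Y}
    (T : Tangle n A B Lf Rt) {s : ℕ → Bool} {r : ℕ} (h0 : 0 < r) (hr : r < n) (hI : Inv n A B Lf Rt s r)
    {x : Bool} (hx : ¬ Inv n A B Lf Rt (Function.update s r x) (r + 1)) :
    ∃ U : Set (Y × Bool), Zc n A B Lf Rt s r U ∧ (Rt (r - 1), !s (r - 1)) ∈ U ∧ (Lf r, x) ∈ U ∧
      ((Rt r, x) ∈ U ↔ (Lf r, !x) ∈ U) ∧ ((Rt r, !x) ∈ U ↔ (Lf 0, s 0) ∈ U) ∧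
      ¬ ((Rt r, x) ∈ U ∧ (Lf 0, s 0) ∈ U) := by
  unfold Inv at hx
  rw [not_forall] at hx
  obtain ⟨S, hS⟩ := hx
  rw [Classical.not_imp, not_or] at hS
  obtain ⟨hS, hn1, hn2⟩ := hS
  obtain ⟨hZ, e1, e2, e3⟩ := P04_split h0 hS
  by_cases hP : (Rt (r - 1), !s (r - 1)) ∈ S
  · exact P04_concl h0 hI hZ e1 e2 e3 hP hn1
  · exact P04_concl (U := Sᶜ) h0 hI (Zc.compl T hZ) (not_congr e1) (not_congr e2) (not_congr e3) hP hn2

/-- A closed set of the open chain that is closed at stage `r`, avoids the last active end and contains `(Lf r, b)` gives a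
transparent set.

PROOF. By `hI` and `hP` (the end `(Rt (r - 1), !s (r - 1))` is active and not in `V`) no active end is in `V`. `W = {y | (y, b) ∈ V}`. -/
theorem transp_of {Y : Type} {n : ℕ} {A B : Y → Y} {Lf Rt : ℕ → Y}
    {s : ℕ → Bool} {r : ℕ} (h0 : 0 < r) (hI : Inv n A B Lf Rt s r) {V : Set (Y × Bool)}
    (hV : Cl n A B Lf Rt s r V) (hP : (Rt (r - 1), !s (r - 1)) ∉ V) {b : Bool} (hb : (Lf r, b) ∈ V) :
    ∃ W, Transp n A B Lf Rt r W := by
  have hnone : ∀ j < r, ∀ b, (Lf j, b) ∉ V ∧ (Rt j, b) ∉ V := by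
    rcases hI V hV with h | h
    · exact absurd (h (r - 1) (by omega) (!s (r - 1))).2 hP
    · exact h
  obtain ⟨⟨⟨hA, hB⟩, h1, h2, h3⟩, h4, h5⟩ := hV
  exact ⟨{y | (y, b) ∈ V}, fun y hy => hA y b hy, fun y hy => hB y b hy, fun j hj => hnone j hj b,
    fun j hj hjn => h3 j hj hjn b, hb⟩

end LC
end

section

/-! TASK P05 of MP_6bc8af_co. -/

open Classical

namespace LC

/-- Activation of a window: one of the two signs preserves the invariant.

PROOF. If there is a transparent set use `step_transparent` with `x = false`. Otherwise suppose both signs fail. Let `Ua`, `Ub` be the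
sets of `trace_of_fail` for `x = false` and `x = true`. Write `P = (Rt (r - 1), !s (r - 1))`, `Q = (Lf 0, s 0)`, `La = (Lf r, false)`,
`Ra = (Rt r, false)`, `Lb = (Lf r, true)`, `Rb = (Rt r, true)`. Let `a1 : Ra ∈ Ua` (iff `Lb ∈ Ua`), `a2 : Q ∈ Ua` (iff `Rb ∈ Ua`), not both;
`b1 : Rb ∈ Ub` (iff `La ∈ Ub`), `b2 : Q ∈ Ub` (iff `Ra ∈ Ub`), not both; `P, La ∈ Ua`, `P, Lb ∈ Ub`. The trace of `Ua ∩ Ub` on the six points:
`P` yes, `Q` iff `a2 ∧ b2`, `La` iff `b1`, `Ra` iff `a1 ∧ b2`, `Lb` iff `a1`, `Rb` iff `a2 ∧ b1`. By `six_parity` (`Zc.inter`) the number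
of them is even. Go through the nine cases for `(a1, a2)`, `(b1, b2)` in `{00, 10, 01}`: the number is odd except in the cases
(i) `00, 10`: then `V = Ub ∩ Uaᶜ` contains `Lb`, `Rb` and none of `P`, `Q`, `La`, `Ra`; so it is closed at stage `r` (`Cl`), and
`transp_of` with `b = true` gives a transparent set;
(ii) `10, 00`: `V = Ua ∩ Ubᶜ` contains `La`, `Ra` and none of `P`, `Q`, `Lb`, `Rb`: `transp_of` with `b = false`;
(iii) `01, 01`: `V = (Ua ∩ Ub)ᶜ` contains `La`, `Ra`, `Lb`, `Rb` and not `P`, `Q`: `transp_of` with `b = false`.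
All contradict the assumption. (To do the cases: `by_cases` on `a1`, `a2`, `b1`, `b2`, `simp [ch, ...]` in `six_parity`, `decide`.) -/
theorem step_exists {Y : Type} [Fintype Y] {n : ℕ} {A B : Y → Y} {Lf Rt : ℕ → Y}
    (T : Tangle n A B Lf Rt) {s : ℕ → Bool} {r : ℕ} (h0 : 0 < r) (hr : r < n) (hI : Inv n A B Lf Rt s r) :
    ∃ x : Bool, Inv n A B Lf Rt (Function.update s r x) (r + 1) := by
  by_cases hW : ∃ W, Transp n A B Lf Rt r W
  · obtain ⟨W, hW⟩ := hW
    exact ⟨false, step_transparent T h0 hr hI hW false⟩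
  by_contra hcon
  rw [not_exists] at hcon
  obtain ⟨Ua, hZa, hPa, hLa, a1, a2, a3⟩ := trace_of_fail T h0 hr hI (hcon false)
  obtain ⟨Ub, hZb, hPb, hLb, b1, b2, b3⟩ := trace_of_fail T h0 hr hI (hcon true)
  simp only [Bool.not_false, Bool.not_true] at a1 a2 b1 b2
  have hsix := six_parity T h0 hr (Zc.inter hZa hZb)
  have key : ∀ V : Set (Y × Bool), Zc n A B Lf Rt s r V → (Rt (r - 1), !s (r - 1)) ∉ V → (Lf 0, s 0) ∉ V →
      (∀ b, ((Lf r, b) ∈ V ↔ (Rt r, b) ∈ V)) → ∀ b, (Lf r, b) ∉ V := by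
    intro V hZ hP hQ hby b hb
    exact hW (transp_of h0 hI ⟨hZ, fun _ => hby, fun _ => ⟨fun h => absurd h hP, fun h => absurd h hQ⟩⟩ hP hb)
  have k1 := key (Ub ∩ Uaᶜ) (Zc.inter hZb (Zc.compl T hZa))
  have k2 := key (Ua ∩ Ubᶜ) (Zc.inter hZa (Zc.compl T hZb))
  have k3 := key (Ua ∩ Ub)ᶜ (Zc.compl T (Zc.inter hZa hZb))
  have d1 : (1 : ZMod 2) + 1 = 0 := by decide
  have d2 : (1 : ZMod 2) ≠ 0 := by decide
  by_cases c1 : (Rt r, false) ∈ Ua <;> by_cases c2 : (Lf 0, s 0) ∈ Ua <;>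
  by_cases c3 : (Rt r, true) ∈ Ub <;> by_cases c4 : (Lf 0, s 0) ∈ Ub <;>
  simp_all [ch, Bool.forall_bool]

/-- **The parallel shuffle lemma.**

PROOF. By induction on `r` with `1 ≤ r ≤ n` there is `s` with `Inv n A B Lf Rt s r` (`step_first`, `step_exists`). Take `r = n`. Let `S` be
nonempty and closed at stage `n`. It contains `(y, b)` for some `y`, `b`; the set `{y | (y, b) ∈ S}` contains an end by `T.closed`, so by the
invariant `S` contains all ends `(Lf j, b)`, `(Rt j, b)`. If some `(y, b)` is not in `S`, then `{y | (y, b) ∉ S}` is closed under `A` and `B`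
(involutions), so it contains an end by `T.closed`: contradiction. -/
theorem psl {Y : Type} [Fintype Y] {n : ℕ} {A B : Y → Y} {Lf Rt : ℕ → Y} (T : Tangle n A B Lf Rt) :
    ∃ s : ℕ → Bool, ∀ S : Set (Y × Bool), S.Nonempty → Cl n A B Lf Rt s n S → S = Set.univ := by
  have hind : ∀ r, r < n → ∃ s : ℕ → Bool, Inv n A B Lf Rt s (r + 1) := by
    intro r
    induction r with
    | zero =>
      intro _
      exact ⟨fun _ => false, step_first T _⟩
    | succ r ih =>
      intro hr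
      obtain ⟨s, hs⟩ := ih (by omega)
      obtain ⟨x, hx⟩ := step_exists T (Nat.succ_pos r) hr hs
      exact ⟨_, hx⟩
  have hpos := T.pos
  obtain ⟨s, hs⟩ := hind (n - 1) (by omega)
  have e : n - 1 + 1 = n := by omega
  rw [e] at hs
  refine ⟨s, ?_⟩
  intro S hne hS
  have hall : ∀ j < n, ∀ b, (Lf j, b) ∈ S ∧ (Rt j, b) ∈ S := by
    rcases hs S hS with h | h
    · exact h
    · obtain ⟨⟨y, b⟩, hy⟩ := hne
      obtain ⟨j, hj, hj'⟩ := T.closed {y | (y, b) ∈ S} ⟨y, hy⟩ (fun y hy => hS.1.1.1 y b hy)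
        (fun y hy => hS.1.1.2 y b hy)
      rcases hj' with hj' | hj'
      · exact absurd hj' (h j hj b).1
      · exact absurd hj' (h j hj b).2
  rw [Set.eq_univ_iff_forall]
  rintro ⟨y, b⟩
  by_contra hy
  have hc := Zc.compl T hS.1
  obtain ⟨j, hj, hj'⟩ := T.closed {y | (y, b) ∈ Sᶜ} ⟨y, hy⟩ (fun y hy => hc.1.1 y b hy)
    (fun y hy => hc.1.2 y b hy)
  rcases hj' with hj' | hj'
  · exact hj' (hall j hj b).1
  · exact hj' (hall j hj b).2

end LC
end

section

/-! TASK S03 of MP_6bc8af_co. -/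

namespace LC

/-- The shuffle lemma for a strip.

PROOF. Let `Y = {z : Bool × ℕ // z.2 < q}` (a finite type; or `Bool × Fin q`), `A`, `B` the restrictions of `SA q out`, `SB q out f w` to `Y`
(`SA_spec`, `SB_spec`), `Lf j = eL (wd j)`, `Rt j = eR (wd j)` for `j < n` (for `j ≥ n` take any value, e.g. that of `wd 0`; use
`eLR_lt`). This is a `Tangle`: `AA`, `Ane`, `BB` from `SA_spec`, `SB_spec`; `fix` from `SB_fix` and the surjectivity of the enumeration;
`Linj`, `Rinj`, `LR` from `eLR_inj` and `hwd.inj`; `closed` from `strip_closed` applied to the set `{z | ∃ h : z.2 < q, ⟨z, h⟩ ∈ S}`. Let `s'` be the signs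
(indexed by `j`) given by `psl`. Define `s κ = s' j` if `κ = wd j`, `j < n` (choose such a `j`; `false` if there is none). Now let `S` be as in `Shuf`; the
set `{(y, b) | (y.1, b) ∈ S}` is nonempty and `Cl n A B Lf Rt s' n`-closed (bypass clauses are vacuous at stage `n`; `s (wd j) = s' j` for
`j < n`), so it is everything. -/
theorem strip_psl {q n : ℕ} {out f w : ℕ → Bool} (hq : 2 ≤ q) (halt : ∀ k < q, out (k + 1) = !out k)
    {wd : ℕ → ℕ} (hwd : Enum q n out wd) : ∃ s : ℕ → Bool, Shuf q n out f w wd s := by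
  classical
  have hfin : Finite {z : Bool × ℕ // z.2 < q} := by
    apply Finite.of_injective (fun z : {z : Bool × ℕ // z.2 < q} => ((z.1.1, ⟨z.1.2, z.2⟩) : Bool × Fin q))
    rintro ⟨⟨a, b⟩, h⟩ ⟨⟨a', b'⟩, h'⟩ he
    simp only [Prod.mk.injEq, Fin.mk.injEq] at he
    obtain ⟨rfl, rfl⟩ := he
    rfl
  haveI : Fintype {z : Bool × ℕ // z.2 < q} := Fintype.ofFinite _
  let wd' : ℕ → ℕ := fun j => if j < n then wd j else wd 0
  have hwd'le : ∀ j, wd' j ≤ q := by
    intro j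
    simp only [wd']
    split_ifs with h
    · exact hwd.le j h
    · exact hwd.le 0 hwd.pos
  have hwd' : ∀ j, j < n → wd' j = wd j := by
    intro j hj
    simp only [wd']
    rw [if_pos hj]
  let A : {z : Bool × ℕ // z.2 < q} → {z : Bool × ℕ // z.2 < q} :=
    fun z => ⟨SA q out z.1, (SA_spec halt z.1 z.2).1⟩
  let B : {z : Bool × ℕ // z.2 < q} → {z : Bool × ℕ // z.2 < q} :=
    fun z => ⟨SB q out f w z.1, (SB_spec halt z.1 z.2).1⟩
  let Lf : ℕ → {z : Bool × ℕ // z.2 < q} := fun j => ⟨eL q f w (wd' j), (eLR_lt hq (wd' j) (hwd'le j)).1⟩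
  let Rt : ℕ → {z : Bool × ℕ // z.2 < q} := fun j => ⟨eR q f w (wd' j), (eLR_lt hq (wd' j) (hwd'le j)).2⟩
  have hLf : ∀ j, j < n → (Lf j).1 = eL q f w (wd j) := by
    intro j hj
    simp only [Lf, hwd' j hj]
  have hRt : ∀ j, j < n → (Rt j).1 = eR q f w (wd j) := by
    intro j hj
    simp only [Rt, hwd' j hj]
  have T : Tangle n A B Lf Rt := by
    refine ⟨hwd.pos, ?_, ?_, ?_, ?_, ?_, ?_, ?_, ?_⟩
    · intro y
      exact Subtype.ext (SA_spec halt y.1 y.2).2.1
    · intro y h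
      exact (SA_spec halt y.1 y.2).2.2 (congrArg Subtype.val h)
    · intro y
      exact Subtype.ext (SB_spec halt y.1 y.2).2
    · intro y
      constructor
      · intro h
        obtain ⟨κ, hκ, ho, h1⟩ := (SB_fix hq halt y.1 y.2).mp (congrArg Subtype.val h)
        obtain ⟨j, hj, rfl⟩ := hwd.surj κ hκ ho
        refine ⟨j, hj, ?_⟩
        rcases h1 with h1 | h1
        · left
          apply Subtype.ext
          rw [h1, hLf j hj]
        · right
          apply Subtype.ext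
          rw [h1, hRt j hj]
      · rintro ⟨j, hj, h1⟩
        apply Subtype.ext
        refine (SB_fix hq halt y.1 y.2).mpr ⟨wd j, hwd.le j hj, hwd.outer j hj, ?_⟩
        rcases h1 with h1 | h1
        · left
          rw [h1, hLf j hj]
        · right
          rw [h1, hRt j hj]
    · intro i hi j hj h
      apply hwd.inj i hi j hj
      apply (eLR_inj (f := f) (w := w) hq halt (wd i) (wd j) (hwd.le i hi) (hwd.le j hj) (hwd.outer i hi)
        (hwd.outer j hj)).1
      rw [← hLf i hi, ← hLf j hj, h]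
    · intro i hi j hj h
      apply hwd.inj i hi j hj
      apply (eLR_inj (f := f) (w := w) hq halt (wd i) (wd j) (hwd.le i hi) (hwd.le j hj) (hwd.outer i hi)
        (hwd.outer j hj)).2.1
      rw [← hRt i hi, ← hRt j hj, h]
    · intro i hi j hj h
      apply (eLR_inj (f := f) (w := w) hq halt (wd i) (wd j) (hwd.le i hi) (hwd.le j hj) (hwd.outer i hi)
        (hwd.outer j hj)).2.2
      rw [← hLf i hi, ← hRt j hj, h]
    · intro S hS hSA hSB
      obtain ⟨κ, hκ, ho, h1⟩ := strip_closed (f := f) (w := w) hq halt {z | ∃ h : z.2 < q, (⟨z, h⟩ : {z : Bool × ℕ // z.2 < q}) ∈ S}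
        (by
          obtain ⟨y, hy⟩ := hS
          exact ⟨y.1, ⟨y.2, hy⟩, y.2⟩)
        (by
          rintro z ⟨h, hz⟩ _
          exact ⟨(SA_spec halt z h).1, hSA _ hz⟩)
        (by
          rintro z ⟨h, hz⟩ _
          exact ⟨(SB_spec halt z h).1, hSB _ hz⟩)
      obtain ⟨j, hj, rfl⟩ := hwd.surj κ hκ ho
      refine ⟨j, hj, ?_⟩
      rcases h1 with ⟨h, h1⟩ | ⟨h, h1⟩
      · left
        have : Lf j = ⟨eL q f w (wd j), h⟩ := Subtype.ext (hLf j hj)
        rw [this]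
        exact h1
      · right
        have : Rt j = ⟨eR q f w (wd j), h⟩ := Subtype.ext (hRt j hj)
        rw [this]
        exact h1
  obtain ⟨s', hs'⟩ := psl T
  let s : ℕ → Bool := fun κ => if h : ∃ j, j < n ∧ wd j = κ then s' h.choose else false
  have hs : ∀ j, j < n → s (wd j) = s' j := by
    intro j hj
    have hex : ∃ j', j' < n ∧ wd j' = wd j := ⟨j, hj, rfl⟩
    simp only [s]
    rw [dif_pos hex]
    congr 1
    exact hwd.inj _ hex.choose_spec.1 j hj hex.choose_spec.2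
  refine ⟨s, ?_⟩
  intro S hne hA hB h1 h2 h3 i k b hk
  have hn := hwd.pos
  have huniv := hs' {p | (p.1.1, p.2) ∈ S}
    (by
      obtain ⟨i, k, b, hk, h⟩ := hne
      exact ⟨(⟨(i, k), hk⟩, b), h⟩)
    (by
      refine ⟨⟨⟨?_, ?_⟩, ?_, ?_, ?_⟩, ?_, ?_⟩
      · intro y b hy
        exact (hA y.1 y.2 b).mp hy
      · intro y b hy
        exact (hB y.1 y.2 b).mp hy
      · intro j hj
        have := h1 j hj
        rw [hs j hj, ← hLf j hj, ← hRt j hj] at this
        exact this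
      · intro j hj
        have := h2 j hj
        rw [hs j (by omega), hs (j + 1) hj, ← hLf (j + 1) hj, ← hRt j (by omega)] at this
        exact this
      · intro j h4 h5
        omega
      · intro h4
        omega
      · intro _
        have := h3
        rw [hs (n - 1) (by omega), hs 0 hn, ← hLf 0 hn, ← hRt (n - 1) (by omega)] at this
        exact this)
  have h4 : ((⟨(i, k), hk⟩ : {z : Bool × ℕ // z.2 < q}), b) ∈
      {p : {z : Bool × ℕ // z.2 < q} × Bool | (p.1.1, p.2) ∈ S} := by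
    rw [huniv]
    trivial
  exact h4

/-- Only the signs of the outer layers matter.

PROOF. All indices `wd j` in the definition of `Shuf` have `j < n` (`j + 1 < n`, `n - 1 < n`, `0 < n`), and there `s (wd j) = s' (wd j)`. -/
theorem Shuf.congr {q n : ℕ} {out f w : ℕ → Bool} {wd : ℕ → ℕ} (hwd : Enum q n out wd) {s s' : ℕ → Bool}
    (h : ∀ κ, out κ = true → s κ = s' κ) (hs : Shuf q n out f w wd s) : Shuf q n out f w wd s' := by
  have hn := hwd.pos
  have hss : ∀ j, j < n → s (wd j) = s' (wd j) := fun j hj => h (wd j) (hwd.outer j hj)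
  intro S hne hA hB h1 h2 h3
  refine hs S hne hA hB ?_ ?_ ?_
  · intro j hj
    rw [hss j hj]
    exact h1 j hj
  · intro j hj
    rw [hss j (by omega), hss (j + 1) hj]
    exact h2 j hj
  · rw [hss (n - 1) (by omega), hss 0 hn]
    exact h3

end LC
end
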