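import Pool.Agent.Lib.MP_6bc8af_co.Mg.G016
import Pool.Agent.Lib.MP_6bc8af_co.Mg.G019
import Pool.Agent.Lib.MP_6bc8af_co.Mg.G023
import Pool.Agent.Lib.MP_6bc8af_co.Mg.G025

section

/-! F03 of MP_6bc8af_co: the two graphs on 11 and 12 vertices. -/

open Classical

namespace LC

/-- neighbours: the Petersen graph minus a vertex (vertices `1, ..., 9`), with a leaf `0` at `1` and a path
`10, 11` at `4` (for `q = 11` the vertex `11` is not used) -/
def nb (q : ℕ) : ℕ → List ℕ
  | 0 => [1]
  | 1 => [0, 2, 6]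
  | 2 => [1, 3, 7]
  | 3 => [2, 4, 8]
  | 4 => [3, 9, 10]
  | 5 => [7, 8]
  | 6 => [1, 8, 9]
  | 7 => [2, 5, 9]
  | 8 => [3, 5, 6]
  | 9 => [4, 6, 7]
  | 10 => if q = 12 then [4, 11] else [4]
  | 11 => [10]
  | _ => []

/-- depth first search: is there a path with `n` further vertices from `cur` outside `mask`? -/
def ext (q : ℕ) : ℕ → ℕ → ℕ → Bool
  | 0, _, _ => true
  | n + 1, cur, mask => (nb q cur).any (fun w => !(mask.testBit w) && ext q n w (mask ||| 2 ^ w))

theorem ext_of_path (q : ℕ) (p : ℕ → ℕ) (hinj : ∀ i < q, ∀ j < q, p i = p j → i = j)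
    (hadj : ∀ i, i + 1 < q → p (i + 1) ∈ nb q (p i)) :
    ∀ s j mask, j + s + 1 = q → (∀ w, mask.testBit w = true ↔ ∃ i ≤ j, p i = w) →
      ext q s (p j) mask = true := by
  intro s
  induction s with
  | zero => intro j mask _ _; rfl
  | succ s ih =>
    intro j mask hj hmask
    unfold ext
    rw [List.any_eq_true]
    refine ⟨p (j + 1), hadj j (by omega), ?_⟩
    rw [Bool.and_eq_true]
    refine ⟨?_, ?_⟩
    · rw [Bool.not_eq_true']
      by_contra hcon
      rw [Bool.not_eq_false] at hcon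
      obtain ⟨i, hi, h⟩ := (hmask _).1 hcon
      have := hinj i (by omega) (j + 1) (by omega) h
      omega
    · apply ih (j + 1) _ (by omega)
      intro w
      rw [Nat.testBit_or, Bool.or_eq_true, hmask, Nat.testBit_two_pow]
      constructor
      · rintro (⟨i, hi, h⟩ | h)
        · exact ⟨i, by omega, h⟩
        · exact ⟨j + 1, le_rfl, by simpa using h⟩
      · rintro ⟨i, hi, h⟩
        rcases Nat.lt_or_ge i (j + 1) with h1 | h1
        · exact Or.inl ⟨i, by omega, h⟩
        · right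
          have : i = j + 1 := by omega
          subst this
          simpa using h

theorem ext_none_11 : ∀ a < 11, ext 11 10 a (2 ^ a) = false := by decide +kernel

theorem ext_none_12 : ∀ a < 12, ext 12 11 a (2 ^ a) = false := by decide +kernel

/-- the graph on `q` vertices (`q = 11` or `q = 12`) -/
def HQ (q : ℕ) : SimpleGraph (Fin q) where
  Adj a b := b.1 ∈ nb q a.1 ∧ a.1 ∈ nb q b.1
  symm := ⟨fun _ _ h => ⟨h.2, h.1⟩⟩
  loopless := ⟨by
    rintro ⟨a, ha⟩ ⟨h, _⟩
    simp only at h
    unfold nb at h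
    split at h <;> first | (simp at h; done) | (split_ifs at h <;> simp at h)⟩

theorem HQ_no (q : ℕ) (hq : q = 11 ∨ q = 12) (p : ℕ → Fin q)
    (hinj : ∀ i < q, ∀ j < q, p i = p j → i = j)
    (hadj : ∀ i, i + 1 < q → (HQ q).Adj (p i) (p (i + 1))) : False := by
  have h1 : ext q (q - 1) (p 0).1 (2 ^ (p 0).1) = true := by
    apply ext_of_path q (fun i => (p i).1) (fun i hi j hj h => hinj i hi j hj (Fin.ext h))
      (fun i hi => (hadj i hi).1) (q - 1) 0
    · omega
    · intro w
      rw [Nat.testBit_two_pow]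
      constructor
      · intro h
        exact ⟨0, le_rfl, by simpa using h⟩
      · rintro ⟨i, hi, h⟩
        have : i = 0 := by omega
        subst this
        simpa using h
  rcases hq with rfl | rfl
  · rw [ext_none_11 _ (p 0).2] at h1
    exact Bool.noConfusion h1
  · rw [ext_none_12 _ (p 0).2] at h1
    exact Bool.noConfusion h1

/-- the Hamiltonian path of `HQ q` without the vertex `2` -/
def pa (i : ℕ) : ℕ := [0, 1, 6, 9, 7, 5, 8, 3, 4, 10, 11].getD i 0

/-- the Hamiltonian path of `HQ q` without the vertex `3` -/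
def pb (q i : ℕ) : ℕ := if q = 12 then [11, 10, 4, 9, 6, 8, 5, 7, 2, 1, 0].getD i 0
  else [10, 4, 9, 6, 8, 5, 7, 2, 1, 0].getD i 0

theorem pa_spec (q : ℕ) (hq : q = 11 ∨ q = 12) :
    (∀ i < q - 1, pa i < q) ∧ (∀ i < q - 1, ∀ j < q - 1, pa i = pa j → i = j) ∧
      (∀ i < q - 2, pa (i + 1) ∈ nb q (pa i) ∧ pa i ∈ nb q (pa (i + 1))) ∧
      (∀ z < q, (∃ i < q - 1, pa i = z) ↔ z ≠ 2) := by
  rcases hq with rfl | rfl <;> decide +kernel

theorem pb_spec (q : ℕ) (hq : q = 11 ∨ q = 12) :
    (∀ i < q - 1, pb q i < q) ∧ (∀ i < q - 1, ∀ j < q - 1, pb q i = pb q j → i = j) ∧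
      (∀ i < q - 2, pb q (i + 1) ∈ nb q (pb q i) ∧ pb q i ∈ nb q (pb q (i + 1))) ∧
      (∀ z < q, (∃ i < q - 1, pb q i = z) ↔ z ≠ 3) := by
  rcases hq with rfl | rfl <;> decide +kernel

/-- a path given by natural numbers as a path of `HQ q` -/
theorem HQ_path (q : ℕ) (hq : 11 ≤ q) (p : ℕ → ℕ) (x : ℕ) (hx : x < q)
    (h : (∀ i < q - 1, p i < q) ∧ (∀ i < q - 1, ∀ j < q - 1, p i = p j → i = j) ∧
      (∀ i < q - 2, p (i + 1) ∈ nb q (p i) ∧ p i ∈ nb q (p (i + 1))) ∧
      (∀ z < q, (∃ i < q - 1, p i = z) ↔ z ≠ x)) :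
    ∃ p' : ℕ → Fin q, (∀ i < q - 1, (p' i).1 = p i) ∧ (∀ i < q - 1, ∀ j < q - 1, p' i = p' j → i = j) ∧
      (∀ i, i + 1 < q - 1 → (HQ q).Adj (p' i) (p' (i + 1))) ∧
      (∀ z, (∃ i < q - 1, p' i = z) ↔ z ≠ ⟨x, hx⟩) := by
  obtain ⟨h1, h2, h3, h4⟩ := h
  have hv : ∀ i < q - 1, ((⟨p i % q, Nat.mod_lt _ (by omega)⟩ : Fin q)).1 = p i := fun i hi =>
    Nat.mod_eq_of_lt (h1 i hi)
  refine ⟨fun i => ⟨p i % q, Nat.mod_lt _ (by omega)⟩, hv, ?_, ?_, ?_⟩
  · intro i hi j hj hij
    have := congrArg Fin.val hij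
    rw [hv i hi, hv j hj] at this
    exact h2 i hi j hj this
  · intro i hi
    have e1 := hv i (by omega)
    have e2 := hv (i + 1) hi
    have h5 := h3 i (by omega)
    refine ⟨?_, ?_⟩
    · rw [e1, e2]; exact h5.1
    · rw [e1, e2]; exact h5.2
  · intro z
    constructor
    · rintro ⟨i, hi, rfl⟩ h
      have := congrArg Fin.val h
      rw [hv i hi] at this
      exact (h4 _ (h1 i hi)).1 ⟨i, hi, rfl⟩ this
    · intro hz
      have hz' : z.1 ≠ x := fun h => hz (Fin.ext h)
      obtain ⟨i, hi, h⟩ := (h4 z.1 z.2).2 hz'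
      exact ⟨i, hi, Fin.ext (by rw [hv i hi, h])⟩

end LC
end

section

/-! F04 of MP_6bc8af_co: the linear upper bound for `f'`. -/

open Classical

namespace LC

/-- every cycle of a graph without a Hamiltonian cyclic sequence has fewer vertices than the graph -/
private theorem F04_len {V : Type} [Fintype V] {G : SimpleGraph V} {n : ℕ} (hn : Fintype.card V = n)
    (hno : ¬ ∃ c, CycSeq G n c) (v : V) (w : G.Walk v v) (hw : w.IsCycle) : w.length + 1 ≤ n := by
  obtain ⟨hc, _⟩ := cycseq_of_walk w hw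
  have h1 : w.length ≤ n := by
    have h2 := Finset.card_le_univ ((Finset.range w.length).image w.getVert)
    rw [Finset.card_image_of_injOn, Finset.card_range, hn] at h2
    · exact h2
    · intro i hi j hj hij
      exact hc.inj i (Finset.mem_range.1 (Finset.mem_coe.1 hi)) j
        (Finset.mem_range.1 (Finset.mem_coe.1 hj)) hij
  rcases Nat.lt_or_ge w.length n with h | h
  · exact h
  · have h2 : w.length = n := le_antisymm h1 h
    rw [h2] at hc
    exact (hno ⟨_, hc⟩).elim

/-- **The linear upper bound for `f'`.** The graph is the join of an independent set of `t + 1 ≥ k` vertices with the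
disjoint union of `t` isolated vertices and the graph `HQ q` (`q = 11` or `q = 12`): `HQ q` has no Hamiltonian path,
but it has Hamiltonian paths without the vertex `2` and without the vertex `3`, and `2`, `3` are adjacent. -/
theorem f'_le (k : ℕ) (hk : 1 ≤ k) : f' k ≤ ((2 * k + 7 : ℕ) : ℕ∞) := by
  apply iSup₂_le
  intro m hm
  by_contra hcon
  have hmk : 2 * k + 8 ≤ m := by
    by_contra h
    apply hcon
    exact_mod_cast (by omega : m ≤ 2 * k + 7)
  obtain ⟨q, t, hq, hmt, hkt⟩ : ∃ q t : ℕ, (q = 11 ∨ q = 12) ∧ m + 1 = 2 * t + q ∧ k ≤ t + 1 := by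
    rcases Nat.even_or_odd' m with ⟨s, rfl | rfl⟩
    · exact ⟨11, s - 5, Or.inl rfl, by omega, by omega⟩
    · exact ⟨12, s - 5, Or.inr rfl, by omega, by omega⟩
  have hq11 : 11 ≤ q := by omega
  have hcard : Fintype.card (Fin (t + 1) ⊕ (Fin t ⊕ Fin q)) = 2 * t + 1 + q := by
    simp only [Fintype.card_sum, Fintype.card_fin]; omega
  have hno : ¬ ∃ c, CycSeq (jn t q (HQ q)) (2 * t + 1 + q) c := by
    rintro ⟨c, hc⟩
    obtain ⟨p, h1, h2⟩ := jn_ham (by omega) hc
    exact HQ_no q hq p h1 h2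
  have hlen : ∀ (v) (w : (jn t q (HQ q)).Walk v v), w.IsCycle → w.length ≤ 2 * t + q := by
    intro v w hw
    have := F04_len hcard hno v w hw
    omega
  have hnh : ∀ (inst : DecidableEq (Fin (t + 1) ⊕ (Fin t ⊕ Fin q))),
      ¬ @SimpleGraph.IsHamiltonian _ inst _ (jn t q (HQ q)) := by
    intro inst hH
    obtain ⟨a, p, hp⟩ := hH (by rw [hcard]; omega)
    have h1 := hlen a p hp.isCycle
    have h2 := hp.length_eq
    rw [h2, hcard] at h1
    omega
  obtain ⟨pa', _, a2, a3, a4⟩ := HQ_path q hq11 pa 2 (by omega) (pa_spec q hq)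
  obtain ⟨pb', _, b2, b3, b4⟩ := HQ_path q hq11 (pb q) 3 (by omega) (pb_spec q hq)
  obtain ⟨hca, hza⟩ := jn_cyc (t := t) (by omega) pa' ⟨2, by omega⟩ a2 a3 a4
  obtain ⟨hcb, hzb⟩ := jn_cyc (t := t) (by omega) pb' ⟨3, by omega⟩ b2 b3 b4
  obtain ⟨wc, hwc1, hwc2, _, hwc4⟩ := walk_of_cycseq hca
  obtain ⟨wd, hwd1, hwd2, _, hwd4⟩ := walk_of_cycseq hcb
  have hcs : ∀ z, z ∈ wc.support ↔ z ≠ Sum.inr (Sum.inr ⟨2, by omega⟩) := fun z => (hwc4 z).trans (hza z)
  have hds : ∀ z, z ∈ wd.support ↔ z ≠ Sum.inr (Sum.inr ⟨3, by omega⟩) := fun z => (hwd4 z).trans (hzb z)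
  have hne : wc.toSubgraph ≠ wd.toSubgraph := by
    intro h
    have h1 : (Sum.inr (Sum.inr ⟨2, by omega⟩) : Fin (t + 1) ⊕ (Fin t ⊕ Fin q)) ∈ wd.toSubgraph.verts := by
      rw [SimpleGraph.Walk.mem_verts_toSubgraph, hds]
      intro h2
      simp at h2
    rw [← h, SimpleGraph.Walk.mem_verts_toSubgraph, hcs] at h1
    exact h1 rfl
  have hA := hm (Fin (t + 1) ⊕ (Fin t ⊕ Fin q)) (jn t q (HQ q)) (jn_conn (by omega) k hkt) (hnh _)
    ⟨_, wc, hwc1, by omega⟩ _ _ wc wd ⟨hwc1, fun u w hw => by rw [hwc2]; exact hlen u w hw⟩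
    ⟨hwd1, fun u w hw => by rw [hwd2]; exact hlen u w hw⟩ hne
  have hcom : common wc wd = ({Sum.inr (Sum.inr ⟨2, by omega⟩), Sum.inr (Sum.inr ⟨3, by omega⟩)} :
      Set (Fin (t + 1) ⊕ (Fin t ⊕ Fin q)))ᶜ := by
    ext v
    simp only [common, Set.mem_setOf_eq, hcs, hds, Set.mem_compl_iff, Set.mem_insert_iff,
      Set.mem_singleton_iff, not_or]
  rw [hcom] at hA
  have hle : (({Sum.inr (Sum.inr ⟨2, by omega⟩), Sum.inr (Sum.inr ⟨3, by omega⟩)} :
      Set (Fin (t + 1) ⊕ (Fin t ⊕ Fin q)))ᶜ).ncard ≤ m := by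
    have h2 := Set.ncard_add_ncard_compl ({Sum.inr (Sum.inr ⟨2, by omega⟩), Sum.inr (Sum.inr ⟨3, by omega⟩)} :
      Set (Fin (t + 1) ⊕ (Fin t ⊕ Fin q)))
    rw [Set.ncard_pair (by simp), Nat.card_eq_fintype_card, hcard] at h2
    omega
  apply hA hle
  have key : ∀ z : {v : Fin (t + 1) ⊕ (Fin t ⊕ Fin q) | v ∉ ({Sum.inr (Sum.inr ⟨2, by omega⟩),
      Sum.inr (Sum.inr ⟨3, by omega⟩)} : Set (Fin (t + 1) ⊕ (Fin t ⊕ Fin q)))ᶜ},
      z.1 = Sum.inr (Sum.inr ⟨2, by omega⟩) ∨ z.1 = Sum.inr (Sum.inr ⟨3, by omega⟩) := by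
    intro z
    have := z.2
    simp only [Set.mem_setOf_eq, Set.mem_compl_iff, not_not, Set.mem_insert_iff,
      Set.mem_singleton_iff] at this
    exact this
  have h23 : (jn t q (HQ q)).Adj (Sum.inr (Sum.inr ⟨2, by omega⟩)) (Sum.inr (Sum.inr ⟨3, by omega⟩)) := by
    rw [jn_qq]
    refine ⟨?_, ?_⟩
    · show 3 ∈ nb q 2
      simp [nb]
    · show 2 ∈ nb q 3
      simp [nb]
  intro x y
  rcases key x with hx | hx <;> rcases key y with hy | hy
  · have : x = y := Subtype.ext (hx.trans hy.symm)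
    rw [this]
  · apply SimpleGraph.Adj.reachable
    show (jn t q (HQ q)).Adj x.1 y.1
    rw [hx, hy]
    exact h23
  · apply SimpleGraph.Adj.reachable
    show (jn t q (HQ q)).Adj x.1 y.1
    rw [hx, hy]
    exact h23.symm
  · have : x = y := Subtype.ext (hx.trans hy.symm)
    rw [this]

end LC
end

section

/-! TASK D04 of MP_6bc8af_co. -/

open Classical

namespace LC

variable {P : Type} {x y : P → ℕ} {a b : ℕ → ℕ} {q : ℕ} {out f w s : ℕ → Bool}
  {lo hi : ℕ → Bool → ℕ} {e : Bool → Bool → ℕ → P}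

private theorem D04_bool (u v : Bool) : u = v ∨ u = !v := by
  cases u <;> cases v <;> simp

private theorem D04_nxt (h : Dbl x y a b q out f w s lo hi e) {p p' : P} (hp : p ∈ TT q e)
    (hp' : p' ∈ TT q e) (hlt : x p < x p')
    (hno : ∀ κ ≤ q, out κ = true → ∀ k < q, (k = κ ∨ k + 1 = κ) → ∀ c i,
      x (e c i k) ≤ x p ∨ x p' ≤ x (e c i k)) : Nxt (TT q e) x p p' := by
  refine ⟨hp, hp', hlt, ?_⟩
  rintro t ht ⟨h1, h2⟩
  obtain ⟨c, i, k, hk, rfl⟩ := mem_TT.1 ht
  obtain ⟨κ, hκ, ho, hkκ⟩ := h.outer hk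
  rcases hno κ hκ ho k hk hkκ c i with h3 | h3 <;> omega

private theorem D04_even (h : Dbl x y a b q out f w s lo hi e) {p : P}
    (hno : ∀ κ ≤ q, out κ = true → ∀ k < q, (k = κ ∨ k + 1 = κ) → ∀ c i,
      a (x (e c i k)) = a (x p) → x (e c i k) ≤ x p) : Even (cnt (TT q e) x (x p)) := by
  refine even_cnt_last h.amono h.even_fibre ?_
  intro t ht heq
  obtain ⟨c, i, k, hk, rfl⟩ := mem_TT.1 ht
  obtain ⟨κ, hκ, ho, hkκ⟩ := h.outer hk
  exact hno κ hκ ho k hk hkκ c i heq

private theorem D04_eR (hq : 2 ≤ q) {κ : ℕ} (hκ : κ ≤ q) : (eR q f w κ).2 < q ∧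
    ((eR q f w κ).2 = κ ∨ (eR q f w κ).2 + 1 = κ) := by
  unfold eR
  simp only
  split_ifs <;> omega

private theorem D04_eL (hq : 2 ≤ q) {κ : ℕ} (hκ : κ ≤ q) : (eL q f w κ).2 < q ∧
    ((eL q f w κ).2 = κ ∨ (eL q f w κ).2 + 1 = κ) := by
  unfold eL
  simp only
  split_ifs <;> omega

/-- `e c i k` at the layer `κ'` below or above the layer `κ` -/
private theorem D04_ne (h : Dbl x y a b q out f w s lo hi e) {κ κ' k₁ k₂ k' : ℕ} (hκ : κ ≤ q)
    (hκ' : κ' ≤ q) (ho : out κ = true) (ho' : out κ' = true) (hne : κ' ≠ κ)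
    (hk₁ : k₁ < q) (hkκ₁ : k₁ = κ ∨ k₁ + 1 = κ) (hk₂ : k₂ < q) (hkκ₂ : k₂ = κ ∨ k₂ + 1 = κ)
    (hk' : k' < q) (hkκ' : k' = κ' ∨ k' + 1 = κ') (c₁ c₂ c' i₁ i₂ i' : Bool) :
    x (e c' i' k') ≤ x (e c₁ i₁ k₁) ∨ x (e c₂ i₂ k₂) ≤ x (e c' i' k') := by
  rcases h.hull κ hκ κ' hκ' (Ne.symm hne) with h1 | h1
  · right
    exact (h.lt_layer hκ hκ' ho ho' h1 hk₂ hkκ₂ hk' hkκ' c₂ c' i₂ i').2.le
  · left
    exact (h.lt_layer hκ' hκ ho' ho h1 hk' hkκ' hk₁ hkκ₁ c' c₁ i' i₁).2.le

private theorem D04_core (h : Dbl x y a b q out f w s lo hi e) (c : Bool) {κ m m' : ℕ}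
    (h0 : 0 < κ) (hκ : κ < q) (ho : out κ = true) (hm : m = κ ∨ m + 1 = κ)
    (hm' : m' = κ ∨ m' + 1 = κ)
    (hmx : ∀ k, (k = κ ∨ k + 1 = κ) → x (e c (f κ) k) ≤ x (e c (f κ) m))
    (hmx' : ∀ k, (k = κ ∨ k + 1 = κ) → x (e c (!f κ) m') ≤ x (e c (!f κ) k)) :
    OutAdj (TT q e) x (e c (f κ) m) (e c (!f κ) m') := by
  have hmq : m < q := by omega
  have hmq' : m' < q := by omega
  left
  constructor
  · refine D04_nxt h (mem_TT.2 ⟨_, _, _, hmq, rfl⟩) (mem_TT.2 ⟨_, _, _, hmq', rfl⟩)
      (h.lt_path hκ.le ho hmq hm hmq' hm' c).2 ?_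
    intro κ' hκ' ho' k hk hkκ' c' i'
    by_cases hne : κ' = κ
    · subst hne
      rcases D04_bool c' c with hc | hc
      · subst hc
        rcases D04_bool i' (f κ') with hi | hi
        · subst hi
          exact Or.inl (hmx k hkκ')
        · subst hi
          exact Or.inr (hmx' k hkκ')
      · subst hc
        rcases D04_bool c (s κ') with hs | hs
        · right
          have h1 := (h.lt_copy hκ.le ho hmq' hm' hk hkκ' (!f κ') i').2
          rw [← hs] at h1
          exact h1.le
        · left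
          have h1 := (h.lt_copy hκ.le ho hk hkκ' hmq hm i' (f κ')).2
          rw [← hs] at h1
          have h2 : (!c) = s κ' := by rw [hs, Bool.not_not]
          rw [h2]
          exact h1.le
    · exact D04_ne h hκ.le hκ' ho ho' hne hmq hm hmq' hm' hk hkκ' c c c' (f κ) (!f κ) i'
  · refine D04_even h ?_
    intro κ' hκ' ho' k hk hkκ' c' i' heq
    obtain ⟨e1, e2, e3⟩ := h.same_seg hκ' hκ.le ho' ho hk hkκ' hmq hm heq
    subst e1
    subst e2
    have e4 := e3 h0 hκ
    subst e4
    exact hmx k hkκ'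

/-- The points joined by `SB` are joined by an outer arc.

PROOF. Let `z = (i, k)`, `SB z ≠ z`. By symmetry (of the conclusion under exchanging `z` and `SB z`; check both cases directly if simpler)
the pair is at an outer layer `κ`, `0 < κ < q`: if `w κ` it is `(f κ, κ)`, `(!f κ, κ - 1)`; if not `w κ` it is
`(f κ, κ - 1)`, `(!f κ, κ)`. Let `p` be the point on the path `f κ` and `p'` the one on `!f κ`. `p` is the last of the two points of its segment, `p'` the first
of its segment (`lt_w`). `x p < x p'` by `lt_path`. Nothing of `T = TT q e` lies between: let `t = e c' i' k'`, outer layer `κ'`. If `κ' ≠ κ`: `t` is below or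
above both (`lt_layer`, `hull`). If `κ' = κ` and `c' ≠ c`: below or above both (`lt_copy`). If `c' = c`: if `i' = f κ` then `x t ≤ x p` (`lt_w`), if
`i' = !f κ` then `x p' ≤ x t`. So `Nxt T x p p'`. `cnt T x (x p)` is even by `even_cnt_last` (`even_fibre`; the elements in the segment of `p` are
`e c (f κ) κ`, `e c (f κ) (κ - 1)` by `fibre_mid`, both `≤ x p`). -/
theorem Dbl.outAdj_local (h : Dbl x y a b q out f w s lo hi e) (c : Bool) (z : Bool × ℕ) (hz : z.2 < q)
    (hne : SB q out f w z ≠ z) :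
    OutAdj (TT q e) x (ee e c z) (ee e c (SB q out f w z)) ∨
      OutAdj (TT q e) x (ee e c (SB q out f w z)) (ee e c z) := by
  obtain ⟨i, k⟩ := z
  simp only at hz
  have hq := h.hq
  -- the two core cases
  have coreT : ∀ κ, 0 < κ → κ < q → out κ = true → w κ = true →
      OutAdj (TT q e) x (e c (f κ) κ) (e c (!f κ) (κ - 1)) := by
    intro κ h0 hκ ho hw
    refine D04_core h c h0 hκ ho (Or.inl rfl) (Or.inr (by omega)) ?_ ?_
    · rintro k (rfl | hk)
      · exact le_rfl
      · have e1 : k = κ - 1 := by omega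
        subst e1
        exact ((h.lt_w h0 hκ ho c (f κ)).2.1 hw).le
    · rintro k (rfl | hk)
      · exact ((h.lt_w h0 hκ ho c (!f k)).2.1 hw).le
      · have e1 : k = κ - 1 := by omega
        subst e1
        exact le_rfl
  have coreF : ∀ κ, 0 < κ → κ < q → out κ = true → w κ = false →
      OutAdj (TT q e) x (e c (f κ) (κ - 1)) (e c (!f κ) κ) := by
    intro κ h0 hκ ho hw
    refine D04_core h c h0 hκ ho (Or.inr (by omega)) (Or.inl rfl) ?_ ?_
    · rintro k (rfl | hk)
      · exact ((h.lt_w h0 hκ ho c (f k)).2.2 hw).le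
      · have e1 : k = κ - 1 := by omega
        subst e1
        exact le_rfl
    · rintro k (rfl | hk)
      · exact le_rfl
      · have e1 : k = κ - 1 := by omega
        subst e1
        exact ((h.lt_w h0 hκ ho c (!f κ)).2.2 hw).le
  by_cases ho : out k = true
  · by_cases hk0 : k = 0
    · exfalso
      apply hne
      subst hk0
      unfold SB
      simp only [ho, if_true]
    · by_cases hcond : (i == f k) = w k
      · have hSB : SB q out f w (i, k) = (!i, k - 1) := by
          unfold SB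
          simp only [ho, if_true, if_neg hk0, if_pos hcond]
        rw [hSB]
        unfold ee
        simp only
        cases hw : w k
        · right
          rw [hw] at hcond
          have hi : i = !f k := by
            revert hcond
            cases i <;> cases f k <;> simp
          rw [hi, Bool.not_not]
          exact coreF k (by omega) hz ho hw
        · left
          rw [hw] at hcond
          have hi : i = f k := by
            revert hcond
            cases i <;> cases f k <;> simp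
          rw [hi]
          exact coreT k (by omega) hz ho hw
      · exfalso
        apply hne
        unfold SB
        simp only [ho, if_true, if_neg hk0, if_neg hcond]
  · have ho' : out k = false := by simpa using ho
    by_cases hk1 : k + 1 = q
    · exfalso
      apply hne
      unfold SB
      simp only [ho', Bool.false_eq_true, if_false, if_pos hk1]
    · have hout : out (k + 1) = true := by
        rw [h.alt k hz, ho']
        rfl
      by_cases hcond : (i == f (k + 1)) = w (k + 1)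
      · exfalso
        apply hne
        unfold SB
        simp only [ho', Bool.false_eq_true, if_false, if_neg hk1, if_pos hcond]
      · have hSB : SB q out f w (i, k) = (!i, k + 1) := by
          unfold SB
          simp only [ho', Bool.false_eq_true, if_false, if_neg hk1, if_neg hcond]
        rw [hSB]
        unfold ee
        simp only
        cases hw : w (k + 1)
        · left
          rw [hw] at hcond
          have hi : i = f (k + 1) := by
            revert hcond
            cases i <;> cases f (k + 1) <;> simp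
          rw [hi]
          exact coreF (k + 1) (by omega) (by omega) hout hw
        · right
          rw [hw] at hcond
          have hi : i = !f (k + 1) := by
            revert hcond
            cases i <;> cases f (k + 1) <;> simp
          rw [hi, Bool.not_not]
          exact coreT (k + 1) (by omega) (by omega) hout hw

/-- The right end of the lower copy and the left end of the upper copy are joined by an outer arc.

PROOF. `p = ee e (s κ) (eR κ)`, `p' = ee e (!s κ) (eL κ)`. `x p < x p'` by `lt_copy`. Nothing between: a `t` at another outer layer is below or above both;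
a `t` at layer `κ` in the copy `s κ` has `x t ≤ x p`, in the copy `!s κ` `x p' ≤ x t` (`end_le`). Even count: `even_cnt_last`; an element `t` in the segment of `p`
is at layer `κ` in the copy `s κ` (`same_seg`), so `x t ≤ x p` by `end_le`. -/
theorem Dbl.outAdj_cross (h : Dbl x y a b q out f w s lo hi e) {κ : ℕ} (hκ : κ ≤ q) (ho : out κ = true) :
    OutAdj (TT q e) x (ee e (s κ) (eR q f w κ)) (ee e (!s κ) (eL q f w κ)) := by
  obtain ⟨r1, r2⟩ := D04_eR (f := f) (w := w) h.hq hκ
  obtain ⟨l1, l2⟩ := D04_eL (f := f) (w := w) h.hq hκ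
  left
  constructor
  · refine D04_nxt h (mem_TT.2 ⟨_, _, _, r1, rfl⟩) (mem_TT.2 ⟨_, _, _, l1, rfl⟩)
      (h.lt_copy hκ ho r1 r2 l1 l2 _ _).2 ?_
    intro κ' hκ' ho' k hk hkκ' c' i'
    by_cases hne : κ' = κ
    · subst hne
      rcases D04_bool c' (s κ') with hc | hc
      · subst hc
        exact Or.inl (h.end_le hκ ho hk hkκ' _ i').2
      · subst hc
        exact Or.inr (h.end_le hκ ho hk hkκ' _ i').1
    · exact D04_ne h hκ hκ' ho ho' hne r1 r2 l1 l2 hk hkκ' _ _ c' _ _ i'
  · refine D04_even h ?_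
    intro κ' hκ' ho' k hk hkκ' c' i' heq
    obtain ⟨e1, e2, -⟩ := h.same_seg hκ' hκ ho' ho hk hkκ' r1 r2 heq
    subst e1
    subst e2
    exact (h.end_le hκ ho hk hkκ' _ i').2

/-- The last point of an outer layer and the first point of the next outer layer are joined by an outer arc.

PROOF. `p = ee e (!s κ) (eR κ)`, `p' = ee e (s κ') (eL κ')`, `x p < x p'` by `lt_layer`. Nothing between: let `t` be at the outer layer `κ''`. If
`κ'' = κ`: `x t ≤ x p` (by `end_le` in the copy `!s κ`, by `lt_copy` in the copy `s κ`). If `κ'' = κ'`: `x p' ≤ x t`. Otherwise `hnext` says that `κ''` is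
below `κ` or above `κ'`: use `lt_layer`. Even count as before. -/
theorem Dbl.outAdj_chain (h : Dbl x y a b q out f w s lo hi e) {κ κ' : ℕ} (hκ : κ ≤ q) (hκ' : κ' ≤ q)
    (ho : out κ = true) (ho' : out κ' = true) (hlt : hi κ true < lo κ' false)
    (hnext : ∀ κ'' ≤ q, out κ'' = true → κ'' = κ ∨ κ'' = κ' ∨ hi κ'' true < lo κ false ∨
      hi κ' true < lo κ'' false) :
    OutAdj (TT q e) x (ee e (!s κ) (eR q f w κ)) (ee e (s κ') (eL q f w κ')) := by
  obtain ⟨r1, r2⟩ := D04_eR (f := f) (w := w) h.hq hκ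
  obtain ⟨l1, l2⟩ := D04_eL (f := f) (w := w) h.hq hκ'
  left
  constructor
  · refine D04_nxt h (mem_TT.2 ⟨_, _, _, r1, rfl⟩) (mem_TT.2 ⟨_, _, _, l1, rfl⟩)
      (h.lt_layer hκ hκ' ho ho' hlt r1 r2 l1 l2 _ _ _ _).2 ?_
    intro κ'' hκ'' ho'' k hk hkκ c' i'
    rcases hnext κ'' hκ'' ho'' with hn | hn | hn | hn
    · subst hn
      left
      rcases D04_bool c' (s κ'') with hc | hc
      · subst hc
        exact (h.lt_copy hκ ho hk hkκ r1 r2 i' _).2.le
      · subst hc
        exact (h.end_le hκ ho hk hkκ _ i').2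
    · subst hn
      right
      rcases D04_bool c' (s κ'') with hc | hc
      · subst hc
        exact (h.end_le hκ' ho' hk hkκ _ i').1
      · subst hc
        exact (h.lt_copy hκ' ho' l1 l2 hk hkκ _ i').2.le
    · exact Or.inl (h.lt_layer hκ'' hκ ho'' ho hn hk hkκ r1 r2 c' _ i' _).2.le
    · exact Or.inr (h.lt_layer hκ' hκ'' ho' ho'' hn l1 l2 hk hkκ _ c' _ i').2.le
  · refine D04_even h ?_
    intro κ'' hκ'' ho'' k hk hkκ c' i' heq
    obtain ⟨e1, e2, -⟩ := h.same_seg hκ'' hκ ho'' ho hk hkκ r1 r2 heq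
    subst e1
    subst e2
    exact (h.end_le hκ ho hk hkκ _ i').2

/-- The last point of the last outer layer and the first point of the first outer layer are joined by an outer arc.

PROOF. Second clause of `OutAdj`: `p = ee e (!s κ) (eR κ)` is maximal: a point at layer `κ` by `end_le` / `lt_copy`, at another outer layer by
`hmax` and `lt_layer`. In the same way `ee e (s κ') (eL κ')` is minimal. -/
theorem Dbl.outAdj_close (h : Dbl x y a b q out f w s lo hi e) {κ κ' : ℕ} (hκ : κ ≤ q) (hκ' : κ' ≤ q)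
    (ho : out κ = true) (ho' : out κ' = true)
    (hmax : ∀ κ'' ≤ q, out κ'' = true → κ'' = κ ∨ hi κ'' true < lo κ false)
    (hmin : ∀ κ'' ≤ q, out κ'' = true → κ'' = κ' ∨ hi κ' true < lo κ'' false) :
    OutAdj (TT q e) x (ee e (!s κ) (eR q f w κ)) (ee e (s κ') (eL q f w κ')) := by
  obtain ⟨r1, r2⟩ := D04_eR (f := f) (w := w) h.hq hκ
  obtain ⟨l1, l2⟩ := D04_eL (f := f) (w := w) h.hq hκ'
  right
  refine ⟨mem_TT.2 ⟨_, _, _, r1, rfl⟩, mem_TT.2 ⟨_, _, _, l1, rfl⟩, ?_, ?_⟩
  · intro t ht
    obtain ⟨c', i', k, hk, rfl⟩ := mem_TT.1 ht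
    obtain ⟨κ'', hκ'', ho'', hkκ⟩ := h.outer hk
    rcases hmax κ'' hκ'' ho'' with hn | hn
    · subst hn
      rcases D04_bool c' (s κ'') with hc | hc
      · subst hc
        exact (h.lt_copy hκ ho hk hkκ r1 r2 i' _).2.le
      · subst hc
        exact (h.end_le hκ ho hk hkκ _ i').2
    · exact (h.lt_layer hκ'' hκ ho'' ho hn hk hkκ r1 r2 c' _ i' _).2.le
  · intro t ht
    obtain ⟨c', i', k, hk, rfl⟩ := mem_TT.1 ht
    obtain ⟨κ'', hκ'', ho'', hkκ⟩ := h.outer hk
    rcases hmin κ'' hκ'' ho'' with hn | hn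
    · subst hn
      rcases D04_bool c' (s κ'') with hc | hc
      · subst hc
        exact (h.end_le hκ' ho' hk hkκ _ i').1
      · subst hc
        exact (h.lt_copy hκ' ho' l1 l2 hk hkκ _ i').2.le
    · exact (h.lt_layer hκ' hκ'' ho' ho'' hn l1 l2 hk hkκ _ c' _ i').2.le

end LC
end

section

/-! TASK D05 of MP_6bc8af_co. -/

open Classical

namespace LC

variable {P : Type} {x y : P → ℕ} {a b : ℕ → ℕ} {q : ℕ} {out f w s : ℕ → Bool}
  {lo hi : ℕ → Bool → ℕ} {e : Bool → Bool → ℕ → P}

private theorem D05_bool {a b : Bool} (h : a ≠ b) : a = !b := by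
  revert h
  cases a <;> cases b <;> simp

private theorem D05_pair {T : Finset P} (hb : Monotone b)
    (hT : ∀ k, Even (T.filter (fun t => b (y t) = k)).card) {p p' : P} (hp : p ∈ T) (hp' : p' ∈ T)
    (hne : y p ≠ y p') (heq : b (y p') = b (y p)) (hfib : ∀ t ∈ T, b (y t) = b (y p) → t = p ∨ t = p') :
    InAdj T y p p' ∨ InAdj T y p' p := by
  rcases lt_or_gt_of_ne hne with hlt | hlt
  · left
    exact inAdj_of_fibre hb hT hp hp' hlt heq hfib
  · right
    apply inAdj_of_fibre hb hT hp' hp hlt heq.symm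
    intro t ht h1
    exact (hfib t ht (h1.trans heq)).symm

/-- The points joined by `SA` are joined by an inner arc of the second order.

PROOF. Work with `h' = h.swap : Dbl y x b a q (!out) ...` (file DDefs), whose outer layers are the inner layers `κ` (`out κ = false`), and its first
order is `y`. Let `z = (i, k)`. (1) `SA z = (i, k ± 1)`: then the inner layer is `κ` with `0 < κ < q` and `{z, SA z} = {(i, κ - 1), (i, κ)}`. By `h'.lt_w` the two
points have the same segment `b (y .)` and different positions; by `h'.fibre_mid` they are the whole fibre; `inAdj_of_fibre` (with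
`h'.even_fibre`) in the appropriate order. (2) `SA z = (!i, k)`: either `out k = true`, `k + 1 = q`, so the layer `q` is inner, or `out k = false`, `k = 0`, the layer
`0` is inner. Use `h'.fibre_zero` with `h.seg0` (`h'.seg0`), `h'.lt_path`, resp. `h'.fibre_last` with `h'.segq`. (The two points `(false, .)`, `(true, .)` are
`(f, .)`, `(!f, .)` in some order.) -/
theorem Dbl.inAdj_pair (h : Dbl x y a b q out f w s lo hi e) (c : Bool) (z : Bool × ℕ) (hz : z.2 < q) :
    InAdj (TT q e) y (ee e c z) (ee e c (SA q out z)) ∨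
      InAdj (TT q e) y (ee e c (SA q out z)) (ee e c z) := by
  have h' := h.swap
  have hq := h.hq
  obtain ⟨i, k⟩ := z
  simp only at hz
  cases hk : out k with
  | true =>
    by_cases h1 : k + 1 = q
    · have e1 : SA q out (i, k) = (!i, k) := by simp [SA, hk, h1]
      rw [e1]
      have hoq : out q = false := by
        rw [← h1, h.alt k hz, hk]
        rfl
      have ho' : (fun κ => !out κ) q = true := by simp [hoq]
      have hkq : k = q - 1 := by omega
      have hne : y (e c i k) ≠ y (e c (!i) k) := by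
        have h2 := (h'.lt_path (le_refl q) ho' hz (Or.inr h1) hz (Or.inr h1) c).2
        by_cases hi : i = f q
        · rw [hi]; omega
        · rw [D05_bool hi, Bool.not_not]; omega
      have hseg : b (y (e c (!i) k)) = b (y (e c i k)) := by
        have h2 := h'.segq c
        simp only [ls, hoq, Bool.not_false, if_true] at h2
        rw [← hkq] at h2
        cases i
        · exact h2.symm
        · exact h2
      apply D05_pair h.bmono h'.even_fibre (mem_TT.mpr ⟨c, i, k, hz, rfl⟩) (mem_TT.mpr ⟨c, !i, k, hz, rfl⟩)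
        hne hseg
      have h3 := h'.fibre_last ho' c i
      rw [← hkq] at h3
      exact h3
    · have e1 : SA q out (i, k) = (i, k + 1) := by simp [SA, hk, h1]
      rw [e1]
      have ho : out (k + 1) = false := by rw [h.alt k hz, hk]; rfl
      have ho' : (fun κ => !out κ) (k + 1) = true := by simp [ho]
      have hlt : k + 1 < q := by omega
      obtain ⟨w1, w2, w3⟩ := h'.lt_w (κ := k + 1) (by omega) hlt ho' c i
      rw [Nat.add_sub_cancel] at w1 w2 w3
      have hne : y (e c i (k + 1)) ≠ y (e c i k) := by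
        cases hw : w (k + 1) with
        | true => have := w2 hw; omega
        | false => have := w3 hw; omega
      rw [Or.comm]
      apply D05_pair h.bmono h'.even_fibre (mem_TT.mpr ⟨c, i, k + 1, hlt, rfl⟩)
        (mem_TT.mpr ⟨c, i, k, hz, rfl⟩) hne w1
      exact h'.fibre_mid (κ := k + 1) (by omega) hlt ho' c i
  | false =>
    have ho' : (fun κ => !out κ) k = true := by simp [hk]
    by_cases h1 : k = 0
    · subst h1
      have e1 : SA q out (i, 0) = (!i, 0) := by simp [SA, hk]
      rw [e1]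
      have hne : y (e c i 0) ≠ y (e c (!i) 0) := by
        have h2 := (h'.lt_path (Nat.zero_le q) ho' hz (Or.inl rfl) hz (Or.inl rfl) c).2
        by_cases hi : i = f 0
        · rw [hi]; omega
        · rw [D05_bool hi, Bool.not_not]; omega
      have hseg : b (y (e c (!i) 0)) = b (y (e c i 0)) := by
        have h2 := h'.seg0 c
        simp only [ls, hk, Bool.not_false, if_true] at h2
        cases i
        · exact h2.symm
        · exact h2
      apply D05_pair h.bmono h'.even_fibre (mem_TT.mpr ⟨c, i, 0, hz, rfl⟩) (mem_TT.mpr ⟨c, !i, 0, hz, rfl⟩)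
        hne hseg
      exact h'.fibre_zero ho' c i
    · have e1 : SA q out (i, k) = (i, k - 1) := by simp [SA, hk, h1]
      rw [e1]
      obtain ⟨w1, w2, w3⟩ := h'.lt_w (by omega) hz ho' c i
      have hne : y (e c i k) ≠ y (e c i (k - 1)) := by
        cases hw : w k with
        | true => have := w2 hw; omega
        | false => have := w3 hw; omega
      apply D05_pair h.bmono h'.even_fibre (mem_TT.mpr ⟨c, i, k, hz, rfl⟩)
        (mem_TT.mpr ⟨c, i, k - 1, by omega, rfl⟩) hne w1
      exact h'.fibre_mid (by omega) hz ho' c i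

end LC
end

section

/-! TASK D06 of MP_6bc8af_co. -/

open Classical

namespace LC

variable {P : Type} {x y : P → ℕ} {a b : ℕ → ℕ} {q : ℕ} {out f w s : ℕ → Bool}
  {lo hi : ℕ → Bool → ℕ} {e : Bool → Bool → ℕ → P}

/-- A double strip with shuffling signs is connected.

PROOF. Let `S : Set P` be as in `Conn (TT q e) x y`. Let `S' = {(z, c) | ee e c z ∈ S}`. Apply `hs` to `S'`: it is nonempty (`mem_TT`); the `SA` clause is
`inAdj_pair` with the closure of `S` under inner arcs of `y`; the `SB` clause: trivial if `SB z = z`, otherwise `outAdj_local`; the cross clause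
is `outAdj_cross` at `wd j`; the chain clause is `outAdj_chain` at `wd j`, `wd (j + 1)`: `hlt` is `hsort j (j + 1)`, and `hnext`: an outer layer
`κ''` is `wd i` (`surj`); `i = j`, `i = j + 1`, `i < j` (`hsort i j`) or `j + 1 < i` (`hsort (j + 1) i`); the closing clause is `outAdj_close` at
`wd (n - 1)`, `wd 0`. So all points `ee e c (i, k)`, `k < q`, are in `S`, i.e. `TT q e ⊆ S`. -/
theorem Dbl.conn (h : Dbl x y a b q out f w s lo hi e) {n : ℕ} {wd : ℕ → ℕ} (hwd : Enum q n out wd)
    (hsort : ∀ i j, i < j → j < n → hi (wd i) true < lo (wd j) false) (hs : Shuf q n out f w wd s) :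
    Conn (TT q e) x y := by
  have hn := hwd.pos
  intro S hne hO hI p hp
  obtain ⟨c, i, k, hk, rfl⟩ := mem_TT.mp hp
  refine hs {r : (Bool × ℕ) × Bool | ee e r.2 r.1 ∈ S} ?_ ?_ ?_ ?_ ?_ ?_ i k c hk
  · obtain ⟨p, hp, hpS⟩ := hne
    obtain ⟨c, i, k, hk, rfl⟩ := mem_TT.mp hp
    exact ⟨i, k, c, hk, hpS⟩
  · intro z hz b
    rcases h.inAdj_pair b z hz with h1 | h1
    · exact hI _ _ h1
    · exact (hI _ _ h1).symm
  · intro z hz b
    by_cases hzz : SB q out f w z = z
    · rw [hzz]
    · rcases h.outAdj_local b z hz hzz with h1 | h1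
      · exact hO _ _ h1
      · exact (hO _ _ h1).symm
  · intro j hj
    exact hO _ _ (h.outAdj_cross (hwd.le j hj) (hwd.outer j hj))
  · intro j hj
    apply hO
    apply h.outAdj_chain (hwd.le j (by omega)) (hwd.le (j + 1) hj) (hwd.outer j (by omega))
      (hwd.outer (j + 1) hj) (hsort j (j + 1) (by omega) hj)
    intro κ'' hκ ho
    obtain ⟨i, hi, rfl⟩ := hwd.surj κ'' hκ ho
    rcases lt_trichotomy i j with h1 | h1 | h1
    · right; right; left
      exact hsort i j h1 (by omega)
    · left; rw [h1]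
    · by_cases h2 : i = j + 1
      · right; left; rw [h2]
      · right; right; right
        exact hsort (j + 1) i (by omega) hi
  · apply hO
    apply h.outAdj_close (hwd.le (n - 1) (by omega)) (hwd.le 0 hn) (hwd.outer (n - 1) (by omega))
      (hwd.outer 0 hn)
    · intro κ'' hκ ho
      obtain ⟨i, hi, rfl⟩ := hwd.surj κ'' hκ ho
      by_cases h1 : i = n - 1
      · left; rw [h1]
      · right
        exact hsort i (n - 1) (by omega) (by omega)
    · intro κ'' hκ ho
      obtain ⟨i, hi, rfl⟩ := hwd.surj κ'' hκ ho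
      by_cases h1 : i = 0
      · left; rw [h1]
      · right
        exact hsort 0 i (by omega) hi

/-- The outer layers sorted by position.

PROOF. Let `K = {κ ∈ range (q + 1) | out κ = true}`, nonempty (`0` or `1` is in it, `1 ≤ q`). The function `κ ↦ lo κ false` is injective on `K` (`hull` and
`lohi`: `lo κ false ≤ hi κ true`), and `lo κ false < lo κ' false` iff `hi κ true < lo κ' false` for `κ ≠ κ'` in `K`. List the image of `K` in
increasing order (`Finset.orderEmbOfFin` for the finset `K.image (fun κ => lo κ false)`, or `Finset.sort`), `n = K.card`, and let `wd j` be the element of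
`K` with the `j`-th value. -/
theorem exists_enum {q : ℕ} {out : ℕ → Bool} {lo hi : ℕ → Bool → ℕ} (hq : 2 ≤ q)
    (halt : ∀ k < q, out (k + 1) = !out k)
    (lohi : ∀ κ ≤ q, lo κ false ≤ hi κ false ∧ hi κ false < lo κ true ∧ lo κ true ≤ hi κ true)
    (hull : ∀ κ ≤ q, ∀ κ' ≤ q, κ ≠ κ' → hi κ true < lo κ' false ∨ hi κ' true < lo κ false) :
    ∃ (n : ℕ) (wd : ℕ → ℕ), Enum q n out wd ∧ ∀ i j, i < j → j < n → hi (wd i) true < lo (wd j) false := by
  let K : Finset ℕ := (Finset.range (q + 1)).filter (fun κ => out κ = true)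
  have hK : ∀ κ, κ ∈ K ↔ κ ≤ q ∧ out κ = true := by
    intro κ
    simp only [K, Finset.mem_filter, Finset.mem_range, Nat.lt_succ_iff]
  have hinj : ∀ κ ∈ K, ∀ κ' ∈ K, lo κ false = lo κ' false → κ = κ' := by
    intro κ h1 κ' h2 h3
    by_contra hne
    rw [hK] at h1 h2
    have a1 := lohi κ h1.1
    have a2 := lohi κ' h2.1
    rcases hull κ h1.1 κ' h2.1 hne with h4 | h4 <;> omega
  let G : Finset ℕ := K.image (fun κ => lo κ false)
  let n := G.card
  let emb := G.orderEmbOfFin (rfl : G.card = n)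
  have hmem : ∀ j : Fin n, ∃ κ ∈ K, lo κ false = emb j := by
    intro j
    have := G.orderEmbOfFin_mem (rfl : G.card = n) j
    simp only [G, Finset.mem_image] at this
    exact this
  choose F hF1 hF2 using hmem
  let wd : ℕ → ℕ := fun j => if h : j < n then F ⟨j, h⟩ else 0
  have hwd : ∀ j (h : j < n), wd j = F ⟨j, h⟩ := by
    intro j h
    simp only [wd]
    rw [dif_pos h]
  have hKne : K.Nonempty := by
    cases h0 : out 0 with
    | true => exact ⟨0, (hK 0).mpr ⟨by omega, h0⟩⟩
    | false =>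
      refine ⟨1, (hK 1).mpr ⟨by omega, ?_⟩⟩
      have := halt 0 (by omega)
      rw [h0] at this
      simpa using this
  refine ⟨n, wd, ⟨?_, ?_, ?_, ?_, ?_⟩, ?_⟩
  · exact Finset.card_pos.mpr (hKne.image _)
  · intro j hj
    rw [hwd j hj]
    exact ((hK _).mp (hF1 ⟨j, hj⟩)).1
  · intro j hj
    rw [hwd j hj]
    exact ((hK _).mp (hF1 ⟨j, hj⟩)).2
  · intro i hi' j hj h1
    rw [hwd i hi', hwd j hj] at h1
    have h2 : emb ⟨i, hi'⟩ = emb ⟨j, hj⟩ := by rw [← hF2, ← hF2, h1]
    have h3 := emb.injective h2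
    exact congrArg Fin.val h3
  · intro κ hκ ho
    have h1 : lo κ false ∈ G := Finset.mem_image.mpr ⟨κ, (hK κ).mpr ⟨hκ, ho⟩, rfl⟩
    have h2 : lo κ false ∈ Set.range emb := by
      rw [Finset.range_orderEmbOfFin]
      exact h1
    obtain ⟨j, hj⟩ := h2
    refine ⟨j.1, j.2, ?_⟩
    rw [hwd j.1 j.2]
    apply hinj _ (hF1 _) _ ((hK κ).mpr ⟨hκ, ho⟩)
    rw [hF2, ← hj]
  · intro i j hij hj
    have hi' : i < n := by omega
    rw [hwd i hi', hwd j hj]
    have h1 : emb ⟨i, hi'⟩ < emb ⟨j, hj⟩ := emb.strictMono hij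
    rw [← hF2, ← hF2] at h1
    have h2 := (hK _).mp (hF1 ⟨i, hi'⟩)
    have h3 := (hK _).mp (hF1 ⟨j, hj⟩)
    have hne : F ⟨i, hi'⟩ ≠ F ⟨j, hj⟩ := by
      intro h
      rw [h] at h1
      exact lt_irrefl _ h1
    rcases hull _ h2.1 _ h3.1 hne with h4 | h4
    · exact h4
    · have a1 := lohi _ h2.1
      have a2 := lohi _ h3.1
      omega

end LC
end

section

/-! TASK D07 of MP_6bc8af_co. -/

open Classical

namespace LC

/-- From strips with arbitrary choice of the cells to an even connected set.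

PROOF. Apply `exists_enum` to `out` and to `fun κ => !out κ`: `(n₁, wd₁)`, `(n₂, wd₂)`. Apply `strip_psl` to `out`, `wd₁` and to `!out`, `wd₂` (the
alternation also holds for `!out`): signs `s₁`, `s₂`. Put `s κ = if out κ then s₁ κ else s₂ κ`. By `Shuf.congr`, `Shuf q n₁ out f w wd₁ s` and
`Shuf q n₂ (!out) f w wd₂ s`. Let `e₀` be the strip for `u = s` and `e₁` the strip for `u = fun κ => !s κ` (`hall`), and `e c = if c then e₁ else e₀`.
Then `Dbl x y a b q out f w s lo hi e` (`(false != s κ) = s κ`, `(true != s κ) = !s κ`). Take `T = TT q e`: nonempty (`0 < q`), `Dbl.even_fibre`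
for `h` and for `h.swap`, `Dbl.conn` for `h` and for `h.swap`. -/
theorem strips_to_T {P : Type} {x y : P → ℕ} {a b : ℕ → ℕ} {q : ℕ} {out f w : ℕ → Bool}
    {lo hi : ℕ → Bool → ℕ} (hq : 2 ≤ q) (halt : ∀ k < q, out (k + 1) = !out k)
    (hx : Function.Injective x) (hy : Function.Injective y) (ha : Monotone a) (hb : Monotone b)
    (lohi : ∀ κ ≤ q, lo κ false ≤ hi κ false ∧ hi κ false < lo κ true ∧ lo κ true ≤ hi κ true)
    (hull : ∀ κ ≤ q, ∀ κ' ≤ q, κ ≠ κ' → hi κ true < lo κ' false ∨ hi κ' true < lo κ false)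
    (hall : ∀ u : ℕ → Bool, ∃ e : Bool → ℕ → P, Strip x y a b q out f w lo hi u e) :
    ∃ T : Finset P, T.Nonempty ∧ (∀ i, Even (T.filter (fun t => a (x t) = i)).card) ∧
      (∀ i, Even (T.filter (fun t => b (y t) = i)).card) ∧ Conn T x y ∧ Conn T y x := by
  have halt' : ∀ k < q, (fun κ => !out κ) (k + 1) = !(fun κ => !out κ) k := by
    intro k hk
    simp [halt k hk]
  obtain ⟨n₁, wd₁, hwd₁, hs₁⟩ := exists_enum hq halt lohi hull
  obtain ⟨n₂, wd₂, hwd₂, hs₂⟩ := exists_enum (out := fun κ => !out κ) hq halt' lohi hull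
  obtain ⟨s₁, h₁⟩ := strip_psl (f := f) (w := w) hq halt hwd₁
  obtain ⟨s₂, h₂⟩ := strip_psl (f := f) (w := w) hq halt' hwd₂
  let s : ℕ → Bool := fun κ => if out κ = true then s₁ κ else s₂ κ
  have c₁ : Shuf q n₁ out f w wd₁ s := by
    apply Shuf.congr hwd₁ _ h₁
    intro κ ho
    simp [s, ho]
  have c₂ : Shuf q n₂ (fun κ => !out κ) f w wd₂ s := by
    apply Shuf.congr hwd₂ _ h₂
    intro κ ho
    have : out κ = false := by simpa using ho
    simp [s, this]
  obtain ⟨e₀, he₀⟩ := hall s
  obtain ⟨e₁, he₁⟩ := hall (fun κ => !s κ)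
  let e : Bool → Bool → ℕ → P := fun c => match c with
    | true => e₁
    | false => e₀
  have hD : Dbl x y a b q out f w s lo hi e := by
    refine ⟨hq, halt, hx, hy, ha, hb, ?_, ?_, ?_, ?_, ?_, ?_, ?_, ?_, lohi, hull⟩
    · intro c
      cases c
      · exact he₀.seg
      · exact he₁.seg
    · intro c
      cases c
      · exact he₀.seg0
      · exact he₁.seg0
    · intro c
      cases c
      · exact he₀.segq
      · exact he₁.segq
    · intro c
      cases c
      · exact he₀.hw
      · exact he₁.hw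
    · intro c
      cases c
      · exact he₀.hf
      · exact he₁.hf
    · intro c
      cases c
      · exact he₀.hf0
      · exact he₁.hf0
    · intro c
      cases c
      · exact he₀.hfq
      · exact he₁.hfq
    · intro c i κ k hk hkk
      cases c
      · have := he₀.cell i κ k hk hkk
        have e2 : (false != s κ) = s κ := by cases s κ <;> rfl
        rw [e2]
        exact this
      · have := he₁.cell i κ k hk hkk
        have e2 : (true != s κ) = !s κ := by cases s κ <;> rfl
        rw [e2]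
        exact this
  exact ⟨TT q e, ⟨e false false 0, mem_TT.mpr ⟨false, false, 0, by omega, rfl⟩⟩, hD.even_fibre,
    hD.swap.even_fibre, hD.conn hwd₁ hs₁ c₁, hD.swap.conn hwd₂ hs₂ c₂⟩

end LC
end
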