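import Pool.Agent.Lib.MP_6bc8af_co.Mg.G019
import Pool.Agent.Lib.MP_6bc8af_co.Mg.G020
import Pool.Agent.Lib.MP_6bc8af_co.Mg.G021
import Pool.Agent.Lib.MP_6bc8af_co.Mg.G001
import Pool.Agent.Lib.MP_6bc8af_co.Mg.G017
import Pool.Agent.Lib.MP_6bc8af_co.Mg.G026

section

/-! TASK B12 of MP_6bc8af_co. -/

open Classical

namespace LC

/-- The number of walks grows fast enough (real analysis).

PROOF. `t` satisfies `t l = N / (2 K' K₀) * ∏ j < l, (ρ (j + 1) / K (j + 1)) * (D * N ^ ε / (8 K (j + 1)))` (induction), so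
`t l = c₀ * D ^ l * N ^ (1 + ε l)` with `c₀ = 1 / (2 K' K 0) * ∏ j < l, ρ (j + 1) / (8 K (j + 1) ^ 2) > 0`, a constant that depends only on `K'`, `K`, `ρ`, `l`.
Take `D₀ = max 1 (2 ^ l / c₀ + 1)`. If `D ≥ D₀` and `N ≥ 1` then `D ^ l ≥ D ≥ D₀` (as `l ≥ 1`, `D ≥ 1`), `c₀ * D ^ l > 2 ^ l`, and
`N ^ (1 + ε l) ≥ N ^ 2` since `ε l ≥ 1`. So `t l > 2 ^ l * N ^ 2`. -/
theorem growth {ε : ℝ} (hε : 0 < ε) (l : ℕ) (hl : 0 < l) (hεl : 1 ≤ ε * l) (K' : ℕ) (hK' : 0 < K') (K ρ : ℕ → ℕ)
    (hK : ∀ j ≤ l, 0 < K j) (hρ : ∀ j ≤ l, 0 < ρ j) : ∃ D₀ : ℝ, 0 < D₀ ∧ ∀ (D N : ℝ) (t : ℕ → ℝ), D₀ ≤ D → 1 ≤ N →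
    t 0 = N / (2 * (K' : ℝ) * (K 0 : ℝ)) →
    (∀ j, t (j + 1) = ((ρ (j + 1) : ℝ) / (K (j + 1) : ℝ)) * (D * N ^ ε / (8 * (K (j + 1) : ℝ))) * t j) →
    2 ^ l * N ^ 2 < t l := by
  set c : ℕ → ℝ := fun j => 1 / (2 * (K' : ℝ) * (K 0 : ℝ)) *
    ∏ i ∈ Finset.range j, ((ρ (i + 1) : ℝ) / (8 * (K (i + 1) : ℝ) ^ 2)) with hc
  have hcl : 0 < c l := by
    have h1 : (0 : ℝ) < K' := by exact_mod_cast hK'
    have h2 : (0 : ℝ) < K 0 := by exact_mod_cast hK 0 (Nat.zero_le _)
    refine mul_pos (by positivity) (Finset.prod_pos fun i hi => ?_)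
    rw [Finset.mem_range] at hi
    have h3 : (0 : ℝ) < K (i + 1) := by exact_mod_cast hK (i + 1) hi
    have h4 : (0 : ℝ) < ρ (i + 1) := by exact_mod_cast hρ (i + 1) hi
    positivity
  refine ⟨max 1 (2 ^ l / c l + 1), lt_of_lt_of_le one_pos (le_max_left _ _), ?_⟩
  intro D N t hD hN h0 hstep
  have hD1 : 1 ≤ D := (le_max_left _ _).trans hD
  have hD2 : 2 ^ l / c l + 1 ≤ D := (le_max_right _ _).trans hD
  have key : ∀ j, t j = c j * D ^ j * (N ^ ε) ^ j * N := by
    intro j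
    induction j with
    | zero =>
      rw [h0]
      simp only [hc, Finset.range_zero, Finset.prod_empty, pow_zero]
      ring
    | succ j ih =>
      rw [hstep, ih]
      simp only [hc, Finset.prod_range_succ]
      rw [pow_succ D, pow_succ (N ^ ε)]
      ring
  have hDl : D ≤ D ^ l := le_self_pow₀ hD1 hl.ne'
  have h1 : 2 ^ l < c l * D ^ l := by
    have h2 : c l * (2 ^ l / c l + 1) = 2 ^ l + c l := by
      field_simp
    have h3 : c l * (2 ^ l / c l + 1) ≤ c l * D ^ l :=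
      mul_le_mul_of_nonneg_left (hD2.trans hDl) hcl.le
    linarith
  have hN0 : 0 < N := by linarith
  have h4 : N ≤ (N ^ ε) ^ l := by
    rw [← Real.rpow_natCast, ← Real.rpow_mul hN0.le]
    calc N = N ^ (1 : ℝ) := (Real.rpow_one N).symm
      _ ≤ N ^ (ε * l) := Real.rpow_le_rpow_of_exponent_le hN hεl
  have h5 : N ^ 2 ≤ (N ^ ε) ^ l * N := by
    rw [sq]
    exact mul_le_mul_of_nonneg_right h4 hN0.le
  rw [key l]
  calc 2 ^ l * N ^ 2 < c l * D ^ l * N ^ 2 := mul_lt_mul_of_pos_right h1 (by positivity)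
    _ ≤ c l * D ^ l * ((N ^ ε) ^ l * N) :=
      mul_le_mul_of_nonneg_left h5 ((by positivity : (0 : ℝ) ≤ 2 ^ l).trans h1.le)
    _ = c l * D ^ l * (N ^ ε) ^ l * N := by ring

private lemma B12_gd {H : ℕ → ℕ → Prop} {side : ℕ → Bool} {om : ℕ → ℕ → ℕ → Bool} {W : Finset ℕ} {l : ℕ}
    {K c c' : ℕ → ℕ} {φ : Ty l} (hc : ∀ i ≤ l, c i = c' i) (h : Gd H side om W l K c φ) :
    Gd H side om W l K c' φ := by
  obtain ⟨h1, v, hv⟩ := h
  refine ⟨h1, v, hv.two, fun i κ h2 h3 => ?_, hv.adj, hv.zero, hv.last, hv.ord, hv.hom, hv.om0, hv.omq⟩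
  rw [← hc κ (h3.trans h1)]
  exact hv.mem i κ h2 h3

/-- **The box lemma.**

PROOF. Choose `l ≥ 1` with `1 ≤ ε * l`. Let `Φ` be the function of `exists_clean hε l`, `K'` the constant of `side_large hε`, `r = 2 * (l + 1)`,
`F = Fintype.card (Ty l)`, and apply `exists_params l r F Ψ` with `Ψ ρ = Φ (2 * ρ) + 4 * K' * ρ + 1`: numbers `K j`, `ρ j` (called `r' j` there) with
`ρ j = r * (F * 2 ^ (∑ i ∈ Ioc j l, K i)) > 0` (`F > 0`), `Φ (2 * ρ j) ≤ K j`, `4 * K' * ρ j ≤ K j`, `0 < K j`. Let `D₀` be the constant of `growth` and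
`C = max D₀ (max K' (max_{j ≤ l} K j))` (as a real number; e.g. `D₀ + K' + ∑ j ∈ range (l + 1), K j`).
Given `H`, `N₀`: `exists_dense` for `V = range N₀` (nonempty, card `N₀`) gives `W`, `D ≥ C`, `Dense H ε D W`, and `W.card ≥ D ≥ C` (`Dense.le_card`), so
`K j ≤ W.card` for `j ≤ l`, `K' ≤ W.card`. `H` is irreflexive by `hb`. `exists_clean` with `R j = 2 * ρ j`: `W'` with `Rich H W W' l K R τ`,
`τ j = D * N ^ ε / (8 K j)`, `N = W.card`. `side_large`: `N < K' * card {v ∈ W' | side v}`. Define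
`t 0 = N / (2 K' K 0)`, `t (j + 1) = (ρ (j + 1) / K (j + 1)) * τ (j + 1) * t j` (positive for `j ≤ l`), and
`G j c := t j ≤ card (WK H side W W' K c j)`. `box_pigeon` with `Φ := Ty l`, `Q := Gd H side om W l K`, `r' := ρ`: `hG` by `WK_congr`; `hQ`: `Gd` only uses
the values `c κ`, `κ ≤ l` (`Pair.mem` with `α ≤ κ ≤ α + q ≤ l`); `hstart`: `WK_first`; `hstep`: `WK_step` with `r := ρ (j + 1)` (the prefix has `t j > 0`
walks, hence at least one; and `(ρ / K) * τ * t j ≤ (ρ / K) * τ * card (WK ...)`); `hfull`: `growth` gives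
`2 ^ l * N ^ 2 < t l ≤ card`, and `pair_of_many`. The resulting `φ`, `A` satisfy `walks_of_box` (`(A j).card = r = 2 * (l + 1)`). -/
theorem box {ε : ℝ} (hε : 0 < ε) : ∃ C : ℝ, 0 < C ∧ ∀ (H : ℕ → ℕ → Prop) (side : ℕ → Bool)
    (om : ℕ → ℕ → ℕ → Bool) (N₀ : ℕ), (∀ u v, H u v → H v u) → (∀ u v, H u v → side u ≠ side v) →
    (∀ u v w, H v u → H v w → u ≠ w → om u v w = !om w v u) → 0 < N₀ →
    C * (N₀ : ℝ) ^ (1 + ε) ≤ (eo H (Finset.range N₀) (Finset.range N₀) : ℝ) →
    ∃ (q : ℕ) (out f w : ℕ → Bool) (lo hi : ℕ → Bool → ℕ), 2 ≤ q ∧ (∀ k < q, out (k + 1) = !out k) ∧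
      (∀ κ ≤ q, lo κ false ≤ hi κ false ∧ hi κ false < lo κ true ∧ lo κ true ≤ hi κ true) ∧
      (∀ κ ≤ q, ∀ κ' ≤ q, κ ≠ κ' → hi κ true < lo κ' false ∨ hi κ' true < lo κ false) ∧
      ∀ u : ℕ → Bool, ∃ v, Walks H side om q out f w lo hi u v := by
  obtain ⟨l, hl, hεl⟩ : ∃ l : ℕ, 0 < l ∧ 1 ≤ ε * l := by
    obtain ⟨n, hn⟩ := exists_nat_gt (1 / ε)
    have h1 : (0 : ℝ) < n := lt_trans (by positivity) hn
    refine ⟨n, by exact_mod_cast h1, ?_⟩
    rw [div_lt_iff₀ hε] at hn
    linarith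
  obtain ⟨Φ, hΦ, hclean⟩ := exists_clean hε l
  obtain ⟨K', hK', hsl⟩ := side_large hε
  obtain ⟨K, ρ, hKρ⟩ := exists_params l (2 * (l + 1)) (Fintype.card (Ty l))
    (fun n => Φ (2 * n) + 4 * K' * n + 1)
  have hF : 0 < Fintype.card (Ty l) := Fintype.card_pos
  have hρ : ∀ j ≤ l, 0 < ρ j := by
    intro j hj
    rw [(hKρ j hj).1]
    positivity
  have hK : ∀ j ≤ l, 0 < K j := by
    intro j hj
    have := (hKρ j hj).2
    omega
  have hΦK : ∀ j ≤ l, Φ (2 * ρ j) ≤ K j := by
    intro j hj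
    have := (hKρ j hj).2
    omega
  have h4K : ∀ j ≤ l, 4 * K' * ρ j ≤ K j := by
    intro j hj
    have := (hKρ j hj).2
    omega
  obtain ⟨D₀, hD₀, hgrow⟩ := growth hε l hl hεl K' hK' K ρ hK hρ
  have hC : 0 < D₀ + (K' : ℝ) + ∑ j ∈ Finset.range (l + 1), (K j : ℝ) := by positivity
  refine ⟨D₀ + (K' : ℝ) + ∑ j ∈ Finset.range (l + 1), (K j : ℝ), hC, ?_⟩
  intro H side om N₀ hs hb hom hN₀ hge
  have hirr : ∀ u, ¬ H u u := fun u h => hb u u h rfl
  obtain ⟨W, -, D, hCD, hdense⟩ := exists_dense (H := H) hε hC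
    (V := Finset.range N₀) (Finset.nonempty_range_iff.2 hN₀.ne')
    (by rw [Finset.card_range]; exact hge)
  have hDW := hdense.le_card hε
  have hsum0 : (0 : ℝ) ≤ ∑ j ∈ Finset.range (l + 1), (K j : ℝ) :=
    Finset.sum_nonneg fun j _ => Nat.cast_nonneg _
  have hK'0 : (0 : ℝ) ≤ K' := Nat.cast_nonneg _
  have hKW : ∀ j ≤ l, K j ≤ W.card := by
    intro j hj
    have h1 : (K j : ℝ) ≤ ∑ j ∈ Finset.range (l + 1), (K j : ℝ) :=
      Finset.single_le_sum (f := fun j => (K j : ℝ)) (fun i _ => Nat.cast_nonneg _)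
        (Finset.mem_range.2 (Nat.lt_succ_of_le hj))
    have h2 : (K j : ℝ) ≤ (W.card : ℝ) := by linarith
    exact_mod_cast h2
  have hK'W : K' ≤ W.card := by
    have h2 : (K' : ℝ) ≤ (W.card : ℝ) := by linarith
    exact_mod_cast h2
  have hD0 : D₀ ≤ D := by linarith
  have hDpos : 0 < D := hdense.pos
  have hN : (1 : ℝ) ≤ (W.card : ℝ) := by
    have : 0 < W.card := hdense.ne.card_pos
    exact_mod_cast this
  obtain ⟨W', hW', hrich, hge'⟩ := hclean K (fun j => 2 * ρ j) hΦK H D W hs hirr hdense hKW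
  have hlarge := hsl H side D W W' hs hb hdense hK'W hW' hge'
  set τ : ℕ → ℝ := fun j => D * (W.card : ℝ) ^ ε / (8 * (K j : ℝ)) with hτ
  have hτ0 : ∀ j, 0 ≤ τ j := fun j => by positivity
  set t : ℕ → ℝ := fun j => Nat.rec ((W.card : ℝ) / (2 * (K' : ℝ) * (K 0 : ℝ)))
    (fun j s => ((ρ (j + 1) : ℝ) / (K (j + 1) : ℝ)) * τ (j + 1) * s) j with ht
  have ht0 : t 0 = (W.card : ℝ) / (2 * (K' : ℝ) * (K 0 : ℝ)) := rfl
  have hts : ∀ j, t (j + 1) = ((ρ (j + 1) : ℝ) / (K (j + 1) : ℝ)) * τ (j + 1) * t j := fun j => rfl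
  have htpos : ∀ j ≤ l, 0 < t j := by
    intro j
    induction j with
    | zero =>
      intro _
      rw [ht0]
      have h1 : (0 : ℝ) < K' := by exact_mod_cast hK'
      have h2 : (0 : ℝ) < K 0 := by exact_mod_cast hK 0 (Nat.zero_le _)
      have h3 : (0 : ℝ) < W.card := by linarith
      positivity
    | succ j ih =>
      intro hj
      rw [hts]
      have h0 := ih (by omega)
      have h1 : (0 : ℝ) < K (j + 1) := by exact_mod_cast hK (j + 1) hj
      have h2 : (0 : ℝ) < ρ (j + 1) := by exact_mod_cast hρ (j + 1) hj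
      have h3 : (0 : ℝ) < W.card := by linarith
      have h4 : 0 < τ (j + 1) := by
        simp only [hτ]
        positivity
      positivity
  have hfin := hgrow D (W.card : ℝ) t hD0 hN ht0 hts
  obtain ⟨φ, A, hA, hall⟩ := box_pigeon (Φ := Ty l) l K ρ (2 * (l + 1))
    (fun j hj => (hKρ j hj).1.ge)
    (fun j c => t j ≤ ((WK H side W W' K c j).card : ℝ))
    (fun j c c' h => by rw [WK_congr j h])
    (fun c φ => Gd H side om W l K c φ)
    (fun c c' φ h => ⟨B12_gd h, B12_gd fun i hi => (h i hi).symm⟩)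
    (by
      rw [ht0]
      exact WK_first hW' hK' (hK 0 (Nat.zero_le _)) (hKW 0 (Nat.zero_le _)) hlarge
        (h4K 0 (Nat.zero_le _)))
    (by
      intro j c hj hG
      have hw : 0 < (WK H side W W' K c j).card := by
        have h1 : (0 : ℝ) < ((WK H side W W' K c j).card : ℝ) := (htpos j (by omega)).trans_le hG
        exact_mod_cast h1
      have h1 := WK_step hW' hrich hj rfl (hK (j + 1) hj) (hτ0 (j + 1)) c hw
      refine h1.trans (Finset.card_le_card ?_)
      intro x hx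
      rw [Finset.mem_filter] at hx ⊢
      refine ⟨hx.1, le_trans ?_ hx.2⟩
      rw [hts]
      exact mul_le_mul_of_nonneg_left hG (mul_nonneg (by positivity) (hτ0 _)))
    (by
      intro c hG
      refine pair_of_many hs hb hom hW' ?_
      have h1 := hfin.trans_le hG
      exact_mod_cast h1)
  exact walks_of_box (fun j hj => (hA j hj).2) hall

end LC
end

section

/-! TASK Core of MP_6bc8af_co: the core theorem (combinatorics of two linear orders). -/

open Classical

namespace LC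

private lemma Core_pair {P : Type} {F : P → ℕ} {p p' : P} (hne : p ≠ p') (h : F p = F p') (i : ℕ) :
    Even ((({p, p'} : Finset P)).filter (fun t => F t = i)).card := by
  by_cases hi : F p = i
  · have e : (({p, p'} : Finset P)).filter (fun t => F t = i) = {p, p'} := by
      apply Finset.filter_true_of_mem
      intro t ht
      rw [Finset.mem_insert, Finset.mem_singleton] at ht
      rcases ht with rfl | rfl
      · exact hi
      · rw [← h]
        exact hi
    rw [e, Finset.card_pair hne]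
    exact even_two
  · have e : (({p, p'} : Finset P)).filter (fun t => F t = i) = ∅ := by
      apply Finset.filter_false_of_mem
      intro t ht
      rw [Finset.mem_insert, Finset.mem_singleton] at ht
      rcases ht with rfl | rfl
      · exact hi
      · rw [← h]
        exact hi
    rw [e, Finset.card_empty]
    exact Even.zero

/-- Among many pairs of positions there is an even connected set.

PROOF. Let `C₁` be the constant of `box hε` and `C = C₁ * 2 ^ (1 + ε)`. Given the data, if there are `p ≠ p'` with `a (x p) = a (x p')` and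
`b (y p) = b (y p')`, take `T = {p, p'}`: every fibre has `0` or `2` elements, `conn_pair hx`, `conn_pair hy`. Otherwise
`hinj : a (x p) = a (x p') → b (y p) = b (y p') → p = p'`. `P` is nonempty (its card is `≥ C M ^ (1 + ε) > 0`). Let `H = HH x y a b M`,
`side n = decide (n < M)`, `om = omH x y a b M`, `N₀ = 2 M`. `H` is symmetric, `H u v` implies that exactly one of `u`, `v` is `< M`,
`om` is antisymmetric (`omH_antisymm`). The number of adjacent pairs in `range (2 M)` is at least `Fintype.card P` (the map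
`p ↦ (a (x p), M + b (y p))` is injective by `hinj`; actually it is twice this number), so at least
`C * M ^ (1 + ε) = C₁ * (2 M) ^ (1 + ε)`. `box` gives the cells, `strip_of_walks` (with `a`, `b` as here; the strips are for `fun n => M + b n`) the strips, and
`strips_to_T` for `x`, `y`, `a`, `fun n => M + b n` (monotone) gives `T` with even fibres for `a` and for `fun n => M + b n`; the fibre of `b` over `i` is the fibre of
`M + b` over `M + i`. -/
theorem core (ε : ℝ) (hε : 0 < ε) : ∃ C : ℝ, 0 < C ∧ ∀ (P : Type) [Fintype P] (x y : P → ℕ)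
    (a b : ℕ → ℕ) (M : ℕ), 0 < M → Function.Injective x → Function.Injective y → Monotone a → Monotone b →
    (∀ p, a (x p) < M) → (∀ p, b (y p) < M) → C * (M : ℝ) ^ (1 + ε) ≤ Fintype.card P →
    ∃ T : Finset P, T.Nonempty ∧ (∀ i, Even (T.filter (fun t => a (x t) = i)).card) ∧
      (∀ i, Even (T.filter (fun t => b (y t) = i)).card) ∧ Conn T x y ∧ Conn T y x := by
  obtain ⟨C₁, hC₁, hbox⟩ := box hε
  refine ⟨C₁ * 2 ^ (1 + ε), by positivity, ?_⟩
  intro P _ x y a b M hM hx hy ha hb hax hby hcard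
  have hMr : (0 : ℝ) < M := by exact_mod_cast hM
  have hP : 0 < Fintype.card P := by
    have h1 : 0 < C₁ * 2 ^ (1 + ε) * (M : ℝ) ^ (1 + ε) := by positivity
    exact_mod_cast h1.trans_le hcard
  have hne : Nonempty P := Fintype.card_pos_iff.1 hP
  by_cases hinj : ∀ p p', a (x p) = a (x p') → b (y p) = b (y p') → p = p'
  · have hs : ∀ u v, HH x y a b M u v → HH x y a b M v u := by
      rintro u v ⟨p, h | h⟩
      · exact ⟨p, Or.inr h⟩
      · exact ⟨p, Or.inl h⟩
    have hside : ∀ u v, HH x y a b M u v → decide (u < M) ≠ decide (v < M) := by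
      rintro u v ⟨p, h | h⟩
      · have h1 : u < M := h.1 ▸ hax p
        have h2 : ¬ v < M := by omega
        rw [decide_eq_true h1, decide_eq_false h2]
        exact Bool.true_eq_false_eq_False
      · have h1 : v < M := h.1 ▸ hax p
        have h2 : ¬ u < M := by omega
        rw [decide_eq_true h1, decide_eq_false h2]
        exact Bool.false_ne_true
    have hom : ∀ u v w, HH x y a b M v u → HH x y a b M v w → u ≠ w →
        omH x y a b M u v w = !omH x y a b M w v u := fun u v w h h' hn =>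
      omH_antisymm hax hx hy hinj h h' hn
    have hge : C₁ * (((2 * M : ℕ)) : ℝ) ^ (1 + ε) ≤
        (eo (HH x y a b M) (Finset.range (2 * M)) (Finset.range (2 * M)) : ℝ) := by
      have h1 : C₁ * (((2 * M : ℕ)) : ℝ) ^ (1 + ε) = C₁ * 2 ^ (1 + ε) * (M : ℝ) ^ (1 + ε) := by
        rw [Nat.cast_mul, Nat.cast_ofNat, Real.mul_rpow (by norm_num) hMr.le]
        ring
      rw [h1]
      refine hcard.trans ?_
      have h2 : Fintype.card P ≤
          eo (HH x y a b M) (Finset.range (2 * M)) (Finset.range (2 * M)) := by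
        unfold eo
        rw [← Finset.card_univ]
        refine Finset.card_le_card_of_injOn (fun p => (a (x p), M + b (y p))) ?_ ?_
        · intro p _
          have h3 := hax p
          have h4 := hby p
          simp only [Finset.coe_filter, Finset.mem_product, Finset.mem_range, Set.mem_ofPred_eq]
          refine ⟨⟨by omega, by omega⟩, ⟨p, Or.inl ⟨rfl, rfl⟩⟩⟩
        · intro p _ p' _ h
          simp only [Prod.mk.injEq, Nat.add_left_cancel_iff] at h
          exact hinj p p' h.1 h.2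
      exact_mod_cast h2
    obtain ⟨q, out, f, w, lo, hi, hq, halt, lohi, hull, hall⟩ :=
      hbox (HH x y a b M) (fun n => decide (n < M)) (omH x y a b M) (2 * M) hs hside hom
        (by omega) hge
    have hb' : Monotone (fun n => M + b n) := fun i j hij => Nat.add_le_add_left (hb hij) M
    obtain ⟨T, hT, hT1, hT2, hc1, hc2⟩ := strips_to_T hq halt hx hy ha hb' lohi hull
      (fun u => by
        obtain ⟨v, hv⟩ := hall u
        exact ⟨_, strip_of_walks hax hinj hq halt hv⟩)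
    refine ⟨T, hT, hT1, fun i => ?_, hc1, hc2⟩
    have h1 := hT2 (M + i)
    simpa only [Nat.add_left_cancel_iff] using h1
  · push Not at hinj
    obtain ⟨p, p', h1, h2, hn⟩ := hinj
    exact ⟨{p, p'}, ⟨p, Finset.mem_insert_self _ _⟩, Core_pair (F := fun t => a (x t)) hn h1,
      Core_pair (F := fun t => b (y t)) hn h2, conn_pair hx hn, conn_pair hy hn⟩

end LC
end
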