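import Mathlib
import Pool.Agent.Lib.MP_6bc8af_co.Stmt
import Pool.Agent.Lib.MP_6bc8af_co.Mg.G001

section

/-! TASK K06 of MP_6bc8af_co. -/

namespace LC

/-- Real analysis.

PROOF. Put `D = C * 2 ^ (1 + ε)` and `c₀ = min 1 (D ^ (-(1 / (1 + ε))))`, positive. As `m ≥ 1`, `m + 1 ≤ 2 m`, so
`k ≤ D * m ^ (1 + ε)`. Raise to the power `1 / (1 + ε)`: `k ^ (1 / (1 + ε)) ≤ D ^ (1 / (1 + ε)) * m` (`Real.mul_rpow`,
`Real.rpow_mul`), so `c₀ * k ^ (1 / (1 + ε)) ≤ m`. Since `(1 - ε) (1 + ε) ≤ 1` we have `1 - ε ≤ 1 / (1 + ε)`, and `k ≥ 1` gives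
`k ^ (1 - ε) ≤ k ^ (1 / (1 + ε))` (`Real.rpow_le_rpow_of_exponent_le`). -/
theorem real_bound (ε C : ℝ) (hε : 0 < ε) (hC : 0 < C) : ∃ c₀ : ℝ, 0 < c₀ ∧ ∀ k m : ℕ, 1 ≤ k → 1 ≤ m →
    (k : ℝ) ≤ C * ((m : ℝ) + 1) ^ (1 + ε) → c₀ * (k : ℝ) ^ (1 - ε) ≤ m := by
  set D : ℝ := C * 2 ^ (1 + ε) with hD
  have hD0 : 0 < D := by positivity
  have h1e : 0 < 1 + ε := by linarith
  refine ⟨D ^ (-(1 / (1 + ε))), by positivity, ?_⟩
  intro k m hk hm h
  have hk' : (1 : ℝ) ≤ k := by exact_mod_cast hk
  have hm' : (1 : ℝ) ≤ m := by exact_mod_cast hm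
  have h2 : (k : ℝ) ≤ D * (m : ℝ) ^ (1 + ε) := by
    calc (k : ℝ) ≤ C * ((m : ℝ) + 1) ^ (1 + ε) := h
      _ ≤ C * (2 * (m : ℝ)) ^ (1 + ε) := by
          apply mul_le_mul_of_nonneg_left _ hC.le
          apply Real.rpow_le_rpow (by linarith) (by linarith) h1e.le
      _ = D * (m : ℝ) ^ (1 + ε) := by
          rw [Real.mul_rpow (by norm_num) (by linarith), hD]; ring
  have h3 : (k : ℝ) ^ (1 / (1 + ε)) ≤ D ^ (1 / (1 + ε)) * m := by
    calc (k : ℝ) ^ (1 / (1 + ε)) ≤ (D * (m : ℝ) ^ (1 + ε)) ^ (1 / (1 + ε)) :=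
          Real.rpow_le_rpow (by linarith) h2 (by positivity)
      _ = D ^ (1 / (1 + ε)) * m := by
          rw [Real.mul_rpow hD0.le (by positivity), ← Real.rpow_mul (by linarith)]
          rw [mul_one_div_cancel h1e.ne', Real.rpow_one]
  have h4 : (k : ℝ) ^ (1 - ε) ≤ (k : ℝ) ^ (1 / (1 + ε)) := by
    apply Real.rpow_le_rpow_of_exponent_le hk'
    rw [le_div_iff₀ h1e]
    nlinarith [sq_nonneg ε]
  calc D ^ (-(1 / (1 + ε))) * (k : ℝ) ^ (1 - ε)
      ≤ D ^ (-(1 / (1 + ε))) * (D ^ (1 / (1 + ε)) * m) := by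
        apply mul_le_mul_of_nonneg_left (h4.trans h3) (by positivity)
    _ = m := by
        rw [← mul_assoc, ← Real.rpow_add hD0]
        simp

end LC
end

section

/-! TASK K08 of MP_6bc8af_co. -/

open Classical

namespace LC

/-- The complete bipartite graph `K(k, k + 1)` is `k`-connected.

PROOF. The number of vertices is `2 k + 1 > k` (`k ≥ 1`). Let `S` have fewer than `k` elements: some `Sum.inl i` and some
`Sum.inr j` are not in `S`. In the induced graph every vertex `Sum.inl i'` is adjacent to `Sum.inr j`, every `Sum.inr j'` is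
adjacent to `Sum.inl i`, and `Sum.inl i`, `Sum.inr j` are adjacent; so it is connected. -/
theorem kbip_conn (k : ℕ) (hk : 1 ≤ k) : IsKConn (completeBipartiteGraph (Fin k) (Fin (k + 1))) k := by
  refine ⟨by simp only [Fintype.card_sum, Fintype.card_fin]; omega, ?_⟩
  intro S hS
  have h1 : ∃ i : Fin k, (Sum.inl i : Fin k ⊕ Fin (k + 1)) ∉ S := by
    by_contra hcon
    push Not at hcon
    have hsub : (Finset.univ : Finset (Fin k)).image (Sum.inl : Fin k → Fin k ⊕ Fin (k + 1)) ⊆ S := by
      intro z hz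
      rw [Finset.mem_image] at hz
      obtain ⟨i, _, rfl⟩ := hz
      exact hcon i
    have := Finset.card_le_card hsub
    rw [Finset.card_image_of_injective _ Sum.inl_injective, Finset.card_univ, Fintype.card_fin] at this
    omega
  have h2 : ∃ j : Fin (k + 1), (Sum.inr j : Fin k ⊕ Fin (k + 1)) ∉ S := by
    by_contra hcon
    push Not at hcon
    have hsub : (Finset.univ : Finset (Fin (k + 1))).image (Sum.inr : Fin (k + 1) → Fin k ⊕ Fin (k + 1)) ⊆ S := by
      intro z hz
      rw [Finset.mem_image] at hz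
      obtain ⟨i, _, rfl⟩ := hz
      exact hcon i
    have := Finset.card_le_card hsub
    rw [Finset.card_image_of_injective _ Sum.inr_injective, Finset.card_univ, Fintype.card_fin] at this
    omega
  obtain ⟨i, hi⟩ := h1
  obtain ⟨j, hj⟩ := h2
  let I : {v : Fin k ⊕ Fin (k + 1) | v ∉ S} := ⟨Sum.inl i, hi⟩
  let J : {v : Fin k ⊕ Fin (k + 1) | v ∉ S} := ⟨Sum.inr j, hj⟩
  have hJI : ((completeBipartiteGraph (Fin k) (Fin (k + 1))).induce {v | v ∉ S}).Adj J I := by
    simp [I, J, SimpleGraph.comap_adj]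
  have hreach : ∀ u : {v : Fin k ⊕ Fin (k + 1) | v ∉ S},
      ((completeBipartiteGraph (Fin k) (Fin (k + 1))).induce {v | v ∉ S}).Reachable u I := by
    rintro ⟨u, hu⟩
    rcases u with i' | j'
    · have : ((completeBipartiteGraph (Fin k) (Fin (k + 1))).induce {v | v ∉ S}).Adj ⟨Sum.inl i', hu⟩ J := by
        simp [J, SimpleGraph.comap_adj]
      exact this.reachable.trans hJI.reachable
    · have : ((completeBipartiteGraph (Fin k) (Fin (k + 1))).induce {v | v ∉ S}).Adj ⟨Sum.inr j', hu⟩ I := by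
        simp [I, SimpleGraph.comap_adj]
      exact this.reachable
  haveI : Nonempty {v : Fin k ⊕ Fin (k + 1) | v ∉ S} := ⟨I⟩
  exact ⟨fun u v => (hreach u).trans (hreach v).symm⟩

/-- Cycles of `K(k, k + 1)` have length at most `2 k`.

PROOF. By `cycseq_of_walk` the cycle is a cyclic sequence `c` of length `L`. Consecutive vertices are on different sides. The
map `i ↦ nx L i` is injective on `{i < L}` and sends the indices `i` with `c i` on the right side into the indices with `c i` on the
left side; so the number of right indices is at most the number of left indices, which is at most `k` (injectivity of `c`). So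
`L ≤ 2 k`. -/
theorem kbip_cycle (k : ℕ) (v : Fin k ⊕ Fin (k + 1))
    (w : (completeBipartiteGraph (Fin k) (Fin (k + 1))).Walk v v) (hw : w.IsCycle) : w.length ≤ 2 * k := by
  obtain ⟨hc, _⟩ := cycseq_of_walk w hw
  set c := w.getVert with hcdef
  set L := w.length with hL
  set Lt := (Finset.range L).filter (fun i => (c i).isLeft = true) with hLt
  set Rt := (Finset.range L).filter (fun i => ¬ (c i).isLeft = true) with hRt
  have hnx : ∀ i < L, nx L i < L := by
    intro i hi
    unfold nx
    have := hc.three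
    split_ifs <;> omega
  have hnxinj : ∀ i < L, ∀ j < L, nx L i = nx L j → i = j := by
    intro i hi j hj h
    unfold nx at h
    split_ifs at h <;> omega
  have hsum : Lt.card + Rt.card = L := by
    have := Finset.card_filter_add_card_filter_not (s := Finset.range L) (p := fun i => (c i).isLeft = true)
    simpa [hLt, hRt] using this
  have hRL : Rt.card ≤ Lt.card := by
    apply Finset.card_le_card_of_injOn (nx L)
    · intro i hi
      simp only [hRt, Finset.coe_filter, Finset.mem_range, Set.mem_setOf_eq] at hi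
      simp only [hLt, Finset.coe_filter, Finset.mem_range, Set.mem_setOf_eq]
      refine ⟨hnx i hi.1, ?_⟩
      have hadj := hc.adj i hi.1
      rcases h1 : c i with a | a
      · rw [h1] at hi; simp at hi
      · rcases h2 : c (nx L i) with b | b
        · rfl
        · rw [h1, h2] at hadj
          simp at hadj
    · intro i hi j hj h
      simp only [hRt, Finset.coe_filter, Finset.mem_range, Set.mem_setOf_eq] at hi hj
      exact hnxinj i hi.1 j hj.1 h
  have hLk : Lt.card ≤ k := by
    have h1 : (Lt.image c).card = Lt.card := by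
      apply Finset.card_image_of_injOn
      intro i hi j hj h
      simp only [hLt, Finset.coe_filter, Finset.mem_range, Set.mem_setOf_eq] at hi hj
      exact hc.inj i hi.1 j hj.1 h
    have h2 : Lt.image c ⊆ (Finset.univ : Finset (Fin k)).image (Sum.inl : Fin k → Fin k ⊕ Fin (k + 1)) := by
      intro z hz
      rw [Finset.mem_image] at hz
      obtain ⟨i, hi, rfl⟩ := hz
      rw [hLt, Finset.mem_filter] at hi
      rcases h3 : c i with a | a
      · simp
      · rw [h3] at hi; simp at hi
    have h3 := Finset.card_le_card h2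
    rw [h1, Finset.card_image_of_injective _ Sum.inl_injective, Finset.card_univ, Fintype.card_fin] at h3
    exact h3
  omega

/-- a cyclic sequence of `K(k, k + 1)` from a permutation of `0, ..., k - 1` -/
private theorem K08_aux (k : ℕ) (hk : 3 ≤ k) (s : ℕ → ℕ) (hs : ∀ i < k, s i < k)
    (hs2 : ∀ i < k, s (s i) = i) (c : ℕ → Fin k ⊕ Fin (k + 1))
    (he : ∀ i (hi : i < k), c (2 * i) = Sum.inl ⟨i, hi⟩)
    (ho : ∀ i (hi : i < k), c (2 * i + 1) = Sum.inr ⟨s i, lt_trans (hs i hi) (Nat.lt_succ_self k)⟩) :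
    CycSeq (completeBipartiteGraph (Fin k) (Fin (k + 1))) (2 * k) c ∧
      ∀ z, (∃ i < 2 * k, c i = z) ↔ z ≠ Sum.inr (Fin.last k) := by
  refine ⟨⟨by omega, ?_, ?_⟩, ?_⟩
  · intro i hi j hj hij
    rcases Nat.even_or_odd' i with ⟨a, rfl | rfl⟩ <;> rcases Nat.even_or_odd' j with ⟨b, rfl | rfl⟩
    · rw [he a (by omega), he b (by omega)] at hij
      simp only [Sum.inl.injEq, Fin.mk.injEq] at hij
      omega
    · rw [he a (by omega), ho b (by omega)] at hij
      simp at hij
    · rw [ho a (by omega), he b (by omega)] at hij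
      simp at hij
    · rw [ho a (by omega), ho b (by omega)] at hij
      simp only [Sum.inr.injEq, Fin.mk.injEq] at hij
      have h1 := hs2 a (by omega)
      have h2 := hs2 b (by omega)
      rw [hij, h2] at h1
      omega
  · intro i hi
    rcases Nat.even_or_odd' i with ⟨a, rfl | rfl⟩
    · have e : nx (2 * k) (2 * a) = 2 * a + 1 := by
        unfold nx
        split_ifs <;> omega
      rw [e, he a (by omega), ho a (by omega)]
      simp
    · have e : ∃ b, b < k ∧ nx (2 * k) (2 * a + 1) = 2 * b := by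
        unfold nx
        split_ifs with h
        · exact ⟨0, by omega, rfl⟩
        · exact ⟨a + 1, by omega, by omega⟩
      obtain ⟨b, hb, e⟩ := e
      rw [e, ho a (by omega), he b hb]
      simp
  · intro z
    constructor
    · rintro ⟨i, hi, rfl⟩ h
      rcases Nat.even_or_odd' i with ⟨a, rfl | rfl⟩
      · rw [he a (by omega)] at h
        simp at h
      · rw [ho a (by omega)] at h
        have h1 : s a = k := by
          have := Sum.inr.inj h
          exact congrArg Fin.val this
        have := hs a (by omega)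
        omega
    · intro hz
      rcases z with ⟨a, ha⟩ | ⟨b, hb⟩
      · exact ⟨2 * a, by omega, he a ha⟩
      · have hbk : b < k := by
          by_contra hcon
          apply hz
          have : b = k := by omega
          subst this
          rfl
        refine ⟨2 * s b + 1, by have := hs b hbk; omega, ?_⟩
        rw [ho (s b) (hs b hbk)]
        simp only [hs2 b hbk]

/-- Two different cycles of `K(k, k + 1)` with the same `2 k` vertices.

PROOF. `c (2 i) = inl i`, `c (2 i + 1) = inr i` (`i < k`) is a cyclic sequence of length `2 k ≥ 6`, and `d (2 i) = inl i`,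
`d (2 i + 1) = inr (σ i)` with `σ` exchanging `0` and `1` is another one; apply `walk_of_cycseq`. Both have the vertex set: all
`inl i`, and `inr i` with `i < k`, i.e. all vertices except `inr k`; this set has `2 k` elements. The edge `inl 0, inr 1` (indices `0, 1`) belongs to the second
one but not to the first one: there `inr 1` is the vertex of index `3` only, with the neighbours `inl 1`, `inl 2` (indices `2`, `4`,
`4 < 2 k`), and `inl 0` is different from both. Compare with `SimpleGraph.Walk.toSubgraph_adj_iff` (or `mem_edges_toSubgraph`)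
and the clause `w.getVert i = c i` of `walk_of_cycseq`. -/
theorem kbip_two (k : ℕ) (hk : 3 ≤ k) :
    ∃ (a b : Fin k ⊕ Fin (k + 1)) (c : (completeBipartiteGraph (Fin k) (Fin (k + 1))).Walk a a)
      (d : (completeBipartiteGraph (Fin k) (Fin (k + 1))).Walk b b), c.IsCycle ∧ d.IsCycle ∧
      c.length = 2 * k ∧ d.length = 2 * k ∧ c.toSubgraph ≠ d.toSubgraph ∧
      (∀ z, z ∈ c.support ↔ z ≠ Sum.inr (Fin.last k)) ∧ (∀ z, z ∈ d.support ↔ z ≠ Sum.inr (Fin.last k)) := by
  have hk0 : 0 < k := by omega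
  let s : ℕ → ℕ := fun n => if n = 0 then 1 else if n = 1 then 0 else n
  have hs : ∀ i < k, s i < k := by
    intro i hi
    simp only [s]
    split_ifs <;> omega
  have hs2 : ∀ i < k, s (s i) = i := by
    intro i hi
    by_cases h0 : i = 0
    · subst h0; simp [s]
    · by_cases h1 : i = 1
      · subst h1; simp [s]
      · simp [s, h0, h1]
  let mkc : (ℕ → ℕ) → ℕ → Fin k ⊕ Fin (k + 1) := fun r i =>
    if i % 2 = 0 then Sum.inl ⟨(i / 2) % k, Nat.mod_lt _ hk0⟩
    else Sum.inr ⟨r (i / 2) % (k + 1), Nat.mod_lt _ (Nat.succ_pos k)⟩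
  have hme : ∀ (r : ℕ → ℕ) i (hi : i < k), mkc r (2 * i) = Sum.inl ⟨i, hi⟩ := by
    intro r i hi
    simp only [mkc]
    have h1 : 2 * i % 2 = 0 := by omega
    have h2 : 2 * i / 2 = i := by omega
    rw [if_pos h1]
    congr 1
    apply Fin.ext
    simp only [h2]
    exact Nat.mod_eq_of_lt hi
  have hmo : ∀ (r : ℕ → ℕ) (hr : ∀ i < k, r i < k) i (hi : i < k),
      mkc r (2 * i + 1) = Sum.inr ⟨r i, lt_trans (hr i hi) (Nat.lt_succ_self k)⟩ := by
    intro r hr i hi
    simp only [mkc]
    have h1 : ¬ (2 * i + 1) % 2 = 0 := by omega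
    have h2 : (2 * i + 1) / 2 = i := by omega
    rw [if_neg h1]
    congr 1
    apply Fin.ext
    simp only [h2]
    exact Nat.mod_eq_of_lt (lt_trans (hr i hi) (Nat.lt_succ_self k))
  obtain ⟨hcS, hcz⟩ := K08_aux k hk (fun n => n) (fun i hi => hi) (fun i _ => rfl) (mkc (fun n => n))
    (hme (fun n => n)) (hmo (fun n => n) (fun i hi => hi))
  obtain ⟨hdS, hdz⟩ := K08_aux k hk s hs hs2 (mkc s) (hme s) (hmo s hs)
  obtain ⟨wc, hwc1, hwc2, hwc3, hwc4⟩ := walk_of_cycseq hcS
  obtain ⟨wd, hwd1, hwd2, hwd3, hwd4⟩ := walk_of_cycseq hdS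
  refine ⟨_, _, wc, wd, hwc1, hwd1, hwc2, hwd2, ?_, fun z => (hwc4 z).trans (hcz z),
    fun z => (hwd4 z).trans (hdz z)⟩
  intro heq
  have h0 : wd.getVert 0 = Sum.inl ⟨0, hk0⟩ := by
    rw [hwd3 0 (by omega)]
    exact hme s 0 hk0
  have h1 : wd.getVert 1 = Sum.inr ⟨1, by omega⟩ := by
    rw [hwd3 1 (by omega)]
    exact hmo s hs 0 hk0
  have hd : wd.toSubgraph.Adj (wd.getVert 0) (wd.getVert 1) :=
    wd.toSubgraph_adj_getVert (i := 0) (by omega)
  rw [← heq, h0, h1, SimpleGraph.Walk.toSubgraph_adj_iff] at hd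
  obtain ⟨i, hi, hil⟩ := hd
  have hc3 : ∀ i, i < 2 * k → (mkc (fun n => n)) i = Sum.inr ⟨1, by omega⟩ → i = 3 := by
    intro i hi h
    apply hcS.inj i hi 3 (by omega)
    rw [h]
    exact (hmo (fun n => n) (fun i hi => hi) 1 (by omega)).symm
  have hgend : wc.getVert (2 * k) = Sum.inl ⟨0, hk0⟩ := by
    have := wc.getVert_length
    rw [hwc2] at this
    rw [this]
    exact hme (fun n => n) 0 hk0
  rw [hwc2] at hil
  rw [Sym2.eq_iff] at hi
  rcases hi with ⟨h2, h3⟩ | ⟨h2, h3⟩
  · by_cases hlast : i + 1 = 2 * k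
    · rw [hlast, hgend] at h3
      simp at h3
    · rw [hwc3 (i + 1) (by omega)] at h3
      have h4 := hc3 (i + 1) (by omega) h3
      have h5 : i = 2 := by omega
      subst h5
      rw [hwc3 2 (by omega)] at h2
      have h6 := hme (fun n => n) 1 (by omega)
      simp only [mul_one] at h6
      rw [h6] at h2
      simp at h2
  · rw [hwc3 i hil] at h2
    have h4 := hc3 i hil h2
    subst h4
    rw [hwc3 (3 + 1) (by omega)] at h3
    have h6 := hme (fun n => n) 2 (by omega)
    have h7 : 2 * 2 = 3 + 1 := rfl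
    rw [h7] at h6
    rw [h6] at h3
    simp at h3


end LC
end
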