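import Pool.Agent.Lib.MP_6bc8af_co.Mg.G028
import Pool.Agent.Lib.MP_6bc8af_co.Mg.G020
import Pool.Agent.Lib.MP_6bc8af_co.Mg.G003
import Pool.Agent.Lib.MP_6bc8af_co.Mg.G022
import Pool.Agent.Lib.MP_6bc8af_co.K02
import Pool.Agent.Lib.MP_6bc8af_co.Mg.G030

section

/-! TASK K04 of MP_6bc8af_co. -/

open Classical

namespace LC

universe u

/-- From an even connected set of paths to a contradiction.

SETTING. `c`, `d` are cyclic sequences of length `L`, no cycle of `G` is longer than `L`; `X` contains all common vertices;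
`len`, `g` is a family of disjoint paths of `del G X` as in `Linked (del G X) (A \ X) (B \ X) t`, `A`, `B` the vertex sets of the
two cycles; `x p` (`y p`) is the index on `c` (`d`) of the first (last) vertex of the path `p`. `a`, `b` are monotone functions that
jump at every common vertex. `T` has even fibres.
PROOF. We check `Sys G L c d T x y len g` and apply `exchange`. `ne`, `hc`, `hd`, `xlt`, `ylt` clear; `ev`: `card_even_of_fibres`.
`g0`, `g1` are `hx`, `hy`. `len1`: if `len p = 0` then `g p 0` is in `A ∩ B`, so in `X` (`hX`), but it is not in `X`. `gadj` from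
`del`. `ginj` clear. All vertices of the paths are outside `X` (`g p i`, `i ≤ len p`: it is the end of an edge of `del G X`, or
`len p = 0` is excluded; or use that `g p 0 ∉ X`). `gC`: if `g p i = c j` then `g p i ∈ A \ X`, so `i = 0`; `gD` the same.
`cmark`: let `c i = d j`. No `t ∈ T` has `x t = i` (then `g t 0 = c i = d j` is in `A ∩ B ⊆ X`), so `cnt_even_of_fibres` applies with
the jump property `ha' i`. `dmark` the same. -/
theorem false_of_even {V : Type u} [Finite V] {G : SimpleGraph V} {L t : ℕ} {c d : ℕ → V} (hc : CycSeq G L c)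
    (hd : CycSeq G L d) (hmax : ∀ (v : V) (w : G.Walk v v), w.IsCycle → w.length ≤ L) {X : Set V}
    (hX : ∀ i < L, ∀ j < L, c i = d j → c i ∈ X)
    {x y len : Fin t → ℕ} {g : Fin t → ℕ → V}
    (hx : ∀ p, x p < L ∧ g p 0 = c (x p)) (hy : ∀ p, y p < L ∧ g p (len p) = d (y p))
    (h1 : ∀ p, g p 0 ∉ X) (h2 : ∀ p, g p (len p) ∉ X)
    (h3 : ∀ p, ∀ i < len p, (del G X).Adj (g p i) (g p (i + 1)))
    (h4 : ∀ p q, ∀ i ≤ len p, ∀ j ≤ len q, g p i = g q j → p = q ∧ i = j)
    (h5 : ∀ p, ∀ i ≤ len p, (∃ j < L, c j = g p i) → i = 0)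
    (h6 : ∀ p, ∀ i ≤ len p, (∃ j < L, d j = g p i) → i = len p)
    {a b : ℕ → ℕ} (ha : Monotone a) (hb : Monotone b)
    (ha' : ∀ i < L, (∃ j < L, c i = d j) → ∀ k < i, a k < a i)
    (hb' : ∀ j < L, (∃ i < L, c i = d j) → ∀ k < j, b k < b j)
    {T : Finset (Fin t)} (hne : T.Nonempty)
    (hTa : ∀ i, Even (T.filter (fun p => a (x p) = i)).card)
    (hTb : ∀ i, Even (T.filter (fun p => b (y p) = i)).card)
    (hT1 : Conn T x y) (hT2 : Conn T y x) : False := by
  refine exchange (G := G) (L := L) (c := c) (d := d) (T := T) (x := x) (y := y) (len := len)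
    (g := g) ?_ hT1 hT2 hmax
  refine ⟨hc, hd, hne, card_even_of_fibres hTa, fun p _ => (hx p).1, fun p _ => (hy p).1, ?_,
    fun p _ => (hx p).2, fun p _ => (hy p).2, fun p _ i hi => (h3 p i hi).1,
    fun p _ q _ i hi j hj h => h4 p q i hi j hj h,
    fun p _ i hi j hj h => h5 p i hi ⟨j, hj, h.symm⟩,
    fun p _ i hi j hj h => h6 p i hi ⟨j, hj, h.symm⟩, ?_, ?_⟩
  · intro p _
    by_contra h
    have h0 : len p = 0 := by omega
    have e1 := (hx p).2
    have e2 := (hy p).2
    rw [h0] at e2
    have e3 := hX (x p) (hx p).1 (y p) (hy p).1 (e1.symm.trans e2)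
    rw [← e1] at e3
    exact h1 p e3
  · intro i hi j hj h
    refine cnt_even_of_fibres ha hTa i (fun t _ ht => ?_) (ha' i hi ⟨j, hj, h⟩)
    have e3 := hX i hi j hj h
    rw [← ht, ← (hx t).2] at e3
    exact h1 t e3
  · intro i hi j hj h
    refine cnt_even_of_fibres hb hTb j (fun t _ ht => ?_) (hb' j hj ⟨i, hi, h⟩)
    have e3 := hX i hi j hj h
    rw [h, ← ht, ← (hy t).2] at e3
    exact h2 t e3

end LC
end

section

/-! TASK K05 of MP_6bc8af_co. -/

open Classical

namespace LC

universe u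

private theorem K05_bound {V : Type u} [Finite V] (L : ℕ) (f : ℕ → V)
    (hf : ∀ i < L, ∀ j < L, f i = f j → i = j) (mk : ℕ → Prop) (X : Set V) (h : ∀ i < L, mk i → f i ∈ X) :
    ((Finset.range L).filter mk).card ≤ X.ncard := by
  rw [← Set.ncard_coe_finset]
  apply Set.ncard_le_ncard_of_injOn f ?_ ?_ (Set.toFinite X)
  · intro j hj
    rw [Finset.mem_coe, Finset.mem_filter, Finset.mem_range] at hj
    exact h j hj.1 hj.2
  · intro j hj k hk hjk
    rw [Finset.mem_coe, Finset.mem_filter, Finset.mem_range] at hj hk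
    exact hf j hj.1 k hk.1 hjk

private theorem K05_notMem {V : Type u} {G : SimpleGraph V} {X : Set V} {t : ℕ} {len : Fin t → ℕ}
    {g : Fin t → ℕ → V} (h1 : ∀ p, g p 0 ∉ X)
    (h3 : ∀ p, ∀ i < len p, (del G X).Adj (g p i) (g p (i + 1))) (p : Fin t) (i : ℕ) (hi : i ≤ len p) :
    g p i ∉ X := by
  rcases Nat.eq_zero_or_pos i with h0 | h0
  · rw [h0]; exact h1 p
  · have h := h3 p (i - 1) (by omega)
    have h' : i - 1 + 1 = i := by omega
    rw [h'] at h
    exact h.2.2

/-- The number of common vertices up to a position, and its properties.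

Here `mk i` says that position `i` is a common vertex. PROOF. `a i = card {j ∈ range (i + 1) | j < L ∧ mk j}`. It is monotone, its
values are at most `card {j ∈ range L | mk j}`, and if `i < L`, `mk i` then `a k < a i` for `k < i` (the index `i` is counted in
`a i` and not in `a k`). -/
theorem exists_jump (L : ℕ) (mk : ℕ → Prop) :
    ∃ a : ℕ → ℕ, Monotone a ∧ (∀ i, a i ≤ ((Finset.range L).filter mk).card) ∧
      ∀ i < L, mk i → ∀ k < i, a k < a i := by
  refine ⟨fun i => ((Finset.range (i + 1)).filter (fun j => j < L ∧ mk j)).card, ?_, ?_, ?_⟩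
  · intro i j hij
    apply Finset.card_le_card
    intro k hk
    rw [Finset.mem_filter, Finset.mem_range] at hk ⊢
    exact ⟨by omega, hk.2⟩
  · intro i
    apply Finset.card_le_card
    intro k hk
    rw [Finset.mem_filter, Finset.mem_range] at hk ⊢
    exact hk.2
  · intro i hi hmk k hk
    apply Finset.card_lt_card
    rw [Finset.ssubset_iff_of_subset]
    · refine ⟨i, ?_, ?_⟩
      · rw [Finset.mem_filter, Finset.mem_range]
        exact ⟨by omega, hi, hmk⟩
      · rw [Finset.mem_filter, Finset.mem_range]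
        rintro ⟨h1, _⟩
        omega
    · intro j hj
      rw [Finset.mem_filter, Finset.mem_range] at hj ⊢
      exact ⟨by omega, hj.2⟩

/-- The number of disjoint paths between two longest cycles.

PROOF. Let `C` be the constant of `core ε hε`. Suppose `C * (X.ncard + 1) ^ (1 + ε) ≤ t` and unfold
`Linked`: `len`, `g` for `Fin t`. For `p : Fin t`, `g p 0` is in the first set, so `g p 0 = c (x p)` with `x p < L`, and
`g p (len p) = d (y p)` (choose `x`, `y`); `x` and `y` are injective by disjointness of the paths. Let `a`, `b` be the functions of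
`exists_jump` for `mk i := ∃ j < L, c i = d j` and `mk j := ∃ i < L, c i = d j`. The set of the `i < L` with `mk i` is mapped
injectively (by `c`) into `X`, so its card is `≤ X.ncard`; with `M = X.ncard + 1` we have `a (x p) < M`, `b (y p) < M`. By `core`
(`Fintype.card (Fin t) = t`) there is an even connected `T`; `false_of_even` gives the contradiction. -/
theorem paths_lt (ε : ℝ) (hε : 0 < ε) : ∃ C : ℝ, 0 < C ∧ ∀ {V : Type u} [Finite V] {G : SimpleGraph V}
    {L t : ℕ} {c d : ℕ → V}, CycSeq G L c → CycSeq G L d →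
    (∀ (v : V) (w : G.Walk v v), w.IsCycle → w.length ≤ L) → ∀ X : Set V,
    X = {v | (∃ i < L, c i = v) ∧ (∃ j < L, d j = v)} →
    Linked (del G X) ({v | ∃ i < L, c i = v} \ X) ({v | ∃ i < L, d i = v} \ X) t →
    (t : ℝ) < C * ((X.ncard : ℝ) + 1) ^ (1 + ε) := by
  obtain ⟨C, hC, hcore⟩ := core ε hε
  refine ⟨C, hC, ?_⟩
  intro V _ G L t c d hc hd hmax X hX hlink
  by_contra hcon
  push Not at hcon
  obtain ⟨len, g, hA, hB, hadj, hinj, hgA, hgB⟩ := hlink
  have hx : ∀ p, ∃ i, i < L ∧ g p 0 = c i := by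
    intro p
    obtain ⟨i, hi, h⟩ := (hA p).1
    exact ⟨i, hi, h.symm⟩
  have hy : ∀ p, ∃ i, i < L ∧ g p (len p) = d i := by
    intro p
    obtain ⟨i, hi, h⟩ := (hB p).1
    exact ⟨i, hi, h.symm⟩
  choose x hx using hx
  choose y hy using hy
  obtain ⟨a, ha, haM, haj⟩ := exists_jump L (fun i => ∃ j < L, c i = d j)
  obtain ⟨b, hb, hbM, hbj⟩ := exists_jump L (fun j => ∃ i < L, c i = d j)
  have hxinj : Function.Injective x := by
    intro p q hpq
    have h1 : g p 0 = g q 0 := by rw [(hx p).2, (hx q).2, hpq]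
    exact (hinj p q 0 (Nat.zero_le _) 0 (Nat.zero_le _) h1).1
  have hyinj : Function.Injective y := by
    intro p q hpq
    have h1 : g p (len p) = g q (len q) := by rw [(hy p).2, (hy q).2, hpq]
    exact (hinj p q (len p) le_rfl (len q) le_rfl h1).1
  have haX : ∀ i, a i ≤ X.ncard := fun i => (haM i).trans
    (K05_bound L c hc.inj _ X (by
      rintro j h1 ⟨k, hk, h2⟩
      rw [hX]
      exact ⟨⟨j, h1, rfl⟩, ⟨k, hk, h2.symm⟩⟩))
  have hbX : ∀ i, b i ≤ X.ncard := fun i => (hbM i).trans
    (K05_bound L d hd.inj _ X (by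
      rintro j h1 ⟨k, hk, h2⟩
      rw [hX]
      exact ⟨⟨k, hk, h2⟩, ⟨j, h1, rfl⟩⟩))
  obtain ⟨T, hTne, hTa, hTb, hT1, hT2⟩ := hcore (Fin t) x y a b (X.ncard + 1) (Nat.succ_pos _) hxinj
    hyinj ha hb (fun p => Nat.lt_succ_of_le (haX _)) (fun p => Nat.lt_succ_of_le (hbX _))
    (by rw [Fintype.card_fin]; push_cast; exact hcon)
  refine false_of_even hc hd hmax (X := X) ?_ hx hy (fun p => (hA p).2) (fun p => (hB p).2) hadj hinj
    ?_ ?_ ha hb haj hbj hTne hTa hTb hT1 hT2
  · intro i hi j hj hij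
    rw [hX]
    exact ⟨⟨i, hi, rfl⟩, ⟨j, hj, hij.symm⟩⟩
  · intro p i hi hij
    by_cases h0 : i = 0
    · exact h0
    · exact hgA p i hi ⟨hij, K05_notMem (fun p => (hA p).2) hadj p i hi⟩
  · intro p i hi hij
    exact hgB p i hi ⟨hij, K05_notMem (fun p => (hA p).2) hadj p i hi⟩

/-- Two longest cycles joined by two disjoint paths have a common vertex.

PROOF. Suppose `X = ∅` and unfold `Linked` with `t = n + 2`; take `x`, `y` as in `paths_lt`, `a = b = 0` (constant functions; there
is no common vertex, so the jump conditions are empty), `T = {0, 1}` in `Fin (n + 2)`; the fibres of a constant function on `T` have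
card `0` or `2`. `Conn T x y` and `Conn T y x` by `conn_pair`. `false_of_even` gives the contradiction. -/
theorem meet_of_two {V : Type u} [Finite V] {G : SimpleGraph V} {L n : ℕ} {c d : ℕ → V} (hc : CycSeq G L c)
    (hd : CycSeq G L d) (hmax : ∀ (v : V) (w : G.Walk v v), w.IsCycle → w.length ≤ L) (X : Set V)
    (hX : X = {v | (∃ i < L, c i = v) ∧ (∃ j < L, d j = v)})
    (h : Linked (del G X) ({v | ∃ i < L, c i = v} \ X) ({v | ∃ i < L, d i = v} \ X) (n + 2)) :
    X.Nonempty := by
  by_contra hcon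
  rw [Set.not_nonempty_iff_eq_empty] at hcon
  obtain ⟨len, g, hA, hB, hadj, hinj, hgA, hgB⟩ := h
  have hx : ∀ p, ∃ i, i < L ∧ g p 0 = c i := by
    intro p
    obtain ⟨i, hi, h⟩ := (hA p).1
    exact ⟨i, hi, h.symm⟩
  have hy : ∀ p, ∃ i, i < L ∧ g p (len p) = d i := by
    intro p
    obtain ⟨i, hi, h⟩ := (hB p).1
    exact ⟨i, hi, h.symm⟩
  choose x hx using hx
  choose y hy using hy
  have hxinj : Function.Injective x := by
    intro p q hpq
    have h1 : g p 0 = g q 0 := by rw [(hx p).2, (hx q).2, hpq]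
    exact (hinj p q 0 (Nat.zero_le _) 0 (Nat.zero_le _) h1).1
  have hyinj : Function.Injective y := by
    intro p q hpq
    have h1 : g p (len p) = g q (len q) := by rw [(hy p).2, (hy q).2, hpq]
    exact (hinj p q (len p) le_rfl (len q) le_rfl h1).1
  have hXc : ∀ i < L, ∀ j < L, c i = d j → c i ∈ X := by
    intro i hi j hj hij
    rw [hX]
    exact ⟨⟨i, hi, rfl⟩, ⟨j, hj, hij.symm⟩⟩
  have h01 : (0 : Fin (n + 2)) ≠ 1 := by
    intro h
    have := congrArg Fin.val h
    simp at this
  have hfib : ∀ i : ℕ, Even ((({0, 1} : Finset (Fin (n + 2))).filter (fun _ => (0 : ℕ) = i)).card) := by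
    intro i
    by_cases hi : (0 : ℕ) = i
    · have h1 : (({0, 1} : Finset (Fin (n + 2))).filter (fun _ => (0 : ℕ) = i)) = {0, 1} :=
        Finset.filter_true_of_mem (fun _ _ => hi)
      rw [h1, Finset.card_pair h01]
      exact ⟨1, rfl⟩
    · have h1 : (({0, 1} : Finset (Fin (n + 2))).filter (fun _ => (0 : ℕ) = i)) = ∅ :=
        Finset.filter_false_of_mem (fun _ _ => hi)
      rw [h1, Finset.card_empty]
      exact ⟨0, rfl⟩
  have hcn1 : Conn ({0, 1} : Finset (Fin (n + 2))) x y := by
    refine cast (congrArg (fun T => Conn T x y) ?_) (conn_pair (y := y) hxinj h01)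
    ext z
    simp only [Finset.mem_insert, Finset.mem_singleton]
  have hcn2 : Conn ({0, 1} : Finset (Fin (n + 2))) y x := by
    refine cast (congrArg (fun T => Conn T y x) ?_) (conn_pair (y := x) hyinj h01)
    ext z
    simp only [Finset.mem_insert, Finset.mem_singleton]
  refine false_of_even (T := ({0, 1} : Finset (Fin (n + 2)))) (a := fun _ => 0) (b := fun _ => 0)
    hc hd hmax hXc hx hy (fun p => (hA p).2) (fun p => (hB p).2) hadj hinj ?_ ?_
    monotone_const monotone_const ?_ ?_ ⟨0, by simp⟩ ?_ ?_ hcn1 hcn2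
  · intro p i hi hij
    exact hgA p i hi ⟨hij, K05_notMem (fun p => (hA p).2) hadj p i hi⟩
  · intro p i hi hij
    exact hgB p i hi ⟨hij, K05_notMem (fun p => (hA p).2) hadj p i hi⟩
  · rintro i hi ⟨j, hj, hij⟩
    have h1 := hXc i hi j hj hij
    rw [hcon] at h1
    exact absurd h1 (Set.notMem_empty _)
  · rintro j hj ⟨i, hi, hij⟩
    have h1 := hXc i hi j hj hij
    rw [hcon] at h1
    exact absurd h1 (Set.notMem_empty _)
  · intro i
    convert hfib i
  · intro i
    convert hfib i

end LC
end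

section

/-! TASK K07 of MP_6bc8af_co. -/

open Classical

namespace LC

universe u

/-- Two longest cycles of a `k`-connected graph have many common vertices.

PROOF. Let `C` be the constant of `paths_lt ε hε` and `c₀` that of `real_bound ε (C + 1)`. Let `c`, `d` be longest cycles,
`L = c.length = d.length` (each is at most the other); by `cycle_of_degree` and `degree_of_kconn` (`V` is nonempty) some cycle has
length `≥ k + 1`, so `k + 1 ≤ L`. Let `c' = c.getVert`, `d' = d.getVert` (`cycseq_of_walk`), `X = common c d`, which is the set in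
`paths_lt` (by the description of the supports), and `m = X.ncard`. The sets `A = {c' i}`, `B = {d' i}` have `L ≥ k` elements. By
`linked_of_kconn` there are `k - m` paths (natural subtraction). If `m = 0` write `k = n + 2`; `meet_of_two` says `X` is nonempty, so
`m ≠ 0` (`V` is finite): contradiction. So `m ≥ 1`, and `paths_lt` gives `(k - m : ℕ) < C (m + 1) ^ (1 + ε)`, so
`k ≤ m + C (m + 1) ^ (1 + ε) ≤ (C + 1) (m + 1) ^ (1 + ε)`. Now `real_bound`. -/
theorem meet_bound (ε : ℝ) (hε : 0 < ε) : ∃ c₀ : ℝ, 0 < c₀ ∧ ∀ (V : Type u) [Fintype V] (G : SimpleGraph V)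
    (k : ℕ), 2 ≤ k → IsKConn G k → ∀ (a b : V) (c : G.Walk a a) (d : G.Walk b b), IsLongest c → IsLongest d →
    c₀ * (k : ℝ) ^ (1 - ε) ≤ ((common c d).ncard : ℝ) := by
  obtain ⟨C, hC, hpaths⟩ := paths_lt.{u} ε hε
  obtain ⟨c₀, hc₀, hreal⟩ := real_bound ε (C + 1) hε (by positivity)
  refine ⟨c₀, hc₀, ?_⟩
  intro V _ G k hk hG a b c d hc hd
  have hlen : d.length = c.length := le_antisymm (hc.2 b d hd.1) (hd.2 a c hc.1)
  obtain ⟨hcs, hcsupp⟩ := cycseq_of_walk c hc.1
  obtain ⟨hds, hdsupp⟩ := cycseq_of_walk d hd.1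
  rw [hlen] at hds hdsupp
  have : Nonempty V := ⟨a⟩
  obtain ⟨v, w, hw, hkw⟩ := cycle_of_degree hk (degree_of_kconn hG)
  have hkL : k + 1 ≤ c.length := hkw.trans (hc.2 v w hw)
  have hX : common c d = {v | (∃ i < c.length, c.getVert i = v) ∧
      (∃ j < c.length, d.getVert j = v)} := by
    ext z
    show z ∈ c.support ∧ z ∈ d.support ↔ _
    rw [hcsupp, hdsupp]
    rfl
  have hcard : ∀ (e : ℕ → V), CycSeq G c.length e → k ≤ ({v | ∃ i < c.length, e i = v} : Set V).ncard := by
    intro e he
    have h1 : ({v | ∃ i < c.length, e i = v} : Set V) = e '' (↑(Finset.range c.length) : Set ℕ) := by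
      ext z
      constructor
      · rintro ⟨i, hi, rfl⟩
        exact ⟨i, Finset.mem_coe.2 (Finset.mem_range.2 hi), rfl⟩
      · rintro ⟨i, hi, rfl⟩
        exact ⟨i, Finset.mem_range.1 (Finset.mem_coe.1 hi), rfl⟩
    rw [h1, Set.ncard_image_of_injOn, Set.ncard_coe_finset, Finset.card_range]
    · omega
    · intro i hi j hj hij
      exact he.inj i (Finset.mem_range.1 (Finset.mem_coe.1 hi)) j
        (Finset.mem_range.1 (Finset.mem_coe.1 hj)) hij
  have hlink := linked_of_kconn hG {v | ∃ i < c.length, c.getVert i = v}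
    {v | ∃ i < c.length, d.getVert i = v} (common c d) (hcard _ hcs) (hcard _ hds)
  have hmax : ∀ (v : V) (w : G.Walk v v), w.IsCycle → w.length ≤ c.length := hc.2
  have hm : 1 ≤ (common c d).ncard := by
    by_contra h0
    have h1 : (common c d).ncard = 0 := by omega
    rw [h1, Nat.sub_zero] at hlink
    obtain ⟨n, rfl⟩ := Nat.exists_eq_add_of_le' hk
    have h2 := meet_of_two hcs hds hmax (common c d) hX hlink
    have h3 := (Set.ncard_pos (Set.toFinite _)).2 h2
    omega
  have hlt := hpaths hcs hds hmax (common c d) hX hlink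
  refine hreal k _ (by omega) hm ?_
  have h1 : (k : ℝ) ≤ ((common c d).ncard : ℝ) + ((k - (common c d).ncard : ℕ) : ℝ) := by
    have h2 : k ≤ (common c d).ncard + (k - (common c d).ncard) := by omega
    exact_mod_cast h2
  have h2 : ((common c d).ncard : ℝ) + 1 ≤ (((common c d).ncard : ℝ) + 1) ^ (1 + ε) := by
    conv_lhs => rw [← Real.rpow_one (((common c d).ncard : ℝ) + 1)]
    refine Real.rpow_le_rpow_of_exponent_le ?_ (by linarith)
    have : (0 : ℝ) ≤ ((common c d).ncard : ℝ) := Nat.cast_nonneg _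
    linarith
  have h3 : (C + 1) * (((common c d).ncard : ℝ) + 1) ^ (1 + ε) =
      C * (((common c d).ncard : ℝ) + 1) ^ (1 + ε) + (((common c d).ncard : ℝ) + 1) ^ (1 + ε) := by
    ring
  rw [h3]
  linarith

end LC
end

section

/-! TASK K09 of MP_6bc8af_co. -/

open Classical

namespace LC

/-- The upper bound `f(k) ≤ 2 k - 1` for `k ≥ 3`.

PROOF. It suffices that every `m ∈ fSet k` is at most `2 k - 1` (`iSup₂_le`). Suppose `2 k ≤ m` and use
`G = K(k, k + 1)`: it is `k`-connected (`kbip_conn`), not Hamiltonian: a Hamiltonian cycle would have length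
`Fintype.card = 2 k + 1 > 2 k` (`kbip_cycle`; `SimpleGraph.Walk.IsHamiltonianCycle`). The two cycles of `kbip_two` are longest
cycles (`kbip_cycle`), different, and their common set is `{v | v ≠ inr k}`, of `2 k ≤ m` elements. By `PropA` the
graph induced on the complement, one vertex, is not preconnected: contradiction. -/
theorem f_le (k : ℕ) (hk : 3 ≤ k) : f k ≤ ((2 * k - 1 : ℕ) : ℕ∞) := by
  apply iSup₂_le
  intro m hm
  by_contra hcon
  have hmk : 2 * k ≤ m := by
    by_contra h
    apply hcon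
    exact_mod_cast (by omega : m ≤ 2 * k - 1)
  have hnh : ∀ (inst : DecidableEq (Fin k ⊕ Fin (k + 1))),
      ¬ @SimpleGraph.IsHamiltonian _ inst _ (completeBipartiteGraph (Fin k) (Fin (k + 1))) := by
    intro inst hH
    obtain ⟨a, p, hp⟩ := hH (by simp only [Fintype.card_sum, Fintype.card_fin]; omega)
    have h1 := kbip_cycle k a p hp.isCycle
    have h2 := hp.length_eq
    rw [h2] at h1
    simp only [Fintype.card_sum, Fintype.card_fin] at h1
    omega
  obtain ⟨a, b, c, d, hc, hd, hcl, hdl, hne, hcs, hds⟩ := kbip_two k hk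
  have hA := hm (Fin k ⊕ Fin (k + 1)) (completeBipartiteGraph (Fin k) (Fin (k + 1)))
    (kbip_conn k (by omega)) (hnh _) a b c d
    ⟨hc, fun u w hw => by rw [hcl]; exact kbip_cycle k u w hw⟩
    ⟨hd, fun u w hw => by rw [hdl]; exact kbip_cycle k u w hw⟩ hne
  have hcom : common c d = {v | v ≠ Sum.inr (Fin.last k)} := by
    ext v
    simp only [common, Set.mem_setOf_eq, hcs, hds, and_self]
  rw [hcom] at hA
  have hcard : ({v | v ≠ Sum.inr (Fin.last k)} : Set (Fin k ⊕ Fin (k + 1))).ncard ≤ m := by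
    have h1 : ({v | v ≠ Sum.inr (Fin.last k)} : Set (Fin k ⊕ Fin (k + 1))) =
        ({Sum.inr (Fin.last k)} : Set (Fin k ⊕ Fin (k + 1)))ᶜ := by
      ext v
      simp
    have h2 := Set.ncard_add_ncard_compl ({Sum.inr (Fin.last k)} : Set (Fin k ⊕ Fin (k + 1)))
    rw [Set.ncard_singleton, Nat.card_eq_fintype_card] at h2
    simp only [Fintype.card_sum, Fintype.card_fin] at h2
    rw [h1]
    omega
  apply hA hcard
  intro u v
  have hu : u = v := by
    apply Subtype.ext
    have h1 := u.2
    have h2 := v.2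
    simp only [Set.mem_setOf_eq, not_not] at h1 h2
    rw [h1, h2]
  rw [hu]

/-- The lower bound for `f` and `f'` from the number of common vertices.

PROOF. Let `r = c₀ * k ^ (1 - ε) > 0` and `m = ⌈r⌉₊ - 1`. Then `r - 1 ≤ m` and `m < r` (as `1 ≤ ⌈r⌉₊ < r + 1`). `m ∈ fSet k` and
`m ∈ fSet' k`: in a `k`-connected graph two longest cycles never satisfy `(common c d).ncard ≤ m`, by `h`, so `PropA G m` holds.
Finally `m ≤ f k` by `le_iSup₂`. -/
theorem le_f (ε c₀ : ℝ) (hc : 0 < c₀)
    (h : ∀ (V : Type) [Fintype V] (G : SimpleGraph V) (k : ℕ), 2 ≤ k → IsKConn G k →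
      ∀ (a b : V) (c : G.Walk a a) (d : G.Walk b b), IsLongest c → IsLongest d →
      c₀ * (k : ℝ) ^ (1 - ε) ≤ ((common c d).ncard : ℝ)) (k : ℕ) (hk : 2 ≤ k) :
    ∃ m : ℕ, c₀ * (k : ℝ) ^ (1 - ε) - 1 ≤ m ∧ (m : ℕ∞) ≤ f k ∧ (m : ℕ∞) ≤ f' k := by
  have hr : 0 < c₀ * (k : ℝ) ^ (1 - ε) := by positivity
  have h1 : 1 ≤ ⌈c₀ * (k : ℝ) ^ (1 - ε)⌉₊ := Nat.one_le_ceil_iff.mpr hr
  have h2 := Nat.ceil_lt_add_one hr.le
  have h3 := Nat.le_ceil (c₀ * (k : ℝ) ^ (1 - ε))
  obtain ⟨m, hm⟩ : ∃ m : ℕ, ⌈c₀ * (k : ℝ) ^ (1 - ε)⌉₊ = m + 1 := ⟨_, (Nat.sub_add_cancel h1).symm⟩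
  rw [hm] at h2 h3
  push_cast at h2 h3
  have key : ∀ (V : Type) [Fintype V] (G : SimpleGraph V), IsKConn G k → PropA G m := by
    intro V _ G hG a b c d hc hd _ hle
    exfalso
    have h4 := h V G k hk hG a b c d hc hd
    have h5 : ((common c d).ncard : ℝ) ≤ m := by exact_mod_cast hle
    linarith
  refine ⟨m, by linarith, ?_, ?_⟩
  · exact le_iSup₂ (f := fun (m : ℕ) (_ : m ∈ fSet k) => (m : ℕ∞)) m (fun V _ G hG _ => key V G hG)
  · exact le_iSup₂ (f := fun (m : ℕ) (_ : m ∈ fSet' k) => (m : ℕ∞)) m (fun V _ G hG _ _ => key V G hG)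

end LC
end

section

/-! MP_6bc8af_co, linear bound, TASK E03: a long run of the second cycle outside the first one. -/

namespace LC.Lin

universe u

private theorem E03_nx {L j : ℕ} (hj : j < L) : nx L j = (j + 1) % L := by
  unfold nx
  split_ifs with h
  · rw [h, Nat.mod_self]
  · rw [Nat.mod_eq_of_lt (by omega)]

/-- Let `c`, `d` be two cycles of length `L` with `m ≥ 1` common vertices. Some run of `a` consecutive vertices of `d` avoids `c`, with
`L ≤ m (a + 1)`.

PROOF. Let `I = {i < L : d i ∈ CS L c}`, nonempty, with `I.card = X.ncard` (`d` is injective on `[0, L)`). Let `a` be the greatest `n ≤ L` such that for some `i < L` all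
`d ((i + 1 + q) % L)`, `q < n`, are not in `CS L c` (`n = 0` is possible). `a < L` as `I` is nonempty. The path is `p q = d ((i + 1 + q) % L)` for `q < a`: injective because
`a ≤ L` (`q ↦ (i + 1 + q) % L` is injective on `[0, L)`), adjacent by `CycSeq.adj` (`nx L j = (j + 1) % L` for `j < L`) and not in `CS L c`, so adjacent in
`del G (CS L c)`. Counting: to `j < L` associate the least `e < L` (`e ≥ 0`) such that `i' = (j + L - e) % L` is in `I`; then the `e` vertices
`d ((i' + 1 + q) % L)`, `q < e`, are not in `CS L c`, so `e ≤ a`; the map `j ↦ (i', e)` is injective as `j = (i' + e) % L`. So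
`L ≤ I.card * (a + 1)`. -/
theorem exists_run {V : Type u} [Finite V] {G : SimpleGraph V} {L : ℕ} {c d : ℕ → V} (hc : CycSeq G L c)
    (hd : CycSeq G L d) (X : Set V) (hX : X = {v | (∃ i < L, c i = v) ∧ (∃ j < L, d j = v)}) (hne : X.Nonempty) :
    ∃ (a : ℕ) (p : ℕ → V), PathSeq (del G (CS L c)) a p ∧ (∀ q < a, p q ∉ CS L c) ∧
      L ≤ X.ncard * (a + 1) := by
  classical
  have hL3 := hd.three
  have hL : 0 < L := by omega
  let P : ℕ → Prop := fun n => ∃ i < L, ∀ q < n, d ((i + 1 + q) % L) ∉ CS L c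
  have hP0 : P 0 := ⟨0, hL, fun q hq => absurd hq (Nat.not_lt_zero q)⟩
  obtain ⟨v0, hv0⟩ := hne
  rw [hX] at hv0
  obtain ⟨hc0, j0, hj0, hdj0⟩ := hv0
  have hj0C : d j0 ∈ CS L c := by
    rw [hdj0]
    exact hc0
  have hPL : ¬ P L := by
    rintro ⟨i, hi, hq⟩
    apply hq ((j0 + L - (i + 1)) % L) (Nat.mod_lt _ hL)
    have h1 : (i + 1 + (j0 + L - (i + 1)) % L) % L = j0 := by
      rw [Nat.add_mod_mod]
      have h2 : i + 1 + (j0 + L - (i + 1)) = j0 + L := by omega
      rw [h2, Nat.add_mod_right, Nat.mod_eq_of_lt hj0]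
    rw [h1]
    exact hj0C
  set a := Nat.findGreatest P L with ha
  have hPa : P a := Nat.findGreatest_spec (P := P) (Nat.zero_le L) hP0
  have haL : a ≤ L := Nat.findGreatest_le L
  have haL' : a < L := by
    rcases Nat.lt_or_ge a L with h | h
    · exact h
    · exact absurd (by rwa [le_antisymm haL h] at hPa) hPL
  obtain ⟨i, hi, hrun⟩ := hPa
  refine ⟨a, fun q => d ((i + 1 + q) % L), ⟨?_, ?_⟩, hrun, ?_⟩
  · intro q hq q' hq' heq
    have h1 := hd.inj _ (Nat.mod_lt _ hL) _ (Nat.mod_lt _ hL) heq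
    have h2 : i + 1 + q ≡ i + 1 + q' [MOD L] := h1
    have h3 : q ≡ q' [MOD L] := Nat.ModEq.add_left_cancel' (i + 1) h2
    exact Nat.ModEq.eq_of_lt_of_lt h3 (by omega) (by omega)
  · intro q hq
    refine ⟨?_, hrun q (by omega), hrun (q + 1) hq⟩
    have h1 := hd.adj ((i + 1 + q) % L) (Nat.mod_lt _ hL)
    rw [E03_nx (Nat.mod_lt _ hL), Nat.mod_add_mod] at h1
    exact h1
  · set I : Finset ℕ := (Finset.range L).filter (fun j => d j ∈ CS L c) with hI
    have hcard : X.ncard = I.card := by
      have h1 : X = d '' (I : Set ℕ) := by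
        rw [hX]
        ext v
        constructor
        · rintro ⟨h2, j, hj, rfl⟩
          refine ⟨j, ?_, rfl⟩
          rw [Finset.mem_coe, hI, Finset.mem_filter, Finset.mem_range]
          exact ⟨hj, h2⟩
        · rintro ⟨j, hj, rfl⟩
          rw [Finset.mem_coe, hI, Finset.mem_filter, Finset.mem_range] at hj
          exact ⟨hj.2, j, hj.1, rfl⟩
      rw [h1, Set.InjOn.ncard_image, Set.ncard_coe_finset]
      intro x hx y hy hxy
      rw [Finset.mem_coe, hI, Finset.mem_filter, Finset.mem_range] at hx hy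
      exact hd.inj x hx.1 y hy.1 hxy
    have hkey : ∀ j : ℕ, ∃ e : ℕ, j < L → e ≤ a ∧ e < L ∧ (j + L - e) % L ∈ I := by
      intro j
      by_cases hj : j < L
      · have hex : ∃ e, e < L ∧ d ((j + L - e) % L) ∈ CS L c := by
          refine ⟨(j + L - j0) % L, Nat.mod_lt _ hL, ?_⟩
          have h1 : (j + L - (j + L - j0) % L) % L = j0 := by
            rcases Nat.lt_or_ge j j0 with h | h
            · have h2 : (j + L - j0) % L = j + L - j0 := Nat.mod_eq_of_lt (by omega)
              rw [h2]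
              have h3 : j + L - (j + L - j0) = j0 := by omega
              rw [h3, Nat.mod_eq_of_lt hj0]
            · have h2 : (j + L - j0) % L = j - j0 := by
                have h4 : j + L - j0 = j - j0 + L := by omega
                rw [h4, Nat.add_mod_right, Nat.mod_eq_of_lt (by omega)]
              rw [h2]
              have h3 : j + L - (j - j0) = j0 + L := by omega
              rw [h3, Nat.add_mod_right, Nat.mod_eq_of_lt hj0]
          rw [h1]
          exact hj0C
        refine ⟨Nat.find hex, fun _ => ?_⟩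
        obtain ⟨he1, he2⟩ := Nat.find_spec hex
        refine ⟨?_, he1, ?_⟩
        · apply Nat.le_findGreatest he1.le
          refine ⟨(j + L - Nat.find hex) % L, Nat.mod_lt _ hL, ?_⟩
          intro q hq hmem
          have h1 : ((j + L - Nat.find hex) % L + 1 + q) % L =
              (j + L - (Nat.find hex - 1 - q)) % L := by
            rw [add_assoc, Nat.mod_add_mod]
            congr 1
            omega
          rw [h1] at hmem
          exact Nat.find_min hex (m := Nat.find hex - 1 - q) (by omega) ⟨by omega, hmem⟩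
        · rw [hI, Finset.mem_filter, Finset.mem_range]
          exact ⟨Nat.mod_lt _ hL, he2⟩
      · exact ⟨0, fun h => absurd h hj⟩
    choose e he using hkey
    have hle : (Finset.range L).card ≤ (I ×ˢ Finset.range (a + 1)).card := by
      apply Finset.card_le_card_of_injOn (fun j => ((j + L - e j) % L, e j))
      · intro j hj
        rw [Finset.mem_coe, Finset.mem_range] at hj
        obtain ⟨h1, h2, h3⟩ := he j hj
        rw [Finset.mem_coe, Finset.mem_product, Finset.mem_range]
        exact ⟨h3, Nat.lt_succ_of_le h1⟩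
      · intro j hj j' hj' heq
        rw [Finset.mem_coe, Finset.mem_range] at hj hj'
        obtain ⟨h1, h2, h3⟩ := he j hj
        obtain ⟨h1', h2', h3'⟩ := he j' hj'
        have h4 : (j + L - e j) % L = (j' + L - e j') % L := (Prod.mk.inj heq).1
        have h5 : e j = e j' := (Prod.mk.inj heq).2
        have h6 : ((j + L - e j) % L + e j) % L = j := by
          rw [Nat.mod_add_mod]
          have h7 : j + L - e j + e j = j + L := by omega
          rw [h7, Nat.add_mod_right, Nat.mod_eq_of_lt hj]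
        have h6' : ((j' + L - e j') % L + e j') % L = j' := by
          rw [Nat.mod_add_mod]
          have h7 : j' + L - e j' + e j' = j' + L := by omega
          rw [h7, Nat.add_mod_right, Nat.mod_eq_of_lt hj']
        rw [← h6, ← h6', h4, h5]
    rw [Finset.card_range, Finset.card_product, Finset.card_range, ← hcard] at hle
    exact hle

end LC.Lin
end
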