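import Pool.Agent.Lib.MP_6bc8af_co.Mg.G003

section

/-! MP_6bc8af_co, linear bound, TASK A3: transitions of the spiral construction, second part. The path goes from `e` to
`y i`; `Pt.symm` exchanges the two ends. In every case one applies `Pt.up`, `Pt.down`, `Pt.hop` to one or both ends; the new
positions are not in `S` by `h.mem`, `h.fe`, `h.fy`, `h.fp`. Then all the fields of `St` are inequalities. -/

namespace LC.Lin

/-- No chord starts in the rung `i`, and `e` is before the rung: march from `e` up to `x (i + 1)`, take the chord `i + 1` of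
the vine; the new state has `e' = y i`, `f' = x (i + 1)`.

PROOF. The path now goes from `y (i + 1)` to `y i`; reverse it. -/
theorem tr_move {E : Set (ℕ × ℕ)} {s t m : ℕ} {x y : ℕ → ℕ} (hV : Vine s t m x y)
    (hE : ∀ j ≤ m, (x j, y j) ∈ E) {i e f : ℕ} {S : Set ℕ}
    (h : St E m x y i e f S) (hi : i < m) (hex : e ≤ x (i + 1)) :
    ∃ S', S ∪ Set.Icc e (x (i + 1)) ⊆ S' ∧ St E m x y (i + 1) (y i) (x (i + 1)) S' := by
  have hxy : x (i + 1) < y i := hV.ov i hi
  have hyy : y i < y (i + 1) := hV.ys i hi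
  have hfe := h.fe
  have hfy := h.fy
  have hey1 : e ≠ y (i + 1) := h.ey (i + 1) (by omega) (by omega)
  have hfx := h.fx hi
  have p1 : Pt E (y i) (x (i + 1)) (S ∪ Set.Icc e (x (i + 1))) :=
    h.pt.symm.up hex (by
      intro z hz1 hz2 hz
      rcases h.mem z hz with h1 | h1 | h1 <;> omega)
  have p2 : Pt E (y i) (y (i + 1)) (insert (y (i + 1)) (S ∪ Set.Icc e (x (i + 1)))) := by
    refine p1.hop (Or.inr (Or.inr (Or.inl (hE (i + 1) (by omega))))) ?_
    intro hz
    rw [Set.mem_union, Set.mem_Icc] at hz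
    rcases hz with hz | hz
    · rcases h.mem _ hz with h1 | h1 | h1 <;> omega
    · omega
  refine ⟨_, Set.subset_insert _ _, p2, by omega, ?_, by omega, by omega, ?_, ?_, ?_, ?_⟩
  · intro w hw
    rw [Set.mem_insert_iff, Set.mem_union, Set.mem_Icc] at hw
    rcases hw with hw | hw | hw
    · exact Or.inr (Or.inr hw)
    · rcases h.mem _ hw with h1 | h1 | h1
      · left; omega
      · left; omega
      · exact Or.inr (Or.inl h1)
    · left; omega
  · intro j hj hjm
    have := hV.ymono (show i < j by omega) hjm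
    omega
  · intro hi1
    have := hV.xs (i + 1) hi1
    omega
  · intro hi1 _
    exact hV.xs (i + 1) hi1
  · right
    refine ⟨x (i + 1), ?_, by omega, by omega⟩
    rw [Set.mem_insert_iff, Set.mem_union, Set.mem_Icc]
    right; right; omega

/-- `e` is in the rung `i`: march from `e` down to `x (i + 1)`, take the chord `i + 1` of the vine; the new state has
`e' = y i`, `f' = e`.

PROOF. Positions `x (i + 1) ≤ z < e` are not in `S` because `f < x (i + 1)` (`h.fp`). The path now goes from
`y (i + 1)` to `y i`; reverse it. -/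
theorem tr_exit {E : Set (ℕ × ℕ)} {s t m : ℕ} {x y : ℕ → ℕ} (hV : Vine s t m x y)
    (hE : ∀ j ≤ m, (x j, y j) ∈ E) {i e f : ℕ} {S : Set ℕ}
    (h : St E m x y i e f S) (hi : i < m) (hex : x (i + 1) < e) (hey : e < y i) :
    ∃ S', S ∪ Set.Icc (x (i + 1)) e ⊆ S' ∧ St E m x y (i + 1) (y i) e S' := by
  have hxy : x (i + 1) < y i := hV.ov i hi
  have hyy : y i < y (i + 1) := hV.ys i hi
  have hfe := h.fe
  have hfy := h.fy
  have hey1 : e ≠ y (i + 1) := h.ey (i + 1) (by omega) (by omega)
  have hfp := h.fp hi hex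
  have p1 : Pt E (y i) (x (i + 1)) (S ∪ Set.Icc (x (i + 1)) e) :=
    h.pt.symm.down hex.le (by
      intro z hz1 hz2 hz
      rcases h.mem z hz with h1 | h1 | h1 <;> omega)
  have p2 : Pt E (y i) (y (i + 1)) (insert (y (i + 1)) (S ∪ Set.Icc (x (i + 1)) e)) := by
    refine p1.hop (Or.inr (Or.inr (Or.inl (hE (i + 1) (by omega))))) ?_
    intro hz
    rw [Set.mem_union, Set.mem_Icc] at hz
    rcases hz with hz | hz
    · rcases h.mem _ hz with h1 | h1 | h1 <;> omega
    · omega
  refine ⟨_, Set.subset_insert _ _, p2, by omega, ?_, by omega, by omega, ?_, ?_, ?_, ?_⟩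
  · intro w hw
    rw [Set.mem_insert_iff, Set.mem_union, Set.mem_Icc] at hw
    rcases hw with hw | hw | hw
    · exact Or.inr (Or.inr hw)
    · rcases h.mem _ hw with h1 | h1 | h1
      · left; omega
      · left; omega
      · exact Or.inr (Or.inl h1)
    · left; omega
  · intro j hj hjm
    have := hV.ymono (show i < j by omega) hjm
    omega
  · intro hi1
    have := hV.sp i (by omega)
    have e1 : i + 1 + 1 = i + 2 := rfl
    rw [e1]
    omega
  · intro hi1 hlt
    have := hV.sp i (by omega)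
    have e1 : i + 1 + 1 = i + 2 := rfl
    rw [e1] at hlt
    omega
  · right
    refine ⟨x (i + 1), ?_, by omega, by omega⟩
    rw [Set.mem_insert_iff, Set.mem_union, Set.mem_Icc]
    right; right; omega

/-- `e` and the start of the next chord `A` are in the rung `i`, nondegenerate case: march from `e` down to `x (i + 1)`,
take the chord `i + 1` of the vine; at the other end march from `y i` down to `A.1`, take `A`.

PROOF. As before; `y i < A.2` by `hA.out`. -/
theorem tr_exit_in_nd {E : Set (ℕ × ℕ)} {s t m B : ℕ} {x y : ℕ → ℕ} (hV : Vine s t m x y)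
    (hE : ∀ j ≤ m, (x j, y j) ∈ E) {i e f : ℕ} {S : Set ℕ}
    (h : St E m x y i e f S) (hi : i < m) (hex : x (i + 1) < e) (hnd : i + 2 ≤ m → y i < x (i + 2))
    {A : ℕ × ℕ} (hA : Ok E s m B x y A) (h1 : e < A.1) (h2 : A.1 < y i) :
    ∃ S', S ∪ Set.Icc (x (i + 1)) e ∪ Set.Icc A.1 (y i) ⊆ S' ∧ St E m x y (i + 1) A.2 (y i) S' := by
  have hxy : x (i + 1) < y i := hV.ov i hi
  have hyy : y i < y (i + 1) := hV.ys i hi
  have hfe := h.fe
  have hfy := h.fy
  have hey1 : e ≠ y (i + 1) := h.ey (i + 1) (by omega) (by omega)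
  have hfp := h.fp hi hex
  have hout := hA.out i (by omega) (by omega) h2
  have hAy : A.2 ≠ y (i + 1) := hA.y2 (i + 1) (by omega)
  have hmem : (A.1, A.2) ∈ E := hA.mem
  have p1 : Pt E (y i) (x (i + 1)) (S ∪ Set.Icc (x (i + 1)) e) :=
    h.pt.symm.down hex.le (by
      intro z hz1 hz2 hz
      rcases h.mem z hz with h1 | h1 | h1 <;> omega)
  have p2 : Pt E (y i) (y (i + 1)) (insert (y (i + 1)) (S ∪ Set.Icc (x (i + 1)) e)) := by
    refine p1.hop (Or.inr (Or.inr (Or.inl (hE (i + 1) (by omega))))) ?_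
    intro hz
    rw [Set.mem_union, Set.mem_Icc] at hz
    rcases hz with hz | hz
    · rcases h.mem _ hz with h1 | h1 | h1 <;> omega
    · omega
  have p3 : Pt E (y (i + 1)) A.1
      (insert (y (i + 1)) (S ∪ Set.Icc (x (i + 1)) e) ∪ Set.Icc A.1 (y i)) :=
    p2.symm.down h2.le (by
      intro z hz1 hz2 hz
      rw [Set.mem_insert_iff, Set.mem_union, Set.mem_Icc] at hz
      rcases hz with hz | hz | hz
      · omega
      · rcases h.mem _ hz with h1 | h1 | h1 <;> omega
      · omega)
  have p4 : Pt E (y (i + 1)) A.2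
      (insert A.2 (insert (y (i + 1)) (S ∪ Set.Icc (x (i + 1)) e) ∪ Set.Icc A.1 (y i))) := by
    refine p3.hop (Or.inr (Or.inr (Or.inl hmem))) ?_
    intro hz
    rw [Set.mem_union, Set.mem_insert_iff, Set.mem_union, Set.mem_Icc, Set.mem_Icc] at hz
    rcases hz with (hz | hz | hz) | hz
    · omega
    · rcases h.mem _ hz with h1 | h1 | h1 <;> omega
    · omega
    · omega
  refine ⟨_, ?_, p4.symm, by omega, ?_, by omega, by omega, ?_, ?_, ?_, ?_⟩
  · intro w hw
    rw [Set.mem_union, Set.mem_union] at hw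
    rw [Set.mem_insert_iff, Set.mem_union, Set.mem_insert_iff, Set.mem_union]
    rcases hw with (hw | hw) | hw
    · exact Or.inr (Or.inl (Or.inr (Or.inl hw)))
    · exact Or.inr (Or.inl (Or.inr (Or.inr hw)))
    · exact Or.inr (Or.inr hw)
  · intro w hw
    rw [Set.mem_insert_iff, Set.mem_union, Set.mem_insert_iff, Set.mem_union, Set.mem_Icc,
      Set.mem_Icc] at hw
    rcases hw with hw | (hw | hw | hw) | hw
    · exact Or.inr (Or.inl hw)
    · exact Or.inr (Or.inr hw)
    · rcases h.mem _ hw with h1 | h1 | h1 <;> (left; omega)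
    · left; omega
    · left; omega
  · intro j _ hjm
    exact hA.y2 j hjm
  · intro hi1
    exact hV.sp i (by omega)
  · intro hi1 _
    exact hnd (by omega)
  · right
    refine ⟨y i, ?_, by omega, by omega⟩
    rw [Set.mem_insert_iff, Set.mem_union, Set.mem_Icc]
    right; right; omega

/-- `e` and the start of the next chord `A` are in the rung `i`, degenerate case `y i = x (i + 2)`: march from `e` up to `A.1`,
take `A`; at the other end take the chord `i + 2` of the vine from `y i = x (i + 2)`. -/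
theorem tr_exit_in_d {E : Set (ℕ × ℕ)} {s t m B : ℕ} {x y : ℕ → ℕ} (hV : Vine s t m x y)
    (hE : ∀ j ≤ m, (x j, y j) ∈ E) {i e f : ℕ} {S : Set ℕ}
    (h : St E m x y i e f S) (hi : i + 2 ≤ m) (hex : x (i + 1) < e) (hd : y i = x (i + 2))
    {A : ℕ × ℕ} (hA : Ok E s m B x y A) (h1 : e < A.1) (h2 : A.1 < y i) :
    ∃ S', S ∪ Set.Icc e A.1 ⊆ S' ∧ St E m x y (i + 2) A.2 (y i) S' := by
  have hxy : x (i + 1) < y i := hV.ov i (by omega)
  have hyy : y i < y (i + 2) := hV.ymono (by omega) hi
  have hfe := h.fe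
  have hfy := h.fy
  have hey1 : e ≠ y (i + 2) := h.ey (i + 2) (by omega) hi
  have hout := hA.out i (by omega) (by omega) h2
  have hAy : A.2 ≠ y (i + 2) := hA.y2 (i + 2) hi
  have hmem : (A.1, A.2) ∈ E := hA.mem
  have hmem2 : (y i, y (i + 2)) ∈ E := by rw [hd]; exact hE (i + 2) hi
  have p1 : Pt E (y i) A.1 (S ∪ Set.Icc e A.1) :=
    h.pt.symm.up h1.le (by
      intro z hz1 hz2 hz
      rcases h.mem z hz with h1 | h1 | h1 <;> omega)
  have p2 : Pt E (y i) A.2 (insert A.2 (S ∪ Set.Icc e A.1)) := by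
    refine p1.hop (Or.inr (Or.inr (Or.inl hmem))) ?_
    intro hz
    rw [Set.mem_union, Set.mem_Icc] at hz
    rcases hz with hz | hz
    · rcases h.mem _ hz with h1 | h1 | h1 <;> omega
    · omega
  have p3 : Pt E A.2 (y (i + 2)) (insert (y (i + 2)) (insert A.2 (S ∪ Set.Icc e A.1))) := by
    refine p2.symm.hop (Or.inr (Or.inr (Or.inl hmem2))) ?_
    intro hz
    rw [Set.mem_insert_iff, Set.mem_union, Set.mem_Icc] at hz
    rcases hz with hz | hz | hz
    · omega
    · rcases h.mem _ hz with h1 | h1 | h1 <;> omega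
    · omega
  refine ⟨_, (Set.subset_insert _ _).trans (Set.subset_insert _ _), p3, hi, ?_, by omega,
    by omega, ?_, ?_, ?_, ?_⟩
  · intro w hw
    rw [Set.mem_insert_iff, Set.mem_insert_iff, Set.mem_union, Set.mem_Icc] at hw
    rcases hw with hw | hw | hw | hw
    · exact Or.inr (Or.inr hw)
    · exact Or.inr (Or.inl hw)
    · rcases h.mem _ hw with h1 | h1 | h1 <;> (left; omega)
    · left; omega
  · intro j _ hjm
    exact hA.y2 j hjm
  · intro hi1
    have := hV.xs (i + 2) hi1
    omega
  · intro hi1 _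
    have := hV.xs (i + 2) hi1
    omega
  · right
    refine ⟨y i, ?_, by omega, by omega⟩
    rw [Set.mem_insert_iff, Set.mem_insert_iff, Set.mem_union]
    exact Or.inr (Or.inr (Or.inl h.pt.ends.2))

end LC.Lin
end

section

/-! MP_6bc8af_co, linear bound, TASK A4: transitions of the spiral construction, third part, start and end. The path goes
from `e` to `y i`; `Pt.symm` exchanges the two ends. -/

namespace LC.Lin

/-- `e` is after the rung `i`, nondegenerate case: march from `y i` down to `x (i + 1)`, take the chord `i + 1` of the vine;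
the new state has `e' = e`, `f' = y i`.

PROOF. Positions `x (i + 1) ≤ z < y i` are not in `S` because `f < x (i + 1)` (`h.fp`) and `z ≠ e`. `y (i + 1) ≠ e` by `h.ey`.
`big`: the vertex `y i`. -/
theorem tr_thru_nd {E : Set (ℕ × ℕ)} {s t m : ℕ} {x y : ℕ → ℕ} (hV : Vine s t m x y)
    (hE : ∀ j ≤ m, (x j, y j) ∈ E) {i e f : ℕ} {S : Set ℕ}
    (h : St E m x y i e f S) (hi : i < m) (hey : y i < e) (hnd : i + 2 ≤ m → y i < x (i + 2)) :
    ∃ S', S ∪ Set.Icc (x (i + 1)) (y i) ⊆ S' ∧ St E m x y (i + 1) e (y i) S' := by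
  have hxy : x (i + 1) < y i := hV.ov i hi
  have hyy : y i < y (i + 1) := hV.ys i hi
  have hfe := h.fe
  have hfy := h.fy
  have hey1 : e ≠ y (i + 1) := h.ey (i + 1) (by omega) (by omega)
  have hfp := h.fp hi (by omega)
  have p1 : Pt E e (x (i + 1)) (S ∪ Set.Icc (x (i + 1)) (y i)) :=
    h.pt.down hxy.le (by
      intro z hz1 hz2 hz
      rcases h.mem z hz with h1 | h1 | h1 <;> omega)
  have p2 : Pt E e (y (i + 1)) (insert (y (i + 1)) (S ∪ Set.Icc (x (i + 1)) (y i))) := by
    refine p1.hop (Or.inr (Or.inr (Or.inl (hE (i + 1) (by omega))))) ?_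
    intro hz
    rw [Set.mem_union, Set.mem_Icc] at hz
    rcases hz with hz | hz
    · rcases h.mem _ hz with h1 | h1 | h1 <;> omega
    · omega
  refine ⟨_, Set.subset_insert _ _, p2, by omega, ?_, by omega, by omega, ?_, ?_, ?_, ?_⟩
  · intro w hw
    rw [Set.mem_insert_iff, Set.mem_union, Set.mem_Icc] at hw
    rcases hw with hw | hw | hw
    · exact Or.inr (Or.inr hw)
    · rcases h.mem _ hw with h1 | h1 | h1
      · left; omega
      · exact Or.inr (Or.inl h1)
      · left; omega
    · left; omega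
  · intro j hj hjm
    exact h.ey j (by omega) hjm
  · intro hi1
    exact hV.sp i (by omega)
  · intro hi1 _
    exact hnd (by omega)
  · right
    refine ⟨y i, ?_, by omega, by omega⟩
    rw [Set.mem_insert_iff, Set.mem_union]
    exact Or.inr (Or.inl h.pt.ends.2)

/-- `e` is after the rung `i`, degenerate case `y i = x (i + 2)`: take the chord `i + 2` of the vine from
`y i = x (i + 2)`. -/
theorem tr_thru_d {E : Set (ℕ × ℕ)} {s t m : ℕ} {x y : ℕ → ℕ} (hV : Vine s t m x y)
    (hE : ∀ j ≤ m, (x j, y j) ∈ E) {i e f : ℕ} {S : Set ℕ}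
    (h : St E m x y i e f S) (hi : i + 2 ≤ m) (hey : y i < e) (hd : y i = x (i + 2)) :
    ∃ S', S ⊆ S' ∧ St E m x y (i + 2) e (y i) S' := by
  have hyy : y i < y (i + 2) := hV.ymono (by omega) hi
  have hfe := h.fe
  have hfy := h.fy
  have hey1 : e ≠ y (i + 2) := h.ey (i + 2) (by omega) hi
  have hmem2 : (y i, y (i + 2)) ∈ E := by rw [hd]; exact hE (i + 2) hi
  have p2 : Pt E e (y (i + 2)) (insert (y (i + 2)) S) := by
    refine h.pt.hop (Or.inr (Or.inr (Or.inl hmem2))) ?_
    intro hz
    rcases h.mem _ hz with h1 | h1 | h1 <;> omega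
  refine ⟨_, Set.subset_insert _ _, p2, hi, ?_, by omega, by omega, ?_, ?_, ?_, ?_⟩
  · intro w hw
    rw [Set.mem_insert_iff] at hw
    rcases hw with hw | hw
    · exact Or.inr (Or.inr hw)
    · rcases h.mem _ hw with h1 | h1 | h1
      · left; omega
      · exact Or.inr (Or.inl h1)
      · left; omega
  · intro j hj hjm
    exact h.ey j (by omega) hjm
  · intro hi1
    have := hV.xs (i + 2) hi1
    omega
  · intro hi1 _
    have := hV.xs (i + 2) hi1
    omega
  · right
    refine ⟨y i, ?_, by omega, by omega⟩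
    rw [Set.mem_insert_iff]
    exact Or.inr h.pt.ends.2

/-- End: close the path by the march between `e` and `y m`.

PROOF. `e ≠ y m` by `h.ey`. If `e < y m`: `Pt.close` (positions between are `> f`). If `y m < e`: `Pt.close` for the reversed
path (positions between are `> y m > f`); here the third vertex comes from `h.big`. -/
theorem tr_end {E : Set (ℕ × ℕ)} {s t m : ℕ} {x y : ℕ → ℕ} (hV : Vine s t m x y) {e f : ℕ} {S : Set ℕ}
    (h : St E m x y m e f S) : Cy E (S ∪ Set.Icc (min e (y m)) (max e (y m))) := by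
  have hfe := h.fe
  have hfy := h.fy
  have hey1 : e ≠ y m := h.ey m le_rfl le_rfl
  rcases Nat.lt_or_gt_of_ne hey1 with hlt | hlt
  · rw [min_eq_left hlt.le, max_eq_right hlt.le]
    refine h.pt.close hlt ?_ h.big
    intro z hz1 hz2 hz
    rcases h.mem z hz with h1 | h1 | h1 <;> omega
  · rw [min_eq_right hlt.le, max_eq_left hlt.le]
    refine h.pt.symm.close hlt ?_ ?_
    · intro z hz1 hz2 hz
      rcases h.mem z hz with h1 | h1 | h1 <;> omega
    · right
      rcases h.big with h1 | ⟨w, hw, h1, h2⟩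
      · omega
      · exact ⟨w, hw, h2, h1⟩

/-- Start without a chord before `x 0`: the chord `0` of the vine.

PROOF. `Pt.single`, `Pt.hop`: the path from `x 0` to `y 0`, `S' = {y 0, x 0}`. -/
theorem init1 {E : Set (ℕ × ℕ)} {s t m : ℕ} {x y : ℕ → ℕ} (hV : Vine s t m x y)
    (hE : ∀ j ≤ m, (x j, y j) ∈ E) : ∃ S', St E m x y 0 (x 0) (x 0) S' := by
  have hlen := hV.len 0 (Nat.zero_le m)
  have p1 : Pt E (x 0) (y 0) (insert (y 0) {x 0}) := by
    refine (Pt.single E (x 0)).hop (Or.inr (Or.inr (Or.inl (hE 0 (Nat.zero_le m))))) ?_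
    intro hz
    rw [Set.mem_singleton_iff] at hz
    omega
  refine ⟨_, p1, Nat.zero_le m, ?_, le_rfl, by omega, ?_, ?_, ?_, Or.inl hlen⟩
  · intro w hw
    rw [Set.mem_insert_iff, Set.mem_singleton_iff] at hw
    rcases hw with hw | hw
    · exact Or.inr (Or.inr hw)
    · exact Or.inr (Or.inl hw)
  · intro j _ hjm
    have := hV.yle (Nat.zero_le j) hjm
    omega
  · intro h0
    have := hV.xs 0 h0
    simp only [Nat.zero_add] at this ⊢
    omega
  · intro h0 h1
    have := hV.xs 0 h0
    simp only [Nat.zero_add] at this h1 ⊢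
    omega

/-- Start with a chord `A` with `A.1 < x 0`: the chord `0` of the vine, the march from `x 0` down to `A.1`, and `A`.

PROOF. Path from `y 0` to `x 0`, down to `A.1`, hop to `A.2` (`> s ≥ x 0`, `≠ y 0`); reverse. `big`: the vertex `x 0`.
`fx`, `fp`: `x 0 < x 1`. -/
theorem init2 {E : Set (ℕ × ℕ)} {s t m B : ℕ} {x y : ℕ → ℕ} (hV : Vine s t m x y)
    (hE : ∀ j ≤ m, (x j, y j) ∈ E) {A : ℕ × ℕ} (hA : Ok E s m B x y A) (h1 : A.1 < x 0) :
    ∃ S', St E m x y 0 A.2 (x 0) S' := by
  have hlen := hV.len 0 (Nat.zero_le m)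
  have hx0 := hV.x0
  have hs := hA.s
  have hAx : A.2 ≠ x 0 := hA.x2 0 (Nat.zero_le m)
  have hAy : A.2 ≠ y 0 := hA.y2 0 (Nat.zero_le m)
  have hmem : (A.1, A.2) ∈ E := hA.mem
  have p1 : Pt E (y 0) (x 0) (insert (x 0) {y 0}) := by
    refine (Pt.single E (y 0)).hop (Or.inr (Or.inr (Or.inr (hE 0 (Nat.zero_le m))))) ?_
    intro hz
    rw [Set.mem_singleton_iff] at hz
    omega
  have p2 : Pt E (y 0) A.1 (insert (x 0) {y 0} ∪ Set.Icc A.1 (x 0)) :=
    p1.down h1.le (by
      intro z hz1 hz2 hz
      rw [Set.mem_insert_iff, Set.mem_singleton_iff] at hz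
      omega)
  have p3 : Pt E (y 0) A.2 (insert A.2 (insert (x 0) {y 0} ∪ Set.Icc A.1 (x 0))) := by
    refine p2.hop (Or.inr (Or.inr (Or.inl hmem))) ?_
    intro hz
    rw [Set.mem_union, Set.mem_insert_iff, Set.mem_singleton_iff, Set.mem_Icc] at hz
    omega
  refine ⟨_, p3.symm, Nat.zero_le m, ?_, by omega, by omega, ?_, ?_, ?_, ?_⟩
  · intro w hw
    rw [Set.mem_insert_iff, Set.mem_union, Set.mem_insert_iff, Set.mem_singleton_iff,
      Set.mem_Icc] at hw
    rcases hw with hw | (hw | hw) | hw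
    · exact Or.inr (Or.inl hw)
    · left; omega
    · exact Or.inr (Or.inr hw)
    · left; omega
  · intro j _ hjm
    exact hA.y2 j hjm
  · intro h0
    have := hV.xs 0 h0
    simp only [Nat.zero_add] at this ⊢
    omega
  · intro h0 _
    have := hV.xs 0 h0
    simp only [Nat.zero_add] at this ⊢
    omega
  · right
    refine ⟨x 0, ?_, by omega, by omega⟩
    rw [Set.mem_insert_iff, Set.mem_union, Set.mem_insert_iff]
    exact Or.inr (Or.inl (Or.inl rfl))

end LC.Lin
end

section

/-! MP_6bc8af_co, linear bound, TASK A5: the spiral lemma. -/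

namespace LC.Lin

private theorem A05_end {E : Set (ℕ × ℕ)} {s t m B : ℕ} {x y : ℕ → ℕ} (hV : Vine s t m x y)
    (hB : ∀ j ≤ m, y j ≤ B) (e f : ℕ) (S : Set ℕ) (Q : List (ℕ × ℕ))
    (h : St E m x y m e f S) (he : e ≤ B) : Fn E m B x y m e S Q := by
  have hym : y m ≤ B := hB m (le_refl m)
  refine ⟨S ∪ Set.Icc (min e (y m)) (max e (y m)), Set.subset_union_left, tr_end hV h, ?_, ?_, ?_⟩
  · intro w hw
    rcases hw with hw | hw
    · rcases h.mem w hw with h1 | h1 | h1
      · exact le_trans h1 (le_trans h.fe he)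
      · rw [h1]; exact he
      · rw [h1]; exact hym
    · exact le_trans hw.2 (max_le he hym)
  · intro j q hj hq heq _
    obtain ⟨g1, g2, g3, _, _⟩ := hq
    have hjm : j = m := le_antisymm g1 hj
    rw [hjm] at g3
    exact Or.inr ⟨le_trans (min_le_left _ _) heq, le_trans g3.le (le_max_right _ _)⟩
  · intro j q hj hq _ _
    have := hq.1
    omega


/-- The state can be completed.

PROOF. Induction on `n`.
* `i = m`: `tr_end`, giving `S' = S ∪ Icc (min e (y m)) (max e (y m))`; it is bounded by `B` because of `h.mem`, `f ≤ e ≤ B`,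
 `y m ≤ B`; edges of the gap `m` with `e ≤ q < y m` are in the interval; there are no rungs `j ≥ m`.
* `i < m`, `e < y i` (so `e ≤ x (i + 1)` or `x (i + 1) < e < y i`).
 (a) `Q = A :: Q'` with `A.1 < x (i + 1)` (then `e < x (i + 1)`): `tr_gap`, induction for `(i, A.2)`, `Q'`, `fn_gap`.
 (b) `Q = A :: Q'` with `x (i + 1) < A.1 < y i`. If `i + 2 ≤ m` and `y i = x (i + 2)`: `tr_rung_d` (if `e ≤ x (i + 1)`) or `tr_exit_in_d`, induction for
 `(i + 2, A.2)`, `Q'`, `fn_d`. Otherwise (`hV.sp`) `i + 2 ≤ m → y i < x (i + 2)`: `tr_rung_nd` or `tr_exit_in_nd`, induction for `(i + 1, A.2)`, `Q'`,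
 `fn_nd`.
 (c) otherwise all chords of `Q` start after `y i` (the first one does: it is different from `x (i + 1)`, `y i`; the list is sorted): `tr_move` (if
 `e ≤ x (i + 1)`) or `tr_exit`, induction for `(i + 1, y i)`, `Q`, `fn_far`.
* `i < m`, `y i < e` (`e ≠ y i` by `h.ey`): `tr_thru_d` or `tr_thru_nd`, induction for `(i + 2, e)` or `(i + 1, e)`, `Q`, `fn_thru_d`, `fn_thru_nd`. -/
theorem run {E : Set (ℕ × ℕ)} {s t m B : ℕ} {x y : ℕ → ℕ} (hV : Vine s t m x y)
    (hE : ∀ j ≤ m, (x j, y j) ∈ E) (hB : ∀ j ≤ m, y j ≤ B) (n : ℕ) : ∀ (i e f : ℕ) (S : Set ℕ) (Q : List (ℕ × ℕ)),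
    (m - i) + Q.length ≤ n → St E m x y i e f S → e ≤ B → Q.Pairwise (fun A A' => A.2 < A'.1) →
    (∀ A ∈ Q, e < A.1 ∧ Ok E s m B x y A) → Fn E m B x y i e S Q := by
  induction n with
  | zero =>
    intro i e f S Q hn h he hQ hok
    have him : i = m := by
      have h1 := h.im
      omega
    rw [him] at h ⊢
    exact A05_end hV hB e f S Q h he
  | succ n ih =>
    intro i e f S Q hn h he hQ hok
    rcases Nat.eq_or_lt_of_le h.im with him | him
    · rw [him] at h ⊢
      exact A05_end hV hB e f S Q h he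
    · rcases lt_trichotomy e (y i) with hey | hey | hey
      · by_cases hc : ∃ A Q', Q = A :: Q' ∧ A.1 < y i
        · obtain ⟨A, Q', rfl, hA1⟩ := hc
          obtain ⟨heA, hA⟩ := hok A List.mem_cons_self
          obtain ⟨hQ1, hQ2⟩ := List.pairwise_cons.1 hQ
          have hok' : ∀ A' ∈ Q', A.2 < A'.1 ∧ Ok E s m B x y A' := fun A' hA' =>
            ⟨hQ1 A' hA', (hok A' (List.mem_cons_of_mem _ hA')).2⟩
          have hn' : (m - i) + Q'.length ≤ n := by
            rw [List.length_cons] at hn
            omega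
          rcases lt_trichotomy A.1 (x (i + 1)) with h1 | h1 | h1
          · obtain ⟨S', hS, hst⟩ := tr_gap hV h him hA heA h1
            exact fn_gap (ih i A.2 A.1 S' Q' hn' hst hA.bdd hQ2 hok') hS heA hA.len
          · exact absurd h1 (hA.x1 (i + 1) him)
          · have hout : y i < A.2 := hA.out i him h1 hA1
            by_cases hd : i + 2 ≤ m ∧ y i = x (i + 2)
            · obtain ⟨hd1, hd2⟩ := hd
              have hst : ∃ S', S ∪ Set.Icc e A.1 ⊆ S' ∧ St E m x y (i + 2) A.2 (y i) S' := by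
                by_cases hex : e ≤ x (i + 1)
                · exact tr_rung_d hV hE h hd1 hex hd2 hA h1 hA1
                · exact tr_exit_in_d hV hE h hd1 (by omega) hd2 hA heA hA1
              obtain ⟨S', hS, hst⟩ := hst
              exact fn_d hV hd1 hd2 (ih (i + 2) A.2 (y i) S' Q' (by omega) hst hA.bdd hQ2 hok') hS heA hA.len h1 hA1
            · have hnd : i + 2 ≤ m → y i < x (i + 2) := by
                intro h2
                have h3 := hV.sp i h2
                rcases Nat.eq_or_lt_of_le h3 with h4 | h4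
                · exact absurd ⟨h2, h4⟩ hd
                · exact h4
              have hst : ∃ S', S ∪ Set.Icc (min e (x (i + 1))) (max e (x (i + 1))) ∪ Set.Icc A.1 (y i) ⊆ S' ∧
                  St E m x y (i + 1) A.2 (y i) S' := by
                by_cases hex : e ≤ x (i + 1)
                · rw [min_eq_left hex, max_eq_right hex]
                  exact tr_rung_nd hV hE h him hex hnd hA h1 hA1
                · have hex' : x (i + 1) < e := by omega
                  rw [min_eq_right hex'.le, max_eq_left hex'.le]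
                  exact tr_exit_in_nd hV hE h him hex' hnd hA heA hA1
              obtain ⟨S', hS, hst⟩ := hst
              exact fn_nd hV him (ih (i + 1) A.2 (y i) S' Q' (by omega) hst hA.bdd hQ2 hok') hS heA hA.len h1 hA1
                hout hQ1
        · have hQf : ∀ A' ∈ Q, y i < A'.1 := by
            cases Q with
            | nil => intro A' hA'; exact absurd hA' (List.not_mem_nil)
            | cons A Q' =>
              obtain ⟨heA, hA⟩ := hok A List.mem_cons_self
              obtain ⟨hQ1, hQ2⟩ := List.pairwise_cons.1 hQ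
              have h1 : y i < A.1 := by
                by_contra hcon
                have h2 := hA.y1 i h.im
                exact hc ⟨A, Q', rfl, by omega⟩
              intro A' hA'
              rcases List.mem_cons.1 hA' with h3 | h3
              · rw [h3]; exact h1
              · have h4 := hQ1 A' h3
                have h5 := hA.len
                omega
          have hst : ∃ f' S', S ∪ Set.Icc (min e (x (i + 1))) (max e (x (i + 1))) ⊆ S' ∧
              St E m x y (i + 1) (y i) f' S' := by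
            by_cases hex : e ≤ x (i + 1)
            · rw [min_eq_left hex, max_eq_right hex]
              exact ⟨x (i + 1), tr_move hV hE h him hex⟩
            · have hex' : x (i + 1) < e := by omega
              rw [min_eq_right hex'.le, max_eq_left hex'.le]
              exact ⟨e, tr_exit hV hE h him hex' hey⟩
          obtain ⟨f', S', hS, hst⟩ := hst
          refine fn_far hV him (ih (i + 1) (y i) f' S' Q (by omega) hst (hB i h.im) hQ ?_) hS hey hQf
          exact fun A' hA' => ⟨hQf A' hA', (hok A' hA').2⟩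
      · exact absurd hey (h.ey i (le_refl _) h.im)
      · by_cases hd : i + 2 ≤ m ∧ y i = x (i + 2)
        · obtain ⟨hd1, hd2⟩ := hd
          obtain ⟨S', hS, hst⟩ := tr_thru_d hV hE h hd1 hey hd2
          exact fn_thru_d hV hd1 hd2 (ih (i + 2) e (y i) S' Q (by omega) hst he hQ hok) hS hey
        · have hnd : i + 2 ≤ m → y i < x (i + 2) := by
            intro h2
            have h3 := hV.sp i h2
            rcases Nat.eq_or_lt_of_le h3 with h4 | h4
            · exact absurd ⟨h2, h4⟩ hd
            · exact h4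
          obtain ⟨S', hS, hst⟩ := tr_thru_nd hV hE h him hey hnd
          exact fn_thru_nd hV him (ih (i + 1) e (y i) S' Q (by omega) hst he hQ hok) hS hey

/-- **Spiral lemma.**

PROOF. If `Q = A :: Q'` with `A.1 < x 0` use `init2` and `run` for `(0, A.2)`, `Q'`; edges `s ≤ q` of gaps in no chord of `Q` are `≥ A.2`
(as `A.1 < x 0 ≤ s ≤ q`), rung edges in a chord of `Q` are `< A.2` or in a chord of `Q'`. Otherwise all chords of `Q` start after `x 0` (they are
sorted and different from `x 0`): `init1` and `run` for `(0, x 0)`, `Q`. -/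
theorem spiral {E : Set (ℕ × ℕ)} {s t m B : ℕ} {x y : ℕ → ℕ} (hV : Vine s t m x y)
    (hE : ∀ j ≤ m, (x j, y j) ∈ E) (hB : ∀ j ≤ m, y j ≤ B) (Q : List (ℕ × ℕ))
    (hQ : Q.Pairwise (fun A A' => A.2 < A'.1)) (hok : ∀ A ∈ Q, Ok E s m B x y A) :
    ∃ S : Set ℕ, Cy E S ∧ (∀ w ∈ S, w ≤ B) ∧
      (∀ j q, InGap m x y j q → s ≤ q → (∀ A ∈ Q, ¬ Cov A q) → q ∈ S) ∧
      ∀ i q, InRung m x y i q → NonDeg m x y i → (∃ A ∈ Q, Cov A q) → q ∈ S := by
  by_cases hc : ∃ A Q', Q = A :: Q' ∧ A.1 < x 0
  · obtain ⟨A, Q', rfl, hA1⟩ := hc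
    have hA := hok A List.mem_cons_self
    obtain ⟨hQ1, hQ2⟩ := List.pairwise_cons.1 hQ
    obtain ⟨S', hst⟩ := init2 hV hE hA hA1
    obtain ⟨S'', _, hcy, hbd, hg, hr⟩ := run hV hE hB ((m - 0) + Q'.length) 0 A.2 (x 0) S' Q' (le_refl _) hst hA.bdd hQ2
      (fun A' hA' => ⟨hQ1 A' hA', hok A' (List.mem_cons_of_mem _ hA')⟩)
    have hx0 := hV.x0
    refine ⟨S'', hcy, hbd, ?_, ?_⟩
    · intro j q hj hsq hno
      refine hg j q (Nat.zero_le j) hj ?_ (fun A' hA' => hno A' (List.mem_cons_of_mem _ hA'))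
      have h1 := hno A List.mem_cons_self
      by_contra hcon
      exact h1 ⟨by omega, by omega⟩
    · intro i q hi hnd hex
      refine hr i q (Nat.zero_le i) hi hnd ?_
      obtain ⟨A', hA', hcov⟩ := hex
      rcases List.mem_cons.1 hA' with h3 | h3
      · left
        rw [h3] at hcov
        exact hcov.2
      · exact Or.inr ⟨A', h3, hcov⟩
  · have hx0 := hV.x0
    have hQf : ∀ A' ∈ Q, x 0 < A'.1 := by
      cases Q with
      | nil => intro A' hA'; exact absurd hA' (List.not_mem_nil)
      | cons A Q' =>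
        have hA := hok A List.mem_cons_self
        obtain ⟨hQ1, hQ2⟩ := List.pairwise_cons.1 hQ
        have h1 : x 0 < A.1 := by
          by_contra hcon
          have h2 := hA.x1 0 (Nat.zero_le m)
          exact hc ⟨A, Q', rfl, by omega⟩
        intro A' hA'
        rcases List.mem_cons.1 hA' with h3 | h3
        · rw [h3]; exact h1
        · have h4 := hQ1 A' h3
          have h5 := hA.len
          omega
    obtain ⟨S', hst⟩ := init1 hV hE
    have hxB : x 0 ≤ B := by
      have h1 := hV.len 0 (Nat.zero_le m)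
      have h2 := hB 0 (Nat.zero_le m)
      omega
    obtain ⟨S'', _, hcy, hbd, hg, hr⟩ := run hV hE hB ((m - 0) + Q.length) 0 (x 0) (x 0) S' Q (le_refl _) hst hxB hQ
      (fun A' hA' => ⟨hQf A' hA', hok A' hA'⟩)
    refine ⟨S'', hcy, hbd, ?_, ?_⟩
    · intro j q hj hsq hno
      exact hg j q (Nat.zero_le j) hj (by omega) hno
    · intro i q hi hnd hex
      exact hr i q (Nat.zero_le i) hi hnd (Or.inr hex)

end LC.Lin
end
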