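import Pool.Agent.Lib.MP_6bc8af_co.Mg.G003

section

/-! MP_6bc8af_co, linear bound, TASK A6: a strictly covering family contains a vine. -/

namespace LC.Lin

/-- A finite family `D` of chords which strictly covers `(s, t)` contains a vine.

PROOF (greedy). Let `a 0` be, among the chords `A ∈ D` with `A.1 < s + 1 < A.2` (exists by `hc` for `v = s + 1 < t`), one with maximal `A.2`. If
`(a j).2 < t` (then `s < (a j).2`), let `a (j + 1)` be, among the chords `A ∈ D` with `A.1 < (a j).2 < A.2` (exists by `hc`), one with maximal `A.2`;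
if `t ≤ (a j).2` put `a (j + 1) = a j`. As long as `(a j).2 < t` the numbers `(a j).2` increase; let `m` be the least index with
`t ≤ (a m).2`, `x j = (a j).1`, `y j = (a j).2`. Then, for `j < m`: `x (j + 1) < y j < y (j + 1)`. `x j < x (j + 1)`: otherwise the chord `a (j + 1)`
strictly contains `y (j - 1)` (resp. `s + 1` if `j = 0`), because `x (j + 1) ≤ x j < y (j - 1) < y j < y (j + 1)`, and it has a larger end than `a j`,
contradiction with the choice of `a j`. `y j ≤ x (j + 2)`: otherwise `x (j + 2) < y j < y (j + 1) < y (j + 2)`, contradiction with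
the choice of `a (j + 1)`. `s < x 1`: otherwise `x 1 ≤ s`, `a 1` strictly contains `s + 1` and has a larger end than `a 0`. `x 0 ≤ s` as `x 0 < s + 1`.
`y (m - 1) < t` by the choice of `m`. -/
theorem exists_vine (D : Finset (ℕ × ℕ)) (s t : ℕ) (hst : s + 2 ≤ t) (hlen : ∀ A ∈ D, A.1 + 2 ≤ A.2)
    (hc : ∀ v, s < v → v < t → ∃ A ∈ D, A.1 < v ∧ v < A.2) :
    ∃ (m : ℕ) (x y : ℕ → ℕ), Vine s t m x y ∧ ∀ j ≤ m, (x j, y j) ∈ D := by
  classical
  have hbest : ∀ v : ℕ, ∃ A : ℕ × ℕ, s < v → v < t →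
      A ∈ D ∧ A.1 < v ∧ v < A.2 ∧ ∀ B ∈ D, B.1 < v → v < B.2 → B.2 ≤ A.2 := by
    intro v
    by_cases hv : s < v ∧ v < t
    · obtain ⟨A, hA, h1, h2⟩ := hc v hv.1 hv.2
      obtain ⟨B, hB, hmax⟩ := Finset.exists_max_image (D.filter fun A => A.1 < v ∧ v < A.2) (fun A => A.2)
        ⟨A, Finset.mem_filter.2 ⟨hA, h1, h2⟩⟩
      obtain ⟨hB1, hB2, hB3⟩ := Finset.mem_filter.1 hB
      exact ⟨B, fun _ _ => ⟨hB1, hB2, hB3, fun C hC h3 h4 => hmax C (Finset.mem_filter.2 ⟨hC, h3, h4⟩)⟩⟩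
    · exact ⟨(0, 0), fun h1 h2 => absurd ⟨h1, h2⟩ hv⟩
  choose g hg using hbest
  obtain ⟨a, ha0, ha1⟩ : ∃ a : ℕ → ℕ × ℕ, a 0 = g (s + 1) ∧ ∀ j, a (j + 1) = g (a j).2 :=
    ⟨fun n => Nat.rec (g (s + 1)) (fun _ b => g b.2) n, rfl, fun _ => rfl⟩
  have h0 := hg (s + 1) (by omega) (by omega)
  rw [← ha0] at h0
  have hstep : ∀ j, s < (a j).2 → (a j).2 < t → a (j + 1) ∈ D ∧ (a (j + 1)).1 < (a j).2 ∧
      (a j).2 < (a (j + 1)).2 ∧ ∀ B ∈ D, B.1 < (a j).2 → (a j).2 < B.2 → B.2 ≤ (a (j + 1)).2 := by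
    intro j h1 h2
    have h3 := hg (a j).2 h1 h2
    rw [← ha1] at h3
    exact h3
  have hex : ∃ n, t ≤ (a n).2 := by
    by_contra hcon
    push Not at hcon
    have hgrow : ∀ n, s + n < (a n).2 := by
      intro n
      induction n with
      | zero => omega
      | succ n ih =>
        have h1 := (hstep n (by omega) (hcon n)).2.2.1
        omega
    have h1 := hgrow t
    have h2 := hcon t
    omega
  obtain ⟨m, hm, hmin⟩ : ∃ m, t ≤ (a m).2 ∧ ∀ j, j < m → (a j).2 < t :=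
    ⟨Nat.find hex, Nat.find_spec hex, fun j hj => not_le.1 (Nat.find_min hex hj)⟩
  have hs : ∀ j, j ≤ m → s < (a j).2 := by
    intro j
    induction j with
    | zero => intro _; omega
    | succ j ih =>
      intro hj
      have h1 := ih (by omega)
      have h2 := (hstep j h1 (hmin j (by omega))).2.2.1
      omega
  have hD : ∀ j, j ≤ m → a j ∈ D := by
    intro j hj
    cases j with
    | zero => exact h0.1
    | succ j => exact (hstep j (hs j (by omega)) (hmin j (by omega))).1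
  have hst2 : ∀ j, j < m → (a (j + 1)).1 < (a j).2 ∧
      (a j).2 < (a (j + 1)).2 ∧ ∀ B ∈ D, B.1 < (a j).2 → (a j).2 < B.2 → B.2 ≤ (a (j + 1)).2 := fun j hj =>
    (hstep j (hs j (by omega)) (hmin j hj)).2
  refine ⟨m, fun j => (a j).1, fun j => (a j).2, ⟨?_, ?_, hm, ?_, ?_, ?_, ?_, ?_, ?_⟩, hD⟩
  · intro j hj
    exact hlen _ (hD j hj)
  · show (a 0).1 ≤ s
    omega
  · intro j hj
    show (a j).1 < (a (j + 1)).1
    by_contra hcon
    obtain ⟨h1, h2, h3⟩ := hst2 j hj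
    cases j with
    | zero =>
      have h4 := h0.2.2.2 (a (0 + 1)) (hD _ (by omega)) (by omega) (by omega)
      omega
    | succ j =>
      obtain ⟨h4, h5, h6⟩ := hst2 j (by omega)
      have h7 := h6 (a (j + 1 + 1)) (hD _ (by omega)) (by omega) (by omega)
      omega
  · intro j hj
    exact (hst2 j hj).1
  · intro j hj
    exact (hst2 j hj).2.1
  · intro j hj
    show (a j).2 ≤ (a (j + 1 + 1)).1
    by_contra hcon
    obtain ⟨h1, h2, h3⟩ := hst2 j (by omega)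
    obtain ⟨h4, h5, h6⟩ := hst2 (j + 1) (by omega)
    have h7 := h3 (a (j + 1 + 1)) (hD _ (by omega)) (by omega) (by omega)
    omega
  · intro h1
    show s < (a 1).1
    by_contra hcon
    obtain ⟨h2, h3, h4⟩ := hst2 0 (by omega)
    have h5 := h0.2.2.2 (a (0 + 1)) (hD _ (by omega)) (by rw [Nat.zero_add]; omega) (by omega)
    omega
  · intro h1
    exact hmin (m - 1) (by omega)

end LC.Lin
end

section

/-! MP_6bc8af_co, linear bound, TASK A7: the order of the switches. -/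

namespace LC.Lin

/-- PROOF. If `j = m'` there is nothing after: `x' j' > y (i' - 1) ≥ y i > x' j` (by `h'.2.2.1` and `Vine.yle`), and `j' ≤ m' = j`, so `x' j' ≤ x' j`,
contradiction. In general `x' j' > y (i' - 1) ≥ y i > x' j`, so `j < j'` by monotonicity of `x'`. -/
theorem sw_mono {s t m m' : ℕ} {x y x' y' : ℕ → ℕ} (hV : Vine s t m x y) (hW : Vine s t m' x' y') {i j i' j' : ℕ}
    (h : Sw m y m' x' i j) (h' : Sw m y m' x' i' j') (hi : i < i') : j < j' := by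
  obtain ⟨h1, h2, h3, h4, h5⟩ := h
  obtain ⟨g1, g2, g3, g4, g5⟩ := h'
  have e1 := g3 (by omega)
  have e2 := hV.yle (show i ≤ i' - 1 by omega) (by omega)
  by_contra hcon
  have e3 := hW.xle (show j' ≤ j by omega) h2
  omega

/-- The second index is determined by the first one. PROOF. Both `j`, `j'` are the last index with `x' j < y i`: if `j < j'` then
`j + 1 ≤ m'`, `y i < x' (j + 1) ≤ x' j' < y i`. -/
theorem sw_unique {s t m m' : ℕ} {x y x' y' : ℕ → ℕ} (hW : Vine s t m' x' y') {i j j' : ℕ}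
    (h : Sw m y m' x' i j) (h' : Sw m y m' x' i j') : j = j' := by
  obtain ⟨h1, h2, h3, h4, h5⟩ := h
  obtain ⟨g1, g2, g3, g4, g5⟩ := h'
  rcases Nat.lt_trichotomy j j' with hj | hj | hj
  · have e1 := h5 (by omega)
    have e2 := hW.xle (show j + 1 ≤ j' by omega) g2
    omega
  · exact hj
  · have e1 := g5 (by omega)
    have e2 := hW.xle (show j' + 1 ≤ j by omega) h2
    omega

/-- PROOF. `rk i'` counts the switches `< i'`, `rk i` those `< i`; the index `i` itself is counted in `rk i'` if `i < i'`. So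
`rk (i + 1) = rk i + 1` and `rk` is monotone. -/
theorem rk_lt {m m' : ℕ} {y x' : ℕ → ℕ} {i j i' : ℕ} (h : Sw m y m' x' i j) (hi : i < i') :
    rk m y m' x' i + 1 ≤ rk m y m' x' i' := by
  classical
  unfold rk
  have hmem : i ∉ (Finset.range i).filter fun i' => ∃ j', Sw m y m' x' i' j' := by
    intro hc
    exact absurd (Finset.mem_range.1 (Finset.mem_filter.1 hc).1) (lt_irrefl i)
  rw [← Finset.card_insert_of_notMem hmem]
  refine Finset.card_le_card ?_
  intro a ha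
  rcases Finset.mem_insert.1 ha with h1 | h1
  · rw [h1]
    exact Finset.mem_filter.2 ⟨Finset.mem_range.2 hi, j, h⟩
  · obtain ⟨h2, h3⟩ := Finset.mem_filter.1 h1
    exact Finset.mem_filter.2 ⟨Finset.mem_range.2 (lt_trans (Finset.mem_range.1 h2) hi), h3⟩

/-- The next switch. PROOF. `rk (i + 1) = rk i + 1 < rk i'`, so there is a switch in `[i + 1, i')`; take the least one `i₁`: then
`rk i₁ = rk (i + 1)` because there is no switch in `[i + 1, i₁)`. -/
theorem rk_next {m m' : ℕ} {y x' : ℕ → ℕ} {i j i' : ℕ} (h : Sw m y m' x' i j)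
    (hi : rk m y m' x' i + 2 ≤ rk m y m' x' i') :
    ∃ i₁ j₁, Sw m y m' x' i₁ j₁ ∧ i < i₁ ∧ i₁ < i' ∧ rk m y m' x' i₁ = rk m y m' x' i + 1 := by
  classical
  have hle : ∀ n, i ≤ n → (∀ k, i < k → k < n → ¬ ∃ j', Sw m y m' x' k j') →
      rk m y m' x' n ≤ rk m y m' x' i + 1 := by
    intro n hn hno
    unfold rk
    refine le_trans (Finset.card_le_card ?_) (Finset.card_insert_le i _)
    intro a ha
    obtain ⟨h2, h3⟩ := Finset.mem_filter.1 ha
    have h4 := Finset.mem_range.1 h2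
    rcases Nat.lt_trichotomy a i with h5 | h5 | h5
    · exact Finset.mem_insert_of_mem (Finset.mem_filter.2 ⟨Finset.mem_range.2 h5, h3⟩)
    · rw [h5]
      exact Finset.mem_insert_self _ _
    · exact absurd h3 (hno a h5 h4)
  have hex : ∃ k, i < k ∧ k < i' ∧ ∃ j', Sw m y m' x' k j' := by
    by_contra hcon
    have hii : i ≤ i' := by
      by_contra hc
      have h6 : rk m y m' x' i' ≤ rk m y m' x' i := by
        unfold rk
        refine Finset.card_le_card ?_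
        intro a ha
        obtain ⟨h2, h3⟩ := Finset.mem_filter.1 ha
        have h4 := Finset.mem_range.1 h2
        exact Finset.mem_filter.2 ⟨Finset.mem_range.2 (by omega), h3⟩
      omega
    have h7 := hle i' hii (fun k h1 h2 h3 => hcon ⟨k, h1, h2, h3⟩)
    omega
  obtain ⟨h1, h2, j₁, h3⟩ := Nat.find_spec hex
  refine ⟨Nat.find hex, j₁, h3, h1, h2, ?_⟩
  have h4 := rk_lt h h1
  have h5 := hle (Nat.find hex) h1.le (fun k hk1 hk2 hk3 =>
    Nat.find_min hex hk2 ⟨hk1, lt_trans hk2 h2, hk3⟩)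
  omega

/-- A removed chord of the first vine: its index is at most `i₁ + 1` for every later switch `(i₁, j₁)`.

PROOF. `j < j₁` by `sw_mono`, so `x' (j + 1) ≤ x' j₁ < y i₁`. If `i₁ + 2 ≤ l` then `y i₁ ≤ x l < x' (j + 1)` (`Vine.sep` and the hypothesis `hx`,
`j + 1 ≤ j₁ ≤ m'`), contradiction. -/
theorem rem_left {s t m m' : ℕ} {x y x' y' : ℕ → ℕ} (hV : Vine s t m x y) (hW : Vine s t m' x' y')
    {i j i₁ j₁ l : ℕ} (h : Sw m y m' x' i j) (h₁ : Sw m y m' x' i₁ j₁) (hi : i < i₁) (hl : l ≤ m)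
    (hx : j + 1 ≤ m' → x l < x' (j + 1)) : l ≤ i₁ + 1 := by
  have hj := sw_mono hV hW h h₁ hi
  obtain ⟨h1, h2, h3, h4, h5⟩ := h
  obtain ⟨g1, g2, g3, g4, g5⟩ := h₁
  by_contra hcon
  have e1 := hW.xle (show j + 1 ≤ j₁ by omega) g2
  have e2 := hV.sep (show i₁ + 2 ≤ l by omega) hl
  have e3 := hx (by omega)
  omega

/-- A removed chord of the second vine: its index is at least `j₁ - 1` for every earlier switch `(i₁, j₁)`.

PROOF. Suppose `l + 1 < j₁`, so `l + 2 ≤ j₁ ≤ m'`: `y' l ≤ x' (l + 2) ≤ x' j₁ < y i₁ ≤ y (i - 1) < y' l`, contradiction. -/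
theorem rem_right {s t m m' : ℕ} {x y x' y' : ℕ → ℕ} (hV : Vine s t m x y) (hW : Vine s t m' x' y')
    {i j i₁ j₁ l : ℕ} (h : Sw m y m' x' i j) (h₁ : Sw m y m' x' i₁ j₁) (hi : i₁ < i) (hl : l ≤ m')
    (hx : 1 ≤ i → y (i - 1) < y' l) : j₁ ≤ l + 1 := by
  obtain ⟨h1, h2, h3, h4, h5⟩ := h
  obtain ⟨g1, g2, g3, g4, g5⟩ := h₁
  by_contra hcon
  have e1 := hW.sep (show l + 2 ≤ j₁ by omega) g2
  have e2 := hV.yle (show i₁ ≤ i - 1 by omega) (by omega)
  have e3 := hx (by omega)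
  omega

/-- The removed chords of a switch are completely to the left of those of a switch five places later.

PROOF. Apply `rk_next` four times to get switches `i = i₀ < i₁ < i₂ < i₃ < i₄ < i₅ = i'` (with `j₀ < ... < j₅` by `sw_mono`). Let `A ∈ Rem (i, j)`,
`A' ∈ Rem (i', j')`. Four cases:
* `A = (x l, y l)`, `A' = (x l', y l')`: `l ≤ i₁ + 1` (`rem_left`), `l' ≥ i' + 1 ≥ i₁ + 5`: `Vine.sep3`.
* `A = (x l, y l)`, `A' = (x' l', y' l')`: `l ≤ i₁ + 1 ≤ i₂`, `j₄ ≤ l' + 1` (`rem_right`): `y l ≤ y i₂ < x' (j₂ + 1) ≤ x' j₃ ≤ x' (j₄ - 1) ≤ x' l'`.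
* `A = (x' l, y' l)` with `l < j`, `A' = (x l', y l')`: `y' l ≤ x' (j + 1)` (`Vine.sep`, `l + 2 ≤ j + 1 ≤ j₁`), `≤ x' j₁ < y i₁ ≤ y (i' - 1) ≤ x (i' + 1) ≤ x l'`.
* `A = (x' l, y' l)` with `l < j`, `A' = (x' l', y' l')`: `l + 3 ≤ j + 2 ≤ j₄ - 1 ≤ l'`: `Vine.sep3`. -/
theorem rem_order {s t m m' : ℕ} {x y x' y' : ℕ → ℕ} (hV : Vine s t m x y) (hW : Vine s t m' x' y')
    {i j i' j' : ℕ} (h : Sw m y m' x' i j) (h' : Sw m y m' x' i' j')
    (hr : rk m y m' x' i + 5 ≤ rk m y m' x' i') {A A' : ℕ × ℕ} (hA : Rem m x y m' x' y' i j A)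
    (hA' : Rem m x y m' x' y' i' j' A') : A.2 < A'.1 := by
  obtain ⟨i₁, j₁, h₁, a1, b1, r1⟩ := rk_next h (show rk m y m' x' i + 2 ≤ rk m y m' x' i' by omega)
  obtain ⟨i₂, j₂, h₂, a2, b2, r2⟩ := rk_next h₁ (show rk m y m' x' i₁ + 2 ≤ rk m y m' x' i' by omega)
  obtain ⟨i₃, j₃, h₃, a3, b3, r3⟩ := rk_next h₂ (show rk m y m' x' i₂ + 2 ≤ rk m y m' x' i' by omega)
  obtain ⟨i₄, j₄, h₄, a4, b4, r4⟩ := rk_next h₃ (show rk m y m' x' i₃ + 2 ≤ rk m y m' x' i' by omega)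
  have c1 := sw_mono hV hW h h₁ a1
  have c2 := sw_mono hV hW h₁ h₂ a2
  have c3 := sw_mono hV hW h₂ h₃ a3
  have c4 := sw_mono hV hW h₃ h₄ a4
  have c5 := sw_mono hV hW h₄ h' b4
  have hjm : j' ≤ m' := h'.2.1
  have him : i' ≤ m := h'.1
  rcases hA with ⟨l, l1, l2, rfl, l3⟩ | ⟨l, l1, l2, rfl, l3⟩
  · rcases hA' with ⟨l', k1, k2, rfl, k3⟩ | ⟨l', k1, k2, rfl, k3⟩
    · have e1 := rem_right hV hW h' h₄ b4 k2 k3
      exact hW.sep3 (show l + 3 ≤ l' by omega) k2
    · have e1 := hW.sep (show l + 2 ≤ j + 1 by omega) (by omega)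
      have e2 := hW.xle (show j + 1 ≤ j₁ by omega) h₁.2.1
      have e3 := h₁.2.2.2.1
      have e4 := hV.yle (show i₁ ≤ i' - 1 by omega) (by omega)
      have e5 := hV.sep (show i' - 1 + 2 ≤ l' by omega) k2
      show y' l < x l'
      omega
  · have f1 := rem_left hV hW h h₁ a1 l2 l3
    rcases hA' with ⟨l', k1, k2, rfl, k3⟩ | ⟨l', k1, k2, rfl, k3⟩
    · have e1 := rem_right hV hW h' h₄ b4 k2 k3
      have e2 := hV.yle (show l ≤ i₂ by omega) h₂.1
      have e3 := h₂.2.2.2.2 (by omega)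
      have e4 := hW.xle (show j₂ + 1 ≤ l' by omega) k2
      show y l < x' l'
      omega
    · exact hV.sep3 (show l + 3 ≤ l' by omega) k2

end LC.Lin
end

section

/-! MP_6bc8af_co, linear bound, TASK A10: every edge is of one of three kinds. -/

namespace LC.Lin

/-- The edge `q` is next to a switch of the two vines. -/
def Rg (m : ℕ) (y : ℕ → ℕ) (m' : ℕ) (x' : ℕ → ℕ) (q : ℕ) : Prop :=
  ∃ i j, Sw m y m' x' i j ∧
    (((1 ≤ i → y (i - 1) ≤ q) ∧ q < x' j) ∨ (y i ≤ q ∧ (j + 1 ≤ m' → q < x' (j + 1))))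

/-- The edge `q` is in a nondegenerate rung of the first vine and in a chord of the second vine which is not inside a
rung of the first one. -/
def Rs (m : ℕ) (x y : ℕ → ℕ) (m' : ℕ) (x' y' : ℕ → ℕ) (q : ℕ) : Prop :=
  ∃ i l, InRung m x y i q ∧ NonDeg m x y i ∧ l ≤ m' ∧ Cov (x' l, y' l) q ∧
    ∀ i', i' + 1 ≤ m → x (i' + 1) < x' l → x' l < y i' → y i' < y' l

/-- First case: the rung of the second vine starts before the end `y (i - 1)`.

PROOF. `q` is in the rung `i` of the first vine and in the rung `j` of the second one, `1 ≤ i`. Let `i'` be the least index with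
`x' (j + 1) < y i'`; `i' ≤ i - 1`. The pair `(i', j + 1)` is a switch: `y (i' - 1) < x' (j + 1)` by the choice of `i'` and `hA`; `x' (j + 1) < y i'`; if
`j + 2 ≤ m'`: `y i' ≤ y (i - 1) ≤ x (i + 1) ≤ q < y' j ≤ x' (j + 2)`. And `y i' ≤ q`, `q < x' (j + 2)` if `j + 2 ≤ m'`. -/
theorem rg_left {s t m m' : ℕ} {x y x' y' : ℕ → ℕ} (hV : Vine s t m x y) (hW : Vine s t m' x' y')
    (hA : Apart m x y m' x' y') {i j q : ℕ} (h1 : InRung m x y i q) (h2 : InRung m' x' y' j q) (hi : 1 ≤ i)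
    (h : x' (j + 1) < y (i - 1)) : Rg m y m' x' q := by
  classical
  obtain ⟨a1, a2, a3⟩ := h1
  obtain ⟨b1, b2, b3⟩ := h2
  have hex : ∃ k, x' (j + 1) < y k := ⟨i - 1, h⟩
  have hs := Nat.find_spec hex
  have hle : Nat.find hex ≤ i - 1 := Nat.find_min' hex h
  have hmin : ∀ k, k < Nat.find hex → ¬ x' (j + 1) < y k := fun k hk => Nat.find_min hex hk
  set k := Nat.find hex with hk
  have c1 : y k ≤ y (i - 1) := hV.yle hle (by omega)
  have c2 : y (i - 1) ≤ x (i + 1) := hV.sep (by omega) a1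
  have c3 : j + 2 ≤ m' → y' j ≤ x' (j + 2) := fun h => hW.sp j h
  refine ⟨k, j + 1, ⟨by omega, b1, ?_, hs, ?_⟩, Or.inr ⟨by omega, ?_⟩⟩
  · intro hk1
    have d1 := hmin (k - 1) (by omega)
    have d2 := (hA (k - 1) (by omega) (j + 1) b1).2.2.1
    omega
  · intro hj
    have := c3 (by omega)
    rw [show j + 1 + 1 = j + 2 by omega]
    omega
  · intro hj
    have := c3 (by omega)
    rw [show j + 1 + 1 = j + 2 by omega]
    omega

/-- Second case: the second vine starts again before the end `y i`.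

PROOF. `q` is in the rung `i` of the first vine and in the rung `j` of the second one, `j + 2 ≤ m'`. Let `j''` be the greatest index `≤ m'` with
`x' j'' < y i`; `j'' ≥ j + 2`. The pair `(i, j'')` is a switch: `y (i - 1) ≤ x (i + 1) ≤ q < y' j ≤ x' (j + 2) ≤ x' j''` if `1 ≤ i`; `y i < x' (j'' + 1)` by the choice of
`j''` and `hA`. And `q < x' j''`. -/
theorem rg_right {s t m m' : ℕ} {x y x' y' : ℕ → ℕ} (hV : Vine s t m x y) (hW : Vine s t m' x' y')
    (hA : Apart m x y m' x' y') {i j q : ℕ} (h1 : InRung m x y i q) (h2 : InRung m' x' y' j q) (hj : j + 2 ≤ m')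
    (h : x' (j + 2) < y i) : Rg m y m' x' q := by
  classical
  obtain ⟨a1, a2, a3⟩ := h1
  obtain ⟨b1, b2, b3⟩ := h2
  have hex : ∃ n, n ≤ m' ∧ x' (m' - n) < y i :=
    ⟨m' - (j + 2), by omega, by rw [show m' - (m' - (j + 2)) = j + 2 by omega]; exact h⟩
  have hs := Nat.find_spec hex
  have hle : Nat.find hex ≤ m' - (j + 2) :=
    Nat.find_min' hex ⟨by omega, by rw [show m' - (m' - (j + 2)) = j + 2 by omega]; exact h⟩
  have hmin : ∀ k, k < Nat.find hex → ¬ (k ≤ m' ∧ x' (m' - k) < y i) := fun k hk => Nat.find_min hex hk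
  set n := Nat.find hex with hn
  have c1 : y' j ≤ x' (j + 2) := hW.sp j hj
  have c2 : x' (j + 2) ≤ x' (m' - n) := hW.xle (by omega) (by omega)
  have c3 : 1 ≤ i → y (i - 1) ≤ x (i + 1) := fun h => hV.sep (by omega) a1
  refine ⟨i, m' - n, ⟨by omega, by omega, ?_, hs.2, ?_⟩, Or.inl ⟨?_, by omega⟩⟩
  · intro hi
    have := c3 hi
    omega
  · intro hk
    have d1 := hmin (n - 1) (by omega)
    have d2 := (hA i (by omega) (m' - n + 1) hk).2.2.1
    rw [show m' - (n - 1) = m' - n + 1 by omega] at d1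
    by_contra hcon
    exact d1 ⟨by omega, by omega⟩
  · intro hi
    have := c3 hi
    omega

/-- A vine whose rung at `q` is nondegenerate: any other vine gives a chord as in `Rs`, if the case `rg_left` (with the second vine in the role of the first)
does not occur.

PROOF. `q` is in the rung `i` of the first vine, in the rung `j` of the second one. Take `l = j`: `x' j ≤ q` (`x' j < x' (j + 1) ≤ q`) and `q < y' j`.
Suppose `x (i' + 1) < x' j < y i'` but `y' j ≤ y i'`. Then `q` is in the rung `i'` (`x (i' + 1) < x' j ≤ q < y' j ≤ y i'`), so `i' = i` (`Vine.rung_inj`). If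
`j = 0` then `x' 0 ≤ s < x (i + 1)` (`Vine.sx`), contradiction; otherwise `x' j < y' (j - 1) ≤ x (i + 1)` by `h`, contradiction. So `y i' < y' j`. -/
theorem rs_of {s t m m' : ℕ} {x y x' y' : ℕ → ℕ} (hV : Vine s t m x y) (hW : Vine s t m' x' y')
    {i j q : ℕ} (h1 : InRung m x y i q) (h2 : InRung m' x' y' j q)
    (hn : NonDeg m x y i) (h : 1 ≤ j → y' (j - 1) ≤ x (i + 1)) : Rs m x y m' x' y' q := by
  have h1' := h1
  obtain ⟨a1, a2, a3⟩ := h1
  obtain ⟨b1, b2, b3⟩ := h2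
  have c1 : x' j < x' (j + 1) := hW.xs j (by omega)
  refine ⟨i, j, h1', hn, by omega, ⟨by show x' j ≤ q; omega, b3⟩, ?_⟩
  intro i' hi' d1 d2
  by_contra hcon
  have e1 : InRung m x y i' q := ⟨hi', by omega, by omega⟩
  have e2 : i' = i := hV.rung_inj e1 h1'
  subst e2
  rcases Nat.eq_zero_or_pos j with h0 | h0
  · subst h0
    have f1 := hW.x0
    have f2 := hV.sx (show 1 ≤ i' + 1 by omega) hi'
    omega
  · have f1 := h h0
    have f2 := hW.ov (j - 1) (by omega)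
    rw [show j - 1 + 1 = j by omega] at f2
    omega

/-- **Trichotomy** for three vines.

PROOF. If `q` is in a gap of some vine we are done; otherwise (`vine_cases`) `q` is in the rung `i a` of the vine `a` for `a = 0, 1, 2`. If for some
`a ≠ b`: `1 ≤ i a` and `x b (i b + 1) < y a (i a - 1)`: `rg_left`. If for some `a ≠ b`: `i b + 2 ≤ m b` and `x b (i b + 2) < y a (i a)`: `rg_right`. Otherwise, by
`hA`, for all `a ≠ b`: (1) `1 ≤ i a → y a (i a - 1) < x b (i b + 1)`; (2) `i b + 2 ≤ m b → y a (i a) < x b (i b + 2)`. At most one vine `a` has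
`1 ≤ i a ∧ y a (i a - 1) = x a (i a + 1)` (two of them, `a ≠ b`, would give
`x a (i a + 1) = y a (i a - 1) < x b (i b + 1) = y b (i b - 1) < x a (i a + 1)`), at most one has `i a + 2 ≤ m a ∧ y a (i a) = x a (i a + 2)`. So there is a vine
`a` without these equalities, and as `≤` holds always (`Vine.sp`) it has `NonDeg`. Take any `b ≠ a`: by (1) for `(b, a)`, `rs_of`. -/
theorem trichotomy {s t : ℕ} {m : Fin 3 → ℕ} {x y : Fin 3 → ℕ → ℕ} (hV : ∀ a, Vine s t (m a) (x a) (y a))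
    (hA : ∀ a b, a ≠ b → Apart (m a) (x a) (y a) (m b) (x b) (y b)) {q : ℕ} (hs : s ≤ q) (ht : q < t) :
    (∃ a j, InGap (m a) (x a) (y a) j q) ∨
    (∃ a b, a ≠ b ∧ Rg (m a) (y a) (m b) (x b) q) ∨
    ∃ a b, a ≠ b ∧ Rs (m a) (x a) (y a) (m b) (x b) (y b) q := by
  classical
  by_cases hgap : ∃ a j, InGap (m a) (x a) (y a) j q
  · exact Or.inl hgap
  right
  have hr : ∀ a, ∃ i, InRung (m a) (x a) (y a) i q := by
    intro a
    rcases vine_cases (hV a) hs ht with h | h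
    · exact absurd ⟨a, h⟩ hgap
    · exact h
  choose i hi using hr
  by_cases hrg : ∃ a b, a ≠ b ∧ Rg (m a) (y a) (m b) (x b) q
  · exact Or.inl hrg
  right
  have k1 : ∀ a b, a ≠ b → 1 ≤ i a → y a (i a - 1) < x b (i b + 1) := by
    intro a b hab h1
    by_contra hcon
    obtain ⟨a1, a2, a3⟩ := hi a
    obtain ⟨b1, b2, b3⟩ := hi b
    have hne := (hA a b hab (i a - 1) (by omega) (i b + 1) b1).2.2.1
    exact hrg ⟨a, b, hab, rg_left (hV a) (hV b) (hA a b hab) (hi a) (hi b) h1 (by omega)⟩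
  have k2 : ∀ a b, a ≠ b → i b + 2 ≤ m b → y a (i a) < x b (i b + 2) := by
    intro a b hab h1
    by_contra hcon
    obtain ⟨a1, a2, a3⟩ := hi a
    obtain ⟨b1, b2, b3⟩ := hi b
    have hne := (hA a b hab (i a) (by omega) (i b + 2) h1).2.2.1
    exact hrg ⟨a, b, hab, rg_right (hV a) (hV b) (hA a b hab) (hi a) (hi b) h1 (by omega)⟩
  have hfin : ∃ a, ¬ (1 ≤ i a ∧ y a (i a - 1) = x a (i a + 1)) ∧
      ¬ (i a + 2 ≤ m a ∧ y a (i a) = x a (i a + 2)) := by
    by_contra hcon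
    have u1 : ∀ a b, a ≠ b → (1 ≤ i a ∧ y a (i a - 1) = x a (i a + 1)) →
        ¬ (1 ≤ i b ∧ y b (i b - 1) = x b (i b + 1)) := by
      intro a b hab p1 p2
      have q1 := k1 a b hab p1.1
      have q2 := k1 b a hab.symm p2.1
      have := p1.2
      have := p2.2
      omega
    have u2 : ∀ a b, a ≠ b → (i a + 2 ≤ m a ∧ y a (i a) = x a (i a + 2)) →
        ¬ (i b + 2 ≤ m b ∧ y b (i b) = x b (i b + 2)) := by
      intro a b hab p1 p2
      have q1 := k2 b a hab.symm p1.1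
      have q2 := k2 a b hab p2.1
      have := p1.2
      have := p2.2
      omega
    have u3 : ∀ a, (1 ≤ i a ∧ y a (i a - 1) = x a (i a + 1)) ∨ (i a + 2 ≤ m a ∧ y a (i a) = x a (i a + 2)) := by
      intro a
      by_contra hc
      exact hcon ⟨a, fun h => hc (Or.inl h), fun h => hc (Or.inr h)⟩
    have n01 : (0 : Fin 3) ≠ 1 := by decide
    have n02 : (0 : Fin 3) ≠ 2 := by decide
    have n12 : (1 : Fin 3) ≠ 2 := by decide
    rcases u3 0 with p0 | p0 <;> rcases u3 1 with p1 | p1 <;> rcases u3 2 with p2 | p2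
    · exact u1 _ _ n01 p0 p1
    · exact u1 _ _ n01 p0 p1
    · exact u1 _ _ n02 p0 p2
    · exact u2 _ _ n12 p1 p2
    · exact u1 _ _ n12 p1 p2
    · exact u2 _ _ n02 p0 p2
    · exact u2 _ _ n01 p0 p1
    · exact u2 _ _ n01 p0 p1
  obtain ⟨a, ha1, ha2⟩ := hfin
  obtain ⟨b, hb⟩ : ∃ b : Fin 3, a ≠ b := by
    fin_cases a
    · exact ⟨1, by decide⟩
    · exact ⟨0, by decide⟩
    · exact ⟨0, by decide⟩
  obtain ⟨a1, a2, a3⟩ := hi a
  have hnd : NonDeg (m a) (x a) (y a) (i a) := by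
    refine ⟨fun h => ?_, fun h => ?_⟩
    · have h1 := (hV a).sep (show i a - 1 + 2 ≤ i a + 1 by omega) a1
      have h2 : y a (i a - 1) ≠ x a (i a + 1) := fun he => ha1 ⟨h, he⟩
      omega
    · have h1 := (hV a).sp (i a) h
      have h2 : y a (i a) ≠ x a (i a + 2) := fun he => ha2 ⟨h, he⟩
      omega
  refine ⟨a, b, hb, rs_of (hV a) (hV b) (hi a) (hi b) hnd ?_⟩
  intro h
  exact (k1 b a hb.symm h).le

end LC.Lin
end

section

/-! MP_6bc8af_co, linear bound, TASK B04: chords of rails. -/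

namespace LC.Lin

universe u

/-- A rail from `Xs p s` to `Yt p a t` which avoids `p v` has a chord strictly covering `v`.

PROOF. Let `i` be the last index `≤ n` with `g i = p w` for some `w < v` (exists: `g 0 = p w` with `w ≤ s < v`). `i < n`, since `g n = p w'` with
`t ≤ w' < a`, and `g n = p w`, `w < v < t` would give `w = w'` by `hinj`. Let `j` be the first index `> i` with `g j = p w'` for some `w' < a` (exists: `n`). By
the choice of `i`, `v ≤ w'`, and `w' ≠ v` by `hv`. So `(w, w')` is the chord: `w < v < w'`, `w' < a`. -/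
theorem chd_cover {V : Type u} {a : ℕ} {p : ℕ → V} (hinj : ∀ i < a, ∀ j < a, p i = p j → i = j) {n : ℕ}
    {g : ℕ → V} {s t v : ℕ} (hg0 : g 0 ∈ Xs p s) (hgn : g n ∈ Yt p a t) (hs : s < v) (ht : v < t)
    (hv : ∀ i ≤ n, g i ≠ p v) : ∃ A ∈ Chd a p n g, A.1 < v ∧ v < A.2 := by
  classical
  obtain ⟨w0, hw0, hw0g⟩ := hg0
  obtain ⟨w1, hw1, hw1a, hw1g⟩ := hgn
  let P : ℕ → Prop := fun i => ∃ w, w < v ∧ g i = p w
  have hP0 : P 0 := ⟨w0, by omega, hw0g.symm⟩
  set i := Nat.findGreatest P n with hi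
  have hPi : P i := Nat.findGreatest_spec (Nat.zero_le n) hP0
  have hin : i ≤ n := Nat.findGreatest_le n
  have hgr : ∀ k, i < k → k ≤ n → ¬ P k := fun k hk hkn => Nat.findGreatest_is_greatest hk hkn
  obtain ⟨w, hwv, hwg⟩ := hPi
  have hi' : i < n := by
    rcases Nat.lt_or_eq_of_le hin with h | h
    · exact h
    · exfalso
      rw [h, ← hw1g] at hwg
      have := hinj w1 hw1a w (by omega) hwg
      omega
  have hex : ∃ j, i < j ∧ ∃ w', w' < a ∧ g j = p w' := ⟨n, hi', w1, hw1a, hw1g.symm⟩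
  obtain ⟨hj1, w', hw'a, hw'g⟩ := Nat.find_spec hex
  have hjn : Nat.find hex ≤ n := Nat.find_min' hex ⟨hi', w1, hw1a, hw1g.symm⟩
  have hmin : ∀ l, l < Nat.find hex → ¬ (i < l ∧ ∃ w', w' < a ∧ g l = p w') := fun l hl =>
    Nat.find_min hex hl
  have h1 : v ≤ w' := by
    by_contra hcon
    exact hgr _ hj1 hjn ⟨w', by omega, hw'g⟩
  have h2 : w' ≠ v := by
    intro h
    rw [h] at hw'g
    exact hv _ hjn hw'g
  refine ⟨(w, w'), ⟨?_, hw'a, i, Nat.find hex, hj1, hjn, Or.inl ⟨hwg, hw'g⟩, ?_⟩, hwv, ?_⟩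
  · change w + 2 ≤ w'
    omega
  · intro l hl1 hl2 w2 hw2 h
    exact hmin l hl2 ⟨hl1, w2, hw2, h⟩
  · change v < w'
    omega

/-- Two disjoint rails give a vine.

PROOF. `D` = the finset of the `A ∈ Finset.range a ×ˢ Finset.range a` with `A ∈ Chd a p n g ∨ A ∈ Chd a p n' g'` (classical). If `s < v < t`, one of the
two rails avoids `p v`, as they are disjoint: `chd_cover` (its chord is in `D`: `A.1 < A.2 < a`). `exists_vine`. -/
theorem two_rails {V : Type u} {a : ℕ} {p : ℕ → V} (hinj : ∀ i < a, ∀ j < a, p i = p j → i = j) {n n' : ℕ}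
    {g g' : ℕ → V} {s t : ℕ} (hst : s + 2 ≤ t) (hg0 : g 0 ∈ Xs p s) (hgn : g n ∈ Yt p a t) (hg0' : g' 0 ∈ Xs p s)
    (hgn' : g' n' ∈ Yt p a t) (hd : ∀ i ≤ n, ∀ j ≤ n', g i ≠ g' j) :
    ∃ (m : ℕ) (x y : ℕ → ℕ), Vine s t m x y ∧
      ∀ j ≤ m, (x j, y j) ∈ Chd a p n g ∨ (x j, y j) ∈ Chd a p n' g' := by
  classical
  set D : Finset (ℕ × ℕ) := (Finset.range a ×ˢ Finset.range a).filter
    (fun A => A ∈ Chd a p n g ∨ A ∈ Chd a p n' g') with hD
  have hmem : ∀ A : ℕ × ℕ, A.1 < A.2 → A.2 < a → (A ∈ Chd a p n g ∨ A ∈ Chd a p n' g') → A ∈ D := by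
    intro A h1 h2 h3
    rw [hD, Finset.mem_filter, Finset.mem_product, Finset.mem_range, Finset.mem_range]
    exact ⟨⟨by omega, h2⟩, h3⟩
  have hDm : ∀ A ∈ D, A ∈ Chd a p n g ∨ A ∈ Chd a p n' g' := fun A hA => (Finset.mem_filter.1 hA).2
  obtain ⟨m, x, y, hV, hxy⟩ := exists_vine D s t hst (by
    intro A hA
    rcases hDm A hA with h | h
    · exact h.1
    · exact h.1) (by
    intro v hs ht
    by_cases hc : ∃ i ≤ n, g i = p v
    · obtain ⟨i, hi, hgi⟩ := hc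
      obtain ⟨A, hA, h1, h2⟩ := chd_cover hinj hg0' hgn' hs ht (fun j hj h =>
        hd i hi j hj (hgi.trans h.symm))
      exact ⟨A, hmem A (by omega) hA.2.1 (Or.inr hA), h1, h2⟩
    · obtain ⟨A, hA, h1, h2⟩ := chd_cover hinj hg0 hgn hs ht (fun j hj h => hc ⟨j, hj, h⟩)
      exact ⟨A, hmem A (by omega) hA.2.1 (Or.inl hA), h1, h2⟩)
  exact ⟨m, x, y, hV, fun j hj => hDm _ (hxy j hj)⟩

/-- Chords of disjoint rails have different endpoints. PROOF. A common endpoint would be a common vertex of the rails. -/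
theorem chd_apart {V : Type u} {a : ℕ} {p : ℕ → V} {n n' : ℕ} {g g' : ℕ → V}
    (hd : ∀ i ≤ n, ∀ j ≤ n', g i ≠ g' j) {A A' : ℕ × ℕ} (hA : A ∈ Chd a p n g) (hA' : A' ∈ Chd a p n' g') :
    A.1 ≠ A'.1 ∧ A.1 ≠ A'.2 ∧ A.2 ≠ A'.1 ∧ A.2 ≠ A'.2 := by
  have key : ∀ {n : ℕ} {g : ℕ → V} {A : ℕ × ℕ}, A ∈ Chd a p n g →
      (∃ i ≤ n, g i = p A.1) ∧ ∃ i ≤ n, g i = p A.2 := by
    intro n g A hA
    obtain ⟨_, _, i, j, hij, hj, h, _⟩ := hA
    rcases h with ⟨h1, h2⟩ | ⟨h1, h2⟩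
    · exact ⟨⟨i, by omega, h1⟩, j, hj, h2⟩
    · exact ⟨⟨j, hj, h2⟩, i, by omega, h1⟩
  obtain ⟨⟨i1, hi1, e1⟩, i2, hi2, e2⟩ := key hA
  obtain ⟨⟨j1, hj1, f1⟩, j2, hj2, f2⟩ := key hA'
  refine ⟨fun h => hd i1 hi1 j1 hj1 ?_, fun h => hd i1 hi1 j2 hj2 ?_, fun h => hd i2 hi2 j1 hj1 ?_,
    fun h => hd i2 hi2 j2 hj2 ?_⟩
  · rw [e1, f1, h]
  · rw [e1, f2, h]
  · rw [e2, f1, h]
  · rw [e2, f2, h]

end LC.Lin
end
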