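import Pool.Agent.Lib.MP_6bc8af_co.Mg.G005
import Pool.Agent.Lib.MP_6bc8af_co.Mg.G004

section

/-! MP_6bc8af_co, linear bound, TASK A8: the family `DD r` strictly covers, and the edges next to the switches of the class `r`
are in only one of its chords. -/

namespace LC.Lin

private theorem A08_same {s t m m' : ℕ} {x y x' y' : ℕ → ℕ} (hV : Vine s t m x y) (hW : Vine s t m' x' y')
    {r i j i' j' v : ℕ} (h : Sw m y m' x' i j) (h' : Sw m y m' x' i' j')
    (hr : rk m y m' x' i % 5 = r) (hr' : rk m y m' x' i' % 5 = r) {A A' : ℕ × ℕ}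
    (hA : Rem m x y m' x' y' i j A) (hA' : Rem m x y m' x' y' i' j' A')
    (h1 : A.1 < v) (h2 : v < A.2) (h3 : A'.1 < v) (h4 : v < A'.2) : i = i' ∧ j = j' := by
  have hi : i = i' := by
    rcases Nat.lt_trichotomy i i' with hlt | heq | hgt
    · exfalso
      have h5 := rk_lt h hlt
      have h6 := rem_order hV hW h h' (by omega) hA hA'
      omega
    · exact heq
    · exfalso
      have h5 := rk_lt h' hgt
      have h6 := rem_order hV hW h' h (by omega) hA' hA
      omega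
  refine ⟨hi, ?_⟩
  rw [hi] at h
  exact sw_unique (x := x) hW h h'

/-- The family `DD r` strictly covers `(s, t)`.

PROOF. (1) If `v` is strictly inside a chord `A` of `Rem σ` and a chord `A'` of `Rem σ'`, `σ = (i, j)`, `σ' = (i', j')` switches of class `r`, then
`i = i'` (and `j = j'` by `sw_unique`): otherwise (`rk_lt`) the ranks are different and congruent modulo `5`, so they differ by at least `5`
and `rem_order` gives `A.2 < A'.1` or `A'.2 < A.1`, but `A.1 < v < A.2`, `A'.1 < v < A'.2`.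
(2) If no switch of the class `r` has a removed chord strictly containing `v`, take any chord of the first vine strictly containing `v`
(`Vine.strict`). (3) Otherwise let `σ = (i, j)` be such a switch. If `v < y i` take the chord `(x l, y l)` of `Vine.strict` for the first vine: `l ≤ i`
because `y i' ≤ v` for `i' < l`. It is not in `Rem σ`: the first kind of removed chords are chords of the second vine, different by `hA`, the second
kind have index `> i` (and `x` is injective on indices `≤ m`). It is in no `Rem σ'` of the class by (1). If `y i ≤ v` take the chord `(x' l, y' l)` of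
`Vine.strict'` for the second vine: `x' j < y i ≤ v`, so `j ≤ l`; it is not in `Rem σ` and in no other `Rem σ'` of the class. -/
theorem dd_cover {s t m m' : ℕ} {x y x' y' : ℕ → ℕ} (hV : Vine s t m x y) (hW : Vine s t m' x' y')
    (hA : Apart m x y m' x' y') (r : ℕ) {v : ℕ} (hs : s < v) (ht : v < t) :
    ∃ A, DD m x y m' x' y' r A ∧ A.1 < v ∧ v < A.2 := by
  by_cases hex : ∃ i j A, Sw m y m' x' i j ∧ rk m y m' x' i % 5 = r ∧ Rem m x y m' x' y' i j A ∧
      A.1 < v ∧ v < A.2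
  · obtain ⟨i, j, A, hsw, hr, hA0, hA1, hA2⟩ := hex
    by_cases hv : v < y i
    · obtain ⟨l, hl, hl1, hl2, hl3⟩ := hV.strict hs ht
      have hli : l ≤ i := by
        by_contra hcon
        have := hl3 i (by omega)
        omega
      refine ⟨(x l, y l), ⟨Or.inl ⟨l, hl, rfl⟩, ?_⟩, hl1, hl2⟩
      intro i' j' hsw' hr' hrem
      obtain ⟨hi, hj⟩ := A08_same hV hW hsw hsw' hr hr' hA0 hrem hA1 hA2 hl1 hl2
      subst hi
      subst hj
      rcases hrem with ⟨l', h1, h2, h3, h4⟩ | ⟨l', h1, h2, h3, h4⟩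
      · exact (hA l hl l' h2).1 (Prod.mk.inj h3).1
      · have h5 := (Prod.mk.inj h3).1
        have h6 := hV.xmono (show l < l' by omega) h2
        omega
    · obtain ⟨l, hl, hl1, hl2, hl3⟩ := hW.strict' hs ht
      have hlj : j ≤ l := by
        by_contra hcon
        have h7 := hl3 j (by omega) hsw.2.1
        have h8 := hsw.2.2.2.1
        omega
      refine ⟨(x' l, y' l), ⟨Or.inr ⟨l, hl, rfl⟩, ?_⟩, hl1, hl2⟩
      intro i' j' hsw' hr' hrem
      obtain ⟨hi, hj⟩ := A08_same hV hW hsw hsw' hr hr' hA0 hrem hA1 hA2 hl1 hl2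
      subst hi
      subst hj
      rcases hrem with ⟨l', h1, h2, h3, h4⟩ | ⟨l', h1, h2, h3, h4⟩
      · have h5 := (Prod.mk.inj h3).1
        have h6 := hW.xmono (show l' < l by omega) hl
        omega
      · exact (hA l' h2 l hl).1 (Prod.mk.inj h3).1.symm
  · obtain ⟨l, hl, hl1, hl2, hl3⟩ := hV.strict hs ht
    refine ⟨(x l, y l), ⟨Or.inl ⟨l, hl, rfl⟩, ?_⟩, hl1, hl2⟩
    intro i' j' hsw' hr' hrem
    exact hex ⟨i', j', _, hsw', hr', hrem, hl1, hl2⟩

/-- Between the end `y (i - 1)` and the start `x' j` only the chord `i` of the first vine is in `DD r`.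

PROOF. Let `A` be in `DD r` with `A.1 ≤ q < A.2`. If `A = (x l, y l)`: `l < i` is impossible since `y l ≤ y (i - 1) ≤ q`; if `i < l` then
`x l ≤ q < x' j` and `x' j < x' (j + 1)` (if `j + 1 ≤ m'`), so `A` is removed. If `A = (x' l, y' l)`: `j ≤ l` is impossible since `x' j ≤ x' l ≤ q`; if `l < j`
then `y (i - 1) ≤ q < y' l` (if `1 ≤ i`), so `A` is removed. -/
theorem dd_left {s t m m' : ℕ} {x y x' y' : ℕ → ℕ} (hV : Vine s t m x y) (hW : Vine s t m' x' y')
    {r i j q : ℕ} (h : Sw m y m' x' i j) (hr : rk m y m' x' i % 5 = r)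
    (h1 : 1 ≤ i → y (i - 1) ≤ q) (h2 : q < x' j) {A : ℕ × ℕ} (hA : DD m x y m' x' y' r A) (hq : Cov A q) :
    A = (x i, y i) := by
  obtain ⟨hor, hno⟩ := hA
  obtain ⟨hi, hj, hs1, hs2, hs3⟩ := h
  obtain ⟨hq1, hq2⟩ := hq
  rcases hor with ⟨l, hl, rfl⟩ | ⟨l, hl, rfl⟩
  · dsimp only at hq1 hq2
    rcases Nat.lt_trichotomy l i with h3 | h3 | h3
    · exfalso
      have h4 := hV.yle (show l ≤ i - 1 by omega) (by omega)
      have h5 := h1 (by omega)
      omega
    · rw [h3]
    · exfalso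
      refine hno i j ⟨hi, hj, hs1, hs2, hs3⟩ hr (Or.inr ⟨l, h3, hl, rfl, ?_⟩)
      intro hj'
      have h4 := hW.xs j (by omega)
      omega
  · exfalso
    dsimp only at hq1 hq2
    rcases Nat.lt_or_ge l j with h3 | h3
    · refine hno i j ⟨hi, hj, hs1, hs2, hs3⟩ hr (Or.inl ⟨l, h3, hl, rfl, ?_⟩)
      intro h4
      have h5 := h1 h4
      omega
    · have h4 := hW.xle h3 hl
      omega

/-- Between the end `y i` and the start `x' (j + 1)` only the chord `j` of the second vine is in `DD r`.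

PROOF. Let `A` be in `DD r` with `A.1 ≤ q < A.2`. If `A = (x l, y l)`: `l ≤ i` is impossible since `y l ≤ y i ≤ q`; if `i < l` then `x l ≤ q < x' (j + 1)`
(if `j + 1 ≤ m'`), so `A` is removed. If `A = (x' l, y' l)`: `j < l` is impossible since `q < x' (j + 1) ≤ x' l`; if `l < j` then
`y (i - 1) < y i ≤ q < y' l`, so `A` is removed. -/
theorem dd_right {s t m m' : ℕ} {x y x' y' : ℕ → ℕ} (hV : Vine s t m x y) (hW : Vine s t m' x' y')
    {r i j q : ℕ} (h : Sw m y m' x' i j) (hr : rk m y m' x' i % 5 = r)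
    (h1 : y i ≤ q) (h2 : j + 1 ≤ m' → q < x' (j + 1)) {A : ℕ × ℕ} (hA : DD m x y m' x' y' r A) (hq : Cov A q) :
    A = (x' j, y' j) := by
  obtain ⟨hor, hno⟩ := hA
  obtain ⟨hi, hj, hs1, hs2, hs3⟩ := h
  obtain ⟨hq1, hq2⟩ := hq
  rcases hor with ⟨l, hl, rfl⟩ | ⟨l, hl, rfl⟩
  · exfalso
    dsimp only at hq1 hq2
    rcases Nat.lt_or_ge i l with h3 | h3
    · refine hno i j ⟨hi, hj, hs1, hs2, hs3⟩ hr (Or.inr ⟨l, h3, hl, rfl, ?_⟩)
      intro hj'
      have h4 := h2 hj'
      omega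
    · have h4 := hV.yle h3 hi
      omega
  · dsimp only at hq1 hq2
    rcases Nat.lt_trichotomy l j with h3 | h3 | h3
    · exfalso
      refine hno i j ⟨hi, hj, hs1, hs2, hs3⟩ hr (Or.inl ⟨l, h3, hl, rfl, ?_⟩)
      intro h4
      have h5 := hV.ymono (show i - 1 < i by omega) hi
      omega
    · rw [h3]
    · exfalso
      have h4 := hW.xle (show j + 1 ≤ l by omega) hl
      have h5 := h2 (by omega)
      omega

end LC.Lin
end

section

/-! MP_6bc8af_co, linear bound, TASK A9: the cycles of the first two kinds. -/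

namespace LC.Lin

/-- The cycle of a vine: it contains all edges of the gaps.

PROOF. `spiral` with `Q = []`. -/
theorem vine_cycle {E : Set (ℕ × ℕ)} {s t m B : ℕ} {x y : ℕ → ℕ} (hV : Vine s t m x y)
    (hE : ∀ j ≤ m, (x j, y j) ∈ E) (hB : ∀ j ≤ m, y j ≤ B) :
    ∃ S : Set ℕ, Cy E S ∧ (∀ w ∈ S, w ≤ B) ∧ ∀ j q, InGap m x y j q → s ≤ q → q ∈ S := by
  obtain ⟨S, h1, h2, h3, _⟩ := spiral hV hE hB [] List.Pairwise.nil (fun A hA => absurd hA (List.not_mem_nil))
  exact ⟨S, h1, h2, fun j q hj hs => h3 j q hj hs (fun A hA => absurd hA (List.not_mem_nil))⟩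

/-- The cycle of a class of switches.

PROOF. Let `D` be the finset of the chords `A` of the two vines (images of `Finset.range (m + 1)`, `Finset.range (m' + 1)`) with `DD r A`. It strictly
covers `(s, t)` by `dd_cover` and its chords have `A.1 + 2 ≤ A.2` (`Vine.len`), so by `exists_vine` there is a vine `(M, X, Y)` in it; take its cycle
`vine_cycle`. Let `q` be as in the statement. By `dd_left`, `dd_right` all chords of `DD r` covering `q` are equal. `vine_cases` for the new vine: if `q` is in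
the rung `l` then the chords `l`, `l + 1` of the new vine cover `q` (`X l < X (l + 1) ≤ q`, `q < Y l < Y (l + 1)`), so they are equal, but `X l < X (l + 1)`,
contradiction. So `q` is in a gap. -/
theorem switch_cycle {E : Set (ℕ × ℕ)} {s t m m' B : ℕ} {x y x' y' : ℕ → ℕ} (hst : s + 2 ≤ t) (hV : Vine s t m x y)
    (hW : Vine s t m' x' y') (hA : Apart m x y m' x' y') (hE : ∀ j ≤ m, (x j, y j) ∈ E)
    (hE' : ∀ j ≤ m', (x' j, y' j) ∈ E) (hB : ∀ j ≤ m, y j ≤ B) (hB' : ∀ j ≤ m', y' j ≤ B) (r : ℕ) :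
    ∃ S : Set ℕ, Cy E S ∧ (∀ w ∈ S, w ≤ B) ∧ ∀ i j q, s ≤ q → q < t → Sw m y m' x' i j →
      rk m y m' x' i % 5 = r →
      (((1 ≤ i → y (i - 1) ≤ q) ∧ q < x' j) ∨ (y i ≤ q ∧ (j + 1 ≤ m' → q < x' (j + 1)))) → q ∈ S := by
  classical
  set D0 : Finset (ℕ × ℕ) := (Finset.range (m + 1)).image (fun l => (x l, y l)) ∪
    (Finset.range (m' + 1)).image (fun l => (x' l, y' l)) with hD0
  have hmem0 : ∀ A : ℕ × ℕ, A ∈ D0 ↔ ((∃ l ≤ m, A = (x l, y l)) ∨ ∃ l ≤ m', A = (x' l, y' l)) := by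
    intro A
    rw [hD0, Finset.mem_union, Finset.mem_image, Finset.mem_image]
    constructor
    · rintro (⟨l, hl, h⟩ | ⟨l, hl, h⟩)
      · exact Or.inl ⟨l, by have := Finset.mem_range.1 hl; omega, h.symm⟩
      · exact Or.inr ⟨l, by have := Finset.mem_range.1 hl; omega, h.symm⟩
    · rintro (⟨l, hl, h⟩ | ⟨l, hl, h⟩)
      · exact Or.inl ⟨l, Finset.mem_range.2 (by omega), h.symm⟩
      · exact Or.inr ⟨l, Finset.mem_range.2 (by omega), h.symm⟩
  set D : Finset (ℕ × ℕ) := D0.filter (fun A => DD m x y m' x' y' r A) with hD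
  have hmem : ∀ A : ℕ × ℕ, A ∈ D ↔ DD m x y m' x' y' r A := by
    intro A
    rw [hD, Finset.mem_filter]
    exact ⟨fun h => h.2, fun h => ⟨(hmem0 A).2 h.1, h⟩⟩
  have hlen : ∀ A ∈ D, A.1 + 2 ≤ A.2 := by
    intro A hA1
    rcases ((hmem A).1 hA1).1 with ⟨l, hl, h⟩ | ⟨l, hl, h⟩
    · rw [h]; exact hV.len l hl
    · rw [h]; exact hW.len l hl
  have hc : ∀ v, s < v → v < t → ∃ A ∈ D, A.1 < v ∧ v < A.2 := by
    intro v hs ht
    obtain ⟨A, h1, h2, h3⟩ := dd_cover hV hW hA r hs ht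
    exact ⟨A, (hmem A).2 h1, h2, h3⟩
  obtain ⟨M, X, Y, hX, hXD⟩ := exists_vine D s t hst hlen hc
  have hDD : ∀ l ≤ M, DD m x y m' x' y' r (X l, Y l) := fun l hl => (hmem _).1 (hXD l hl)
  have hEX : ∀ l ≤ M, (X l, Y l) ∈ E := by
    intro l hl
    rcases (hDD l hl).1 with ⟨k, hk, h⟩ | ⟨k, hk, h⟩
    · rw [h]; exact hE k hk
    · rw [h]; exact hE' k hk
  have hBX : ∀ l ≤ M, Y l ≤ B := by
    intro l hl
    rcases (hDD l hl).1 with ⟨k, hk, h⟩ | ⟨k, hk, h⟩
    · have h2 : Y l = y k := congrArg Prod.snd h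
      rw [h2]; exact hB k hk
    · have h2 : Y l = y' k := congrArg Prod.snd h
      rw [h2]; exact hB' k hk
  obtain ⟨S, hS1, hS2, hS3⟩ := vine_cycle hX hEX hBX
  refine ⟨S, hS1, hS2, ?_⟩
  intro i j q hs ht hsw hrk hq
  have huniq : ∃ A0 : ℕ × ℕ, ∀ A, DD m x y m' x' y' r A → Cov A q → A = A0 := by
    rcases hq with ⟨h1, h2⟩ | ⟨h1, h2⟩
    · exact ⟨(x i, y i), fun A hA1 hA2 => dd_left hV hW hsw hrk h1 h2 hA1 hA2⟩
    · exact ⟨(x' j, y' j), fun A hA1 hA2 => dd_right hV hW hsw hrk h1 h2 hA1 hA2⟩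
  obtain ⟨A0, hA0⟩ := huniq
  rcases vine_cases hX hs ht with ⟨l, hl⟩ | ⟨l, hl1, hl2, hl3⟩
  · exact hS3 l q hl hs
  · exfalso
    have e1 := hX.xs l (by omega)
    have e2 := hX.ys l (by omega)
    have c1 : Cov (X l, Y l) q := by
      show X l ≤ q ∧ q < Y l
      omega
    have c2 : Cov (X (l + 1), Y (l + 1)) q := by
      show X (l + 1) ≤ q ∧ q < Y (l + 1)
      omega
    have d1 := hA0 _ (hDD l (by omega)) c1
    have d2 := hA0 _ (hDD (l + 1) hl1) c2
    have d3 : X l = X (l + 1) := congrArg Prod.fst (d1.trans d2.symm)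
    omega

end LC.Lin
end

section

/-! MP_6bc8af_co, linear bound, TASK A11: the cycles of the third kind. -/

namespace LC.Lin

/-- The cycle of a class of chords of the second vine.

PROOF. Let `Q` be the list of the chords `(x' l, y' l)`, `l ≤ m'`, `l % 3 = r`, with
`∀ i', i' + 1 ≤ m → x (i' + 1) < x' l → x' l < y i' → y i' < y' l`, in increasing order of `l`
(`((List.range (m' + 1)).filter ...).map ...`; `List.pairwise_lt_range`, `List.Pairwise.filter`, `List.pairwise_map`). It is sorted because `Vine.sep3`: two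
different indices congruent modulo `3` differ by at least `3`. Every chord is `Ok`: `Vine.len`, `Vine.sy` (`s < y' l`), `hA`. Apply `spiral`, last
part of its conclusion. -/
theorem rung_cycle {E : Set (ℕ × ℕ)} {s t m m' B : ℕ} {x y x' y' : ℕ → ℕ} (hst : s + 2 ≤ t) (hV : Vine s t m x y)
    (hW : Vine s t m' x' y') (hA : Apart m x y m' x' y') (hE : ∀ j ≤ m, (x j, y j) ∈ E)
    (hE' : ∀ j ≤ m', (x' j, y' j) ∈ E) (hB : ∀ j ≤ m, y j ≤ B) (hB' : ∀ j ≤ m', y' j ≤ B) (r : ℕ) :
    ∃ S : Set ℕ, Cy E S ∧ (∀ w ∈ S, w ≤ B) ∧ ∀ i l q, InRung m x y i q → NonDeg m x y i → l ≤ m' → l % 3 = r →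
      Cov (x' l, y' l) q → (∀ i', i' + 1 ≤ m → x (i' + 1) < x' l → x' l < y i' → y i' < y' l) → q ∈ S := by
  classical
  have hst' : s < t := by omega
  let C : ℕ → Prop := fun l => l % 3 = r ∧ ∀ i', i' + 1 ≤ m → x (i' + 1) < x' l → x' l < y i' → y i' < y' l
  let L : List ℕ := (List.range (m' + 1)).filter (fun l => decide (C l))
  have hL : ∀ l, l ∈ L ↔ l ≤ m' ∧ C l := by
    intro l
    simp only [L, List.mem_filter, List.mem_range, decide_eq_true_eq]
    constructor
    · rintro ⟨h1, h2⟩; exact ⟨by omega, h2⟩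
    · rintro ⟨h1, h2⟩; exact ⟨by omega, h2⟩
  have hLs : L.Pairwise (fun a b => a < b) := (List.pairwise_lt_range (n := m' + 1)).filter _
  let Q : List (ℕ × ℕ) := L.map (fun l => (x' l, y' l))
  have hQ : Q.Pairwise (fun A A' => A.2 < A'.1) := by
    simp only [Q]
    rw [List.pairwise_map]
    refine List.Pairwise.imp_of_mem ?_ hLs
    intro a b ha hb hab
    obtain ⟨ha1, ha2, _⟩ := (hL a).1 ha
    obtain ⟨hb1, hb2, _⟩ := (hL b).1 hb
    exact hW.sep3 (show a + 3 ≤ b by omega) hb1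
  have hok : ∀ A ∈ Q, Ok E s m B x y A := by
    intro A hAQ
    simp only [Q, List.mem_map] at hAQ
    obtain ⟨l, hl, rfl⟩ := hAQ
    obtain ⟨hl1, _, hl3⟩ := (hL l).1 hl
    exact
      { mem := hE' l hl1
        len := hW.len l hl1
        bdd := hB' l hl1
        s := hW.sy hst' hl1
        x1 := fun j hj => (hA j hj l hl1).1.symm
        y1 := fun j hj => (hA j hj l hl1).2.2.1.symm
        x2 := fun j hj => (hA j hj l hl1).2.1.symm
        y2 := fun j hj => (hA j hj l hl1).2.2.2.symm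
        out := hl3 }
  obtain ⟨S, hcy, hbd, _, hr⟩ := spiral hV hE hB Q hQ hok
  refine ⟨S, hcy, hbd, ?_⟩
  intro i l q hi hnd hl hmod hcov hcond
  refine hr i q hi hnd ⟨(x' l, y' l), ?_, hcov⟩
  simp only [Q, List.mem_map]
  exact ⟨l, (hL l).2 ⟨hl, hmod, hcond⟩, rfl⟩

end LC.Lin
end
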