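import Pool.Agent.Lib.MP_6bc8af_co.Mg.G003
import Pool.Agent.Lib.MP_6bc8af_co.K02

section

/-! MP_6bc8af_co, linear bound: definitions. Paths and cycles are lists of vertices. -/

set_option autoImplicit false

open Classical

namespace LB

universe u

/-- `l` is (the list of the vertices of) a path of `G` from `x` to `y` with all vertices in `B` -/
def IsPth {V : Type u} (G : SimpleGraph V) (B : Set V) (x y : V) (l : List V) : Prop :=
  l.Nodup ∧ l.IsChain G.Adj ∧ l.head? = some x ∧ l.getLast? = some y ∧ ∀ v ∈ l, v ∈ B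

/-- `l` is (the list of the vertices of) a cycle of `G` with all vertices in `B` -/
def IsCyc {V : Type u} (G : SimpleGraph V) (B : Set V) (l : List V) : Prop :=
  l.Nodup ∧ l.IsChain G.Adj ∧ 3 ≤ l.length ∧
    (∀ x y, l.head? = some x → l.getLast? = some y → G.Adj y x) ∧ ∀ v ∈ l, v ∈ B

/-- the vertices outside of the cyclic sequence `c 0, ..., c (L - 1)` -/
def off {V : Type u} (L : ℕ) (c : ℕ → V) : Set V := {v | ∀ t < L, c t ≠ v}

/-- `c 0, ..., c (L - 1)` is a longest cycle of `G` -/
def Longest {V : Type u} (G : SimpleGraph V) (L : ℕ) (c : ℕ → V) : Prop :=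
  LC.CycSeq G L c ∧ ∀ (L' : ℕ) (c' : ℕ → V), LC.CycSeq G L' c' → L' ≤ L

/-- distance of two indices `i, j < L` on the cycle -/
def cd (L i j : ℕ) : ℕ := min (max i j - min i j) (L - (max i j - min i j))

/-- the indices of the neighbours on the cycle of the set `K` -/
noncomputable def att {V : Type u} (G : SimpleGraph V) (L : ℕ) (c : ℕ → V) (K : Set V) : Finset ℕ :=
  (Finset.range L).filter (fun i => ∃ x ∈ K, G.Adj (c i) x)

/-- any two different vertices of `B` are joined by a path in `B` with at least `h` vertices -/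
def Long {V : Type u} (G : SimpleGraph V) (h : ℕ) (B : Set V) : Prop :=
  ∀ x ∈ B, ∀ y ∈ B, x ≠ y → ∃ l, IsPth G B x y l ∧ h ≤ l.length

/-- any two vertices of `K` are joined by a path in `K` -/
def ConnSet {V : Type u} (G : SimpleGraph V) (K : Set V) : Prop :=
  ∀ x ∈ K, ∀ y ∈ K, ∃ l, IsPth G K x y l

/-- `K` is outside of the cycle, the finset `S` is disjoint from `K`, and all neighbours of `K` are in `K`, in `S` or on
the cycle -/
def Encl {V : Type u} (G : SimpleGraph V) (L : ℕ) (c : ℕ → V) (K : Set V) (S : Finset V) : Prop :=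
  K ⊆ off L c ∧ (∀ v ∈ K, v ∉ S) ∧ ∀ x ∈ K, ∀ y, G.Adj x y → y ∈ K ∨ y ∈ S ∨ ∃ i < L, c i = y

/-- the weights of the attachments of a bead: `z` is the weight of the bead -/
def IsWt {V : Type u} (G : SimpleGraph V) (L : ℕ) (c : ℕ → V) (k : ℕ) (K : Set V) (z : ℕ) (w : ℕ → ℕ) : Prop :=
  (∀ i, w i ≤ z) ∧ (∀ i, 0 < w i → i ∈ att G L c K) ∧ z * k ≤ 4 * ∑ i ∈ Finset.range L, w i ∧
    ∀ i j, i ≠ j → 0 < w i → 0 < w j → w i ≤ 2 * cd L i j

/-- a bead: `p 0, ..., p (a - 1)` is a path outside of the cycle, `u` the centre, `r` the radius, `K` the connected set, `z` the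
weight -/
def IsBead {V : Type u} (G : SimpleGraph V) (L : ℕ) (c : ℕ → V) (a : ℕ) (p : ℕ → V) (u r : ℕ) (K : Set V)
    (z : ℕ) : Prop :=
  1 ≤ z ∧ z ≤ r ∧ r ≤ 1200 * z ∧ ConnSet G K ∧ (∃ q < a, p q ∈ K) ∧
    (∀ q < a, p q ∈ K → q ≤ u + 25 * r ∧ u ≤ q + 25 * r) ∧
    ∃ S : Finset V, S.card ≤ 10 ∧ Encl G L c K S ∧
      (z = 1 ∨ ∃ (Z : List V) (V' : Finset V), IsCyc G (off L c) Z ∧ V'.card = z ∧ ∀ v ∈ V', v ∈ Z ∧ v ∈ K)

/-- the path `p 0, ..., p (a - 1)` outside of the cycle -/
def IsOffPath {V : Type u} (G : SimpleGraph V) (L : ℕ) (c : ℕ → V) (a : ℕ) (p : ℕ → V) : Prop :=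
  (∀ i < a, ∀ j < a, p i = p j → i = j) ∧ (∀ i, i + 1 < a → G.Adj (p i) (p (i + 1))) ∧
    ∀ i < a, p i ∈ off L c

end LB
end

section

/-! TASK LB T01a of MP_6bc8af_co: elementary operations with paths (lists). -/

set_option autoImplicit false

open Classical

namespace LB

universe u

/-- PROOF. Immediate. -/
theorem IsPth.mono {V : Type u} {G : SimpleGraph V} {A B : Set V} {x y : V} {l : List V} (h : IsPth G A x y l)
    (hAB : A ⊆ B) : IsPth G B x y l := by
  exact ⟨h.1, h.2.1, h.2.2.1, h.2.2.2.1, fun v hv => hAB (h.2.2.2.2 v hv)⟩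

/-- PROOF. Immediate: `[x]`. -/
theorem IsPth.single {V : Type u} (G : SimpleGraph V) {A : Set V} {x : V} (h : x ∈ A) : IsPth G A x x [x] := by
  refine ⟨List.nodup_singleton x, List.isChain_singleton x, rfl, rfl, fun v hv => ?_⟩
  rw [List.mem_singleton] at hv
  rw [hv]
  exact h

/-- PROOF. `l.reverse`; `List.nodup_reverse`, `List.isChain_reverse` (with symmetry of `G.Adj`), `List.head?_reverse`,
`List.getLast?_reverse`. -/
theorem IsPth.reverse {V : Type u} {G : SimpleGraph V} {A : Set V} {x y : V} {l : List V} (h : IsPth G A x y l) :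
    IsPth G A y x l.reverse := by
  obtain ⟨h1, h2, h3, h4, h5⟩ := h
  refine ⟨List.nodup_reverse.mpr h1, ?_, ?_, ?_, fun v hv => h5 v (List.mem_reverse.mp hv)⟩
  · rw [List.isChain_reverse]
    exact h2.imp fun a b hab => hab.symm
  · rw [List.head?_reverse, h4]
  · rw [List.getLast?_reverse, h3]

/-- `x`, `y` are on the path and `l ≠ []`. PROOF. `List.mem_of_mem_head?`, `List.mem_of_mem_getLast?` (or cases on `l`). -/
theorem IsPth.ends {V : Type u} {G : SimpleGraph V} {A : Set V} {x y : V} {l : List V} (h : IsPth G A x y l) :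
    x ∈ l ∧ y ∈ l ∧ 1 ≤ l.length := by
  obtain ⟨h1, h2, h3, h4, h5⟩ := h
  have hx : x ∈ l := List.mem_of_mem_head? h3
  exact ⟨hx, List.mem_of_getLast? h4, List.length_pos_of_mem hx⟩

/-- Concatenation by an edge. PROOF. `List.nodup_append`, `List.isChain_append`, `List.head?_append`, `List.getLast?_append`. -/
theorem IsPth.append {V : Type u} {G : SimpleGraph V} {A : Set V} {x y z w : V} {l l' : List V}
    (h : IsPth G A x y l) (h' : IsPth G A z w l') (hyz : G.Adj y z) (hd : ∀ v ∈ l, v ∉ l') :
    IsPth G A x w (l ++ l') := by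
  obtain ⟨h1, h2, h3, h4, h5⟩ := h
  obtain ⟨h1', h2', h3', h4', h5'⟩ := h'
  refine ⟨?_, ?_, ?_, ?_, ?_⟩
  · rw [List.nodup_append]
    exact ⟨h1, h1', fun a ha b hb hab => hd a ha (hab ▸ hb)⟩
  · rw [List.isChain_append]
    refine ⟨h2, h2', fun a ha b hb => ?_⟩
    rw [h4] at ha
    rw [h3'] at hb
    have ha' : y = a := Option.some.inj ha
    have hb' : z = b := Option.some.inj hb
    rw [← ha', ← hb']
    exact hyz
  · rw [List.head?_append, h3]
    rfl
  · rw [List.getLast?_append, h4']
    rfl
  · intro v hv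
    rcases List.mem_append.mp hv with h6 | h6
    · exact h5 v h6
    · exact h5' v h6

/-- A path from `x` to `y` with `x = y` is `[x]`; with `x ≠ y` the list without its first vertex is a path from a neighbour of `x`.
PROOF. Cases on `l`: `l = x :: t`. If `t = []` then `y = x`. Otherwise `t = z :: t'`, `G.Adj x z` by the chain condition, `x ∉ t`. -/
theorem IsPth.tail {V : Type u} {G : SimpleGraph V} {A : Set V} {x y : V} {l : List V} (h : IsPth G A x y l)
    (hxy : x ≠ y) : ∃ (z : V) (t : List V), l = x :: t ∧ IsPth G A z y t ∧ G.Adj x z ∧ x ∉ t := by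
  obtain ⟨h1, h2, h3, h4, h5⟩ := h
  match l, h1, h2, h3, h4, h5 with
  | [], _, _, h3, _, _ => exact absurd h3 (by simp)
  | [a], _, _, h3, h4, _ =>
    have ha : a = x := Option.some.inj h3
    have hb : a = y := Option.some.inj h4
    exact absurd (ha.symm.trans hb) hxy
  | a :: z :: t, h1, h2, h3, h4, h5 =>
    have ha : a = x := Option.some.inj h3
    subst ha
    rw [List.isChain_cons_cons] at h2
    rw [List.nodup_cons] at h1
    rw [List.getLast?_cons_cons] at h4
    exact ⟨z, z :: t, rfl, ⟨h1.2, h2.2, rfl, h4, fun v hv => h5 v (List.mem_cons_of_mem _ hv)⟩,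
      h2.1, h1.1⟩

/-- PROOF. Cases on `l`: `l = x :: t`, `t` empty; otherwise the last vertex of `t` is `y = x ∈ t`, against `Nodup`. -/
theorem IsPth.eq_single {V : Type u} {G : SimpleGraph V} {A : Set V} {x : V} {l : List V} (h : IsPth G A x x l) :
    l = [x] := by
  obtain ⟨h1, h2, h3, h4, h5⟩ := h
  match l, h1, h2, h3, h4, h5 with
  | [], _, _, h3, _, _ => exact absurd h3 (by simp)
  | [a], _, _, h3, _, _ =>
    have ha : a = x := Option.some.inj h3
    rw [ha]
  | a :: z :: t, h1, h2, h3, h4, h5 =>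
    have ha : a = x := Option.some.inj h3
    subst ha
    rw [List.nodup_cons] at h1
    rw [List.getLast?_cons_cons] at h4
    exact absurd (List.mem_of_getLast? h4) h1.1

end LB
end

section

/-! TASK LB T02a of MP_6bc8af_co: a list cycle as a cyclic sequence. -/

set_option autoImplicit false

open Classical

namespace LB

universe u

/-- A list cycle as a cyclic sequence. PROOF. `c i = l.getD i v` (`v` any vertex, e.g. the head; or `l[i]?.getD v`).
`three`: hypothesis. `inj`: `List.Nodup.getElem_inj_iff`. `adj`: for `i + 1 < l.length` it is the chain condition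
(`List.isChain_iff_getElem` or `List.isChain_iff_get`), for `i + 1 = l.length` the closing condition (`List.head?_eq_getElem?`,
`List.getLast?_eq_getElem?`). -/
theorem IsCyc.cycSeq {V : Type u} {G : SimpleGraph V} {B : Set V} {l : List V} (h : IsCyc G B l) :
    ∃ c : ℕ → V, LC.CycSeq G l.length c := by
  obtain ⟨hnd, hch, h3, hcl, -⟩ := h
  have h0 : 0 < l.length := by omega
  have hget : ∀ i (hi : i < l.length), l.getD i l[0] = l[i] := fun i hi =>
    List.getD_eq_getElem _ _ hi
  refine ⟨fun i => l.getD i l[0], h3, ?_, ?_⟩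
  · intro i hi j hj hij
    rw [hget i hi, hget j hj] at hij
    exact (List.Nodup.getElem_inj_iff hnd).mp hij
  · intro i hi
    unfold LC.nx
    rw [List.isChain_iff_getElem] at hch
    split_ifs with h1
    · have hl : l.getLast? = some l[i] := by
        rw [List.getLast?_eq_getElem?]
        have : l.length - 1 = i := by omega
        rw [this]
        exact List.getElem?_eq_getElem hi
      have hh : l.head? = some l[0] := by
        rw [List.head?_eq_getElem?]
        exact List.getElem?_eq_getElem h0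
      have h2 := hcl _ _ hh hl
      rw [hget i hi, hget 0 h0]
      exact h2
    · have h2 : i + 1 < l.length := by omega
      rw [hget i hi, hget (i + 1) h2]
      exact hch i h2

end LB
end

section

/-! TASK LB T04a of MP_6bc8af_co: monotonicity of connectivity, length of a longest cycle. -/

set_option autoImplicit false

open Classical

namespace LB

universe u

/-- PROOF. `h.1`, and `(h.2 S (by omega))`. -/
theorem IsKConn.mono {V : Type u} [Fintype V] {G : SimpleGraph V} {k t : ℕ} (h : LC.IsKConn G k) (ht : t ≤ k) :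
    LC.IsKConn G t :=
  ⟨lt_of_le_of_lt ht h.1, fun S hS => h.2 S (lt_of_lt_of_le hS ht)⟩

/-- The longest cycle is long. PROOF. `LC.degree_of_kconn`, `LC.cycle_of_degree` (file K02), `LC.cycseq_of_walk` (file K01) and
`hC.2`. -/
theorem k_lt {V : Type u} [Fintype V] {G : SimpleGraph V} {k L : ℕ} {c : ℕ → V} (hG : LC.IsKConn G k) (hk : 2 ≤ k)
    (hC : Longest G L c) : k + 1 ≤ L := by
  have hne : Nonempty V := ⟨c 0⟩
  obtain ⟨v, w, hw, hkw⟩ := LC.cycle_of_degree hk (LC.degree_of_kconn hG)
  exact hkw.trans (hC.2 _ _ (LC.cycseq_of_walk w hw).1)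

end LB
end

section

/-! TASK LB T04b of MP_6bc8af_co: number of attachments of an enclosed set. -/

set_option autoImplicit false

open Classical

namespace LB

universe u

private theorem T04b_mem_att {V : Type u} {G : SimpleGraph V} {L : ℕ} {c : ℕ → V} {K : Set V} {i : ℕ} :
    i ∈ att G L c K ↔ i < L ∧ ∃ x ∈ K, G.Adj (c i) x := by
  unfold att
  rw [Finset.mem_filter, Finset.mem_range]

/-- A walk of an induced graph from a vertex of `K` to a vertex outside of `K` has an edge leaving `K`. -/
private theorem T04b_leave {V : Type u} {G : SimpleGraph V} {T K : Set V} {a b : T} (w : (G.induce T).Walk a b)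
    (ha : a.1 ∈ K) (hb : b.1 ∉ K) : ∃ x y : V, x ∈ K ∧ y ∉ K ∧ y ∈ T ∧ G.Adj x y := by
  induction w with
  | nil => exact absurd ha hb
  | @cons p q r h _ ih =>
    by_cases hq : q.1 ∈ K
    · exact ih hq hb
    · exact ⟨p.1, q.1, ha, hq, q.2, h⟩

/-- A nonempty enclosed set has at least `k - |S|` attachments.
PROOF. Let `N = S ∪ (att G L c K).image c`; suppose `N.card < k` (`Finset.card_union_le`, `Finset.card_image_le`). Then
`G.induce {v | v ∉ N}` is connected. Take `x ∈ K`; `x ∉ N` (`K` is disjoint from `S` and from the cycle). There is a vertex `y ∉ N`,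
`y ∉ K`: some `c i`, `i < L`, is not in `N` and not in `K`: otherwise all `c i` (`i < L`) are in `N`; they are `L ≥ k` different vertices
(`hC.inj`, `Finset.card_image_of_injOn`) in `N`, which has fewer than `k` elements. In a walk of the induced graph from `x ∈ K` to `c i ∉ K` some
edge goes from `x' ∈ K` to `y' ∉ K` with `y' ∉ N` (induction on the walk: all its vertices are in `K`). By `hK`, `y' ∈ S ⊆ N` or
`y' = c j` with `j < L`, and then `j ∈ att G L c K`, so `y' ∈ N`: contradiction. -/
theorem nbr_count {V : Type u} [Fintype V] {G : SimpleGraph V} {k L : ℕ} {c : ℕ → V} (hG : LC.IsKConn G k)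
    (hC : LC.CycSeq G L c) (hkL : k ≤ L) {K : Set V} {S : Finset V} (hK : Encl G L c K S) (hne : K.Nonempty) :
    k ≤ S.card + (att G L c K).card := by
  by_contra hcon
  push Not at hcon
  have hN : (S ∪ (att G L c K).image c).card < k := by
    have h1 := Finset.card_union_le S ((att G L c K).image c)
    have h2 : ((att G L c K).image c).card ≤ (att G L c K).card := Finset.card_image_le
    omega
  have hconn := hG.2 _ hN
  obtain ⟨x, hx⟩ := hne
  have hxN : x ∉ S ∪ (att G L c K).image c := by
    intro h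
    rcases Finset.mem_union.1 h with h | h
    · exact hK.2.1 x hx h
    · obtain ⟨i, hi, hix⟩ := Finset.mem_image.1 h
      have hi' : i < L := (T04b_mem_att.1 hi).1
      exact hK.1 hx i hi' hix
  obtain ⟨i, hi, hiN⟩ : ∃ i, i < L ∧ c i ∉ S ∪ (att G L c K).image c := by
    by_contra hno
    push Not at hno
    have hsub : (Finset.range L).image c ⊆ S ∪ (att G L c K).image c := by
      intro v hv
      obtain ⟨i, hi, hiv⟩ := Finset.mem_image.1 hv
      rw [← hiv]
      exact hno i (Finset.mem_range.1 hi)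
    have h1 := Finset.card_le_card hsub
    rw [Finset.card_image_of_injOn, Finset.card_range] at h1
    · omega
    · intro a ha b hb hab
      exact hC.inj a (Finset.mem_range.1 (Finset.mem_coe.1 ha)) b (Finset.mem_range.1 (Finset.mem_coe.1 hb)) hab
  have hiK : c i ∉ K := fun h => hK.1 h i hi rfl
  obtain ⟨w⟩ := hconn.preconnected ⟨x, hxN⟩ ⟨c i, hiN⟩
  obtain ⟨x', y', hx', hy', hyT, hadj⟩ := T04b_leave (K := K) w hx hiK
  rcases hK.2.2 x' hx' y' hadj with h | h | ⟨j, hj, hjy⟩
  · exact hy' h
  · exact hyT (Finset.mem_union_left _ h)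
  · apply hyT
    apply Finset.mem_union_right
    apply Finset.mem_image.2
    refine ⟨j, ?_, hjy⟩
    rw [T04b_mem_att]
    refine ⟨hj, x', hx', ?_⟩
    rw [hjy]
    exact hadj.symm

end LB
end
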