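import Pool.Agent.Lib.MP_6bc8af_co.Mg.G003
import Pool.Agent.Lib.MP_6bc8af_co.Mg.G011

section

/-! MP_6bc8af_co, linear bound, TASK B01: a closed list is a cycle. -/

namespace LC.Lin

universe u

/-- PROOF. `z i = l.getD i u` (or `l[i]` if `i < l.length`). `nx`: for `i + 1 < l.length` adjacency from the chain condition
(`List.isChain_iff_getElem` or similar), for `i + 1 = l.length` the vertex `z i` is the last one and `z 0` is the first one. -/
theorem cycseq_of_list {V : Type u} {H : SimpleGraph V} (l : List V) (hn : l.Nodup) (hc : l.IsChain H.Adj)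
    (h3 : 3 ≤ l.length) {u v : V} (hu : l.head? = some u) (hv : l.getLast? = some v) (ha : H.Adj v u) :
    ∃ z : ℕ → V, CycSeq H l.length z ∧ ∀ w ∈ l, ∃ i < l.length, z i = w := by
  classical
  have hz : ∀ i (hi : i < l.length), l.getD i u = l[i] := fun i hi => by
    rw [List.getD_eq_getElem?_getD, List.getElem?_eq_getElem hi]
    rfl
  have hu0 : l[0]'(by omega) = u := by
    have h1 : l.head? = l[0]? := List.head?_eq_getElem?
    rw [h1, List.getElem?_eq_getElem (by omega : 0 < l.length)] at hu
    exact Option.some.inj hu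
  have hvl : l[l.length - 1]'(by omega) = v := by
    rw [List.getLast?_eq_getElem?, List.getElem?_eq_getElem (by omega : l.length - 1 < l.length)] at hv
    exact Option.some.inj hv
  refine ⟨fun i => l.getD i u, ⟨h3, ?_, ?_⟩, ?_⟩
  · intro i hi j hj hij
    simp only [hz i hi, hz j hj] at hij
    exact (List.Nodup.getElem_inj_iff hn).1 hij
  · intro i hi
    unfold nx
    by_cases h1 : i + 1 = l.length
    · rw [if_pos h1]
      show H.Adj (l.getD i u) (l.getD 0 u)
      rw [hz i hi, hz 0 (by omega), hu0]
      have h2 : l[i] = v := by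
        rw [← hvl]
        congr 1
        omega
      rw [h2]
      exact ha
    · rw [if_neg h1]
      show H.Adj (l.getD i u) (l.getD (i + 1) u)
      rw [hz i hi, hz (i + 1) (by omega)]
      exact List.isChain_iff_getElem.1 hc i (by omega)
  · intro w hw
    obtain ⟨i, hi, h⟩ := List.mem_iff_getElem.1 hw
    exact ⟨i, hi, by show l.getD i u = w; rw [hz i hi, h]⟩

end LC.Lin
end

section

/-! MP_6bc8af_co, linear bound, TASK B02: expansion of a cycle of positions to a cycle of the graph. -/

namespace LC.Lin

universe u

/-- the conditions on the lists of interior vertices of the chords -/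
structure IntOk {V : Type u} (H : SimpleGraph V) (a : ℕ) (p : ℕ → V) (E : Set (ℕ × ℕ)) (int : ℕ → ℕ → List V) :
    Prop where
  chain : ∀ u v, u < a → v < a → PAdj E u v → (p u :: (int u v ++ [p v])).IsChain H.Adj
  nodup : ∀ u v, u < a → v < a → PAdj E u v → (int u v).Nodup
  off : ∀ u v, u < a → v < a → PAdj E u v → ∀ z ∈ int u v, ∀ w < a, z ≠ p w
  disj : ∀ u v u' v', u < a → v < a → u' < a → v' < a → PAdj E u v → PAdj E u' v' →
    ∀ z, z ∈ int u v → z ∈ int u' v' → (u = u' ∧ v = v') ∨ (u = v' ∧ v = u')

/-- The expansion of a list of positions: every pair of consecutive positions `u`, `v` is replaced by `p u :: int u v`. -/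
def ex {V : Type u} (p : ℕ → V) (int : ℕ → ℕ → List V) : List ℕ → List V
  | [] => []
  | [u] => [p u]
  | u :: v :: l => p u :: (int u v ++ ex p int (v :: l))

/-- An element of the expansion is some `p w` or an interior vertex of a pair of consecutive positions.

PROOF. Induction on the list. -/
theorem mem_ex {V : Type u} {p : ℕ → V} {int : ℕ → ℕ → List V} (l : List ℕ) {z : V} (hz : z ∈ ex p int l) :
    (∃ w ∈ l, z = p w) ∨ ∃ (i : ℕ) (hi : i + 1 < l.length), z ∈ int (l[i]) (l[i + 1]) := by
  induction l with
  | nil => simp [ex] at hz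
  | cons u l ih =>
    cases l with
    | nil =>
      simp only [ex, List.mem_singleton] at hz
      exact Or.inl ⟨u, by simp, hz⟩
    | cons v l =>
      simp only [ex, List.mem_cons, List.mem_append] at hz
      rcases hz with hz | hz | hz
      · exact Or.inl ⟨u, by simp, hz⟩
      · exact Or.inr ⟨0, by simp, hz⟩
      · rcases ih hz with ⟨w, hw, e⟩ | ⟨i, hi, hz⟩
        · exact Or.inl ⟨w, List.mem_cons_of_mem _ hw, e⟩
        · refine Or.inr ⟨i + 1, ?_, ?_⟩
          · rw [List.length_cons]
            omega
          · exact hz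

/-- `p w` is in the expansion for `w ∈ l`. PROOF. Induction on the list. -/
theorem mem_ex_self {V : Type u} {p : ℕ → V} {int : ℕ → ℕ → List V} (l : List ℕ) {w : ℕ} (hw : w ∈ l) :
    p w ∈ ex p int l := by
  induction l with
  | nil => simp at hw
  | cons u l ih =>
    cases l with
    | nil =>
      rw [List.mem_singleton] at hw
      rw [hw]
      simp [ex]
    | cons v l =>
      simp only [ex, List.mem_cons, List.mem_append]
      rcases List.mem_cons.1 hw with h | h
      · exact Or.inl (by rw [h])
      · exact Or.inr (Or.inr (ih h))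

/-- Head and last element, length. PROOF. Induction on the list. -/
theorem ex_ends {V : Type u} {p : ℕ → V} {int : ℕ → ℕ → List V} (l : List ℕ) {u v : ℕ} (hu : l.head? = some u)
    (hv : l.getLast? = some v) :
    (ex p int l).head? = some (p u) ∧ (ex p int l).getLast? = some (p v) ∧ l.length ≤ (ex p int l).length := by
  induction l generalizing u with
  | nil => simp at hu
  | cons a l ih =>
    cases l with
    | nil =>
      simp only [List.head?_cons, Option.some.injEq] at hu
      simp only [List.getLast?_singleton, Option.some.injEq] at hv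
      subst hu
      subst hv
      simp [ex]
    | cons b l =>
      simp only [List.head?_cons, Option.some.injEq] at hu
      subst hu
      rw [List.getLast?_cons_cons] at hv
      obtain ⟨h1, h2, h3⟩ := ih (u := b) (by simp) hv
      refine ⟨by simp [ex], ?_, ?_⟩
      · simp only [ex]
        rw [← List.cons_append, List.getLast?_append, h2]
        rfl
      · simp only [ex, List.length_cons, List.length_append] at h3 ⊢
        omega

/-- The expansion is a path. PROOF. Induction on the list: for `u :: v :: l` the chain is `p u :: int u v` followed by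
`ex (v :: l)`, whose head is `p v` (`ex_ends`, `IntOk.chain`, `List.isChain_append`). Nodup: `p u` is not in `int u v` (`off`), not in `ex (v :: l)`
(`mem_ex`: it is not `p w` for `w ∈ v :: l` because `u ∉ v :: l` and `p` is injective, and not an interior vertex by `off`); `int u v` has no
duplicates and an element `z` of it is not in `ex (v :: l)`: `z ≠ p w` by `off`, and if `z` is in the interior list of consecutive positions
`u'`, `v'` of `v :: l`, then by `disj` `u = u'` or `u = v'`, but `u ∉ v :: l`. -/
theorem ex_path {V : Type u} {H : SimpleGraph V} {a : ℕ} {p : ℕ → V} {E : Set (ℕ × ℕ)} {int : ℕ → ℕ → List V}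
    (hp : PathSeq H a p) (h : IntOk H a p E int) (l : List ℕ) (hn : l.Nodup) (hc : l.IsChain (PAdj E))
    (ha : ∀ w ∈ l, w < a) : (ex p int l).Nodup ∧ (ex p int l).IsChain H.Adj := by
  induction l with
  | nil => exact ⟨by simp [ex], by simp [ex]⟩
  | cons u l ih =>
    cases l with
    | nil => exact ⟨by simp [ex], by simp [ex]⟩
    | cons v l =>
      have hua : u < a := ha u (by simp)
      have hva : v < a := ha v (by simp)
      have huv : PAdj E u v := (List.isChain_cons_cons.1 hc).1
      have hn1 : u ∉ v :: l := (List.nodup_cons.1 hn).1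
      have hn2 : (v :: l).Nodup := (List.nodup_cons.1 hn).2
      have hc2 : (v :: l).IsChain (PAdj E) := (List.isChain_cons_cons.1 hc).2
      obtain ⟨i1, i2⟩ := ih hn2 hc2 fun w hw => ha w (List.mem_cons_of_mem _ hw)
      have hadj : ∀ (i : ℕ) (hi : i + 1 < (v :: l).length),
          PAdj E ((v :: l)[i]) ((v :: l)[i + 1]) := fun i hi =>
        List.isChain_iff_getElem.1 hc2 i hi
      constructor
      · simp only [ex]
        rw [List.nodup_cons, List.mem_append, List.nodup_append]
        refine ⟨?_, h.nodup u v hua hva huv, i1, ?_⟩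
        · rintro (h1 | h1)
          · exact h.off u v hua hva huv _ h1 u hua rfl
          · rcases mem_ex _ h1 with ⟨w, hw, e⟩ | ⟨i, hi, hz⟩
            · have e1 := hp.inj u hua w (ha w (List.mem_cons_of_mem _ hw)) e
              rw [e1] at hn1
              exact hn1 hw
            · exact h.off _ _ (ha _ (List.mem_cons_of_mem _ (List.getElem_mem _)))
                (ha _ (List.mem_cons_of_mem _ (List.getElem_mem _))) (hadj i hi) _ hz u hua rfl
        · intro z hz z' hz' e
          subst e
          rcases mem_ex _ hz' with ⟨w, hw, e⟩ | ⟨i, hi, hz2⟩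
          · exact h.off u v hua hva huv _ hz w (ha w (List.mem_cons_of_mem _ hw)) e
          · rcases h.disj u v _ _ hua hva
              (ha _ (List.mem_cons_of_mem _ (List.getElem_mem (by omega))))
              (ha _ (List.mem_cons_of_mem _ (List.getElem_mem hi))) huv (hadj i hi) z hz hz2 with
              ⟨e1, -⟩ | ⟨e1, -⟩
            · exact hn1 (e1 ▸ List.getElem_mem _)
            · exact hn1 (e1 ▸ List.getElem_mem _)
      · simp only [ex]
        obtain ⟨t, ht⟩ : ∃ t, ex p int (v :: l) = p v :: t := by
          cases l with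
          | nil => exact ⟨[], by simp [ex]⟩
          | cons w l => exact ⟨int v w ++ ex p int (w :: l), by simp [ex]⟩
        rw [ht] at i2 ⊢
        rw [List.isChain_cons_split]
        exact ⟨h.chain u v hua hva huv, i2⟩

/-- **Expansion.**

PROOF. Let `l` be the list of positions of the cycle, from `u` to `v`, with `PAdj E v u`, of length `≥ 3` (there is a third position). Take the
list `ex p int l ++ int v u`, from `p u`; it is closed by an edge to `p u` (`IntOk.chain` for `v`, `u`; if `int v u = []` the last vertex is `p v` and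
`H.Adj (p v) (p u)`). It has no duplicates: `z ∈ int v u` is not `p w`; if `z` is an interior vertex of consecutive positions `l[i]`, `l[i + 1]` then by
`disj` `{l[i], l[i + 1]} = {v, u}` with `u` the first and `v` the last element of `l`; as `l` has no duplicates, `i = 0` and `i + 1` is the last index (or
`i + 1 = 0`, impossible), so the length is `2`, contradiction. Then `cycseq_of_list`. -/
theorem expand {V : Type u} {H : SimpleGraph V} {a : ℕ} {p : ℕ → V} {E : Set (ℕ × ℕ)} {int : ℕ → ℕ → List V}
    (hp : PathSeq H a p) (h : IntOk H a p E int) {S : Set ℕ} (hS : Cy E S) (ha : ∀ w ∈ S, w < a) :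
    ∃ (n : ℕ) (z : ℕ → V), CycSeq H n z ∧ ∀ w ∈ S, ∃ i < n, z i = p w := by
  obtain ⟨u, v, ⟨l, hn, hc, hu, hv, hS⟩, hvu, w0, hw0, hw0u, hw0v⟩ := hS
  have ha' : ∀ w ∈ l, w < a := fun w hw => ha w ((hS w).1 hw)
  have hul : u ∈ l := List.mem_of_mem_head? hu
  have hvl : v ∈ l := List.mem_of_mem_getLast? hv
  have hwl : w0 ∈ l := (hS w0).2 hw0
  have hua := ha' u hul
  have hva := ha' v hvl
  have hlen0 : 0 < l.length := List.length_pos_of_mem hul
  have hu0 : l[0] = u := by
    rw [List.head?_eq_getElem?, List.getElem?_eq_getElem hlen0] at hu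
    exact Option.some.inj hu
  have hvN : l[l.length - 1] = v := by
    rw [List.getLast?_eq_getElem?, List.getElem?_eq_getElem (by omega)] at hv
    exact Option.some.inj hv
  obtain ⟨k, hk, hk'⟩ := List.getElem_of_mem hwl
  have hk0 : k ≠ 0 := by
    rintro rfl
    exact hw0u (hk'.symm.trans hu0)
  have hkN : k ≠ l.length - 1 := by
    rintro rfl
    exact hw0v (hk'.symm.trans hvN)
  have h3 : 3 ≤ l.length := by omega
  obtain ⟨e1, e2⟩ := ex_path hp h l hn hc ha'
  obtain ⟨f1, f2, f3⟩ := ex_ends (p := p) (int := int) l hu hv
  have hadj : ∀ (i : ℕ) (hi : i + 1 < l.length), PAdj E (l[i]) (l[i + 1]) := fun i hi =>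
    List.isChain_iff_getElem.1 hc i hi
  have hch := h.chain v u hva hua hvu
  rw [← List.cons_append, List.isChain_append] at hch
  obtain ⟨g1, -, g3⟩ := hch
  have hlast : (ex p int l ++ int v u).getLast? = (p v :: int v u).getLast? := by
    rw [List.getLast?_append, f2, List.getLast?_cons]
    cases (int v u).getLast? <;> rfl
  obtain ⟨x, hx⟩ : ∃ x, (p v :: int v u).getLast? = some x :=
    ⟨_, List.getLast?_eq_getLast_of_ne_nil (List.cons_ne_nil _ _)⟩
  have key : ∃ z : ℕ → V, CycSeq H (ex p int l ++ int v u).length z ∧
      ∀ w ∈ ex p int l ++ int v u, ∃ i < (ex p int l ++ int v u).length, z i = w := by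
    refine cycseq_of_list (ex p int l ++ int v u) (H := H) (u := p u) (v := x) ?_ ?_ ?_ ?_ ?_ ?_
    · rw [List.nodup_append]
      refine ⟨e1, h.nodup v u hva hua hvu, ?_⟩
      intro y hy y' hy' e
      subst e
      rcases mem_ex _ hy with ⟨w, hw, e⟩ | ⟨i, hi, hy2⟩
      · exact h.off v u hva hua hvu _ hy' w (ha' w hw) e
      · rcases h.disj v u _ _ hva hua (ha' _ (List.getElem_mem (by omega)))
          (ha' _ (List.getElem_mem hi)) hvu (hadj i hi) y hy' hy2 with ⟨-, e4⟩ | ⟨e3, e4⟩
        · rw [← hu0] at e4
          have := (hn.getElem_inj_iff).1 e4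
          omega
        · rw [← hu0] at e4
          have h5 := (hn.getElem_inj_iff).1 e4
          rw [← hvN] at e3
          have h6 := (hn.getElem_inj_iff).1 e3
          omega
    · refine e2.append ?_ ?_
      · exact g1.tail
      · intro y hy y' hy'
        rw [f2] at hy
        simp only [Option.mem_def, Option.some.injEq] at hy
        subst hy
        exact g1.rel_head? hy'
    · rw [List.length_append]
      omega
    · rw [List.head?_append, f1]
      rfl
    · rw [hlast]
      exact hx
    · exact g3 x hx (p u) (by simp)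
  obtain ⟨z, hz, hz'⟩ := key
  exact ⟨_, z, hz, fun w hw => hz' _ (List.mem_append_left _ (mem_ex_self l ((hS w).2 hw)))⟩

end LC.Lin
end

section

/-! TASK LB T01b of MP_6bc8af_co: splitting and gluing of paths (lists). -/

set_option autoImplicit false

open Classical

namespace LB

universe u

/-- Splitting at a vertex. PROOF. `List.append_of_mem` : `l = l₁ ++ z :: l₂`; take `l₁ ++ [z]` and `z :: l₂`. -/
theorem IsPth.split {V : Type u} {G : SimpleGraph V} {A : Set V} {x y z : V} {l : List V} (h : IsPth G A x y l)
    (hz : z ∈ l) : ∃ l₁ l₂ : List V, l = l₁ ++ z :: l₂ ∧ IsPth G A x z (l₁ ++ [z]) ∧ IsPth G A z y (z :: l₂) := by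
  obtain ⟨h1, h2, h3, h4, h5⟩ := h
  obtain ⟨l₁, l₂, rfl⟩ := List.append_of_mem hz
  rw [List.nodup_append] at h1
  rw [List.isChain_append] at h2
  refine ⟨l₁, l₂, rfl, ⟨?_, ?_, ?_, ?_, ?_⟩, ⟨h1.2.1, h2.2.1, rfl, ?_, ?_⟩⟩
  · rw [List.nodup_append]
    refine ⟨h1.1, List.nodup_singleton z, fun a ha b hb => ?_⟩
    rw [List.mem_singleton] at hb
    rw [hb]
    exact h1.2.2 a ha z List.mem_cons_self
  · rw [List.isChain_append]
    refine ⟨h2.1, List.isChain_singleton z, fun a ha b hb => ?_⟩
    exact h2.2.2 a ha b hb
  · rw [List.head?_append] at h3 ⊢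
    exact h3
  · rw [List.getLast?_append]
    rfl
  · intro v hv
    apply h5 v
    rcases List.mem_append.mp hv with h6 | h6
    · exact List.mem_append_left _ h6
    · rw [List.mem_singleton] at h6
      rw [h6]
      exact hz
  · rw [List.getLast?_append_cons] at h4
    exact h4
  · intro v hv
    exact h5 v (List.mem_append_right _ hv)

/-- Restriction to the set of the vertices of the path. PROOF. Immediate. -/
theorem IsPth.self {V : Type u} {G : SimpleGraph V} {A : Set V} {x y : V} {l : List V} (h : IsPth G A x y l) :
    IsPth G {v | v ∈ l} x y l := by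
  exact ⟨h.1, h.2.1, h.2.2.1, h.2.2.2.1, fun v hv => hv⟩

/-- The part of a path up to the first vertex in `B`.
PROOF. Induction on `l` (generalizing `x`), `l = x :: t`. If `x ∈ B`, take `z = x`, `[x]`. Otherwise `x ≠ y`; by `IsPth.tail` (or
directly) `t` is a path from a neighbour `x'` of `x` to `y`; the induction hypothesis gives `z`, `l'` for `t`; take `x :: l'`
(`x ∉ t ⊇ l'`). -/
theorem IsPth.firstHit {V : Type u} {G : SimpleGraph V} {A B : Set V} {x y : V} {l : List V} (h : IsPth G A x y l)
    (hy : y ∈ B) : ∃ (z : V) (l' : List V), z ∈ B ∧ IsPth G A x z l' ∧ (∀ v ∈ l', v ∈ B → v = z) ∧ ∀ v ∈ l', v ∈ l := by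
  induction l generalizing x with
  | nil => exact absurd h.2.2.1 (by simp)
  | cons a t ih =>
    have ha : a = x := Option.some.inj h.2.2.1
    subst ha
    by_cases hB : a ∈ B
    · refine ⟨a, [a], hB, IsPth.single G (h.2.2.2.2 a List.mem_cons_self), ?_, ?_⟩
      · intro v hv _
        exact List.mem_singleton.mp hv
      · intro v hv
        rw [List.mem_singleton] at hv
        rw [hv]
        exact List.mem_cons_self
    · have hay : a ≠ y := fun he => hB (he ▸ hy)
      obtain ⟨x', t', hl, ht', hadj, hnot⟩ := h.tail hay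
      have htt : t = t' := (List.cons.inj hl).2
      subst htt
      obtain ⟨z, l', hz, hl', hfirst, hsub⟩ := ih ht'
      refine ⟨z, [a] ++ l', hz, (IsPth.single G (h.2.2.2.2 a List.mem_cons_self)).append hl' hadj
        ?_, ?_, ?_⟩
      · intro v hv hv'
        rw [List.mem_singleton] at hv
        exact hnot (hv ▸ hsub v hv')
      · intro v hv hvB
        rcases List.mem_append.mp hv with h6 | h6
        · rw [List.mem_singleton] at h6
          exact absurd (h6 ▸ hvB) hB
        · exact hfirst v h6 hvB
      · intro v hv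
        rcases List.mem_append.mp hv with h6 | h6
        · rw [List.mem_singleton] at h6
          rw [h6]
          exact List.mem_cons_self
        · exact List.mem_cons_of_mem _ (hsub v h6)

/-- Concatenation at a common vertex.
PROOF. If `y = w` take `l` (by `IsPth.eq_single`, `l' = [y]`). Otherwise `l' = y :: t` with `t` a path from a neighbour of `y` to `w`,
`y ∉ t` (`IsPth.tail`) and `l`, `t` are disjoint; `IsPth.append`, the length is `l.length + l'.length - 1`. -/
theorem IsPth.glue {V : Type u} {G : SimpleGraph V} {A : Set V} {x y w : V} {l l' : List V}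
    (h : IsPth G A x y l) (h' : IsPth G A y w l') (hd : ∀ v ∈ l, v ∈ l' → v = y) :
    ∃ m : List V, IsPth G A x w m ∧ m.length + 1 = l.length + l'.length ∧ ∀ v ∈ m, v ∈ l ∨ v ∈ l' := by
  by_cases hyw : y = w
  · subst hyw
    have h1 : l' = [y] := h'.eq_single
    refine ⟨l, h, ?_, fun v hv => Or.inl hv⟩
    rw [h1]
    rfl
  · obtain ⟨z, t, hl, ht, hadj, hnot⟩ := h'.tail hyw
    subst hl
    refine ⟨l ++ t, h.append ht hadj ?_, ?_, ?_⟩
    · intro v hv hvt
      have h1 := hd v hv (List.mem_cons_of_mem _ hvt)
      exact hnot (h1 ▸ hvt)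
    · rw [List.length_append, List.length_cons]
      omega
    · intro v hv
      rcases List.mem_append.mp hv with h6 | h6
      · exact Or.inl h6
      · exact Or.inr (List.mem_cons_of_mem _ h6)

end LB
end
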