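import Pool.Agent.Lib.MP_6bc8af_co.Mg.G006
import Pool.Agent.Lib.MP_6bc8af_co.Mg.G005
import Pool.Agent.Lib.MP_6bc8af_co.Mg.G008

section

/-! MP_6bc8af_co, linear bound, TASK A12: three vines give a cycle with many positions. -/

namespace LC.Lin

open Classical in
private theorem A12_pigeon {K : Type} [Fintype K] [Nonempty K] {s t N : ℕ} (F : K → Set ℕ)
    (hN : Fintype.card K = N) (hcov : ∀ q, s ≤ q → q < t → ∃ κ, q ∈ F κ)
    (hlt : ∀ κ, N * ((Finset.Ico s t).filter (fun q => q ∈ F κ)).card < t - s) : False := by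
  have h1 : Finset.Ico s t ⊆
      (Finset.univ : Finset K).biUnion (fun κ => (Finset.Ico s t).filter (fun q => q ∈ F κ)) := by
    intro q hq
    obtain ⟨κ, hκ⟩ := hcov q (Finset.mem_Ico.1 hq).1 (Finset.mem_Ico.1 hq).2
    exact Finset.mem_biUnion.2 ⟨κ, Finset.mem_univ _, Finset.mem_filter.2 ⟨hq, hκ⟩⟩
  have h4 := (Finset.card_le_card h1).trans Finset.card_biUnion_le
  rw [Nat.card_Ico] at h4
  have h5 := Finset.sum_lt_sum_of_nonempty (s := (Finset.univ : Finset K)) Finset.univ_nonempty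
    (fun κ _ => hlt κ)
  rw [← Finset.mul_sum, Finset.sum_const, Finset.card_univ, hN, smul_eq_mul] at h5
  have h6 := Nat.mul_le_mul_left N h4
  omega

open Classical in
/-- **The abstract lemma.** Three vines over `[s, t]` with pairwise different endpoints: there is a cycle containing at least `(t - s) / 75` of the
positions `s ≤ q < t`.

PROOF. Index set `K = Fin 3 ⊕ (Fin 3 × Fin 3 × Fin 5) ⊕ (Fin 3 × Fin 3 × Fin 3)`, with `75` elements. For each index there is a cycle: `vine_cycle` for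
`a`; for `(a, b, r)` with `a ≠ b`: `switch_cycle` resp. `rung_cycle` (for `a = b` take any cycle, e.g. `vine_cycle`, nothing is required). So there is
`F : K → Set ℕ` with `Cy E (F κ)`, bounded by `B`, such that by `trichotomy` every `q` with `s ≤ q < t` is in some `F κ` (in the case `Rg` take
`r = rk i % 5`, in the case `Rs` take `r = l % 3`). Then `t - s ≤ ∑ κ, #{q ∈ Ico s t : q ∈ F κ}` (`Finset.card_le_card` into the union, `Finset.card_biUnion_le`), so
some `κ` has `t - s ≤ 75 * #{...}` (otherwise the sum over the `75` indices is too small; `Finset.exists_le_of_sum_le` or by contradiction with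
`Finset.sum_lt_sum_of_nonempty`). -/
theorem three_vines {E : Set (ℕ × ℕ)} {s t B : ℕ} {m : Fin 3 → ℕ} {x y : Fin 3 → ℕ → ℕ} (hst : s + 2 ≤ t)
    (hV : ∀ a, Vine s t (m a) (x a) (y a))
    (hA : ∀ a b, a ≠ b → Apart (m a) (x a) (y a) (m b) (x b) (y b))
    (hE : ∀ a, ∀ j ≤ m a, (x a j, y a j) ∈ E) (hB : ∀ a, ∀ j ≤ m a, y a j ≤ B) :
    ∃ S : Set ℕ, Cy E S ∧ (∀ w ∈ S, w ≤ B) ∧ t - s ≤ 75 * ((Finset.Ico s t).filter (fun q => q ∈ S)).card := by
  have h1 : ∀ a : Fin 3, ∃ S : Set ℕ, Cy E S ∧ (∀ w ∈ S, w ≤ B) ∧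
      ∀ j q, InGap (m a) (x a) (y a) j q → s ≤ q → q ∈ S :=
    fun a => vine_cycle (hV a) (hE a) (hB a)
  have h2 : ∀ p : Fin 3 × Fin 3 × Fin 5, ∃ S : Set ℕ, Cy E S ∧ (∀ w ∈ S, w ≤ B) ∧
      (p.1 ≠ p.2.1 → ∀ i j q, s ≤ q → q < t → Sw (m p.1) (y p.1) (m p.2.1) (x p.2.1) i j →
        rk (m p.1) (y p.1) (m p.2.1) (x p.2.1) i % 5 = (p.2.2 : ℕ) →
        (((1 ≤ i → y p.1 (i - 1) ≤ q) ∧ q < x p.2.1 j) ∨
          (y p.1 i ≤ q ∧ (j + 1 ≤ m p.2.1 → q < x p.2.1 (j + 1)))) → q ∈ S) := by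
    intro p
    by_cases hp : p.1 = p.2.1
    · obtain ⟨S, h3, h4, -⟩ := h1 p.1
      exact ⟨S, h3, h4, fun h => absurd hp h⟩
    · obtain ⟨S, h3, h4, h5⟩ := switch_cycle hst (hV p.1) (hV p.2.1) (hA _ _ hp) (hE _) (hE _)
        (hB _) (hB _) (p.2.2 : ℕ)
      exact ⟨S, h3, h4, fun _ => h5⟩
  have h3 : ∀ p : Fin 3 × Fin 3 × Fin 3, ∃ S : Set ℕ, Cy E S ∧ (∀ w ∈ S, w ≤ B) ∧
      (p.1 ≠ p.2.1 → ∀ i l q, InRung (m p.1) (x p.1) (y p.1) i q → NonDeg (m p.1) (x p.1) (y p.1) i →
        l ≤ m p.2.1 → l % 3 = (p.2.2 : ℕ) → Cov (x p.2.1 l, y p.2.1 l) q →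
        (∀ i', i' + 1 ≤ m p.1 → x p.1 (i' + 1) < x p.2.1 l → x p.2.1 l < y p.1 i' →
          y p.1 i' < y p.2.1 l) → q ∈ S) := by
    intro p
    by_cases hp : p.1 = p.2.1
    · obtain ⟨S, h3, h4, -⟩ := h1 p.1
      exact ⟨S, h3, h4, fun h => absurd hp h⟩
    · obtain ⟨S, h3, h4, h5⟩ := rung_cycle hst (hV p.1) (hV p.2.1) (hA _ _ hp) (hE _) (hE _)
        (hB _) (hB _) (p.2.2 : ℕ)
      exact ⟨S, h3, h4, fun _ => h5⟩
  choose F1 hF1 hF1' hF1'' using h1
  choose F2 hF2 hF2' hF2'' using h2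
  choose F3 hF3 hF3' hF3'' using h3
  by_contra hcon
  have hcon' : ∀ S : Set ℕ, Cy E S → (∀ w ∈ S, w ≤ B) →
      75 * ((Finset.Ico s t).filter (fun q => q ∈ S)).card < t - s := by
    intro S h4 h5
    by_contra h6
    exact hcon ⟨S, h4, h5, not_lt.1 h6⟩
  refine A12_pigeon (s := s) (t := t) (N := 75)
    (Sum.elim F1 (Sum.elim F2 F3) : Fin 3 ⊕ (Fin 3 × Fin 3 × Fin 5) ⊕ (Fin 3 × Fin 3 × Fin 3) → Set ℕ)
    (by simp [Fintype.card_sum, Fintype.card_prod]) ?_ ?_
  · intro q hq1 hq2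
    rcases trichotomy hV hA hq1 hq2 with
      ⟨a, j, h⟩ | ⟨a, b, hab, i, j, h, h'⟩ | ⟨a, b, hab, i, l, h4, h5, h6, h7, h8⟩
    · exact ⟨Sum.inl a, hF1'' a j q h hq1⟩
    · exact ⟨Sum.inr (Sum.inl (a, b, ⟨rk (m a) (y a) (m b) (x b) i % 5, Nat.mod_lt _ (by norm_num)⟩)),
        hF2'' (a, b, ⟨rk (m a) (y a) (m b) (x b) i % 5, Nat.mod_lt _ (by norm_num)⟩) hab i j q
          hq1 hq2 h rfl h'⟩
    · exact ⟨Sum.inr (Sum.inr (a, b, ⟨l % 3, Nat.mod_lt _ (by norm_num)⟩)),
        hF3'' (a, b, ⟨l % 3, Nat.mod_lt _ (by norm_num)⟩) hab i l q h4 h5 h6 rfl h7 h8⟩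
  · intro κ
    rcases κ with a | p | p
    · exact hcon' (F1 a) (hF1 a) (hF1' a)
    · exact hcon' (F2 p) (hF2 p) (hF2' p)
    · exact hcon' (F3 p) (hF3 p) (hF3' p)

end LC.Lin
end

section

/-! MP_6bc8af_co, linear bound, TASK B03: the interior lists of the chords of disjoint rails. -/

namespace LC.Lin

universe u

/-- the list of the vertices strictly between two indices -/
private def B03_li {V : Type u} (h : ℕ → V) (i j : ℕ) : List V :=
  (List.range (j - i - 1)).map fun l => h (i + 1 + l)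

private theorem B03_mem {V : Type u} {h : ℕ → V} {i j : ℕ} {z : V} (hz : z ∈ B03_li h i j) :
    ∃ l, i < l ∧ l < j ∧ z = h l := by
  unfold B03_li at hz
  rw [List.mem_map] at hz
  obtain ⟨l, hl, rfl⟩ := hz
  rw [List.mem_range] at hl
  exact ⟨i + 1 + l, by omega, by omega, rfl⟩

private theorem B03_nodup {V : Type u} {h : ℕ → V} {i j : ℕ}
    (hinj : ∀ l l', i < l → l < j → i < l' → l' < j → h l = h l' → l = l') :
    (B03_li h i j).Nodup := by
  unfold B03_li
  refine List.Nodup.map_on ?_ List.nodup_range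
  intro l hl l' hl' heq
  rw [List.mem_range] at hl hl'
  have := hinj (i + 1 + l) (i + 1 + l') (by omega) (by omega) (by omega) (by omega) heq
  omega

private theorem B03_chain0 {V : Type u} {R : V → V → Prop} (n : ℕ) (f : ℕ → V)
    (hf : ∀ l, l + 1 < n → R (f l) (f (l + 1))) : ((List.range n).map f).IsChain R := by
  rw [List.isChain_iff_getElem]
  intro l hl
  rw [List.length_map, List.length_range] at hl
  simp only [List.getElem_map, List.getElem_range]
  exact hf l hl

private theorem B03_chain {V : Type u} {R : V → V → Prop} {h : ℕ → V} {i j : ℕ} (hij : i < j)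
    (hR : ∀ l, i ≤ l → l < j → R (h l) (h (l + 1))) :
    (h i :: (B03_li h i j ++ [h j])).IsChain R := by
  have h1 : h i :: (B03_li h i j ++ [h j]) = (List.range (j - i + 1)).map fun l => h (i + l) := by
    obtain ⟨d, rfl⟩ : ∃ d, j = i + 1 + d := ⟨j - i - 1, by omega⟩
    unfold B03_li
    rw [show i + 1 + d - i - 1 = d by omega, show i + 1 + d - i + 1 = (d + 1) + 1 by omega,
      List.range_succ_eq_map, List.map_cons, List.map_map, List.range_succ, List.map_append,
      List.map_cons, List.map_nil]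
    have e1 : ∀ l, ((fun l => h (i + l)) ∘ Nat.succ) l = h (i + 1 + l) := by
      intro l
      show h (i + (l + 1)) = h (i + 1 + l)
      congr 1
      omega
    rw [funext e1]
    rfl
  rw [h1]
  refine B03_chain0 _ _ fun l hl => ?_
  exact hR (i + l) (by omega) (by omega)

/-- The interior lists for the chords of disjoint rails.

PROOF. For `u`, `v` define `int u v` as follows. If there are `k`, `i`, `j` with `i < j ≤ len k`, no `g k l` (`i < l < j`) on the path `p`, and
`g k i = p u`, `g k j = p v`: the list `g k (i + 1), ..., g k (j - 1)`. Otherwise, if there are such `k`, `i`, `j` with `g k i = p v`, `g k j = p u`: the reverse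
list `g k (j - 1), ..., g k (i + 1)`. Otherwise (or if `v = u + 1` or `u = v + 1`): the empty list. (Classical choice; `k`, `i`, `j` are unique by
`hinj` because `g k i`, `g k j` are given.) It may be convenient to write the list as `(List.range (j - i - 1)).map (fun l => g k (i + 1 + l))`.
* chain: for `v = u + 1`: `hp.adj`; `u = v + 1`: `hp.adj` and symmetry; a chord: `hadj`.
* nodup: `hinj`. off: by definition of `Chd`.
* disj: a common vertex is `g k l = g k' l'`, so `k = k'`, `l = l'` with `i < l < j`, `i' < l < j'`. As `g k i`, `g k j`, `g k i'`, `g k j'` are on `p` and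
the vertices strictly between `i` and `j` (`i'` and `j'`) are not, `i = i'` and `j = j'`. So `{p u, p v} = {p u', p v'}` and `hp.inj`. -/
theorem rail_int {V : Type u} {H : SimpleGraph V} {a : ℕ} {p : ℕ → V} (hp : PathSeq H a p) {ι : Type}
    (len : ι → ℕ) (g : ι → ℕ → V) (hadj : ∀ k, ∀ i < len k, H.Adj (g k i) (g k (i + 1)))
    (hinj : ∀ k k', ∀ i ≤ len k, ∀ j ≤ len k', g k i = g k' j → k = k' ∧ i = j) :
    ∃ int : ℕ → ℕ → List V, IntOk H a p {A | ∃ k, A ∈ Chd a p (len k) (g k)} int := by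
  classical
  have hex : ∀ u v : ℕ, ∃ L : List V, (v = u + 1 ∨ u = v + 1 → L = []) ∧
      (¬ (v = u + 1 ∨ u = v + 1) → PAdj {A | ∃ k, A ∈ Chd a p (len k) (g k)} u v →
        ∃ k i j, i < j ∧ j ≤ len k ∧
          ((g k i = p u ∧ g k j = p v ∧ L = B03_li (g k) i j) ∨
            (g k i = p v ∧ g k j = p u ∧ L = (B03_li (g k) i j).reverse)) ∧
          ∀ l, i < l → l < j → ∀ w < a, g k l ≠ p w) := by
    intro u v
    by_cases h1 : v = u + 1 ∨ u = v + 1
    · exact ⟨[], fun _ => rfl, fun h => absurd h1 h⟩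
    by_cases h2 : PAdj {A | ∃ k, A ∈ Chd a p (len k) (g k)} u v
    swap
    · exact ⟨[], fun _ => rfl, fun _ h => absurd h h2⟩
    have h3 : ∃ k i j, i < j ∧ j ≤ len k ∧
        ((g k i = p u ∧ g k j = p v) ∨ (g k i = p v ∧ g k j = p u)) ∧
        ∀ l, i < l → l < j → ∀ w < a, g k l ≠ p w := by
      rcases h2 with h2 | h2 | h2 | h2
      · exact absurd (Or.inl h2) h1
      · exact absurd (Or.inr h2) h1
      · obtain ⟨k, -, -, i, j, hij, hj, hg, hl⟩ := h2
        exact ⟨k, i, j, hij, hj, hg, hl⟩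
      · obtain ⟨k, -, -, i, j, hij, hj, hg, hl⟩ := h2
        exact ⟨k, i, j, hij, hj, hg.symm, hl⟩
    obtain ⟨k, i, j, hij, hj, hg | hg, hl⟩ := h3
    · exact ⟨B03_li (g k) i j, fun h => absurd h h1, fun _ _ =>
        ⟨k, i, j, hij, hj, Or.inl ⟨hg.1, hg.2, rfl⟩, hl⟩⟩
    · exact ⟨(B03_li (g k) i j).reverse, fun h => absurd h h1, fun _ _ =>
        ⟨k, i, j, hij, hj, Or.inr ⟨hg.1, hg.2, rfl⟩, hl⟩⟩
  choose int hint1 hint2 using hex
  have hmem : ∀ u v, PAdj {A | ∃ k, A ∈ Chd a p (len k) (g k)} u v → ∀ z ∈ int u v,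
      ∃ k i j l, i < l ∧ l < j ∧ j ≤ len k ∧ z = g k l ∧
        ((g k i = p u ∧ g k j = p v) ∨ (g k i = p v ∧ g k j = p u)) ∧
        ∀ l, i < l → l < j → ∀ w < a, g k l ≠ p w := by
    intro u v h z hz
    by_cases h1 : v = u + 1 ∨ u = v + 1
    · rw [hint1 u v h1] at hz
      simp at hz
    · obtain ⟨k, i, j, hij, hj, hg, hl⟩ := hint2 u v h1 h
      rcases hg with ⟨hg1, hg2, hL⟩ | ⟨hg1, hg2, hL⟩
      · rw [hL] at hz
        obtain ⟨l, h3, h4, h5⟩ := B03_mem hz
        exact ⟨k, i, j, l, h3, h4, hj, h5, Or.inl ⟨hg1, hg2⟩, hl⟩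
      · rw [hL, List.mem_reverse] at hz
        obtain ⟨l, h3, h4, h5⟩ := B03_mem hz
        exact ⟨k, i, j, l, h3, h4, hj, h5, Or.inr ⟨hg1, hg2⟩, hl⟩
  refine ⟨int, ?_, ?_, ?_, ?_⟩
  · intro u v hu hv h
    by_cases h1 : v = u + 1 ∨ u = v + 1
    · rw [hint1 u v h1, List.nil_append]
      have h2 : H.Adj (p u) (p v) := by
        rcases h1 with rfl | rfl
        · exact hp.adj u hv
        · exact (hp.adj v hu).symm
      simpa using h2
    · obtain ⟨k, i, j, hij, hj, hg, hl⟩ := hint2 u v h1 h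
      have hch := B03_chain (R := H.Adj) (h := g k) hij (fun l h3 h4 => hadj k l (by omega))
      rcases hg with ⟨hg1, hg2, hL⟩ | ⟨hg1, hg2, hL⟩
      · rw [hL, ← hg1, ← hg2]
        exact hch
      · rw [hL, ← hg1, ← hg2]
        have e1 : g k j :: ((B03_li (g k) i j).reverse ++ [g k i]) =
            (g k i :: (B03_li (g k) i j ++ [g k j])).reverse := by simp
        rw [e1, List.isChain_reverse]
        exact hch.imp fun _ _ hxy => hxy.symm
  · intro u v hu hv h
    by_cases h1 : v = u + 1 ∨ u = v + 1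
    · rw [hint1 u v h1]
      exact List.nodup_nil
    · obtain ⟨k, i, j, hij, hj, hg, hl⟩ := hint2 u v h1 h
      have hnd : (B03_li (g k) i j).Nodup := B03_nodup fun l l' a1 a2 a3 a4 he =>
        (hinj k k l (by omega) l' (by omega) he).2
      rcases hg with ⟨hg1, hg2, hL⟩ | ⟨hg1, hg2, hL⟩
      · rw [hL]
        exact hnd
      · rw [hL]
        exact List.nodup_reverse.2 hnd
  · intro u v hu hv h z hz w hw
    obtain ⟨k, i, j, l, h1, h2, h3, rfl, -, h5⟩ := hmem u v h z hz
    exact h5 l h1 h2 w hw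
  · intro u v u' v' hu hv hu' hv' h h' z hz hz'
    obtain ⟨k, i, j, l, a1, a2, a3, a4, a5, a6⟩ := hmem u v h z hz
    obtain ⟨k', i', j', l', b1, b2, b3, b4, b5, b6⟩ := hmem u' v' h' z hz'
    obtain ⟨rfl, rfl⟩ := hinj k k' l (by omega) l' (by omega) (a4.symm.trans b4)
    have hi : i = i' := by
      rcases Nat.lt_trichotomy i i' with h1 | h1 | h1
      · exfalso
        rcases b5 with ⟨c1, c2⟩ | ⟨c1, c2⟩
        · exact a6 i' h1 (by omega) u' hu' c1
        · exact a6 i' h1 (by omega) v' hv' c1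
      · exact h1
      · exfalso
        rcases a5 with ⟨c1, c2⟩ | ⟨c1, c2⟩
        · exact b6 i h1 (by omega) u hu c1
        · exact b6 i h1 (by omega) v hv c1
    have hj : j = j' := by
      rcases Nat.lt_trichotomy j j' with h1 | h1 | h1
      · exfalso
        rcases a5 with ⟨c1, c2⟩ | ⟨c1, c2⟩
        · exact b6 j (by omega) h1 v hv c2
        · exact b6 j (by omega) h1 u hu c2
      · exact h1
      · exfalso
        rcases b5 with ⟨c1, c2⟩ | ⟨c1, c2⟩
        · exact a6 j' (by omega) h1 v' hv' c2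
        · exact a6 j' (by omega) h1 u' hu' c2
    subst hi
    subst hj
    rcases a5 with ⟨c1, c2⟩ | ⟨c1, c2⟩
    · rcases b5 with ⟨d1, d2⟩ | ⟨d1, d2⟩
      · exact Or.inl ⟨hp.inj u hu u' hu' (c1.symm.trans d1), hp.inj v hv v' hv' (c2.symm.trans d2)⟩
      · exact Or.inr ⟨hp.inj u hu v' hv' (c1.symm.trans d1), hp.inj v hv u' hu' (c2.symm.trans d2)⟩
    · rcases b5 with ⟨d1, d2⟩ | ⟨d1, d2⟩
      · exact Or.inr ⟨hp.inj u hu v' hv' (c2.symm.trans d2), hp.inj v hv u' hu' (c1.symm.trans d1)⟩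
      · exact Or.inl ⟨hp.inj u hu u' hu' (c2.symm.trans d2), hp.inj v hv v' hv' (c1.symm.trans d1)⟩

end LC.Lin
end

section

/-! TASK LB T03a of MP_6bc8af_co: arcs of a cycle. -/

set_option autoImplicit false

open Classical

namespace LB

universe u

private theorem T03a_arc {V : Type u} {G : SimpleGraph V} {B : Set V} {l l₁ l₂ l₃ : List V} {x y : V}
    (hl : IsCyc G B l) (e : l = l₁ ++ x :: (l₂ ++ y :: l₃)) {h : ℕ} (hh : 2 * h ≤ l.length + 2) :
    ∃ m, IsPth G {v | v ∈ l} x y m ∧ h ≤ m.length := by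
  obtain ⟨hnd, hch, _, hclose, _⟩ := hl
  have hlen : l.length = l₁.length + l₂.length + l₃.length + 2 := by
    rw [e]
    simp only [List.length_append, List.length_cons]
    omega
  have e' : l = (l₁ ++ [x]) ++ (l₂ ++ (y :: l₃)) := by
    rw [e]
    simp
  have e'' : l = (l₁ ++ [x] ++ l₂) ++ (y :: l₃) := by
    rw [e]
    simp
  have e3 : l = l₁ ++ ((x :: (l₂ ++ [y])) ++ l₃) := by
    rw [e]
    simp
  rcases Nat.lt_or_ge (l₂.length + 2) h with h2 | h2
  · -- the second arc
    obtain ⟨a, ha⟩ : ∃ a, (l₁ ++ [x]).head? = some a := by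
      cases l₁ with
      | nil => exact ⟨x, rfl⟩
      | cons b t => exact ⟨b, rfl⟩
    obtain ⟨b, hb⟩ : ∃ b, (y :: l₃).getLast? = some b :=
      ⟨(y :: l₃).getLast (List.cons_ne_nil _ _), List.getLast?_eq_some_getLast _⟩
    have h3 : l.head? = some a := by
      rw [e', List.head?_append, ha]
      rfl
    have h4 : l.getLast? = some b := by
      rw [e'', List.getLast?_append, hb]
      rfl
    have hadj := hclose a b h3 h4
    have p1 : IsPth G {v | v ∈ l} a x (l₁ ++ [x]) := by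
      refine ⟨?_, ?_, ha, by simp, fun v hv => ?_⟩
      · rw [e'] at hnd
        exact (List.nodup_append.1 hnd).1
      · rw [e'] at hch
        exact hch.left_of_append
      · change v ∈ l
        rw [e']
        exact List.mem_append_left _ hv
    have p2 : IsPth G {v | v ∈ l} y b (y :: l₃) := by
      refine ⟨?_, ?_, rfl, hb, fun v hv => ?_⟩
      · rw [e''] at hnd
        exact (List.nodup_append.1 hnd).2.1
      · rw [e''] at hch
        exact hch.right_of_append
      · change v ∈ l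
        rw [e'']
        exact List.mem_append_right _ hv
    refine ⟨_, p1.reverse.append p2.reverse hadj.symm ?_, ?_⟩
    · intro v hv hv'
      rw [List.mem_reverse] at hv hv'
      rw [e''] at hnd
      exact (List.nodup_append.1 hnd).2.2 v (List.mem_append_left _ hv) v hv' rfl
    · simp only [List.length_append, List.length_reverse, List.length_cons, List.length_nil]
      omega
  · have hlast : (x :: (l₂ ++ [y])).getLast? = some y := by
      have h : x :: (l₂ ++ [y]) = (x :: l₂) ++ [y] := rfl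
      rw [h, List.getLast?_append]
      rfl
    refine ⟨x :: (l₂ ++ [y]), ⟨?_, ?_, rfl, hlast, fun v hv => ?_⟩, ?_⟩
    · rw [e3] at hnd
      exact (List.nodup_append.1 (List.nodup_append.1 hnd).2.1).1
    · rw [e3] at hch
      exact hch.right_of_append.left_of_append
    · change v ∈ l
      rw [e3]
      exact List.mem_append_right _ (List.mem_append_left _ hv)
    · simp only [List.length_append, List.length_cons, List.length_nil]
      omega

/-- Two vertices of a cycle are joined by an arc with at least half of the vertices.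
PROOF. Let `n = l.length`, `x = l[i]`, `y = l[j]` with, by symmetry (`IsPth.reverse`), `i < j`. The arc `l[i], ..., l[j]`
(`(l.drop i).take (j - i + 1)`, or split `l = l₁ ++ x :: l₂ ++ y :: l₃`) has `j - i + 1` vertices; the other arc, from `x` down to
`l[0]`, then `l[n - 1]` down to `y` (`(l₁ ++ [x]).reverse ++ (y :: l₃).reverse`, joined by the closing edge) has
`n - (j - i) + 1` vertices. The sum is `n + 2 ≥ 2 h`, so one of them has at least `h`. -/
theorem long_cycle {V : Type u} {G : SimpleGraph V} {B : Set V} {l : List V} (hl : IsCyc G B l) {h : ℕ}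
    (hh : 2 * h ≤ l.length + 2) : Long G h {v | v ∈ l} := by
  intro x hx y hy hxy
  obtain ⟨l₁, r, e⟩ := List.append_of_mem (show x ∈ l from hx)
  have hy' : y ∈ l₁ ++ x :: r := e ▸ (show y ∈ l from hy)
  rcases List.mem_append.1 hy' with h1 | h1
  · obtain ⟨a, b, e1⟩ := List.append_of_mem h1
    have e2 : l = a ++ y :: (b ++ x :: r) := by
      rw [e, e1]
      simp
    obtain ⟨m, hm, hm'⟩ := T03a_arc hl e2 hh
    exact ⟨m.reverse, hm.reverse, by rw [List.length_reverse]; exact hm'⟩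
  · rcases List.mem_cons.1 h1 with h2 | h2
    · exact absurd h2.symm hxy
    · obtain ⟨a, b, e1⟩ := List.append_of_mem h2
      exact T03a_arc hl (e.trans (by rw [e1])) hh

end LB
end
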