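import Pool.Agent.Lib.MP_6bc8af_co.Mg.G003

section

/-! MP_6bc8af_co, linear bound, TASK C02: the region between two separators. -/

namespace LC.Lin

universe u

/-- The region between two separators.

PROOF. Let `L1 = Lf (s - 4 r) (s - 2 r)`, `S1 = bd H (Xs p (s - 4 r)) L1` if `4 r ≤ s`, and `L1 = S1 = ∅` otherwise; `L2 = Lf (t + 2 r) (t + 4 r)`,
`S2 = bd H (Xs p (t + 2 r)) L2` if `t + 4 r < a`, and `L2 = univ`, `S2 = ∅` otherwise. `K₀ = L2 \ (L1 ∪ S1)`, `S` the finset of `S1 ∪ S2`, of at most `5 + 5`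
elements. (1) `v ∈ K₀` is not in `S1`, and not in `S2` since `v ∈ L2`. (2) Let `w` be adjacent to `v ∈ K₀`. If `w ∉ L2` then `w ∈ S2`. If `w ∈ L2`, `w ∉ K₀`, then
`w ∈ S1`, or `w ∈ L1`, but then `v ∉ L1` is in `S1`, contradiction. (3) `q ≤ t + 2 r`: `p q ∈ Xs p (t + 2 r)`, so `p q ∈ L2 ∪ S2`; `s ≤ q + 2 r`: `p q ∈ Yt p a (s - 2 r)` is not
in `L1`. (4) If `q + 4 r < s` then `p q ∈ Xs p (s - 4 r) ⊆ L1 ∪ S1`. If `t + 4 r < q` then `t + 4 r < a` and `p q ∈ Yt p a (t + 4 r)` is not in `L2`. (5) `t + 4 r < a`, so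
`K₀ ⊆ L2 ⊆ Lf s₀ t₀` by monotonicity. (6) `4 r ≤ s`, so `Lf s₀ t₀ ⊆ L1`. (7) If `S ≠ ∅` then `4 r ≤ s < a` or `t + 4 r < a`. -/
theorem region {V : Type u} [Fintype V] {H : SimpleGraph V} {a : ℕ} {p : ℕ → V} {Lf : ℕ → ℕ → Set V}
    (h1 : ∀ s t, Disjoint (Lf s t) (Yt p a t)) (h2 : ∀ s s' t t', s ≤ s' → t ≤ t' → Lf s t ⊆ Lf s' t')
    (h3 : ∀ s t, ¬ Linked H (Xs p s) (Yt p a t) 6 → (bd H (Xs p s) (Lf s t)).ncard ≤ 5)
    {s t r : ℕ} (hst : s ≤ t) (hta : t < a)
    (hl : 4 * r ≤ s → ¬ Linked H (Xs p (s - 4 * r)) (Yt p a (s - 2 * r)) 6)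
    (hr : t + 4 * r < a → ¬ Linked H (Xs p (t + 2 * r)) (Yt p a (t + 4 * r)) 6) :
    ∃ (K₀ : Set V) (S : Finset V), S.card ≤ 10 ∧ (∀ v ∈ K₀, v ∉ S) ∧
      (∀ v ∈ K₀, ∀ w, H.Adj v w → w ∈ K₀ ∨ w ∈ S) ∧
      (∀ q < a, s ≤ q + 2 * r → q ≤ t + 2 * r → p q ∈ K₀ ∨ p q ∈ S) ∧
      (∀ q < a, p q ∈ K₀ → s ≤ q + 4 * r ∧ q ≤ t + 4 * r) ∧
      (∀ s₀ t₀, t + 4 * r ≤ s₀ → t + 4 * r ≤ t₀ → t₀ < a → K₀ ⊆ Lf s₀ t₀) ∧
      (∀ s₀ t₀, s₀ + 4 * r ≤ s → t₀ + 4 * r ≤ s → Disjoint K₀ (Lf s₀ t₀)) ∧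
      (S = ∅ ∨ 4 * r < a) := by
  classical
  obtain ⟨L1, S1, a1, a2, a3, a4, a5, a6⟩ : ∃ L1 S1 : Set V, S1.ncard ≤ 5 ∧
      (∀ v w, v ∉ L1 → v ∉ S1 → H.Adj v w → w ∉ L1) ∧
      (∀ q < a, s ≤ q + 2 * r → p q ∉ L1) ∧
      (∀ q, q + 4 * r < s → p q ∈ L1 ∨ p q ∈ S1) ∧
      (∀ s₀ t₀, s₀ + 4 * r ≤ s → t₀ + 4 * r ≤ s → Lf s₀ t₀ ⊆ L1) ∧
      (S1 = ∅ ∨ 4 * r < a) := by
    by_cases h : 4 * r ≤ s
    · refine ⟨Lf (s - 4 * r) (s - 2 * r), bd H (Xs p (s - 4 * r)) (Lf (s - 4 * r) (s - 2 * r)),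
        h3 _ _ (hl h), ?_, ?_, ?_, ?_, Or.inr (by omega)⟩
      · intro v w hv hv' hvw hw
        exact hv' ⟨hv, Or.inr ⟨w, hw, hvw.symm⟩⟩
      · intro q hq hsq hmem
        exact Set.disjoint_left.1 (h1 _ _) hmem ⟨q, by omega, hq, rfl⟩
      · intro q hq
        by_cases hmem : p q ∈ Lf (s - 4 * r) (s - 2 * r)
        · exact Or.inl hmem
        · exact Or.inr ⟨hmem, Or.inl ⟨q, by omega, rfl⟩⟩
      · intro s₀ t₀ h5 h6
        exact h2 _ _ _ _ (by omega) (by omega)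
    · refine ⟨∅, ∅, ?_, ?_, ?_, ?_, ?_, Or.inl rfl⟩
      · simp
      · intro v w _ _ _ hw
        exact hw
      · intro q _ _ hmem
        exact hmem
      · intro q hq
        omega
      · intro s₀ t₀ h5 h6
        omega
  obtain ⟨L2, S2, b1, b2, b3, b4, b5, b6, b7⟩ : ∃ L2 S2 : Set V, S2.ncard ≤ 5 ∧
      (∀ v ∈ L2, v ∉ S2) ∧
      (∀ v ∈ L2, ∀ w, H.Adj v w → w ∈ L2 ∨ w ∈ S2) ∧
      (∀ q < a, q ≤ t + 2 * r → p q ∈ L2 ∨ p q ∈ S2) ∧
      (∀ q < a, t + 4 * r < q → p q ∉ L2) ∧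
      (∀ s₀ t₀, t + 4 * r ≤ s₀ → t + 4 * r ≤ t₀ → t₀ < a → L2 ⊆ Lf s₀ t₀) ∧
      (S2 = ∅ ∨ 4 * r < a) := by
    by_cases h : t + 4 * r < a
    · refine ⟨Lf (t + 2 * r) (t + 4 * r), bd H (Xs p (t + 2 * r)) (Lf (t + 2 * r) (t + 4 * r)),
        h3 _ _ (hr h), ?_, ?_, ?_, ?_, ?_, Or.inr (by omega)⟩
      · intro v hv hv'
        exact hv'.1 hv
      · intro v hv w hvw
        by_cases hw : w ∈ Lf (t + 2 * r) (t + 4 * r)
        · exact Or.inl hw
        · exact Or.inr ⟨hw, Or.inr ⟨v, hv, hvw⟩⟩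
      · intro q _ hq
        by_cases hmem : p q ∈ Lf (t + 2 * r) (t + 4 * r)
        · exact Or.inl hmem
        · exact Or.inr ⟨hmem, Or.inl ⟨q, by omega, rfl⟩⟩
      · intro q hq hq2 hmem
        exact Set.disjoint_left.1 (h1 _ _) hmem ⟨q, by omega, hq, rfl⟩
      · intro s₀ t₀ h5 h6 _
        exact h2 _ _ _ _ (by omega) h6
    · refine ⟨Set.univ, ∅, ?_, ?_, ?_, ?_, ?_, ?_, Or.inl rfl⟩
      · simp
      · intro v _ hv
        exact hv
      · intro v _ w _
        exact Or.inl (Set.mem_univ w)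
      · intro q _ _
        exact Or.inl (Set.mem_univ _)
      · intro q hq hq2
        omega
      · intro s₀ t₀ h5 h6 h7
        omega
  have hS : ∀ v, v ∈ (S1 ∪ S2).toFinset ↔ v ∈ S1 ∨ v ∈ S2 := by
    intro v
    rw [Set.mem_toFinset, Set.mem_union]
  refine ⟨L2 \ (L1 ∪ S1), (S1 ∪ S2).toFinset, ?_, ?_, ?_, ?_, ?_, ?_, ?_, ?_⟩
  · rw [← Set.ncard_eq_toFinset_card']
    have := Set.ncard_union_le S1 S2
    omega
  · intro v hv hvS
    rcases (hS v).1 hvS with h | h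
    · exact hv.2 (Or.inr h)
    · exact b2 v hv.1 h
  · intro v hv w hvw
    rcases b3 v hv.1 w hvw with h | h
    · by_cases hw : w ∈ S1
      · exact Or.inr ((hS w).2 (Or.inl hw))
      · left
        refine ⟨h, ?_⟩
        rintro (h' | h')
        · exact a2 v w (fun hh => hv.2 (Or.inl hh)) (fun hh => hv.2 (Or.inr hh)) hvw h'
        · exact hw h'
    · exact Or.inr ((hS w).2 (Or.inr h))
  · intro q hq hsq hqt
    rcases b4 q hq hqt with h | h
    · by_cases hw : p q ∈ S1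
      · exact Or.inr ((hS _).2 (Or.inl hw))
      · left
        refine ⟨h, ?_⟩
        rintro (h' | h')
        · exact a3 q hq hsq h'
        · exact hw h'
    · exact Or.inr ((hS _).2 (Or.inr h))
  · intro q hq hmem
    constructor
    · by_contra hcon
      exact hmem.2 (a4 q (by omega))
    · by_contra hcon
      exact b5 q hq (by omega) hmem.1
  · intro s₀ t₀ h5 h6 h7
    exact Set.sdiff_subset.trans (b6 s₀ t₀ h5 h6 h7)
  · intro s₀ t₀ h5 h6
    rw [Set.disjoint_left]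
    intro v hv hv'
    exact hv.2 (Or.inl (a5 s₀ t₀ h5 h6 hv'))
  · rcases a6 with h | h
    · rcases b7 with h' | h'
      · left
        rw [Set.toFinset_eq_empty, h, h', Set.union_empty]
      · exact Or.inr h'
    · exact Or.inr h

end LC.Lin
end

section

/-! MP_6bc8af_co, linear bound, TASK C03: components of a set. -/

namespace LC.Lin

universe u

/-- PROOF. Walk of length `0`. -/
theorem Comp.self {V : Type u} {H : SimpleGraph V} {R : Set V} {v : V} (hv : v ∈ R) : v ∈ Comp H R v :=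
  ⟨0, fun _ => v, rfl, rfl, fun i hi => absurd hi (Nat.not_lt_zero i), fun _ _ => hv⟩

theorem Comp.sub {V : Type u} {H : SimpleGraph V} {R : Set V} {v : V} : Comp H R v ⊆ R := by
  rintro w ⟨n, h, _, h1, _, h3⟩
  rw [← h1]
  exact h3 n le_rfl

/-- PROOF. Extend the walk. -/
theorem Comp.step {V : Type u} {H : SimpleGraph V} {R : Set V} {v w w' : V} (hw : w ∈ Comp H R v)
    (h : H.Adj w w') (hw' : w' ∈ R) : w' ∈ Comp H R v := by
  obtain ⟨n, g, h0, h1, h2, h3⟩ := hw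
  refine ⟨n + 1, fun i => if i ≤ n then g i else w', ?_, ?_, ?_, ?_⟩
  · simp [h0]
  · simp
  · intro i hi
    rcases Nat.lt_or_ge i n with h4 | h4
    · simp only [show i ≤ n by omega, show i + 1 ≤ n by omega, if_true]
      exact h2 i h4
    · have h5 : i = n := by omega
      subst h5
      simp only [le_refl, if_true, show ¬ (i + 1 ≤ i) by omega, if_false]
      rw [h1]; exact h
  · intro i hi
    by_cases h4 : i ≤ n
    · simp only [h4, if_true]
      exact h3 i h4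
    · simp only [h4, if_false]
      exact hw'

/-- PROOF. Concatenate the walks. -/
theorem Comp.trans {V : Type u} {H : SimpleGraph V} {R : Set V} {v w w' : V} (hw : w ∈ Comp H R v)
    (hw' : w' ∈ Comp H R w) : w' ∈ Comp H R v := by
  obtain ⟨n, g, h0, h1, h2, h3⟩ := hw'
  have key : ∀ i ≤ n, g i ∈ Comp H R v := by
    intro i
    induction i with
    | zero => intro _; rw [h0]; exact hw
    | succ i ih =>
      intro hi
      exact Comp.step (ih (by omega)) (h2 i (by omega)) (h3 (i + 1) hi)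
  rw [← h1]
  exact key n le_rfl

/-- PROOF. Reverse the walk. -/
theorem Comp.symm {V : Type u} {H : SimpleGraph V} {R : Set V} {v w : V} (hw : w ∈ Comp H R v) :
    v ∈ Comp H R w := by
  obtain ⟨n, g, h0, h1, h2, h3⟩ := hw
  refine ⟨n, fun i => g (n - i), ?_, ?_, ?_, ?_⟩
  · simpa using h1
  · simpa using h0
  · intro i hi
    have h4 := h2 (n - (i + 1)) (by omega)
    have h5 : n - (i + 1) + 1 = n - i := by omega
    rw [h5] at h4
    exact h4.symm
  · intro i _
    exact h3 (n - i) (by omega)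

/-- PROOF. `Comp.trans`, `Comp.symm`. -/
theorem Comp.eq {V : Type u} {H : SimpleGraph V} {R : Set V} {v w : V} (hw : w ∈ Comp H R v) :
    Comp H R w = Comp H R v := by
  ext x
  exact ⟨fun hx => Comp.trans hw hx, fun hx => Comp.trans (Comp.symm hw) hx⟩

/-- The component is connected in itself. PROOF. By `Comp.eq` let `w = v`: a walk from `v` in `R` stays in `Comp H R v` (each of its vertices is
reached by an initial part of the walk); the inclusion `⊆` is `Comp.sub`. -/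
theorem Comp.idem {V : Type u} {H : SimpleGraph V} {R : Set V} {v w : V} (hw : w ∈ Comp H R v) :
    Comp H (Comp H R v) w = Comp H R v := by
  rw [← Comp.eq hw]
  apply Set.Subset.antisymm Comp.sub
  rintro x ⟨n, g, h0, h1, h2, h3⟩
  exact ⟨n, g, h0, h1, h2, fun i hi =>
    ⟨i, g, h0, rfl, fun j hj => h2 j (by omega), fun j hj => h3 j (by omega)⟩⟩

/-- PROOF. The walk stays in the larger set. -/
theorem Comp.mono {V : Type u} {H : SimpleGraph V} {R R' : Set V} (h : R ⊆ R') {v : V} :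
    Comp H R v ⊆ Comp H R' v := by
  rintro x ⟨n, g, h0, h1, h2, h3⟩
  exact ⟨n, g, h0, h1, h2, fun i hi => h (h3 i hi)⟩

/-- Neighbours of a component. PROOF. `Comp.step`. -/
theorem Comp.nb {V : Type u} {H : SimpleGraph V} {K₀ S : Set V} (nb : ∀ v ∈ K₀, ∀ w, H.Adj v w → w ∈ K₀ ∨ w ∈ S)
    {v : V} : ∀ w ∈ Comp H K₀ v, ∀ w', H.Adj w w' → w' ∈ Comp H K₀ v ∨ w' ∈ S := by
  intro w hw w' h
  rcases nb w (Comp.sub hw) w' h with h1 | h1
  · exact Or.inl (Comp.step hw h h1)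
  · exact Or.inr h1

open Classical in
/-- At least one eleventh of the vertices of a path in `K₀` are in one component of `K₀`, if `K₀` has at most `10` boundary vertices.

PROOF. Every `v ∈ T` has an index `i v < n`, `z (i v) = v`. Let `b v` be the number of indices `j < i v` with `z j ∈ S`; as `z` is injective on `[0, n)` it is at
most `S.card ≤ 10`. So some value `β ≤ 10` is taken by at least `T.card / 11` elements of `T` (`Finset.exists_le_card_fiber_of_mul_le_card_of_maps_to` or a sum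
over the fibers; `T` is nonempty, take a fiber of maximal size, it is nonempty). Let `v` be in this fiber. If `v'` is in the fiber and `i v < i v'` then no `j` with
`i v ≤ j < i v'` has `z j ∈ S`; and `z (i v') ∉ S` as `v' ∈ K₀`. By induction on `j`, `z j ∈ Comp H K₀ v` for `i v ≤ j ≤ i v'`: `z (j + 1)` is adjacent to `z j ∈ K₀` and not in `S`, so it
is in `K₀` (`nb`), `Comp.step`. If `i v' < i v` exchange `v`, `v'` and use `Comp.symm`. So the whole fiber is in `Comp H K₀ v`. -/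
theorem comp_pigeon {V : Type u} {H : SimpleGraph V} {n : ℕ} {z : ℕ → V}
    (hz : ∀ i, i + 1 < n → H.Adj (z i) (z (i + 1))) (inj : ∀ i < n, ∀ j < n, z i = z j → i = j) {K₀ : Set V}
    {S : Finset V} (hS : S.card ≤ 10) (dis : ∀ v ∈ K₀, v ∉ S) (nb : ∀ v ∈ K₀, ∀ w, H.Adj v w → w ∈ K₀ ∨ w ∈ S)
    (T : Finset V) (hT : ∀ v ∈ T, v ∈ K₀ ∧ ∃ i < n, z i = v) (hne : T.Nonempty) :
    ∃ v ∈ T, T.card ≤ 11 * (T.filter (fun w => w ∈ Comp H K₀ v)).card := by
  have hidx : ∀ v : V, ∃ i : ℕ, v ∈ T → i < n ∧ z i = v := by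
    intro v
    by_cases hv : v ∈ T
    · obtain ⟨i, h1, h2⟩ := (hT v hv).2
      exact ⟨i, fun _ => ⟨h1, h2⟩⟩
    · exact ⟨0, fun h => absurd h hv⟩
  choose idx hidx using hidx
  obtain ⟨b, hb⟩ : ∃ b : V → ℕ, b = fun v => ((Finset.range (idx v)).filter (fun j => z j ∈ S)).card :=
    ⟨_, rfl⟩
  have hb10 : ∀ v ∈ T, b v ∈ Finset.range 11 := by
    intro v hv
    rw [Finset.mem_range, hb]
    have h1 : ((Finset.range (idx v)).filter (fun j => z j ∈ S)).card ≤ S.card := by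
      refine Finset.card_le_card_of_injOn z (fun j hj => ?_) (fun i hi j hj hij => ?_)
      · exact (Finset.mem_filter.1 hj).2
      · have h2 := Finset.mem_range.1 (Finset.mem_filter.1 hi).1
        have h3 := Finset.mem_range.1 (Finset.mem_filter.1 hj).1
        have h4 := (hidx v hv).1
        exact inj i (by omega) j (by omega) hij
    simp only
    omega
  have hpig : ∃ β ∈ Finset.range 11, T.card ≤ 11 * (T.filter (fun v => b v = β)).card := by
    by_contra hcon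
    push Not at hcon
    have h1 := Finset.card_eq_sum_card_fiberwise (f := b) (s := T) (t := Finset.range 11)
      (fun v hv => hb10 v hv)
    have h2 : ∑ β ∈ Finset.range 11, 11 * (T.filter (fun v => b v = β)).card <
        ∑ _β ∈ Finset.range 11, T.card :=
      Finset.sum_lt_sum_of_nonempty ⟨0, by simp⟩ hcon
    rw [← Finset.mul_sum, ← h1, Finset.sum_const, Finset.card_range, smul_eq_mul] at h2
    exact absurd h2 (lt_irrefl _)
  obtain ⟨β, -, hβ⟩ := hpig
  have hTpos := hne.card_pos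
  have hfpos : 0 < (T.filter (fun v => b v = β)).card := by omega
  obtain ⟨v, hv⟩ := Finset.card_pos.1 hfpos
  obtain ⟨hvT, hvb⟩ := Finset.mem_filter.1 hv
  -- the walk
  have key : ∀ v ∈ T, ∀ v' ∈ T, idx v ≤ idx v' → b v = b v' → v' ∈ Comp H K₀ v := by
    intro v hv v' hv' hle hbb
    obtain ⟨hv1, hv2⟩ := hidx v hv
    obtain ⟨hv1', hv2'⟩ := hidx v' hv'
    have hno : ∀ j, idx v ≤ j → j < idx v' → z j ∉ S := by
      intro j hj1 hj2 hjS
      have h1 : (Finset.range (idx v)).filter (fun j => z j ∈ S) ⊂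
          (Finset.range (idx v')).filter (fun j => z j ∈ S) := by
        rw [Finset.ssubset_iff_of_subset]
        · refine ⟨j, Finset.mem_filter.2 ⟨Finset.mem_range.2 hj2, hjS⟩, fun h => ?_⟩
          have := Finset.mem_range.1 (Finset.mem_filter.1 h).1
          omega
        · intro x hx
          have h2 := Finset.mem_filter.1 hx
          have h3 := Finset.mem_range.1 h2.1
          exact Finset.mem_filter.2 ⟨Finset.mem_range.2 (by omega), h2.2⟩
      have h2 := Finset.card_lt_card h1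
      rw [hb] at hbb
      simp only at hbb
      omega
    have hwalk : ∀ i, idx v + i ≤ idx v' → z (idx v + i) ∈ Comp H K₀ v := by
      intro i
      induction i with
      | zero =>
        intro _
        rw [Nat.add_zero, hv2]
        exact Comp.self (hT v hv).1
      | succ i ih =>
        intro hi
        have h1 := ih (by omega)
        have h2 := hz (idx v + i) (by omega)
        have h3 : z (idx v + (i + 1)) ∈ K₀ := by
          rcases nb _ (Comp.sub h1) _ h2 with h4 | h4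
          · exact h4
          · exfalso
            rcases Nat.lt_or_ge (idx v + (i + 1)) (idx v') with h5 | h5
            · exact hno _ (by omega) h5 h4
            · have h6 : idx v + i + 1 = idx v' := by omega
              rw [h6, hv2'] at h4
              exact dis v' (hT v' hv').1 h4
        exact Comp.step h1 h2 h3
    have h1 := hwalk (idx v' - idx v) (by omega)
    rw [show idx v + (idx v' - idx v) = idx v' by omega, hv2'] at h1
    exact h1
  refine ⟨v, hvT, hβ.trans ?_⟩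
  apply Nat.mul_le_mul_left
  apply Finset.card_le_card
  intro w hw
  obtain ⟨hwT, hwb⟩ := Finset.mem_filter.1 hw
  refine Finset.mem_filter.2 ⟨hwT, ?_⟩
  rcases Nat.le_total (idx v) (idx w) with h | h
  · exact key v hvT w hwT h (by rw [hvb, hwb])
  · exact Comp.symm (key w hwT v hvT h (by rw [hvb, hwb]))

end LC.Lin
end

section

/-! MP_6bc8af_co, linear bound, TASK C04: the choice of the scale. -/

namespace LC.Lin

universe u

/-- The scale at the position `u`.

PROOF. Call `(s, t)` thick if `s < t < a` and `Linked H (Xs p s) (Yt p a t) 6`, near if `s ≤ u + 20 (t - s)` and `u ≤ t + 20 (t - s)`. Case 1: there is a thick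
and near `(s, t)` with `R ≤ t - s`: take one with `t - s` maximal (finitely many, `t < a`), `r = t - s`. The pair `(s - 4 r, s - 2 r)` has length `2 r > r`; it is near:
`s - 4 r ≤ u + 40 r` because `s ≤ u + 20 r`, and `u ≤ t + 20 r = s + 21 r ≤ (s - 2 r) + 40 r`; so it is not thick by maximality. The pair `(t + 2 r, t + 4 r)` has length
`2 r`; it is near: `t + 2 r = s + 3 r ≤ u + 23 r ≤ u + 40 r`, `u ≤ t + 20 r ≤ t + 4 r + 40 r`; so it is not thick. Case 2: otherwise take `s = t = u`, `r = R`: the pairs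
`(u - 4 r, u - 2 r)` (if `4 r ≤ u`) and `(u + 2 r, u + 4 r)` (if `u + 4 r < a`) have length `2 R ≥ R` and are near, so not thick. -/
theorem exists_scale {V : Type u} (H : SimpleGraph V) (a : ℕ) (p : ℕ → V) {u : ℕ} (hu : u < a) (R : ℕ)
    (hR : 1 ≤ R) :
    ∃ s t r, s ≤ t ∧ t < a ∧ R ≤ r ∧ s ≤ u + 20 * r ∧ u ≤ t + 20 * r ∧
      ((s = u ∧ t = u) ∨ (t = s + r ∧ Linked H (Xs p s) (Yt p a t) 6)) ∧
      ((s = u ∧ t = u) → r = R) ∧
      (4 * r ≤ s → ¬ Linked H (Xs p (s - 4 * r)) (Yt p a (s - 2 * r)) 6) ∧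
      (t + 4 * r < a → ¬ Linked H (Xs p (t + 2 * r)) (Yt p a (t + 4 * r)) 6) := by
  classical
  obtain ⟨Q, hQ⟩ : ∃ Q : ℕ → Prop, Q = fun r => ∃ s t, t = s + r ∧ t < a ∧ R ≤ r ∧
      s ≤ u + 20 * r ∧ u ≤ t + 20 * r ∧ Linked H (Xs p s) (Yt p a t) 6 := ⟨_, rfl⟩
  have hQmk : ∀ s t r, t = s + r → t < a → R ≤ r → s ≤ u + 20 * r → u ≤ t + 20 * r →
      Linked H (Xs p s) (Yt p a t) 6 → Q r := by
    intro s t r h1 h2 h3 h4 h5 h6
    rw [hQ]
    exact ⟨s, t, h1, h2, h3, h4, h5, h6⟩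
  by_cases hex : ∃ r, Q r
  · obtain ⟨r0, hr0⟩ := hex
    have hle : ∀ r, Q r → r ≤ a := by
      intro r hr
      rw [hQ] at hr
      obtain ⟨s, t, h1, h2, -⟩ := hr
      omega
    have hmax := Nat.findGreatest_spec (P := Q) (hle r0 hr0) hr0
    have hmax2 : ∀ r, Q r → r ≤ Nat.findGreatest Q a := fun r hr =>
      Nat.le_findGreatest (hle r hr) hr
    obtain ⟨r, hr⟩ : ∃ r, r = Nat.findGreatest Q a := ⟨_, rfl⟩
    rw [← hr] at hmax hmax2
    have hmax' := hmax
    rw [hQ] at hmax'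
    obtain ⟨s, t, h1, h2, h3, h4, h5, h6⟩ := hmax'
    refine ⟨s, t, r, by omega, h2, h3, h4, h5, Or.inr ⟨h1, h6⟩, ?_, ?_, ?_⟩
    · rintro ⟨h7, h8⟩
      omega
    · intro h7 h8
      have := hmax2 (2 * r) (hQmk (s - 4 * r) (s - 2 * r) (2 * r) (by omega) (by omega) (by omega)
        (by omega) (by omega) h8)
      omega
    · intro h7 h8
      have := hmax2 (2 * r) (hQmk (t + 2 * r) (t + 4 * r) (2 * r) (by omega) (by omega) (by omega)
        (by omega) (by omega) h8)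
      omega
  · refine ⟨u, u, R, le_rfl, hu, le_rfl, by omega, by omega, Or.inl ⟨rfl, rfl⟩, fun _ => rfl,
      ?_, ?_⟩
    · intro h7 h8
      exact hex ⟨2 * R, hQmk (u - 4 * R) (u - 2 * R) (2 * R) (by omega) (by omega) (by omega)
        (by omega) (by omega) h8⟩
    · intro h7 h8
      exact hex ⟨2 * R, hQmk (u + 2 * R) (u + 4 * R) (2 * R) (by omega) (by omega) (by omega)
        (by omega) (by omega) h8⟩

end LC.Lin
end
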