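import Pool.Agent.Lib.MP_6bc8af_co.Mg.G011
import Pool.Agent.Lib.MP_6bc8af_co.Mg.G003
import Pool.Agent.Lib.MP_6bc8af_co.Lin.C06

section

/-! TASK LB T07a of MP_6bc8af_co: weights from attachments which are pairwise far. -/

set_option autoImplicit false

open Classical

namespace LB

universe u

/-- PROOF. Let `w i = if i ∈ I then z else 0`. `w i ≤ z`; `0 < w i` gives `i ∈ I ⊆ att G L c K`; `∑ i ∈ range L, w i = z * I.card`
(`I ⊆ att ⊆ range L`; `Finset.sum_ite_mem` or `Finset.sum_filter`) and `z * k ≤ z * (4 * I.card)`; for `i ≠ j` with positive weights `i, j ∈ I`, so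
`w i = z ≤ 2 h ≤ 2 * cd L i j`. -/
theorem wt_of_far {V : Type u} {G : SimpleGraph V} {L : ℕ} {c : ℕ → V} {k z h : ℕ} {K : Set V} {I : Finset ℕ}
    (hI : I ⊆ att G L c K) (hk : k ≤ 4 * I.card) (hz : z ≤ 2 * h)
    (hfar : ∀ i ∈ I, ∀ j ∈ I, i ≠ j → h + 1 ≤ cd L i j) :
    IsWt G L c k K z (fun i => if i ∈ I then z else 0) := by
  have hIr : I ⊆ Finset.range L := fun i hi => (Finset.mem_filter.1 (hI hi)).1
  have hsum : ∑ i ∈ Finset.range L, (if i ∈ I then z else 0) = z * I.card := by
    rw [← Finset.sum_filter, Finset.filter_mem_eq_inter, Finset.inter_eq_right.2 hIr,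
      Finset.sum_const, smul_eq_mul, mul_comm]
  refine ⟨fun i => ?_, fun i hi => ?_, ?_, fun i j hij hi hj => ?_⟩
  · dsimp only
    split_ifs
    · exact le_refl _
    · exact Nat.zero_le _
  · by_cases h : i ∈ I
    · exact hI h
    · simp [h] at hi
  · rw [hsum]
    calc z * k ≤ z * (4 * I.card) := Nat.mul_le_mul_left _ hk
      _ = 4 * (z * I.card) := by ring
  · have hiI : i ∈ I := by
      by_contra h
      simp [h] at hi
    have hjI : j ∈ I := by
      by_contra h
      simp [h] at hj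
    have h1 := hfar i hiI j hjI hij
    have h2 : (if i ∈ I then z else 0) = z := if_pos hiI
    dsimp only
    omega

/-- For two different indices on the cycle the distance is positive. PROOF. Unfold `cd`; `omega`. -/
theorem cd_pos {L i j : ℕ} (hi : i < L) (hj : j < L) (hij : i ≠ j) : 1 ≤ cd L i j := by
  unfold cd
  omega

/-- PROOF. Let `w i` be the number of `v ∈ V'` with `i ∈ A v`. `w i ≤ V'.card` (`Finset.card_filter_le`). If `0 < w i` there is `v ∈ V'` with
`i ∈ A v ⊆ att G L c K`. Double counting: `∑ i ∈ range L, w i = ∑ v ∈ V', (A v).card` (write cards of filters as sums of `if`s, `Finset.sum_comm`; `A v ⊆ range L`),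
and `V'.card * k = ∑ v ∈ V', k ≤ ∑ v ∈ V', 4 * (A v).card`. Let `i ≠ j`, `0 < w i`, `0 < w j`, say `j ∈ A u` with `u ∈ V'`. If `w i = 1`: `1 ≤ 2 * cd L i j` by
`cd_pos` (`i, j < L` by the definition of `att`). If `2 ≤ w i`, there are two different `v` with `i ∈ A v` (`Finset.one_lt_card`), one of them is not `u`, so
`h + 1 ≤ cd L i j` by `hfar` and `w i ≤ V'.card ≤ 2 h ≤ 2 * cd L i j`. -/
theorem wt_of_hv {V : Type u} {G : SimpleGraph V} {L : ℕ} {c : ℕ → V} {k h : ℕ} {K : Set V} (V' : Finset V)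
    (A : V → Finset ℕ) (hA : ∀ v ∈ V', A v ⊆ att G L c K) (hk : ∀ v ∈ V', k ≤ 4 * (A v).card)
    (hz : V'.card ≤ 2 * h)
    (hfar : ∀ v ∈ V', ∀ u ∈ V', v ≠ u → ∀ i ∈ A v, ∀ j ∈ A u, i ≠ j → h + 1 ≤ cd L i j) :
    IsWt G L c k K V'.card (fun i => (V'.filter (fun v => i ∈ A v)).card) := by
  refine ⟨fun i => Finset.card_filter_le _ _, fun i hi => ?_, ?_, fun i j hij hi hj => ?_⟩
  · obtain ⟨v, hv⟩ := Finset.card_pos.1 hi
    rw [Finset.mem_filter] at hv
    exact hA v hv.1 hv.2
  · have h1 : ∑ i ∈ Finset.range L, (V'.filter (fun v => i ∈ A v)).card = ∑ v ∈ V', (A v).card := by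
      simp_rw [Finset.card_filter]
      rw [Finset.sum_comm]
      refine Finset.sum_congr rfl fun v hv => ?_
      have hAr : A v ⊆ Finset.range L := fun i hi => (Finset.mem_filter.1 (hA v hv hi)).1
      rw [← Finset.card_filter, Finset.filter_mem_eq_inter, Finset.inter_eq_right.2 hAr]
    rw [h1, Finset.mul_sum]
    calc V'.card * k = ∑ v ∈ V', k := by rw [Finset.sum_const, smul_eq_mul]
      _ ≤ _ := Finset.sum_le_sum hk
  · dsimp only at hi hj ⊢
    obtain ⟨u, hu⟩ := Finset.card_pos.1 hj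
    rw [Finset.mem_filter] at hu
    have hc := Finset.card_filter_le V' (fun v => i ∈ A v)
    by_cases h1 : (V'.filter (fun v => i ∈ A v)).card ≤ 1
    · obtain ⟨v, hv⟩ := Finset.card_pos.1 hi
      rw [Finset.mem_filter] at hv
      have h2 := cd_pos (Finset.mem_range.1 (Finset.mem_filter.1 (hA v hv.1 hv.2)).1)
        (Finset.mem_range.1 (Finset.mem_filter.1 (hA u hu.1 hu.2)).1) hij
      omega
    · have h1' : 1 < (V'.filter (fun v => i ∈ A v)).card := by omega
      obtain ⟨v, hv, v', hv', hne⟩ := Finset.one_lt_card.1 h1'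
      rw [Finset.mem_filter] at hv hv'
      have h3 : ∃ v0 ∈ V', i ∈ A v0 ∧ v0 ≠ u := by
        by_cases h : v = u
        · exact ⟨v', hv'.1, hv'.2, fun h' => hne (h.trans h'.symm)⟩
        · exact ⟨v, hv.1, hv.2, h⟩
      obtain ⟨v0, hv0, hi0, hne0⟩ := h3
      have h4 := hfar v0 hv0 u hu.1 hne0 i hi0 j hu.2 hij
      omega

end LB
end

section

/-! TASK LB T09a of MP_6bc8af_co: cyclic sum (natural numbers only). -/

set_option autoImplicit false

namespace LB

/-- PROOF. Let `m` be the least index with `0 < W m` (`Nat.find`). CLAIM: for every `j` with `0 < W j`, `∑ i ∈ range j, W i ≤ 3 * (j - m)`. Strong induction on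
`j`. If `j = m` all terms are `0`. Otherwise `m < j`; let `j'` be the greatest index `< j` with `0 < W j'` (it exists, `m` is one; `Nat.findGreatest` or
`Finset.max'`), `m ≤ j'`; `∑ i ∈ range j, W i = ∑ i ∈ range j', W i + W j'` (the other terms vanish: `Finset.sum_range_add...` or `Finset.sum_subset`), at most
`3 (j' - m) + 3 (j - j')`, as `W j' ≤ 3 * cd L j' j ≤ 3 (j - j')`.
Let `M` be the greatest index with `0 < W M`; `m ≠ M` by `h2`. The total sum is `∑ i ∈ range M, W i + W M ≤ 3 (M - m) + 3 * cd L M m ≤ 3 (M - m) + 3 (L - (M - m)) = 3 L`. -/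
theorem cyc_sum (L : ℕ) (W : ℕ → ℕ) (hpos : ∀ i, 0 < W i → i < L) (h2 : ∃ i j, i ≠ j ∧ 0 < W i ∧ 0 < W j)
    (hW : ∀ i j, i ≠ j → 0 < W i → 0 < W j → W i ≤ 3 * cd L i j) : ∑ i ∈ Finset.range L, W i ≤ 3 * L := by
  classical
  obtain ⟨i₀, j₀, hij₀, hi₀, hj₀⟩ := h2
  have hex : ∃ m, 0 < W m := ⟨i₀, hi₀⟩
  set m := Nat.find hex with hm
  have hWm : 0 < W m := Nat.find_spec hex
  have hmin : ∀ i, 0 < W i → m ≤ i := fun i hi => Nat.find_min' hex hi
  -- the sum below a positive index in terms of the preceding positive index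
  have hstep : ∀ j, m < j → ∃ j', 0 < W j' ∧ j' < j ∧
      ∑ i ∈ Finset.range j, W i = ∑ i ∈ Finset.range j', W i + W j' := by
    intro j hj
    have hne : ((Finset.range j).filter (fun i => 0 < W i)).Nonempty :=
      ⟨m, by simp [hj, hWm]⟩
    obtain ⟨j', hj'mem, hj'max⟩ := Finset.exists_max_image _ id hne
    rw [Finset.mem_filter, Finset.mem_range] at hj'mem
    refine ⟨j', hj'mem.2, hj'mem.1, ?_⟩
    rw [← Finset.sum_range_succ]
    symm
    refine Finset.sum_subset (fun i hi => ?_) (fun i hi hi' => ?_)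
    · rw [Finset.mem_range] at hi ⊢
      omega
    · by_contra h0
      have h1 := hj'max i (by
        rw [Finset.mem_filter]
        exact ⟨hi, Nat.pos_of_ne_zero h0⟩)
      rw [Finset.mem_range] at hi'
      simp only [id] at h1
      omega
  have claim : ∀ j, 0 < W j → ∑ i ∈ Finset.range j, W i ≤ 3 * (j - m) := by
    intro j
    induction j using Nat.strong_induction_on with
    | _ j ih =>
      intro hj
      rcases Nat.eq_or_lt_of_le (hmin j hj) with h | h
      · rw [← h]
        rw [Finset.sum_eq_zero]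
        · omega
        · intro i hi
          rw [Finset.mem_range] at hi
          by_contra h0
          have := hmin i (Nat.pos_of_ne_zero h0)
          omega
      · obtain ⟨j', hj'1, hj'2, hj'3⟩ := hstep j h
        have h1 := ih j' hj'2 hj'1
        have h2 := hW j' j (by omega) hj'1 hj
        have h3 := hmin j' hj'1
        have h4 : cd L j' j ≤ j - j' := by
          unfold cd
          rw [max_eq_right hj'2.le, min_eq_left hj'2.le]
          exact min_le_left _ _
        rw [hj'3]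
        omega
  have hmL : m < L := hpos m hWm
  have hmlt : m < L := hmL
  obtain ⟨M, hM1, hM2, hM3⟩ := hstep L hmL
  have hMm : m < M := by
    rcases Nat.eq_or_lt_of_le (hmin M hM1) with h | h
    · exfalso
      -- all positive indices are equal to `m`
      have hall : ∀ i, 0 < W i → i = m := by
        intro i hi
        have h1 := hmin i hi
        by_contra hne
        have h2 : m < i := by omega
        have h3 : i < L := hpos i hi
        have h4 : ∑ k ∈ Finset.range m, W k + W m < ∑ k ∈ Finset.range L, W k := by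
          rw [← Finset.sum_range_succ]
          calc ∑ k ∈ Finset.range (m + 1), W k < ∑ k ∈ Finset.range (m + 1), W k + W i := by omega
            _ = ∑ k ∈ insert i (Finset.range (m + 1)), W k := by
              rw [Finset.sum_insert (by rw [Finset.mem_range]; omega), add_comm]
            _ ≤ ∑ k ∈ Finset.range L, W k := by
              refine Finset.sum_le_sum_of_subset ?_
              intro k hk
              rw [Finset.mem_insert, Finset.mem_range] at hk
              rw [Finset.mem_range]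
              omega
        rw [hM3, ← h] at h4
        omega
      exact hij₀ ((hall i₀ hi₀).trans (hall j₀ hj₀).symm)
    · exact h
  have hc := claim M hM1
  have hlast := hW M m (by omega) hM1 hWm
  have hcd : cd L M m ≤ L - (M - m) := by
    unfold cd
    rw [max_eq_left hMm.le, min_eq_right hMm.le]
    exact min_le_right _ _
  rw [hM3]
  omega

end LB
end

section

/-! MP_6bc8af_co, linear bound, TASK E01: combination of the weights of the beads (natural numbers only). -/

namespace LC.Lin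

/-- PROOF. `max`, `min` are symmetric. -/
theorem cd_comm (L i j : ℕ) : cd L i j = cd L j i := by
  unfold cd
  rw [max_comm i j, min_comm i j]

/-- The part to the left of `b`.

PROOF. If no `u ∈ U`, `u < b` has `0 < w u` the sum is `0`. Otherwise let `A` be the least such `u`. The sum is over `A ≤ u < b` (the other terms are `0`), so at
most `Σ r u` over `u ∈ U`, `A ≤ u ≤ b`, and `100 Σ ≤ b - A` by `packing`. `A + 200 r A < b`, `A + 200 r b < b` (`Spread`), so `100 (r A + r b) < b - A` and with `h`: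
`b + 2 ≤ A + d + 25 r A + 25 r b` we get `3 (b - A) ≤ 4 d`. So `300 Σ ≤ 4 d`. -/
theorem left_part {r : ℕ → ℕ} {U : Finset ℕ} (hU : Spread r U) {w : ℕ → ℕ} (hw : ∀ u ∈ U, w u ≤ r u) {b d : ℕ}
    (hb : b ∈ U) (h : ∀ u ∈ U, u < b → 0 < w u → b + 2 ≤ u + d + 25 * r u + 25 * r b) :
    75 * ∑ u ∈ U.filter (fun u => u < b), w u ≤ d := by
  classical
  by_cases hex : ∃ u ∈ U, u < b ∧ 0 < w u
  swap
  · have h0 : ∑ u ∈ U.filter (fun u => u < b), w u = 0 := by
      refine Finset.sum_eq_zero fun u hu => ?_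
      obtain ⟨h1, h2⟩ := Finset.mem_filter.1 hu
      by_contra hne
      exact hex ⟨u, h1, h2, Nat.pos_of_ne_zero hne⟩
    rw [h0]
    omega
  · have hne : (U.filter fun u => u < b ∧ 0 < w u).Nonempty := by
      obtain ⟨u, h1, h2⟩ := hex
      exact ⟨u, Finset.mem_filter.2 ⟨h1, h2⟩⟩
    obtain ⟨A, hA, hmin⟩ : ∃ A ∈ (U.filter fun u => u < b ∧ 0 < w u),
        ∀ u ∈ (U.filter fun u => u < b ∧ 0 < w u), A ≤ u :=
      ⟨_, Finset.min'_mem _ hne, fun u hu => Finset.min'_le _ u hu⟩
    obtain ⟨hAU, hAb, hAw⟩ := Finset.mem_filter.1 hA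
    have h1 : ∑ u ∈ U.filter (fun u => u < b), w u ≤
        ∑ u ∈ U.filter (fun u => A ≤ u ∧ u ≤ b), r u := by
      refine le_trans (Finset.sum_le_sum_of_ne_zero (t := U.filter (fun u => A ≤ u ∧ u ≤ b)) ?_)
        (Finset.sum_le_sum fun u hu => hw u (Finset.mem_filter.1 hu).1)
      intro u hu hne0
      obtain ⟨h2, h3⟩ := Finset.mem_filter.1 hu
      have h4 := hmin u (Finset.mem_filter.2 ⟨h2, h3, Nat.pos_of_ne_zero hne0⟩)
      exact Finset.mem_filter.2 ⟨h2, h4, h3.le⟩
    have h2 := packing hU hAU hb hAb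
    have h3 := hU A hAU b hb hAb
    have h4 := h A hAU hAb hAw
    omega

/-- The part to the right of `b`.

PROOF. As `left_part`: let `B` be the greatest `u ∈ U` with `b < u`, `0 < w u`. -/
theorem right_part {r : ℕ → ℕ} {U : Finset ℕ} (hU : Spread r U) {w : ℕ → ℕ} (hw : ∀ u ∈ U, w u ≤ r u) {b d : ℕ}
    (hb : b ∈ U) (h : ∀ u ∈ U, b < u → 0 < w u → u + 2 ≤ b + d + 25 * r u + 25 * r b) :
    75 * ∑ u ∈ U.filter (fun u => b < u), w u ≤ d := by
  classical
  by_cases hex : ∃ u ∈ U, b < u ∧ 0 < w u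
  swap
  · have h0 : ∑ u ∈ U.filter (fun u => b < u), w u = 0 := by
      refine Finset.sum_eq_zero fun u hu => ?_
      obtain ⟨h1, h2⟩ := Finset.mem_filter.1 hu
      by_contra hne
      exact hex ⟨u, h1, h2, Nat.pos_of_ne_zero hne⟩
    rw [h0]
    omega
  · have hne : (U.filter fun u => b < u ∧ 0 < w u).Nonempty := by
      obtain ⟨u, h1, h2⟩ := hex
      exact ⟨u, Finset.mem_filter.2 ⟨h1, h2⟩⟩
    obtain ⟨A, hA, hmax⟩ : ∃ A ∈ (U.filter fun u => b < u ∧ 0 < w u),
        ∀ u ∈ (U.filter fun u => b < u ∧ 0 < w u), u ≤ A :=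
      ⟨_, Finset.max'_mem _ hne, fun u hu => Finset.le_max' _ u hu⟩
    obtain ⟨hAU, hAb, hAw⟩ := Finset.mem_filter.1 hA
    have h1 : ∑ u ∈ U.filter (fun u => b < u), w u ≤
        ∑ u ∈ U.filter (fun u => b ≤ u ∧ u ≤ A), r u := by
      refine le_trans (Finset.sum_le_sum_of_ne_zero (t := U.filter (fun u => b ≤ u ∧ u ≤ A)) ?_)
        (Finset.sum_le_sum fun u hu => hw u (Finset.mem_filter.1 hu).1)
      intro u hu hne0
      obtain ⟨h2, h3⟩ := Finset.mem_filter.1 hu
      have h4 := hmax u (Finset.mem_filter.2 ⟨h2, h3, Nat.pos_of_ne_zero hne0⟩)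
      exact Finset.mem_filter.2 ⟨h2, h3.le, h4⟩
    have h2 := packing hU hb hAU hAb
    have h3 := hU b hb A hAU hAb
    have h4 := h A hAU hAb hAw
    omega

/-- **Combination.**

PROOF. Let `b ∈ U` with `0 < w b j` (`hj`), `d = cd L i j`. The sum is the sum of the parts `u < b`, `b < u`, and `w b i`. By `left_part` (with `h2 u b`, `i`, `j`) and
`right_part` (with `h2 b u`, `j`, `i` and `cd_comm`) the first two are `≤ d / 75`; `w b i ≤ 2 d` by `h1` (or it is `0`). Total `≤ 3 d`. -/
theorem combine {r : ℕ → ℕ} {U : Finset ℕ} (hU : Spread r U) {L : ℕ} {w : ℕ → ℕ → ℕ}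
    (hw : ∀ u ∈ U, ∀ i, w u i ≤ r u)
    (h1 : ∀ u ∈ U, ∀ i j, i ≠ j → 0 < w u i → 0 < w u j → w u i ≤ 2 * cd L i j)
    (h2 : ∀ u ∈ U, ∀ u' ∈ U, u < u' → ∀ i j, i ≠ j → 0 < w u i → 0 < w u' j →
      u' + 2 ≤ u + cd L i j + 25 * r u + 25 * r u')
    {i j : ℕ} (hij : i ≠ j) (hj : 0 < ∑ u ∈ U, w u j) : ∑ u ∈ U, w u i ≤ 3 * cd L i j := by
  classical
  obtain ⟨b, hb, hbj⟩ : ∃ b ∈ U, 0 < w b j := by
    by_contra hcon
    have h0 : ∑ u ∈ U, w u j = 0 := by
      refine Finset.sum_eq_zero fun u hu => ?_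
      by_contra hne
      exact hcon ⟨u, hu, Nat.pos_of_ne_zero hne⟩
    omega
  have hl := left_part hU (w := fun u => w u i) (fun u hu => hw u hu i) (d := cd L i j) hb
    (fun u hu hub hui => h2 u hu b hb hub i j hij hui hbj)
  have hr := right_part hU (w := fun u => w u i) (fun u hu => hw u hu i) (d := cd L i j) hb
    (fun u hu hub hui => by
      have h3 := h2 b hb u hu hub j i hij.symm hbj hui
      rw [cd_comm L j i] at h3
      omega)
  have hm : w b i ≤ 2 * cd L i j := by
    rcases Nat.eq_zero_or_pos (w b i) with h0 | h0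
    · rw [h0]
      omega
    · exact h1 b hb i j hij h0 hbj
  have hs1 : ∑ u ∈ U, w u i = ∑ u ∈ U.filter (fun u => u < b), w u i +
      ∑ u ∈ U.filter (fun u => ¬ u < b), w u i :=
    (Finset.sum_filter_add_sum_filter_not U (fun u => u < b) fun u => w u i).symm
  have hs2 : ∑ u ∈ U.filter (fun u => ¬ u < b), w u i = w b i +
      ∑ u ∈ U.filter (fun u => b < u), w u i := by
    have hnot : b ∉ U.filter (fun u => b < u) := by
      intro hc
      exact absurd (Finset.mem_filter.1 hc).2 (lt_irrefl b)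
    rw [← Finset.sum_insert (f := fun u => w u i) hnot]
    refine Finset.sum_congr ?_ fun _ _ => rfl
    ext u
    rw [Finset.mem_filter, Finset.mem_insert, Finset.mem_filter]
    constructor
    · rintro ⟨g1, g2⟩
      rcases Nat.lt_or_ge b u with g3 | g3
      · exact Or.inr ⟨g1, g3⟩
      · exact Or.inl (by omega)
    · rintro (g1 | ⟨g1, g2⟩)
      · rw [g1]
        exact ⟨hb, lt_irrefl b⟩
      · exact ⟨g1, by omega⟩
  have hl' : 75 * ∑ u ∈ U.filter (fun u => u < b), w u i ≤ cd L i j := hl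
  have hr' : 75 * ∑ u ∈ U.filter (fun u => b < u), w u i ≤ cd L i j := hr
  omega

/-- PROOF. If at most one index `< L` has `0 < w i`, the sum is `≤ W`, so `k W ≤ 4 W`, contradiction with `44 ≤ k`, `1 ≤ W`. -/
theorem two_pos {k L W : ℕ} {w : ℕ → ℕ} (hk : 44 ≤ k) (hW : 1 ≤ W) (hw : ∀ i, w i ≤ W)
    (h : k * W ≤ 4 * ∑ i ∈ Finset.range L, w i) : ∃ i < L, ∃ j < L, i ≠ j ∧ 0 < w i ∧ 0 < w j := by
  by_contra hcon
  have hle : ∑ i ∈ Finset.range L, w i ≤ W := by
    by_cases hex : ∃ i < L, 0 < w i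
    · obtain ⟨i, hi, hwi⟩ := hex
      rw [Finset.sum_eq_single i]
      · exact hw i
      · intro j hj hne
        by_contra h0
        exact hcon ⟨j, Finset.mem_range.1 hj, i, hi, hne, Nat.pos_of_ne_zero h0, hwi⟩
      · intro hn
        exact absurd (Finset.mem_range.2 hi) hn
    · have h0 : ∑ i ∈ Finset.range L, w i = 0 := by
        refine Finset.sum_eq_zero fun i hi => ?_
        by_contra h0
        exact hex ⟨i, Finset.mem_range.1 hi, Nat.pos_of_ne_zero h0⟩
      omega
  have h1 : 44 * W ≤ k * W := Nat.mul_le_mul_right W hk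
  omega

end LC.Lin
end
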