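import Pool.Agent.Lib.MP_6bc8af_co.Mg.G012
import Pool.Agent.Lib.MP_6bc8af_co.Mg.G011
import Pool.Agent.Lib.MP_6bc8af_co.Mg.G007
import Pool.Agent.Lib.MP_6bc8af_co.Mg.G014

section

/-! TASK LB T05 of MP_6bc8af_co: many attachments which are pairwise far, when the bead contains many vertices of `B`. -/

set_option autoImplicit false

open Classical

namespace LB

universe u

private theorem T05_mem_att {V : Type u} {G : SimpleGraph V} {L : ℕ} {c : ℕ → V} {K : Set V} {i : ℕ} :
    i ∈ att G L c K ↔ i < L ∧ ∃ x ∈ K, G.Adj (c i) x := by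
  unfold att
  rw [Finset.mem_filter, Finset.mem_range]

/-- PROOF. Put `t = (k + 1) / 2` (so `k ≤ 2 t`, `t ≤ k`, `t ≤ (B ∩ K).ncard`). `LC.linked_of_kconn` for `IsKConn.mono hG`,
`A = B ∩ K`, `B = {v | ∃ i < L, c i = v}` (of `ncard` `L ≥ t`, see the proof of `LC.meet_bound` in K07) and `X = ↑S` gives
`Linked (del G S) ((B ∩ K) \ S) ({c i} \ S) (t - S.card)`: lengths `len`, paths `g q`, `q : Fin (t - S.card)`.
CLAIM: for `i < len q`, `g q i ∈ K`. Induction on `i`: `g q 0 ∈ K`. If `g q i ∈ K` and `i + 1 < len q`: `g q (i + 1)` is adjacent to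
`g q i ∈ K` and not in `S` (adjacency of `del G S`), so by `hK` it is in `K` or `= c j` with `j < L`; in the last case it is in the target set, so
`i + 1 = len q` by the last clause of `Linked`, impossible. Moreover `1 ≤ len q`, as `g q 0 ∈ K` is not on the cycle.
Let `e q < L` be the index with `c (e q) = g q (len q)` (choose). `e` is injective (disjointness of the paths). `e q ∈ att G L c K`
by the vertex `g q (len q - 1) ∈ K`. Let `I = univ.image e`, of card `t - S.card`, so `k ≤ 2 t ≤ 2 (I.card + S.card)`.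
FAR: let `q ≠ q'`. By `pth_of_seq` there are paths `l`: from `g q 0` to `g q (len q - 1)` and `l'`: from `g q' 0` to
`g q' (len q' - 1)` (consisting of the vertices `g q i`, `i < len q`, resp. `g q' i`), all in `K ⊆ off L c`; `g q 0 ≠ g q' 0` are in `B`, so
there is a path `m` in `B` from `g q 0` to `g q' 0` with at least `h` vertices. A vertex of `m` (it is in `B`) on `l` is `g q i ∈ B ∩ K`, so
`i = 0` (`Linked`, start clause; it is not in `S` by `hK`). Glue `l.reverse`, `m`, `l'` (`IsPth.glue` twice; `l` and `l'` are disjoint): a path in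
`off L c` (`hBo`, `hK.1`) from `g q (len q - 1)` to `g q' (len q' - 1)` with at least `h` vertices. `gap` gives
`h + 1 ≤ cd L (e q) (e q')`. -/
theorem far_ends {V : Type u} [Fintype V] {G : SimpleGraph V} {k L h : ℕ} {c : ℕ → V} (hG : LC.IsKConn G k)
    (hC : Longest G L c) (hkL : k ≤ L) {K : Set V} {S : Finset V} (hK : Encl G L c K S) {B : Set V}
    (hBo : B ⊆ off L c) (hB : Long G h B) (hcard : k ≤ 2 * (B ∩ K).ncard) :
    ∃ I : Finset ℕ, I ⊆ att G L c K ∧ k ≤ 2 * (I.card + S.card) ∧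
      ∀ i ∈ I, ∀ j ∈ I, i ≠ j → h + 1 ≤ cd L i j := by
  have hXc : (↑S : Set V).ncard = S.card := Set.ncard_coe_finset S
  have hCcard : (k + 1) / 2 ≤ ({v | ∃ i < L, c i = v} : Set V).ncard := by
    have h1 : ({v | ∃ i < L, c i = v} : Set V) = c '' (↑(Finset.range L) : Set ℕ) := by
      ext z
      constructor
      · rintro ⟨i, hi, rfl⟩
        exact ⟨i, Finset.mem_coe.2 (Finset.mem_range.2 hi), rfl⟩
      · rintro ⟨i, hi, rfl⟩
        exact ⟨i, Finset.mem_range.1 (Finset.mem_coe.1 hi), rfl⟩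
    rw [h1, Set.ncard_image_of_injOn, Set.ncard_coe_finset, Finset.card_range]
    · omega
    · intro i hi j hj hij
      exact hC.1.inj i (Finset.mem_range.1 (Finset.mem_coe.1 hi)) j
        (Finset.mem_range.1 (Finset.mem_coe.1 hj)) hij
  have hlink := LC.linked_of_kconn (IsKConn.mono hG (show (k + 1) / 2 ≤ k by omega)) (B ∩ K)
    {v | ∃ i < L, c i = v} (↑S : Set V) (by omega) hCcard
  rw [hXc] at hlink
  obtain ⟨len, g, hg0, hg1, hadj, hinj, hst, hen⟩ := hlink
  have hK' : ∀ q, ∀ i < len q, g q i ∈ K := by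
    intro q i
    induction i with
    | zero =>
      intro _
      exact (hg0 q).1.2
    | succ i ih =>
      intro hi
      have hiK := ih (by omega)
      have ha := hadj q i (by omega)
      rcases hK.2.2 _ hiK _ ha.1 with h1 | h1 | h1
      · exact h1
      · exact absurd (Finset.mem_coe.2 h1) ha.2.2
      · have := hen q (i + 1) (by omega) ⟨h1, ha.2.2⟩
        omega
  have hlen : ∀ q, 1 ≤ len q := by
    intro q
    by_contra h0
    have h1 : len q = 0 := by omega
    have h2 := (hg1 q).1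
    rw [h1] at h2
    obtain ⟨i, hi, hi'⟩ := h2
    exact hK.1 (hg0 q).1.2 i hi hi'
  choose e he1 he2 using fun q => (hg1 q).1
  have hlast : ∀ q, G.Adj (c (e q)) (g q (len q - 1)) := by
    intro q
    have h1 := (hadj q (len q - 1) (by have := hlen q; omega)).1
    have h2 : len q - 1 + 1 = len q := by have := hlen q; omega
    rw [h2] at h1
    rw [he2 q]
    exact h1.symm
  have hlastK : ∀ q, g q (len q - 1) ∈ K := fun q => hK' q _ (by have := hlen q; omega)
  have heinj : Function.Injective e := by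
    intro q q' hqq
    have h1 : g q (len q) = g q' (len q') := by rw [← he2 q, ← he2 q', hqq]
    exact (hinj q q' _ le_rfl _ le_rfl h1).1
  refine ⟨Finset.univ.image e, ?_, ?_, ?_⟩
  · intro i hi
    obtain ⟨q, _, rfl⟩ := Finset.mem_image.1 hi
    rw [T05_mem_att]
    exact ⟨he1 q, _, hlastK q, hlast q⟩
  · rw [Finset.card_image_of_injective _ heinj, Finset.card_univ, Fintype.card_fin]
    omega
  · intro i hi j hj hij
    obtain ⟨q, _, rfl⟩ := Finset.mem_image.1 hi
    obtain ⟨q', _, rfl⟩ := Finset.mem_image.1 hj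
    have hqq : q ≠ q' := fun h => hij (by rw [h])
    have hp : ∀ r, ∃ l : List V, IsPth G (off L c) (g r 0) (g r (len r - 1)) l ∧ l.length = len r - 1 + 1 ∧
        ∀ v, v ∈ l ↔ ∃ i ≤ len r - 1, g r i = v := by
      intro r
      have hr := hlen r
      refine pth_of_seq (len r - 1) (g r) ?_ ?_ ?_
      · intro i hi
        exact (hadj r i (by omega)).1
      · intro i hi
        exact hK.1 (hK' r i (by omega))
      · intro i hi j hj hij
        exact (hinj r r i (by omega) j (by omega) hij).2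
    obtain ⟨l, hl, hll, hlm⟩ := hp q
    obtain ⟨l', hl', hll', hlm'⟩ := hp q'
    have hne0 : g q 0 ≠ g q' 0 := fun h => hqq (hinj q q' 0 (by omega) 0 (by omega) h).1
    obtain ⟨m, hm, hmh⟩ := hB _ (hg0 q).1.1 _ (hg0 q').1.1 hne0
    have hmB : ∀ v ∈ m, v ∈ B := hm.2.2.2.2
    have hmo : IsPth G (off L c) (g q 0) (g q' 0) m := hm.mono hBo
    have hone : ∀ r i, i ≤ len r - 1 → g r i ∈ B → g r i = g r 0 := by
      intro r i hi hb
      have hr := hlen r
      have hk := hK' r i (by omega)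
      have h0 := hst r i (by omega) ⟨⟨hb, hk⟩, fun h => hK.2.1 _ hk (Finset.mem_coe.1 h)⟩
      rw [h0]
    obtain ⟨m1, hm1, hm1l, hm1m⟩ := hl.reverse.glue hmo (by
      intro v hv hvm
      obtain ⟨i, hi, rfl⟩ := (hlm v).1 (List.mem_reverse.1 hv)
      exact hone q i hi (hmB _ hvm))
    obtain ⟨m2, hm2, hm2l, _⟩ := hm1.glue hl' (by
      intro v hv hvl
      obtain ⟨i, hi, rfl⟩ := (hlm' v).1 hvl
      rcases hm1m _ hv with h1 | h1
      · obtain ⟨i', hi', heq⟩ := (hlm _).1 (List.mem_reverse.1 h1)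
        have hr := hlen q
        have hr' := hlen q'
        exact absurd (hinj q q' i' (by omega) i (by omega) heq).1 hqq
      · exact hone q' i hi (hmB _ h1))
    have hgap := gap hC hij (he1 q) (he1 q') hm2 (hlast q) (hlast q')
    rw [List.length_reverse] at hm1l
    omega

end LB
end

section

/-! TASK LB T06b of MP_6bc8af_co: the pendant sets `Hv` are disjoint. -/

set_option autoImplicit false

open Classical

namespace LB

universe u

/-- The pendant sets of different vertices are disjoint when `B` has no ears.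
PROOF. Suppose `x ∈ Hv v ∩ Hv u'` with `v ≠ u'` in `B ∩ K`. By `Hv_subset`, `x ∉ B \ {v}` and `x ∉ B \ {u'}`, so `x ∉ B`. Let `l` be the path from `v`
to `x` and `l'` the path from `u'` to `x`. By `IsPth.tail` (as `v ≠ x`, `u' ≠ x`) `l = v :: t`, `l' = u' :: t'`, with `t` a path from `v₁` to `x`, all its
vertices in `K \ B` (they are in `K \ (B \ {v})` and not `v`), `t'` a path from `u₁` to `x` in `K \ B`. The vertices of `t` followed by those of
`t'.reverse` form a walk in `K \ B ⊆ off L c \ B` from `v₁` to `u₁`, so there is a path `m` from `v₁` to `u₁` in `off L c \ B` (first vertex of `t` on `t'`: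
`IsPth.firstHit`, split `t'` there and `IsPth.glue`; or `pth_of_walk`). This is an ear: `hear v u' v₁ u₁ m` contradicts `G.Adj u₁ u'`. -/
theorem Hv_disjoint {V : Type u} {G : SimpleGraph V} {L : ℕ} {c : ℕ → V} {K B : Set V} (hKo : K ⊆ off L c)
    (hear : ∀ x ∈ B, ∀ y ∈ B, x ≠ y → ∀ (u w : V) (l : List V), IsPth G (off L c \ B) u w l → G.Adj x u → ¬ G.Adj w y)
    {v u' : V} (hv : v ∈ B) (hu : u' ∈ B) (hvu : v ≠ u') {x : V} (hx : x ∈ Hv G K B v) : x ∉ Hv G K B u' := by
  intro hx'
  have e1 := Hv_subset hx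
  have e2 := Hv_subset hx'
  have hxB : x ∉ B := by
    intro hxB
    have e3 : x = v := by
      by_contra hne
      exact e1.2 ⟨hxB, hne⟩
    have e4 : x = u' := by
      by_contra hne
      exact e2.2 ⟨hxB, hne⟩
    exact hvu (e3.symm.trans e4)
  obtain ⟨l, hl⟩ := hx
  obtain ⟨l', hl'⟩ := hx'
  have hvx : v ≠ x := fun e => hxB (e ▸ hv)
  have hux : u' ≠ x := fun e => hxB (e ▸ hu)
  obtain ⟨z, t, ht, hzt, hvz, hvt⟩ := hl.tail hvx
  obtain ⟨z', t', ht', hzt', huz, hut⟩ := hl'.tail hux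
  have p1 : IsPth G (K \ B) z x t := by
    refine ⟨hzt.1, hzt.2.1, hzt.2.2.1, hzt.2.2.2.1, fun a ha => ?_⟩
    have h1 := hzt.2.2.2.2 a ha
    refine ⟨h1.1, fun haB => h1.2 ⟨haB, fun e => hvt ?_⟩⟩
    have e' : a = v := e
    exact e' ▸ ha
  have p2 : IsPth G (K \ B) z' x t' := by
    refine ⟨hzt'.1, hzt'.2.1, hzt'.2.2.1, hzt'.2.2.2.1, fun a ha => ?_⟩
    have h1 := hzt'.2.2.2.2 a ha
    refine ⟨h1.1, fun haB => h1.2 ⟨haB, fun e => hut ?_⟩⟩
    have e' : a = u' := e
    exact e' ▸ ha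
  obtain ⟨y₀, m, hy₀, hm, hmt, _⟩ := p1.firstHit (B := {a | a ∈ t'}) p2.ends.2.1
  obtain ⟨l₁, l₂, hsp, q1, _⟩ := p2.split hy₀
  obtain ⟨M, hM, _, _⟩ := hm.glue q1.reverse (fun a ha ha' => by
    refine hmt a ha ?_
    rw [List.mem_reverse] at ha'
    change a ∈ t'
    rw [hsp]
    rcases List.mem_append.1 ha' with h1 | h1
    · exact List.mem_append_left _ h1
    · rw [List.mem_singleton] at h1
      rw [h1]
      exact List.mem_append_right _ List.mem_cons_self)
  have hM' : IsPth G (off L c \ B) z z' M := hM.mono fun a ha => ⟨hKo ha.1, ha.2⟩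
  exact hear v hv u' hu hvu z z' M hM' hvz huz.symm

end LB
end

section

/-! TASK LB T06c of MP_6bc8af_co: attachments of different pendant sets are far. -/

set_option autoImplicit false

open Classical

namespace LB

universe u

/-- Attachments of different pendant sets are far.
PROOF. `i ∈ att (Hv v)`: there is `x ∈ Hv v` adjacent to `c i`; `j ∈ att (Hv u')`: `y ∈ Hv u'` adjacent to `c j`. Let `l` be the path in `Hv v` from `v` to
`x`, `l'` the path in `Hv u'` from `u'` to `y` (`Hv_path`) and `m` the path in `B` from `v` to `u'` with at least `h` vertices. `l` meets `B` only in `v`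
(`Hv_subset`), `l'` meets `B` only in `u'`, and `l`, `l'` are disjoint (`Hv_disjoint`). Glue `l.reverse`, `m`, `l'` (`IsPth.glue` twice); all vertices are in
`off L c`. `gap` gives the claim (`i, j < L` by the definition of `att`). -/
theorem Hv_far {V : Type u} {G : SimpleGraph V} {L h : ℕ} {c : ℕ → V} (hC : Longest G L c) {K B : Set V}
    (hKo : K ⊆ off L c) (hBo : B ⊆ off L c) (hB : Long G h B)
    (hear : ∀ x ∈ B, ∀ y ∈ B, x ≠ y → ∀ (u w : V) (l : List V), IsPth G (off L c \ B) u w l → G.Adj x u → ¬ G.Adj w y)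
    {v u' : V} (hv : v ∈ B) (hu : u' ∈ B) (hvu : v ≠ u') {i j : ℕ} (hij : i ≠ j)
    (hi : i ∈ att G L c (Hv G K B v)) (hj : j ∈ att G L c (Hv G K B u')) : h + 1 ≤ cd L i j := by
  unfold att at hi hj
  rw [Finset.mem_filter, Finset.mem_range] at hi hj
  obtain ⟨hiL, x, hx, hix⟩ := hi
  obtain ⟨hjL, y, hy, hjy⟩ := hj
  obtain ⟨l, hl⟩ := Hv_path hx
  obtain ⟨l', hl'⟩ := Hv_path hy
  obtain ⟨m, hm, hmh⟩ := hB v hv u' hu hvu
  have hsub : ∀ w, Hv G K B w ⊆ off L c := fun w z hz => hKo (Hv_subset hz).1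
  obtain ⟨m₁, hm₁, hlen₁, hmem₁⟩ := (hl.reverse.mono (hsub v)).glue (hm.mono hBo) (by
    intro z hz hzm
    have hz1 : z ∈ Hv G K B v := hl.2.2.2.2 z (List.mem_reverse.1 hz)
    have hz2 : z ∈ B := hm.2.2.2.2 z hzm
    by_contra hne
    exact (Hv_subset hz1).2 ⟨hz2, hne⟩)
  obtain ⟨m₂, hm₂, hlen₂, -⟩ := hm₁.glue (hl'.mono (hsub u')) (by
    intro z hz hzl
    have hz1 : z ∈ Hv G K B u' := hl'.2.2.2.2 z hzl
    rcases hmem₁ z hz with h1 | h1
    · have hz2 : z ∈ Hv G K B v := hl.2.2.2.2 z (List.mem_reverse.1 h1)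
      exact absurd hz1 (Hv_disjoint hKo hear hv hu hvu hz2)
    · have hz2 : z ∈ B := hm.2.2.2.2 z h1
      by_contra hne
      exact (Hv_subset hz1).2 ⟨hz2, hne⟩)
  have h1 := gap hC hij hiL hjL hm₂ hix hjy
  have h2 := hl.ends.2.2
  have h3 := hl'.ends.2.2
  rw [List.length_reverse] at hlen₁
  omega

end LB
end

section

/-! TASK LB T07b of MP_6bc8af_co: every bead has weights. -/

set_option autoImplicit false

open Classical

namespace LB

universe u

/-- PROOF. Let `z = V'.card`, `h = (z + 1) / 2`, so `z ≤ 2 h ≤ z + 1`, and `z ≤ Z.length` (`V' ⊆ Z.toFinset`, `List.toFinset_card_le`), so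
`2 h ≤ Z.length + 2` and `long_cycle hZ` gives `Long G h {v | v ∈ Z}`. `exists_max_long` with `Ω = off L c` gives `B`.
Case 1: `k ≤ 2 * (B ∩ K).ncard`. `far_ends` gives `I` with `k ≤ 2 * (I.card + S.card) ≤ 2 * I.card + 20`, so `k ≤ 4 * I.card` (`omega`, `44 ≤ k`); `wt_of_far`.
Case 2: `2 * (B ∩ K).ncard < k`. Take `A v = att G L c (Hv G K B v)` and `wt_of_hv`. `hA`: `Hv ⊆ K` (`Hv_subset`), `att` is monotone. `hk`: `Hv_count` gives
`k + 1 ≤ 10 + (B ∩ K).ncard + (A v).card`, so `k ≤ 4 * (A v).card` (`omega`). `hfar`: `Hv_far` (`v ∈ Z ⊆ B`). -/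
theorem weights {V : Type u} [Fintype V] {G : SimpleGraph V} {k L : ℕ} {c : ℕ → V} (hG : LC.IsKConn G k)
    (hk : 44 ≤ k) (hC : Longest G L c) (hkL : k ≤ L) {K : Set V} {S : Finset V} (hS : S.card ≤ 10)
    (hK : Encl G L c K S) {Z : List V} {V' : Finset V} (hZ : IsCyc G (off L c) Z)
    (hV' : ∀ v ∈ V', v ∈ Z ∧ v ∈ K) : ∃ w : ℕ → ℕ, IsWt G L c k K V'.card w := by
  have hzZ : V'.card ≤ Z.length := by
    have h1 : V' ⊆ Z.toFinset := fun v hv => List.mem_toFinset.2 (hV' v hv).1
    exact (Finset.card_le_card h1).trans (List.toFinset_card_le Z)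
  have hlong := long_cycle hZ (h := (V'.card + 1) / 2) (by omega)
  obtain ⟨B, hZB, hBo, hB, hear⟩ := exists_max_long (Ω := off L c) hlong hZ.2.2.2.2
  rcases Nat.lt_or_ge (2 * (B ∩ K).ncard) k with h1 | h1
  · refine ⟨_, wt_of_hv (k := k) (K := K) (L := L) (c := c) (G := G) (h := (V'.card + 1) / 2) V'
      (fun v => att G L c (Hv G K B v)) ?_ ?_ (by omega) ?_⟩
    · intro v hv i hi
      simp only [att, Finset.mem_filter, Finset.mem_range] at hi ⊢
      obtain ⟨hiL, x, hx, hadj⟩ := hi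
      exact ⟨hiL, x, (Hv_subset hx).1, hadj⟩
    · intro v hv
      have h2 := Hv_count hG hC hkL hK (hV' v hv).2 (hZB (hV' v hv).1)
      omega
    · intro v hv u hu hvu i hi j hj hij
      exact Hv_far hC hK.1 hBo hB hear (hZB (hV' v hv).1) (hZB (hV' u hu).1) hvu hij hi hj
  · obtain ⟨I, hI, hIk, hIfar⟩ := far_ends hG hC hkL hK hBo hB h1
    exact ⟨_, wt_of_far hI (by omega) (by omega) hIfar⟩

/-- PROOF. `wt_of_far` with `I = att G L c K`, `z = 1`, `h = 1`?: this needs distance `2`; it is simpler to check `IsWt` directly for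
`w i = if i ∈ att G L c K then 1 else 0`: the sum is `(att G L c K).card ≥ k - 10` by `nbr_count`, so `1 * k ≤ 4 * sum`, and `1 ≤ 2 * cd L i j` by `cd_pos`. -/
theorem weights_one {V : Type u} [Fintype V] {G : SimpleGraph V} {k L : ℕ} {c : ℕ → V} (hG : LC.IsKConn G k)
    (hk : 44 ≤ k) (hC : Longest G L c) (hkL : k ≤ L) {K : Set V} {S : Finset V} (hS : S.card ≤ 10)
    (hK : Encl G L c K S) (hne : K.Nonempty) : ∃ w : ℕ → ℕ, IsWt G L c k K 1 w := by
  have h1 := nbr_count hG hC.1 hkL hK hne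
  have hsub : att G L c K ⊆ Finset.range L := by
    intro i hi
    simp only [att, Finset.mem_filter] at hi
    exact hi.1
  have hsum : ∑ i ∈ Finset.range L, (if i ∈ att G L c K then 1 else 0) = (att G L c K).card := by
    rw [Finset.sum_ite_mem, Finset.inter_eq_right.2 hsub, Finset.card_eq_sum_ones]
  have hpos : ∀ i, 0 < (if i ∈ att G L c K then 1 else 0) → i ∈ att G L c K := by
    intro i hi
    by_contra hcon
    rw [if_neg hcon] at hi
    exact lt_irrefl _ hi
  refine ⟨fun i => if i ∈ att G L c K then 1 else 0, ?_, hpos, ?_, ?_⟩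
  · intro i
    dsimp only
    split_ifs
    · exact le_refl _
    · exact Nat.zero_le _
  · rw [hsum]
    omega
  · intro i j hij hi hj
    have hi' := hsub (hpos i hi)
    have hj' := hsub (hpos j hj)
    have h2 := cd_pos (Finset.mem_range.1 hi') (Finset.mem_range.1 hj') hij
    dsimp only
    split_ifs <;> omega

/-- PROOF. Unfold `IsBead`: `weights_one` if `z = 1` (`K` is nonempty), `weights` otherwise; `k ≤ L` by `k_lt`. -/
theorem bead_wt {V : Type u} [Fintype V] {G : SimpleGraph V} {k L : ℕ} {c : ℕ → V} (hG : LC.IsKConn G k)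
    (hk : 44 ≤ k) (hC : Longest G L c) {a : ℕ} {p : ℕ → V} {u r : ℕ} {K : Set V} {z : ℕ}
    (hb : IsBead G L c a p u r K z) : ∃ w : ℕ → ℕ, IsWt G L c k K z w := by
  have hkL := k_lt hG (by omega) hC
  obtain ⟨hz1, hz2, hz3, hconn, ⟨q, hq, hqK⟩, hnear, S, hS, hK, hZ⟩ := hb
  rcases hZ with hz | ⟨Z, V', hZ, hV', hm⟩
  · rw [hz]
    exact weights_one hG hk hC (by omega) hS hK ⟨p q, hqK⟩
  · rw [← hV']
    exact weights hG hk hC (by omega) hS hK hZ hm

end LB
end
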