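import Pool.Agent.Lib.MP_6bc8af_co.Mg.G007
import Pool.Agent.Lib.MP_6bc8af_co.Mg.G005
import Pool.Agent.Lib.MP_6bc8af_co.Mg.G010
import Pool.Agent.Lib.MP_6bc8af_co.Mg.G003
import Pool.Agent.Lib.MP_6bc8af_co.Lin.C06
import Pool.Agent.Lib.MP_6bc8af_co.Mg.G013
import Pool.Agent.Lib.MP_6bc8af_co.Mg.G014
import Pool.Agent.Lib.MP_6bc8af_co.Mg.G015

section

/-! MP_6bc8af_co, linear bound, TASK B05: the lemma of Bondy-Locke type. -/

namespace LC.Lin

universe u

open Classical in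
/-- **The cycle lemma.** If there are six disjoint paths between the two ends of a path then there is a cycle containing at least `(t - s) / 75` of
the vertices `p q`, `s ≤ q < t`.

PROOF. Let `len`, `g` be the six paths of `hL`. For `b : Fin 3` use `two_rails` for the rails `2 b` and `2 b + 1` (e.g. via a function
`Fin 3 → Fin 6`), giving vines `(m b, x b, y b)` (choice). Two different vines are `Apart` by `chd_apart`. `E` = the set of all chords of all six rails.
`three_vines` with `B = a - 1` (`y b j < a` by the definition of `Chd`) gives `S`; `rail_int` and `expand` give the cycle; the positions of `S` are on it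
(`Finset.card_le_card`). -/
theorem BL {V : Type u} {H : SimpleGraph V} {a : ℕ} {p : ℕ → V} (hp : PathSeq H a p) {s t : ℕ} (hst : s + 2 ≤ t)
    (hL : Linked H (Xs p s) (Yt p a t) 6) :
    ∃ (n : ℕ) (z : ℕ → V), CycSeq H n z ∧
      t - s ≤ 75 * ((Finset.Ico s t).filter (fun q => ∃ i < n, z i = p q)).card := by
  obtain ⟨len, g, hgA, hgB, hadj, hinj, _, _⟩ := hL
  have ha0 : 0 < a := by
    obtain ⟨i, _, hi, _⟩ := hgB 0
    omega
  let c0 : Fin 3 → Fin 6 := fun b => ⟨2 * b.1, by omega⟩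
  let c1 : Fin 3 → Fin 6 := fun b => ⟨2 * b.1 + 1, by omega⟩
  have hdis : ∀ k k' : Fin 6, k ≠ k' → ∀ i ≤ len k, ∀ j ≤ len k', g k i ≠ g k' j :=
    fun k k' hk i hi j hj h => hk (hinj k k' i hi j hj h).1
  have hne : ∀ b b' : Fin 3, (b ≠ b' → c0 b ≠ c0 b') ∧ c0 b ≠ c1 b' ∧ c1 b ≠ c0 b' ∧
      (b ≠ b' → c1 b ≠ c1 b') := by
    intro b b'
    have key : ∀ {i j : ℕ} {hi : i < 6} {hj : j < 6}, i ≠ j → (⟨i, hi⟩ : Fin 6) ≠ ⟨j, hj⟩ := by
      intro i j hi hj h h'
      exact h (Fin.mk.inj_iff.1 h')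
    refine ⟨fun h => key ?_, key ?_, key ?_, fun h => key ?_⟩
    · intro h'
      exact h (Fin.ext (by omega))
    · omega
    · omega
    · intro h'
      exact h (Fin.ext (by omega))
  have h2 : ∀ b : Fin 3, ∃ (m : ℕ) (x y : ℕ → ℕ), Vine s t m x y ∧
      ∀ j ≤ m, (x j, y j) ∈ Chd a p (len (c0 b)) (g (c0 b)) ∨
        (x j, y j) ∈ Chd a p (len (c1 b)) (g (c1 b)) := fun b =>
    two_rails hp.inj hst (hgA (c0 b)) (hgB (c0 b)) (hgA (c1 b)) (hgB (c1 b))
      (hdis _ _ (hne b b).2.1)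
  choose m x y hV hC using h2
  have hA : ∀ b b' : Fin 3, b ≠ b' → Apart (m b) (x b) (y b) (m b') (x b') (y b') := by
    intro b b' hbb i hi j hj
    obtain ⟨n1, n2, n3, n4⟩ := hne b b'
    rcases hC b i hi with h1 | h1
    · rcases hC b' j hj with h3 | h3
      · exact chd_apart (hdis _ _ (n1 hbb)) h1 h3
      · exact chd_apart (hdis _ _ n2) h1 h3
    · rcases hC b' j hj with h3 | h3
      · exact chd_apart (hdis _ _ n3) h1 h3
      · exact chd_apart (hdis _ _ (n4 hbb)) h1 h3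
  have hE : ∀ b : Fin 3, ∀ j ≤ m b, (x b j, y b j) ∈ {A | ∃ k, A ∈ Chd a p (len k) (g k)} := by
    intro b j hj
    rcases hC b j hj with h1 | h1
    · exact ⟨c0 b, h1⟩
    · exact ⟨c1 b, h1⟩
  have hB : ∀ b : Fin 3, ∀ j ≤ m b, y b j ≤ a - 1 := by
    intro b j hj
    obtain ⟨k, hk⟩ := hE b j hj
    have h1 : y b j < a := hk.2.1
    omega
  obtain ⟨S, hS, hSB, hcard⟩ := three_vines hst hV hA hE hB
  obtain ⟨int, hint⟩ := rail_int hp len g hadj hinj
  obtain ⟨n, z, hz, hzS⟩ := expand hp hint hS (fun w hw => by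
    have := hSB w hw
    omega)
  refine ⟨n, z, hz, hcard.trans (Nat.mul_le_mul_left 75 (Finset.card_le_card ?_))⟩
  intro q hq
  rw [Finset.mem_filter] at hq ⊢
  exact ⟨hq.1, hzS q hq.2⟩

end LC.Lin
end

section

/-! MP_6bc8af_co, linear bound, TASK C05: there is a bead near every position. -/

namespace LC.Lin

universe u

/-- **Existence of beads.**

PROOF. Take `s, t, r` of `exists_scale` with `R = 1650` and `K₀, S` of `region`.
Case 1: `t = s + r` and `Linked ... 6`. `BL` gives a cycle `z` of length `n` with `r ≤ 75 N`, `N` = number of `q ∈ Ico s t` with `p q` on `z`. Let `T` be the finset of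
the `p q`, `q ∈ Ico s t`, on `z` and not in `S`; `N ≤ T.card + 10` (`p` is injective on `[0, a)`), `T ⊆ K₀` by the fourth property of `region`; `N ≥ 22`, so `T` is
nonempty. `comp_pigeon` gives `v ∈ T`; put `K = Comp H K₀ v`, `W` = the elements of `T` in `K`: `T.card ≤ 11 * W.card`. So
`r ≤ 75 (11 W.card + 10)`, `2 r ≤ 1650 W.card + 1500` and `r ≥ 1650` give `r ≤ 1650 W.card`; `W.card ≤ t - s = r`.
Case 2: `s = t = u`, `r = 1650`. There is `q < a` with `u ≤ q + 2 r`, `q ≤ u + 2 r`, `p q ∉ S`: if `S = ∅` take `q = u`; otherwise `4 r < a`, and there are `2 r + 1 > 10`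
such `q < a` (`[u - 2 r, u]` if `2 r ≤ u`, `[u, u + 2 r]` otherwise), `p` is injective on them and `S` has at most `10` elements. So `p q ∈ K₀`. Put `K = Comp H K₀ (p q)`,
`W = {p q}`.
In both cases: `con`: `Comp.idem`. `dis`, `nb`: `Comp.sub`, `Comp.nb`. `win`: `p q' ∈ K ⊆ K₀` gives `s ≤ q' + 4 r`, `q' ≤ t + 4 r`, and `t ≤ s + r`, `s ≤ u + 20 r`,
`u ≤ t + 20 r`. `right`: `t + 4 r ≤ s + 5 r ≤ u + 25 r`. `left`: `s₀ + 25 r ≤ u ≤ t + 20 r ≤ s + 21 r` gives `s₀ + 4 r ≤ s`. `cyc`: in case 1 the cycle `z`. -/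
theorem exists_bead {V : Type u} [Fintype V] {H : SimpleGraph V} {a : ℕ} {p : ℕ → V} (hp : PathSeq H a p)
    {Lf : ℕ → ℕ → Set V} (h1 : ∀ s t, Disjoint (Lf s t) (Yt p a t))
    (h2 : ∀ s s' t t', s ≤ s' → t ≤ t' → Lf s t ⊆ Lf s' t')
    (h3 : ∀ s t, ¬ Linked H (Xs p s) (Yt p a t) 6 → (bd H (Xs p s) (Lf s t)).ncard ≤ 5) {u : ℕ} (hu : u < a) :
    ∃ (r : ℕ) (K : Set V) (S W : Finset V), Bead H a p Lf u r K S W := by
  classical
  obtain ⟨s, t, r, hst, hta, hRr, hsu, hut, hcase, hrR, hl, hr⟩ :=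
    exists_scale H a p hu 1650 (by norm_num)
  obtain ⟨K₀, S, hcard, hdis, hnb, hin, hwin, hright, hleft, hSe⟩ := region h1 h2 h3 hst hta hl hr
  have hts : t ≤ s + r := by
    rcases hcase with ⟨h, h'⟩ | ⟨h, -⟩ <;> omega
  have fin : ∀ v₀ : V, ∀ W : Finset V, (∀ v ∈ W, v ∈ Comp H K₀ v₀ ∧ ∃ q < a, p q = v) →
      1 ≤ W.card → W.card ≤ r → r ≤ 1650 * W.card →
      (W.card = 1 ∨ ∃ (n : ℕ) (z : ℕ → V), CycSeq H n z ∧ ∀ v ∈ W, ∃ i < n, z i = v) →
      ∃ (r : ℕ) (K : Set V) (S W : Finset V), Bead H a p Lf u r K S W := by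
    intro v₀ W hW hpos hle hge hcyc
    refine ⟨r, Comp H K₀ v₀, S, W, ?_⟩
    refine ⟨fun v hv => Comp.idem hv, fun v hv => hdis v (Comp.sub hv), ?_, hcard, ?_, hW, hpos, hle,
      hge, hcyc, ?_, ?_⟩
    · intro v hv w hvw
      have h := Comp.nb (H := H) (K₀ := K₀) (S := (↑S : Set V)) (v := v₀)
        (fun v hv w hw => by
          rcases hnb v hv w hw with h | h
          · exact Or.inl h
          · exact Or.inr (Finset.mem_coe.2 h)) v hv w hvw
      rcases h with h | h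
      · exact Or.inl h
      · exact Or.inr (Finset.mem_coe.1 h)
    · intro q hq hqK
      obtain ⟨e1, e2⟩ := hwin q hq (Comp.sub hqK)
      omega
    · intro s₀ t₀ hs₀ ht₀ hta₀
      exact Set.Subset.trans Comp.sub (hright s₀ t₀ (by omega) (by omega) hta₀)
    · intro s₀ t₀ hs₀ ht₀
      exact Set.disjoint_of_subset_left Comp.sub (hleft s₀ t₀ (by omega) (by omega))
  rcases hcase with ⟨hsu', htu'⟩ | ⟨htr, hL⟩
  · have hr0 : r = 1650 := hrR ⟨hsu', htu'⟩
    obtain ⟨q, hqa, hq1, hq2, hqS⟩ : ∃ q < a, u ≤ q + 2 * r ∧ q ≤ u + 2 * r ∧ p q ∉ S := by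
      rcases hSe with hS | hS
      · exact ⟨u, hu, by omega, by omega, by rw [hS]; simp⟩
      · have key : ∀ I : Finset ℕ, 11 ≤ I.card → (∀ q ∈ I, q < a) → ∃ q ∈ I, p q ∉ S := by
          intro I hI hIa
          by_contra hcon
          push Not at hcon
          have h4 : (I.image p).card = I.card := by
            apply Finset.card_image_of_injOn
            intro i hi j hj hij
            exact hp.inj i (hIa i hi) j (hIa j hj) hij
          have h5 : I.image p ⊆ S := by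
            intro v hv
            obtain ⟨q, hq, rfl⟩ := Finset.mem_image.1 hv
            exact hcon q hq
          have h6 := Finset.card_le_card h5
          omega
        by_cases h2r : 2 * r ≤ u
        · obtain ⟨q, hq, hqS⟩ := key (Finset.Icc (u - 2 * r) u) (by rw [Nat.card_Icc]; omega)
            (fun q hq => by rw [Finset.mem_Icc] at hq; omega)
          rw [Finset.mem_Icc] at hq
          exact ⟨q, by omega, by omega, by omega, hqS⟩
        · obtain ⟨q, hq, hqS⟩ := key (Finset.Icc u (u + 2 * r)) (by rw [Nat.card_Icc]; omega)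
            (fun q hq => by rw [Finset.mem_Icc] at hq; omega)
          rw [Finset.mem_Icc] at hq
          exact ⟨q, by omega, by omega, by omega, hqS⟩
    have hK : p q ∈ K₀ := (hin q hqa (by omega) (by omega)).resolve_right hqS
    refine fin (p q) {p q} ?_ ?_ ?_ ?_ (Or.inl (Finset.card_singleton _))
    · intro v hv
      rw [Finset.mem_singleton] at hv
      subst hv
      exact ⟨Comp.self hK, q, hqa, rfl⟩
    · rw [Finset.card_singleton]
    · rw [Finset.card_singleton]; omega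
    · rw [Finset.card_singleton]; omega
  · obtain ⟨n, z, hz, hN⟩ := BL hp (by omega : s + 2 ≤ t) hL
    obtain ⟨F, hF⟩ : ∃ F, F = (Finset.Ico s t).filter (fun q => ∃ i < n, z i = p q) := ⟨_, rfl⟩
    have hN' : t - s ≤ 75 * F.card := by
      rw [hF]
      refine hN.trans (Nat.mul_le_mul_left _ (Finset.card_le_card ?_))
      intro q hq
      rw [Finset.mem_filter] at hq ⊢
      exact hq
    have hFmem : ∀ q ∈ F, s ≤ q ∧ q < t ∧ ∃ i < n, z i = p q := by
      intro q hq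
      rw [hF, Finset.mem_filter, Finset.mem_Ico] at hq
      exact ⟨hq.1.1, hq.1.2, hq.2⟩
    have hFcard : F.card ≤ t - s := by
      rw [hF]
      refine (Finset.card_filter_le _ _).trans ?_
      rw [Nat.card_Ico]
    have himg : (F.image p).card = F.card := by
      apply Finset.card_image_of_injOn
      intro i hi j hj hij
      have e1 := hFmem i hi
      have e2 := hFmem j hj
      exact hp.inj i (by omega) j (by omega) hij
    obtain ⟨T, hT⟩ : ∃ T, T = F.image p \ S := ⟨_, rfl⟩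
    have hTcard : F.card ≤ T.card + 10 := by
      have h4 := Finset.le_card_sdiff S (F.image p)
      rw [← hT, himg] at h4
      omega
    have hTle : T.card ≤ F.card := by
      rw [hT, ← himg]
      exact Finset.card_le_card Finset.sdiff_subset
    have hTmem : ∀ v ∈ T, (v ∈ K₀ ∧ ∃ i < n, z i = v) ∧ ∃ q < a, p q = v := by
      intro v hv
      rw [hT, Finset.mem_sdiff] at hv
      obtain ⟨hv1, hv2⟩ := hv
      obtain ⟨q, hq, rfl⟩ := Finset.mem_image.1 hv1
      obtain ⟨e1, e2, e3⟩ := hFmem q hq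
      exact ⟨⟨(hin q (by omega) (by omega) (by omega)).resolve_right hv2, e3⟩, q, by omega, rfl⟩
    have hTne : T.Nonempty := by
      rw [← Finset.card_pos]; omega
    have hadj : ∀ i, i + 1 < n → H.Adj (z i) (z (i + 1)) := by
      intro i hi
      have h := hz.adj i (by omega)
      unfold nx at h
      rwa [if_neg (by omega)] at h
    obtain ⟨v, hvT, hv⟩ := comp_pigeon (H := H) (n := n) (z := z) hadj hz.inj hcard hdis hnb T
      (fun v hv => (hTmem v hv).1) hTne
    refine fin v (T.filter (fun w => w ∈ Comp H K₀ v)) ?_ ?_ ?_ ?_ ?_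
    · intro w hw
      rw [Finset.mem_filter] at hw
      exact ⟨hw.2, (hTmem w hw.1).2⟩
    · by_contra h0
      have h7 : (T.filter (fun w => w ∈ Comp H K₀ v)).card = 0 := by omega
      rw [h7] at hv
      omega
    · have h7 := Finset.card_filter_le T (fun w => w ∈ Comp H K₀ v)
      omega
    · omega
    · right
      refine ⟨n, z, hz, fun w hw => ?_⟩
      rw [Finset.mem_filter] at hw
      exact (hTmem w hw.1).1.2

end LC.Lin
end

section

/-! MP_6bc8af_co, linear bound, TASK C07: the system of beads. -/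

namespace LC.Lin

universe u

/-- **The system of beads.**

PROOF. `exists_nested` gives `Lf`; `exists_bead` and choice give `r, K, S, W` for all `u < a`; `1 ≤ r u` by `Bead.pos`, `Bead.le`. `greedy` for `T = Finset.range a`
gives `U`. Disjoint: let `u < u'` in `U`, `s₀ = u + 25 r u`; `s₀ + 25 r u' ≤ u'` because `u + 200 r u < u'`, `u + 200 r u' < u'`; `s₀ ≤ u' < a`. So
`K u ⊆ Lf s₀ s₀` (`Bead.right`) and `K u'` is disjoint from `Lf s₀ s₀` (`Bead.left`). -/
theorem exists_beads {V : Type u} [Fintype V] {H : SimpleGraph V} {a : ℕ} {p : ℕ → V} (hp : PathSeq H a p) :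
    ∃ (Lf : ℕ → ℕ → Set V) (U : Finset ℕ) (r : ℕ → ℕ) (K : ℕ → Set V) (S W : ℕ → Finset V),
      (∀ u ∈ U, u < a ∧ Bead H a p Lf u (r u) (K u) (S u) (W u)) ∧ Spread r U ∧
      (∀ u ∈ U, ∀ u' ∈ U, u ≠ u' → Disjoint (K u) (K u')) ∧ a ≤ 401 * ∑ u ∈ U, r u := by
  obtain ⟨Lf, h1, h2, h3⟩ := exists_nested H a p
  have hb : ∀ u, ∃ (r : ℕ) (K : Set V) (S W : Finset V), u < a → Bead H a p Lf u r K S W := by
    intro u
    by_cases hu : u < a
    · obtain ⟨r, K, S, W, h⟩ := exists_bead hp h1 h2 h3 hu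
      exact ⟨r, K, S, W, fun _ => h⟩
    · exact ⟨0, ∅, ∅, ∅, fun h => absurd h hu⟩
  choose r K S W hB using hb
  obtain ⟨U, hUT, hsp, hcard⟩ := greedy r (Finset.range a) (fun u hu => by
    have h := hB u (Finset.mem_range.1 hu)
    exact h.pos.trans h.le)
  have hU : ∀ u ∈ U, u < a := fun u hu => Finset.mem_range.1 (hUT hu)
  have hlt : ∀ u ∈ U, ∀ u' ∈ U, u < u' → Disjoint (K u) (K u') := by
    intro u hu u' hu' huu
    obtain ⟨e1, e2⟩ := hsp u hu u' hu' huu
    have ha := hU u' hu'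
    have hr := (hB u (hU u hu)).right (u + 25 * r u) (u + 25 * r u) le_rfl le_rfl (by omega)
    have hl := (hB u' ha).left (u + 25 * r u) (u + 25 * r u) (by omega) (by omega)
    exact (Set.disjoint_of_subset_right hr hl).symm
  refine ⟨Lf, U, r, K, S, W, fun u hu => ⟨hU u hu, hB u (hU u hu)⟩, hsp, ?_, ?_⟩
  · intro u hu u' hu' hne
    rcases Nat.lt_or_gt_of_ne hne with h | h
    · exact hlt u hu u' hu' h
    · exact (hlt u' hu' u hu h).symm
  · rw [Finset.card_range, ← Finset.mul_sum] at hcard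
    exact hcard

end LC.Lin
end

section

/-! MP_6bc8af_co, linear bound: the theorems on attachments in the form used in the final part. -/

set_option autoImplicit false
set_option linter.unusedVariables false

open Classical

namespace LC.Lin

universe u

theorem longest_of_lng {V : Type u} {G : SimpleGraph V} {L : ℕ} {c : ℕ → V} (h : Lng G L c) :
    LB.Longest G L c := h

theorem mem_att_iff {V : Type u} {G : SimpleGraph V} {L : ℕ} {c : ℕ → V} {K : Set V} {i : ℕ} :
    i ∈ LB.att G L c K ↔ i < L ∧ ∃ x ∈ K, G.Adj (c i) x := by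
  unfold LB.att
  rw [Finset.mem_filter, Finset.mem_range]

theorem mem_off_iff {V : Type u} {L : ℕ} {c : ℕ → V} {v : V} : v ∈ LB.off L c ↔ v ∉ CS L c := by
  constructor
  · rintro h ⟨i, hi, hv⟩
    exact h i hi hv
  · intro h t ht hv
    exact h ⟨t, ht, hv⟩

theorem cyc_of_cycSeq {V : Type u} {G : SimpleGraph V} {L : ℕ} {c : ℕ → V} {n : ℕ} {z : ℕ → V}
    (h : CycSeq (del G (CS L c)) n z) :
    ∃ Z : List V, LB.IsCyc G (LB.off L c) Z ∧ ∀ i < n, z i ∈ Z := by
  have h3 := h.three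
  obtain ⟨l, h1, h2, h4⟩ := LB.pth_of_seq (G := G) (A := LB.off L c) (n - 1) z
    (fun i hi => by
      have := (h.adj i (by omega)).1
      unfold nx at this
      rwa [if_neg (by omega)] at this)
    (fun i hi => mem_off_iff.2 (h.adj i (by omega)).2.1)
    (fun i hi j hj hij => h.inj i (by omega) j (by omega) hij)
  refine ⟨l, ⟨h1.1, h1.2.1, by omega, ?_, h1.2.2.2.2⟩, fun i hi => (h4 _).2 ⟨i, by omega, rfl⟩⟩
  intro x y hx hy
  have e1 : x = z 0 := by
    have := h1.2.2.1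
    rw [hx] at this
    exact Option.some.inj this
  have e2 : y = z (n - 1) := by
    have := h1.2.2.2.1
    rw [hy] at this
    exact Option.some.inj this
  have := (h.adj (n - 1) (by omega)).1
  unfold nx at this
  rw [if_pos (by omega)] at this
  rw [e1, e2]
  exact this

/-- Every bead has weights. -/
theorem D_weights {V : Type u} [Fintype V] {G : SimpleGraph V} {k L : ℕ} {c : ℕ → V} (hG : IsKConn G k)
    (hk : 44 ≤ k) (hc : Lng G L c) {K : Set V} {S W : Finset V}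
    (con : ∀ v ∈ K, Comp (del G (CS L c)) K v = K) (dis : ∀ v ∈ K, v ∉ S)
    (nb : ∀ v ∈ K, ∀ w, (del G (CS L c)).Adj v w → w ∈ K ∨ w ∈ S) (hKC : ∀ v ∈ K, v ∉ CS L c)
    (card : S.card ≤ 10) (sub : ∀ v ∈ W, v ∈ K) (pos : 1 ≤ W.card)
    (cyc : W.card = 1 ∨ ∃ n z, CycSeq (del G (CS L c)) n z ∧ ∀ v ∈ W, ∃ i < n, z i = v) :
    ∃ w : ℕ → ℕ, (∀ i, w i ≤ W.card) ∧ (∀ i, 0 < w i → i < L ∧ Att G c K i) ∧
      k * W.card ≤ 4 * ∑ i ∈ Finset.range L, w i ∧
      ∀ i j, i ≠ j → 0 < w i → 0 < w j → w i ≤ 2 * cd L i j := by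
  have hkL : k ≤ L := by
    have := LB.k_lt hG (by omega) (longest_of_lng hc)
    omega
  have hE : LB.Encl G L c K S := by
    refine ⟨fun v hv => mem_off_iff.2 (hKC v hv), dis, fun x hx y hxy => ?_⟩
    by_cases hy : y ∈ CS L c
    · exact Or.inr (Or.inr hy)
    · rcases nb x hx y ⟨hxy, hKC x hx, hy⟩ with h | h
      · exact Or.inl h
      · exact Or.inr (Or.inl h)
  have key : ∃ w : ℕ → ℕ, LB.IsWt G L c k K W.card w := by
    rcases cyc with h1 | ⟨n, z, hz, hW⟩
    · have hne : K.Nonempty := by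
        obtain ⟨v, hv⟩ := Finset.card_pos.1 (by omega : 0 < W.card)
        exact ⟨v, sub v hv⟩
      rw [h1]
      exact LB.weights_one hG hk (longest_of_lng hc) hkL card hE hne
    · obtain ⟨Z, hZ, hzZ⟩ := cyc_of_cycSeq hz
      refine LB.weights hG hk (longest_of_lng hc) hkL card hE hZ (fun v hv => ⟨?_, sub v hv⟩)
      obtain ⟨i, hi, rfl⟩ := hW v hv
      exact hzZ i hi
  obtain ⟨w, h1, h2, h3, h4⟩ := key
  refine ⟨w, h1, fun i hi => ?_, ?_, h4⟩
  · obtain ⟨h5, v, hv, h6⟩ := mem_att_iff.1 (h2 i hi)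
    exact ⟨h5, v, hv, h6⟩
  · rw [mul_comm]
    exact h3

theorem connSet_of_comp {V : Type u} {G : SimpleGraph V} {X K : Set V}
    (con : ∀ v ∈ K, Comp (del G X) K v = K) : LB.ConnSet G K := by
  intro x hx y hy
  have h : y ∈ Comp (del G X) K x := by rw [con x hx]; exact hy
  obtain ⟨n, f, h0, hn, hadj, hK⟩ := h
  obtain ⟨l, hl, -⟩ := LB.pth_of_walk (G := G) (A := K) n f (fun i hi => (hadj i hi).1) hK
  rw [h0, hn] at hl
  exact ⟨l, hl⟩

/-- Attachments of two beads are far. -/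
theorem D_inter {V : Type u} [Fintype V] {G : SimpleGraph V} {L : ℕ} {c : ℕ → V} (hc : Lng G L c) {a : ℕ} {p : ℕ → V}
    (hp : PathSeq (del G (CS L c)) a p) (hpC : ∀ q < a, p q ∉ CS L c) {K K' : Set V}
    (con : ∀ v ∈ K, Comp (del G (CS L c)) K v = K) (con' : ∀ v ∈ K', Comp (del G (CS L c)) K' v = K')
    (hK : ∃ q < a, p q ∈ K) (hK' : ∃ q < a, p q ∈ K') (hd : Disjoint K K')
    (hKC : ∀ v ∈ K, v ∉ CS L c) (hKC' : ∀ v ∈ K', v ∉ CS L c) {i j : ℕ} (hi : i < L) (hj : j < L) (hij : i ≠ j)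
    (hAi : Att G c K i) (hAj : Att G c K' j) :
    ∃ q q', q < a ∧ q' < a ∧ p q ∈ K ∧ p q' ∈ K' ∧ max q q' - min q q' + 2 ≤ cd L i j := by
  refine LB.inter_core (longest_of_lng hc) ⟨hp.inj, fun i hi => (hp.adj i hi).1,
    fun i hi => mem_off_iff.2 (hpC i hi)⟩ (connSet_of_comp con) (connSet_of_comp con') hK hK'
    (fun v hv => mem_off_iff.2 (hKC v hv)) (fun v hv => mem_off_iff.2 (hKC' v hv))
    (fun v hv hv' => Set.disjoint_left.1 hd hv hv') hij ?_ ?_
  · exact mem_att_iff.2 ⟨hi, hAi⟩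
  · exact mem_att_iff.2 ⟨hj, hAj⟩

/-- Cyclic sum. -/
theorem D_sum {L : ℕ} (w : ℕ → ℕ)
    (h3 : ∀ i < L, ∀ j < L, i ≠ j → 0 < w i → 0 < w j → w i ≤ 3 * cd L i j)
    (h2 : ∃ i < L, ∃ j < L, i ≠ j ∧ 0 < w i ∧ 0 < w j) : ∑ i ∈ Finset.range L, w i ≤ 3 * L := by
  have h := LB.cyc_sum L (fun i => if i < L then w i else 0) ?_ ?_ ?_
  · refine le_trans (le_of_eq (Finset.sum_congr rfl fun i hi => ?_)) h
    rw [Finset.mem_range] at hi
    simp only [hi, if_true]
  · intro i hi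
    by_contra hcon
    simp only [hcon, if_false, lt_self_iff_false] at hi
  · obtain ⟨i, hi, j, hj, hij, wi, wj⟩ := h2
    exact ⟨i, j, hij, by simp only [hi, if_true]; exact wi, by simp only [hj, if_true]; exact wj⟩
  · intro i j hij hi hj
    have hi' : i < L := by
      by_contra hcon
      simp only [hcon, if_false, lt_self_iff_false] at hi
    have hj' : j < L := by
      by_contra hcon
      simp only [hcon, if_false, lt_self_iff_false] at hj
    simp only [hi', hj', if_true] at hi hj ⊢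
    exact h3 i hi' j hj' hij hi hj

end LC.Lin
end

section

/-! MP_6bc8af_co, linear bound, TASK E02: the main inequality. -/

namespace LC.Lin

universe u

/-- **The main inequality.** A path with `a` vertices outside a longest cycle of length `L` in a `k`-connected graph: `k a ≤ 7939800 L`.

PROOF. Let `H = del G (CS L c)`. `exists_beads` gives `Lf, U, r, K, S, W`. For `u ∈ U` every `v ∈ K u` is not in `CS L c`: there is `v₀ ∈ W u` (`Bead.pos`), `v₀ ∈ K u`,
`v₀ = p q ∉ CS L c` (`Bead.sub`, `hpC`); by `Bead.con` there is a walk of `H` from `v₀` to `v`: either `v = v₀` or `v` is the end of an edge of `H`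
(so not in `CS L c`, definition of `del`). So `D_weights` applies: choose `w u`. `combine` applies: `hw`: `w u i ≤ (W u).card ≤ r u` (`Bead.le`). `h1`: `D_weights`. `h2`: let
`u < u'`, `0 < w u i`, `0 < w u' j`, `i ≠ j`: `D_inter` for `K u`, `K u'` (disjoint; they contain some `p q` by `Bead.sub`) gives `q`, `q'` with
`q' - q + 2 ≤ cd L i j` (from `max - min`), `u ≥ q - 25 r u`, i.e. `q ≤ u + 25 r u`, and `u' ≤ q' + 25 r u'` (`Bead.win`). So for `Wt i = ∑ u ∈ U, w u i`: `Wt i ≤ 3 cd L i j` for `i ≠ j` with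
`0 < Wt j`. There are two indices with `0 < Wt`: `U` is nonempty (`1 ≤ a ≤ 401 Σ r`), take `u ∈ U` and `two_pos`. So `D_sum`: `∑ i < L, Wt i ≤ 3 L`. Exchange of sums:
`∑ u ∈ U, k * (W u).card ≤ 4 ∑ i, Wt i ≤ 12 L`. Finally `a ≤ 401 Σ r u ≤ 401 * 1650 * Σ (W u).card` (`Bead.ge`), so `k a ≤ 401 * 1650 * 12 * L = 7939800 L`. -/
theorem main_ineq {V : Type u} [Fintype V] {G : SimpleGraph V} {k L : ℕ} {c : ℕ → V} (hG : IsKConn G k)
    (hk : 44 ≤ k) (hc : Lng G L c) {a : ℕ} {p : ℕ → V} (hp : PathSeq (del G (CS L c)) a p)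
    (hpC : ∀ q < a, p q ∉ CS L c) (ha : 1 ≤ a) : k * a ≤ 7939800 * L := by
  obtain ⟨Lf, U, r, K, S, W, hB, hSp, hdis, hsum⟩ := exists_beads hp
  have hKC : ∀ u ∈ U, ∀ v ∈ K u, v ∉ CS L c := by
    intro u hu v hv
    obtain ⟨v₀, hv₀⟩ := Finset.card_pos.1 (hB u hu).2.pos
    obtain ⟨hv₀K, q, hq, hqv⟩ := (hB u hu).2.sub v₀ hv₀
    have hv₀C : v₀ ∉ CS L c := by
      rw [← hqv]
      exact hpC q hq
    have h1 := (hB u hu).2.con v₀ hv₀K
    rw [← h1] at hv
    obtain ⟨n, h, h0, hn, hadj, -⟩ := hv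
    rcases n with _ | n
    · rw [← hn, h0]
      exact hv₀C
    · have h2 := hadj n (Nat.lt_succ_self n)
      rw [← hn]
      exact h2.2.2
  have hD : ∀ u : ℕ, ∃ w : ℕ → ℕ, u ∈ U → (∀ i, w i ≤ (W u).card) ∧
      (∀ i, 0 < w i → i < L ∧ Att G c (K u) i) ∧
      k * (W u).card ≤ 4 * ∑ i ∈ Finset.range L, w i ∧
      ∀ i j, i ≠ j → 0 < w i → 0 < w j → w i ≤ 2 * cd L i j := by
    intro u
    by_cases hu : u ∈ U
    · obtain ⟨w, hw⟩ := D_weights (K := K u) (S := S u) (W := W u) hG hk hc (hB u hu).2.con (hB u hu).2.dis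
        (hB u hu).2.nb (hKC u hu) (hB u hu).2.card (fun v hv => ((hB u hu).2.sub v hv).1) (hB u hu).2.pos
        (hB u hu).2.cyc
      exact ⟨w, fun _ => hw⟩
    · exact ⟨fun _ => 0, fun h => absurd h hu⟩
  choose w hw using hD
  have hpK : ∀ u ∈ U, ∃ q < a, p q ∈ K u := by
    intro u hu
    obtain ⟨v₀, hv₀⟩ := Finset.card_pos.1 (hB u hu).2.pos
    obtain ⟨hv₀K, q, hq, hqv⟩ := (hB u hu).2.sub v₀ hv₀
    refine ⟨q, hq, ?_⟩
    rw [hqv]
    exact hv₀K
  have hcomb : ∀ i j, i ≠ j → 0 < ∑ u ∈ U, w u j → ∑ u ∈ U, w u i ≤ 3 * cd L i j := by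
    intro i j hij hj
    refine combine hSp (fun u hu i => ((hw u hu).1 i).trans (hB u hu).2.le)
      (fun u hu => (hw u hu).2.2.2) ?_ hij hj
    intro u hu u' hu' huu i j hij hi hj
    obtain ⟨q, q', hq, hq', hqK, hq'K, hqq⟩ := D_inter hc hp hpC (hB u hu).2.con (hB u' hu').2.con
      (hpK u hu) (hpK u' hu') (hdis u hu u' hu' (ne_of_lt huu)) (hKC u hu) (hKC u' hu')
      ((hw u hu).2.1 i hi).1 ((hw u' hu').2.1 j hj).1 hij ((hw u hu).2.1 i hi).2 ((hw u' hu').2.1 j hj).2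
    have h1 := (hB u hu).2.win q hq hqK
    have h2 := (hB u' hu').2.win q' hq' hq'K
    have h3 : q' ≤ q + (max q q' - min q q') := by omega
    omega
  have hS : ∑ i ∈ Finset.range L, ∑ u ∈ U, w u i ≤ 3 * L := by
    apply D_sum
    · intro i _ j _ hij _ hj
      exact hcomb i j hij hj
    · have hne : U.Nonempty := by
        rw [Finset.nonempty_iff_ne_empty]
        intro h
        rw [h] at hsum
        simp at hsum
        omega
      obtain ⟨u, hu⟩ := hne
      obtain ⟨i, hi, j, hj, hij, h1, h2⟩ := two_pos hk (hB u hu).2.pos (hw u hu).1 (hw u hu).2.2.1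
      refine ⟨i, hi, j, hj, hij, ?_, ?_⟩
      · exact lt_of_lt_of_le h1 (Finset.single_le_sum (f := fun u => w u i) (fun _ _ => Nat.zero_le _) hu)
      · exact lt_of_lt_of_le h2 (Finset.single_le_sum (f := fun u => w u j) (fun _ _ => Nat.zero_le _) hu)
  have hT : ∑ u ∈ U, k * (W u).card ≤ 12 * L := by
    have h1 : ∑ u ∈ U, k * (W u).card ≤ ∑ u ∈ U, 4 * ∑ i ∈ Finset.range L, w u i :=
      Finset.sum_le_sum fun u hu => (hw u hu).2.2.1
    have h2 : ∑ u ∈ U, 4 * ∑ i ∈ Finset.range L, w u i = 4 * ∑ i ∈ Finset.range L, ∑ u ∈ U, w u i := by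
      rw [← Finset.mul_sum, Finset.sum_comm]
    rw [h2] at h1
    refine h1.trans ?_
    calc 4 * ∑ i ∈ Finset.range L, ∑ u ∈ U, w u i ≤ 4 * (3 * L) := Nat.mul_le_mul_left _ hS
      _ = 12 * L := by ring
  have hR : ∑ u ∈ U, r u ≤ 1650 * ∑ u ∈ U, (W u).card := by
    rw [Finset.mul_sum]
    exact Finset.sum_le_sum fun u hu => (hB u hu).2.ge
  rw [← Finset.mul_sum] at hT
  calc k * a ≤ k * (401 * (1650 * ∑ u ∈ U, (W u).card)) := by
        apply Nat.mul_le_mul_left
        omega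
    _ = 661650 * (k * ∑ u ∈ U, (W u).card) := by ring
    _ ≤ 661650 * (12 * L) := Nat.mul_le_mul_left _ hT
    _ = 7939800 * L := by ring

end LC.Lin
end
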