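import Pool.Agent.Lib.MP_6bc8af_co.Mg.G008
import Pool.Agent.Lib.MP_6bc8af_co.Mg.G011

section

/-! TASK LB T03b of MP_6bc8af_co: adding an ear. -/

set_option autoImplicit false

open Classical

namespace LB

universe u

private theorem split' {V : Type u} {G : SimpleGraph V} {A : Set V} {x y z : V} {l₁ l₂ : List V}
    (h : IsPth G A x y (l₁ ++ z :: l₂)) : IsPth G A x z (l₁ ++ [z]) ∧ IsPth G A z y (z :: l₂) := by
  obtain ⟨h1, h2, h3, h4, h5⟩ := h
  refine ⟨⟨?_, ?_, ?_, ?_, ?_⟩, ⟨?_, ?_, ?_, ?_, ?_⟩⟩
  · refine h1.sublist ?_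
    exact List.Sublist.append (List.Sublist.refl _) (List.singleton_sublist.2 (List.mem_cons_self))
  · exact (List.isChain_split.1 h2).1
  · rw [← h3]
    cases l₁ <;> rfl
  · simp
  · intro v hv
    apply h5
    rw [List.mem_append] at hv ⊢
    rcases hv with h | h
    · exact Or.inl h
    · rw [List.mem_singleton] at h
      right
      rw [h]
      exact List.mem_cons_self
  · exact (List.nodup_append.1 h1).2.1
  · exact (List.isChain_split.1 h2).2
  · rfl
  · rw [← h4]
    rw [List.getLast?_append, List.getLast?_cons]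
    rfl
  · intro v hv
    exact h5 v (List.mem_append_right _ hv)

private theorem toB {V : Type u} {G : SimpleGraph V} {h : ℕ} {B : Set V} (hB : Long G h B) {x u w : V} {l : List V}
    (hx : x ∈ B) (hl : IsPth G Bᶜ u w l) (hxu : G.Adj x u) {a b : V} (ha : a ∈ l) (hb : b ∈ B) (hxb : x ≠ b) :
    ∃ m, IsPth G (B ∪ {v | v ∈ l}) a b m ∧ h ≤ m.length := by
  obtain ⟨l₁, l₂, rfl⟩ := List.append_of_mem ha
  obtain ⟨h1, -⟩ := split' hl
  obtain ⟨m, hm, hmh⟩ := hB x hx b hb hxb
  have h2 : IsPth G (B ∪ {v | v ∈ l₁ ++ a :: l₂}) a u (l₁ ++ [a]).reverse := by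
    refine h1.self.reverse.mono ?_
    intro v hv
    right
    have hv' : v ∈ l₁ ++ [a] := hv
    change v ∈ l₁ ++ a :: l₂
    rw [List.mem_append] at hv' ⊢
    rcases hv' with h | h
    · exact Or.inl h
    · rw [List.mem_singleton] at h
      right
      rw [h]
      exact List.mem_cons_self
  refine ⟨_, h2.append (hm.mono Set.subset_union_left) hxu.symm ?_, ?_⟩
  · intro v hv hvm
    exact h1.2.2.2.2 v (List.mem_reverse.1 hv) (hm.2.2.2.2 v hvm)
  · rw [List.length_append]
    omega

private theorem both {V : Type u} {G : SimpleGraph V} {h : ℕ} {B : Set V} (hB : Long G h B) {x y u w : V}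
    (hx : x ∈ B) (hy : y ∈ B) (hxy : x ≠ y) {a b : V} {l₁ k l₂ : List V}
    (hl : IsPth G Bᶜ u w (l₁ ++ a :: (k ++ b :: l₂))) (hxu : G.Adj x u) (hwy : G.Adj w y) :
    ∃ m, IsPth G (B ∪ {v | v ∈ l₁ ++ a :: (k ++ b :: l₂)}) a b m ∧ h ≤ m.length := by
  obtain ⟨h1, h2⟩ := split' hl
  have h2' : IsPth G Bᶜ a w ((a :: k) ++ b :: l₂) := h2
  obtain ⟨-, h3⟩ := split' h2'
  obtain ⟨m, hm, hmh⟩ := hB x hx y hy hxy
  have e1 : IsPth G (B ∪ {v | v ∈ l₁ ++ a :: (k ++ b :: l₂)}) a u (l₁ ++ [a]).reverse := by
    refine h1.self.reverse.mono ?_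
    intro v hv
    right
    have hv' : v ∈ l₁ ++ [a] := hv
    change v ∈ l₁ ++ a :: (k ++ b :: l₂)
    rw [List.mem_append] at hv' ⊢
    rcases hv' with h | h
    · exact Or.inl h
    · rw [List.mem_singleton] at h
      right
      rw [h]
      exact List.mem_cons_self
  have e2 : IsPth G (B ∪ {v | v ∈ l₁ ++ a :: (k ++ b :: l₂)}) w b (b :: l₂).reverse := by
    refine h3.self.reverse.mono ?_
    intro v hv
    right
    have hv' : v ∈ b :: l₂ := hv
    change v ∈ l₁ ++ a :: (k ++ b :: l₂)
    exact List.mem_append_right _ (List.mem_cons_of_mem _ (List.mem_append_right _ hv'))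
  have e3 := e1.append (hm.mono Set.subset_union_left) hxu.symm (by
    intro v hv hvm
    exact h1.2.2.2.2 v (List.mem_reverse.1 hv) (hm.2.2.2.2 v hvm))
  refine ⟨_, e3.append e2 hwy.symm ?_, ?_⟩
  · intro v hv hvm
    rw [List.mem_reverse] at hvm
    rcases List.mem_append.1 hv with h | h
    · rw [List.mem_reverse] at h
      have hnd := hl.1
      have hnd' : ((l₁ ++ [a]) ++ (k ++ b :: l₂)).Nodup := by simpa using hnd
      exact (List.nodup_append.1 hnd').2.2 v h v (List.mem_append_right _ hvm) rfl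
    · exact h3.2.2.2.2 v hvm (hm.2.2.2.2 v h)
  · rw [List.length_append, List.length_append]
    omega

/-- Adding an ear.
PROOF. Let `a ≠ b` be in the new set. If both are in `B` use `hB` and `IsPth.mono`. If `a` is on the ear and `b ∈ B`: the ear `l` goes from
`u` (adjacent to `x ∈ B`) to `w` (adjacent to `y ∈ B`). One of `x`, `y` is different from `b`, say `x ≠ b` (the other case is
symmetric: `IsPth.reverse`). Split `l` at `a` (`IsPth.split`), reverse the first part: a path from `a` to `u` on the ear; append by the edge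
`u x` the path in `B` from `x` to `b` with at least `h` vertices (`IsPth.append`; disjoint, as the ear is outside of `B`).
Same for `a ∈ B`, `b` on the ear (reverse). If both are on the ear, `a ≠ b`: split `l` at `a`; `b` is in the first or in the
second part; by symmetry (exchange `a` and `b`) `a` is before `b`: `l = l₁ ++ a :: l₂ ++ b :: l₃`. Take
`(l₁ ++ [a]).reverse`, then the edge `u x`, the path in `B` from `x` to `y` with at least `h` vertices, the edge `y w`, and
`(b :: l₃).reverse`. -/
theorem long_ear {V : Type u} {G : SimpleGraph V} {h : ℕ} {B : Set V} (hB : Long G h B) {x y u w : V} {l : List V}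
    (hx : x ∈ B) (hy : y ∈ B) (hxy : x ≠ y) (hl : IsPth G Bᶜ u w l) (hxu : G.Adj x u) (hwy : G.Adj w y) :
    Long G h (B ∪ {v | v ∈ l}) := by
  have key : ∀ a ∈ l, ∀ b ∈ B, ∃ m, IsPth G (B ∪ {v | v ∈ l}) a b m ∧ h ≤ m.length := by
    intro a ha b hb
    by_cases hxb : x = b
    · have hyb : y ≠ b := fun h => hxy (hxb.trans h.symm)
      obtain ⟨m, hm, hmh⟩ := toB hB hy hl.reverse hwy.symm (List.mem_reverse.2 ha) hb hyb
      refine ⟨m, hm.mono ?_, hmh⟩
      intro v hv
      rcases hv with h | h
      · exact Or.inl h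
      · exact Or.inr (List.mem_reverse.1 h)
    · exact toB hB hx hl hxu ha hb hxb
  intro a ha b hb hab
  rcases ha with ha | ha
  · rcases hb with hb | hb
    · obtain ⟨m, hm, hmh⟩ := hB a ha b hb hab
      exact ⟨m, hm.mono Set.subset_union_left, hmh⟩
    · obtain ⟨m, hm, hmh⟩ := key b hb a ha
      exact ⟨m.reverse, hm.reverse, by rw [List.length_reverse]; exact hmh⟩
  · rcases hb with hb | hb
    · exact key a ha b hb
    · have ha' : a ∈ l := ha
      have hb' : b ∈ l := hb
      obtain ⟨l₁, l₂, rfl⟩ := List.append_of_mem ha'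
      rcases List.mem_append.1 hb' with h1 | h1
      · obtain ⟨k, m, rfl⟩ := List.append_of_mem h1
        have hl2 : IsPth G Bᶜ u w (k ++ b :: (m ++ a :: l₂)) := by simpa using hl
        obtain ⟨q, hq, hqh⟩ := both hB hx hy hxy hl2 hxu hwy
        refine ⟨q.reverse, hq.reverse.mono ?_, by rw [List.length_reverse]; exact hqh⟩
        intro v hv
        simpa using hv
      · rcases List.mem_cons.1 h1 with h2 | h2
        · exact absurd h2.symm hab
        · obtain ⟨k, m, rfl⟩ := List.append_of_mem h2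
          exact both hB hx hy hxy hl hxu hwy

end LB
end

section

/-! TASK LB T03c of MP_6bc8af_co: maximal sets with long paths. -/

set_option autoImplicit false

open Classical

namespace LB

universe u

/-- A maximal set with long paths has no ears.
PROOF. `V` is finite: among the sets `B` with `Z ⊆ B ⊆ Ω`, `Long G h B` take one of maximal `ncard` (`Set.Finite.exists_maximal...`,
or `Finite.exists_max`, or strong induction on `Fintype.card V - B.ncard`). If there is an ear as in the last clause, `long_ear`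
(the vertices of `l` are in `Ω \ B`, so in `Bᶜ`) gives a bigger set (`u ∈ l` is not in `B`), a contradiction. -/
theorem exists_max_long {V : Type u} [Fintype V] {G : SimpleGraph V} {h : ℕ} {Z Ω : Set V} (hZ : Long G h Z)
    (hZΩ : Z ⊆ Ω) : ∃ B : Set V, Z ⊆ B ∧ B ⊆ Ω ∧ Long G h B ∧
      ∀ x ∈ B, ∀ y ∈ B, x ≠ y → ∀ (u w : V) (l : List V), IsPth G (Ω \ B) u w l → G.Adj x u → ¬ G.Adj w y := by
  obtain ⟨B, ⟨h1, h2, h3⟩, hmax⟩ := Set.exists_max_image
    {B : Set V | Z ⊆ B ∧ B ⊆ Ω ∧ Long G h B} Set.ncard (Set.toFinite _)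
    ⟨Z, subset_rfl, hZΩ, hZ⟩
  refine ⟨B, h1, h2, h3, fun x hx y hy hxy u w l hl hxu hwy => ?_⟩
  have hl' : IsPth G Bᶜ u w l := hl.mono fun v hv => hv.2
  have h4 := long_ear h3 hx hy hxy hl' hxu hwy
  have h5 : B ∪ {v | v ∈ l} ⊆ Ω := by
    intro v hv
    rcases hv with hv | hv
    · exact h2 hv
    · exact (hl.2.2.2.2 v hv).1
  have h6 := hmax (B ∪ {v | v ∈ l}) ⟨h1.trans Set.subset_union_left, h5, h4⟩
  have hu : u ∈ l := hl.ends.1
  have huB : u ∉ B := (hl.2.2.2.2 u hu).2
  have h7 : B ⊂ B ∪ {v | v ∈ l} := by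
    refine (Set.ssubset_iff_of_subset Set.subset_union_left).2 ⟨u, Or.inr hu, huB⟩
  have h8 := Set.ncard_lt_ncard h7 (Set.toFinite _)
  exact absurd h6 (not_le.2 h8)

end LB
end

section

/-! TASK LB T01c of MP_6bc8af_co: paths from sequences. -/

set_option autoImplicit false

open Classical

namespace LB

universe u

/-- A walk gives a path.
PROOF. Induction on `n`, for the statement: if `h 0, ..., h n` is a walk inside `A` then there is `l` with `IsPth G A (h 0) (h n) l` and
`∀ v ∈ l, ∃ i ≤ n, h i = v`. `n = 0`: `IsPth.single`. Step: `l` from `h 0` to `h n`. If `h (n + 1) ∈ l`, take the first part of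
`IsPth.split`. Otherwise `IsPth.append` with `[h (n + 1)]`. -/
theorem pth_of_walk {V : Type u} {G : SimpleGraph V} {A : Set V} (n : ℕ) (h : ℕ → V)
    (hadj : ∀ i < n, G.Adj (h i) (h (i + 1))) (hA : ∀ i ≤ n, h i ∈ A) :
    ∃ l : List V, IsPth G A (h 0) (h n) l ∧ ∀ v ∈ l, ∃ i ≤ n, h i = v := by
  induction n with
  | zero =>
    refine ⟨[h 0], IsPth.single G (hA 0 le_rfl), fun v hv => ⟨0, le_rfl, ?_⟩⟩
    exact (List.mem_singleton.mp hv).symm
  | succ n ih =>
    obtain ⟨l, hl, hl2⟩ := ih (fun i hi => hadj i (by omega)) (fun i hi => hA i (by omega))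
    by_cases hmem : h (n + 1) ∈ l
    · obtain ⟨l₁, l₂, hll, h1, _⟩ := hl.split hmem
      refine ⟨l₁ ++ [h (n + 1)], h1, fun v hv => ?_⟩
      have hvl : v ∈ l := by
        rcases List.mem_append.mp hv with h6 | h6
        · rw [hll]
          exact List.mem_append_left _ h6
        · rw [List.mem_singleton] at h6
          rw [h6]
          exact hmem
      obtain ⟨i, hi, hiv⟩ := hl2 v hvl
      exact ⟨i, by omega, hiv⟩
    · refine ⟨l ++ [h (n + 1)], hl.append (IsPth.single G (hA (n + 1) le_rfl))
        (hadj n (Nat.lt_succ_self n)) ?_, fun v hv => ?_⟩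
      · intro v hv hv'
        rw [List.mem_singleton] at hv'
        exact hmem (hv' ▸ hv)
      · rcases List.mem_append.mp hv with h6 | h6
        · obtain ⟨i, hi, hiv⟩ := hl2 v h6
          exact ⟨i, by omega, hiv⟩
        · exact ⟨n + 1, le_rfl, (List.mem_singleton.mp h6).symm⟩

/-- An injective walk is a path.
PROOF. `l = (List.range (n + 1)).map h`: `List.nodup_map_iff_inj_on` (or `List.Nodup.map_on`), `List.isChain_map` and
`List.isChain_range_succ`-like facts; or induction on `n` with `IsPth.append`. -/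
theorem pth_of_seq {V : Type u} {G : SimpleGraph V} {A : Set V} (n : ℕ) (h : ℕ → V)
    (hadj : ∀ i < n, G.Adj (h i) (h (i + 1))) (hA : ∀ i ≤ n, h i ∈ A)
    (hinj : ∀ i ≤ n, ∀ j ≤ n, h i = h j → i = j) :
    ∃ l : List V, IsPth G A (h 0) (h n) l ∧ l.length = n + 1 ∧ ∀ v, v ∈ l ↔ ∃ i ≤ n, h i = v := by
  induction n with
  | zero =>
    refine ⟨[h 0], IsPth.single G (hA 0 le_rfl), rfl, fun v => ⟨fun hv => ⟨0, le_rfl, ?_⟩, ?_⟩⟩
    · exact (List.mem_singleton.mp hv).symm
    · rintro ⟨i, hi, rfl⟩
      rw [Nat.le_zero.mp hi]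
      exact List.mem_singleton.mpr rfl
  | succ n ih =>
    obtain ⟨l, hl, hlen, hl2⟩ := ih (fun i hi => hadj i (by omega)) (fun i hi => hA i (by omega))
      (fun i hi j hj hij => hinj i (by omega) j (by omega) hij)
    have hmem : h (n + 1) ∉ l := by
      intro h1
      obtain ⟨i, hi, hiv⟩ := (hl2 _).mp h1
      have h2 := hinj i (by omega) (n + 1) le_rfl hiv
      omega
    refine ⟨l ++ [h (n + 1)], hl.append (IsPth.single G (hA (n + 1) le_rfl))
      (hadj n (Nat.lt_succ_self n)) ?_, ?_, fun v => ⟨fun hv => ?_, ?_⟩⟩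
    · intro v hv hv'
      rw [List.mem_singleton] at hv'
      exact hmem (hv' ▸ hv)
    · rw [List.length_append, hlen]
      rfl
    · rcases List.mem_append.mp hv with h6 | h6
      · obtain ⟨i, hi, hiv⟩ := (hl2 v).mp h6
        exact ⟨i, by omega, hiv⟩
      · exact ⟨n + 1, le_rfl, (List.mem_singleton.mp h6).symm⟩
    · rintro ⟨i, hi, rfl⟩
      rcases Nat.lt_or_ge n i with h6 | h6
      · have h7 : i = n + 1 := by omega
        rw [h7]
        exact List.mem_append_right _ (List.mem_singleton.mpr rfl)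
      · exact List.mem_append_left _ ((hl2 _).mpr ⟨i, h6, rfl⟩)

end LB
end

section

/-! TASK LB T02b of MP_6bc8af_co: a path outside of a longest cycle between neighbours of two vertices of the cycle is short. -/

set_option autoImplicit false

open Classical

namespace LB

universe u

private theorem le_of_closed {V : Type u} {G : SimpleGraph V} {L : ℕ} {c : ℕ → V} (hC : Longest G L c) {a b : V}
    {m : List V} (hm : IsPth G Set.univ a b m) (hab : G.Adj b a) (h3 : 3 ≤ m.length) : m.length ≤ L := by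
  have hcyc : IsCyc G Set.univ m := by
    refine ⟨hm.1, hm.2.1, h3, ?_, hm.2.2.2.2⟩
    intro x y hx hy
    have h1 := hm.2.2.1
    have h2 := hm.2.2.2.1
    rw [h1] at hx
    rw [h2] at hy
    cases hx
    cases hy
    exact hab
  obtain ⟨c', hc'⟩ := hcyc.cycSeq
  exact hC.2 _ c' hc'

/-- **The gap lemma.**
PROOF. Let `n = l.length ≥ 1`. First inequality: the list
`m = (List.range (i + 1)).map c ++ l ++ ((List.range (L - j)).map (fun t => c (j + t)))` is a cycle: its vertices are different
(`hC.1.inj`, `l` is nodup and outside of the cycle), consecutive ones are adjacent (`hC.1.adj`, `hx`, `hy.symm`), and the last vertex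
`c (L - 1)` is adjacent to the first `c 0` (if `L - 1 = j` and `i = 0` this is the same: `nx L (L - 1) = 0`). Its length is
`(i + 1) + n + (L - j)`; as it is at least `3` (if `i + 1 + n + (L - j) ≤ 2` then `i = 0`, `n = 1`, `L - j ≤ 0`, impossible) and
`hC.2` gives `(i + 1) + n + (L - j) ≤ L`, i.e. `n + 1 ≤ j - i`.
Second inequality: the list `(List.range (j - i + 1)).map (fun t => c (i + t)) ++ l.reverse` is a cycle (`c j` is adjacent to `y`, the
first vertex of `l.reverse`; its last vertex `x` is adjacent to `c i`), of length `(j - i + 1) + n ≥ 3`; so `j - i + 1 + n ≤ L`.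
It may be easier to use sequences: define the new cyclic sequence by cases (`fun t => if t ≤ i then c t else if t ≤ i + n then
l.getD (t - i - 1) x else c (j + (t - i - n - 1))`). -/
theorem gap_lt {V : Type u} {G : SimpleGraph V} {L : ℕ} {c : ℕ → V} (hC : Longest G L c) {i j : ℕ} (hij : i < j)
    (hj : j < L) {x y : V} {l : List V} (hl : IsPth G (off L c) x y l) (hx : G.Adj (c i) x) (hy : G.Adj (c j) y) :
    l.length + 1 ≤ j - i ∧ l.length + 1 ≤ L - (j - i) := by
  have hadj : ∀ t, t + 1 < L → G.Adj (c t) (c (t + 1)) := by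
    intro t ht
    have h := hC.1.adj t (by omega)
    unfold LC.nx at h
    rw [if_neg (by omega)] at h
    exact h
  have hlast : G.Adj (c (L - 1)) (c 0) := by
    have h3 := hC.1.three
    have h := hC.1.adj (L - 1) (by omega)
    unfold LC.nx at h
    rw [if_pos (by omega)] at h
    exact h
  have hoff : ∀ t < L, c t ∉ l := fun t ht hmem => hl.2.2.2.2 _ hmem t ht rfl
  have hn : 1 ≤ l.length := hl.ends.2.2
  have hlU : IsPth G Set.univ x y l := hl.mono (Set.subset_univ _)
  obtain ⟨p, hp, hpl, hpm⟩ := pth_of_seq (G := G) (A := Set.univ) i c (fun t ht => hadj t (by omega))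
    (fun _ _ => Set.mem_univ _) (fun a ha b hb h => hC.1.inj a (by omega) b (by omega) h)
  obtain ⟨r, hr, hrl, hrm⟩ := pth_of_seq (G := G) (A := Set.univ) (L - 1 - j) (fun t => c (j + t))
    (fun t ht => hadj (j + t) (by omega))
    (fun _ _ => Set.mem_univ _) (fun a ha b hb h => by
      have := hC.1.inj (j + a) (by omega) (j + b) (by omega) h
      omega)
  have e1 : j + (L - 1 - j) = L - 1 := by omega
  simp only [e1, Nat.add_zero] at hr
  constructor
  · have h1 := hp.append hlU hx (by
      intro v hv hv'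
      obtain ⟨t, ht, rfl⟩ := (hpm v).1 hv
      exact hoff t (by omega) hv')
    have h2 := h1.append hr hy.symm (by
      intro v hv hv'
      obtain ⟨t, ht, rfl⟩ := (hrm v).1 hv'
      rcases List.mem_append.1 hv with h | h
      · obtain ⟨s, hs, hst⟩ := (hpm _).1 h
        have := hC.1.inj s (by omega) (j + t) (by omega) hst
        omega
      · exact hoff (j + t) (by omega) h)
    have h3 := le_of_closed hC h2 hlast (by
      rw [List.length_append, List.length_append]
      omega)
    rw [List.length_append, List.length_append] at h3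
    omega
  · obtain ⟨q, hq, hql, hqm⟩ := pth_of_seq (G := G) (A := Set.univ) (j - i) (fun t => c (i + t))
      (fun t ht => hadj (i + t) (by omega))
      (fun _ _ => Set.mem_univ _) (fun a ha b hb h => by
        have := hC.1.inj (i + a) (by omega) (i + b) (by omega) h
        omega)
    have e2 : i + (j - i) = j := by omega
    simp only [e2, Nat.add_zero] at hq
    have h1 := hq.append hlU.reverse hy (by
      intro v hv hv'
      obtain ⟨t, ht, rfl⟩ := (hqm v).1 hv
      exact hoff (i + t) (by omega) (List.mem_reverse.1 hv'))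
    have h3 := le_of_closed hC h1 hx.symm (by
      rw [List.length_append, List.length_reverse]
      omega)
    rw [List.length_append, List.length_reverse] at h3
    omega

/-- The gap lemma, symmetric form. PROOF. `gap_lt` for `i < j`; for `j < i` apply it to the reversed path (`IsPth.reverse`). -/
theorem gap {V : Type u} {G : SimpleGraph V} {L : ℕ} {c : ℕ → V} (hC : Longest G L c) {i j : ℕ} (hij : i ≠ j)
    (hi : i < L) (hj : j < L) {x y : V} {l : List V} (hl : IsPth G (off L c) x y l) (hx : G.Adj (c i) x)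
    (hy : G.Adj (c j) y) : l.length + 1 ≤ cd L i j := by
  unfold cd
  rcases lt_or_gt_of_ne hij with h | h
  · obtain ⟨h1, h2⟩ := gap_lt hC h hj hl hx hy
    rw [max_eq_right h.le, min_eq_left h.le]
    exact le_min h1 h2
  · obtain ⟨h1, h2⟩ := gap_lt hC h hi hl.reverse hy hx
    rw [List.length_reverse] at h1 h2
    rw [max_eq_left h.le, min_eq_right h.le]
    exact le_min h1 h2

end LB
end

section

/-! TASK LB T06a of MP_6bc8af_co: the pendant sets `Hv` of a bead. -/

set_option autoImplicit false

open Classical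

namespace LB

universe u

/-- the vertices that can be reached from `v` in `K` without using the vertices of `B` other than `v` -/
def Hv {V : Type u} (G : SimpleGraph V) (K B : Set V) (v : V) : Set V :=
  {x | ∃ l : List V, IsPth G (K \ (B \ {v})) v x l}

/-- PROOF. `[v]`. -/
theorem self_mem_Hv {V : Type u} {G : SimpleGraph V} {K B : Set V} {v : V} (hv : v ∈ K) : v ∈ Hv G K B v := by
  exact ⟨[v], IsPth.single G ⟨hv, fun h => h.2 rfl⟩⟩

/-- PROOF. The last vertex of the path is in `K \ (B \ {v})`. -/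
theorem Hv_subset {V : Type u} {G : SimpleGraph V} {K B : Set V} {v : V} : Hv G K B v ⊆ K \ (B \ {v}) := by
  rintro x ⟨l, hl⟩
  exact hl.2.2.2.2 x hl.ends.2.1

/-- All vertices of the path are in `Hv`. PROOF. Split the path (`IsPth.split`). -/
theorem Hv_path {V : Type u} {G : SimpleGraph V} {K B : Set V} {v x : V} (hx : x ∈ Hv G K B v) :
    ∃ l : List V, IsPth G (Hv G K B v) v x l := by
  obtain ⟨l, hl⟩ := hx
  refine ⟨l, hl.1, hl.2.1, hl.2.2.1, hl.2.2.2.1, fun z hz => ?_⟩
  obtain ⟨l₁, l₂, -, h1, -⟩ := hl.split hz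
  exact ⟨_, h1⟩

/-- The attachments of `Hv`.
PROOF. `nbr_count` for the set `Hv G K B v` and the finset `S' = S ∪ ((B ∩ K).toFinset \ {v})` (finite type; `Set.Finite.toFinset`), of card at most
`S.card + (B ∩ K).ncard - 1`. `Encl G L c (Hv G K B v) S'`: `Hv ⊆ K` is outside of the cycle and disjoint from `S` (`hK`) and from
`(B ∩ K) \ {v}` (`Hv_subset`). If `x ∈ Hv` is adjacent to `y`: by `hK`, `y ∈ K`, or `y ∈ S`, or `y` is on the cycle. If `y ∈ K` and
`y ∉ B \ {v}`: extend the path of `x` by `y` (if `y` is already on it, split), so `y ∈ Hv`; if `y ∈ B \ {v}` then `y ∈ S'`. -/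
theorem Hv_count {V : Type u} [Fintype V] {G : SimpleGraph V} {k L : ℕ} {c : ℕ → V} (hG : LC.IsKConn G k)
    (hC : Longest G L c) (hkL : k ≤ L) {K : Set V} {S : Finset V} (hK : Encl G L c K S) {B : Set V} {v : V}
    (hv : v ∈ K) (hvB : v ∈ B) : k + 1 ≤ S.card + (B ∩ K).ncard + (att G L c (Hv G K B v)).card := by
  have hfin : (B ∩ K).Finite := Set.toFinite _
  have hE : Encl G L c (Hv G K B v) (S ∪ hfin.toFinset.erase v) := by
    refine ⟨fun x hx => hK.1 (Hv_subset hx).1, fun x hx hxS => ?_, fun x hx y hxy => ?_⟩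
    · have h1 := Hv_subset hx
      rcases Finset.mem_union.1 hxS with h | h
      · exact hK.2.1 x h1.1 h
      · rw [Finset.mem_erase, Set.Finite.mem_toFinset] at h
        exact h1.2 ⟨h.2.1, h.1⟩
    · have h1 := Hv_subset hx
      rcases hK.2.2 x h1.1 y hxy with h | h | h
      · by_cases hy : y ∈ B \ {v}
        · right
          left
          exact Finset.mem_union_right _
            (Finset.mem_erase.2 ⟨hy.2, (Set.Finite.mem_toFinset hfin).2 ⟨hy.1, h⟩⟩)
        · left
          obtain ⟨l, hl⟩ := hx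
          by_cases hyl : y ∈ l
          · obtain ⟨l₁, l₂, -, h2, -⟩ := hl.split hyl
            exact ⟨_, h2⟩
          · refine ⟨_, hl.append (IsPth.single G ⟨h, hy⟩) hxy ?_⟩
            intro z hz hz'
            rw [List.mem_singleton] at hz'
            exact hyl (hz' ▸ hz)
      · exact Or.inr (Or.inl (Finset.mem_union_left _ h))
      · exact Or.inr (Or.inr h)
  have h2 := nbr_count hG hC.1 hkL hE ⟨v, self_mem_Hv hv⟩
  have h3 : (S ∪ hfin.toFinset.erase v).card ≤ S.card + (hfin.toFinset.erase v).card :=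
    Finset.card_union_le _ _
  have hmem : v ∈ hfin.toFinset := (Set.Finite.mem_toFinset hfin).2 ⟨hvB, hv⟩
  have h4 : (hfin.toFinset.erase v).card = hfin.toFinset.card - 1 := Finset.card_erase_of_mem hmem
  have h5 : 0 < hfin.toFinset.card := Finset.card_pos.2 ⟨v, hmem⟩
  have h6 : (B ∩ K).ncard = hfin.toFinset.card := Set.ncard_eq_toFinset_card _ hfin
  omega

end LB
end
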