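import Pool.Agent.Lib.MP_6bc8af_co.Mg.G001
import Pool.Agent.Lib.MP_6bc8af_co.Mg.G026

section

/-! TASK X02 of MP_6bc8af_co. -/

open Classical

namespace LC

universe u

private theorem X02_split {P : Type} {T : Finset P} {x : P → ℕ} {i : ℕ} (h0 : 0 < i) :
    cnt T x i = cnt T x (i - 1) + (T.filter (fun t => x t = i)).card := by
  unfold cnt
  rw [← Finset.card_union_of_disjoint]
  · congr 1
    ext t
    simp only [Finset.mem_filter, Finset.mem_union]
    constructor
    · rintro ⟨h1, h2⟩
      by_cases h3 : x t = i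
      · exact Or.inr ⟨h1, h3⟩
      · exact Or.inl ⟨h1, by omega⟩
    · rintro (⟨h1, h2⟩ | ⟨h1, h2⟩)
      · exact ⟨h1, by omega⟩
      · exact ⟨h1, by omega⟩
  · rw [Finset.disjoint_left]
    intro t h1 h2
    rw [Finset.mem_filter] at h1 h2
    omega

/-- The colour of the edges of the cycle changes exactly at the elements of `T`.

PROOF. `x` is injective on `T` (field `ginj` at `i = j = 0` with `g0`): if `x p = x q` then
`g p 0 = c (x p) = c (x q) = g q 0`, so `p = q`. Case `i = 0`: `pv L 0 = L - 1` and `cnt T x (L - 1) = T.card`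
(all `x t < L`) is even; `cnt T x 0` is the number of `t ∈ T` with `x t = 0`. Case `i > 0`: `pv L i = i - 1`, and
`cnt T x i = cnt T x (i - 1) + card {t ∈ T | x t = i}`. In both cases the set `{t ∈ T | x t = i}` has one element
if `i` is the position of an element of `T` and is empty otherwise. Use `Nat.even_add_one`, `parity_simps`. -/
theorem cnt_pv {V : Type u} {P : Type} {G : SimpleGraph V} {L : ℕ} {c d : ℕ → V} {T : Finset P}
    {x y len : P → ℕ} {g : P → ℕ → V} (S : Sys G L c d T x y len g) (i : ℕ) (hi : i < L) :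
    ((∃ p ∈ T, x p = i) → (Even (cnt T x i) ↔ ¬ Even (cnt T x (pv L i)))) ∧
    ((¬ ∃ p ∈ T, x p = i) → (Even (cnt T x i) ↔ Even (cnt T x (pv L i)))) := by
  have hinj : ∀ p ∈ T, ∀ q ∈ T, x p = x q → p = q := by
    intro p hp q hq h
    refine (S.ginj p hp q hq 0 (Nat.zero_le _) 0 (Nat.zero_le _) ?_).1
    rw [S.g0 p hp, S.g0 q hq, h]
  have hm1 : (∃ p ∈ T, x p = i) → (T.filter (fun t => x t = i)).card = 1 := by
    rintro ⟨p, hp, hpi⟩
    rw [Finset.card_eq_one]
    refine ⟨p, ?_⟩
    ext t
    rw [Finset.mem_filter, Finset.mem_singleton]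
    constructor
    · rintro ⟨h1, h2⟩
      exact hinj t h1 p hp (by omega)
    · rintro rfl
      exact ⟨hp, hpi⟩
  have hm0 : (¬ ∃ p ∈ T, x p = i) → (T.filter (fun t => x t = i)).card = 0 := by
    intro h
    rw [Finset.card_eq_zero, Finset.filter_eq_empty_iff]
    intro t ht hti
    exact h ⟨t, ht, hti⟩
  -- the parity of `cnt T x i` is that of `cnt T x (pv L i)` plus the number of elements at `i`
  have key : (Even (cnt T x i) ↔
      Even (cnt T x (pv L i) + (T.filter (fun t => x t = i)).card)) := by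
    by_cases h0 : i = 0
    · subst h0
      have h1 : cnt T x (pv L 0) = T.card := by
        unfold cnt pv
        rw [if_pos rfl, Finset.filter_true_of_mem]
        intro t ht
        have := S.xlt t ht
        omega
      have h2 : cnt T x 0 = (T.filter (fun t => x t = 0)).card := by
        unfold cnt
        simp only [Nat.le_zero]
      rw [h1, h2, Nat.even_add]
      have := S.ev
      simp [this]
    · have h1 : pv L i = i - 1 := by
        unfold pv
        rw [if_neg h0]
      rw [h1, ← X02_split (by omega)]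
  constructor
  · intro h
    rw [key, hm1 h, Nat.even_add_one]
  · intro h
    rw [key, hm0 h, add_zero]

end LC
end

section

/-! TASK X03 of MP_6bc8af_co. -/

open Classical

namespace LC

universe u

private theorem X03_nx_lt {L i : ℕ} (hi : i < L) : nx L i < L := by
  unfold nx; split_ifs <;> omega

private theorem X03_pv_lt {L i : ℕ} (hi : i < L) : pv L i < L := by
  unfold pv; split_ifs <;> omega

private theorem X03_nx_pv {L i : ℕ} (hi : i < L) : nx L (pv L i) = i := by
  unfold nx pv; split_ifs <;> omega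

private theorem X03_pv_of_nx {L i j : ℕ} (hi : i < L) (hj : j < L) (h : nx L j = i) : j = pv L i := by
  unfold nx at h; unfold pv; split_ifs at h ⊢ <;> omega

private theorem X03_nx_ne_pv {L i : ℕ} (hi : i < L) (hL : 3 ≤ L) : nx L i ≠ pv L i := by
  unfold nx pv; split_ifs <;> omega

private theorem X03_adj {V : Type u} {P : Type} {G : SimpleGraph V} {L : ℕ} {c d : ℕ → V} {T : Finset P}
    {x y len : P → ℕ} {g : P → ℕ → V} (S : Sys G L c d T x y len g) (i : ℕ) (hi : i < L)
    (hd : ∀ j < L, c i ≠ d j) (b : V) :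
    (EG L c d T x y len g).Adj (c i) b ↔
      ((b = c (nx L i) ∧ Even (cnt T x i)) ∨ (b = c (pv L i) ∧ Even (cnt T x (pv L i))) ∨
        (∃ p ∈ T, x p = i ∧ b = g p 1)) := by
  constructor
  · intro h
    unfold EG at h
    rw [SimpleGraph.fromRel_adj] at h
    obtain ⟨_, h⟩ := h
    rcases h with h | h
    · rcases h with ⟨j, hj, he, h1, h2⟩ | ⟨j, hj, he, h1, h2⟩ | ⟨p, hp, j, hj, h1, h2⟩
      · have := S.hc.inj i hi j hj h1
        subst this
        exact Or.inl ⟨h2, he⟩
      · exact absurd h1 (hd j hj)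
      · have h3 := S.gC p hp j (le_of_lt hj) i hi h1.symm
        subst h3
        rw [S.g0 p hp] at h1
        have := S.hc.inj i hi (x p) (S.xlt p hp) h1
        exact Or.inr (Or.inr ⟨p, hp, this.symm, h2⟩)
    · rcases h with ⟨j, hj, he, h1, h2⟩ | ⟨j, hj, he, h1, h2⟩ | ⟨p, hp, j, hj, h1, h2⟩
      · have := S.hc.inj i hi (nx L j) (X03_nx_lt hj) h2
        have h4 := X03_pv_of_nx hi hj this.symm
        subst h4
        exact Or.inr (Or.inl ⟨h1, he⟩)
      · exact absurd h2 (hd _ (X03_nx_lt hj))
      · have h3 := S.gC p hp (j + 1) hj i hi h2.symm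
        omega
  · intro h
    unfold EG
    rw [SimpleGraph.fromRel_adj]
    rcases h with ⟨h1, h2⟩ | ⟨h1, h2⟩ | ⟨p, hp, h1, h2⟩
    · subst h1
      exact ⟨(S.hc.adj i hi).ne, Or.inl (Or.inl ⟨i, hi, h2, rfl, rfl⟩)⟩
    · subst h1
      have h3 := S.hc.adj (pv L i) (X03_pv_lt hi)
      rw [X03_nx_pv hi] at h3
      exact ⟨h3.ne.symm, Or.inr (Or.inl ⟨pv L i, X03_pv_lt hi, h2, rfl, by rw [X03_nx_pv hi]⟩)⟩
    · subst h2
      have h3 := S.gadj p hp 0 (S.len1 p hp)
      have h0 : g p 0 = c i := by rw [S.g0 p hp, h1]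
      rw [h0] at h3
      exact ⟨h3.ne, Or.inl (Or.inr (Or.inr ⟨p, hp, 0, S.len1 p hp, h0.symm, rfl⟩))⟩

/-- The neighbours of a vertex of the first cycle that is not on the second cycle: none or two.

PROOF. Let `v = c i`, `i < L`, not of the form `d j`, `j < L`. A neighbour `b` of `v` in `EG` comes (unfold `EG`,
`SimpleGraph.fromRel_adj`) from one of: (1) `v = c i'`, `b = c (nx L i')`, so `i' = i` by injectivity
(`S.hc.inj`) and `cnt T x i` even; (2) `b = c i'`, `v = c (nx L i')`, so `nx L i' = i` and `i' = pv L i`, with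
`cnt T x (pv L i)` even; (3), (4) `v` would be a vertex of `d`, excluded (note `nx L j < L` for `j < L`);
(5) `v = g p j` with `j < len p`, `b = g p (j + 1)`: by `S.gC` `j = 0`, and `c i = g p 0 = c (x p)` gives
`i = x p`, `b = g p 1`; (6) `v = g p (j + 1)`: impossible by `S.gC` (`j + 1 ≠ 0`).
If `i = x p`, `p ∈ T` (`p` is unique, as `g p 0 = g q 0` for `x p = x q`): exactly one of `cnt T x i`,
`cnt T x (pv L i)` is even (`cnt_pv`), the neighbours are `g p 1` and one of `c (nx L i)`, `c (pv L i)`; they are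
different by `S.gC` (`1 ≤ len p`, so `g p 1` is not a vertex of `c`). If `i` is not a position of `T`, both counts
have the same parity; if odd there is no neighbour, if even the neighbours are `c (nx L i)`, `c (pv L i)`,
different since `3 ≤ L`. All these pairs are really adjacent (different endpoints: consecutive vertices of a
cycle / path are different, `G`-adjacent by `EG_le`, or `S.hc.adj`, `S.gadj` with `G.ne_of_adj`). -/
theorem nb_C {V : Type u} {P : Type} {G : SimpleGraph V} {L : ℕ} {c d : ℕ → V} {T : Finset P}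
    {x y len : P → ℕ} {g : P → ℕ → V} (S : Sys G L c d T x y len g) (i : ℕ) (hi : i < L)
    (hd : ∀ j < L, c i ≠ d j) :
    (EG L c d T x y len g).neighborSet (c i) = ∅ ∨ ((EG L c d T x y len g).neighborSet (c i)).ncard = 2 := by
  have hL := S.hc.three
  have hcn : c (nx L i) ≠ c (pv L i) := fun h =>
    X03_nx_ne_pv hi hL (S.hc.inj _ (X03_nx_lt hi) _ (X03_pv_lt hi) h)
  obtain ⟨hc1, hc2⟩ := cnt_pv S i hi
  by_cases hp : ∃ p ∈ T, x p = i
  · right
    have hpar := hc1 hp
    obtain ⟨p, hp, hpi⟩ := hp
    have huniq : ∀ q ∈ T, x q = i → q = p := by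
      intro q hq hqi
      have h1 : g q 0 = g p 0 := by rw [S.g0 q hq, S.g0 p hp, hqi, hpi]
      exact (S.ginj q hq p hp 0 (Nat.zero_le _) 0 (Nat.zero_le _) h1).1
    have hne : ∀ j < L, g p 1 ≠ c j := by
      intro j hj h
      have := S.gC p hp 1 (S.len1 p hp) j hj h
      omega
    by_cases hev : Even (cnt T x i)
    · have hod : ¬ Even (cnt T x (pv L i)) := hpar.mp hev
      have hset : (EG L c d T x y len g).neighborSet (c i) = {c (nx L i), g p 1} := by
        ext b
        rw [SimpleGraph.mem_neighborSet, X03_adj S i hi hd b]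
        constructor
        · rintro (⟨h1, _⟩ | ⟨_, h2⟩ | ⟨q, hq, h1, h2⟩)
          · rw [h1]; exact Set.mem_insert _ _
          · exact absurd h2 hod
          · rw [huniq q hq h1] at h2
            rw [h2]; exact Set.mem_insert_of_mem _ rfl
        · rintro (h1 | h1)
          · exact Or.inl ⟨h1, hev⟩
          · exact Or.inr (Or.inr ⟨p, hp, hpi, h1⟩)
      rw [hset]
      exact Set.ncard_pair (hne _ (X03_nx_lt hi)).symm
    · have hev' : Even (cnt T x (pv L i)) := by
        by_contra h
        exact hev (hpar.mpr h)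
      have hset : (EG L c d T x y len g).neighborSet (c i) = {c (pv L i), g p 1} := by
        ext b
        rw [SimpleGraph.mem_neighborSet, X03_adj S i hi hd b]
        constructor
        · rintro (⟨_, h2⟩ | ⟨h1, _⟩ | ⟨q, hq, h1, h2⟩)
          · exact absurd h2 hev
          · rw [h1]; exact Set.mem_insert _ _
          · rw [huniq q hq h1] at h2
            rw [h2]; exact Set.mem_insert_of_mem _ rfl
        · rintro (h1 | h1)
          · exact Or.inr (Or.inl ⟨h1, hev'⟩)
          · exact Or.inr (Or.inr ⟨p, hp, hpi, h1⟩)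
      rw [hset]
      exact Set.ncard_pair (hne _ (X03_pv_lt hi)).symm
  · have hpar := hc2 hp
    by_cases hev : Even (cnt T x i)
    · right
      have hev' : Even (cnt T x (pv L i)) := hpar.mp hev
      have hset : (EG L c d T x y len g).neighborSet (c i) = {c (nx L i), c (pv L i)} := by
        ext b
        rw [SimpleGraph.mem_neighborSet, X03_adj S i hi hd b]
        constructor
        · rintro (⟨h1, _⟩ | ⟨h1, _⟩ | ⟨q, hq, h1, h2⟩)
          · rw [h1]; exact Set.mem_insert _ _
          · rw [h1]; exact Set.mem_insert_of_mem _ rfl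
          · exact absurd ⟨q, hq, h1⟩ hp
        · rintro (h1 | h1)
          · exact Or.inl ⟨h1, hev⟩
          · exact Or.inr (Or.inl ⟨h1, hev'⟩)
      rw [hset]
      exact Set.ncard_pair hcn
    · left
      have hev' : ¬ Even (cnt T x (pv L i)) := fun h => hev (hpar.mpr h)
      ext b
      rw [SimpleGraph.mem_neighborSet, X03_adj S i hi hd b]
      constructor
      · rintro (⟨_, h2⟩ | ⟨_, h2⟩ | ⟨q, hq, h1, h2⟩)
        · exact absurd h2 hev
        · exact absurd h2 hev'
        · exact absurd ⟨q, hq, h1⟩ hp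
      · intro h
        exact absurd h (Set.notMem_empty b)

end LC
end

section

/-! TASK X04 of MP_6bc8af_co. -/

open Classical

namespace LC

universe u

private theorem X04_nx_lt {L i : ℕ} (hi : i < L) : nx L i < L := by
  unfold nx
  split_ifs <;> omega

private theorem X04_pv_lt {L i : ℕ} (hi : i < L) : pv L i < L := by
  unfold pv
  split_ifs <;> omega

private theorem X04_nx_pv {L i : ℕ} (hi : i < L) : nx L (pv L i) = i := by
  unfold nx pv
  split_ifs <;> omega

private theorem X04_pv_of {L i k : ℕ} (_hk : k < L) (h : nx L k = i) : k = pv L i := by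
  subst h
  by_cases h1 : k + 1 = L
  · simp only [nx, pv, if_pos h1, if_true]
    omega
  · have h2 : ¬ (k + 1 = 0) := by omega
    simp only [nx, pv, if_neg h1, if_neg h2]
    omega

private theorem X04_ne {L i : ℕ} (hL : 3 ≤ L) : nx L i ≠ pv L i := by
  unfold nx pv
  split_ifs <;> omega

/-- The neighbours of a common vertex of the two cycles: the two neighbours on the first cycle.

PROOF. Let `v = c i = d j`. No `g p k` (`p ∈ T`, `k ≤ len p`) equals `v`: by `S.gC` `k = 0`, by `S.gD` `k = len p`,
but `1 ≤ len p`. In particular `i` is not a position of `T` on `c` (`g p 0 = c (x p)`) and `j` is not a position of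
`T` on `d` (`g p (len p) = d (y p)`). By `S.cmark` and `cnt_pv` the numbers `cnt T x i`, `cnt T x (pv L i)` are even;
by `S.dmark` and `cnt_pv` for `S.swap` (file X01) `cnt T y j`, `cnt T y (pv L j)` are even. So (unfolding `EG`) the
neighbours of `v` are exactly `c (nx L i)` and `c (pv L i)`: an edge of `d` at `v` is `d j, d (nx L j)` or
`d (pv L j), d j`, of even count, hence not in `EG`; a path does not contain `v`. The two neighbours are different
since `3 ≤ L` (injectivity of `c`), so `ncard = 2` (`Set.ncard_pair`). -/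
theorem nb_mark {V : Type u} {P : Type} {G : SimpleGraph V} {L : ℕ} {c d : ℕ → V} {T : Finset P}
    {x y len : P → ℕ} {g : P → ℕ → V} (S : Sys G L c d T x y len g) (i j : ℕ) (hi : i < L) (hj : j < L)
    (hij : c i = d j) :
    ((EG L c d T x y len g).neighborSet (c i)).ncard = 2 := by
  have hT : ∀ p ∈ T, ∀ k ≤ len p, g p k ≠ c i := by
    intro p hp k hk h
    have h1 := S.gC p hp k hk i hi h
    have h2 := S.gD p hp k hk j hj (h.trans hij)
    have h3 := S.len1 p hp
    omega
  have hiT : ¬ ∃ p ∈ T, x p = i := by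
    rintro ⟨p, hp, h⟩
    refine hT p hp 0 (Nat.zero_le _) ?_
    rw [S.g0 p hp, h]
  have hjT : ¬ ∃ p ∈ T, y p = j := by
    rintro ⟨p, hp, h⟩
    refine hT p hp (len p) (le_refl _) ?_
    rw [S.g1 p hp, h, hij]
  have e1 : Even (cnt T x i) := S.cmark i hi j hj hij
  have e2 : Even (cnt T x (pv L i)) := ((cnt_pv S i hi).2 hiT).1 e1
  have e3 : Even (cnt T y j) := S.dmark i hi j hj hij
  have e4 : Even (cnt T y (pv L j)) := ((cnt_pv S.swap j hj).2 hjT).1 e3
  have hne : c (nx L i) ≠ c (pv L i) := by
    intro h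
    exact X04_ne S.hc.three (S.hc.inj _ (X04_nx_lt hi) _ (X04_pv_lt hi) h)
  have hset : (EG L c d T x y len g).neighborSet (c i) = {c (nx L i), c (pv L i)} := by
    ext b
    rw [SimpleGraph.mem_neighborSet]
    unfold EG
    rw [SimpleGraph.fromRel_adj, Set.mem_insert_iff, Set.mem_singleton_iff]
    constructor
    · rintro ⟨-, (⟨k, hk, -, h1, h2⟩ | ⟨k, hk, ho, h1, -⟩ | ⟨p, hp, k, hk, h1, -⟩) |
        (⟨k, hk, -, h1, h2⟩ | ⟨k, hk, ho, -, h1⟩ | ⟨p, hp, k, hk, -, h1⟩)⟩
      · left
        rw [h2, S.hc.inj i hi k hk h1]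
      · exfalso
        have h3 := S.hd.inj j hj k hk (hij.symm.trans h1)
        subst h3
        exact (Nat.not_even_iff_odd.2 ho) e3
      · exact absurd h1.symm (hT p hp k hk.le)
      · right
        have h3 := S.hc.inj i hi _ (X04_nx_lt hk) h2
        rw [h1, X04_pv_of hk h3.symm]
      · exfalso
        have h3 := S.hd.inj j hj _ (X04_nx_lt hk) (hij.symm.trans h1)
        have h4 := X04_pv_of hk h3.symm
        subst h4
        exact (Nat.not_even_iff_odd.2 ho) e4
      · exact absurd h1.symm (hT p hp (k + 1) hk)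
    · rintro (rfl | rfl)
      · exact ⟨(S.hc.adj i hi).ne, Or.inl (Or.inl ⟨i, hi, e1, rfl, rfl⟩)⟩
      · have h5 := S.hc.adj (pv L i) (X04_pv_lt hi)
        rw [X04_nx_pv hi] at h5
        exact ⟨h5.ne.symm, Or.inr (Or.inl ⟨pv L i, X04_pv_lt hi, e2, rfl, by rw [X04_nx_pv hi]⟩)⟩
  rw [hset, Set.ncard_pair hne]

end LC
end

section

/-! TASK X05 of MP_6bc8af_co. -/

open Classical

namespace LC

universe u

private theorem X05_nx_lt {L i : ℕ} (hi : i < L) : nx L i < L := by
  unfold nx; split_ifs <;> omega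

private theorem X05_pv_lt {L i : ℕ} (hi : i < L) : pv L i < L := by
  unfold pv; split_ifs <;> omega

private theorem X05_nx_pv {L i : ℕ} (hi : i < L) : nx L (pv L i) = i := by
  unfold nx pv; split_ifs <;> omega

private theorem X05_pv_of_nx {L i j : ℕ} (_hi : i < L) (_hj : j < L) (h : nx L j = i) : j = pv L i := by
  unfold nx at h; unfold pv; split_ifs at h ⊢ <;> omega

private theorem X05_nx_ne_pv {L i : ℕ} (_hi : i < L) (hL : 3 ≤ L) : nx L i ≠ pv L i := by
  unfold nx pv; split_ifs <;> omega

private theorem X05_adj {V : Type u} {P : Type} {G : SimpleGraph V} {L : ℕ} {c d : ℕ → V} {T : Finset P}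
    {x y len : P → ℕ} {g : P → ℕ → V} (S : Sys G L c d T x y len g) (j : ℕ) (hj : j < L)
    (hd : ∀ i < L, c i ≠ d j) (b : V) :
    (EG L c d T x y len g).Adj (d j) b ↔
      ((b = d (nx L j) ∧ Odd (cnt T y j)) ∨ (b = d (pv L j) ∧ Odd (cnt T y (pv L j))) ∨
        (∃ p ∈ T, y p = j ∧ b = g p (len p - 1))) := by
  constructor
  · intro h
    unfold EG at h
    rw [SimpleGraph.fromRel_adj] at h
    obtain ⟨_, h⟩ := h
    rcases h with h | h
    · rcases h with ⟨i, hi, he, h1, h2⟩ | ⟨i, hi, he, h1, h2⟩ | ⟨p, hp, i, hi, h1, h2⟩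
      · exact absurd h1.symm (hd i hi)
      · have := S.hd.inj j hj i hi h1
        subst this
        exact Or.inl ⟨h2, he⟩
      · have h3 := S.gD p hp i (le_of_lt hi) j hj h1.symm
        omega
    · rcases h with ⟨i, hi, he, h1, h2⟩ | ⟨i, hi, he, h1, h2⟩ | ⟨p, hp, i, hi, h1, h2⟩
      · exact absurd h2.symm (hd _ (X05_nx_lt hi))
      · have := S.hd.inj j hj (nx L i) (X05_nx_lt hi) h2
        have h4 := X05_pv_of_nx hj hi this.symm
        subst h4
        exact Or.inr (Or.inl ⟨h1, he⟩)
      · have h3 := S.gD p hp (i + 1) hi j hj h2.symm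
        have h5 : d j = d (y p) := by rw [h2, h3, S.g1 p hp]
        have h6 := S.hd.inj j hj (y p) (S.ylt p hp) h5
        have h7 : i = len p - 1 := by omega
        subst h7
        exact Or.inr (Or.inr ⟨p, hp, h6.symm, h1⟩)
  · intro h
    unfold EG
    rw [SimpleGraph.fromRel_adj]
    rcases h with ⟨h1, h2⟩ | ⟨h1, h2⟩ | ⟨p, hp, h1, h2⟩
    · subst h1
      exact ⟨(S.hd.adj j hj).ne, Or.inl (Or.inr (Or.inl ⟨j, hj, h2, rfl, rfl⟩))⟩
    · subst h1
      have h3 := S.hd.adj (pv L j) (X05_pv_lt hj)
      rw [X05_nx_pv hj] at h3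
      exact ⟨h3.ne.symm, Or.inr (Or.inr (Or.inl ⟨pv L j, X05_pv_lt hj, h2, rfl, by rw [X05_nx_pv hj]⟩))⟩
    · subst h2
      have hl := S.len1 p hp
      have h3 := S.gadj p hp (len p - 1) (by omega)
      have h4 : len p - 1 + 1 = len p := by omega
      have h0 : g p (len p - 1 + 1) = d j := by rw [h4, S.g1 p hp, h1]
      rw [h0] at h3
      exact ⟨h3.ne.symm, Or.inr (Or.inr (Or.inr ⟨p, hp, len p - 1, by omega, rfl, h0.symm⟩))⟩

/-- The neighbours of a vertex of the second cycle that is not on the first cycle: none or two.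

PROOF. Let `v = d j`, `j < L`, not of the form `c i`, `i < L`. A neighbour `b` of `v` in `EG` comes (unfold `EG`,
`SimpleGraph.fromRel_adj`) from one of: (1), (2) an edge of `c`: excluded; (3) `v = d j'`, `b = d (nx L j')`, so
`j' = j` and `cnt T y j` odd; (4) `b = d j'`, `v = d (nx L j')`, so `j' = pv L j`, `cnt T y (pv L j)` odd; (5)
`v = g p k` with `k < len p`: impossible by `S.gD`; (6) `v = g p (k + 1)`, `b = g p k`, `k < len p`: by `S.gD`
`k + 1 = len p`, and `d j = g p (len p) = d (y p)` gives `j = y p`.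
If `j = y p`, `p ∈ T` (`p` unique by `S.ginj` at the last vertices): by `cnt_pv` applied to `S.swap` exactly one of
`cnt T y j`, `cnt T y (pv L j)` is odd; the neighbours are `g p (len p - 1)` and one of `d (nx L j)`, `d (pv L j)`,
different by `S.gD` (`g p (len p - 1)` is not a vertex of `d`). If `j` is not a position of `T`, both counts have
the same parity; if even there is no neighbour, if odd the neighbours are `d (nx L j)`, `d (pv L j)`, different
since `3 ≤ L`. -/
theorem nb_D {V : Type u} {P : Type} {G : SimpleGraph V} {L : ℕ} {c d : ℕ → V} {T : Finset P}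
    {x y len : P → ℕ} {g : P → ℕ → V} (S : Sys G L c d T x y len g) (j : ℕ) (hj : j < L)
    (hd : ∀ i < L, c i ≠ d j) :
    (EG L c d T x y len g).neighborSet (d j) = ∅ ∨ ((EG L c d T x y len g).neighborSet (d j)).ncard = 2 := by
  have hL := S.hc.three
  have hcn : d (nx L j) ≠ d (pv L j) := fun h =>
    X05_nx_ne_pv hj hL (S.hd.inj _ (X05_nx_lt hj) _ (X05_pv_lt hj) h)
  obtain ⟨hc1, hc2⟩ := cnt_pv S.swap j hj
  by_cases hp : ∃ p ∈ T, y p = j
  · right
    have hpar := hc1 hp
    obtain ⟨p, hp, hpi⟩ := hp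
    have huniq : ∀ q ∈ T, y q = j → q = p := by
      intro q hq hqi
      have h1 : g q (len q) = g p (len p) := by rw [S.g1 q hq, S.g1 p hp, hqi, hpi]
      exact (S.ginj q hq p hp (len q) le_rfl (len p) le_rfl h1).1
    have hne : ∀ i < L, g p (len p - 1) ≠ d i := by
      intro i hi h
      have h1 := S.gD p hp (len p - 1) (Nat.sub_le _ _) i hi h
      have h2 := S.len1 p hp
      omega
    by_cases hev : Even (cnt T y j)
    · have hod : ¬ Even (cnt T y (pv L j)) := hpar.mp hev
      have hset : (EG L c d T x y len g).neighborSet (d j) = {d (pv L j), g p (len p - 1)} := by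
        ext b
        rw [SimpleGraph.mem_neighborSet, X05_adj S j hj hd b]
        constructor
        · rintro (⟨_, h2⟩ | ⟨h1, _⟩ | ⟨q, hq, h1, h2⟩)
          · exact absurd hev (Nat.not_even_iff_odd.mpr h2)
          · rw [h1]; exact Set.mem_insert _ _
          · rw [huniq q hq h1] at h2
            rw [h2]; exact Set.mem_insert_of_mem _ rfl
        · rintro (h1 | h1)
          · exact Or.inr (Or.inl ⟨h1, Nat.not_even_iff_odd.mp hod⟩)
          · exact Or.inr (Or.inr ⟨p, hp, hpi, h1⟩)
      rw [hset]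
      exact Set.ncard_pair (hne _ (X05_pv_lt hj)).symm
    · have hev' : Even (cnt T y (pv L j)) := by
        by_contra h
        exact hev (hpar.mpr h)
      have hset : (EG L c d T x y len g).neighborSet (d j) = {d (nx L j), g p (len p - 1)} := by
        ext b
        rw [SimpleGraph.mem_neighborSet, X05_adj S j hj hd b]
        constructor
        · rintro (⟨h1, _⟩ | ⟨_, h2⟩ | ⟨q, hq, h1, h2⟩)
          · rw [h1]; exact Set.mem_insert _ _
          · exact absurd hev' (Nat.not_even_iff_odd.mpr h2)
          · rw [huniq q hq h1] at h2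
            rw [h2]; exact Set.mem_insert_of_mem _ rfl
        · rintro (h1 | h1)
          · exact Or.inl ⟨h1, Nat.not_even_iff_odd.mp hev⟩
          · exact Or.inr (Or.inr ⟨p, hp, hpi, h1⟩)
      rw [hset]
      exact Set.ncard_pair (hne _ (X05_nx_lt hj)).symm
  · have hpar := hc2 hp
    by_cases hev : Even (cnt T y j)
    · left
      have hev' : Even (cnt T y (pv L j)) := hpar.mp hev
      ext b
      rw [SimpleGraph.mem_neighborSet, X05_adj S j hj hd b]
      constructor
      · rintro (⟨_, h2⟩ | ⟨_, h2⟩ | ⟨q, hq, h1, h2⟩)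
        · exact absurd hev (Nat.not_even_iff_odd.mpr h2)
        · exact absurd hev' (Nat.not_even_iff_odd.mpr h2)
        · exact absurd ⟨q, hq, h1⟩ hp
      · intro h
        exact absurd h (Set.notMem_empty b)
    · right
      have hev' : ¬ Even (cnt T y (pv L j)) := fun h => hev (hpar.mpr h)
      have hset : (EG L c d T x y len g).neighborSet (d j) = {d (nx L j), d (pv L j)} := by
        ext b
        rw [SimpleGraph.mem_neighborSet, X05_adj S j hj hd b]
        constructor
        · rintro (⟨h1, _⟩ | ⟨h1, _⟩ | ⟨q, hq, h1, h2⟩)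
          · rw [h1]; exact Set.mem_insert _ _
          · rw [h1]; exact Set.mem_insert_of_mem _ rfl
          · exact absurd ⟨q, hq, h1⟩ hp
        · rintro (h1 | h1)
          · exact Or.inl ⟨h1, Nat.not_even_iff_odd.mp hev⟩
          · exact Or.inr (Or.inl ⟨h1, Nat.not_even_iff_odd.mp hev'⟩)
      rw [hset]
      exact Set.ncard_pair hcn

end LC
end

section

/-! TASK X06 of MP_6bc8af_co. -/

open Classical

namespace LC

universe u

/-- In the exchanged graph every vertex has no neighbour or exactly two.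

PROOF. `SimpleGraph.IsCycles G` says: every `v` with nonempty neighbour set has `ncard` 2 of it. Let `v` be a vertex
with a neighbour `b`. Unfolding `EG`, `v` is a vertex `c i` (`i < L`), `d j` (`j < L`) or `g p k` with `p ∈ T`,
`k ≤ len p` (note `nx L i < L` for `i < L`). If `v = c i`: `nb_mark` or `nb_C`. If `v = d j` and not on `c`:
`nb_D`. Otherwise `v = g p k`, not on `c` and not on `d`; so `0 < k < len p` (`S.g0`, `S.g1`), and the neighbours
of `v` are exactly `g p (k - 1)` and `g p (k + 1)`: an edge of `c` or `d` does not contain `v`, and an edge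
`g q l, g q (l + 1)` containing `v` has `q = p` and `l = k` or `l + 1 = k` by `S.ginj`. They are different by
`S.ginj`. -/
theorem EG_isCycles {V : Type u} {P : Type} {G : SimpleGraph V} {L : ℕ} {c d : ℕ → V} {T : Finset P}
    {x y len : P → ℕ} {g : P → ℕ → V} (S : Sys G L c d T x y len g) :
    (EG L c d T x y len g).IsCycles := by
  have hnx : ∀ i < L, nx L i < L := by
    intro i hi
    unfold nx
    have := S.hc.three
    split_ifs <;> omega
  intro v hne
  by_cases hc : ∃ i, i < L ∧ v = c i
  · obtain ⟨i, hi, rfl⟩ := hc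
    by_cases hd : ∃ j, j < L ∧ c i = d j
    · obtain ⟨j, hj, hij⟩ := hd
      exact nb_mark S i j hi hj hij
    · rcases nb_C S i hi (fun j hj h => hd ⟨j, hj, h⟩) with h | h
      · rw [h] at hne
        exact absurd hne Set.not_nonempty_empty
      · exact h
  by_cases hd : ∃ j, j < L ∧ v = d j
  · obtain ⟨j, hj, rfl⟩ := hd
    rcases nb_D S j hj (fun i hi h => hc ⟨i, hi, h.symm⟩) with h | h
    · rw [h] at hne
      exact absurd hne Set.not_nonempty_empty
    · exact h
  have hC : ∀ i < L, v ≠ c i := fun i hi h => hc ⟨i, hi, h⟩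
  have hD : ∀ i < L, v ≠ d i := fun i hi h => hd ⟨i, hi, h⟩
  have hk : ∃ p ∈ T, ∃ k, 0 < k ∧ k < len p ∧ v = g p k := by
    obtain ⟨b, hb⟩ := hne
    have hb' : (EG L c d T x y len g).Adj v b := hb
    unfold EG at hb'
    rw [SimpleGraph.fromRel_adj] at hb'
    have key : ∀ p ∈ T, ∀ k ≤ len p, v = g p k → 0 < k ∧ k < len p := by
      intro p hp k hk hv
      refine ⟨?_, ?_⟩
      · rcases Nat.eq_zero_or_pos k with h | h
        · subst h
          exact absurd (hv.trans (S.g0 p hp)) (hC _ (S.xlt p hp))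
        · exact h
      · rcases Nat.lt_or_ge k (len p) with h | h
        · exact h
        · have : k = len p := by omega
          subst this
          exact absurd (hv.trans (S.g1 p hp)) (hD _ (S.ylt p hp))
    rcases hb'.2 with h | h
    · rcases h with ⟨i, hi, _, h1, _⟩ | ⟨i, hi, _, h1, _⟩ | ⟨p, hp, i, hi, h1, _⟩
      · exact absurd h1 (hC i hi)
      · exact absurd h1 (hD i hi)
      · exact ⟨p, hp, i, (key p hp i hi.le h1).1, (key p hp i hi.le h1).2, h1⟩
    · rcases h with ⟨i, hi, _, _, h1⟩ | ⟨i, hi, _, _, h1⟩ | ⟨p, hp, i, hi, _, h1⟩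
      · exact absurd h1 (hC _ (hnx i hi))
      · exact absurd h1 (hD _ (hnx i hi))
      · exact ⟨p, hp, i + 1, (key p hp (i + 1) hi h1).1, (key p hp (i + 1) hi h1).2, h1⟩
  obtain ⟨p, hp, k, hk0, hk1, rfl⟩ := hk
  have hset : (EG L c d T x y len g).neighborSet (g p k) = {g p (k - 1), g p (k + 1)} := by
    ext b
    rw [SimpleGraph.mem_neighborSet]
    unfold EG
    rw [SimpleGraph.fromRel_adj]
    simp only [Set.mem_insert_iff, Set.mem_singleton_iff]
    constructor
    · rintro ⟨_, h | h⟩
      · rcases h with ⟨i, hi, _, h1, _⟩ | ⟨i, hi, _, h1, _⟩ | ⟨q, hq, i, hi, h1, h2⟩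
        · exact absurd h1 (hC i hi)
        · exact absurd h1 (hD i hi)
        · obtain ⟨h3, h4⟩ := S.ginj p hp q hq k hk1.le i hi.le h1
          subst h3
          subst h4
          exact Or.inr h2
      · rcases h with ⟨i, hi, _, _, h1⟩ | ⟨i, hi, _, _, h1⟩ | ⟨q, hq, i, hi, h2, h1⟩
        · exact absurd h1 (hC _ (hnx i hi))
        · exact absurd h1 (hD _ (hnx i hi))
        · obtain ⟨h3, h4⟩ := S.ginj p hp q hq k hk1.le (i + 1) hi h1
          subst h3
          left
          rw [h2, h4]
          rfl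
    · rintro (h | h)
      · refine ⟨?_, Or.inr (Or.inr (Or.inr ⟨p, hp, k - 1, by omega, h, by
          have : k - 1 + 1 = k := by omega
          rw [this]⟩))⟩
        intro he
        rw [h] at he
        have := (S.ginj p hp p hp k hk1.le (k - 1) (by omega) he).2
        omega
      · refine ⟨?_, Or.inl (Or.inr (Or.inr ⟨p, hp, k, hk1, rfl, h⟩))⟩
        intro he
        rw [h] at he
        have := (S.ginj p hp p hp k hk1.le (k + 1) (by omega) he).2
        omega
  rw [hset]
  apply Set.ncard_pair
  intro he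
  have := (S.ginj p hp p hp (k - 1) (by omega) (k + 1) (by omega) he).2
  omega

end LC
end

section

/-! TASK X09 of MP_6bc8af_co. -/

open Classical

namespace LC

universe u

private theorem X09_cadj {V : Type u} {P : Type} {G : SimpleGraph V} {L : ℕ} {c d : ℕ → V}
    {T : Finset P} {x y len : P → ℕ} {g : P → ℕ → V} (S : Sys G L c d T x y len g) (i : ℕ)
    (hi : i < L) (he : Even (cnt T x i)) : (EG L c d T x y len g).Adj (c i) (c (nx L i)) := by
  rw [EG, SimpleGraph.fromRel_adj]
  exact ⟨(S.hc.adj i hi).ne, Or.inl (Or.inl ⟨i, hi, he, rfl, rfl⟩)⟩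

private theorem X09_dadj {V : Type u} {P : Type} {G : SimpleGraph V} {L : ℕ} {c d : ℕ → V}
    {T : Finset P} {x y len : P → ℕ} {g : P → ℕ → V} (S : Sys G L c d T x y len g) (i : ℕ)
    (hi : i < L) (he : Odd (cnt T y i)) : (EG L c d T x y len g).Adj (d i) (d (nx L i)) := by
  rw [EG, SimpleGraph.fromRel_adj]
  exact ⟨(S.hd.adj i hi).ne, Or.inl (Or.inr (Or.inl ⟨i, hi, he, rfl, rfl⟩))⟩

private theorem X09_gadj {V : Type u} {P : Type} {G : SimpleGraph V} {L : ℕ} {c d : ℕ → V}
    {T : Finset P} {x y len : P → ℕ} {g : P → ℕ → V} (S : Sys G L c d T x y len g) (p : P)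
    (hp : p ∈ T) (i : ℕ) (hi : i < len p) :
    (EG L c d T x y len g).Adj (g p i) (g p (i + 1)) := by
  rw [EG, SimpleGraph.fromRel_adj]
  exact ⟨(S.gadj p hp i hi).ne, Or.inl (Or.inr (Or.inr ⟨p, hp, i, hi, rfl, rfl⟩))⟩

private theorem X09_csup {V : Type u} {P : Type} {G : SimpleGraph V} {L : ℕ} {c d : ℕ → V}
    {T : Finset P} {x y len : P → ℕ} {g : P → ℕ → V} (S : Sys G L c d T x y len g) (i : ℕ)
    (hi : i < L) : c i ∈ (EG L c d T x y len g).support ∪
      (EG L d c T y x len (fun p i => g p (len p - i))).support := by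
  rcases Nat.even_or_odd (cnt T x i) with h | h
  · exact Or.inl ((SimpleGraph.mem_support _).2 ⟨_, X09_cadj S i hi h⟩)
  · exact Or.inr ((SimpleGraph.mem_support _).2 ⟨_, X09_dadj S.swap i hi h⟩)

private theorem X09_dsup {V : Type u} {P : Type} {G : SimpleGraph V} {L : ℕ} {c d : ℕ → V}
    {T : Finset P} {x y len : P → ℕ} {g : P → ℕ → V} (S : Sys G L c d T x y len g) (i : ℕ)
    (hi : i < L) : d i ∈ (EG L c d T x y len g).support ∪
      (EG L d c T y x len (fun p i => g p (len p - i))).support := by
  rcases Nat.even_or_odd (cnt T y i) with h | h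
  · exact Or.inr ((SimpleGraph.mem_support _).2 ⟨_, X09_cadj S.swap i hi h⟩)
  · exact Or.inl ((SimpleGraph.mem_support _).2 ⟨_, X09_dadj S i hi h⟩)

private theorem X09_card {V : Type u} {G : SimpleGraph V} {L : ℕ} {c : ℕ → V} (h : CycSeq G L c) :
    (((Finset.range L).image c : Finset V) : Set V).ncard = L := by
  rw [Set.ncard_coe_finset, Finset.card_image_of_injOn, Finset.card_range]
  intro i hi j hj hij
  exact h.inj i (by simpa using hi) j (by simpa using hj) hij

/-- The two exchanged graphs together have more than `2 L` vertices.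

PROOF. Let `SE`, `SF` be the supports of `EG L c d T x y len g` and of `EG L d c T y x len (reversed)`, `A` the set of
the `c i` (`i < L`), `B` the set of the `d j` (`j < L`); `A.ncard = B.ncard = L` by injectivity.
(1) `A ⊆ SE ∪ SF`: if `cnt T x i` is even then `c i, c (nx L i)` is an edge of the first graph; if it is odd it is an
edge of the second graph (where `c` is the second cycle). (The two vertices are different: `S.hc.adj`, `G.ne_of_adj`.)
(2) `B ⊆ SE ∪ SF` in the same way. (3) `A ∩ B ⊆ SE ∩ SF`: `c i = d j`: `cnt T x i` is even by `S.cmark`, so the vertex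
is in `SE`; `cnt T y j` is even by `S.dmark`, so it is in `SF` (where `d` is the first cycle). (4) Take `p ∈ T`; the
vertex `z = c (x p) = g p 0` is in `SE` and in `SF` by the path edge `g p 0, g p 1` (in the reversed family this is
the last edge: index `len p - 1`, vertices `g p (len p - (len p - 1)) = g p 1` and `g p (len p - len p) = g p 0`), and
it is not in `B` (`S.gD` at `0` would give `0 = len p`). So `insert z (A ∩ B) ⊆ SE ∩ SF`, and
`SE.ncard + SF.ncard = (SE ∪ SF).ncard + (SE ∩ SF).ncard ≥ (A ∪ B).ncard + (A ∩ B).ncard + 1 = 2 L + 1`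
(`Set.ncard_union_add_ncard_inter`, all sets are finite since `V` is). -/
theorem support_count {V : Type u} [Finite V] {P : Type} {G : SimpleGraph V} {L : ℕ} {c d : ℕ → V}
    {T : Finset P} {x y len : P → ℕ} {g : P → ℕ → V} (S : Sys G L c d T x y len g) :
    2 * L + 1 ≤ (EG L c d T x y len g).support.ncard +
      (EG L d c T y x len (fun p i => g p (len p - i))).support.ncard := by
  obtain ⟨p, hp⟩ := S.ne
  set SE := (EG L c d T x y len g).support with hSE
  set SF := (EG L d c T y x len (fun p i => g p (len p - i))).support with hSF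
  set A : Set V := (((Finset.range L).image c : Finset V) : Set V) with hA
  set B : Set V := (((Finset.range L).image d : Finset V) : Set V) with hB
  have hAc : A.ncard = L := X09_card S.hc
  have hBc : B.ncard = L := X09_card S.hd
  have h1 : A ∪ B ⊆ SE ∪ SF := by
    rintro v (hv | hv)
    · rw [hA] at hv
      simp only [Finset.coe_image, Finset.coe_range, Set.mem_image, Set.mem_Iio] at hv
      obtain ⟨i, hi, rfl⟩ := hv
      exact X09_csup S i hi
    · rw [hB] at hv
      simp only [Finset.coe_image, Finset.coe_range, Set.mem_image, Set.mem_Iio] at hv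
      obtain ⟨i, hi, rfl⟩ := hv
      exact X09_dsup S i hi
  have hz1 : g p 0 ∈ SE := by
    have h0 : 0 < len p := by
      have := S.len1 p hp
      omega
    exact (SimpleGraph.mem_support _).2 ⟨_, X09_gadj S p hp 0 h0⟩
  have hz2 : g p 0 ∈ SF := by
    have h0 : 1 ≤ len p := S.len1 p hp
    have h2 := X09_gadj S.swap p hp (len p - 1) (by omega)
    have e2 : len p - (len p - 1 + 1) = 0 := by omega
    simp only [e2] at h2
    exact (SimpleGraph.mem_support _).2 ⟨_, h2.symm⟩
  have hz3 : g p 0 ∉ A ∩ B := by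
    rintro ⟨_, hv⟩
    rw [hB] at hv
    simp only [Finset.coe_image, Finset.coe_range, Set.mem_image, Set.mem_Iio] at hv
    obtain ⟨j, hj, hjj⟩ := hv
    have h3 := S.gD p hp 0 (Nat.zero_le _) j hj hjj.symm
    have h4 := S.len1 p hp
    omega
  have h2 : insert (g p 0) (A ∩ B) ⊆ SE ∩ SF := by
    rintro v (rfl | ⟨hvA, hvB⟩)
    · exact ⟨hz1, hz2⟩
    · rw [hA] at hvA
      rw [hB] at hvB
      simp only [Finset.coe_image, Finset.coe_range, Set.mem_image, Set.mem_Iio] at hvA hvB
      obtain ⟨i, hi, rfl⟩ := hvA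
      obtain ⟨j, hj, hij⟩ := hvB
      refine ⟨?_, ?_⟩
      · exact (SimpleGraph.mem_support _).2 ⟨_, X09_cadj S i hi (S.cmark i hi j hj hij.symm)⟩
      · rw [← hij]
        exact (SimpleGraph.mem_support _).2 ⟨_, X09_cadj S.swap j hj (S.dmark i hi j hj hij.symm)⟩
  have e1 := Set.ncard_union_add_ncard_inter A B (Set.toFinite _) (Set.toFinite _)
  have e2 := Set.ncard_union_add_ncard_inter SE SF (Set.toFinite _) (Set.toFinite _)
  have e3 := Set.ncard_le_ncard h1 (Set.toFinite _)
  have e4 := Set.ncard_le_ncard h2 (Set.toFinite _)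
  rw [Set.ncard_insert_of_notMem hz3 (Set.toFinite _)] at e4
  omega

end LC
end
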