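import Pool.Agent.Lib.MP_6bc8af_co.Mg.G026
import Pool.Agent.Lib.MP_6bc8af_co.Mg.G027

section

/-! TASK X07 of MP_6bc8af_co. -/

open Classical

namespace LC

universe u

private theorem X07_seq {V : Type u} (H : SimpleGraph V) (h : ℕ → V) (a b : ℕ) (hab : a ≤ b)
    (hs : ∀ i, a ≤ i → i < b → H.Reachable (h i) (h (i + 1))) : H.Reachable (h a) (h b) := by
  induction b, hab using Nat.le_induction with
  | base => exact SimpleGraph.Reachable.refl _
  | succ n hn ih =>
    exact (ih (fun i h1 h2 => hs i h1 (by omega))).trans (hs n hn (by omega))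

private theorem X07_cnt {P : Type} (T : Finset P) (x : P → ℕ) (a b : ℕ) (hab : a ≤ b)
    (h : ∀ t ∈ T, x t ≤ b → x t ≤ a) : cnt T x a = cnt T x b := by
  unfold cnt
  congr 1
  apply Finset.filter_congr
  intro t ht
  exact ⟨fun h1 => h1.trans hab, h t ht⟩

private theorem X07_cnt_all {P : Type} (T : Finset P) (x : P → ℕ) (a : ℕ)
    (h : ∀ t ∈ T, x t ≤ a) : cnt T x a = T.card := by
  unfold cnt
  rw [Finset.filter_true_of_mem h]

private theorem X07_cnt_none {P : Type} (T : Finset P) (x : P → ℕ) (a : ℕ)
    (h : ∀ t ∈ T, ¬ x t ≤ a) : cnt T x a = 0 := by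
  unfold cnt
  rw [Finset.card_eq_zero, Finset.filter_false_of_mem h]

private theorem X07_cadj {V : Type u} {P : Type} {G : SimpleGraph V} {L : ℕ} {c d : ℕ → V}
    {T : Finset P} {x y len : P → ℕ} {g : P → ℕ → V} (S : Sys G L c d T x y len g) (i : ℕ)
    (hi : i < L) (he : Even (cnt T x i)) :
    (EG L c d T x y len g).Reachable (c i) (c (nx L i)) := by
  apply SimpleGraph.Adj.reachable
  unfold EG
  rw [SimpleGraph.fromRel_adj]
  exact ⟨(S.hc.adj i hi).ne, Or.inl (Or.inl ⟨i, hi, he, rfl, rfl⟩)⟩

private theorem X07_dadj {V : Type u} {P : Type} {G : SimpleGraph V} {L : ℕ} {c d : ℕ → V}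
    {T : Finset P} {x y len : P → ℕ} {g : P → ℕ → V} (S : Sys G L c d T x y len g) (i : ℕ)
    (hi : i < L) (he : Odd (cnt T y i)) :
    (EG L c d T x y len g).Reachable (d i) (d (nx L i)) := by
  apply SimpleGraph.Adj.reachable
  unfold EG
  rw [SimpleGraph.fromRel_adj]
  exact ⟨(S.hd.adj i hi).ne, Or.inl (Or.inr (Or.inl ⟨i, hi, he, rfl, rfl⟩))⟩

private theorem X07_gadj {V : Type u} {P : Type} {G : SimpleGraph V} {L : ℕ} {c d : ℕ → V}
    {T : Finset P} {x y len : P → ℕ} {g : P → ℕ → V} (S : Sys G L c d T x y len g) (p : P)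
    (hp : p ∈ T) (i : ℕ) (hi : i < len p) :
    (EG L c d T x y len g).Reachable (g p i) (g p (i + 1)) := by
  apply SimpleGraph.Adj.reachable
  unfold EG
  rw [SimpleGraph.fromRel_adj]
  exact ⟨(S.gadj p hp i hi).ne, Or.inl (Or.inr (Or.inr ⟨p, hp, i, hi, rfl, rfl⟩))⟩

private theorem X07_carc {V : Type u} {P : Type} {G : SimpleGraph V} {L : ℕ} {c d : ℕ → V}
    {T : Finset P} {x y len : P → ℕ} {g : P → ℕ → V} (S : Sys G L c d T x y len g) (a b : ℕ)
    (hab : a ≤ b) (hb : b < L) (h : ∀ i, a ≤ i → i < b → Even (cnt T x i)) :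
    (EG L c d T x y len g).Reachable (c a) (c b) := by
  apply X07_seq _ c a b hab
  intro i h1 h2
  have h3 := X07_cadj S i (by omega) (h i h1 h2)
  have h4 : nx L i = i + 1 := by
    unfold nx
    rw [if_neg (by omega)]
  rw [h4] at h3
  exact h3

private theorem X07_darc {V : Type u} {P : Type} {G : SimpleGraph V} {L : ℕ} {c d : ℕ → V}
    {T : Finset P} {x y len : P → ℕ} {g : P → ℕ → V} (S : Sys G L c d T x y len g) (a b : ℕ)
    (hab : a ≤ b) (hb : b < L) (h : ∀ i, a ≤ i → i < b → Odd (cnt T y i)) :
    (EG L c d T x y len g).Reachable (d a) (d b) := by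
  apply X07_seq _ d a b hab
  intro i h1 h2
  have h3 := X07_dadj S i (by omega) (h i h1 h2)
  have h4 : nx L i = i + 1 := by
    unfold nx
    rw [if_neg (by omega)]
  rw [h4] at h3
  exact h3

private theorem X07_path {V : Type u} {P : Type} {G : SimpleGraph V} {L : ℕ} {c d : ℕ → V}
    {T : Finset P} {x y len : P → ℕ} {g : P → ℕ → V} (S : Sys G L c d T x y len g) (p : P)
    (hp : p ∈ T) (i : ℕ) (hi : i ≤ len p) :
    (EG L c d T x y len g).Reachable (c (x p)) (g p i) := by
  rw [← S.g0 p hp]
  exact X07_seq _ (g p) 0 i (Nat.zero_le i) (fun j _ h2 => X07_gadj S p hp j (by omega))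

private theorem X07_cross {V : Type u} {P : Type} {G : SimpleGraph V} {L : ℕ} {c d : ℕ → V}
    {T : Finset P} {x y len : P → ℕ} {g : P → ℕ → V} (S : Sys G L c d T x y len g) (p : P)
    (hp : p ∈ T) :
    (EG L c d T x y len g).Reachable (c (x p)) (d (y p)) := by
  rw [← S.g1 p hp]
  exact X07_path S p hp _ le_rfl

private theorem X07_wrap {V : Type u} {P : Type} {G : SimpleGraph V} {L : ℕ} {c d : ℕ → V}
    {T : Finset P} {x y len : P → ℕ} {g : P → ℕ → V} (S : Sys G L c d T x y len g) (p : P)
    (hp : p ∈ T) (hmax : ∀ t ∈ T, x t ≤ x p) (b : ℕ) (hb : b < L) (hmin : ∀ t ∈ T, b ≤ x t) :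
    (EG L c d T x y len g).Reachable (c (x p)) (c b) := by
  have hL := S.hc.three
  have h1 : (EG L c d T x y len g).Reachable (c (x p)) (c (L - 1)) := by
    have h2 := S.xlt p hp
    apply X07_carc S _ _ (by omega) (by omega)
    intro i hi hi2
    rw [X07_cnt_all T x i (fun t ht => (hmax t ht).trans hi)]
    exact S.ev
  have h2 : (EG L c d T x y len g).Reachable (c (L - 1)) (c 0) := by
    have h3 := X07_cadj S (L - 1) (by omega) (by
      rw [X07_cnt_all T x (L - 1) (fun t ht => by have := S.xlt t ht; omega)]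
      exact S.ev)
    have h4 : nx L (L - 1) = 0 := by
      unfold nx
      rw [if_pos (by omega)]
    rw [h4] at h3
    exact h3
  have h3 : (EG L c d T x y len g).Reachable (c 0) (c b) := by
    apply X07_carc S _ _ (by omega) hb
    intro i hi hi2
    rw [X07_cnt_none T x i (fun t ht => by have := hmin t ht; omega)]
    exact Even.zero
  exact (h1.trans h2).trans h3

/-- `Conn` makes all path starts reachable from each other.

PROOF. Let `H = EG ...`, `p₀ ∈ T` and `R = {p | H.Reachable (c (x p₀)) (c (x p))}` (for `p` outside `T` the value does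
not matter: take `R = {p | p ∈ T ∧ H.Reachable (c (x p₀)) (c (x p))}`). `p₀ ∈ R`. We check the two closure
conditions of `Conn T x y` for `R` (each is symmetric, as reachability is symmetric and transitive; both `p, q ∈ T`):
`OutAdj T x p q`: it suffices that `c (x p)` and `c (x q)` are `H`-reachable. Case `Nxt`, `cnt T x (x p)` even: for
`x p ≤ i < x q` the count `cnt T x i` equals `cnt T x (x p)` (no element of `T` between), so `c i` and `c (i + 1)`
are adjacent in `H` (`nx L i = i + 1` as `i + 1 ≤ x q < L`); induction. Case `x p` maximal, `x q` minimal: for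
`x p ≤ i < L` the count is `T.card`, even (`S.ev`), so `c (x p)` is joined to `c (L - 1)`, which is adjacent to
`c 0` (`nx L (L - 1) = 0`), and for `i < x q` the count is `0`, even, so `c 0` is joined to `c (x q)`.
`InAdj T y p q`: for `y p ≤ i < y q` the count `cnt T y i = cnt T y (y p)` is odd, so `d (y p)` and `d (y q)` are
joined in `H`; and for every `p ∈ T` the path `g p` joins `c (x p) = g p 0` to `d (y p) = g p (len p)` in `H`.
So all elements of `T` are in `R`. (A useful private lemma: if `H.Adj (h i) (h (i + 1))` for `a ≤ i < b` then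
`H.Reachable (h a) (h b)`.) -/
theorem EG_reach_T {V : Type u} {P : Type} {G : SimpleGraph V} {L : ℕ} {c d : ℕ → V} {T : Finset P}
    {x y len : P → ℕ} {g : P → ℕ → V} (S : Sys G L c d T x y len g) (hconn : Conn T x y) (p q : P)
    (hp : p ∈ T) (hq : q ∈ T) : (EG L c d T x y len g).Reachable (c (x p)) (c (x q)) := by
  have hout : ∀ p q, OutAdj T x p q → (EG L c d T x y len g).Reachable (c (x p)) (c (x q)) := by
    rintro p q (⟨⟨hp, hq, hlt, hno⟩, hev⟩ | ⟨hp, hq, hmax, hmin⟩)
    · apply X07_carc S _ _ hlt.le (S.xlt q hq)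
      intro i hi hi2
      rw [← X07_cnt T x (x p) i hi (fun t ht h1 => by
        by_contra h2
        exact hno t ht ⟨by omega, by omega⟩)]
      exact hev
    · exact X07_wrap S p hp hmax (x q) (S.xlt q hq) hmin
  have hin : ∀ p q, InAdj T y p q → (EG L c d T x y len g).Reachable (c (x p)) (c (x q)) := by
    rintro p q ⟨⟨hp, hq, hlt, hno⟩, hodd⟩
    have h1 : (EG L c d T x y len g).Reachable (d (y p)) (d (y q)) := by
      apply X07_darc S _ _ hlt.le (S.ylt q hq)
      intro i hi hi2
      rw [← X07_cnt T y (y p) i hi (fun t ht h1 => by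
        by_contra h2
        exact hno t ht ⟨by omega, by omega⟩)]
      exact hodd
    exact ((X07_cross S p hp).trans h1).trans (X07_cross S q hq).symm
  have hmemo : ∀ p q, OutAdj T x p q → p ∈ T ∧ q ∈ T := by
    rintro p q (⟨⟨hp, hq, -, -⟩, -⟩ | ⟨hp, hq, -, -⟩)
    · exact ⟨hp, hq⟩
    · exact ⟨hp, hq⟩
  have hmemi : ∀ p q, InAdj T y p q → p ∈ T ∧ q ∈ T := by
    rintro p q ⟨⟨hp, hq, -, -⟩, -⟩
    exact ⟨hp, hq⟩
  have key := hconn {r | r ∈ T ∧ (EG L c d T x y len g).Reachable (c (x p)) (c (x r))}
    ⟨p, hp, hp, SimpleGraph.Reachable.refl _⟩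
    (fun a b hab => ⟨fun h => ⟨(hmemo a b hab).2, h.2.trans (hout a b hab)⟩,
      fun h => ⟨(hmemo a b hab).1, h.2.trans (hout a b hab).symm⟩⟩)
    (fun a b hab => ⟨fun h => ⟨(hmemi a b hab).2, h.2.trans (hin a b hab)⟩,
      fun h => ⟨(hmemi a b hab).1, h.2.trans (hin a b hab).symm⟩⟩) q hq
  exact key.2

/-- Every vertex of an edge of the exchanged graph is reachable from a path start.

PROOF. Let `H = EG ...` and let `v` have a neighbour in `H`; by symmetry of the statement for the two ends of an edge
(they are reachable from each other) we may assume that `v` is the first vertex `a` of a related pair of `EG`.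
(1) `v = c i`, `cnt T x i` even. If some `t ∈ T` has `x t ≤ i`, let `p ∈ T` be one with `x p` maximal among these
(`Finset.exists_max_image`); for `x p ≤ k ≤ i` the count at `k` equals the count at `i` (elements of `T` with
position `≤ i` have position `≤ x p`), hence is even, so `c (x p)` is joined to `c i`. If there is no such `t`, let
`p ∈ T` have maximal position: for `x p ≤ k < L` the count is `T.card`, even; `c (L - 1)` is adjacent to `c 0`, and for
`k ≤ i` the count at `k` is `0`, so `c 0` is joined to `c i`.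
(2) `v = d i`, `cnt T y i` odd: the count is not `0`, so there is `t ∈ T` with `y t ≤ i`; take `p` with `y p` maximal
among these; as before `d (y p)` is joined to `d i`; and `c (x p) = g p 0` is joined to `d (y p) = g p (len p)` by
the path.
(3) `v = g p i`: joined to `g p 0 = c (x p)` along the path. -/
theorem EG_reach {V : Type u} {P : Type} {G : SimpleGraph V} {L : ℕ} {c d : ℕ → V} {T : Finset P}
    {x y len : P → ℕ} {g : P → ℕ → V} (S : Sys G L c d T x y len g) (v : V)
    (hv : v ∈ (EG L c d T x y len g).support) :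
    ∃ p ∈ T, (EG L c d T x y len g).Reachable (c (x p)) v := by
  have main : ∀ a b, ((∃ i < L, Even (cnt T x i) ∧ a = c i ∧ b = c (nx L i)) ∨
    (∃ i < L, Odd (cnt T y i) ∧ a = d i ∧ b = d (nx L i)) ∨
    (∃ p ∈ T, ∃ i < len p, a = g p i ∧ b = g p (i + 1))) →
    ∃ p ∈ T, (EG L c d T x y len g).Reachable (c (x p)) a := by
    rintro a b (⟨i, hi, hev, rfl, rfl⟩ | ⟨i, hi, hodd, rfl, rfl⟩ | ⟨p, hp, i, hi, rfl, rfl⟩)
    · by_cases hex : ∃ t ∈ T, x t ≤ i
      · obtain ⟨t, ht, hti⟩ := hex
        obtain ⟨p, hp, hpm⟩ := Finset.exists_max_image (T.filter (fun t => x t ≤ i)) x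
          ⟨t, Finset.mem_filter.2 ⟨ht, hti⟩⟩
        rw [Finset.mem_filter] at hp
        refine ⟨p, hp.1, X07_carc S _ _ hp.2 hi ?_⟩
        intro k hk hk2
        have h1 : cnt T x (x p) = cnt T x k := X07_cnt T x (x p) k hk (fun t ht h1 =>
          hpm t (Finset.mem_filter.2 ⟨ht, by omega⟩))
        have h2 : cnt T x (x p) = cnt T x i := X07_cnt T x (x p) i hp.2 (fun t ht h1 =>
          hpm t (Finset.mem_filter.2 ⟨ht, h1⟩))
        rw [← h1, h2]
        exact hev
      · push Not at hex
        obtain ⟨p, hp, hpm⟩ := Finset.exists_max_image T x S.ne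
        exact ⟨p, hp, X07_wrap S p hp hpm i hi (fun t ht => (hex t ht).le)⟩
    · have hpos : 0 < cnt T y i := hodd.pos
      unfold cnt at hpos
      obtain ⟨p, hp, hpm⟩ := Finset.exists_max_image (T.filter (fun t => y t ≤ i)) y
        (Finset.card_pos.1 hpos)
      rw [Finset.mem_filter] at hp
      refine ⟨p, hp.1, (X07_cross S p hp.1).trans (X07_darc S _ _ hp.2 hi ?_)⟩
      intro k hk hk2
      have h1 : cnt T y (y p) = cnt T y k := X07_cnt T y (y p) k hk (fun t ht h1 =>
        hpm t (Finset.mem_filter.2 ⟨ht, by omega⟩))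
      have h2 : cnt T y (y p) = cnt T y i := X07_cnt T y (y p) i hp.2 (fun t ht h1 =>
        hpm t (Finset.mem_filter.2 ⟨ht, h1⟩))
      rw [← h1, h2]
      exact hodd
    · exact ⟨p, hp, X07_path S p hp i hi.le⟩
  rw [SimpleGraph.mem_support] at hv
  obtain ⟨w, hw⟩ := hv
  have hw' := hw
  unfold EG at hw'
  rw [SimpleGraph.fromRel_adj] at hw'
  rcases hw'.2 with h | h
  · exact main v w h
  · obtain ⟨p, hp, hr⟩ := main w v h
    exact ⟨p, hp, hr.trans hw.symm.reachable⟩

end LC
end

section

/-! TASK X08 of MP_6bc8af_co. -/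

open Classical

namespace LC

universe u

/-- If the exchanged graph is connected it gives a cycle of `G` through all vertices of its support.

PROOF. Let `H = EG ...`. Take `p ∈ T` (`S.ne`) and `v = c (x p)`. `v` has an `H`-neighbour: the path edge
`g p 0, g p 1` (`1 ≤ len p`; the two vertices are different, being `G`-adjacent). By
`(EG_isCycles S).exists_cycle_toSubgraph_verts_eq_connectedComponentSupp` (Mathlib, namespace
`SimpleGraph.IsCycles`; its hypotheses: the component of `v` and the nonempty neighbour set) there is a cycle `w : H.Walk v v` whose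
`toSubgraph.verts` is the support of the component of `v`. This component is exactly `H.support`: a vertex of
`H.support` is reachable from some `c (x q)`, `q ∈ T` (`EG_reach`), which is reachable from `v` (`EG_reach_T`);
conversely a vertex of a cycle has a neighbour. The length of a cycle is the number of its vertices:
`w.length = w.toSubgraph.verts.ncard` (`w.support.tail` is duplicate free of length `w.length` and has the same
elements as `w.support`). Finally map `w` to `G` with `SimpleGraph.Walk.mapLe (EG_le S)`; length and `IsCycle` are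
preserved. -/
theorem EG_cycle {V : Type u} [Finite V] {P : Type} {G : SimpleGraph V} {L : ℕ} {c d : ℕ → V} {T : Finset P}
    {x y len : P → ℕ} {g : P → ℕ → V} (S : Sys G L c d T x y len g) (hconn : Conn T x y) :
    ∃ (v : V) (w : G.Walk v v), w.IsCycle ∧ w.length = (EG L c d T x y len g).support.ncard := by
  obtain ⟨p, hp⟩ := S.ne
  have hadj : (EG L c d T x y len g).Adj (g p 0) (g p 1) := by
    have h0 : 0 < len p := by
      have := S.len1 p hp
      omega
    have h1 := S.gadj p hp 0 h0
    rw [EG, SimpleGraph.fromRel_adj]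
    exact ⟨h1.ne, Or.inl (Or.inr (Or.inr ⟨p, hp, 0, h0, rfl, rfl⟩))⟩
  rw [S.g0 p hp] at hadj
  have hmem : c (x p) ∈ ((EG L c d T x y len g).connectedComponentMk (c (x p))).supp := rfl
  obtain ⟨w, hw, hverts⟩ :=
    (EG_isCycles S).exists_cycle_toSubgraph_verts_eq_connectedComponentSupp hmem ⟨_, hadj⟩
  refine ⟨_, w.mapLe (EG_le S), ?_, ?_⟩
  · exact hw.mapLe (EG_le S)
  · have hs : (EG L c d T x y len g).support = w.toSubgraph.verts := by
      rw [hverts]
      ext v
      constructor
      · intro hv
        obtain ⟨q, hq, hqv⟩ := EG_reach S v hv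
        have h2 := EG_reach_T S hconn p q hp hq
        exact (SimpleGraph.ConnectedComponent.mem_supp_iff _ _).2
          (SimpleGraph.ConnectedComponent.eq.2 (h2.trans hqv).symm)
      · intro hv
        rw [← hverts] at hv
        rw [SimpleGraph.Walk.verts_toSubgraph] at hv
        have hv' : v ∈ w.support := hv
        have hnn : ¬ w.Nil := hw.not_nil
        rw [SimpleGraph.mem_support]
        obtain ⟨e, he, hve⟩ := (SimpleGraph.Walk.mem_support_iff_exists_mem_edges_of_not_nil hnn).1 hv'
        induction e using Sym2.ind with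
        | _ a b =>
          have hab := w.adj_of_mem_edges he
          rcases Sym2.mem_iff.1 hve with rfl | rfl
          · exact ⟨_, hab⟩
          · exact ⟨_, hab.symm⟩
    have hl : w.length = w.toSubgraph.verts.ncard := by
      have h1 : w.toSubgraph.verts = (w.support.tail.toFinset : Set V) := by
        ext v
        rw [SimpleGraph.Walk.verts_toSubgraph]
        simp only [Set.mem_ofPred_eq, List.coe_toFinset]
        constructor
        · intro hv
          rcases (SimpleGraph.Walk.mem_support_iff w).1 hv with h2 | h2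
          · rw [h2]
            exact SimpleGraph.Walk.end_mem_tail_support hw.not_nil
          · exact h2
        · intro hv
          exact List.mem_of_mem_tail hv
      rw [h1, Set.ncard_coe_finset, List.toFinset_card_of_nodup hw.support_nodup,
        List.length_tail, SimpleGraph.Walk.length_support]
      rfl
    rw [hs, ← hl]
    simp

end LC
end

section

/-! Exchange lemma of MP_6bc8af_co. -/

open Classical

namespace LC

universe u

/-- The exchange lemma. -/
theorem exchange {V : Type u} [Finite V] {P : Type} {G : SimpleGraph V} {L : ℕ} {c d : ℕ → V} {T : Finset P}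
    {x y len : P → ℕ} {g : P → ℕ → V} (S : Sys G L c d T x y len g) (h1 : Conn T x y) (h2 : Conn T y x)
    (hmax : ∀ (v : V) (w : G.Walk v v), w.IsCycle → w.length ≤ L) : False := by
  obtain ⟨v, w, hw, hl⟩ := EG_cycle S h1
  obtain ⟨v', w', hw', hl'⟩ := EG_cycle S.swap h2
  have e1 := hmax v w hw
  have e2 := hmax v' w' hw'
  have e3 := support_count S
  omega

end LC
end
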