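import Pool.Agent.Lib.MP_6bc8af_co.Stmt
import Pool.Agent.Lib.MP_6bc8af_co.Mg.G001

section

/-!
# MP_6bc8af_co, campaign SM: definitions

Cycles are periodic sequences `c : ℕ → V` of period `L`; paths are lists of vertices. `Lk G a T b`: `T` is the list
of the interior vertices (at least one) of a path from `a` to `b`. `Gap c A i g`: `c i` and `c (i + g)` are consecutive
elements of `A` on `c`.
-/

namespace LC.Sm

universe u

variable {V : Type u}

/-- `c 0, c 1, ...` runs around a cycle with `L` vertices of `G` -/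
structure Cyc (G : SimpleGraph V) (L : ℕ) (c : ℕ → V) : Prop where
  three : 3 ≤ L
  per : ∀ i, c (i + L) = c i
  inj : ∀ i < L, ∀ j < L, c i = c j → i = j
  adj : ∀ i, G.Adj (c i) (c (i + 1))

/-- the list is a cycle of `G` -/
def CycList (G : SimpleGraph V) (l : List V) : Prop :=
  3 ≤ l.length ∧ l.Nodup ∧ l.IsChain G.Adj ∧ ∀ a b, l.getLast? = some a → l.head? = some b → G.Adj a b

/-- no cycle of `G` has more than `L` vertices -/
def Mx (G : SimpleGraph V) (L : ℕ) : Prop := ∀ l, CycList G l → l.length ≤ L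

/-- the list is a (nonempty) path of `G` -/
def PL (G : SimpleGraph V) (l : List V) : Prop := l ≠ [] ∧ l.Nodup ∧ l.IsChain G.Adj

/-- no element of the list is on `c` -/
def Out (c : ℕ → V) (l : List V) : Prop := ∀ v ∈ l, v ∉ Set.range c

/-- `T` (not empty) is the list of the interior vertices of a path from `a` to `b` -/
def Lk (G : SimpleGraph V) (a : V) (T : List V) (b : V) : Prop :=
  T ≠ [] ∧ T.Nodup ∧ (a :: (T ++ [b])).IsChain G.Adj

/-- `c i, ..., c (i + g - 1)` -/
def arc (c : ℕ → V) (i g : ℕ) : List V := (List.range g).map (fun j => c (i + j))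

/-- `c i` and `c (i + g)` are consecutive elements of `A` on `c` -/
def Gap (c : ℕ → V) (A : Set V) (i g : ℕ) : Prop :=
  c i ∈ A ∧ 1 ≤ g ∧ c (i + g) ∈ A ∧ ∀ j, 1 ≤ j → j < g → c (i + j) ∉ A

/-- the length of the gap after `c i` -/
noncomputable def gp (c : ℕ → V) (A : Set V) (i : ℕ) : ℕ := sInf {g | 1 ≤ g ∧ c (i + g) ∈ A}

/-- the vertices of the gaps of `A` of length at least `p + 2`, with their ends -/
def LongV (c : ℕ → V) (A : Set V) (p : ℕ) : Set V :=
  {v | ∃ i g j, Gap c A i g ∧ p + 2 ≤ g ∧ j ≤ g ∧ v = c (i + j)}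

/-- `G` without the edges at the vertices of `X` -/
def Dl (G : SimpleGraph V) (X : Set V) : SimpleGraph V where
  Adj a b := G.Adj a b ∧ a ∉ X ∧ b ∉ X
  symm := ⟨fun _ _ h => ⟨h.1.symm, h.2.2, h.2.1⟩⟩
  loopless := ⟨fun _ h => G.irrefl h.1⟩

/-- the vertices which can be reached from the list `R` outside the cycle `c` -/
def Kp (G : SimpleGraph V) (c : ℕ → V) (R : List V) : Set V :=
  {v | ∃ u ∈ R, (Dl G (Set.range c)).Reachable u v}

/-- the vertices of `c` which are adjacent to both ends of the path `R` -/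
def AA (G : SimpleGraph V) (c : ℕ → V) (R : List V) : Set V :=
  {x | x ∈ Set.range c ∧ (∀ a, R.head? = some a → G.Adj x a) ∧ ∀ b, R.getLast? = some b → G.Adj x b}

/-- the full segment number `i` of `d`: `d (i + 1), ..., d (i + p)` -/
def sg (d : ℕ → V) (p i : ℕ) : List V := arc d (i + 1) p

open Classical in
/-- the starts of the full segments: the positions `i < L` with a gap `p + 1` of `W` after `d i` -/
noncomputable def FS (d : ℕ → V) (W : Set V) (p L : ℕ) : Finset ℕ :=
  (Finset.range L).filter (fun i => Gap d W i (p + 1))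

open Classical in
/-- the full segments whose component outside `c` contains no other vertex of `d` -/
noncomputable def I1 (G : SimpleGraph V) (c d : ℕ → V) (W : Set V) (p L : ℕ) : Finset ℕ :=
  (FS d W p L).filter (fun i => ∀ n, d n ∈ Kp G c (sg d p i) → d n ∈ sg d p i)

/-- the hypotheses: `c`, `d` are longest cycles with the set `W` of common vertices; `p` is the maximal number of vertices of
a path outside `c`, and of a path outside `d`; `G - W` is connected and `W` has at most `k + t` elements. -/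
structure Su (G : SimpleGraph V) (k t p L : ℕ) (c d : ℕ → V) (W : Set V) : Prop where
  hW : W = Set.range c ∩ Set.range d
  hc : Cyc G L c
  hd : Cyc G L d
  mx : Mx G L
  pc : ∀ l, PL G l → Out c l → l.length ≤ p
  pd : ∀ l, PL G l → Out d l → l.length ≤ p
  ec : ∃ l, PL G l ∧ Out c l ∧ l.length = p
  ed : ∃ l, PL G l ∧ Out d l ∧ l.length = p
  deg : ∀ v, k ≤ (G.neighborSet v).ncard
  con : (G.induce {v | v ∉ W}).Preconnected
  w : W.ncard ≤ k + t
  big : 30 * (p + 1) ^ 6 * (t + 1) ≤ k
  p1 : 1 ≤ p

/-- The roles of `c` and `d` can be exchanged. -/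
theorem Su.swap {G : SimpleGraph V} {k t p L : ℕ} {c d : ℕ → V} {W : Set V} (h : Su G k t p L c d W) :
    Su G k t p L d c W :=
  ⟨h.hW.trans (Set.inter_comm _ _), h.hd, h.hc, h.mx, h.pd, h.pc, h.ed, h.ec, h.deg, h.con, h.w, h.big, h.p1⟩

end LC.Sm
end

section

/-!
# MP_6bc8af_co, campaign SM, A1: arcs and periodic sequences
-/

namespace LC.Sm

universe u

variable {V : Type u}

theorem arc_length (c : ℕ → V) (i g : ℕ) : (arc c i g).length = g := by
  simp [arc]

theorem mem_arc {c : ℕ → V} {i g : ℕ} {v : V} : v ∈ arc c i g ↔ ∃ j < g, c (i + j) = v := by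
  simp [arc]

theorem arc_get (c : ℕ → V) (i g j : ℕ) (h : j < (arc c i g).length) : (arc c i g)[j] = c (i + j) := by
  simp [arc]

theorem arc_add (c : ℕ → V) (i g g' : ℕ) : arc c i (g + g') = arc c i g ++ arc c (i + g) g' := by
  unfold arc
  rw [List.range_add, List.map_append, List.map_map]
  congr 1
  apply List.map_congr_left
  intro j _
  simp only [Function.comp, Nat.add_assoc]

theorem arc_one (c : ℕ → V) (i : ℕ) : arc c i 1 = [c i] := by
  simp [arc]

theorem arc_succ (c : ℕ → V) (i g : ℕ) : arc c i (g + 1) = c i :: arc c (i + 1) g := by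
  rw [Nat.add_comm g 1, arc_add, arc_one]
  rfl

theorem arc_succ' (c : ℕ → V) (i g : ℕ) : arc c i (g + 1) = arc c i g ++ [c (i + g)] := by
  rw [arc_add, arc_one]

theorem arc_ne_nil {c : ℕ → V} {i g : ℕ} (h : 1 ≤ g) : arc c i g ≠ [] := by
  intro h0
  have := arc_length c i g
  rw [h0] at this
  simp at this
  omega

theorem arc_head {c : ℕ → V} {i g : ℕ} (h : 1 ≤ g) : (arc c i g).head? = some (c i) := by
  obtain ⟨g, rfl⟩ : ∃ m, g = m + 1 := ⟨g - 1, by omega⟩
  rw [arc_succ]
  rfl

theorem arc_last {c : ℕ → V} {i g : ℕ} (h : 1 ≤ g) : (arc c i g).getLast? = some (c (i + g - 1)) := by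
  obtain ⟨g, rfl⟩ : ∃ m, g = m + 1 := ⟨g - 1, by omega⟩
  rw [arc_succ', List.getLast?_append]
  simp

theorem arc_chain {G : SimpleGraph V} {L : ℕ} {c : ℕ → V} (hc : Cyc G L c) (i g : ℕ) : (arc c i g).IsChain G.Adj := by
  rw [List.isChain_iff_getElem]
  intro j hj
  rw [arc_length] at hj
  rw [arc_get, arc_get]
  exact hc.adj (i + j)

theorem Cyc.pos {G : SimpleGraph V} {L : ℕ} {c : ℕ → V} (hc : Cyc G L c) : 0 < L := by
  have := hc.three
  omega

theorem Cyc.per_mul {G : SimpleGraph V} {L : ℕ} {c : ℕ → V} (hc : Cyc G L c) (i m : ℕ) : c (i + L * m) = c i := by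
  induction m with
  | zero => simp
  | succ m ih =>
    rw [Nat.mul_succ, ← Nat.add_assoc, hc.per, ih]

theorem Cyc.mod {G : SimpleGraph V} {L : ℕ} {c : ℕ → V} (hc : Cyc G L c) (i : ℕ) : c (i % L) = c i := by
  conv_rhs => rw [← Nat.mod_add_div i L]
  rw [hc.per_mul]

theorem Cyc.eq_iff {G : SimpleGraph V} {L : ℕ} {c : ℕ → V} (hc : Cyc G L c) (i j : ℕ) : c i = c j ↔ i % L = j % L := by
  constructor
  · intro h
    rw [← hc.mod i, ← hc.mod j] at h
    exact hc.inj _ (Nat.mod_lt _ hc.pos) _ (Nat.mod_lt _ hc.pos) h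
  · intro h
    rw [← hc.mod i, ← hc.mod j, h]

/-- different positions at distance less than `L` carry different vertices -/
theorem Cyc.ne_of_lt {G : SimpleGraph V} {L : ℕ} {c : ℕ → V} (hc : Cyc G L c) {i j : ℕ} (h1 : i < j) (h2 : j < i + L) :
    c i ≠ c j := by
  intro h
  rw [hc.eq_iff] at h
  have h3 : (j - i) % L = 0 := by
    have h4 : i ≡ j [MOD L] := h
    have h5 := (Nat.modEq_iff_dvd' h1.le).1 h4
    exact Nat.mod_eq_zero_of_dvd h5
  rw [Nat.mod_eq_of_lt (by omega)] at h3
  omega

theorem Cyc.exists_lt {G : SimpleGraph V} {L : ℕ} {c : ℕ → V} (hc : Cyc G L c) {v : V} (hv : v ∈ Set.range c) (s : ℕ) :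
    ∃ i, s ≤ i ∧ i < s + L ∧ c i = v := by
  obtain ⟨n, rfl⟩ := hv
  have hL := hc.pos
  refine ⟨s + (n + (L - s % L)) % L, by omega, by have := Nat.mod_lt (n + (L - s % L)) hL; omega, ?_⟩
  rw [hc.eq_iff, Nat.add_mod, Nat.mod_mod, ← Nat.add_mod]
  have h1 := Nat.mod_lt s hL
  have h2 : s + (n + (L - s % L)) = n + L * (s / L + 1) := by
    have h3 := Nat.mod_add_div s L
    rw [Nat.mul_succ]
    omega
  rw [h2, Nat.add_mul_mod_self_left]

theorem arc_nodup {G : SimpleGraph V} {L : ℕ} {c : ℕ → V} (hc : Cyc G L c) (i : ℕ) {g : ℕ} (hg : g ≤ L) :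
    (arc c i g).Nodup := by
  unfold arc
  refine List.Nodup.map_on ?_ List.nodup_range
  intro a ha b hb h
  rw [List.mem_range] at ha hb
  by_contra hne
  rcases Nat.lt_or_gt_of_ne hne with h1 | h1
  · exact hc.ne_of_lt (i := i + a) (j := i + b) (by omega) (by omega) h
  · exact hc.ne_of_lt (i := i + b) (j := i + a) (by omega) (by omega) h.symm

theorem range_eq {G : SimpleGraph V} {L : ℕ} {c : ℕ → V} (hc : Cyc G L c) (s : ℕ) :
    Set.range c = {v | v ∈ arc c s L} := by
  ext v
  constructor
  · intro hv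
    obtain ⟨i, h1, h2, h3⟩ := hc.exists_lt hv s
    exact mem_arc.2 ⟨i - s, by omega, by rw [← h3]; congr 1; omega⟩
  · intro hv
    obtain ⟨j, _, hj⟩ := mem_arc.1 hv
    exact ⟨_, hj⟩

theorem range_ncard {G : SimpleGraph V} {L : ℕ} {c : ℕ → V} (hc : Cyc G L c) : (Set.range c).ncard = L := by
  classical
  rw [range_eq hc 0]
  have h1 : {v | v ∈ arc c 0 L} = ((arc c 0 L).toFinset : Set V) := by
    ext v
    simp
  rw [h1, Set.ncard_coe_finset, List.toFinset_card_of_nodup (arc_nodup hc 0 le_rfl), arc_length]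

theorem PL_arc {G : SimpleGraph V} {L : ℕ} {c : ℕ → V} (hc : Cyc G L c) (i : ℕ) {g : ℕ} (h1 : 1 ≤ g) (hg : g ≤ L) :
    PL G (arc c i g) := ⟨arc_ne_nil h1, arc_nodup hc i hg, arc_chain hc i g⟩

/-- the arc is a link between its two neighbours -/
theorem Lk_arc {G : SimpleGraph V} {L : ℕ} {c : ℕ → V} (hc : Cyc G L c) (i : ℕ) {g : ℕ} (h1 : 1 ≤ g) (hg : g ≤ L) :
    Lk G (c i) (arc c (i + 1) g) (c (i + g + 1)) := by
  refine ⟨arc_ne_nil h1, arc_nodup hc _ hg, ?_⟩
  have h : c i :: (arc c (i + 1) g ++ [c (i + g + 1)]) = arc c i (g + 2) := by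
    rw [show g + 2 = (g + 1) + 1 by rfl, arc_succ, arc_succ', show i + 1 + g = i + g + 1 by omega]
  rw [h]
  exact arc_chain hc _ _

theorem Lk.symm {G : SimpleGraph V} {a b : V} {T : List V} (h : Lk G a T b) : Lk G b T.reverse a := by
  refine ⟨by simpa using h.1, List.nodup_reverse.2 h.2.1, ?_⟩
  have h1 : b :: (T.reverse ++ [a]) = (a :: (T ++ [b])).reverse := by simp
  rw [h1, List.isChain_reverse]
  exact h.2.2.imp fun _ _ h => h.symm

theorem Lk.pl {G : SimpleGraph V} {a b : V} {T : List V} (h : Lk G a T b) : PL G T := by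
  refine ⟨h.1, h.2.1, ?_⟩
  have h1 := h.2.2
  rw [List.isChain_cons] at h1
  exact h1.2.left_of_append

theorem Lk_iff {G : SimpleGraph V} {a b : V} {T : List V} : Lk G a T b ↔ PL G T ∧
    (∀ x, T.head? = some x → G.Adj a x) ∧ ∀ y, T.getLast? = some y → G.Adj y b := by
  constructor
  · intro h
    refine ⟨h.pl, ?_, ?_⟩
    · intro x hx
      have h1 := h.2.2
      rw [List.isChain_cons] at h1
      apply h1.1
      rw [List.head?_append, hx]
      rfl
    · intro y hy
      have h1 := h.symm.2.2
      rw [List.isChain_cons] at h1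
      refine (h1.1 y ?_).symm
      rw [List.head?_append, List.head?_reverse, hy]
      rfl
  · rintro ⟨⟨h1, h2, h3⟩, h4, h5⟩
    refine ⟨h1, h2, ?_⟩
    rw [List.isChain_cons, List.isChain_append]
    refine ⟨?_, h3, by simp, ?_⟩
    · intro x hx
      cases T with
      | nil => exact absurd rfl h1
      | cons z T => exact h4 x hx
    · intro x hx y hy
      simp only [List.head?_cons, Option.mem_def, Option.some.injEq] at hy
      rw [← hy]
      exact h5 x hx

end LC.Sm
end

section

/-!
# TASK SM F1: closed walks and periodic sequences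

PROOF.
`cyc_of_walk`: `c i = w.getVert (i % w.length)`; `cycseq_of_walk` (file K01) gives `CycSeq G w.length w.getVert` and the description of the support. `per`: `Nat.add_mod_right`. `inj`: `Nat.mod_eq_of_lt`. `adj`: for `j = i % L < L`: `nx L j` is `(i + 1) % L` (`nx L j = if j + 1 = L then 0 else j + 1`).
`mx_of_longest`: let `l` be a `CycList` with `n` elements, `n ≥ 3`. `z i = l.getD i a` is a `CycSeq G n z` (`nx n i = i + 1` if `i + 1 < n`, `nx n (n - 1) = 0`; `List.isChain_iff_getElem`, `List.Nodup.getElem_inj_iff`; the last condition of `CycList` for the edge from the last to the first element). `walk_of_cycseq` gives a cycle of length `n`.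
`out_vertex`: if all vertices are in `c.support`, then `G` is Hamiltonian: the walk `c` is a Hamiltonian cycle (`SimpleGraph.IsHamiltonian`, `SimpleGraph.Walk.IsHamiltonianCycle`, `SimpleGraph.Walk.isHamiltonianCycle_iff_isCycle_and_support_count_tail_eq_one` or similar).
-/

namespace LC.Sm

open Classical

universe u

theorem cyc_of_walk {V : Type u} {G : SimpleGraph V} {v : V} (w : G.Walk v v) (hw : w.IsCycle) :
    ∃ c : ℕ → V, Cyc G w.length c ∧ Set.range c = {z | z ∈ w.support} := by
  obtain ⟨h, hs⟩ := cycseq_of_walk w hw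
  have h3 := h.three
  refine ⟨fun i => w.getVert (i % w.length), ⟨h3, ?_, ?_, ?_⟩, ?_⟩
  · intro i
    show w.getVert ((i + w.length) % w.length) = w.getVert (i % w.length)
    rw [Nat.add_mod_right]
  · intro i hi j hj hij
    have hij' : w.getVert (i % w.length) = w.getVert (j % w.length) := hij
    rw [Nat.mod_eq_of_lt hi, Nat.mod_eq_of_lt hj] at hij'
    exact h.inj i hi j hj hij'
  · intro i
    have hj : i % w.length < w.length := Nat.mod_lt _ (by omega)
    have h1 := h.adj _ hj
    have h2 : nx w.length (i % w.length) = (i + 1) % w.length := by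
      have h5 : (i + 1) % w.length = (i % w.length + 1) % w.length :=
        (Nat.mod_add_mod i w.length 1).symm
      unfold nx
      split_ifs with h4
      · rw [h5, h4, Nat.mod_self]
      · rw [h5]
        exact (Nat.mod_eq_of_lt (show i % w.length + 1 < w.length by omega)).symm
    rw [h2] at h1
    exact h1
  · ext z
    rw [Set.mem_range]
    show _ ↔ z ∈ w.support
    rw [hs]
    constructor
    · rintro ⟨i, rfl⟩
      exact ⟨i % w.length, Nat.mod_lt _ (by omega), rfl⟩
    · rintro ⟨i, hi, rfl⟩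
      exact ⟨i, by rw [Nat.mod_eq_of_lt hi]⟩

theorem mx_of_longest {V : Type u} {G : SimpleGraph V} {a : V} {w : G.Walk a a} (h : IsLongest w) : Mx G w.length := by
  rintro l ⟨h3, hnd, hch, hcl⟩
  have hne : l ≠ [] := by
    rintro rfl
    simp at h3
  have hget : ∀ i (hi : i < l.length), l.getD i a = l[i] := fun i hi => by
    rw [List.getD_eq_getElem _ _ hi]
  have hseq : CycSeq G l.length (fun i => l.getD i a) := by
    refine ⟨h3, ?_, ?_⟩
    · intro i hi j hj hij
      have hij' : l.getD i a = l.getD j a := hij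
      rw [hget i hi, hget j hj] at hij'
      exact (hnd.getElem_inj_iff).1 hij'
    · intro i hi
      show G.Adj (l.getD i a) (l.getD (nx l.length i) a)
      unfold nx
      split_ifs with h4
      · rw [hget i hi, hget 0 (by omega)]
        apply hcl
        · rw [List.getLast?_eq_getElem?, List.getElem?_eq_getElem (by omega)]
          congr 2
          omega
        · rw [List.head?_eq_getElem?, List.getElem?_eq_getElem (by omega)]
      · rw [hget i hi, hget (i + 1) (by omega)]
        exact List.isChain_iff_getElem.1 hch i (by omega)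
  obtain ⟨w', hw', hlen, -, -⟩ := walk_of_cycseq hseq
  rw [← hlen]
  exact h.2 _ w' hw'

theorem out_vertex {V : Type u} [Fintype V] {G : SimpleGraph V} {a : V} {w : G.Walk a a} (hw : w.IsCycle)
    (h : ¬ G.IsHamiltonian) : ∃ v, v ∉ w.support := by
  by_contra hno
  push Not at hno
  apply h
  intro _
  refine ⟨a, w, ?_⟩
  rw [SimpleGraph.Walk.isHamiltonianCycle_iff_isCycle_and_support_count_tail_eq_one]
  refine ⟨hw, fun v => ?_⟩
  apply List.count_eq_one_of_mem hw.support_nodup
  rcases SimpleGraph.Walk.mem_support_iff w |>.1 (hno v) with h1 | h1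
  · rw [h1]
    exact SimpleGraph.Walk.end_mem_tail_support hw.not_nil
  · exact h1

end LC.Sm
end

section

/-!
# TASK SM B1: gaps of a set of vertices of a cycle

`gap_exists`: `{g | 1 ≤ g ∧ c (i + g) ∈ A}` contains `L` (`Cyc.per`), take its least element (`gp`, `Nat.sInf_mem`, `Nat.notMem_of_lt_sInf`).
`gap_at`: let `c i₀ ∈ A`; by `Cyc.exists_lt` there is a position `i₁ ≤ n + L` with `n < i₁`, `c i₁ ∈ A`; let `i ≤ n + L` be the greatest position with `c i ∈ A`; its gap ends after `n + L`.
`gap_sum`. `{(i, j) : i < L, c i ∈ A, j < gp c A i}` is mapped bijectively to `{0, ..., L - 1}` by `(i, j) ↦ (i + j) % L`. Injective: if `(i + j) % L = (i' + j') % L` then (after adding `L` to one of the two if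
necessary) two half-open gaps `[i, i + gp)`, `[i', i' + gp')` of `A` with `i, i' < 2 L` meet, so they are equal. Surjective: `gap_at`. (Any other proof is welcome, for instance by sorting the positions.)
-/

namespace LC.Sm

universe u

variable {V : Type u}

theorem gap_exists {G : SimpleGraph V} {L : ℕ} {c : ℕ → V} (hc : Cyc G L c) {A : Set V} {i : ℕ} (h : c i ∈ A) :
    Gap c A i (gp c A i) ∧ gp c A i ≤ L := by
  have hne : ({g | 1 ≤ g ∧ c (i + g) ∈ A} : Set ℕ).Nonempty :=
    ⟨L, hc.pos, by rw [hc.per]; exact h⟩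
  have h1 := Nat.sInf_mem hne
  refine ⟨⟨h, h1.1, h1.2, ?_⟩, ?_⟩
  · intro j hj1 hj2 hj3
    have : gp c A i ≤ j := Nat.sInf_le ⟨hj1, hj3⟩
    omega
  · exact Nat.sInf_le ⟨hc.pos, by rw [hc.per]; exact h⟩

theorem gap_uniq {c : ℕ → V} {A : Set V} {i g g' : ℕ} (h : Gap c A i g) (h' : Gap c A i g') : g = g' := by
  rcases Nat.lt_trichotomy g g' with h1 | h1 | h1
  · exact absurd h.2.2.1 (h'.2.2.2 g h.2.1 h1)
  · exact h1
  · exact absurd h'.2.2.1 (h.2.2.2 g' h'.2.1 h1)

theorem gap_eq {c : ℕ → V} {A : Set V} {i g : ℕ} (h : Gap c A i g) : gp c A i = g := by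
  have hne : ({g | 1 ≤ g ∧ c (i + g) ∈ A} : Set ℕ).Nonempty := ⟨g, h.2.1, h.2.2.1⟩
  have h1 := Nat.sInf_mem hne
  refine gap_uniq (c := c) (A := A) (i := i) ⟨h.1, h1.1, h1.2, ?_⟩ h
  intro j hj1 hj2 hj3
  have : gp c A i ≤ j := Nat.sInf_le ⟨hj1, hj3⟩
  omega

/-- the gap at another position of the same vertex -/
theorem gap_shift {G : SimpleGraph V} {L : ℕ} {c : ℕ → V} (hc : Cyc G L c) {A : Set V} {i j g : ℕ} (h : c i = c j)
    (h' : Gap c A i g) : Gap c A j g := by
  have key : ∀ m, c (i + m) = c (j + m) := by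
    intro m
    rw [hc.eq_iff] at h ⊢
    exact Nat.ModEq.add_right m h
  refine ⟨h ▸ h'.1, h'.2.1, ?_, ?_⟩
  · rw [← key]; exact h'.2.2.1
  · intro m h1 h2
    rw [← key]; exact h'.2.2.2 m h1 h2

theorem gap_at {G : SimpleGraph V} {L : ℕ} {c : ℕ → V} (hc : Cyc G L c) {A : Set V} (h : ∃ i, c i ∈ A) (n : ℕ) :
    ∃ i g, Gap c A i g ∧ i ≤ n + L ∧ n + L < i + g ∧ n < i := by
  classical
  obtain ⟨i₀, hi₀⟩ := h
  obtain ⟨i₁, h1, h2, h3⟩ := hc.exists_lt (v := c i₀) ⟨i₀, rfl⟩ (n + 1)
  have hA1 : c i₁ ∈ A := by rw [h3]; exact hi₀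
  have h4 : i₁ ≤ n + L := by omega
  have hP : ∃ m, (fun m => c m ∈ A) m ∧ m ≤ n + L := ⟨i₁, hA1, h4⟩
  have hs := Nat.findGreatest_spec (P := fun m => c m ∈ A) h4 hA1
  have hle : Nat.findGreatest (fun m => c m ∈ A) (n + L) ≤ n + L := Nat.findGreatest_le _
  have hge : i₁ ≤ Nat.findGreatest (fun m => c m ∈ A) (n + L) := Nat.le_findGreatest h4 hA1
  have hg := (gap_exists hc hs).1
  refine ⟨_, _, hg, hle, ?_, by omega⟩
  by_contra hcon
  have h5 := Nat.le_findGreatest (P := fun m => c m ∈ A) (not_lt.1 hcon) hg.2.2.1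
  have h6 := hg.2.1
  omega

open Classical in
theorem gap_sum {G : SimpleGraph V} {L : ℕ} {c : ℕ → V} (hc : Cyc G L c) {A : Set V} (h : ∃ i, c i ∈ A) :
    ∑ i ∈ (Finset.range L).filter (fun i => c i ∈ A), gp c A i = L := by
  obtain ⟨i₀, hi₀⟩ := h
  have key : ∀ k i : ℕ, ∀ m, c i ∈ A → c m ∈ A → i ≤ m → m - i ≤ k →
      ∑ j ∈ Finset.Ico i m, (if c j ∈ A then gp c A j else 0) = m - i := by
    intro k
    induction k with
    | zero =>
      intro i m _ _ h1 h2
      have : m = i := by omega
      subst this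
      simp
    | succ k ih =>
      intro i m hi hm h1 h2
      rcases Nat.eq_or_lt_of_le h1 with h3 | h3
      · subst h3; simp
      · have hg := (gap_exists hc hi).1
        have hg1 := hg.2.1
        have hgm : i + gp c A i ≤ m := by
          by_contra hcon
          have := hg.2.2.2 (m - i) (by omega) (by omega)
          rw [show i + (m - i) = m by omega] at this
          exact this hm
        have h4 := ih (i + gp c A i) m hg.2.2.1 hm hgm (by omega)
        rw [← Finset.sum_Ico_consecutive _ (show i ≤ i + gp c A i by omega) hgm, h4,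
          Finset.sum_eq_sum_Ico_succ_bot (show i < i + gp c A i by omega), if_pos hi]
        have h5 : ∑ j ∈ Finset.Ico (i + 1) (i + gp c A i), (if c j ∈ A then gp c A j else 0) = 0 := by
          apply Finset.sum_eq_zero
          intro j hj
          rw [Finset.mem_Ico] at hj
          rw [if_neg]
          have := hg.2.2.2 (j - i) (by omega) (by omega)
          rwa [show i + (j - i) = j by omega] at this
        rw [h5]
        omega
  have hper : ∀ j, (if c (j + L) ∈ A then gp c A (j + L) else 0) = (if c j ∈ A then gp c A j else 0) := by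
    intro j
    rw [hc.per]
    congr 1
    unfold gp
    congr 1
    ext g
    simp only [Set.mem_ofPred_eq]
    rw [show j + L + g = (j + g) + L by omega, hc.per]
  have hwin : ∀ n, ∑ j ∈ Finset.Ico n (n + L), (if c j ∈ A then gp c A j else 0) =
      ∑ j ∈ Finset.range L, (if c j ∈ A then gp c A j else 0) := by
    intro n
    induction n with
    | zero => rw [Nat.zero_add, Finset.range_eq_Ico]
    | succ n ih =>
      have hL := hc.pos
      rw [← ih, Finset.sum_eq_sum_Ico_succ_bot (show n < n + L by omega),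
        show n + 1 + L = (n + L) + 1 by omega, Finset.sum_Ico_succ_top (show n + 1 ≤ n + L by omega), hper]
      exact Nat.add_comm _ _
  rw [Finset.sum_filter, ← hwin i₀, key L i₀ (i₀ + L) hi₀ (by rw [hc.per]; exact hi₀) (by omega) (by omega)]
  omega

open Classical in
/-- PROOF. `i ↦ c i` is a bijection from these positions to `A`. -/
theorem card_pos {G : SimpleGraph V} {L : ℕ} {c : ℕ → V} (hc : Cyc G L c) {A : Set V} (h : A ⊆ Set.range c) :
    ((Finset.range L).filter (fun i => c i ∈ A)).card = A.ncard := by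
  have h1 : A = (((Finset.range L).filter (fun i => c i ∈ A)).image c : Finset V) := by
    ext v
    rw [Finset.coe_image, Set.mem_image]
    constructor
    · intro hv
      obtain ⟨i, _, h2, h3⟩ := hc.exists_lt (h hv) 0
      refine ⟨i, ?_, h3⟩
      rw [Finset.mem_coe, Finset.mem_filter, Finset.mem_range]
      exact ⟨by omega, by rw [h3]; exact hv⟩
    · rintro ⟨i, hi, rfl⟩
      rw [Finset.mem_coe, Finset.mem_filter] at hi
      exact hi.2
  conv_rhs => rw [h1]
  rw [Set.ncard_coe_finset, Finset.card_image_of_injOn]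
  intro a ha b hb hab
  rw [Finset.mem_coe, Finset.mem_filter, Finset.mem_range] at ha hb
  exact hc.inj a ha.1 b hb.1 hab

end LC.Sm
end

section

/-!
# TASK SM K1: connecting paths and halves of paths

`Dl G X` is `G` without the edges at the vertices of `X`.

PROOF.
`Dl_out`: induction on the walk (a nontrivial walk of `Dl G X` starts and ends outside `X`).
`conn_min`: induction on a walk of `Dl G X` from `v` to `u`. If `v ∈ S` take `P = [v]` (this includes the trivial walk). Otherwise the walk is `v, v1, ...`; for `v1` there is a path `P1`. If `v ∉ P1` take `v :: P1`. If `v ∈ P1`, write `P1 = A ++ v :: B`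
(`List.append_of_mem`) and take `v :: B` (the last element is the same; `v ∉ S`, so `B ≠ []`).
`last_mem`: induction on the list (or take the last index with an element in `S`).
`half`: write `R = R1 ++ x :: R2`; `H = x :: R2` or `H = (R1 ++ [x]).reverse = x :: R1.reverse`; the sum of the two lengths is `R.length + 1`.
-/

namespace LC.Sm

universe u

variable {V : Type u}

theorem Dl_out {G : SimpleGraph V} {X : Set V} {u v : V} (h : (Dl G X).Reachable u v) (hu : u ∉ X) : v ∉ X := by
  obtain ⟨p⟩ := h
  induction p with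
  | nil => exact hu
  | cons hadj p ih => exact ih hadj.2.2

theorem conn_min {G : SimpleGraph V} {X S : Set V} {v u : V} (h : (Dl G X).Reachable v u) (hu : u ∈ S) (hv : v ∉ X) :
    ∃ (P : List V) (u' : V), PL G (P ++ [u']) ∧ (P ++ [u']).head? = some v ∧ u' ∈ S ∧ (∀ x ∈ P, x ∉ S) ∧
      ∀ x ∈ P ++ [u'], x ∉ X ∧ (Dl G X).Reachable v x := by
  classical
  have key : ∀ (v : V), v ∈ S → v ∉ X → ∃ (P : List V) (u' : V), PL G (P ++ [u']) ∧
      (P ++ [u']).head? = some v ∧ u' ∈ S ∧ (∀ x ∈ P, x ∉ S) ∧
      ∀ x ∈ P ++ [u'], x ∉ X ∧ (Dl G X).Reachable v x := by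
    intro v hvS hvX
    refine ⟨[], v, ⟨by simp, by simp, by simp⟩, rfl, hvS, by simp, ?_⟩
    intro x hx
    rw [List.nil_append, List.mem_singleton] at hx
    rw [hx]
    exact ⟨hvX, SimpleGraph.Reachable.refl _⟩
  obtain ⟨p⟩ := h
  induction p with
  | nil => exact key _ hu hv
  | @cons a b u hadj p ih =>
    by_cases haS : a ∈ S
    · exact key _ haS hv
    · obtain ⟨P1, u1, hPL, hhead, hu1, hP1, hall⟩ := ih hu hadj.2.2
      have hab : (Dl G X).Reachable a b := SimpleGraph.Adj.reachable hadj
      by_cases hmem : a ∈ P1 ++ [u1]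
      · have haP : a ∈ P1 := by
          rcases List.mem_append.1 hmem with h | h
          · exact h
          · rw [List.mem_singleton] at h
            exact absurd (h ▸ hu1) haS
        obtain ⟨A, B, hAB⟩ := List.append_of_mem haP
        have hsplit : P1 ++ [u1] = A ++ (a :: B ++ [u1]) := by
          rw [hAB]
          simp
        refine ⟨a :: B, u1, ⟨by simp, ?_, ?_⟩, rfl, hu1, ?_, ?_⟩
        · have h1 := hPL.2.1
          rw [hsplit] at h1
          exact h1.of_append_right
        · have h1 := hPL.2.2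
          rw [hsplit] at h1
          exact h1.right_of_append
        · intro x hx
          apply hP1
          rw [hAB]
          exact List.mem_append_right _ hx
        · intro x hx
          have h1 := hall x (by rw [hsplit]; exact List.mem_append_right _ hx)
          exact ⟨h1.1, hab.trans h1.2⟩
      · refine ⟨a :: P1, u1, ⟨by simp, ?_, ?_⟩, rfl, hu1, ?_, ?_⟩
        · rw [List.cons_append, List.nodup_cons]
          exact ⟨hmem, hPL.2.1⟩
        · rw [List.cons_append, List.isChain_cons]
          refine ⟨?_, hPL.2.2⟩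
          intro y hy
          rw [hhead] at hy
          have hy' : b = y := Option.some.inj hy
          rw [← hy']
          exact hadj.1
        · intro x hx
          rcases List.mem_cons.1 hx with h | h
          · rw [h]
            exact haS
          · exact hP1 x h
        · intro x hx
          rw [List.cons_append] at hx
          rcases List.mem_cons.1 hx with h | h
          · rw [h]
            exact ⟨hv, SimpleGraph.Reachable.refl _⟩
          · exact ⟨(hall x h).1, hab.trans (hall x h).2⟩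

theorem last_mem {S : Set V} (l : List V) (h : ∃ x ∈ l, x ∈ S) : ∃ (A B : List V) (x : V), l = A ++ x :: B ∧ x ∈ S ∧
    ∀ y ∈ B, y ∉ S := by
  induction l with
  | nil =>
    obtain ⟨x, hx, _⟩ := h
    exact absurd hx List.not_mem_nil
  | cons a l ih =>
    by_cases h1 : ∃ x ∈ l, x ∈ S
    · obtain ⟨A, B, x, hl, hx, hB⟩ := ih h1
      exact ⟨a :: A, B, x, by rw [hl, List.cons_append], hx, hB⟩
    · obtain ⟨x, hx, hxS⟩ := h
      rcases List.mem_cons.1 hx with h2 | h2
      · rw [h2] at hxS
        exact ⟨[], l, a, rfl, hxS, fun y hy hyS => h1 ⟨y, hy, hyS⟩⟩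
      · exact absurd ⟨x, h2, hxS⟩ h1

theorem half {G : SimpleGraph V} {R : List V} (hR : PL G R) {x : V} (hx : x ∈ R) :
    ∃ H : List V, PL G (x :: H) ∧ ((x :: H).getLast? = R.head? ∨ (x :: H).getLast? = R.getLast?) ∧ (∀ y ∈ H, y ∈ R) ∧
      R.length ≤ 2 * H.length + 1 := by
  obtain ⟨R1, R2, hR12⟩ := List.append_of_mem hx
  have hlen : R.length = R1.length + (R2.length + 1) := by
    rw [hR12, List.length_append, List.length_cons]
  by_cases hle : R1.length ≤ R2.length
  · refine ⟨R2, ⟨by simp, ?_, ?_⟩, Or.inr ?_, ?_, by omega⟩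
    · have h1 := hR.2.1
      rw [hR12] at h1
      exact h1.of_append_right
    · have h1 := hR.2.2
      rw [hR12] at h1
      exact h1.right_of_append
    · rw [hR12, List.getLast?_append]
      cases h : (x :: R2).getLast? with
      | none => simp at h
      | some y => rfl
    · intro y hy
      rw [hR12]
      exact List.mem_append_right _ (List.mem_cons_of_mem _ hy)
  · have hrev : x :: R1.reverse = (R1 ++ [x]).reverse := by simp
    have hsplit : R = (R1 ++ [x]) ++ R2 := by
      rw [hR12]
      simp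
    refine ⟨R1.reverse, ⟨by simp, ?_, ?_⟩, Or.inl ?_, ?_, ?_⟩
    · have h1 := hR.2.1
      rw [hsplit] at h1
      rw [hrev]
      exact List.nodup_reverse.2 h1.of_append_left
    · have h1 := hR.2.2
      rw [hsplit] at h1
      rw [hrev, List.isChain_reverse]
      exact h1.left_of_append.imp fun _ _ h => h.symm
    · rw [hrev, List.getLast?_reverse, hR12]
      cases R1 with
      | nil => rfl
      | cons y R1 => rfl
    · intro y hy
      rw [List.mem_reverse] at hy
      rw [hR12]
      exact List.mem_append_left _ hy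
    · rw [List.length_reverse]
      omega

end LC.Sm
end
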