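import Pool.Agent.Lib.MP_6bc8af_co.Mg.G031

section

/-!
# MP_6bc8af_co, campaign SM, A2: new cycles from old ones
-/

namespace LC.Sm

universe u

variable {V : Type u}

/-- `P` is a walk (list) from `a` to `b` -/
structure Sgm (G : SimpleGraph V) (a : V) (P : List V) (b : V) : Prop where
  chain : P.IsChain G.Adj
  head : P.head? = some a
  last : P.getLast? = some b

theorem Sgm_arc {G : SimpleGraph V} {L : ℕ} {c : ℕ → V} (hc : Cyc G L c) (i : ℕ) {g : ℕ} (hg : 1 ≤ g) {v : V}
    (hv : c (i + g - 1) = v) : Sgm G (c i) (arc c i g) v :=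
  ⟨arc_chain hc i g, arc_head hg, by rw [arc_last hg, hv]⟩

theorem Sgm.reverse {G : SimpleGraph V} {a b : V} {P : List V} (h : Sgm G a P b) : Sgm G b P.reverse a := by
  refine ⟨?_, ?_, ?_⟩
  · rw [List.isChain_reverse]
    exact h.chain.imp fun _ _ h => h.symm
  · rw [List.head?_reverse, h.last]
  · rw [List.getLast?_reverse, h.head]

theorem Sgm.join {G : SimpleGraph V} {a b a' b' : V} {P T P' : List V} (h1 : Sgm G a P b) (h2 : Lk G b T a')
    (h3 : Sgm G a' P' b') : Sgm G a (P ++ (T ++ P')) b' := by
  obtain ⟨h4, h5, h6⟩ := Lk_iff.1 h2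
  refine ⟨?_, ?_, ?_⟩
  · rw [List.isChain_append, List.isChain_append]
    refine ⟨h1.chain, ⟨h4.2.2, h3.chain, ?_⟩, ?_⟩
    · intro x hx y hy
      rw [h3.head] at hy
      simp only [Option.mem_def, Option.some.injEq] at hy
      rw [← hy]
      exact h6 x hx
    · intro x hx y hy
      rw [h1.last] at hx
      simp only [Option.mem_def, Option.some.injEq] at hx
      rw [← hx]
      apply h5 y
      cases T with
      | nil => exact absurd rfl h4.1
      | cons z T => exact hy
  · rw [List.head?_append, h1.head]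
    rfl
  · rw [List.getLast?_append, List.getLast?_append, h3.last]
    rfl

theorem Sgm.close {G : SimpleGraph V} {a b : V} {P T : List V} (h1 : Sgm G a P b) (h2 : Lk G b T a)
    (hn : (P ++ T).Nodup) (h3 : 3 ≤ (P ++ T).length) : CycList G (P ++ T) := by
  obtain ⟨h4, h5, h6⟩ := Lk_iff.1 h2
  refine ⟨h3, hn, ?_, ?_⟩
  · rw [List.isChain_append]
    refine ⟨h1.chain, h4.2.2, ?_⟩
    intro x hx y hy
    rw [h1.last] at hx
    simp only [Option.mem_def, Option.some.injEq] at hx
    rw [← hx]
    exact h5 y hy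
  · intro x y hx hy
    rw [List.head?_append, h1.head] at hy
    simp only [Option.some_or, Option.some.injEq] at hy
    rw [← hy]
    apply h6
    rw [List.getLast?_append] at hx
    cases hT : T.getLast? with
    | none => exact absurd (List.getLast?_eq_none_iff.1 hT) h4.1
    | some z =>
      rw [hT] at hx
      exact hx

/-- **(B)** A link outside the cycle is not longer than the arc between its ends. -/
theorem basic {G : SimpleGraph V} {L : ℕ} {c : ℕ → V} (hc : Cyc G L c) (mx : Mx G L) {i g : ℕ} (h1 : 1 ≤ g)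
    (h2 : g < L) {T : List V} (hT : Lk G (c i) T (c (i + g))) (ho : Out c T) : T.length + 1 ≤ g := by
  have hP := Sgm_arc hc (i + g) (g := L - g + 1) (by omega) (v := c i)
    (by rw [← hc.per i]; congr 1; omega)
  have hT1 : 1 ≤ T.length := by
    have := hT.1
    cases T with
    | nil => exact absurd rfl this
    | cons z T => simp
  have hn : (arc c (i + g) (L - g + 1) ++ T).Nodup := by
    rw [List.nodup_append]
    refine ⟨arc_nodup hc _ (by omega), hT.2.1, ?_⟩
    intro x hx y hy hxy
    rw [← hxy] at hy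
    obtain ⟨j, _, hj⟩ := mem_arc.1 hx
    exact ho x hy ⟨_, hj⟩
  have h3 := mx _ (hP.close hT hn (by
    have := hc.three
    rw [List.length_append, arc_length]
    by_cases hg : g = L - 1
    · rw [hg] at hT ⊢
      by_contra hlt
      have hlen : T.length = 0 := by omega
      omega
    · omega))
  rw [List.length_append, arc_length] at h3
  omega

/-- **(X)** Two disjoint crossing links. -/
theorem crossing {G : SimpleGraph V} {L : ℕ} {c : ℕ → V} (hc : Cyc G L c) (mx : Mx G L) {i a b e : ℕ} (ha : 1 ≤ a)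
    (hb : 1 ≤ b) (he : 1 ≤ e) (hL : a + b + e < L) {T1 T2 : List V} (h1 : Lk G (c i) T1 (c (i + a + b)))
    (h2 : Lk G (c (i + a)) T2 (c (i + a + b + e))) (o1 : Out c T1) (o2 : Out c T2) (dj : T1.Disjoint T2) :
    T1.length + T2.length + 2 ≤ a + e := by
  have hP1 := (Sgm_arc hc (i + a) (g := b + 1) (by omega) (v := c (i + a + b)) (by congr 1)).reverse
  have hP2 := Sgm_arc hc (i + a + b + e) (g := L - a - b - e + 1) (by omega) (v := c i)
    (by rw [← hc.per i]; congr 1; omega)
  have hn1 : (arc c (i + a) (b + 1) ++ (arc c (i + a + b + 1) (e - 1) ++ arc c (i + a + b + e) (L - a - b - e + 1))).Nodup := by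
    have h := arc_nodup hc (i + a) (g := (b + 1) + ((e - 1) + (L - a - b - e + 1))) (by omega)
    have e1 : i + a + (b + 1) = i + a + b + 1 := by omega
    have e2 : i + a + b + 1 + (e - 1) = i + a + b + e := by omega
    rw [arc_add c _ (b + 1), e1, arc_add c _ (e - 1), e2] at h
    exact h
  have hn2 : (arc c (i + a) (b + 1)).Disjoint (arc c (i + a + b + e) (L - a - b - e + 1)) := by
    intro x hx hy
    rw [List.nodup_append] at hn1
    exact hn1.2.2 x hx x (List.mem_append_right _ hy) rfl
  have out : ∀ {T : List V}, Out c T → ∀ j g, ∀ x ∈ arc c j g, x ∉ T := by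
    intro T hT j g x hx hxT
    obtain ⟨m, _, hm⟩ := mem_arc.1 hx
    exact hT x hxT ⟨_, hm⟩
  have hn : (((arc c (i + a) (b + 1)).reverse ++ (T2 ++ arc c (i + a + b + e) (L - a - b - e + 1))) ++ T1).Nodup := by
    rw [List.nodup_append, List.nodup_append, List.nodup_append]
    refine ⟨⟨List.nodup_reverse.2 (arc_nodup hc _ (by omega)), ⟨h2.2.1, arc_nodup hc _ (by omega), ?_⟩, ?_⟩, h1.2.1, ?_⟩
    · intro x hx y hy hxy
      rw [← hxy] at hy
      exact out o2 _ _ x hy hx
    · intro x hx y hy hxy
      rw [← hxy] at hy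
      rw [List.mem_reverse] at hx
      rcases List.mem_append.1 hy with h | h
      · exact out o2 _ _ x hx h
      · exact hn2 hx h
    · intro x hx y hy hxy
      rw [← hxy] at hy
      rcases List.mem_append.1 hx with h | h
      · rw [List.mem_reverse] at h
        exact out o1 _ _ x h hy
      · rcases List.mem_append.1 h with h | h
        · exact dj hy h
        · exact out o1 _ _ x h hy
  have h3 := mx _ ((hP1.join h2 hP2).close h1 hn (by
    have hT1 : 1 ≤ T1.length := List.length_pos_of_ne_nil h1.1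
    rw [List.length_append, List.length_append, List.length_append, List.length_reverse, arc_length, arc_length]
    omega))
  rw [List.length_append, List.length_append, List.length_append, List.length_reverse, arc_length, arc_length] at h3
  omega

/-- Three runs of `p` vertices of a cycle are replaced by links. -/
theorem three_segs {G : SimpleGraph V} {L : ℕ} {d : ℕ → V} (hd : Cyc G L d) (mx : Mx G L) {p i u v : ℕ} (h1 : p + 1 ≤ u)
    (h2 : u + p + 1 ≤ v) (h3 : v + p + 1 ≤ L) {T0 T1 T2 : List V} (l0 : Lk G (d i) T0 (d (i + p + 1)))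
    (l1 : Lk G (d (i + u)) T1 (d (i + u + p + 1))) (l2 : Lk G (d (i + v)) T2 (d (i + v + p + 1)))
    (d01 : T0.Disjoint T1) (d02 : T0.Disjoint T2) (d12 : T1.Disjoint T2)
    (ho : ∀ x, (x ∈ T0 ∨ x ∈ T1 ∨ x ∈ T2) → ∀ n < L, d (i + n) = x →
      (1 ≤ n ∧ n ≤ p) ∨ (u + 1 ≤ n ∧ n ≤ u + p) ∨ (v + 1 ≤ n ∧ n ≤ v + p)) :
    T0.length + T1.length + T2.length ≤ 3 * p := by
  have hP0 := Sgm_arc hd (i + p + 1) (g := u - p) (by omega) (v := d (i + u)) (by congr 1; omega)
  have hP1 := Sgm_arc hd (i + u + p + 1) (g := v - u - p) (by omega) (v := d (i + v)) (by congr 1; omega)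
  have hP2 := Sgm_arc hd (i + v + p + 1) (g := L - v - p) (by omega) (v := d i)
    (by rw [← hd.per i]; congr 1; omega)
  have av : ∀ x, (x ∈ T0 ∨ x ∈ T1 ∨ x ∈ T2) → x ∉ arc d (i + p + 1) (u - p) ∧ x ∉ arc d (i + u + p + 1) (v - u - p) ∧
      x ∉ arc d (i + v + p + 1) (L - v - p) := by
    intro x hx
    refine ⟨?_, ?_, ?_⟩
    · intro hm
      obtain ⟨j, hj, hjx⟩ := mem_arc.1 hm
      have := ho x hx (p + 1 + j) (by omega) (by rw [← hjx]; congr 1; omega)
      omega
    · intro hm
      obtain ⟨j, hj, hjx⟩ := mem_arc.1 hm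
      have := ho x hx (u + p + 1 + j) (by omega) (by rw [← hjx]; congr 1; omega)
      omega
    · intro hm
      obtain ⟨j, hj, hjx⟩ := mem_arc.1 hm
      rcases Nat.lt_or_ge (v + p + 1 + j) L with h | h
      · have := ho x hx (v + p + 1 + j) h (by rw [← hjx]; congr 1; omega)
        omega
      · have := ho x hx 0 hd.pos (by
          rw [← hjx, Nat.add_zero, ← hd.per i]
          congr 1
          omega)
        omega
  have dis : ∀ a g a' g', a + g ≤ a' → a' + g' ≤ a + L → (arc d a g).Disjoint (arc d a' g') := by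
    intro a g a' g' h4 h5 x hx hy
    obtain ⟨j, hj, hjx⟩ := mem_arc.1 hx
    obtain ⟨m, hm, hmx⟩ := mem_arc.1 hy
    exact hd.ne_of_lt (i := a + j) (j := a' + m) (by omega) (by omega) (hjx.trans hmx.symm)
  have hn : ((arc d (i + p + 1) (u - p) ++ (T1 ++ (arc d (i + u + p + 1) (v - u - p) ++
      (T2 ++ arc d (i + v + p + 1) (L - v - p))))) ++ T0).Nodup := by
    have e01 := dis (i + p + 1) (u - p) (i + u + p + 1) (v - u - p) (by omega) (by omega)
    have e02 := dis (i + p + 1) (u - p) (i + v + p + 1) (L - v - p) (by omega) (by omega)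
    have e12 := dis (i + u + p + 1) (v - u - p) (i + v + p + 1) (L - v - p) (by omega) (by omega)
    have n0 := arc_nodup hd (i + p + 1) (g := u - p) (by omega)
    have n1 := arc_nodup hd (i + u + p + 1) (g := v - u - p) (by omega)
    have n2 := arc_nodup hd (i + v + p + 1) (g := L - v - p) (by omega)
    rw [List.nodup_append', List.nodup_append', List.nodup_append', List.nodup_append', List.nodup_append']
    refine ⟨⟨n0, ⟨l1.2.1, ⟨n1, ⟨l2.2.1, n2, ?_⟩, ?_⟩, ?_⟩, ?_⟩, l0.2.1, ?_⟩
    · intro x hx hy
      exact (av x (Or.inr (Or.inr hx))).2.2 hy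
    · intro x hx hy
      rcases List.mem_append.1 hy with h | h
      · exact (av x (Or.inr (Or.inr h))).2.1 hx
      · exact e12 hx h
    · intro x hx hy
      have a1 := av x (Or.inr (Or.inl hx))
      rcases List.mem_append.1 hy with h | h
      · exact a1.2.1 h
      · rcases List.mem_append.1 h with h | h
        · exact d12 hx h
        · exact a1.2.2 h
    · intro x hx hy
      rcases List.mem_append.1 hy with h | h
      · exact (av x (Or.inr (Or.inl h))).1 hx
      · rcases List.mem_append.1 h with h | h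
        · exact e01 hx h
        · rcases List.mem_append.1 h with h | h
          · exact (av x (Or.inr (Or.inr h))).1 hx
          · exact e02 hx h
    · intro x hx hy
      have a0 := av x (Or.inl hy)
      rcases List.mem_append.1 hx with h | h
      · exact a0.1 h
      · rcases List.mem_append.1 h with h | h
        · exact d01 hy h
        · rcases List.mem_append.1 h with h | h
          · exact a0.2.1 h
          · rcases List.mem_append.1 h with h | h
            · exact d02 hy h
            · exact a0.2.2 h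
  have h4 := mx _ ((hP0.join l1 (hP1.join l2 hP2)).close l0 hn (by
    have hT0 : 1 ≤ T0.length := List.length_pos_of_ne_nil l0.1
    have hT1 : 1 ≤ T1.length := List.length_pos_of_ne_nil l1.1
    simp only [List.length_append, arc_length]
    omega))
  simp only [List.length_append, arc_length] at h4
  omega

end LC.Sm
end

section

/-!
# TASK SM A3: three full segments are replaced

`FS d W p L` is the set of the positions `i < L` with `Gap d W i (p + 1)`.
For `i, j` in `FS`, `i < j`: `i + p + 1 ≤ j` (`d j ∈ W`, but `d (i + n) ∉ W` for `1 ≤ n ≤ p`); and `j + p + 1 ≤ i + L` (`d (i + L) = d i ∈ W`).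

PROOF of `three_fs`. First for `i < j < l`: `three_segs` with `u = j - i`, `v = l - i`. For `x` in one of the lists and `n < L` with
`d (i + n) = x`: `x ∈ Set.range d`, so by `ho` `x` is in one of the three segments `sg d p i = arc d (i + 1) p` etc. (`mem_arc`), i.e. `x = d (i + m)` with
`1 ≤ m ≤ p` or `u + 1 ≤ m ≤ u + p` or `v + 1 ≤ m ≤ v + p`, `m < L`, and `n = m` by `Cyc.ne_of_lt`. The other five orders of `i, j, l` follow by
permuting the roles (state the ordered version as a private lemma; `Disjoint` is symmetric: `List.Disjoint.symm`).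
-/

namespace LC.Sm

universe u

variable {V : Type u}

private theorem A3_mem {W : Set V} {d : ℕ → V} {p L i : ℕ} (hi : i ∈ FS d W p L) :
    i < L ∧ Gap d W i (p + 1) := by
  classical
  unfold FS at hi
  rw [Finset.mem_filter, Finset.mem_range] at hi
  exact hi

private theorem A3_inj {G : SimpleGraph V} {L : ℕ} {d : ℕ → V} (hd : Cyc G L d) {s a b : ℕ}
    (ha : s ≤ a) (ha2 : a < s + L) (hb : s ≤ b) (hb2 : b < s + L) (h : d a = d b) : a = b := by
  by_contra hne
  rcases Nat.lt_or_gt_of_ne hne with h1 | h1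
  · exact hd.ne_of_lt h1 (by omega) h
  · exact hd.ne_of_lt h1 (by omega) h.symm

theorem FS_lt {G : SimpleGraph V} {L : ℕ} {d : ℕ → V} (hd : Cyc G L d) {W : Set V} {p i j : ℕ} (hi : i ∈ FS d W p L)
    (hj : j ∈ FS d W p L) (hij : i < j) : i + p + 1 ≤ j ∧ j + p + 1 ≤ i + L := by
  obtain ⟨hi1, hi2⟩ := A3_mem hi
  obtain ⟨hj1, hj2⟩ := A3_mem hj
  constructor
  · by_contra hc
    have h1 := hi2.2.2.2 (j - i) (by omega) (by omega)
    rw [show i + (j - i) = j by omega] at h1
    exact h1 hj2.1
  · by_contra hc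
    have h1 := hj2.2.2.2 (i + L - j) (by omega) (by omega)
    rw [show j + (i + L - j) = i + L by omega, hd.per] at h1
    exact h1 hi2.1

private theorem A3_ord {G : SimpleGraph V} {L : ℕ} {d : ℕ → V} (hd : Cyc G L d) (mx : Mx G L) {W : Set V} {p i j l : ℕ}
    (hi : i ∈ FS d W p L) (hj : j ∈ FS d W p L) (hl : l ∈ FS d W p L) (hij : i < j) (hjl : j < l)
    {Ti Tj Tl : List V} (li : Lk G (d i) Ti (d (i + p + 1))) (lj : Lk G (d j) Tj (d (j + p + 1)))
    (ll : Lk G (d l) Tl (d (l + p + 1))) (dij : Ti.Disjoint Tj) (dil : Ti.Disjoint Tl) (djl : Tj.Disjoint Tl)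
    (ho : ∀ x, (x ∈ Ti ∨ x ∈ Tj ∨ x ∈ Tl) → x ∈ Set.range d → x ∈ sg d p i ∨ x ∈ sg d p j ∨ x ∈ sg d p l) :
    Ti.length + Tj.length + Tl.length ≤ 3 * p := by
  have h1 := FS_lt hd hi hj hij
  have h2 := FS_lt hd hj hl hjl
  have h3 := FS_lt hd hi hl (hij.trans hjl)
  have ej : i + (j - i) = j := by omega
  have el : i + (l - i) = l := by omega
  refine three_segs hd mx (i := i) (u := j - i) (v := l - i) (p := p) (by omega) (by omega)
    (by omega) li (by rw [ej]; exact lj) (by rw [el]; exact ll) dij dil djl ?_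
  intro x hx n hn hdx
  rcases ho x hx ⟨_, hdx⟩ with h | h | h
  · obtain ⟨m, hm, hmx⟩ := mem_arc.1 h
    have := A3_inj hd (s := i) (a := i + n) (b := i + 1 + m) (by omega) (by omega) (by omega)
      (by omega) (hdx.trans hmx.symm)
    left
    omega
  · obtain ⟨m, hm, hmx⟩ := mem_arc.1 h
    have := A3_inj hd (s := i) (a := i + n) (b := j + 1 + m) (by omega) (by omega) (by omega)
      (by omega) (hdx.trans hmx.symm)
    right; left
    omega
  · obtain ⟨m, hm, hmx⟩ := mem_arc.1 h
    have := A3_inj hd (s := i) (a := i + n) (b := l + 1 + m) (by omega) (by omega) (by omega)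
      (by omega) (hdx.trans hmx.symm)
    right; right
    omega

theorem three_fs {G : SimpleGraph V} {L : ℕ} {d : ℕ → V} (hd : Cyc G L d) (mx : Mx G L) {W : Set V} {p i j l : ℕ}
    (hi : i ∈ FS d W p L) (hj : j ∈ FS d W p L) (hl : l ∈ FS d W p L) (hij : i ≠ j) (hil : i ≠ l) (hjl : j ≠ l)
    {Ti Tj Tl : List V} (li : Lk G (d i) Ti (d (i + p + 1))) (lj : Lk G (d j) Tj (d (j + p + 1)))
    (ll : Lk G (d l) Tl (d (l + p + 1))) (dij : Ti.Disjoint Tj) (dil : Ti.Disjoint Tl) (djl : Tj.Disjoint Tl)
    (ho : ∀ x, (x ∈ Ti ∨ x ∈ Tj ∨ x ∈ Tl) → x ∈ Set.range d → x ∈ sg d p i ∨ x ∈ sg d p j ∨ x ∈ sg d p l) :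
    Ti.length + Tj.length + Tl.length ≤ 3 * p := by
  rcases Nat.lt_or_gt_of_ne hij with a | a
  · rcases Nat.lt_or_gt_of_ne hjl with b | b
    · exact A3_ord hd mx hi hj hl a b li lj ll dij dil djl ho
    · rcases Nat.lt_or_gt_of_ne hil with c | c
      · have h := A3_ord hd mx hi hl hj c b li ll lj dil dij djl.symm (fun x hx hr => by
          have h1 := ho x (by tauto) hr
          tauto)
        omega
      · have h := A3_ord hd mx hl hi hj c a ll li lj dil.symm djl.symm dij (fun x hx hr => by
          have h1 := ho x (by tauto) hr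
          tauto)
        omega
  · rcases Nat.lt_or_gt_of_ne hil with b | b
    · have h := A3_ord hd mx hj hi hl a b lj li ll dij.symm djl dil (fun x hx hr => by
          have h1 := ho x (by tauto) hr
          tauto)
      omega
    · rcases Nat.lt_or_gt_of_ne hjl with c | c
      · have h := A3_ord hd mx hj hl hi c b lj ll li djl dij.symm dil.symm (fun x hx hr => by
          have h1 := ho x (by tauto) hr
          tauto)
        omega
      · have h := A3_ord hd mx hl hj hi c a ll lj li djl.symm dil.symm dij.symm (fun x hx hr => by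
          have h1 := ho x (by tauto) hr
          tauto)
        omega

/-- Different full segments are disjoint. PROOF. `FS_lt`, `mem_arc`, `Cyc.ne_of_lt`. -/
theorem sg_disjoint {G : SimpleGraph V} {L : ℕ} {d : ℕ → V} (hd : Cyc G L d) {W : Set V} {p i j : ℕ} (hi : i ∈ FS d W p L)
    (hj : j ∈ FS d W p L) (hij : i ≠ j) : (sg d p i).Disjoint (sg d p j) := by
  rcases Nat.lt_or_gt_of_ne hij with a | a
  · have h := FS_lt hd hi hj a
    intro x hx hy
    obtain ⟨m, hm, hmx⟩ := mem_arc.1 hx
    obtain ⟨n, hn, hnx⟩ := mem_arc.1 hy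
    exact hd.ne_of_lt (i := i + 1 + m) (j := j + 1 + n) (by omega) (by omega) (hmx.trans hnx.symm)
  · have h := FS_lt hd hj hi a
    intro x hx hy
    obtain ⟨m, hm, hmx⟩ := mem_arc.1 hx
    obtain ⟨n, hn, hnx⟩ := mem_arc.1 hy
    exact hd.ne_of_lt (i := j + 1 + n) (j := i + 1 + m) (by omega) (by omega) (hnx.trans hmx.symm)

end LC.Sm
end

section

/-!
# TASK SM E1: the ends of a path outside `c` are in `A`, if they are not in long gaps of `A`

`T1` is a path outside `c` with `p` vertices, it is a link between any two elements of `A`. `T2`, disjoint from `T1`, is a link from `y` to `z`, outside `c`, with `p` vertices.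

PROOF. Suppose `y ∉ A`. `y` lies in an open gap of `A` (`gap_at`): there are `i`, `g` with `Gap c A i g`, `y = c (i + a)`, `0 < a < g`; as `y ∉ LongV c A p`, `g ≤ p + 1`. Write `z = c (i + b)` with `0 ≤ b < L` (`Cyc.exists_lt`), `b ≠ a`. By `basic` for `T2` (and the reversed link):
`|b - a| ≥ p + 1` and `L - |b - a| ≥ p + 1`; so `L ≥ 2 p + 2 > g`, and `b ≥ a + p + 1 > g` (`b < a` is impossible, since then `a - b ≥ p + 1 ≥ g > a`); similarly `b ≤ L + a - (p + 1) < L`. So `g < b < L`, `x := c i`, `x' := c (i + g)` are in `A`, `x ≠ x'` as `g < L`.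
Case `z ∉ A`: a gap `Gap c A (i + u) h`, `g ≤ u`, `u < b < u + h ≤ L`, `h ≤ p + 1` (`z ∉ LongV`). `crossing` with `c i`, `c (i + a)`, `c (i + u)`, `c (i + b)` (links `T1`, `T2`; `c i ≠ c (i + u)` is not even needed in `crossing`, but `T1` is a link
between the two): `2 p + 2 ≤ a + (b - u)`. `crossing` with `c (i + a)`, `c (i + g)`, `c (i + b)`, `c (i + u + h)` (links `T2`, `T1`; the condition is `u + h < a + L`): `2 p + 2 ≤ (g - a) + (u + h - b)`. Sum: `4 p + 4 ≤ g + h ≤ 2 p + 2`, a contradiction.
Case `z ∈ A`: let `(i + u, b - u)` be the gap of `A` which ends at `i + b` (`gap_at` for the position before; `g ≤ u < b`) and `(i + b, h)` the gap which starts at `i + b` (`gap_exists`, `b + h ≤ L`, as `c (i + L) ∈ A`). Both gaps have length `≤ p + 1` (`z ∉ LongV`, `z` is an end of both).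
The same two applications of `crossing`: `2 p + 2 ≤ a + (b - u)` and `2 p + 2 ≤ (g - a) + h`. Sum: `4 p + 4 ≤ g + (b - u) + h ≤ 3 p + 3`, a contradiction.
-/

namespace LC.Sm

universe u

variable {V : Type u}

/-- the gap which contains the position `i + b`, after the gap `(i, g)` -/
private theorem E1_gap {G : SimpleGraph V} {L : ℕ} {c : ℕ → V} (hc : Cyc G L c) {A : Set V} {i g : ℕ}
    (hg : Gap c A i g) {b : ℕ} (h1 : g ≤ b) (h2 : b < L) :
    ∃ u h, Gap c A (i + u) h ∧ g ≤ u ∧ u ≤ b ∧ b < u + h ∧ u + h ≤ L := by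
  obtain ⟨i', h, hG, h3, h4, h5⟩ := gap_at hc ⟨i, hg.1⟩ (i + b)
  have h6 : i + L + g ≤ i' := by
    by_contra hlt
    have h7 := hG.2.2.2 (i + L + g - i') (by omega) (by omega)
    apply h7
    have h8 : i' + (i + L + g - i') = (i + g) + L := by omega
    rw [h8, hc.per]
    exact hg.2.2.1
  refine ⟨i' - L - i, h, gap_shift hc ?_ hG, by omega, by omega, by omega, ?_⟩
  · rw [← hc.per (i + (i' - L - i))]
    congr 1
    omega
  · by_contra hlt
    have h7 := hG.2.2.2 (i + L + L - i') (by omega) (by omega)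
    apply h7
    have h8 : i' + (i + L + L - i') = (i + L) + L := by omega
    rw [h8, hc.per, hc.per]
    exact hg.1

theorem claim3 {G : SimpleGraph V} {L p : ℕ} {c : ℕ → V} (hc : Cyc G L c) (mx : Mx G L) {A : Set V} (hA : A ⊆ Set.range c)
    (hne : A.Nonempty) {T1 T2 : List V} (l1 : ∀ x ∈ A, ∀ x' ∈ A, Lk G x T1 x') (o1 : Out c T1) (n1 : T1.length = p)
    {y z : V} (hy : y ∈ Set.range c) (hz : z ∈ Set.range c) (hyz : y ≠ z) (l2 : Lk G y T2 z) (o2 : Out c T2)
    (n2 : T2.length = p) (dj : T1.Disjoint T2) (ny : y ∉ LongV c A p) (nz : z ∉ LongV c A p) : y ∈ A := by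
  by_contra hyA
  have hex : ∃ i, c i ∈ A := by
    obtain ⟨x, hx⟩ := hne
    obtain ⟨n, rfl⟩ := hA hx
    exact ⟨n, hx⟩
  obtain ⟨n0, hn0⟩ := hy
  obtain ⟨i, g, hG, h1, h2, h3⟩ := gap_at hc hex n0
  obtain ⟨a, ha⟩ : ∃ a, n0 + L = i + a := ⟨n0 + L - i, by omega⟩
  have hya : c (i + a) = y := by rw [← ha, hc.per, hn0]
  have ha0 : 0 < a := by
    rcases Nat.eq_zero_or_pos a with h | h
    · exfalso
      apply hyA
      rw [← hya, h]
      exact hG.1
    · exact h
  have hag : a < g := by omega
  have hgp : g ≤ p + 1 := by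
    by_contra hlt
    exact ny ⟨i, g, a, hG, by omega, by omega, hya.symm⟩
  obtain ⟨m, hm1, hm2, hm3⟩ := hc.exists_lt hz i
  obtain ⟨b, hb⟩ : ∃ b, m = i + b := ⟨m - i, by omega⟩
  have hzb : c (i + b) = z := by rw [← hb, hm3]
  have hbL : b < L := by omega
  have hab : a ≠ b := by
    rintro rfl
    exact hyz (by rw [← hya, hzb])
  have hab2 : a < b := by
    by_contra hlt
    have h4 := basic hc mx (i := i + b) (g := a - b) (by omega) (by omega) (T := T2.reverse)
      (by
        have h5 : i + b + (a - b) = i + a := by omega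
        rw [h5, hya, hzb]
        exact l2.symm)
      (fun v hv => o2 v (List.mem_reverse.1 hv))
    rw [List.length_reverse, n2] at h4
    omega
  have hb1 := basic hc mx (i := i + a) (g := b - a) (by omega) (by omega) (T := T2)
    (by
      have h5 : i + a + (b - a) = i + b := by omega
      rw [h5, hya, hzb]
      exact l2) o2
  have hb2 := basic hc mx (i := i + b) (g := L - (b - a)) (by omega) (by omega) (T := T2.reverse)
    (by
      have h5 : i + b + (L - (b - a)) = (i + a) + L := by omega
      rw [h5, hc.per, hya, hzb]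
      exact l2.symm)
    (fun v hv => o2 v (List.mem_reverse.1 hv))
  rw [n2] at hb1
  rw [List.length_reverse, n2] at hb2
  have hgb : g < b := by omega
  -- the positions around `b`
  obtain ⟨u, w, hgu, hub, hbw, hwL, huA, hwA, huw⟩ : ∃ u w, g ≤ u ∧ u < b ∧ b < w ∧ w ≤ L ∧ c (i + u) ∈ A ∧
      c (i + w) ∈ A ∧ w ≤ u + (2 * p + 2) := by
    by_cases hzA : z ∈ A
    · obtain ⟨u, h, hG1, h4, h5, h6, h7⟩ := E1_gap hc hG (b := b - 1) (by omega) (by omega)
      have h8 : u + h = b := by
        by_contra hne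
        have h9 := hG1.2.2.2 (b - u) (by omega) (by omega)
        apply h9
        have h10 : i + u + (b - u) = i + b := by omega
        rw [h10, hzb]
        exact hzA
      have hbA : c (i + b) ∈ A := by rw [hzb]; exact hzA
      obtain ⟨u', h', hG2, h14, h15, h16, h17⟩ := E1_gap hc hG (b := b) (by omega) (by omega)
      have h18 : u' = b := by
        by_contra hne
        have h9 := hG2.2.2.2 (b - u') (by omega) (by omega)
        apply h9
        have h10 : i + u' + (b - u') = i + b := by omega
        rw [h10, hzb]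
        exact hzA
      subst h18
      have h19 : h ≤ p + 1 := by
        by_contra hlt
        exact nz ⟨i + u, h, h, hG1, by omega, le_rfl, by rw [← hzb]; congr 1; omega⟩
      have h20 : h' ≤ p + 1 := by
        by_contra hlt
        exact nz ⟨i + u', h', 0, hG2, by omega, by omega, by rw [← hzb]; rfl⟩
      refine ⟨u, u' + h', h4, by omega, by omega, h17, hG1.1, ?_, by omega⟩
      have := hG2.2.2.1
      rwa [Nat.add_assoc] at this
    · obtain ⟨u, h, hG1, h4, h5, h6, h7⟩ := E1_gap hc hG (b := b) (by omega) (by omega)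
      have h8 : u ≠ b := by
        rintro rfl
        exact hzA (by rw [← hzb]; exact hG1.1)
      have h19 : h ≤ p + 1 := by
        by_contra hlt
        exact nz ⟨i + u, h, b - u, hG1, by omega, by omega, by rw [← hzb]; congr 1; omega⟩
      refine ⟨u, u + h, h4, by omega, by omega, h7, hG1.1, ?_, by omega⟩
      have := hG1.2.2.1
      rwa [Nat.add_assoc] at this
  have x1 := crossing hc mx (i := i) (a := a) (b := u - a) (e := b - u) (by omega) (by omega) (by omega) (by omega)
    (T1 := T1) (T2 := T2)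
    (by
      have h5 : i + a + (u - a) = i + u := by omega
      rw [h5]
      exact l1 _ hG.1 _ huA)
    (by
      have h5 : i + a + (u - a) + (b - u) = i + b := by omega
      rw [h5, hya, hzb]
      exact l2) o1 o2 dj
  have x2 := crossing hc mx (i := i + a) (a := g - a) (b := b - g) (e := w - b) (by omega) (by omega) (by omega)
    (by omega) (T1 := T2) (T2 := T1)
    (by
      have h5 : i + a + (g - a) + (b - g) = i + b := by omega
      rw [h5, hya, hzb]
      exact l2)
    (by
      have h5 : i + a + (g - a) + (b - g) + (w - b) = i + w := by omega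
      have h6 : i + a + (g - a) = i + g := by omega
      rw [h5, h6]
      exact l1 _ hG.2.2.1 _ hwA) o2 o1 dj.symm
  omega

end LC.Sm
end
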