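import Pool.Agent.Lib.MP_6bc8af_co.Mg.G031
import Pool.Agent.Lib.MP_6bc8af_co.Mg.G032
import Pool.Agent.Lib.MP_6bc8af_co.Sm.C1

section

/-!
# TASK SM B2: counting long and full gaps

`P = (Finset.range L).filter (c i ∈ A)`, `P.card = A.ncard` (`card_pos`), `∑ i ∈ P, gp c A i = L` (`gap_sum`).
`long_card`: every element of `LongV c A p` is `c (i + j)` with `i ∈ P` (replace `i` by `i % L`, `gap_shift`, `Cyc.mod`), `gp c A i ≥ p + 2`, `j ≤ gp c A i`; so `LongV` is contained in the union over `i ∈ P` with
`gp c A i ≥ p + 2` of the sets `{c (i + j) : j ≤ gp c A i}` with at most `gp c A i + 1` elements. For `g ≥ p + 2`: `(g + 1) + (p + 3) (p + 1) ≤ (p + 3) g`; for `g ≥ p + 1`: `0 + (p + 3) (p + 1) ≤ (p + 3) g`. Sum over `P`.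
`full_card`: `i ∈ P` is in `FS d W p L` iff `gp d W i = p + 1` (`gap_eq`, `gap_exists`), otherwise `gp d W i ≤ p`. So `L = ∑ gp ≤ (p + 1) F + p (W.ncard - F) = p W.ncard + F`.
`full_card'`: the same sum: `L + (number of non-full) ≤ (p + 1) W.ncard`.
-/

namespace LC.Sm

universe u

variable {V : Type u}

theorem long_card [Finite V] {G : SimpleGraph V} {L : ℕ} {c : ℕ → V} (hc : Cyc G L c) {A : Set V} (hA : A ⊆ Set.range c)
    (hne : A.Nonempty) {p : ℕ} (hg : ∀ i g, Gap c A i g → p + 1 ≤ g) :
    (LongV c A p).ncard + (p + 3) * ((p + 1) * A.ncard) ≤ (p + 3) * L := by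
  classical
  have hex : ∃ i, c i ∈ A := by
    obtain ⟨v, hv⟩ := hne
    obtain ⟨i, hi⟩ := hA hv
    exact ⟨i, by rw [hi]; exact hv⟩
  have h1 := gap_sum hc hex
  have h2 := card_pos hc hA
  set P : Finset ℕ := (Finset.range L).filter (fun i => c i ∈ A) with hP
  set S : ℕ → Finset V := fun i =>
    if p + 2 ≤ gp c A i then (Finset.range (gp c A i + 1)).image (fun j => c (i + j)) else ∅ with hS
  have h3 : LongV c A p ⊆ (P.biUnion S : Finset V) := by
    rintro v ⟨i, g, j, h4, h5, h6, rfl⟩
    have hmod : c i = c (i % L) := (hc.mod i).symm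
    have h7 : Gap c A (i % L) g := gap_shift hc hmod h4
    have h8 : gp c A (i % L) = g := gap_eq h7
    rw [Finset.mem_coe, Finset.mem_biUnion]
    refine ⟨i % L, ?_, ?_⟩
    · rw [hP, Finset.mem_filter, Finset.mem_range]
      exact ⟨Nat.mod_lt _ hc.pos, h7.1⟩
    · simp only [hS, h8, if_pos h5, Finset.mem_image, Finset.mem_range]
      refine ⟨j, by omega, ?_⟩
      rw [hc.eq_iff, Nat.add_mod, Nat.mod_mod, ← Nat.add_mod]
  have h4 : (LongV c A p).ncard ≤ ∑ i ∈ P, (S i).card := by
    have h5 := Set.ncard_le_ncard h3 (Finset.finite_toSet _)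
    rw [Set.ncard_coe_finset] at h5
    exact h5.trans Finset.card_biUnion_le
  have h5 : ∀ i ∈ P, (S i).card + (p + 3) * (p + 1) ≤ (p + 3) * gp c A i := by
    intro i hi
    have h6 : c i ∈ A := (Finset.mem_filter.1 hi).2
    have h7 := hg i _ (gap_exists hc h6).1
    by_cases h8 : p + 2 ≤ gp c A i
    · have h9 : (S i).card ≤ gp c A i + 1 := by
        simp only [hS, if_pos h8]
        exact Finset.card_image_le.trans (le_of_eq (Finset.card_range _))
      obtain ⟨m, hm⟩ := Nat.exists_eq_add_of_le h8
      rw [hm] at h9 ⊢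
      nlinarith [Nat.zero_le (p * m), Nat.zero_le m]
    · have h9 : (S i).card = 0 := by
        simp only [hS, if_neg h8, Finset.card_empty]
      rw [h9, Nat.zero_add]
      exact Nat.mul_le_mul_left _ h7
  have h6 := Finset.sum_le_sum h5
  rw [Finset.sum_add_distrib, ← Finset.mul_sum P (fun i => gp c A i), h1, Finset.sum_const, h2, smul_eq_mul] at h6
  have h7 : A.ncard * ((p + 3) * (p + 1)) = (p + 3) * ((p + 1) * A.ncard) := by ring
  rw [h7] at h6
  omega

theorem full_card [Finite V] {G : SimpleGraph V} {L : ℕ} {d : ℕ → V} (hd : Cyc G L d) {W : Set V} (hW : W ⊆ Set.range d)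
    (hne : W.Nonempty) {p : ℕ} (hg : ∀ i g, Gap d W i g → g ≤ p + 1) :
    L ≤ p * W.ncard + (FS d W p L).card := by
  classical
  have hex : ∃ i, d i ∈ W := by
    obtain ⟨v, hv⟩ := hne
    obtain ⟨i, hi⟩ := hW hv
    exact ⟨i, by rw [hi]; exact hv⟩
  have h1 := gap_sum hd hex
  have h2 := card_pos hd hW
  set P : Finset ℕ := (Finset.range L).filter (fun i => d i ∈ W) with hP
  have h5 : ∀ i ∈ P, gp d W i ≤ p + (if i ∈ FS d W p L then 1 else 0) := by
    intro i hi
    have h6 : d i ∈ W := (Finset.mem_filter.1 hi).2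
    have h7 := (gap_exists hd h6).1
    have h8 := hg i _ h7
    by_cases h9 : i ∈ FS d W p L
    · rw [if_pos h9]
      exact h8
    · rw [if_neg h9]
      by_contra h10
      have h11 : gp d W i = p + 1 := by omega
      apply h9
      unfold FS
      rw [Finset.mem_filter]
      refine ⟨(Finset.mem_filter.1 hi).1, ?_⟩
      rw [← h11]
      exact h7
  have h6 := Finset.sum_le_sum h5
  rw [h1, Finset.sum_add_distrib, Finset.sum_const, h2, smul_eq_mul] at h6
  have h7 : ∑ i ∈ P, (if i ∈ FS d W p L then 1 else 0) ≤ (FS d W p L).card := by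
    rw [← Finset.sum_filter, Finset.sum_const, smul_eq_mul, Nat.mul_one]
    refine Finset.card_le_card fun i hi => (Finset.mem_filter.1 hi).2
  rw [Nat.mul_comm W.ncard p] at h6
  omega

theorem full_card' [Finite V] {G : SimpleGraph V} {L : ℕ} {d : ℕ → V} (hd : Cyc G L d) {W : Set V} (hW : W ⊆ Set.range d)
    (hne : W.Nonempty) {p : ℕ} (hg : ∀ i g, Gap d W i g → g ≤ p + 1) :
    L + W.ncard ≤ (p + 1) * W.ncard + (FS d W p L).card := by
  have h1 := full_card hd hW hne hg
  rw [Nat.add_mul, Nat.one_mul]
  omega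

end LC.Sm
end

section

/-!
# TASK SM C2: a path which is maximal

All paths outside `c` have at most `p` vertices. `q` is a vertex outside `c` and in the finite set `U`; it has a neighbour outside `c` and outside `U`.

PROOF. The lists `S` with `S ≠ []`, `(q :: S).Nodup`, `(q :: S).IsChain G.Adj`, all elements of `S` outside `c` and outside `U` (there is one: `[s]`) have length `≤ p - 1`, since `q :: S` is a path outside `c`; take one of maximal length.
Let `v` be its last element, `x` a neighbour of `v` outside `c`, not in `U` and not in `S`. Then `S ++ [x]` is a longer such list (`x ≠ q` as `q ∈ U`), a contradiction.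
-/

namespace LC.Sm

universe u

variable {V : Type u}

theorem greedy {G : SimpleGraph V} {c : ℕ → V} {p : ℕ} (pc : ∀ l, PL G l → Out c l → l.length ≤ p) (U : Finset V) {q : V}
    (hq : q ∉ Set.range c) (hqU : q ∈ U) (hs : ∃ s, G.Adj q s ∧ s ∉ Set.range c ∧ s ∉ U) :
    ∃ S : List V, S ≠ [] ∧ (q :: S).Nodup ∧ (q :: S).IsChain G.Adj ∧ (∀ v ∈ S, v ∉ Set.range c ∧ v ∉ U) ∧ S.length + 1 ≤ p ∧
      ∀ v, S.getLast? = some v → ∀ x, G.Adj v x → x ∉ Set.range c → x ∈ U ∨ x ∈ S := by
  obtain ⟨s, hqs, hsc, hsU⟩ := hs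
  obtain ⟨P, hP⟩ : ∃ P : List V → Prop, ∀ S, P S ↔ (S ≠ [] ∧ (q :: S).Nodup ∧ (q :: S).IsChain G.Adj ∧
      ∀ v ∈ S, v ∉ Set.range c ∧ v ∉ U) := ⟨_, fun _ => Iff.rfl⟩
  have hlen : ∀ S, P S → S.length + 1 ≤ p := by
    intro S hS
    rw [hP] at hS
    obtain ⟨h1, h2, h3, h4⟩ := hS
    refine pc (q :: S) ⟨List.cons_ne_nil _ _, h2, h3⟩ ?_
    intro v hv
    rcases List.mem_cons.1 hv with rfl | hv
    · exact hq
    · exact (h4 v hv).1
  have hne : ∃ m, ∃ S, P S ∧ p - S.length = m := by
    refine ⟨_, [s], ?_, rfl⟩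
    rw [hP]
    refine ⟨List.cons_ne_nil _ _, ?_, ?_, ?_⟩
    · simp only [List.nodup_cons, List.mem_singleton, List.not_mem_nil, not_false_eq_true,
        List.nodup_nil, and_true]
      exact hqs.ne
    · exact List.IsChain.cons_cons hqs (List.IsChain.singleton s)
    · intro v hv
      rw [List.mem_singleton] at hv
      rw [hv]
      exact ⟨hsc, hsU⟩
  classical
  obtain ⟨S, hS, he⟩ := Nat.find_spec hne
  have hmax : ∀ S', P S' → S'.length ≤ S.length := by
    intro S' hS'
    have h1 := Nat.find_min' hne ⟨S', hS', rfl⟩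
    have h2 := hlen S hS
    have h3 := hlen S' hS'
    omega
  have hS0 := (hP S).1 hS
  obtain ⟨h1, h2, h3, h4⟩ := hS0
  refine ⟨S, h1, h2, h3, h4, hlen S hS, ?_⟩
  intro v hv x hvx hxc
  by_contra hcon
  rw [not_or] at hcon
  obtain ⟨hxU, hxS⟩ := hcon
  have hxq : x ≠ q := fun h => hxU (h ▸ hqU)
  have hnew : P (S ++ [x]) := by
    rw [hP, ← List.cons_append]
    refine ⟨by simp, ?_, ?_, ?_⟩
    · rw [List.nodup_append]
      refine ⟨h2, List.nodup_singleton x, ?_⟩
      intro a ha b hb hab
      rw [List.mem_singleton] at hb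
      subst hb
      subst hab
      rcases List.mem_cons.1 ha with h | h
      · exact hxq h
      · exact hxS h
    · rw [List.isChain_append]
      refine ⟨h3, List.IsChain.singleton x, ?_⟩
      intro a ha b hb
      have hb' : x = b := by simpa using hb
      subst hb'
      have hlast : (q :: S).getLast? = S.getLast? := by
        cases S with
        | nil => exact absurd rfl h1
        | cons y S' => rw [List.getLast?_cons_cons]
      rw [hlast, hv] at ha
      have ha' : v = a := by simpa using ha
      rw [← ha']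
      exact hvx
    · intro a ha
      rcases List.mem_append.1 ha with h | h
      · exact h4 a h
      · rw [List.mem_singleton] at h
        rw [h]
        exact ⟨hxc, hxU⟩
  have h5 := hmax _ hnew
  rw [List.length_append, List.length_singleton] at h5
  omega

end LC.Sm
end

section

/-!
# TASK SM C3: the vertices `v j`

`Q` is a path with `p` vertices outside `c`, all paths outside `c` have at most `p` vertices, `Q j` its `j`-th vertex (`Q.getD j default` or `Q[j]`).

PROOF. Let `out v = {x | G.Adj v x, x ∉ Set.range c}`. Claim: for every `n ≤ p` there are lists `S 0, ..., S (n-1)` such that: (1) the elements of the `S j` are outside `c`, not in `Q`, and the `S j` are pairwise disjoint; (2) `(Q j :: S j)` is nodup and a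
chain, `(S j).length + 1 ≤ p`; (3) the last element `v j` of `Q j :: S j` satisfies `(out (v j)).ncard ≤ p ^ 2`; (4) `S 0 = []` and, if `p = n`, `S (p - 1) = []`. Step for `j = n`: for `j = 0` or `j = p - 1` the elements of `out (Q j)` are in `Q` (otherwise `x :: Q`
or `Q ++ [x]` would be a path with `p + 1` vertices outside `c`), so `ncard ≤ p ≤ p ^ 2`: `S j = []`. If `(out (Q j)).ncard ≤ p ^ 2` take `S j = []`. Otherwise `0 < j < p - 1`; let `U` be the finset of the elements of `Q` and of the `S i`, `i < j`;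
`U.card ≤ p + (j - 1) (p - 1) ≤ p + (p - 3) (p - 1) ≤ p ^ 2` (`S 0 = []`), so some `x ∈ out (Q j)` is not in `U`, and `greedy` gives `S j`; the elements of `out (v j)` are in `U` or in `S j`, at most `p + (p - 3) (p - 1) + (p - 1) ≤ p ^ 2` elements.
The path from `v i` to `v j` (`i < j`): `(S i).reverse ++ [Q i, ..., Q j] ++ S j` (for `S i = []` it starts with `Q i`). It has at least `j - i + 1` vertices.
Finally `(G.neighborSet v).ncard ≤ (out v).ncard + ({x | G.Adj v x ∧ x ∈ Set.range c}).ncard`.
-/

namespace LC.Sm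

universe u

variable {V : Type u}

/-- the neighbours outside the cycle -/
private def C3_out (G : SimpleGraph V) (c : ℕ → V) (v : V) : Set V := {x | G.Adj v x ∧ x ∉ Set.range c}

private structure C3_ok (G : SimpleGraph V) (c : ℕ → V) (p : ℕ) (Q : List V) (q : ℕ → V) (n : ℕ) (S : ℕ → List V) :
    Prop where
  out : ∀ j < n, ∀ x ∈ S j, x ∉ Set.range c ∧ x ∉ Q
  nd : ∀ j < n, (q j :: S j).Nodup
  ch : ∀ j < n, (q j :: S j).IsChain G.Adj
  len : ∀ j < n, (S j).length + 1 ≤ p
  last : ∀ j < n, ∀ v, (q j :: S j).getLast? = some v → (C3_out G c v).ncard ≤ p ^ 2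
  ends : ∀ j < n, (j = 0 ∨ j + 1 = p) → S j = []
  dj : ∀ i j, i < j → j < n → (S i).Disjoint (S j)

private theorem C3_add {G : SimpleGraph V} {c : ℕ → V} {p : ℕ} {Q : List V} {q : ℕ → V} {n : ℕ} {S : ℕ → List V}
    (h : C3_ok G c p Q q n S) (Sn : List V) (h1 : ∀ x ∈ Sn, x ∉ Set.range c ∧ x ∉ Q) (h2 : (q n :: Sn).Nodup)
    (h3 : (q n :: Sn).IsChain G.Adj) (h4 : Sn.length + 1 ≤ p)
    (h5 : ∀ v, (q n :: Sn).getLast? = some v → (C3_out G c v).ncard ≤ p ^ 2) (h6 : (n = 0 ∨ n + 1 = p) → Sn = [])
    (h7 : ∀ i < n, (S i).Disjoint Sn) : ∃ S', C3_ok G c p Q q (n + 1) S' := by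
  refine ⟨fun j => if j = n then Sn else S j, ?_⟩
  have e : ∀ j, j ≠ n → (if j = n then Sn else S j) = S j := fun j hj => if_neg hj
  have key : ∀ (P : ℕ → List V → Prop), (∀ j < n, P j (S j)) → P n Sn → ∀ j < n + 1, P j (if j = n then Sn else S j) := by
    intro P hP hn j hj
    by_cases hjn : j = n
    · rw [if_pos hjn, hjn]
      exact hn
    · rw [if_neg hjn]
      exact hP j (by omega)
  refine ⟨?_, ?_, ?_, ?_, ?_, ?_, ?_⟩
  · exact key (fun j S => ∀ x ∈ S, x ∉ Set.range c ∧ x ∉ Q) h.out h1
  · exact key (fun j S => (q j :: S).Nodup) h.nd h2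
  · exact key (fun j S => (q j :: S).IsChain G.Adj) h.ch h3
  · exact key (fun j S => S.length + 1 ≤ p) h.len h4
  · exact key (fun j S => ∀ v, (q j :: S).getLast? = some v → (C3_out G c v).ncard ≤ p ^ 2) h.last h5
  · exact key (fun j S => (j = 0 ∨ j + 1 = p) → S = []) h.ends h6
  · intro i j hij hj
    have hi : i ≠ n := by omega
    show (if i = n then Sn else S i).Disjoint (if j = n then Sn else S j)
    rw [if_neg hi]
    by_cases hjn : j = n
    · rw [if_pos hjn]
      exact h7 i (by omega)
    · rw [if_neg hjn]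
      exact h.dj i j hij (by omega)

private theorem C3_arith {p n : ℕ} (hn : n < p) : p + n * (p - 1) + (p - 1) ≤ p ^ 2 := by
  obtain ⟨m, rfl⟩ : ∃ m, p = m + 1 := ⟨p - 1, by omega⟩
  have h1 : m + 1 - 1 = m := by omega
  rw [h1]
  have h2 : n * m ≤ m * m := Nat.mul_le_mul_right m (by omega)
  nlinarith

private theorem C3_step [Finite V] {G : SimpleGraph V} {p : ℕ} {c : ℕ → V}
    (pc : ∀ l, PL G l → Out c l → l.length ≤ p) {Q : List V} (hQ : PL G Q) (ho : Out c Q) (hl : Q.length = p)
    {q : ℕ → V} (hq : ∀ j (h : j < Q.length), q j = Q[j]) {n : ℕ} (hn : n < p) {S : ℕ → List V}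
    (hS : C3_ok G c p Q q n S) : ∃ S', C3_ok G c p Q q (n + 1) S' := by
  classical
  have hqn : q n ∈ Q := by
    rw [hq n (by omega)]
    exact List.getElem_mem _
  have hqc : q n ∉ Set.range c := ho _ hqn
  have small : (C3_out G c (q n)).ncard ≤ p ^ 2 → ∃ S', C3_ok G c p Q q (n + 1) S' := by
    intro h
    refine C3_add hS [] (by simp) (by simp) (by simp) (by simp; omega) ?_ (fun _ => rfl) ?_
    · intro v hv
      simp only [List.getLast?_singleton, Option.some.injEq] at hv
      rw [← hv]
      exact h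
    · intro i _ x _ hx
      simp at hx
  by_cases hends : n = 0 ∨ n + 1 = p
  · apply small
    have hsub : C3_out G c (q n) ⊆ (Q.toFinset : Set V) := by
      intro x hx
      rw [Finset.mem_coe, List.mem_toFinset]
      by_contra hxQ
      rcases hends with h0 | h0
      · -- `x :: Q`
        have h1 := pc (x :: Q) ?_ ?_
        · simp only [List.length_cons] at h1
          omega
        · refine ⟨by simp, List.nodup_cons.2 ⟨hxQ, hQ.2.1⟩, ?_⟩
          rw [List.isChain_cons]
          refine ⟨?_, hQ.2.2⟩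
          intro y hy
          have h2 : Q.head? = some (q n) := by
            rw [h0, hq 0 (by omega), List.head?_eq_getElem?, List.getElem?_eq_getElem]
          rw [h2] at hy
          simp only [Option.mem_def, Option.some.injEq] at hy
          rw [← hy]
          exact hx.1.symm
        · intro v hv
          rcases List.mem_cons.1 hv with h | h
          · rw [h]; exact hx.2
          · exact ho v h
      · have h1 := pc (Q ++ [x]) ?_ ?_
        · rw [List.length_append, List.length_singleton] at h1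
          omega
        · refine ⟨by simp, ?_, ?_⟩
          · rw [List.nodup_append']
            refine ⟨hQ.2.1, by simp, ?_⟩
            intro y hy hy'
            rw [List.mem_singleton] at hy'
            rw [hy'] at hy
            exact hxQ hy
          · rw [List.isChain_append]
            refine ⟨hQ.2.2, by simp, ?_⟩
            intro y hy z hz
            have h2 : Q.getLast? = some (q n) := by
              rw [hq n (by omega), List.getLast?_eq_getElem?]
              have h3 : Q.length - 1 = n := by omega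
              rw [h3, List.getElem?_eq_getElem]
            rw [h2] at hy
            simp only [Option.mem_def, Option.some.injEq, List.head?_cons] at hy hz
            rw [← hy, ← hz]
            exact hx.1
        · intro v hv
          rcases List.mem_append.1 hv with h | h
          · exact ho v h
          · rw [List.mem_singleton] at h
            rw [h]; exact hx.2
    have h1 := Set.ncard_le_ncard hsub (Finset.finite_toSet _)
    rw [Set.ncard_coe_finset] at h1
    have h2 := List.toFinset_card_le Q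
    have h3 : p ≤ p ^ 2 := Nat.le_self_pow (by omega) p
    omega
  · by_cases hsm : (C3_out G c (q n)).ncard ≤ p ^ 2
    · exact small hsm
    · -- the finset `U`
      obtain ⟨U, hU⟩ : ∃ U : Finset V, U = Q.toFinset ∪ (Finset.range n).biUnion (fun i => (S i).toFinset) := ⟨_, rfl⟩
      have hUc : U.card ≤ p + n * (p - 1) := by
        rw [hU]
        refine (Finset.card_union_le _ _).trans ?_
        have h2 := List.toFinset_card_le Q
        have h3 : ((Finset.range n).biUnion (fun i => (S i).toFinset)).card ≤ n * (p - 1) := by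
          refine Finset.card_biUnion_le.trans ?_
          calc ∑ i ∈ Finset.range n, (S i).toFinset.card ≤ ∑ _i ∈ Finset.range n, (p - 1) := by
                refine Finset.sum_le_sum (fun i hi => ?_)
                have h4 := hS.len i (Finset.mem_range.1 hi)
                have h5 := List.toFinset_card_le (S i)
                omega
            _ = n * (p - 1) := by rw [Finset.sum_const, Finset.card_range, smul_eq_mul]
        omega
      have har := C3_arith hn
      have hqU : q n ∈ U := by
        rw [hU, Finset.mem_union, List.mem_toFinset]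
        exact Or.inl hqn
      have hs : ∃ s, G.Adj (q n) s ∧ s ∉ Set.range c ∧ s ∉ U := by
        by_contra hcon
        push Not at hcon
        apply hsm
        have hsub : C3_out G c (q n) ⊆ (U : Set V) := fun x hx => hcon x hx.1 hx.2
        have h1 := Set.ncard_le_ncard hsub (Finset.finite_toSet _)
        rw [Set.ncard_coe_finset] at h1
        omega
      obtain ⟨Sn, h1, h2, h3, h4, h5, h6⟩ := greedy pc U hqc hqU hs
      refine C3_add hS Sn ?_ h2 h3 h5 ?_ (fun h => absurd h hends) ?_
      · intro x hx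
        refine ⟨(h4 x hx).1, fun hxQ => (h4 x hx).2 ?_⟩
        rw [hU, Finset.mem_union, List.mem_toFinset]
        exact Or.inl hxQ
      · intro v hv
        have hv' : Sn.getLast? = some v := by
          obtain ⟨a, l, hal⟩ := List.exists_cons_of_ne_nil h1
          rw [hal] at hv ⊢
          rwa [List.getLast?_cons_cons] at hv
        have hsub : C3_out G c v ⊆ ((U ∪ Sn.toFinset : Finset V) : Set V) := by
          intro x hx
          rw [Finset.mem_coe, Finset.mem_union, List.mem_toFinset]
          exact h6 v hv' x hx.1 hx.2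
        have h7 := Set.ncard_le_ncard hsub (Finset.finite_toSet _)
        rw [Set.ncard_coe_finset] at h7
        have h8 := Finset.card_union_le U Sn.toFinset
        have h9 := List.toFinset_card_le Sn
        omega
      · intro i hi x hx hx'
        refine (h4 x hx').2 ?_
        rw [hU, Finset.mem_union]
        refine Or.inr (Finset.mem_biUnion.2 ⟨i, Finset.mem_range.2 hi, ?_⟩)
        rw [List.mem_toFinset]
        exact hx

private theorem C3_all [Finite V] {G : SimpleGraph V} {p : ℕ} {c : ℕ → V}
    (pc : ∀ l, PL G l → Out c l → l.length ≤ p) {Q : List V} (hQ : PL G Q) (ho : Out c Q) (hl : Q.length = p)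
    {q : ℕ → V} (hq : ∀ j (h : j < Q.length), q j = Q[j]) : ∀ n, n ≤ p → ∃ S, C3_ok G c p Q q n S
  | 0, _ => ⟨fun _ => [], ⟨fun j hj => absurd hj (by omega), fun j hj => absurd hj (by omega),
      fun j hj => absurd hj (by omega), fun j hj => absurd hj (by omega), fun j hj => absurd hj (by omega),
      fun j hj => absurd hj (by omega), fun i j _ hj => absurd hj (by omega)⟩⟩
  | n + 1, hn => by
    obtain ⟨S, hS⟩ := C3_all pc hQ ho hl hq n (by omega)
    exact C3_step pc hQ ho hl hq (by omega) hS

theorem vstar [Finite V] {G : SimpleGraph V} {k p : ℕ} {c : ℕ → V} (pc : ∀ l, PL G l → Out c l → l.length ≤ p)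
    (deg : ∀ v, k ≤ (G.neighborSet v).ncard) {Q : List V} (hQ : PL G Q) (ho : Out c Q) (hl : Q.length = p) :
    ∃ v : ℕ → V, (∀ j < p, v j ∉ Set.range c) ∧ (∀ j < p, k ≤ {x | G.Adj (v j) x ∧ x ∈ Set.range c}.ncard + p ^ 2) ∧
      (∀ i j, i < j → j < p → ∃ S : List V, PL G S ∧ Out c S ∧ S.head? = some (v i) ∧ S.getLast? = some (v j) ∧ j + 1 ≤ i + S.length) ∧
      Q.head? = some (v 0) ∧ Q.getLast? = some (v (p - 1)) := by
  have hp : 0 < p := by
    rw [← hl]
    exact List.length_pos_of_ne_nil hQ.1
  obtain ⟨q, hq⟩ : ∃ q : ℕ → V, ∀ j (h : j < Q.length), q j = Q[j] := by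
    refine ⟨fun j => Q.getD j (Q.head hQ.1), fun j h => ?_⟩
    exact List.getD_eq_getElem _ _ h
  obtain ⟨S, hS⟩ := C3_all pc hQ ho hl hq p le_rfl
  have hqQ : ∀ j < p, q j ∈ Q := by
    intro j hj
    rw [hq j (by omega)]
    exact List.getElem_mem _
  refine ⟨fun j => (q j :: S j).getLast (by simp), ?_, ?_, ?_, ?_, ?_⟩
  · intro j hj
    have h1 : (q j :: S j).getLast (by simp) ∈ q j :: S j := List.getLast_mem _
    rcases List.mem_cons.1 h1 with h | h
    · show (q j :: S j).getLast (by simp) ∉ Set.range c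
      rw [h]
      exact ho _ (hqQ j hj)
    · exact (hS.out j hj _ h).1
  · intro j hj
    have h1 := hS.last j hj ((q j :: S j).getLast (by simp)) (List.getLast?_eq_getLast_of_ne_nil (by simp))
    have h2 := deg ((q j :: S j).getLast (by simp))
    have h3 : G.neighborSet ((q j :: S j).getLast (by simp)) ⊆
        {x | G.Adj ((q j :: S j).getLast (by simp)) x ∧ x ∈ Set.range c} ∪ C3_out G c ((q j :: S j).getLast (by simp)) := by
      intro x hx
      by_cases hxc : x ∈ Set.range c
      · exact Or.inl ⟨hx, hxc⟩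
      · exact Or.inr ⟨hx, hxc⟩
    have h4 := (Set.ncard_le_ncard h3 (Set.toFinite _)).trans (Set.ncard_union_le _ _)
    show k ≤ {x | G.Adj ((q j :: S j).getLast (by simp)) x ∧ x ∈ Set.range c}.ncard + p ^ 2
    omega
  · intro i j hij hj
    have hi : i < p := by omega
    have hinj : ∀ a < p, ∀ b < p, q a = q b → a = b := by
      intro a ha b hb hab
      rw [hq a (by omega), hq b (by omega)] at hab
      exact (List.Nodup.getElem_inj_iff hQ.2.1).1 hab
    have harcQ : ∀ x ∈ arc q i (j - i + 1), x ∈ Q := by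
      intro x hx
      obtain ⟨m, hm, hmx⟩ := mem_arc.1 hx
      rw [← hmx]
      exact hqQ _ (by omega)
    have harcN : (arc q i (j - i + 1)).Nodup := by
      unfold arc
      refine List.Nodup.map_on ?_ List.nodup_range
      intro a ha b hb hab
      rw [List.mem_range] at ha hb
      have := hinj (i + a) (by omega) (i + b) (by omega) hab
      omega
    have harcC : (arc q i (j - i + 1)).IsChain G.Adj := by
      rw [List.isChain_iff_getElem]
      intro m hm
      rw [arc_length] at hm
      rw [arc_get, arc_get]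
      have h1 := List.isChain_iff_getElem.1 hQ.2.2 (i + m) (by omega)
      rw [hq (i + m) (by omega), show i + (m + 1) = i + m + 1 by omega, hq (i + m + 1) (by omega)]
      exact h1
    have e1 := List.isChain_cons.1 (hS.ch i hi)
    have e2 := List.isChain_cons.1 (hS.ch j hj)
    have d1 := List.nodup_cons.1 (hS.nd i hi)
    have d2 := List.nodup_cons.1 (hS.nd j hj)
    refine ⟨(S i).reverse ++ (arc q i (j - i + 1) ++ S j), ⟨?_, ?_, ?_⟩, ?_, ?_, ?_, ?_⟩
    · intro h0
      have := congrArg List.length h0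
      rw [List.length_append, List.length_append, arc_length] at this
      simp at this
    · rw [List.nodup_append', List.nodup_append']
      refine ⟨List.nodup_reverse.2 d1.2, ⟨harcN, d2.2, ?_⟩, ?_⟩
      · intro x hx hx'
        exact (hS.out j hj x hx').2 (harcQ x hx)
      · intro x hx hx'
        rw [List.mem_reverse] at hx
        rcases List.mem_append.1 hx' with h | h
        · exact (hS.out i hi x hx).2 (harcQ x h)
        · exact hS.dj i j hij hj hx h
    · rw [List.isChain_append, List.isChain_append]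
      refine ⟨?_, ⟨harcC, e2.2, ?_⟩, ?_⟩
      · rw [List.isChain_reverse]
        exact e1.2.imp fun _ _ h => h.symm
      · intro x hx y hy
        rw [arc_last (by omega)] at hx
        simp only [Option.mem_def, Option.some.injEq] at hx
        rw [← hx, show i + (j - i + 1) - 1 = j by omega]
        exact e2.1 y hy
      · intro x hx y hy
        rw [List.getLast?_reverse] at hx
        rw [List.head?_append, arc_head (by omega)] at hy
        simp only [Option.mem_def, Option.some_or, Option.some.injEq] at hy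
        rw [← hy]
        exact (e1.1 x hx).symm
    · intro x hx
      rcases List.mem_append.1 hx with h | h
      · rw [List.mem_reverse] at h
        exact (hS.out i hi x h).1
      · rcases List.mem_append.1 h with h | h
        · exact ho x (harcQ x h)
        · exact (hS.out j hj x h).1
    · show _ = some ((q i :: S i).getLast (by simp))
      rw [← List.getLast?_eq_getLast_of_ne_nil, List.head?_append, List.head?_reverse, List.head?_append, arc_head (by omega),
        List.getLast?_cons]
      cases (S i).getLast? <;> rfl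
    · show _ = some ((q j :: S j).getLast (by simp))
      rw [← List.getLast?_eq_getLast_of_ne_nil, List.getLast?_append, List.getLast?_append, arc_last (by omega),
        List.getLast?_cons, show i + (j - i + 1) - 1 = j by omega]
      cases (S j).getLast? <;> rfl
    · rw [List.length_append, List.length_append, arc_length]
      omega
  · show Q.head? = some ((q 0 :: S 0).getLast (by simp))
    have h1 := hS.ends 0 hp (Or.inl rfl)
    have h2 : (q 0 :: S 0).getLast (by simp) = q 0 := by simp [h1]
    rw [h2, hq 0 (by omega), List.head?_eq_getElem?, List.getElem?_eq_getElem]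
  · show Q.getLast? = some ((q (p - 1) :: S (p - 1)).getLast (by simp))
    have h1 := hS.ends (p - 1) (by omega) (Or.inr (by omega))
    have h2 : (q (p - 1) :: S (p - 1)).getLast (by simp) = q (p - 1) := by simp [h1]
    rw [h2, hq (p - 1) (by omega), List.getLast?_eq_getElem?]
    have h3 : Q.length - 1 = p - 1 := by omega
    rw [h3, List.getElem?_eq_getElem]

end LC.Sm
end

section

/-!
# TASK SM C4: the main inequality (1)

`v` as in `vstar`; `J i = {j < p : G.Adj (v j) (c i)}` for a position `i < L`; `f i = (J i).card + 1` if `J i` is not empty, otherwise `0`.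

PROOF of `main1`. For positions `i < i' < L` with `J i`, `J i'` nonempty, `j ∈ J i`, `j' ∈ J i'`: there is a link `T` from `c i` to `c i'` outside `c` with at least `|j - j'| + 1` interior vertices (for `j = j'`: `T = [v j]`; for `j < j'` the path `S` of
`vstar`; for `j' < j` its reverse; `Lk_iff`), so `basic` gives `|j - j'| + 2 ≤ i' - i`, and the reversed link (`Lk.symm`) from `c i'` to `c (i + L) = c i` gives `|j - j'| + 2 ≤ L - (i' - i)`. With `two_sets` (`m = i' - i - 2`, and `m = L - (i' - i) - 2`):
`f i + f i' = |J i| + |J i'| + 2 ≤ 2 m + 4`. Two positions: `v 0` has at least `k - p ^ 2 ≥ 2` neighbours on `c`. So `weight`: `∑ f i ≤ L`, where `∑_{i < L} |J i| = ∑_{j < p} |{i < L : G.Adj (v j) (c i)}|` (double counting), each of these is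
the number of neighbours of `v j` on `c` (`i ↦ c i` is injective on `i < L` with image `Set.range c`, `range_eq`), and the number of `i < L` with `J i` nonempty is `X.ncard`, `X` = the union.
`lower`: `X.ncard ≥` the number of neighbours of `v 0`, `≥ k - p ^ 2`.
`AA_card`: `Q.head = v 0`, `Q.getLast = v (p - 1)`; with `N₀, N₁ ⊆ X` the neighbours of the two on `c`: `AA G c Q = N₀ ∩ N₁`, `|N₀ ∩ N₁| ≥ |N₀| + |N₁| - |X|`, `|X| + p (k - p ^ 2) ≤ L`, `L ≤ (p + 1) (k + t)`.
-/

namespace LC.Sm

universe u

variable {V : Type u}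

private theorem C4_link {G : SimpleGraph V} {p : ℕ} {c : ℕ → V} {v : ℕ → V} (h0 : ∀ j < p, v j ∉ Set.range c)
    (h : ∀ i j, i < j → j < p → ∃ S : List V, PL G S ∧ Out c S ∧ S.head? = some (v i) ∧ S.getLast? = some (v j) ∧
      j + 1 ≤ i + S.length) {j j' : ℕ} (hj : j < p) (hj' : j' < p) {x y : V} (hx : G.Adj (v j) x) (hy : G.Adj (v j') y) :
    ∃ T, Lk G x T y ∧ Out c T ∧ j + 1 ≤ j' + T.length ∧ j' + 1 ≤ j + T.length := by
  rcases Nat.lt_trichotomy j j' with h1 | h1 | h1
  · obtain ⟨S, s1, s2, s3, s4, s5⟩ := h j j' h1 hj'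
    refine ⟨S, Lk_iff.2 ⟨s1, ?_, ?_⟩, s2, by omega, by omega⟩
    · intro z hz
      rw [s3] at hz
      simp only [Option.some.injEq] at hz
      rw [← hz]
      exact hx.symm
    · intro z hz
      rw [s4] at hz
      simp only [Option.some.injEq] at hz
      rw [← hz]
      exact hy
  · subst h1
    refine ⟨[v j], Lk_iff.2 ⟨⟨by simp, by simp, by simp⟩, ?_, ?_⟩, ?_, by simp, by simp⟩
    · intro z hz
      simp only [List.head?_cons, Option.some.injEq] at hz
      rw [← hz]
      exact hx.symm
    · intro z hz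
      simp only [List.getLast?_singleton, Option.some.injEq] at hz
      rw [← hz]
      exact hy
    · intro z hz
      rw [List.mem_singleton] at hz
      rw [hz]
      exact h0 j hj
  · obtain ⟨S, s1, s2, s3, s4, s5⟩ := h j' j h1 hj
    refine ⟨S.reverse, Lk.symm (Lk_iff.2 ⟨s1, ?_, ?_⟩), ?_, ?_, ?_⟩
    · intro z hz
      rw [s3] at hz
      simp only [Option.some.injEq] at hz
      rw [← hz]
      exact hy.symm
    · intro z hz
      rw [s4] at hz
      simp only [Option.some.injEq] at hz
      rw [← hz]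
      exact hx
    · intro z hz
      exact s2 z (List.mem_reverse.1 hz)
    · rw [List.length_reverse]; omega
    · rw [List.length_reverse]; omega

private theorem C4_pos {G : SimpleGraph V} {L : ℕ} {c : ℕ → V} (hc : Cyc G L c) {A : Set V} (hA : A ⊆ Set.range c)
    [inst : ∀ i, Decidable (c i ∈ A)] : ((Finset.range L).filter (fun i => c i ∈ A)).card = A.ncard := by
  obtain rfl : inst = (fun i => Classical.propDecidable (c i ∈ A)) := Subsingleton.elim _ _
  exact card_pos hc hA

theorem main1 [Finite V] {G : SimpleGraph V} {k p L : ℕ} {c : ℕ → V} (hc : Cyc G L c) (mx : Mx G L)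
    (pc : ∀ l, PL G l → Out c l → l.length ≤ p) (deg : ∀ v, k ≤ (G.neighborSet v).ncard) (hk : p ^ 2 + 2 ≤ k) {Q : List V} (hQ : PL G Q)
    (ho : Out c Q) (hl : Q.length = p) :
    ∃ X : Set V, X ⊆ Set.range c ∧ X.ncard + p * k ≤ L + p * p ^ 2 ∧ k ≤ X.ncard + p ^ 2 ∧
      ∃ N₀ N₁ : Set V, N₀ ⊆ X ∧ N₁ ⊆ X ∧ k ≤ N₀.ncard + p ^ 2 ∧ k ≤ N₁.ncard + p ^ 2 ∧ N₀ ∩ N₁ ⊆ AA G c Q := by
  classical
  have hp : 0 < p := by
    rw [← hl]
    exact List.length_pos_of_ne_nil hQ.1
  obtain ⟨v, v0, vk, vS, vh, vl⟩ := vstar pc deg hQ ho hl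
  -- the neighbours of `v j` on `c`
  let N : ℕ → Set V := fun j => {x | G.Adj (v j) x ∧ x ∈ Set.range c}
  have hN : ∀ j, N j = {x | G.Adj (v j) x ∧ x ∈ Set.range c} := fun _ => rfl
  let X : Set V := {x | x ∈ Set.range c ∧ ∃ j < p, G.Adj (v j) x}
  have hX : X = {x | x ∈ Set.range c ∧ ∃ j < p, G.Adj (v j) x} := rfl
  have hNX : ∀ j < p, N j ⊆ X := fun j hj x hx => ⟨hx.2, j, hj, hx.1⟩
  let J : ℕ → Finset ℕ := fun i => (Finset.range p).filter (fun j => G.Adj (v j) (c i))
  have hJ : ∀ i j, j ∈ J i ↔ j < p ∧ G.Adj (v j) (c i) := by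
    intro i j
    simp only [J, Finset.mem_filter, Finset.mem_range]
  let f : ℕ → ℕ := fun i => if (J i).Nonempty then (J i).card + 1 else 0
  have hf1 : ∀ i, (J i).Nonempty → f i = (J i).card + 1 := fun i hi => if_pos hi
  have hf0 : ∀ i, 0 < f i → (J i).Nonempty := by
    intro i hi
    by_contra hne
    have : f i = 0 := if_neg hne
    omega
  have hw : ∑ i ∈ Finset.range L, f i ≤ L := by
    refine weight f ?_ ?_
    · intro i hi i' hi' hii hfi hfi'
      have hJi := hf0 i hfi
      have hJi' := hf0 i' hfi'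
      have key : ∀ j ∈ J i, ∀ j' ∈ J i', (j ≤ j' + (i' - i - 2) ∧ j' ≤ j + (i' - i - 2)) ∧
          (j ≤ j' + (L - (i' - i) - 2) ∧ j' ≤ j + (L - (i' - i) - 2)) ∧ 2 ≤ i' - i ∧ 2 ≤ L - (i' - i) := by
        intro j hj j' hj'
        obtain ⟨h1, h2⟩ := (hJ i j).1 hj
        obtain ⟨h3, h4⟩ := (hJ i' j').1 hj'
        obtain ⟨T, t1, t2, t3, t4⟩ := C4_link v0 vS h1 h3 h2 h4
        have t0 : 1 ≤ T.length := List.length_pos_of_ne_nil t1.1
        have b1 := basic hc mx (i := i) (g := i' - i) (by omega) (by omega) (T := T)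
          (by
            have h5 : i + (i' - i) = i' := by omega
            rw [h5]
            exact t1) t2
        have b2 := basic hc mx (i := i') (g := L - (i' - i)) (by omega) (by omega) (T := T.reverse)
          (by
            have h5 : i' + (L - (i' - i)) = i + L := by omega
            rw [h5, hc.per]
            exact t1.symm) (fun z hz => t2 z (List.mem_reverse.1 hz))
        rw [List.length_reverse] at b2
        refine ⟨⟨by omega, by omega⟩, ⟨by omega, by omega⟩, by omega, by omega⟩
      have a1 := two_sets hJi hJi' (m := i' - i - 2) (fun j hj j' hj' => (key j hj j' hj').1)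
      have a2 := two_sets hJi hJi' (m := L - (i' - i) - 2) (fun j hj j' hj' => (key j hj j' hj').2.1)
      obtain ⟨j, hj⟩ := hJi
      obtain ⟨j', hj'⟩ := hJi'
      have a3 := (key j hj j' hj').2.2
      rw [hf1 i ⟨j, hj⟩, hf1 i' ⟨j', hj'⟩]
      omega
    · have h1 : 1 < (N 0).ncard := by
        have := vk 0 hp
        rw [← hN 0] at this
        omega
      obtain ⟨x, hx, y, hy, hxy⟩ := (Set.one_lt_ncard (Set.toFinite _)).1 h1
      obtain ⟨i, -, hi, hix⟩ := hc.exists_lt hx.2 0
      obtain ⟨i', -, hi', hix'⟩ := hc.exists_lt hy.2 0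
      rw [Nat.zero_add] at hi hi'
      have f1 : 0 < f i := by
        rw [hf1 i ⟨0, (hJ i 0).2 ⟨hp, by rw [hix]; exact hx.1⟩⟩]
        omega
      have f2 : 0 < f i' := by
        rw [hf1 i' ⟨0, (hJ i' 0).2 ⟨hp, by rw [hix']; exact hy.1⟩⟩]
        omega
      rcases Nat.lt_trichotomy i i' with h2 | h2 | h2
      · exact ⟨i, hi, i', hi', h2, f1, f2⟩
      · exfalso
        rw [h2, hix'] at hix
        exact hxy hix.symm
      · exact ⟨i', hi', i, hi, h2, f2, f1⟩
  have hsum : ∑ i ∈ Finset.range L, f i = ∑ j ∈ Finset.range p, (N j).ncard + X.ncard := by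
    have e1 : ∀ i ∈ Finset.range L, f i = (J i).card + (if c i ∈ X then 1 else 0) := by
      intro i _
      by_cases hi : (J i).Nonempty
      · obtain ⟨j, hj⟩ := hi
        have h1 := (hJ i j).1 hj
        have h2 : c i ∈ X := ⟨⟨i, rfl⟩, j, h1.1, h1.2⟩
        rw [hf1 i ⟨j, hj⟩, if_pos h2]
      · have h1 : f i = 0 := if_neg hi
        have h2 : c i ∉ X := by
          rintro ⟨-, j, h3, h4⟩
          exact hi ⟨j, (hJ i j).2 ⟨h3, h4⟩⟩
        rw [Finset.not_nonempty_iff_eq_empty] at hi
        rw [h1, if_neg h2, hi, Finset.card_empty]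
    rw [Finset.sum_congr rfl e1, Finset.sum_add_distrib]
    congr 1
    · have e2 : ∀ i ∈ Finset.range L, (J i).card = ∑ j ∈ Finset.range p, (if c i ∈ N j then 1 else 0) := by
        intro i _
        rw [Finset.card_filter]
        refine Finset.sum_congr rfl (fun j _ => ?_)
        by_cases h1 : G.Adj (v j) (c i)
        · have h2 : c i ∈ N j := ⟨h1, i, rfl⟩
          rw [if_pos h1, if_pos h2]
        · have h2 : c i ∉ N j := fun h => h1 h.1
          rw [if_neg h1, if_neg h2]
      rw [Finset.sum_congr rfl e2, Finset.sum_comm]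
      refine Finset.sum_congr rfl (fun j _ => ?_)
      rw [← Finset.card_filter]
      exact C4_pos hc (fun x hx => hx.2)
    · rw [← Finset.card_filter]
      exact C4_pos hc (fun x hx => hx.1)
  have hNk : ∀ j < p, k ≤ (N j).ncard + p ^ 2 := fun j hj => vk j hj
  have hlow : p * k ≤ ∑ j ∈ Finset.range p, (N j).ncard + p * p ^ 2 := by
    calc p * k = ∑ _j ∈ Finset.range p, k := by rw [Finset.sum_const, Finset.card_range, smul_eq_mul]
      _ ≤ ∑ j ∈ Finset.range p, ((N j).ncard + p ^ 2) :=
        Finset.sum_le_sum (fun j hj => hNk j (Finset.mem_range.1 hj))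
      _ = _ := by rw [Finset.sum_add_distrib, Finset.sum_const, Finset.card_range, smul_eq_mul]
  refine ⟨X, fun x hx => hx.1, ?_, ?_, N 0, N (p - 1), hNX 0 hp, hNX (p - 1) (by omega), hNk 0 hp,
    hNk (p - 1) (by omega), ?_⟩
  · omega
  · have h1 := Set.ncard_le_ncard (hNX 0 hp) (Set.toFinite _)
    have h2 := hNk 0 hp
    omega
  · intro x hx
    refine ⟨hx.1.2, ?_, ?_⟩
    · intro a ha
      rw [vh] at ha
      simp only [Option.some.injEq] at ha
      rw [← ha]
      exact hx.1.1.symm
    · intro b hb
      rw [vl] at hb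
      simp only [Option.some.injEq] at hb
      rw [← hb]
      exact hx.2.1.symm

theorem lower [Finite V] {G : SimpleGraph V} {k p L : ℕ} {c : ℕ → V} (hc : Cyc G L c) (mx : Mx G L)
    (pc : ∀ l, PL G l → Out c l → l.length ≤ p) (deg : ∀ v, k ≤ (G.neighborSet v).ncard) (hk : p ^ 2 + 2 ≤ k) {Q : List V} (hQ : PL G Q)
    (ho : Out c Q) (hl : Q.length = p) : (p + 1) * k ≤ L + (p + 1) * p ^ 2 := by
  obtain ⟨X, -, h1, h2, -⟩ := main1 hc mx pc deg hk hQ ho hl
  rw [Nat.add_mul, Nat.add_mul, Nat.one_mul, Nat.one_mul]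
  omega

theorem AA_card [Finite V] {G : SimpleGraph V} {k p L t : ℕ} {c : ℕ → V} (hc : Cyc G L c) (mx : Mx G L)
    (pc : ∀ l, PL G l → Out c l → l.length ≤ p) (deg : ∀ v, k ≤ (G.neighborSet v).ncard) (hk : p ^ 2 + 2 ≤ k) {Q : List V} (hQ : PL G Q)
    (ho : Out c Q) (hl : Q.length = p) (hL : L ≤ (p + 1) * (k + t)) :
    k ≤ (AA G c Q).ncard + (p ^ 3 + 2 * p ^ 2 + (p + 1) * t) := by
  obtain ⟨X, -, h1, -, N₀, N₁, h3, h4, h5, h6, h7⟩ := main1 hc mx pc deg hk hQ ho hl
  have h8 := Set.ncard_le_ncard h7 (Set.toFinite _)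
  have h9 := Set.ncard_union_add_ncard_inter N₀ N₁ (Set.toFinite _) (Set.toFinite _)
  have h10 := Set.ncard_le_ncard (Set.union_subset h3 h4) (Set.toFinite _)
  have h11 : (p + 1) * (k + t) = p * k + k + (p + 1) * t := by ring
  have h12 : p ^ 3 = p * p ^ 2 := by ring
  rw [h11] at hL
  rw [h12]
  omega

end LC.Sm
end
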