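import Pool.Agent.Lib.MP_6bc8af_co.Mg.G033

section

/-!
# TASK SM W0: the common vertices

PROOF.
`gap_le`: `g ≤ L` (otherwise `j = L` in `Gap` contradicts `d (i + L) = d i ∈ W`); if `2 ≤ g` the path `arc d (i + 1) (g - 1)` (`PL_arc`) consists of vertices of `d` outside `W = Set.range c ∩ Set.range d`, so outside `c`: `g - 1 ≤ p`.
`w_ne`: if `W` is empty, then `d` is outside `c`, so the path `arc d 0 L` is outside `c` and `L ≤ p`; but `lower` gives `(p + 1) * k ≤ L + (p + 1) * p ^ 2`, and with `p ^ 2 + 2 ≤ k`: `L ≥ 2 (p + 1)`, a contradiction.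
`up_gen`: `L = ∑ gp d W i` over the positions `i < L` of `W` (`gap_sum`, `W` is nonempty and contained in `Set.range d`), every term is at most `p + 1` (`gap_exists`, `gap_le`), the number of terms is `W.ncard` (`card_pos`).
-/

namespace LC.Sm

universe u

variable {V : Type u}

theorem gap_le {G : SimpleGraph V} {p L : ℕ} {c d : ℕ → V} {W : Set V} (hd : Cyc G L d)
    (hW : W = Set.range c ∩ Set.range d) (pc : ∀ l, PL G l → Out c l → l.length ≤ p) {i g : ℕ} (hg : Gap d W i g) :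
    g ≤ p + 1 := by
  obtain ⟨h1, h2, h3, h4⟩ := hg
  have hgL : g ≤ L := by
    by_contra h
    refine h4 L hd.pos (by omega) ?_
    rw [hd.per]
    exact h1
  rcases Nat.lt_or_ge g 2 with h | h
  · omega
  · have h5 : PL G (arc d (i + 1) (g - 1)) := PL_arc hd (i + 1) (by omega) (by omega)
    have h6 : Out c (arc d (i + 1) (g - 1)) := by
      intro v hv hvc
      obtain ⟨j, hj, rfl⟩ := mem_arc.1 hv
      refine h4 (j + 1) (by omega) (by omega) ?_
      rw [hW]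
      have e : i + (j + 1) = i + 1 + j := by omega
      rw [e]
      exact ⟨hvc, ⟨_, rfl⟩⟩
    have h7 := pc _ h5 h6
    rw [arc_length] at h7
    omega

theorem w_ne [Finite V] {G : SimpleGraph V} {k p L : ℕ} {c d : ℕ → V} {W : Set V} (hc : Cyc G L c) (hd : Cyc G L d)
    (hW : W = Set.range c ∩ Set.range d) (mx : Mx G L) (pc : ∀ l, PL G l → Out c l → l.length ≤ p)
    (ec : ∃ l, PL G l ∧ Out c l ∧ l.length = p) (deg : ∀ v, k ≤ (G.neighborSet v).ncard) (hk : p ^ 2 + 2 ≤ k) :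
    W.Nonempty := by
  by_contra hne
  rw [Set.not_nonempty_iff_eq_empty] at hne
  have h1 : PL G (arc d 0 L) := PL_arc hd 0 hd.pos le_rfl
  have h2 : Out c (arc d 0 L) := by
    intro v hv hvc
    obtain ⟨j, _, rfl⟩ := mem_arc.1 hv
    have h3 : d (0 + j) ∈ W := by
      rw [hW]
      exact ⟨hvc, ⟨_, rfl⟩⟩
    rw [hne] at h3
    exact h3
  have h3 := pc _ h1 h2
  rw [arc_length] at h3
  obtain ⟨Q, hQ, ho, hl⟩ := ec
  have h4 := lower hc mx pc deg hk hQ ho hl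
  have h5 : (p + 1) * (p ^ 2 + 2) ≤ (p + 1) * k := Nat.mul_le_mul_left _ hk
  have h6 : (p + 1) * (p ^ 2 + 2) = (p + 1) * p ^ 2 + 2 * (p + 1) := by ring
  omega

theorem up_gen [Finite V] {G : SimpleGraph V} {p L : ℕ} {c d : ℕ → V} {W : Set V} (hd : Cyc G L d)
    (hW : W = Set.range c ∩ Set.range d) (hne : W.Nonempty) (pc : ∀ l, PL G l → Out c l → l.length ≤ p) :
    L ≤ (p + 1) * W.ncard := by
  classical
  have hsub : W ⊆ Set.range d := by
    rw [hW]
    exact Set.inter_subset_right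
  have hex : ∃ i, d i ∈ W := by
    obtain ⟨v, hv⟩ := hne
    obtain ⟨i, hi⟩ := hsub hv
    exact ⟨i, by rw [hi]; exact hv⟩
  calc L = ∑ i ∈ (Finset.range L).filter (fun i => d i ∈ W), gp d W i := (gap_sum hd hex).symm
    _ ≤ ∑ i ∈ (Finset.range L).filter (fun i => d i ∈ W), (p + 1) := by
        refine Finset.sum_le_sum fun i hi => ?_
        rw [Finset.mem_filter] at hi
        exact gap_le hd hW pc (gap_exists hd hi.2).1
    _ = (p + 1) * W.ncard := by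
        rw [Finset.sum_const, smul_eq_mul, card_pos hd hsub, mul_comm]

end LC.Sm
end

section

/-!
# TASK SM W1: first consequences of the hypotheses

The statements are for `c`; `Su.swap` gives them for `d`. Everything is arithmetic after the lemmas of B1, B2, C4.

PROOF.
`sig_pos`, `sig_bounds`, `mu_bounds`: with `q = p + 1 ≥ 2`, `q ^ 3 (t + 1) = (t + 1) (p ^ 3 + 3 p ^ 2 + 3 p + 1)`; `nlinarith` or `positivity` after `ring_nf`.
`Su.big'`: `30 * (p + 1) ^ 3 * sig p t ≤ k`, from `big`. `Su.hk`: `p ^ 2 + 2 ≤ k` from `big`.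
`Su.out`: a vertex of `d` which is not in `W = Set.range c ∩ Set.range d` is not on `c`.
`Su.low`: `lower` with `ec`. `Su.wne`: `w_ne`. `Su.gapd`: `gap_le`. `Su.up`: `up_gen`. `Su.up'`: `up` with `w`.
`Su.fs`: `full_card`, `low`, `w`: `(p + 1) k ≤ L + (p + 1) p ^ 2 ≤ p (k + t) + F + (p + 1) p ^ 2`. `Su.fs'`: `full_card'`: `L + |W| ≤ (p + 1) |W| + F` and `(p + 1) |W| ≤ (p + 1) (k + t) ≤ L + (p + 1) (p ^ 2 + t)`.
`Su.aa`: `AA_card` with `up'`.
-/

namespace LC.Sm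

universe u

variable {V : Type u}

/-- the error of the counts -/
def sig (p t : ℕ) : ℕ := (p + 1) ^ 3 * (t + 1)

/-- the bound for `W ∖ AA` -/
def mu (p t : ℕ) : ℕ := 5 * (p + 1) ^ 2 * sig p t

theorem sig_bounds {p : ℕ} (hp : 1 ≤ p) (t : ℕ) : 1 ≤ sig p t ∧ (p + 1) * (p ^ 2 + t) ≤ sig p t ∧
    p * t + (p + 1) * p ^ 2 ≤ sig p t ∧ (p ^ 3 + 2 * p ^ 2 + (p + 1) * t) + t ≤ sig p t := by
  obtain ⟨q, rfl⟩ : ∃ q, p = q + 1 := ⟨p - 1, by omega⟩
  unfold sig
  refine ⟨Nat.succ_le_of_lt (by positivity), ?_, ?_, ?_⟩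
  · refine le_iff_exists_add.2 ⟨(q + 1 + 1) * ((q + 1) ^ 2 * t + 2 * (q + 1) * t + 2 * (q + 1) + 1), ?_⟩
    ring
  · refine le_iff_exists_add.2 ⟨((q + 1) ^ 3 + 3 * (q + 1) ^ 2 + 2 * (q + 1) + 1) * t + 2 * (q + 1) ^ 2 + 3 * (q + 1) + 1, ?_⟩
    ring
  · refine le_iff_exists_add.2 ⟨((q + 1) ^ 3 + 3 * (q + 1) ^ 2 + (q + 1) + q) * t + (q + 1) ^ 2 + 3 * (q + 1) + 1, ?_⟩
    ring

theorem mu_bounds {p : ℕ} (hp : 1 ≤ p) (t : ℕ) : sig p t + 1 + 2 * (2 * (p + 1) ^ 2 * sig p t) ≤ mu p t ∧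
    2 * sig p t + 4 + 6 * mu p t + 2 * mu p t * p < 30 * (p + 1) ^ 3 * sig p t := by
  have h1 := (sig_bounds hp t).1
  obtain ⟨q, rfl⟩ : ∃ q, p = q + 1 := ⟨p - 1, by omega⟩
  unfold mu
  generalize sig (q + 1) t = s at h1 ⊢
  constructor
  · have e : 5 * (q + 1 + 1) ^ 2 * s = s + s + (2 * (2 * (q + 1 + 1) ^ 2 * s)) + (q ^ 2 + 4 * q + 2) * s := by ring
    have h2 : 0 ≤ (q ^ 2 + 4 * q + 2) * s := Nat.zero_le _
    linarith
  · have e : 30 * (q + 1 + 1) ^ 3 * s = (6 * (5 * (q + 1 + 1) ^ 2 * s) + 2 * (5 * (q + 1 + 1) ^ 2 * s) * (q + 1)) +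
      (q + 2) ^ 2 * (20 * q + 20) * s := by ring
    have h2 : 80 * s ≤ (q + 2) ^ 2 * (20 * q + 20) * s := by
      refine Nat.mul_le_mul_right s ?_
      have h3 : 2 ^ 2 ≤ (q + 2) ^ 2 := Nat.pow_le_pow_left (by omega) 2
      calc 80 = 2 ^ 2 * 20 := by norm_num
        _ ≤ (q + 2) ^ 2 * (20 * q + 20) := Nat.mul_le_mul h3 (by omega)
    linarith

theorem Su.big' {G : SimpleGraph V} {k t p L : ℕ} {c d : ℕ → V} {W : Set V} (h : Su G k t p L c d W) :
    30 * (p + 1) ^ 3 * sig p t ≤ k := by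
  refine le_trans (le_of_eq ?_) h.big
  unfold sig
  ring

theorem Su.hk {G : SimpleGraph V} {k t p L : ℕ} {c d : ℕ → V} {W : Set V} (h : Su G k t p L c d W) :
    p ^ 2 + 2 ≤ k := by
  refine le_trans ?_ h.big
  have h1 : (p + 1) ^ 2 ≤ (p + 1) ^ 6 := Nat.pow_le_pow_right (by omega) (by norm_num)
  have h2 : (p + 1) ^ 6 * 1 ≤ (p + 1) ^ 6 * (t + 1) := Nat.mul_le_mul_left _ (by omega)
  have h3 : (p + 1) ^ 2 ≤ (p + 1) ^ 6 * (t + 1) := by
    rw [mul_one] at h2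
    exact h1.trans h2
  calc p ^ 2 + 2 ≤ 30 * (p + 1) ^ 2 := by nlinarith [Nat.zero_le p]
    _ ≤ 30 * ((p + 1) ^ 6 * (t + 1)) := Nat.mul_le_mul_left _ h3
    _ = 30 * (p + 1) ^ 6 * (t + 1) := by ring

theorem Su.out {G : SimpleGraph V} {k t p L : ℕ} {c d : ℕ → V} {W : Set V} (h : Su G k t p L c d W) {l : List V}
    (hl : ∀ v ∈ l, v ∈ Set.range d ∧ v ∉ W) : Out c l := by
  intro v hv hvc
  obtain ⟨h1, h2⟩ := hl v hv
  apply h2
  rw [h.hW]
  exact ⟨hvc, h1⟩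

theorem Su.low [Finite V] {G : SimpleGraph V} {k t p L : ℕ} {c d : ℕ → V} {W : Set V} (h : Su G k t p L c d W) :
    (p + 1) * k ≤ L + (p + 1) * p ^ 2 := by
  obtain ⟨Q, hQ, ho, hl⟩ := h.ec
  exact lower h.hc h.mx h.pc h.deg h.hk hQ ho hl

theorem Su.wne [Finite V] {G : SimpleGraph V} {k t p L : ℕ} {c d : ℕ → V} {W : Set V} (h : Su G k t p L c d W) :
    W.Nonempty :=
  w_ne h.hc h.hd h.hW h.mx h.pc h.ec h.deg h.hk

theorem Su.gapd {G : SimpleGraph V} {k t p L : ℕ} {c d : ℕ → V} {W : Set V} (h : Su G k t p L c d W) {i g : ℕ}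
    (hg : Gap d W i g) : g ≤ p + 1 :=
  gap_le h.hd h.hW h.pc hg

theorem Su.up [Finite V] {G : SimpleGraph V} {k t p L : ℕ} {c d : ℕ → V} {W : Set V} (h : Su G k t p L c d W) :
    L ≤ (p + 1) * W.ncard :=
  up_gen h.hd h.hW h.wne h.pc

theorem Su.up' [Finite V] {G : SimpleGraph V} {k t p L : ℕ} {c d : ℕ → V} {W : Set V} (h : Su G k t p L c d W) :
    L ≤ (p + 1) * (k + t) :=
  h.up.trans (Nat.mul_le_mul_left _ h.w)

theorem Su.fs [Finite V] {G : SimpleGraph V} {k t p L : ℕ} {c d : ℕ → V} {W : Set V} (h : Su G k t p L c d W) :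
    k ≤ (FS d W p L).card + sig p t := by
  have hWd : W ⊆ Set.range d := by
    rw [h.hW]
    exact Set.inter_subset_right
  have h1 := full_card h.hd hWd h.wne (p := p) (fun i g hg => h.gapd hg)
  have h2 := h.low
  have h3 := (sig_bounds h.p1 t).2.2.1
  have h4 : p * W.ncard ≤ p * (k + t) := Nat.mul_le_mul_left _ h.w
  nlinarith

theorem Su.fs' [Finite V] {G : SimpleGraph V} {k t p L : ℕ} {c d : ℕ → V} {W : Set V} (h : Su G k t p L c d W) :
    W.ncard ≤ (FS d W p L).card + sig p t := by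
  have hWd : W ⊆ Set.range d := by
    rw [h.hW]
    exact Set.inter_subset_right
  have h1 := full_card' h.hd hWd h.wne (p := p) (fun i g hg => h.gapd hg)
  have h2 := h.low
  have h3 := (sig_bounds h.p1 t).2.1
  have h4 : (p + 1) * W.ncard ≤ (p + 1) * (k + t) := Nat.mul_le_mul_left _ h.w
  nlinarith

theorem Su.aa [Finite V] {G : SimpleGraph V} {k t p L : ℕ} {c d : ℕ → V} {W : Set V} (h : Su G k t p L c d W)
    {R : List V} (hR : PL G R) (ho : Out c R) (hl : R.length = p) : k + t ≤ (AA G c R).ncard + sig p t := by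
  have h1 := AA_card h.hc h.mx h.pc h.deg h.hk hR ho hl h.up'
  have h2 := (sig_bounds h.p1 t).2.2.2
  omega

end LC.Sm
end

section

/-!
# TASK SM W2: the sets `AA` and the full segments

PROOF.
`AA_lk`: `Lk_iff` (the vertices of `AA G c R` are adjacent to the first and to the last vertex of `R`).
`Su.aa_gap`: if `g < L`: `basic` with the link `R` from `c i` to `c (i + g)` gives `p + 1 ≤ g`. If `L ≤ g`: `Su.low` and `Su.hk` give `p + 1 ≤ L`.
`Su.long`: `long_card` with `A = AA G c R` (nonempty by `Su.aa`: `k > sig p t` by `big'`): `|LongV| + (p + 3) (p + 1) |A| ≤ (p + 3) L ≤ (p + 3) (p + 1) (k + t)` (`up'`), so `|LongV| ≤ (p + 3) (p + 1) sig p t`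
(`aa`: `k + t ≤ |A| + sig p t`) and `p + 3 ≤ 2 (p + 1)`.
`Su.seg`: `i ∈ FS d W p L` means `i < L` and `Gap d W i (p + 1)`; the vertices `d (i + j)`, `1 ≤ j ≤ p`, are not in `W`: `Su.out`, `PL_arc` (`p ≤ L`: by `low`, `hk`), `arc_length`, `Lk_arc`.
-/

namespace LC.Sm

universe u

variable {V : Type u}

theorem AA_lk {G : SimpleGraph V} {c : ℕ → V} {R : List V} (hR : PL G R) {x x' : V} (hx : x ∈ AA G c R)
    (hx' : x' ∈ AA G c R) : Lk G x R x' := by
  exact Lk_iff.2 ⟨hR, fun a ha => hx.2.1 a ha, fun b hb => (hx'.2.2 b hb).symm⟩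

theorem Su.p_lt [Finite V] {G : SimpleGraph V} {k t p L : ℕ} {c d : ℕ → V} {W : Set V} (h : Su G k t p L c d W) :
    2 * (p + 1) ≤ L := by
  have h1 := h.low
  have h2 := h.hk
  have h3 : (p + 1) * (p ^ 2 + 2) ≤ (p + 1) * k := Nat.mul_le_mul_left _ h2
  rw [Nat.mul_add] at h3
  omega

theorem Su.aa_gap [Finite V] {G : SimpleGraph V} {k t p L : ℕ} {c d : ℕ → V} {W : Set V} (h : Su G k t p L c d W)
    {R : List V} (hR : PL G R) (ho : Out c R) (hl : R.length = p) {i g : ℕ} (hg : Gap c (AA G c R) i g) : p + 1 ≤ g := by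
  have hp := h.p_lt
  rcases Nat.lt_or_ge g L with hgL | hgL
  · have h1 := basic h.hc h.mx hg.2.1 hgL (AA_lk hR hg.1 hg.2.2.1) ho
    omega
  · omega

theorem Su.aa_ne [Finite V] {G : SimpleGraph V} {k t p L : ℕ} {c d : ℕ → V} {W : Set V} (h : Su G k t p L c d W)
    {R : List V} (hR : PL G R) (ho : Out c R) (hl : R.length = p) : (AA G c R).Nonempty := by
  have h1 := h.aa hR ho hl
  have h2 := h.big'
  have h3 := (sig_bounds h.p1 t).1
  by_contra hne
  rw [Set.not_nonempty_iff_eq_empty] at hne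
  rw [hne, Set.ncard_empty] at h1
  have h4 : 1 ≤ (p + 1) ^ 3 := Nat.one_le_pow _ _ (Nat.succ_pos p)
  have h5 : 30 * 1 * sig p t ≤ 30 * (p + 1) ^ 3 * sig p t :=
    Nat.mul_le_mul_right _ (Nat.mul_le_mul_left _ h4)
  omega

theorem Su.long [Finite V] {G : SimpleGraph V} {k t p L : ℕ} {c d : ℕ → V} {W : Set V} (h : Su G k t p L c d W)
    {R : List V} (hR : PL G R) (ho : Out c R) (hl : R.length = p) :
    (LongV c (AA G c R) p).ncard ≤ 2 * (p + 1) ^ 2 * sig p t := by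
  have h1 := long_card h.hc (A := AA G c R) (fun x hx => hx.1) (h.aa_ne hR ho hl) (p := p)
    (fun i g hg => h.aa_gap hR ho hl hg)
  have h2 := h.up'
  have h3 := h.aa hR ho hl
  have hp := h.p1
  have h4 : (p + 3) * L ≤ (p + 3) * ((p + 1) * (k + t)) := Nat.mul_le_mul_left _ h2
  have h5 : (p + 3) * ((p + 1) * (k + t)) ≤
      (p + 3) * ((p + 1) * ((AA G c R).ncard + sig p t)) :=
    Nat.mul_le_mul_left _ (Nat.mul_le_mul_left _ h3)
  have h6 : (p + 3) * ((p + 1) * ((AA G c R).ncard + sig p t)) =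
      (p + 3) * ((p + 1) * (AA G c R).ncard) + (p + 3) * ((p + 1) * sig p t) := by ring
  have h7 : (p + 3) * ((p + 1) * sig p t) ≤ (2 * (p + 1)) * ((p + 1) * sig p t) :=
    Nat.mul_le_mul_right _ (by omega)
  have h8 : (2 * (p + 1)) * ((p + 1) * sig p t) = 2 * (p + 1) ^ 2 * sig p t := by ring
  omega

theorem Su.seg [Finite V] {G : SimpleGraph V} {k t p L : ℕ} {c d : ℕ → V} {W : Set V} (h : Su G k t p L c d W) {i : ℕ}
    (hi : i ∈ FS d W p L) : PL G (sg d p i) ∧ Out c (sg d p i) ∧ (sg d p i).length = p ∧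
      Lk G (d i) (sg d p i) (d (i + p + 1)) ∧ d i ∈ W ∧ d (i + p + 1) ∈ W ∧ d i ≠ d (i + p + 1) := by
  have hg : Gap d W i (p + 1) := by
    classical
    unfold FS at hi
    rw [Finset.mem_filter] at hi
    exact hi.2
  have hp := h.p_lt
  have h1 := h.p1
  refine ⟨PL_arc h.hd (i + 1) h1 (by omega), h.out ?_, arc_length _ _ _,
    Lk_arc h.hd i h1 (by omega), hg.1, hg.2.2.1, h.hd.ne_of_lt (by omega) (by omega)⟩
  intro v hv
  obtain ⟨j, hj, rfl⟩ := mem_arc.1 hv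
  refine ⟨⟨_, rfl⟩, ?_⟩
  have h2 := hg.2.2.2 (j + 1) (by omega) (by omega)
  rwa [show i + (j + 1) = i + 1 + j by omega] at h2

end LC.Sm
end
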