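import Pool.Agent.Lib.MP_6bc8af_co.Mg.G031

section

/-!
# TASK SM E3: a gap of `W` with its start in `A` and its end in `B`

PROOF. Let `P` be the set of the positions `n` with `i + g ≤ n < i + L`, `c n ∈ W` (`i` is a position of `W`, `g = gp c W i`, no position `i < n < i + g` is in `W`): `n ↦ c n` is injective on `P` (`Cyc.ne_of_lt`) with image `W \ {c i}`, so `P.card = |W| - 1`.
The gap of `W` after `n ∈ P` ends at `n + h ≤ i + L`. Call `n ∈ P` bad if `n = i + g`, or `n + h = i + L`, or `c n ∉ A`, or `c (n + h) ∉ B`. There is at most one `n` of the first kind and at most one of the second (two gaps with the same end are equal), at most `m` of the third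
(`n ↦ c n` is injective), at most `m` of the fourth kind (`n ↦ c (n + h)` is injective on `P`). So there is a good `n`, as `2 * m + 2 < P.card`.
-/

namespace LC.Sm

universe u

variable {V : Type u}

theorem choose_gap [Finite V] {G : SimpleGraph V} {L : ℕ} {c : ℕ → V} (hc : Cyc G L c) {W A B : Set V} (hW : W ⊆ Set.range c) {m : ℕ}
    (hA : (W \ A).ncard ≤ m) (hB : (W \ B).ncard ≤ m) (hm : 2 * m + 4 ≤ W.ncard) {i g : ℕ} (hg : Gap c W i g) :
    ∃ n h, Gap c W n h ∧ c n ∈ A ∧ c (n + h) ∈ B ∧ i + g < n ∧ n + h < i + L := by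
  classical
  set P : Finset ℕ := (Finset.Ico (i + g) (i + L)).filter (fun n => c n ∈ W) with hP
  have memP : ∀ n, n ∈ P ↔ (i + g ≤ n ∧ n < i + L) ∧ c n ∈ W := by
    intro n
    rw [hP, Finset.mem_filter, Finset.mem_Ico]
  have hgap : ∀ n ∈ P, Gap c W n (gp c W n) := fun n hn =>
    (gap_exists hc ((memP n).1 hn).2).1
  have hend : ∀ n ∈ P, n + gp c W n ≤ i + L := by
    intro n hn
    by_contra hcon
    have h1 := hgap n hn
    have h2 := ((memP n).1 hn).1
    have h3 := h1.2.2.2 (i + L - n) (by omega) (by omega)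
    apply h3
    rw [show n + (i + L - n) = i + L by omega, hc.per]
    exact hg.1
  have hmono : ∀ n ∈ P, ∀ n' ∈ P, n < n' → n + gp c W n ≤ n' := by
    intro n hn n' hn' hlt
    by_contra hcon
    have h1 := hgap n hn
    have h3 := h1.2.2.2 (n' - n) (by omega) (by omega)
    apply h3
    rw [show n + (n' - n) = n' by omega]
    exact ((memP n').1 hn').2
  have hlt : ∀ n ∈ P, ∀ n' ∈ P, n < n' → n + gp c W n < n' + gp c W n' := by
    intro n hn n' hn' h
    have h1 := hmono n hn n' hn' h
    have h2 := (hgap n' hn').2.1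
    omega
  have hg1 := hg.2.1
  -- the number of positions
  have hcard : W.ncard ≤ P.card + 1 := by
    have h1 : W ⊆ insert (c i) (c '' (P : Set ℕ)) := by
      intro w hw
      obtain ⟨n, h1, h2, h3⟩ := hc.exists_lt (hW hw) i
      rcases Nat.eq_or_lt_of_le h1 with h4 | h4
      · left
        rw [← h3, h4]
      · right
        refine ⟨n, ?_, h3⟩
        rw [Finset.mem_coe, memP, h3]
        refine ⟨⟨?_, h2⟩, hw⟩
        by_contra h5
        have h6 := hg.2.2.2 (n - i) (by omega) (by omega)
        apply h6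
        rw [show i + (n - i) = n by omega, h3]
        exact hw
    calc W.ncard ≤ (insert (c i) (c '' (P : Set ℕ))).ncard := Set.ncard_le_ncard h1 (Set.toFinite _)
      _ ≤ (c '' (P : Set ℕ)).ncard + 1 := Set.ncard_insert_le _ _
      _ ≤ (P : Set ℕ).ncard + 1 := Nat.add_le_add_right (Set.ncard_image_le (Finset.finite_toSet P)) 1
      _ = P.card + 1 := by rw [Set.ncard_coe_finset]
  -- bad positions
  have hB3 : (P.filter (fun n => c n ∉ A)).card ≤ m := by
    refine le_trans ?_ hA
    rw [← Set.ncard_coe_finset]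
    apply Set.ncard_le_ncard_of_injOn c
    · intro n hn
      rw [Finset.mem_coe, Finset.mem_filter] at hn
      exact ⟨((memP n).1 hn.1).2, hn.2⟩
    · intro n hn n' hn' heq
      rw [Finset.mem_coe, Finset.mem_filter] at hn hn'
      have h1 := ((memP n).1 hn.1).1
      have h2 := ((memP n').1 hn'.1).1
      by_contra hne
      rcases Nat.lt_or_gt_of_ne hne with h | h
      · exact hc.ne_of_lt h (by omega) heq
      · exact hc.ne_of_lt h (by omega) heq.symm
  have hB4 : (P.filter (fun n => c (n + gp c W n) ∉ B)).card ≤ m := by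
    refine le_trans ?_ hB
    rw [← Set.ncard_coe_finset]
    apply Set.ncard_le_ncard_of_injOn (fun n => c (n + gp c W n))
    · intro n hn
      rw [Finset.mem_coe, Finset.mem_filter] at hn
      exact ⟨(hgap n hn.1).2.2.1, hn.2⟩
    · intro n hn n' hn' heq
      rw [Finset.mem_coe, Finset.mem_filter] at hn hn'
      have h1 := ((memP n).1 hn.1).1
      have h2 := ((memP n').1 hn'.1).1
      have e1 := hend n hn.1
      have e2 := hend n' hn'.1
      have heq' : c (n + gp c W n) = c (n' + gp c W n') := heq
      by_contra hne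
      rcases Nat.lt_or_gt_of_ne hne with h | h
      · exact hc.ne_of_lt (hlt n hn.1 n' hn'.1 h) (by omega) heq'
      · exact hc.ne_of_lt (hlt n' hn'.1 n hn.1 h) (by omega) heq'.symm
  have hB2 : (P.filter (fun n => n + gp c W n = i + L)).card ≤ 1 := by
    rw [Finset.card_le_one]
    intro n hn n' hn'
    rw [Finset.mem_filter] at hn hn'
    by_contra hne
    rcases Nat.lt_or_gt_of_ne hne with h | h
    · have := hlt n hn.1 n' hn'.1 h
      omega
    · have := hlt n' hn'.1 n hn.1 h
      omega
  by_contra hcon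
  have hsub : P ⊆ {i + g} ∪ (P.filter (fun n => n + gp c W n = i + L)) ∪
      (P.filter (fun n => c n ∉ A)) ∪ (P.filter (fun n => c (n + gp c W n) ∉ B)) := by
    intro n hn
    simp only [Finset.mem_union, Finset.mem_singleton, Finset.mem_filter]
    by_contra h
    push Not at h
    obtain ⟨⟨⟨h1, h2⟩, h3⟩, h4⟩ := h
    apply hcon
    have h5 := ((memP n).1 hn).1
    have h6 := hend n hn
    have h7 := h2 hn
    exact ⟨n, gp c W n, hgap n hn, h3 hn, h4 hn, by omega, by omega⟩
  have h1 := Finset.card_le_card hsub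
  have h2 := Finset.card_union_le ({i + g} ∪ (P.filter (fun n => n + gp c W n = i + L)) ∪
      (P.filter (fun n => c n ∉ A))) (P.filter (fun n => c (n + gp c W n) ∉ B))
  have h3 := Finset.card_union_le ({i + g} ∪ (P.filter (fun n => n + gp c W n = i + L)))
      (P.filter (fun n => c n ∉ A))
  have h4 := Finset.card_union_le {i + g} (P.filter (fun n => n + gp c W n = i + L))
  rw [Finset.card_singleton] at h4
  omega

end LC.Sm
end

section

/-!
# TASK SM K2: two disjoint longest paths outside `c` are in different components; the link (H)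

PROOF.
`Kp_out`: `Dl_out` with `X = Set.range c`.
`kp_disj`: suppose `v` is in both sets; then some `r ∈ R` and some `r' ∈ R'` are connected in `Dl G (Set.range c)`. `conn_min` with `S = {x | x ∈ R'}`, start `r`: a path `P ++ [u']` from `r`, `u' ∈ R'`, `P` without vertices of `R'`. `r ∈ P ++ [u']`, `r ∈ R`, so
`last_mem` for `P ++ [u']` and `R`: `P ++ [u'] = A ++ x :: B`, `x ∈ R`, `B` without vertices of `R`. `B ≠ []`, since the last element `u'` is in `R'`, so not in `R`; so `B = B' ++ [u']`. `half` for `R, x` and for `R', u'`: paths `x :: H` in `R` and `u' :: H'` in `R'` with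
`p ≤ 2 |H| + 1`, `p ≤ 2 |H'| + 1`. The list `H.reverse ++ (x :: B' ++ (u' :: H'))` is a path outside `c` (its parts `H.reverse ++ [x] ⊆ R`, `B'` (outside `R` and `R'`), `u' :: H' ⊆ R'` are disjoint) with at least
`|H| + |H'| + 2 ≥ p + 1` vertices (`2 (|H| + |H'| + 2) ≥ 2 p + 2`), a contradiction.
`link`: `conn_min` with start `v`, `S = {x | x ∈ R}` gives a path `P ++ [u']` from `v` with only `u'` in `R`; `half` for `R`, `u'`: `u' :: H`. `T = P ++ u' :: H`; it is a path (`P` and `R` are disjoint), its first vertex is `v`, which is adjacent to `y`, its last vertex is an end of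
`R`, which is adjacent to `x`; `2 T.length ≥ 2 |H| + 2 ≥ R.length + 1`. All its vertices are in `Kp G c R` (those of `H` are in `R`; the others are reachable from `v`, and `v` from a vertex of `R`; for the vertices of `R` use the trivial walk).
-/

namespace LC.Sm

universe u

variable {V : Type u}

private theorem K2_join {G : SimpleGraph V} {A K : List V} {u : V} (h1 : PL G (A ++ [u])) (h2 : PL G (u :: K))
    (hd : A.Disjoint K) : PL G (A ++ u :: K) := by
  obtain ⟨-, n1, c1⟩ := h1
  obtain ⟨-, n2, c2⟩ := h2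
  refine ⟨by simp, ?_, ?_⟩
  · rw [List.nodup_append'] at n1 ⊢
    refine ⟨n1.1, n2, ?_⟩
    intro x hxA hx
    rcases List.mem_cons.1 hx with h | h
    · exact n1.2.2 hxA (by simp [h])
    · exact hd hxA h
  · rw [List.isChain_append] at c1 ⊢
    refine ⟨c1.1, c2, ?_⟩
    intro x hx y hy
    exact c1.2.2 x hx y (by simpa using hy)

private theorem K2_rev {G : SimpleGraph V} {l : List V} (h : PL G l) : PL G l.reverse := by
  obtain ⟨h1, h2, h3⟩ := h
  refine ⟨by simpa using h1, List.nodup_reverse.2 h2, ?_⟩
  rw [List.isChain_reverse]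
  exact h3.imp fun _ _ h => h.symm

private theorem K2_suffix {G : SimpleGraph V} {A B : List V} {x : V} (h : PL G (A ++ x :: B)) : PL G (x :: B) :=
  ⟨by simp, (List.nodup_append'.1 h.2.1).2.1, (List.isChain_append.1 h.2.2).2.1⟩

theorem Kp_out {G : SimpleGraph V} {c : ℕ → V} {R : List V} (ho : Out c R) {v : V} (hv : v ∈ Kp G c R) :
    v ∉ Set.range c := by
  obtain ⟨u, hu, h⟩ := hv
  exact Dl_out h (ho u hu)

/-- reachable vertices are in the same set -/
theorem Kp_mono {G : SimpleGraph V} {c : ℕ → V} {R : List V} {v v' : V} (hv : v ∈ Kp G c R)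
    (h : (Dl G (Set.range c)).Reachable v v') : v' ∈ Kp G c R := by
  obtain ⟨u, hu, h'⟩ := hv
  exact ⟨u, hu, h'.trans h⟩

theorem kp_disj {G : SimpleGraph V} {c : ℕ → V} {p : ℕ} (pc : ∀ l, PL G l → Out c l → l.length ≤ p) {R R' : List V}
    (hR : PL G R) (ho : Out c R) (hl : R.length = p) (hR' : PL G R') (ho' : Out c R') (hl' : R'.length = p)
    (dj : R.Disjoint R') : Disjoint (Kp G c R) (Kp G c R') := by
  rw [Set.disjoint_left]
  rintro v ⟨r, hr, hrv⟩ ⟨r', hr', hrv'⟩
  have hrr : (Dl G (Set.range c)).Reachable r r' := hrv.trans hrv'.symm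
  obtain ⟨P, u', hP, hhead, hu', hPR', hPo⟩ :=
    conn_min (S := {x | x ∈ R'}) hrr hr' (ho r hr)
  have hrP : r ∈ P ++ [u'] := by
    apply List.mem_of_mem_head?
    rw [hhead]
    rfl
  obtain ⟨A, B, x, hAB, hxR, hB⟩ := last_mem (S := {x | x ∈ R}) (P ++ [u']) ⟨r, hrP, hr⟩
  have hu'R : u' ∉ R := fun h => dj h hu'
  have hBne : B ≠ [] := by
    rintro rfl
    have h1 := List.append_inj' hAB rfl
    have h2 : u' = x := by simpa using h1.2
    exact hu'R (h2 ▸ hxR)
  obtain ⟨B', b, rfl⟩ : ∃ B' b, B = B' ++ [b] := by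
    rcases List.eq_nil_or_concat B with h | ⟨B', b, h⟩
    · exact absurd h hBne
    · exact ⟨B', b, by rw [h, List.concat_eq_append]⟩
  have hAB' : P ++ [u'] = (A ++ x :: B') ++ [b] := by rw [hAB]; simp
  obtain ⟨h1, h2⟩ := List.append_inj' hAB' rfl
  have hub : u' = b := by simpa using h2
  subst hub
  obtain ⟨H, hH, -, hHR, hHl⟩ := half hR hxR
  obtain ⟨H', hH', -, hHR', hHl'⟩ := half hR' hu'
  have hxR' : x ∉ R' := fun h => dj hxR h
  have hB'P : ∀ y ∈ B', y ∈ P := by
    intro y hy
    rw [h1]
    simp [hy]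
  have hmid : PL G ((x :: B') ++ [u']) := by
    have : PL G (A ++ x :: (B' ++ [u'])) := by rw [← hAB]; exact hP
    exact K2_suffix this
  have hj1 : PL G ((x :: B') ++ u' :: H') := by
    refine K2_join hmid hH' ?_
    intro y hy hy'
    have hyR' := hHR' y hy'
    rcases List.mem_cons.1 hy with h | h
    · exact hxR' (h ▸ hyR')
    · exact hPR' y (hB'P y h) hyR'
  have hj1' : PL G (x :: (B' ++ u' :: H')) := hj1
  have hrevH : PL G (H.reverse ++ [x]) := by
    have := K2_rev hH
    rwa [List.reverse_cons] at this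
  have hj2 : PL G (H.reverse ++ x :: (B' ++ u' :: H')) := by
    refine K2_join hrevH hj1' ?_
    intro y hy hy'
    have hyR : y ∈ R := hHR y (List.mem_reverse.1 hy)
    rcases List.mem_append.1 hy' with h | h
    · exact hB y (by simp [h]) hyR
    · rcases List.mem_cons.1 h with h | h
      · exact hu'R (h ▸ hyR)
      · exact dj hyR (hHR' y h)
  have hout : Out c (H.reverse ++ x :: (B' ++ u' :: H')) := by
    intro y hy
    rcases List.mem_append.1 hy with h | h
    · exact ho y (hHR y (List.mem_reverse.1 h))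
    · rcases List.mem_cons.1 h with h | h
      · exact h ▸ ho x hxR
      · rcases List.mem_append.1 h with h | h
        · exact (hPo y (List.mem_append.2 (Or.inl (hB'P y h)))).1
        · rcases List.mem_cons.1 h with h | h
          · exact h ▸ ho' u' hu'
          · exact ho' y (hHR' y h)
  have hlen := pc _ hj2 hout
  simp only [List.length_append, List.length_reverse, List.length_cons] at hlen
  omega

/-- **(H)** -/
theorem link {G : SimpleGraph V} {c : ℕ → V} {R : List V} (hR : PL G R) (ho : Out c R) {x y v : V} (hyv : G.Adj y v)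
    (hv : v ∈ Kp G c R) (hx : x ∈ AA G c R) :
    ∃ T : List V, Lk G y T x ∧ (∀ z ∈ T, z ∈ Kp G c R) ∧ R.length + 1 ≤ 2 * T.length := by
  have hvo := Kp_out ho hv
  obtain ⟨u, hu, huv⟩ := id hv
  obtain ⟨P, u', hP, hhead, hu', hPR, hPo⟩ := conn_min (S := {x | x ∈ R}) huv.symm hu hvo
  obtain ⟨H, hH, hlast, hHR, hHl⟩ := half hR hu'
  refine ⟨P ++ u' :: H, ?_, ?_, ?_⟩
  · rw [Lk_iff]
    refine ⟨K2_join hP hH ?_, ?_, ?_⟩
    · intro z hz hz'
      exact hPR z hz (hHR z hz')
    · intro z hz
      have h1 : (P ++ u' :: H).head? = (P ++ [u']).head? := by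
        cases P <;> simp
      rw [h1, hhead] at hz
      have : v = z := by simpa using hz
      exact this ▸ hyv
    · intro z hz
      have h1 : (P ++ u' :: H).getLast? = (u' :: H).getLast? := by
        rw [List.getLast?_append]
        cases h : (u' :: H).getLast? with
        | none => simp at h
        | some w => rfl
      rw [h1] at hz
      rcases hlast with h | h
      · rw [h] at hz
        exact (hx.2.1 z hz).symm
      · rw [h] at hz
        exact (hx.2.2 z hz).symm
  · intro z hz
    rcases List.mem_append.1 hz with h | h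
    · exact Kp_mono hv (hPo z (List.mem_append.2 (Or.inl h))).2
    · rcases List.mem_cons.1 h with h | h
      · exact ⟨u', hu', h ▸ SimpleGraph.Reachable.refl _⟩
      · exact ⟨z, hHR z h, SimpleGraph.Reachable.refl _⟩
  · simp only [List.length_append, List.length_cons]
    omega

end LC.Sm
end
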