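import Pool.Agent.Lib.MP_6bc8af_co.Mg.G032
import Pool.Agent.Lib.MP_6bc8af_co.Mg.G034
import Pool.Agent.Lib.MP_6bc8af_co.Mg.G036

section

/-!
# TASK SM E2: almost all vertices of `W` are in `AA G c (sg d p i)`

PROOF of `Su.bad`. Let `A = AA G c (sg d p i)`, `R = sg d p i` (`Su.seg`: a path outside `c` with `p` vertices). For `j ∈ FS d W p L`, `j ≠ i`: if neither `d j` nor `d (j + p + 1)` is in `LongV c A p`, then `d j ∈ A`: `claim3` with `T1 = R`, `T2 = sg d p j` (`sg_disjoint`), `l1 = AA_lk`.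
Let `P` be the set of the `j < L` with `d j ∈ W`; `W` is the image of `P`. So `W \ A` is contained in the union of the image of `P \ FS` (at most `|W| - |FS| ≤ sig p t` elements, `card_pos`, `Su.fs'`), of `{d i}`, of `LongV c A p`, and of the image under `j ↦ d j` of the set of the
`j ∈ FS` with `d (j + p + 1) ∈ LongV c A p`; the last set has at most `|LongV c A p|` elements, since `j ↦ d (j + p + 1)` is injective for `j < L` (`Cyc.eq_iff`). With `Su.long`: `|W \ A| ≤ sig p t + 1 + 2 (2 (p + 1) ^ 2 sig p t) ≤ mu p t` (`mu_bounds`).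
-/

namespace LC.Sm

universe u

variable {V : Type u}

theorem Su.bad [Finite V] {G : SimpleGraph V} {k t p L : ℕ} {c d : ℕ → V} {W : Set V} (h : Su G k t p L c d W) {i : ℕ}
    (hi : i ∈ FS d W p L) : (W \ AA G c (sg d p i)).ncard ≤ mu p t := by
  classical
  obtain ⟨hR, hoR, hlR, hLkR, hdiW, hdi'W, hne⟩ := h.seg hi
  have hAsub : AA G c (sg d p i) ⊆ Set.range c := fun x hx => hx.1
  have hAne := h.aa_ne hR hoR hlR
  have hLV := h.long hR hoR hlR
  generalize hAdef : AA G c (sg d p i) = A at hAsub hAne hLV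
  have hcl : ∀ j ∈ FS d W p L, j ≠ i → d j ∉ LongV c A p → d (j + p + 1) ∉ LongV c A p → d j ∈ A := by
    intro j hj hji h1 h2
    obtain ⟨hP, hoP, hlP, hLk, hjW, hj'W, hjne⟩ := h.seg hj
    have hy : d j ∈ Set.range c := by
      rw [h.hW] at hjW
      exact hjW.1
    have hz : d (j + p + 1) ∈ Set.range c := by
      rw [h.hW] at hj'W
      exact hj'W.1
    refine claim3 h.hc h.mx hAsub hAne (T1 := sg d p i) (T2 := sg d p j) ?_ hoR hlR hy hz hjne hLk hoP hlP
      (sg_disjoint h.hd hi hj (Ne.symm hji)) h1 h2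
    intro x hx x' hx'
    rw [← hAdef] at hx hx'
    exact AA_lk hR hx hx'
  have hfs : ∀ j, j ∈ FS d W p L ↔ j < L ∧ Gap d W j (p + 1) := by
    intro j
    unfold FS
    rw [Finset.mem_filter, Finset.mem_range]
  let P : Set ℕ := {n | n < L ∧ d n ∈ W}
  have hPfin : P.Finite := (Set.finite_Iio L).subset fun n hn => hn.1
  have hFSP : (↑(FS d W p L) : Set ℕ) ⊆ P := by
    intro j hj
    have hj2 := (hfs j).1 (Finset.mem_coe.1 hj)
    exact ⟨hj2.1, hj2.2.1⟩
  have hinj : ∀ m, Set.InjOn (fun n => d (n + m)) {n | n < L} := by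
    intro m a ha b hb hab
    have h1 := (h.hd.eq_iff _ _).1 hab
    have h2 : a + m ≡ b + m [MOD L] := h1
    have h3 : a ≡ b [MOD L] := Nat.ModEq.add_right_cancel' m h2
    exact Nat.ModEq.eq_of_lt_of_lt h3 ha hb
  have hinj0 : Set.InjOn d {n | n < L} := fun a ha b hb hab => h.hd.inj a ha b hb hab
  have hWP : W = d '' P := by
    ext w
    constructor
    · intro hw
      have hwd : w ∈ Set.range d := by
        rw [h.hW] at hw
        exact hw.2
      obtain ⟨n, _, h2, h3⟩ := h.hd.exists_lt hwd 0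
      refine ⟨n, ⟨by omega, ?_⟩, h3⟩
      rw [h3]
      exact hw
    · rintro ⟨n, hn, rfl⟩
      exact hn.2
  have hPcard : P.ncard = W.ncard := by
    conv_rhs => rw [hWP]
    rw [Set.InjOn.ncard_image (hinj0.mono fun n hn => hn.1)]
  have hfs' := h.fs'
  have h1 : (P \ ↑(FS d W p L)).ncard ≤ sig p t := by
    rw [Set.ncard_sdiff hFSP (Finset.finite_toSet _), Set.ncard_coe_finset, hPcard]
    omega
  let Q : Set ℕ := {j | j ∈ FS d W p L ∧ d (j + p + 1) ∈ LongV c A p}
  have hQfin : Q.Finite := (Finset.finite_toSet (FS d W p L)).subset fun j hj => Finset.mem_coe.2 hj.1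
  have h2 : Q.ncard ≤ (LongV c A p).ncard := by
    refine Set.ncard_le_ncard_of_injOn (fun j => d (j + (p + 1))) (fun j hj => hj.2) ?_ (Set.toFinite _)
    exact (hinj (p + 1)).mono fun j hj => ((hfs j).1 hj.1).1
  have hsub : W \ A ⊆ ((d '' (P \ ↑(FS d W p L)) ∪ {d i}) ∪ LongV c A p) ∪ d '' Q := by
    rintro w ⟨hw, hwA⟩
    rw [hWP] at hw
    obtain ⟨n, hn, rfl⟩ := hw
    by_cases hnF : n ∈ FS d W p L
    · by_cases hni : n = i
      · exact Or.inl (Or.inl (Or.inr (by rw [hni]; rfl)))
      · by_cases hl1 : d n ∈ LongV c A p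
        · exact Or.inl (Or.inr hl1)
        · by_cases hl2 : d (n + p + 1) ∈ LongV c A p
          · exact Or.inr ⟨n, ⟨hnF, hl2⟩, rfl⟩
          · exact absurd (hcl n hnF hni hl1 hl2) hwA
    · exact Or.inl (Or.inl (Or.inl ⟨n, ⟨hn, fun hc => hnF (Finset.mem_coe.1 hc)⟩, rfl⟩))
  have h3 := Set.ncard_le_ncard hsub (Set.toFinite _)
  have h4 := Set.ncard_union_le ((d '' (P \ ↑(FS d W p L)) ∪ {d i}) ∪ LongV c A p) (d '' Q)
  have h5 := Set.ncard_union_le (d '' (P \ ↑(FS d W p L)) ∪ {d i}) (LongV c A p)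
  have h6 := Set.ncard_union_le (d '' (P \ ↑(FS d W p L))) {d i}
  rw [Set.ncard_singleton] at h6
  have h7 : (d '' (P \ ↑(FS d W p L))).ncard ≤ (P \ ↑(FS d W p L)).ncard :=
    Set.ncard_image_le (hPfin.subset Set.sdiff_subset)
  have h8 : (d '' Q).ncard ≤ Q.ncard := Set.ncard_image_le hQfin
  have h9 := (mu_bounds h.p1 t).1
  omega

end LC.Sm
end

section

/-!
# TASK SM K3: most full segments are in `I1`

`K i := Kp G c (sg d p i)` (`i ∈ FS d W p L`); for `i ≠ j` in `FS` the sets `K i`, `K j` are disjoint (`Su.kd`).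

PROOF.
`Su.kd`: `kp_disj` with `sg_disjoint`, `Su.seg`.
`run_conn`: if `d n, ..., d (n + m)` are not in `W`, then `d n` and `d (n + m)` are connected in `Dl G (Set.range c)` (induction on `m`; vertices of `d` outside `W` are outside `c`).
`Su.i1`. Let `P` be the set of the positions `i < L` with `d i ∈ W`; `P.card = W.ncard` (`card_pos`), `FS ⊆ P`, so `(P \ FS).card = W.ncard - FS.card ≤ sig p t` (`Su.fs'`). It is enough to give an injective map from `FS \ I1` to `P \ FS`.
Let `i ∈ FS \ I1`: there is `n` with `d n ∈ K i`, `d n ∉ sg d p i`. `d n` is not on `c` (`Kp_out`), so not in `W`. By `gap_at` there is a gap `(a, g)` of `W` on `d` with `a < n + L < a + g` (`a ≠ n + L`, as `d a ∈ W`). The map is `i ↦ a % L`. (`gap_shift`: `Gap d W (a % L) g`.)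
It is not in `FS`: otherwise (`gap_uniq`) `g = p + 1` and `d n = d (n + L) ∈ sg d p (a % L) =: R'`, so `d n` is in `K (a % L)` and in `K i`, so `a % L = i` (`Su.kd`) and `d n ∈ sg d p i`, a contradiction.
Injective: if `i, i'` have the same image `b`, then the vertices `d n`, `d n'` are both of the form `d (b + j)`, `d (b + j')` with `1 ≤ j, j' < g` (same `g` by `gap_uniq`), all `d (b + 1), ..., d (b + g - 1)` are outside `W`, so by `run_conn` they are connected,
`d n' ∈ K i` (`Kp_mono`), so `K i` and `K i'` meet and `i = i'` (`Su.kd`). (Instead of a map one can use the set `{b | ∃ n ...}` and `Finset.card_le_card_of_forall_subsingleton` or choice.)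
-/

namespace LC.Sm

universe u

variable {V : Type u}

theorem Su.kd [Finite V] {G : SimpleGraph V} {k t p L : ℕ} {c d : ℕ → V} {W : Set V} (h : Su G k t p L c d W) {i j : ℕ}
    (hi : i ∈ FS d W p L) (hj : j ∈ FS d W p L) (hij : i ≠ j) :
    Disjoint (Kp G c (sg d p i)) (Kp G c (sg d p j)) := by
  obtain ⟨a1, a2, a3, -⟩ := h.seg hi
  obtain ⟨b1, b2, b3, -⟩ := h.seg hj
  exact kp_disj h.pc a1 a2 a3 b1 b2 b3 (sg_disjoint h.hd hi hj hij)

theorem Su.run_conn {G : SimpleGraph V} {k t p L : ℕ} {c d : ℕ → V} {W : Set V} (h : Su G k t p L c d W) (n m : ℕ)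
    (hm : ∀ j ≤ m, d (n + j) ∉ W) : (Dl G (Set.range c)).Reachable (d n) (d (n + m)) := by
  have hout : ∀ i, d i ∉ W → d i ∉ Set.range c := by
    intro i hi hc
    apply hi
    rw [h.hW]
    exact ⟨hc, i, rfl⟩
  induction m with
  | zero => exact SimpleGraph.Reachable.refl _
  | succ m ih =>
    have h1 := ih (fun j hj => hm j (by omega))
    refine h1.trans ?_
    have h2 : (Dl G (Set.range c)).Adj (d (n + m)) (d (n + (m + 1))) :=
      ⟨h.hd.adj (n + m), hout _ (hm m (by omega)), hout _ (hm (m + 1) le_rfl)⟩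
    exact h2.reachable

theorem Su.i1 [Finite V] {G : SimpleGraph V} {k t p L : ℕ} {c d : ℕ → V} {W : Set V} (h : Su G k t p L c d W) :
    (FS d W p L).card ≤ (I1 G c d W p L).card + sig p t := by
  classical
  have hWd : W ⊆ Set.range d := by
    rw [h.hW]
    exact Set.inter_subset_right
  have hcardP := card_pos h.hd hWd
  set P := (Finset.range L).filter (fun i => d i ∈ W) with hP
  have hFSP : FS d W p L ⊆ P := by
    intro i hi
    unfold FS at hi
    rw [Finset.mem_filter] at hi
    rw [hP, Finset.mem_filter]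
    exact ⟨hi.1, hi.2.1⟩
  have hI1 : I1 G c d W p L ⊆ FS d W p L := Finset.filter_subset _ _
  have hmain : (FS d W p L \ I1 G c d W p L).card ≤ (P \ FS d W p L).card := by
    refine Finset.card_le_card_of_forall_subsingleton
      (fun i b => ∃ g j, Gap d W b g ∧ 1 ≤ j ∧ j < g ∧ d (b + j) ∈ Kp G c (sg d p i)) ?_ ?_
    · intro i hi
      rw [Finset.mem_sdiff] at hi
      obtain ⟨hi, hni⟩ := hi
      have hex : ∃ n, d n ∈ Kp G c (sg d p i) ∧ d n ∉ sg d p i := by
        by_contra hcon
        push Not at hcon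
        apply hni
        unfold I1
        rw [Finset.mem_filter]
        exact ⟨hi, hcon⟩
      obtain ⟨n, hnK, hnsg⟩ := hex
      have hnc : d n ∉ Set.range c := Kp_out (h.seg hi).2.1 hnK
      have hnW : d n ∉ W := by
        rw [h.hW]
        exact fun hh => hnc hh.1
      have hiW : d i ∈ W := (h.seg hi).2.2.2.2.1
      obtain ⟨a, g, hg, ha1, ha2, ha3⟩ := gap_at h.hd ⟨i, hiW⟩ n
      have hne : a ≠ n + L := by
        intro he
        apply hnW
        rw [← h.hd.per n, ← he]
        exact hg.1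
      have hL := h.hd.pos
      have hbj : d (a % L + (n + L - a)) = d n := by
        have h1 : d (a % L + (n + L - a)) = d (a + (n + L - a)) := by
          rw [h.hd.eq_iff, Nat.mod_add_mod]
        rw [h1, show a + (n + L - a) = n + L by omega, h.hd.per]
      have hgb : Gap d W (a % L) g := gap_shift h.hd (h.hd.mod a).symm hg
      refine ⟨a % L, ?_, g, n + L - a, hgb, by omega, by omega, by rw [hbj]; exact hnK⟩
      rw [Finset.mem_sdiff]
      refine ⟨?_, ?_⟩
      · rw [hP, Finset.mem_filter, Finset.mem_range]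
        exact ⟨Nat.mod_lt _ hL, hgb.1⟩
      · intro hfs
        have hfs' := hfs
        unfold FS at hfs'
        rw [Finset.mem_filter] at hfs'
        have hgp : g = p + 1 := gap_uniq hgb hfs'.2
        have hmem : d n ∈ sg d p (a % L) := by
          unfold sg
          rw [mem_arc]
          refine ⟨n + L - a - 1, by omega, ?_⟩
          rw [show a % L + 1 + (n + L - a - 1) = a % L + (n + L - a) by omega]
          exact hbj
        have hK' : d n ∈ Kp G c (sg d p (a % L)) := ⟨d n, hmem, SimpleGraph.Reachable.refl _⟩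
        by_cases hai : a % L = i
        · rw [hai] at hmem
          exact hnsg hmem
        · exact Set.disjoint_left.1 (h.kd hfs hi hai) hK' hnK
    · intro b _ i hi i' hi'
      simp only [Set.mem_ofPred_eq, Finset.mem_sdiff] at hi hi'
      obtain ⟨⟨hiF, -⟩, g, j, hg, hj1, hjg, hjK⟩ := hi
      obtain ⟨⟨hiF', -⟩, g', j', hg', hj1', hjg', hjK'⟩ := hi'
      have hgg : g = g' := gap_uniq hg hg'
      subst hgg
      by_contra hne
      have hdj := h.kd hiF hiF' hne
      rcases le_total j j' with hjj | hjj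
      · have hr := h.run_conn (b + j) (j' - j) (fun m hm => by
          rw [Nat.add_assoc]
          exact hg.2.2.2 (j + m) (by omega) (by omega))
        rw [show b + j + (j' - j) = b + j' by omega] at hr
        exact Set.disjoint_left.1 hdj (Kp_mono hjK hr) hjK'
      · have hr := h.run_conn (b + j') (j - j') (fun m hm => by
          rw [Nat.add_assoc]
          exact hg.2.2.2 (j' + m) (by omega) (by omega))
        rw [show b + j' + (j - j') = b + j by omega] at hr
        exact Set.disjoint_left.1 hdj hjK (Kp_mono hjK' hr)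
  have h1 := Finset.card_sdiff_add_card_eq_card hFSP
  have h2 := Finset.card_sdiff_add_card_eq_card hI1
  have h3 := h.fs'
  omega

end LC.Sm
end

section

/-!
# TASK SM E4: the vertices attached to a component are near a vertex outside `AA`

PROOF. Let `R = sg d p j`, `A1 = AA G c R`, `Ai = AA G c (sg d p i)`; `Gap c W a g`, `y = c (a + b)`, `0 < b < g`; suppose `c a ∈ A1` and `c (a + g) ∈ A1`. `g ≤ p + 1` (`Su.gapd` for `h.swap`). By `choose_gap` (`m = mu p t`; `Su.bad`; `2 mu + 4 ≤ |W|` by `Su.fs`, `Su.big'`, `mu_bounds`: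
`|W| ≥ |FS| ≥ k - sig`; `FS.card ≤ W.ncard` as in W1, or `Su.up` with `Su.low`) there is a gap `(n, e)` of `W`, `a + g < n`, `n + e < a + L`, `c n ∈ A1`, `c (n + e) ∈ Ai`; `e ≤ p + 1`. By `link` there is a link `T` from `y` to `c (n + e)` in `Kp G c (sg d p i)`, so outside `c` (`Kp_out`) and disjoint
from `R ⊆ Kp G c R` (`Su.kd`), `p + 1 ≤ 2 * T.length`. `crossing` for `c a, c (a + b), c n, c (n + e)` with the links `R` (`AA_lk`) and `T`: `p + T.length + 2 ≤ b + e ≤ b + p + 1`, so `T.length + 1 ≤ b`.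
In the same way there is a gap `(n, e)` with `a + g < n`, `n + e < a + L`, `c n ∈ Ai`, `c (n + e) ∈ A1`, a link `T'` from `y` to `c n`; `crossing` for `c (a + b), c (a + g), c n, c (n + e)` with the links `T'` and `R`: `T'.length + p + 2 ≤ (g - b) + e`, so `T'.length + 1 ≤ g - b`.
Sum: `g ≥ T.length + T'.length + 2 ≥ p + 1 + 2`, a contradiction.
-/

namespace LC.Sm

universe u

variable {V : Type u}

theorem Su.w_big [Finite V] {G : SimpleGraph V} {k t p L : ℕ} {c d : ℕ → V} {W : Set V} (h : Su G k t p L c d W) :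
    2 * mu p t + 4 ≤ W.ncard := by
  have h1 := h.up
  have h2 := h.low
  have h3 := h.big'
  have h4 := (mu_bounds h.p1 t).2
  have h5 := (sig_bounds h.p1 t).2.1
  have h6 : k ≤ W.ncard + p ^ 2 := by
    have h7 : (p + 1) * k ≤ (p + 1) * (W.ncard + p ^ 2) := by
      rw [Nat.mul_add]
      omega
    exact Nat.le_of_mul_le_mul_left h7 (by omega)
  have h8 : p ^ 2 ≤ sig p t := by
    refine le_trans ?_ h5
    nlinarith [Nat.zero_le p, Nat.zero_le t, Nat.zero_le (p ^ 2)]
  generalize 30 * (p + 1) ^ 3 * sig p t = X at h3 h4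
  generalize 2 * mu p t * p = Y at h4
  generalize p ^ 2 = Z at h6 h8
  omega

private theorem E4_sub {G : SimpleGraph V} {c : ℕ → V} {R : List V} {v : V} (hv : v ∈ R) : v ∈ Kp G c R :=
  ⟨v, hv, SimpleGraph.Reachable.refl _⟩

theorem Su.claim4 [Finite V] {G : SimpleGraph V} {k t p L : ℕ} {c d : ℕ → V} {W : Set V} (h : Su G k t p L c d W) {i j : ℕ}
    (hi : i ∈ FS d W p L) (hj : j ∈ FS d W p L) (hij : i ≠ j) {a g b : ℕ} (hg : Gap c W a g) (hb : 0 < b) (hb' : b < g)
    {v : V} (hv : v ∈ Kp G c (sg d p i)) (hyv : G.Adj (c (a + b)) v) :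
    c a ∉ AA G c (sg d p j) ∨ c (a + g) ∉ AA G c (sg d p j) := by
  by_contra hcon
  push Not at hcon
  obtain ⟨ha1, ha2⟩ := hcon
  have hWc : W ⊆ Set.range c := by
    rw [h.hW]
    exact Set.inter_subset_left
  obtain ⟨pi, oi, li, -, -, -, -⟩ := h.seg hi
  obtain ⟨pj, oj, lj, -, -, -, -⟩ := h.seg hj
  have hgp := h.swap.gapd hg
  have hkd := h.kd hi hj hij
  have hdis : ∀ T : List V, (∀ z ∈ T, z ∈ Kp G c (sg d p i)) → (sg d p j).Disjoint T := by
    intro T hT x hx hx'
    exact Set.disjoint_left.1 hkd (hT x hx') (E4_sub hx)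
  have hout : ∀ T : List V, (∀ z ∈ T, z ∈ Kp G c (sg d p i)) → Out c T := fun T hT z hz => Kp_out oi (hT z hz)
  -- first gap
  obtain ⟨n, e, hn, hnA, hnB, hn1, hn2⟩ := choose_gap h.hc hWc (h.bad hj) (h.bad hi) h.w_big hg
  have hep := h.swap.gapd hn
  obtain ⟨T, lT, kT, sT⟩ := link pi oi hyv hv hnB
  have he1 := hn.2.1
  have x1 := crossing h.hc h.mx (i := a) (a := b) (b := n - a - b) (e := e) (by omega) (by omega) he1 (by omega)
    (T1 := sg d p j) (T2 := T)
    (by
      have h5 : a + b + (n - a - b) = n := by omega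
      rw [h5]
      exact AA_lk pj ha1 hnA)
    (by
      have h5 : a + b + (n - a - b) + e = n + e := by omega
      rw [h5]
      exact lT) oj (hout T kT) (hdis T kT)
  -- second gap
  obtain ⟨n', e', hn', hnA', hnB', hn1', hn2'⟩ := choose_gap h.hc hWc (h.bad hi) (h.bad hj) h.w_big hg
  have hep' := h.swap.gapd hn'
  obtain ⟨T', lT', kT', sT'⟩ := link pi oi hyv hv hnA'
  have he1' := hn'.2.1
  have x2 := crossing h.hc h.mx (i := a + b) (a := g - b) (b := n' - a - g) (e := e') (by omega) (by omega) he1'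
    (by omega) (T1 := T') (T2 := sg d p j)
    (by
      have h5 : a + b + (g - b) + (n' - a - g) = n' := by omega
      rw [h5]
      exact lT')
    (by
      have h5 : a + b + (g - b) + (n' - a - g) + e' = n' + e' := by omega
      have h6 : a + b + (g - b) = a + g := by omega
      rw [h5, h6]
      exact AA_lk pj ha2 hnB') (hout T' kT') oj (hdis T' kT').symm
  omega

end LC.Sm
end
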