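import Pool.Agent.Lib.MP_6bc8af_co.Mg.G035
import Pool.Agent.Lib.MP_6bc8af_co.Sm.E5
import Pool.Agent.Lib.MP_6bc8af_co.Mg.G031
import Pool.Agent.Lib.MP_6bc8af_co.Mg.G009
import Pool.Agent.Lib.MP_6bc8af_co.K02

section

/-!
# MP_6bc8af_co, campaign SM, E6: the contradiction
-/

namespace LC.Sm

universe u

variable {V : Type u}

/-- the positions of `FS` whose vertex at distance `m` is not in `A` -/
theorem fs_bad [Finite V] {G : SimpleGraph V} {L p m : ℕ} {d : ℕ → V} (hd : Cyc G L d) {W A : Set V}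
    {F : Finset ℕ} (hF : F ⊆ FS d W p L) (hm : ∀ i ∈ F, d (i + m) ∈ W \ A) : F.card ≤ (W \ A).ncard := by
  classical
  have h1 : ((F.image fun i => d (i + m) : Finset V) : Set V) ⊆ W \ A := by
    intro v hv
    rw [Finset.mem_coe, Finset.mem_image] at hv
    obtain ⟨i, hi, rfl⟩ := hv
    exact hm i hi
  have h2 : (F.image fun i => d (i + m)).card = F.card := by
    apply Finset.card_image_of_injOn
    intro i hi j hj hij
    have hi' := Finset.mem_range.1 (Finset.mem_filter.1 (hF hi)).1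
    have hj' := Finset.mem_range.1 (Finset.mem_filter.1 (hF hj)).1
    by_contra hne
    simp only at hij
    rcases Nat.lt_or_gt_of_ne hne with h | h
    · exact hd.ne_of_lt (i := i + m) (j := j + m) (by omega) (by omega) hij
    · exact hd.ne_of_lt (i := j + m) (j := i + m) (by omega) (by omega) hij.symm
  rw [← h2, ← Set.ncard_coe_finset]
  exact Set.ncard_le_ncard h1 (Set.toFinite _)

/-- The vertex `y` attached to the component of the full segment number `i` is in `BB`. -/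
theorem Su.in_bb [Finite V] {G : SimpleGraph V} {k t p L : ℕ} {c d : ℕ → V} {W : Set V} (h : Su G k t p L c d W) {i j : ℕ}
    (hi : i ∈ FS d W p L) (hj : j ∈ FS d W p L) (hij : i ≠ j) {y v : V} (hy : y ∈ Set.range c) (hyW : y ∉ W)
    (hv : v ∈ Kp G c (sg d p i)) (hyv : G.Adj y v) : y ∈ BB c W (AA G c (sg d p j)) := by
  obtain ⟨n, rfl⟩ := hy
  obtain ⟨w, hw⟩ := h.wne
  obtain ⟨m, hm⟩ : w ∈ Set.range c := by
    rw [h.hW] at hw
    exact hw.1
  obtain ⟨a, g, hg, h1, h2, h3⟩ := gap_at h.hc (A := W) ⟨m, by rw [hm]; exact hw⟩ n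
  have h4 : c (n + L) = c n := h.hc.per n
  have h5 : a ≠ n + L := by
    intro h5
    rw [h5] at hg
    apply hyW
    rw [← h4]
    exact hg.1
  have h6 : c (a + (n + L - a)) = c n := by
    rw [show a + (n + L - a) = n + L by omega, h4]
  refine ⟨a, g, n + L - a, hg, by omega, by omega, h6.symm, ?_⟩
  exact h.claim4 (b := n + L - a) hi hj hij hg (by omega) (by omega) hv (by rw [h6]; exact hyv)

/-- Two different elements of `I1` with the same attached vertex, whose ends are adjacent to the ends of three given full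
segments of `c`. -/
theorem Su.pigeon [Finite V] {G : SimpleGraph V} {k t p L : ℕ} {c d : ℕ → V} {W : Set V} (h : Su G k t p L c d W)
    {A : ℕ → Set V} (hA : ∀ r < 3, (W \ A r).ncard ≤ mu p t) :
    ∃ i ∈ I1 G c d W p L, ∃ j ∈ I1 G c d W p L, i ≠ j ∧ (∀ r < 3, d i ∈ A r ∧ d (i + p + 1) ∈ A r) ∧
      (∀ r < 3, d j ∈ A r ∧ d (j + p + 1) ∈ A r) ∧ ∃ y v v', y ∈ Set.range c ∧ y ∉ W ∧
        v ∈ Kp G c (sg d p i) ∧ G.Adj y v ∧ v' ∈ Kp G c (sg d p j) ∧ G.Adj y v' := by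
  classical
  have hb := h.big'
  obtain ⟨_, hmu⟩ := mu_bounds h.p1 t
  obtain ⟨hs, _⟩ := sig_bounds h.p1 t
  have hfs := h.fs
  have hi1 := h.i1
  have hsub : I1 G c d W p L ⊆ FS d W p L := Finset.filter_subset _ _
  have hne : (I1 G c d W p L).Nonempty := by
    rw [← Finset.card_pos]
    omega
  obtain ⟨j1, hj1⟩ := hne
  have hat : ∀ i ∈ I1 G c d W p L, ∃ y v, y ∈ Set.range c ∧ y ∉ W ∧ v ∈ Kp G c (sg d p i) ∧ G.Adj y v := by
    intro i hi
    obtain ⟨h1, h2, _⟩ := h.seg (hsub hi)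
    exact h.attach h1.1 h2
  have hVne : Nonempty V := ⟨c 0⟩
  choose! y v hy using hat
  obtain ⟨B, hB⟩ : ∃ B : ℕ → ℕ → Finset ℕ, B = fun r m => (FS d W p L).filter fun i => d (i + m) ∈ W \ A r := ⟨_, rfl⟩
  have hBc : ∀ r < 3, ∀ m, (B r m).card ≤ mu p t := by
    intro r hr m
    refine le_trans (fs_bad h.hd (W := W) (A := A r) (F := B r m) (p := p) (m := m) ?_ ?_) (hA r hr)
    · rw [hB]
      exact Finset.filter_subset _ _
    · intro i hi
      rw [hB] at hi
      exact (Finset.mem_filter.1 hi).2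
  obtain ⟨I2, hI2⟩ : ∃ I2 : Finset ℕ, I2 = (I1 G c d W p L) \ ({j1} ∪ (B 0 0 ∪ B 0 (p + 1)) ∪ ((B 1 0 ∪ B 1 (p + 1)) ∪ (B 2 0 ∪ B 2 (p + 1)))) := ⟨_, rfl⟩
  have hI2c : (I1 G c d W p L).card ≤ I2.card + (1 + 6 * mu p t) := by
    have h1 := Finset.le_card_sdiff ({j1} ∪ (B 0 0 ∪ B 0 (p + 1)) ∪ ((B 1 0 ∪ B 1 (p + 1)) ∪ (B 2 0 ∪ B 2 (p + 1)))) (I1 G c d W p L)
    rw [← hI2] at h1
    have h2 : ({j1} ∪ (B 0 0 ∪ B 0 (p + 1)) ∪ ((B 1 0 ∪ B 1 (p + 1)) ∪ (B 2 0 ∪ B 2 (p + 1)))).card ≤ 1 + 6 * mu p t := by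
      have e1 := Finset.card_union_le ({j1} ∪ (B 0 0 ∪ B 0 (p + 1))) ((B 1 0 ∪ B 1 (p + 1)) ∪ (B 2 0 ∪ B 2 (p + 1)))
      have e2 := Finset.card_union_le {j1} (B 0 0 ∪ B 0 (p + 1))
      have e3 := Finset.card_union_le (B 0 0) (B 0 (p + 1))
      have e4 := Finset.card_union_le (B 1 0 ∪ B 1 (p + 1)) (B 2 0 ∪ B 2 (p + 1))
      have e5 := Finset.card_union_le (B 1 0) (B 1 (p + 1))
      have e6 := Finset.card_union_le (B 2 0) (B 2 (p + 1))
      have e7 := hBc 0 (by omega) 0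
      have e8 := hBc 0 (by omega) (p + 1)
      have e9 := hBc 1 (by omega) 0
      have e10 := hBc 1 (by omega) (p + 1)
      have e11 := hBc 2 (by omega) 0
      have e12 := hBc 2 (by omega) (p + 1)
      rw [Finset.card_singleton] at e2
      omega
    omega
  have hBB := bb_card (W := W) (A := AA G c (sg d p j1)) h.hc (p := p) (fun i g hg => h.swap.gapd hg) (by have := h.p_lt; omega)
  have hbad := h.bad (hsub hj1)
  have hBB' : (BB c W (AA G c (sg d p j1))).ncard ≤ 2 * mu p t * p := by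
    refine hBB.trans ?_
    exact Nat.mul_le_mul_right _ (Nat.mul_le_mul_left _ hbad)
  have hmem : ∀ i ∈ I2, i ∈ I1 G c d W p L ∧ i ≠ j1 ∧ ∀ r < 3, d i ∈ A r ∧ d (i + p + 1) ∈ A r := by
    intro i hi
    rw [hI2, Finset.mem_sdiff] at hi
    obtain ⟨hi1, hi2⟩ := hi
    have hiF := hsub hi1
    obtain ⟨_, _, _, _, hw, hw', _⟩ := h.seg hiF
    simp only [Finset.mem_union, Finset.mem_singleton, not_or] at hi2
    obtain ⟨⟨hne, hi3, hi4⟩, ⟨hi5, hi6⟩, hi7, hi8⟩ := hi2
    refine ⟨hi1, hne, ?_⟩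
    have key : ∀ r m, i ∉ B r m → d (i + m) ∈ W → d (i + m) ∈ A r := by
      intro r m h1 h2
      by_contra h3
      apply h1
      rw [hB]
      exact Finset.mem_filter.2 ⟨hiF, h2, h3⟩
    intro r hr
    have h0 : r = 0 ∨ r = 1 ∨ r = 2 := by omega
    rcases h0 with rfl | rfl | rfl
    · exact ⟨key 0 0 hi3 hw, key 0 (p + 1) hi4 hw'⟩
    · exact ⟨key 1 0 hi5 hw, key 1 (p + 1) hi6 hw'⟩
    · exact ⟨key 2 0 hi7 hw, key 2 (p + 1) hi8 hw'⟩
  have hfin : (BB c W (AA G c (sg d p j1))).Finite := Set.toFinite _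
  obtain ⟨i, hi, j, hj, hij, hyy⟩ := Finset.exists_ne_map_eq_of_card_lt_of_maps_to (s := I2) (t := hfin.toFinset) (f := y) (by
      rw [← Set.ncard_eq_toFinset_card _ hfin]
      omega) (by
      intro i hi
      obtain ⟨h1, h2, _⟩ := hmem i hi
      obtain ⟨a1, a2, a3, a4⟩ := hy i h1
      rw [Set.Finite.coe_toFinset]
      exact h.in_bb (hsub h1) (hsub hj1) h2 a1 a2 a3 a4)
  obtain ⟨b1, b2, b3⟩ := hmem i hi
  obtain ⟨c1, c2, c3⟩ := hmem j hj
  obtain ⟨a1, a2, a3, a4⟩ := hy i b1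
  obtain ⟨a5, a6, a7, a8⟩ := hy j c1
  refine ⟨i, b1, j, c1, hij, b3, c3, y i, v i, v j, a1, a2, a3, a4, a7, ?_⟩
  rw [hyy]
  exact a8

/-- The choice of the third full segment. -/
theorem Su.choose_l [Finite V] {G : SimpleGraph V} {k t p L : ℕ} {c d : ℕ → V} {W : Set V} (h : Su G k t p L c d W)
    {A B : Set V} (hA : (W \ A).ncard ≤ mu p t) (hB : (W \ B).ncard ≤ mu p t) (i j : ℕ) :
    ∃ l ∈ FS d W p L, l ≠ i ∧ l ≠ j ∧ d l ∈ A ∧ d (l + p + 1) ∈ B := by
  classical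
  by_contra hcon
  push Not at hcon
  have hb := h.big'
  obtain ⟨_, hmu⟩ := mu_bounds h.p1 t
  obtain ⟨hs, _⟩ := sig_bounds h.p1 t
  have hfs := h.fs
  have h1 : (FS d W p L) ⊆ {i} ∪ {j} ∪ ((FS d W p L).filter (fun l => d (l + 0) ∈ W \ A) ∪
      (FS d W p L).filter (fun l => d (l + (p + 1)) ∈ W \ B)) := by
    intro l hl
    obtain ⟨_, _, _, _, hw, hw', _⟩ := h.seg hl
    simp only [Finset.mem_union, Finset.mem_singleton, Finset.mem_filter]
    by_cases e1 : l = i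
    · exact Or.inl (Or.inl e1)
    by_cases e2 : l = j
    · exact Or.inl (Or.inr e2)
    by_cases e3 : d l ∈ A
    · exact Or.inr (Or.inr ⟨hl, hw', hcon l hl e1 e2 e3⟩)
    · exact Or.inr (Or.inl ⟨hl, hw, e3⟩)
  have h2 := Finset.card_le_card h1
  have e1 := Finset.card_union_le ({i} ∪ {j}) ((FS d W p L).filter (fun l => d (l + 0) ∈ W \ A) ∪
      (FS d W p L).filter (fun l => d (l + (p + 1)) ∈ W \ B))
  have e2 := Finset.card_union_le {i} {j}
  have e3 := Finset.card_union_le ((FS d W p L).filter (fun l => d (l + 0) ∈ W \ A))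
    ((FS d W p L).filter (fun l => d (l + (p + 1)) ∈ W \ B))
  have e4 := (fs_bad h.hd (W := W) (A := A) (p := p) (m := 0) (F := (FS d W p L).filter (fun l => d (l + 0) ∈ W \ A))
    (Finset.filter_subset _ _) (fun i hi => (Finset.mem_filter.1 hi).2)).trans hA
  have e5 := (fs_bad h.hd (W := W) (A := B) (p := p) (m := p + 1) (F := (FS d W p L).filter (fun l => d (l + (p + 1)) ∈ W \ B))
    (Finset.filter_subset _ _) (fun i hi => (Finset.mem_filter.1 hi).2)).trans hB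
  rw [Finset.card_singleton, Finset.card_singleton] at e2
  omega

/-- The two links from `y` make one link through `y`. -/
theorem Lk_join {G : SimpleGraph V} {y a b : V} {T T' : List V} (h : Lk G y T a) (h' : Lk G y T' b)
    (hy : y ∉ T) (hy' : y ∉ T') (dj : T.Disjoint T') : Lk G a (T.reverse ++ y :: T') b := by
  obtain ⟨⟨h1, h2, h3⟩, h4, h5⟩ := Lk_iff.1 h.symm
  obtain ⟨⟨h6, h7, h8⟩, h9, h10⟩ := Lk_iff.1 h'
  rw [Lk_iff]
  refine ⟨⟨by simp, ?_, ?_⟩, ?_, ?_⟩
  · rw [List.nodup_append']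
    refine ⟨h2, List.nodup_cons.2 ⟨hy', h7⟩, ?_⟩
    intro x hx hx'
    rw [List.mem_reverse] at hx
    rcases List.mem_cons.1 hx' with rfl | hx'
    · exact hy hx
    · exact dj hx hx'
  · rw [List.isChain_append, List.isChain_cons]
    refine ⟨h3, ⟨fun x hx => h9 x hx, h8⟩, ?_⟩
    intro x hx z hz
    simp only [List.head?_cons, Option.mem_def, Option.some.injEq] at hz
    rw [← hz]
    exact h5 x hx
  · intro x hx
    apply h4
    rw [List.head?_append] at hx
    cases hT : T.reverse.head? with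
    | none => exact absurd (List.head?_eq_none_iff.1 hT) h1
    | some z =>
      rw [hT] at hx
      exact hx
  · intro x hx
    apply h10
    rw [List.getLast?_append, List.getLast?_cons] at hx
    cases hT : T'.getLast? with
    | none => exact absurd (List.getLast?_eq_none_iff.1 hT) h6
    | some z =>
      rw [hT] at hx
      exact hx

theorem Su.false [Finite V] {G : SimpleGraph V} {k t p L : ℕ} {c d : ℕ → V} {W : Set V} (h : Su G k t p L c d W) :
    False := by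
  classical
  have hb := h.big'
  obtain ⟨_, hmu⟩ := mu_bounds h.p1 t
  obtain ⟨hs, _⟩ := sig_bounds h.p1 t
  have hfs := h.swap.fs
  have hsub : I1 G c d W p L ⊆ FS d W p L := Finset.filter_subset _ _
  obtain ⟨m0, m1, m2, hm0, hm1, hm2, m01, m02, m12⟩ : ∃ a b e, a ∈ FS c W p L ∧ b ∈ FS c W p L ∧ e ∈ FS c W p L ∧
      a ≠ b ∧ a ≠ e ∧ b ≠ e := by
    have h3 : 2 < (FS c W p L).card := by omega
    obtain ⟨a, ha, b, hb, e, he, h4⟩ := Finset.two_lt_card.1 h3
    exact ⟨a, b, e, ha, hb, he, h4⟩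
  obtain ⟨M, hM⟩ : ∃ M : ℕ → ℕ, M = fun r => if r = 0 then m0 else if r = 1 then m1 else m2 := ⟨_, rfl⟩
  have hMF : ∀ r, M r ∈ FS c W p L := by
    intro r
    rw [hM]
    simp only
    split_ifs
    · exact hm0
    · exact hm1
    · exact hm2
  obtain ⟨i, hi, j, hj, hij, hiA, hjA, y, v, v', hy, hyW, hv, hyv, hv', hyv'⟩ :=
    h.pigeon (A := fun r => AA G d (sg c p (M r))) (fun r _ => h.swap.bad (hMF r))
  -- two of the three segments do not contain `y`
  obtain ⟨r, s, hr, hs3, hrs, hyr, hys⟩ : ∃ r s, r < 3 ∧ s < 3 ∧ M r ≠ M s ∧ y ∉ sg c p (M r) ∧ y ∉ sg c p (M s) := by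
    have d01 := sg_disjoint h.hc hm0 hm1 m01
    have d02 := sg_disjoint h.hc hm0 hm2 m02
    have d12 := sg_disjoint h.hc hm1 hm2 m12
    have e0 : M 0 = m0 := by rw [hM]; rfl
    have e1 : M 1 = m1 := by rw [hM]; rfl
    have e2 : M 2 = m2 := by rw [hM]; rfl
    by_cases y0 : y ∈ sg c p m0
    · refine ⟨1, 2, by omega, by omega, by rw [e1, e2]; exact m12, ?_, ?_⟩
      · rw [e1]
        exact fun h' => d01 y0 h'
      · rw [e2]
        exact fun h' => d02 y0 h'
    · by_cases y1 : y ∈ sg c p m1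
      · refine ⟨0, 2, by omega, by omega, by rw [e0, e2]; exact m02, by rw [e0]; exact y0, ?_⟩
        rw [e2]
        exact fun h' => d12 y1 h'
      · exact ⟨0, 1, by omega, by omega, by rw [e0, e1]; exact m01, by rw [e0]; exact y0, by rw [e1]; exact y1⟩
  obtain ⟨l, hl, hli, hlj, hlA, hlB⟩ := h.choose_l (h.bad (hsub hi)) (h.bad (hsub hj)) i j
  obtain ⟨pi, oi, li, _⟩ := h.seg (hsub hi)
  obtain ⟨pj, oj, lj, _⟩ := h.seg (hsub hj)
  obtain ⟨pr, or', lr, _⟩ := h.swap.seg (hMF r)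
  obtain ⟨ps, os, ls, _⟩ := h.swap.seg (hMF s)
  obtain ⟨T, hT, hTK, hTl⟩ := link pi oi hyv hv hlA
  obtain ⟨T', hT', hTK', hTl'⟩ := link pj oj hyv' hv' hlB
  have hTo : ∀ x ∈ T, x ∉ Set.range c := fun x hx => Kp_out oi (hTK x hx)
  have hTo' : ∀ x ∈ T', x ∉ Set.range c := fun x hx => Kp_out oj (hTK' x hx)
  have hTT : T.Disjoint T' := by
    intro x hx hx'
    exact Set.disjoint_left.1 (h.kd (hsub hi) (hsub hj) hij) (hTK x hx) (hTK' x hx')
  have hN := Lk_join hT hT' (fun h' => hTo y h' hy) (fun h' => hTo' y h' hy) hTT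
  have hyd : y ∉ Set.range d := by
    intro h'
    apply hyW
    rw [h.hW]
    exact ⟨hy, h'⟩
  have hc' : ∀ a x, x ∈ sg c p a → x ∈ Set.range c := by
    intro a x hx
    obtain ⟨n, _, hn⟩ := mem_arc.1 hx
    exact ⟨_, hn⟩
  have hNM : ∀ a, y ∉ sg c p a → (sg c p a).Disjoint (T.reverse ++ y :: T') := by
    intro a hya x hx hx'
    rw [List.mem_append, List.mem_reverse, List.mem_cons] at hx'
    rcases hx' with hx' | rfl | hx'
    · exact hTo x hx' (hc' _ x hx)
    · exact hya hx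
    · exact hTo' x hx' (hc' _ x hx)
  have hfinal := three_fs h.hd h.mx (hsub hi) (hsub hj) hl hij (Ne.symm hli) (Ne.symm hlj)
    (AA_lk pr (hiA r hr).1 (hiA r hr).2) (AA_lk ps (hjA s hs3).1 (hjA s hs3).2) hN
    (sg_disjoint h.hc (hMF r) (hMF s) hrs) (hNM _ hyr) (hNM _ hys) (by
      intro x hx hxd
      rcases hx with hx | hx | hx
      · exact absurd hxd (or' x hx)
      · exact absurd hxd (os x hx)
      · rw [List.mem_append, List.mem_reverse, List.mem_cons] at hx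
        obtain ⟨n, rfl⟩ := hxd
        rcases hx with hx | hx | hx
        · exact Or.inl ((Finset.mem_filter.1 hi).2 n (hTK _ hx))
        · exact absurd ⟨n, hx⟩ hyd
        · exact Or.inr (Or.inl ((Finset.mem_filter.1 hj).2 n (hTK' _ hx))))
  rw [lr, ls, List.length_append, List.length_reverse, List.length_cons] at hfinal
  rw [li] at hTl
  rw [lj] at hTl'
  omega

end LC.Sm
end

section

/-!
# TASK SM F2: the theorem for periodic sequences

PROOF of `core`. Suppose `W.ncard ≤ k + t`. Among the paths outside `c` (nonempty: the list of one vertex outside `c`) there is one of maximal length `pC` (`1 ≤ pC ≤ p`; `exists_max`), in the same way `pD`. As `pC, pD ≤ p` and `30 (p + 1) ^ 6 (t + 1) ≤ k`: `pC ^ 2 + 2 ≤ k`, `(pC + 1) * pC ^ 2 + pC * t < k` and the same for `pD`.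
`pC = pD`: suppose `pD < pC`. `W` is nonempty by `w_ne`. `lower` for `c`: `(pC + 1) k ≤ L + (pC + 1) pC ^ 2`. `up_gen` with `c` and `d` exchanged (`Set.inter_comm`): `L ≤ (pD + 1) W.ncard ≤ pC (k + t)`. So `k ≤ (pC + 1) pC ^ 2 + pC t`, a contradiction. `pC < pD`: the same with `c`, `d` exchanged.
So `Su G k t pC L c d W` holds (`big`: `pC ≤ p`), and `Su.false`.
-/

namespace LC.Sm

universe u

variable {V : Type u}

theorem exists_max {G : SimpleGraph V} {p : ℕ} {c : ℕ → V} (pc : ∀ l, PL G l → Out c l → l.length ≤ p)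
    (h : ∃ v, v ∉ Set.range c) : ∃ q, 1 ≤ q ∧ q ≤ p ∧ (∀ l, PL G l → Out c l → l.length ≤ q) ∧
      ∃ l, PL G l ∧ Out c l ∧ l.length = q := by
  obtain ⟨v, hv⟩ := h
  obtain ⟨S, hS⟩ : ∃ S : Set ℕ, S = {n | ∃ l, PL G l ∧ Out c l ∧ l.length = n} := ⟨_, rfl⟩
  have hb : BddAbove S := by
    refine ⟨p, ?_⟩
    intro n hn
    rw [hS] at hn
    obtain ⟨l, h1, h2, h3⟩ := hn
    rw [← h3]
    exact pc l h1 h2
  have h1 : 1 ∈ S := by
    rw [hS]
    refine ⟨[v], ⟨by simp, by simp, by simp⟩, ?_, by simp⟩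
    intro x hx
    rw [List.mem_singleton] at hx
    rw [hx]
    exact hv
  have hm : sSup S ∈ S := Nat.sSup_mem ⟨1, h1⟩ hb
  have hle : ∀ n ∈ S, n ≤ sSup S := fun n hn => le_csSup hb hn
  have hm' := hm
  rw [hS] at hm'
  obtain ⟨l, l1, l2, l3⟩ := hm'
  refine ⟨sSup S, hle 1 h1, ?_, ?_, ?_⟩
  · obtain ⟨q, hq⟩ := hb
    rw [hS] at hm
    obtain ⟨l', m1, m2, m3⟩ := hm
    rw [hS, ← m3]
    exact pc l' m1 m2
  · intro l' m1 m2
    apply hle
    rw [hS]
    exact ⟨l', m1, m2, rfl⟩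
  · refine ⟨l, l1, l2, ?_⟩
    rw [l3, hS]

theorem F2_num {k t p q : ℕ} (hq : q ≤ p) (big : 30 * (p + 1) ^ 6 * (t + 1) ≤ k) :
    q ^ 2 + 2 ≤ k ∧ (q + 1) * q ^ 2 + q * t < k := by
  have h1 : (q + 1) ^ 6 ≤ (p + 1) ^ 6 := Nat.pow_le_pow_left (by omega) 6
  have h2 : q ^ 2 ≤ (q + 1) ^ 6 :=
    (Nat.pow_le_pow_left (Nat.le_succ q) 2).trans (Nat.pow_le_pow_right (by omega) (by omega))
  have h3 : (q + 1) * q ^ 2 ≤ (q + 1) ^ 6 := by
    calc (q + 1) * q ^ 2 ≤ (q + 1) * (q + 1) ^ 2 :=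
          Nat.mul_le_mul_left _ (Nat.pow_le_pow_left (Nat.le_succ q) 2)
      _ = (q + 1) ^ 3 := by ring
      _ ≤ (q + 1) ^ 6 := Nat.pow_le_pow_right (by omega) (by omega)
  have h4 : q * t ≤ (q + 1) ^ 6 * t := by
    apply Nat.mul_le_mul_right
    calc q ≤ (q + 1) ^ 1 := by rw [pow_one]; omega
      _ ≤ (q + 1) ^ 6 := Nat.pow_le_pow_right (by omega) (by omega)
  have h5 : 1 ≤ (q + 1) ^ 6 := Nat.one_le_pow _ _ (by omega)
  have h6 : 30 * ((q + 1) ^ 6 * (t + 1)) ≤ k := by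
    calc 30 * ((q + 1) ^ 6 * (t + 1)) ≤ 30 * ((p + 1) ^ 6 * (t + 1)) :=
          Nat.mul_le_mul_left _ (Nat.mul_le_mul_right _ h1)
      _ = 30 * (p + 1) ^ 6 * (t + 1) := by ring
      _ ≤ k := big
  have h7 : (q + 1) ^ 6 * (t + 1) = (q + 1) ^ 6 * t + (q + 1) ^ 6 := by ring
  rw [h7] at h6
  have h8 : 0 ≤ (q + 1) ^ 6 * t := Nat.zero_le _
  constructor <;> omega

/-- One of the two lengths is not larger than the other. -/
theorem F2_le [Finite V] {G : SimpleGraph V} {k t p L pC pD : ℕ} {c d : ℕ → V} {W : Set V}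
    (hW : W = Set.range c ∩ Set.range d) (hc : Cyc G L c) (mx : Mx G L)
    (pc : ∀ l, PL G l → Out c l → l.length ≤ pC) (pd : ∀ l, PL G l → Out d l → l.length ≤ pD)
    (ec : ∃ l, PL G l ∧ Out c l ∧ l.length = pC) (deg : ∀ v, k ≤ (G.neighborSet v).ncard)
    (big : 30 * (p + 1) ^ 6 * (t + 1) ≤ k) (hpC : pC ≤ p) (hw : W.ncard ≤ k + t)
    (hne : W.Nonempty) : pC ≤ pD := by
  obtain ⟨h1, h2⟩ := F2_num hpC big
  by_contra hlt
  push Not at hlt
  obtain ⟨Q, q1, q2, q3⟩ := ec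
  have h3 := lower hc mx pc deg h1 q1 q2 q3
  have hW' : W = Set.range d ∩ Set.range c := hW.trans (Set.inter_comm _ _)
  have h4 := up_gen hc hW' hne pd
  have h5 : (pD + 1) * W.ncard ≤ pC * (k + t) := Nat.mul_le_mul hlt hw
  have h6 : (pC + 1) * k = pC * k + k := by ring
  have h7 : pC * (k + t) = pC * k + pC * t := by ring
  omega

theorem core [Finite V] {G : SimpleGraph V} {k t p L : ℕ} {c d : ℕ → V} {W : Set V} (hW : W = Set.range c ∩ Set.range d)
    (hc : Cyc G L c) (hd : Cyc G L d) (mx : Mx G L) (pc : ∀ l, PL G l → Out c l → l.length ≤ p)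
    (pd : ∀ l, PL G l → Out d l → l.length ≤ p) (nc : ∃ v, v ∉ Set.range c) (nd : ∃ v, v ∉ Set.range d)
    (deg : ∀ v, k ≤ (G.neighborSet v).ncard) (con : (G.induce {v | v ∉ W}).Preconnected)
    (big : 30 * (p + 1) ^ 6 * (t + 1) ≤ k) : k + t < W.ncard := by
  by_contra hw
  push Not at hw
  obtain ⟨pC, c1, c2, c3, c4⟩ := exists_max pc nc
  obtain ⟨pD, d1, d2, d3, d4⟩ := exists_max pd nd
  have hne : W.Nonempty := w_ne hc hd hW mx c3 c4 deg (F2_num c2 big).1
  have hW' : W = Set.range d ∩ Set.range c := hW.trans (Set.inter_comm _ _)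
  have h1 : pC ≤ pD := F2_le hW hc mx c3 d3 c4 deg big c2 hw hne
  have h2 : pD ≤ pC := F2_le hW' hd mx d3 c3 d4 deg big d2 hw hne
  have h3 : pC = pD := le_antisymm h1 h2
  subst h3
  have h4 : 30 * (pC + 1) ^ 6 * (t + 1) ≤ k :=
    (Nat.mul_le_mul_right _ (Nat.mul_le_mul_left _ (Nat.pow_le_pow_left (by omega) 6))).trans big
  exact Su.false (k := k) (t := t) (p := pC) (L := L) (c := c) (d := d) (W := W) (G := G)
    ⟨hW, hc, hd, mx, c3, d3, c4, d4, deg, con, hw, h4, c1⟩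

end LC.Sm
end

section

/-!
# TASK SM F3: graphs of small circumference

`Lng`, `CS`, `PathSeq`, `del` are defined in `Lin/Defs.lean` and `K03.lean`.

PROOF.
`core_walk`: `cyc_of_walk` for `c` and `d` (they have the same length, both are longest), `mx_of_longest`, `out_vertex`; `common c d = Set.range c' ∩ Set.range d'`; `core`.
`path_le`: `main_ineq` (file `Lin/E02.lean`) with the cyclic sequence `c.getVert` (`cycseq_of_walk`; `Lng`: `walk_of_cycseq` turns any `CycSeq` into a cycle, which is not longer than `c`) and the path `p q = l.getD q a` for `q < l.length` (not in `CS L c.getVert` because the elements of `l` are not in `c.support`; adjacent in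
`del G (CS L _)`: both ends are outside). `1 ≤ l.length`.
-/

namespace LC.Sm

open Classical

universe u

/-- **Theorem.** Two longest cycles `c`, `d` of a non-Hamiltonian graph of minimum degree at least `k`; the paths outside `c` and
the paths outside `d` have at most `p` vertices. -/
theorem core_walk {V : Type u} [Fintype V] {G : SimpleGraph V} {k t p : ℕ} (hn : ¬ G.IsHamiltonian)
    (deg : ∀ v, k ≤ (G.neighborSet v).ncard) {a b : V} {c : G.Walk a a} {d : G.Walk b b} (hc : IsLongest c)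
    (hd : IsLongest d) (pc : ∀ l, PL G l → (∀ v ∈ l, v ∉ c.support) → l.length ≤ p)
    (pd : ∀ l, PL G l → (∀ v ∈ l, v ∉ d.support) → l.length ≤ p) (con : ¬ IsArticulation G (common c d))
    (big : 30 * (p + 1) ^ 6 * (t + 1) ≤ k) : k + t < (common c d).ncard := by
  obtain ⟨c', hc', rc⟩ := cyc_of_walk c hc.1
  obtain ⟨d', hd', rd⟩ := cyc_of_walk d hd.1
  have hL : d.length = c.length := le_antisymm (hc.2 _ d hd.1) (hd.2 _ c hc.1)
  rw [hL] at hd'
  have mx := mx_of_longest hc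
  have oc : ∀ v, v ∈ Set.range c' ↔ v ∈ c.support := by
    intro v
    rw [rc]
    exact Iff.rfl
  have od : ∀ v, v ∈ Set.range d' ↔ v ∈ d.support := by
    intro v
    rw [rd]
    exact Iff.rfl
  have hcom : common c d = Set.range c' ∩ Set.range d' := by
    rw [rc, rd]
    rfl
  obtain ⟨x, hx⟩ := out_vertex hc.1 hn
  obtain ⟨y, hy⟩ := out_vertex hd.1 hn
  refine core (p := p) hcom hc' hd' mx ?_ ?_ ⟨x, fun h => hx ((oc x).1 h)⟩ ⟨y, fun h => hy ((od y).1 h)⟩ deg
    (not_not.1 con) big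
  · intro l hl ho
    exact pc l hl (fun v hv h => ho v hv ((oc v).2 h))
  · intro l hl ho
    exact pd l hl (fun v hv h => ho v hv ((od v).2 h))

theorem path_le {V : Type u} [Fintype V] {G : SimpleGraph V} {k : ℕ} (hG : IsKConn G k) (hk : 44 ≤ k) {a : V}
    {c : G.Walk a a} (hc : IsLongest c) {l : List V} (hl : PL G l) (ho : ∀ v ∈ l, v ∉ c.support) :
    k * l.length ≤ 7939800 * c.length := by
  obtain ⟨h1, h2⟩ := cycseq_of_walk c hc.1
  have hLng : Lin.Lng G c.length c.getVert := by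
    refine ⟨h1, ?_⟩
    intro n z hz
    obtain ⟨w, hw, hwl, _, _⟩ := walk_of_cycseq hz
    rw [← hwl]
    exact hc.2 _ w hw
  have hCS : ∀ v, v ∈ Lin.CS c.length c.getVert → v ∈ c.support := by
    intro v hv
    exact (h2 v).2 hv
  have hget : ∀ q (hq : q < l.length), l.getD q a = l[q] := by
    intro q hq
    rw [List.getD_eq_getElem?_getD, List.getElem?_eq_getElem hq]
    rfl
  have hpC : ∀ q < l.length, l.getD q a ∉ Lin.CS c.length c.getVert := by
    intro q hq h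
    rw [hget q hq] at h
    exact ho _ (List.getElem_mem hq) (hCS _ h)
  refine Lin.main_ineq (p := fun q => l.getD q a) hG hk hLng ⟨?_, ?_⟩ hpC (List.length_pos_of_ne_nil hl.1)
  · intro i hi j hj hij
    rw [hget i hi, hget j hj] at hij
    exact (List.Nodup.getElem_inj_iff hl.2.1).1 hij
  · intro i hi
    refine ⟨?_, hpC i (by omega), hpC (i + 1) hi⟩
    rw [hget i (by omega), hget (i + 1) hi]
    exact List.isChain_iff_getElem.1 hl.2.2 i hi

end LC.Sm
end

section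

/-!
# TASK SM F4: the final statements

PROOF.
`arith`: `k ≤ L` and `30 * 15879600 ^ 6 * (t + 1) * L ^ 6 ≤ k ^ 7`. With `p = 7939800 * L / k`: `(p + 1) * k ≤ 7939800 * L + k ≤ 7939801 * L ≤ 15879600 * L`, so `(p + 1) ^ 6 * k ^ 6 ≤ 15879600 ^ 6 * L ^ 6` and `30 * (p + 1) ^ 6 * (t + 1) * k ^ 6 ≤ k ^ 7`; cancel `k ^ 6` (`k > 0`). `44 ≤ k`: `30 * 15879600 ^ 6 * k ^ 6 ≤ k ^ 7` as `k ≤ L`. (Do not let
`simp` or `norm_num` evaluate the powers with variables; generalize `15879600 ^ 6` if necessary.)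
`small_circ`: `k < L` by `cycle_of_degree`, `degree_of_kconn` (file `K02.lean`, `k ≥ 2`, see `meet_linear` in `Lin/E04.lean`). `p = 7939800 * L / k`; `path_le` gives `k * l.length ≤ 7939800 * L`, so `l.length ≤ p` (`Nat.le_div_iff_mul_le`). `core_walk`.
-/

namespace LC.Sm

open Classical

universe u

private theorem F4_arith {k L t A B : ℕ} (hB : 7939801 ≤ B) (hA : A = B ^ 6) (hk : 0 < k)
    (h1 : k ≤ L) (h : 30 * A * (t + 1) * L ^ 6 ≤ k ^ 7) :
    44 ≤ k ∧ 30 * (7939800 * L / k + 1) ^ 6 * (t + 1) ≤ k := by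
  have hk6 : 0 < k ^ 6 := Nat.pow_pos hk
  constructor
  · have hA1 : 2 ≤ A := by
      rw [hA]
      calc 2 ≤ B := by omega
        _ = B ^ 1 := (pow_one B).symm
        _ ≤ B ^ 6 := Nat.pow_le_pow_right (by omega) (by norm_num)
    have h2 : 44 * k ^ 6 ≤ k * k ^ 6 := by
      calc 44 * k ^ 6 ≤ 60 * k ^ 6 := Nat.mul_le_mul_right _ (by norm_num)
        _ ≤ 30 * A * k ^ 6 := Nat.mul_le_mul_right _ (by omega)
        _ ≤ 30 * A * (t + 1) * L ^ 6 := by
          apply Nat.mul_le_mul _ (Nat.pow_le_pow_left h1 6)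
          exact Nat.le_mul_of_pos_right _ (by omega)
        _ ≤ k ^ 7 := h
        _ = k * k ^ 6 := by ring
    exact Nat.le_of_mul_le_mul_right h2 hk6
  · have hp : (7939800 * L / k + 1) * k ≤ B * L := by
      have h3 : 7939800 * L / k * k ≤ 7939800 * L := Nat.div_mul_le_self _ _
      calc (7939800 * L / k + 1) * k = 7939800 * L / k * k + k := by ring
        _ ≤ 7939800 * L + L := by omega
        _ = 7939801 * L := by ring
        _ ≤ B * L := Nat.mul_le_mul_right _ hB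
    have h4 : (7939800 * L / k + 1) ^ 6 * k ^ 6 ≤ A * L ^ 6 := by
      rw [hA, ← mul_pow, ← mul_pow]
      exact Nat.pow_le_pow_left hp 6
    have h5 : 30 * (7939800 * L / k + 1) ^ 6 * (t + 1) * k ^ 6 ≤ k * k ^ 6 := by
      calc 30 * (7939800 * L / k + 1) ^ 6 * (t + 1) * k ^ 6
          = 30 * (t + 1) * ((7939800 * L / k + 1) ^ 6 * k ^ 6) := by ring
        _ ≤ 30 * (t + 1) * (A * L ^ 6) := Nat.mul_le_mul_left _ h4
        _ = 30 * A * (t + 1) * L ^ 6 := by ring
        _ ≤ k ^ 7 := h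
        _ = k * k ^ 6 := by ring
    exact Nat.le_of_mul_le_mul_right h5 hk6

theorem arith {k L t : ℕ} (hk : 0 < k) (h1 : k ≤ L) (h : 30 * 15879600 ^ 6 * (t + 1) * L ^ 6 ≤ k ^ 7) :
    44 ≤ k ∧ 30 * (7939800 * L / k + 1) ^ 6 * (t + 1) ≤ k := by
  exact F4_arith (B := 15879600) (by norm_num) rfl hk h1 h

/-- **Corollary.** -/
theorem small_circ {V : Type u} [Fintype V] {G : SimpleGraph V} {k t : ℕ} (hG : IsKConn G k) (hk : 2 ≤ k)
    (hn : ¬ G.IsHamiltonian) {a b : V} {c : G.Walk a a} {d : G.Walk b b} (hc : IsLongest c) (hd : IsLongest d)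
    (big : 30 * 15879600 ^ 6 * (t + 1) * c.length ^ 6 ≤ k ^ 7) (con : ¬ IsArticulation G (common c d)) :
    k + t < (common c d).ncard := by
  have hdeg := degree_of_kconn hG
  have : Nonempty V := ⟨a⟩
  obtain ⟨v, w, hw, hlen⟩ := cycle_of_degree hk hdeg
  have hkL : k ≤ c.length := by
    have := hc.2 v w hw
    omega
  obtain ⟨h44, h30⟩ := arith (by omega) hkL big
  have hL : d.length = c.length := le_antisymm (hc.2 _ d hd.1) (hd.2 _ c hc.1)
  refine core_walk hn hdeg hc hd ?_ ?_ con h30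
  · intro l hl ho
    rw [Nat.le_div_iff_mul_le (by omega), mul_comm]
    exact path_le hG h44 hc hl ho
  · intro l hl ho
    rw [Nat.le_div_iff_mul_le (by omega), mul_comm, ← hL]
    exact path_le hG h44 hd hl ho

end LC.Sm
end
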